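import Mathlib
import Pool.Agent.Lib.NK.Reduce2
import Pool.Agent.Lib.NK.Conv
import Pool.Agent.Lib.NK.Two
import Pool.Agent.Lib.NK.Local
import Pool.Agent.Lib.PR.Dc

set_option autoImplicit false

/-! Plane digraphs as combinatorial maps: definitions (MP_c62493_co, planar case).

Darts `D`; `σ` rotates the darts around a vertex (counterclockwise), `τ` maps a dart to the other
end of its arc, `out d` says that the arc leaves the vertex at `d`.  The corner between `d` and
`σ d` is denoted by `d`.  The face permutation on corners is `τ * σ`.  Crossing an outgoing dart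
counterclockwise (from corner `σ⁻¹ d` to corner `d`) goes UP. -/

namespace Pool.Agent.Lib.PLQ

open Finset Pool.Agent.Lib.NK
open scoped Classical

/-- `H¹ = 0` for the corners of a map, over the field `K` -/
def CJ (K : Type) [Field K] {D : Type} (σ τ : Equiv.Perm D) : Prop :=
  ∀ g h : D → K, (∀ d, g (σ d) - g d = h (τ (σ d)) - h d) →
    ∃ c : D → K, (∀ d, c (τ d) = c d) ∧ ∀ d, g (σ d) - c (σ d) = g d - c d

/-- a plane multidigraph (loops and parallel arcs allowed) with vertices in `V` -/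
structure PM0 (V D : Type) where
  σ : Equiv.Perm D
  τ : Equiv.Perm D
  vt : D → V
  out : D → Bool
  tt : ∀ d, τ (τ d) = d
  ot : ∀ d, out (τ d) = !out d
  vs : ∀ d e, vt d = vt e ↔ σ.SameCycle d e
  cj2 : CJ (ZMod 2) σ τ
  cjq : CJ ℚ σ τ

/-- the adjacency relation of the digraph -/
def PM0.R {V D : Type} (M : PM0 V D) (a b : V) : Prop :=
  ∃ d, M.out d = true ∧ M.vt d = a ∧ M.vt (M.τ d) = b

/-- with named faces, every vertex having a dart -/
structure PM (V D F : Type) extends PM0 V D where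
  fc : D → F
  fs : ∀ d e, fc d = fc e ↔ (τ * σ).SameCycle d e
  fsur : ∀ f, ∃ d, fc d = f
  vsur : ∀ v, ∃ d, vt d = v

namespace PM

variable {V D F : Type} (M : PM V D F)

/-- adjacency relation of the digraph -/
def R (a b : V) : Prop := M.toPM0.R a b

/-- the dual arcs, from the right face to the left face -/
def up (x y : F) : Prop := ∃ d, M.out d = true ∧ M.fc (M.σ⁻¹ d) = x ∧ M.fc d = y

def adj (x y : F) : Prop := M.up x y ∨ M.up y x

def le (x y : F) : Prop := Relation.ReflTransGen M.up x y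

/-- local step upwards between neighbouring corners at a vertex -/
def lup (d e : D) : Prop :=
  (e = M.σ d ∧ M.out (M.σ d) = true) ∨ (d = M.σ e ∧ M.out (M.σ e) = false)

def lmin (d : D) : Prop := M.out d = false ∧ M.out (M.σ d) = true

def lmax (d : D) : Prop := M.out d = true ∧ M.out (M.σ d) = false

/-- a vertex with at least two local minima -/
def Sad (v : V) : Prop := ∃ d e, d ≠ e ∧ M.vt d = v ∧ M.vt e = v ∧ M.lmin d ∧ M.lmin e

def Conn (X : Set F) : Prop :=
  ∀ x ∈ X, ∀ y ∈ X, Relation.ReflTransGen (fun a b => M.adj a b ∧ b ∈ X) x y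

def UpC (X : Set F) : Prop := ∀ x y, M.up x y → x ∈ X → y ∈ X

def DnC (X : Set F) : Prop := ∀ x y, M.up x y → y ∈ X → x ∈ X

structure Disc (X : Set F) : Prop where
  ne : X.Nonempty
  cne : Xᶜ.Nonempty
  cn : M.Conn X
  cc : M.Conn Xᶜ

structure UDisc (X : Set F) : Prop where
  disc : M.Disc X
  up : M.UpC X

structure DDisc (X : Set F) : Prop where
  disc : M.Disc X
  dn : M.DnC X

/-- the face set `X` has a corner at `v` -/
def At (X : Set F) (v : V) : Prop := ∃ d, M.vt d = v ∧ M.fc d ∈ X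

/-- the vertices on the boundary of `X` -/
noncomputable def bd [Fintype V] (X : Set F) : Finset V :=
  univ.filter (fun v => M.At X v ∧ M.At Xᶜ v)

/-- darts whose arc separates `X` from its complement -/
def del (X : Set F) (d : D) : Prop := ¬ (M.fc d ∈ X ↔ M.fc (M.σ⁻¹ d) ∈ X)

/-- cyclic order of corners at a vertex: `b` is met before `c` on the way around from `a` -/
def Cyc (a b c : D) : Prop :=
  ∃ i j, 0 < i ∧ i < j ∧ (M.σ ^ i) a = b ∧ (M.σ ^ j) a = c ∧
    ∀ m, 0 < m → m ≤ j → (M.σ ^ m) a ≠ a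

end PM

/-- standing hypotheses -/
structure Good {V D F : Type} [Fintype V] (M : PM V D F) : Prop where
  nl : ∀ d, M.vt (M.τ d) ≠ M.vt d
  np : ∀ d e, M.out d = true → M.out e = true → M.vt d = M.vt e →
    M.vt (M.τ d) = M.vt (M.τ e) → d = e
  ts : TwoStr M.R univ
  nr : ¬ Neck M.R

/-- a digon face between `d` and `σ d` around which the orientations alternate at both ends -/
def AltDigon {V D F : Type} (M : PM V D F) (d : D) : Prop :=
  M.vt (M.τ d) = M.vt (M.τ (M.σ d)) ∧ M.σ (M.τ (M.σ d)) = M.τ d ∧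
  M.σ (M.σ d) ≠ d ∧ M.σ (M.τ d) ≠ M.τ (M.σ d) ∧
  M.out (M.σ⁻¹ d) ≠ M.out d ∧ M.out d ≠ M.out (M.σ d) ∧ M.out (M.σ d) ≠ M.out (M.σ (M.σ d)) ∧
  M.out (M.σ⁻¹ (M.τ (M.σ d))) ≠ M.out (M.τ (M.σ d)) ∧
  M.out (M.τ (M.σ d)) ≠ M.out (M.τ d) ∧ M.out (M.τ d) ≠ M.out (M.σ (M.τ d))

/-- a 2-separation with a dicycle through both separating vertices on each side -/
def Sep2 {V : Type} [Fintype V] (R : V → V → Prop) : Prop :=
  ∃ (g h : V) (A B : Finset V), g ≠ h ∧ g ∉ A ∧ h ∉ A ∧ g ∉ B ∧ h ∉ B ∧ A.Nonempty ∧ B.Nonempty ∧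
    Disjoint A B ∧ (∀ v, v = g ∨ v = h ∨ v ∈ A ∨ v ∈ B) ∧
    (∀ a ∈ A, ∀ b ∈ B, ¬ R a b ∧ ¬ R b a) ∧
    Link R (insert g (insert h A)) g h ∧ Link R (insert g (insert h B)) g h

end Pool.Agent.Lib.PLQ
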