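import Mathlib
import Pool.Agent.Lib.PLQ.Defs

set_option autoImplicit false
set_option linter.unusedSectionVars false
set_option linter.unusedVariables false

/-! Basic facts, the reversed map `rev` and the mirror image `mir`. -/

namespace Pool.Agent.Lib.PLQ

open Finset Pool.Agent.Lib.NK
open scoped Classical

@[simp] theorem perm_ia {D : Type} (f : Equiv.Perm D) (d : D) : f⁻¹ (f d) = d := f.symm_apply_apply d

@[simp] theorem perm_ai {D : Type} (f : Equiv.Perm D) (d : D) : f (f⁻¹ d) = d := f.apply_symm_apply d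

theorem CJ.inv {K : Type} [Field K] {D : Type} {σ τ : Equiv.Perm D} (h : CJ K σ τ)
    (ht : ∀ d, τ (τ d) = d) : CJ K σ⁻¹ τ := by
  intro g k hgk
  obtain ⟨c, hc, hc'⟩ := h g (fun d => k (τ d)) (by
    intro d
    have := hgk (σ d)
    simp only [perm_ia] at this
    rw [ht]
    linear_combination -this)
  refine ⟨c, hc, ?_⟩
  intro d
  have := hc' (σ⁻¹ d)
  rw [perm_ai] at this
  exact this.symm

namespace PM

variable {V D F : Type} (M : PM V D F)

theorem fc_phi (d : D) : M.fc (M.τ (M.σ d)) = M.fc d := by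
  rw [M.fs]
  exact (Equiv.Perm.sameCycle_apply_left.mpr (Equiv.Perm.SameCycle.refl (M.τ * M.σ) d))

theorem fc_ti (d : D) : M.fc (M.σ⁻¹ (M.τ d)) = M.fc d := by
  have := M.fc_phi (M.σ⁻¹ (M.τ d))
  rw [perm_ai, M.tt] at this
  exact this.symm

theorem fc_tau (d : D) : M.fc (M.τ d) = M.fc (M.σ⁻¹ d) := by
  have := M.fc_phi (M.σ⁻¹ d)
  rwa [perm_ai] at this

theorem vt_sig (d : D) : M.vt (M.σ d) = M.vt d := by
  rw [M.vs]
  exact (Equiv.Perm.sameCycle_apply_left.mpr (Equiv.Perm.SameCycle.refl M.σ d))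

theorem vt_inv (d : D) : M.vt (M.σ⁻¹ d) = M.vt d := by
  have := M.vt_sig (M.σ⁻¹ d)
  rwa [perm_ai, eq_comm] at this

theorem vt_pow (d : D) (k : ℕ) : M.vt ((M.σ ^ k) d) = M.vt d := by
  induction k with
  | zero => rfl
  | succ k ih => rw [pow_succ', Equiv.Perm.mul_apply, M.vt_sig, ih]

theorem up_out {d : D} (h : M.out d = true) : M.up (M.fc (M.σ⁻¹ d)) (M.fc d) := ⟨d, h, rfl, rfl⟩

theorem up_in {d : D} (h : M.out d = false) : M.up (M.fc d) (M.fc (M.σ⁻¹ d)) := by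
  refine ⟨M.τ d, by rw [M.ot, h]; rfl, M.fc_ti d, M.fc_tau d⟩

theorem adj_dart (d : D) : M.adj (M.fc (M.σ⁻¹ d)) (M.fc d) := by
  cases h : M.out d
  · exact Or.inr (M.up_in h)
  · exact Or.inl (M.up_out h)

theorem adj_sig (d : D) : M.adj (M.fc d) (M.fc (M.σ d)) := by
  have := M.adj_dart (M.σ d)
  rwa [perm_ia] at this

theorem adj_symm {x y : F} (h : M.adj x y) : M.adj y x := Or.symm h

theorem lup_up {d e : D} (h : M.lup d e) : M.up (M.fc d) (M.fc e) := by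
  rcases h with ⟨rfl, h⟩ | ⟨rfl, h⟩
  · have := M.up_out h
    rwa [perm_ia] at this
  · have := M.up_in h
    rwa [perm_ia] at this

theorem lup_vt {d e : D} (h : M.lup d e) : M.vt e = M.vt d := by
  rcases h with ⟨rfl, h⟩ | ⟨rfl, h⟩
  · exact M.vt_sig d
  · exact (M.vt_sig e).symm

theorem lup_le {d e : D} (h : Relation.ReflTransGen M.lup d e) : M.le (M.fc d) (M.fc e) := by
  induction h with
  | refl => exact Relation.ReflTransGen.refl
  | tail _ h ih => exact ih.tail (M.lup_up h)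

theorem up_le {x y : F} (h : M.up x y) : M.le x y := Relation.ReflTransGen.single h

theorem le_rfl' (x : F) : M.le x x := Relation.ReflTransGen.refl

theorem le_trans' {x y z : F} (h : M.le x y) (h' : M.le y z) : M.le x z := h.trans h'

/-- all arcs reversed -/
def rev : PM V D F where
  σ := M.σ
  τ := M.τ
  vt := M.vt
  out := fun d => !M.out d
  tt := M.tt
  ot := by intro d; simp [M.ot]
  vs := M.vs
  cj2 := M.cj2
  cjq := M.cjq
  fc := M.fc
  fs := M.fs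
  fsur := M.fsur
  vsur := M.vsur

/-- the mirror image (with all arcs reversed, so that `up` is unchanged) -/
def mir : PM V D F where
  σ := M.σ⁻¹
  τ := M.τ
  vt := M.vt
  out := fun d => !M.out d
  tt := M.tt
  ot := by intro d; simp [M.ot]
  vs := by intro d e; rw [M.vs]; exact Equiv.Perm.sameCycle_inv.symm
  cj2 := M.cj2.inv M.tt
  cjq := M.cjq.inv M.tt
  fc := fun d => M.fc (M.σ⁻¹ d)
  fs := by
    have key : ∀ k : ℤ, ∀ e, M.σ⁻¹ (((M.τ * M.σ⁻¹) ^ k) e) = ((M.τ * M.σ) ^ (-k)) (M.σ⁻¹ e) := by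
      have hτ : M.τ⁻¹ = M.τ := by
        ext d
        rw [Equiv.Perm.inv_eq_iff_eq, M.tt]
      have h0 : M.τ * M.σ⁻¹ = M.σ * (M.τ * M.σ)⁻¹ * M.σ⁻¹ := by
        rw [mul_inv_rev, hτ]; group
      intro k e
      rw [h0, conj_zpow, Equiv.Perm.mul_apply, Equiv.Perm.mul_apply, perm_ia, inv_zpow, zpow_neg]
    intro d e
    rw [M.fs]
    constructor
    · rintro ⟨k, hk⟩
      refine ⟨-k, ?_⟩
      have := key (-k) d
      rw [neg_neg, hk] at this
      exact M.σ⁻¹.injective this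
    · rintro ⟨k, hk⟩
      refine ⟨-k, ?_⟩
      rw [← key, hk]
  fsur := by
    intro f
    obtain ⟨d, hd⟩ := M.fsur f
    exact ⟨M.σ d, by simpa using hd⟩
  vsur := M.vsur

end PM

/-! ### definitions used by the modules -/

section defs

variable {V D F : Type} [Fintype V] [Fintype D] [Fintype F]

/-- flow from `x` to `y` in the dual graph -/
def Flow (M : PM V D F) (B : D → ℚ) (x y : F) : Prop :=
  (∀ d, B (M.τ d) = - B d) ∧
  ∀ w : F → ℚ, ∑ d ∈ univ.filter (fun d => M.out d = true),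
    B d * (w (M.fc d) - w (M.fc (M.σ⁻¹ d))) = w y - w x

def PF (M : PM V D F) (A : Set F) (a a' : D) (s : D → ZMod 2) : Prop :=
  (∀ d, s d ≠ 0 → M.fc d ∈ A) ∧
  (∀ d, ∑ e ∈ univ.filter (fun e => M.fc e = M.fc d), s e = 0) ∧
  ∀ r : D → ZMod 2, (∀ d, M.fc d ∈ A → M.fc (M.σ⁻¹ d) ∈ A → r (M.σ⁻¹ d) = r d) →
    ∑ d, r d * s d = r a + r a'

/-- number (mod 2) of occurrences of `x` among the corners `d, σ d, ..., σ^(k-1) d` -/
noncomputable def cnt (M : PM V D F) (d : D) (k : ℕ) (x : D) : ZMod 2 :=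
  if ∃ i, i < k ∧ (M.σ ^ i) d = x then 1 else 0

/-- the arc of the dart `d` is not interior to `A` at this end -/
def Fr (M : PM V D F) (A : Set F) (d : D) : Prop := ¬ (M.fc d ∈ A ∧ M.fc (M.σ⁻¹ d) ∈ A)

def Phi (M : PM V D F) (b : F) : Set F :=
  {y | Relation.ReflTransGen (fun x z => M.adj x z ∧ ¬ (M.le b z ∧ z ≠ b)) b y}

/-- the up-piece of `b` containing `y` (for `y ∉ Phi M b`) -/
def UP (M : PM V D F) (b y : F) : Set F :=
  {z | Relation.ReflTransGen (fun x z => M.adj x z ∧ z ∉ Phi M b) y z}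

/-- the down-piece of `b` containing `y` (for `y ∉ Phi M.rev b`) -/
def DP (M : PM V D F) (b y : F) : Set F := UP M.rev b y

/-- `X` is a piece of `b` -/
def IsPc (M : PM V D F) (b : F) (X : Set F) : Prop :=
  (∃ y, y ∉ Phi M b ∧ X = UP M b y) ∨ (∃ y, y ∉ Phi M.rev b ∧ X = DP M b y)

/-- the piece of `b` containing the neighbour `x` of `b` -/
noncomputable def PC (M : PM V D F) (b x : F) : Set F := if M.le b x then UP M b x else DP M b x

def SMin (M : PM V D F) (d : D) : Prop := M.lmin d ∧ M.Sad (M.vt d)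

def SMax (M : PM V D F) (d : D) : Prop := M.lmax d ∧ M.Sad (M.vt d)

def GoodU (M : PM V D F) (X : Set F) : Prop := M.UDisc X ∧ ∃ d, SMin M d ∧ M.fc d ∈ X

def GoodD (M : PM V D F) (X : Set F) : Prop := M.DDisc X ∧ ∃ d, SMax M d ∧ M.fc d ∈ X

structure Mn (M : PM V D F) (X : Set F) : Prop where
  gu : GoodU M X
  mU : ∀ Y, GoodU M Y → Y ⊆ X → Y = X
  mD : ∀ Y, GoodD M Y → ¬ Y ⊆ X

def Lo (M : PM V D F) (X : Set F) : Set F := {z | z ∈ X ∧ ∀ p, p ∉ X → ¬ M.le p z}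

def Zo (M : PM V D F) (X : Set F) : Set F := {z | z ∈ X ∧ ∃ p, p ∉ X ∧ M.le p z}

/-- component of `y` in `Lo` (for `y ∈ Lo`) -/
def Yc (M : PM V D F) (X : Set F) (y : F) : Set F :=
  {z | Relation.ReflTransGen (fun a b => M.adj a b ∧ b ∈ Lo M X) y z}

def Node (M : PM V D F) (X N : Set F) : Prop := N = Xᶜ ∨ ∃ y, y ∈ Lo M X ∧ N = Yc M X y

/-- minimal face of `Zo` -/
def Zmin (M : PM V D F) (X : Set F) (z : F) : Prop := z ∈ Zo M X ∧ ∀ w, w ∈ Zo M X → M.le w z → w = z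

/-- the face on the inner side of a boundary dart -/
noncomputable def inn (M : PM V D F) (Q : Set F) (d : D) : F :=
  if M.fc d ∈ Q then M.fc d else M.fc (M.σ⁻¹ d)

/-- region containing `z` (for `z ∉ Y ∪ P`) -/
def Rg (M : PM V D F) (Y P : Set F) (z : F) : Set F :=
  {w | Relation.ReflTransGen (fun a b => M.adj a b ∧ b ∉ Y ∧ b ∉ P) z w}

structure TwoD (M : PM V D F) (Y P : Set F) : Prop where
  y : M.DDisc Y
  p : M.DDisc P
  dj : Disjoint Y P
  na : ∀ a ∈ Y, ∀ b ∈ P, ¬ M.adj a b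

/-- common vertex -/
def Tch (M : PM V D F) (Y P : Set F) (v : V) : Prop := M.At Y v ∧ M.At P v

structure C2 (M : PM V D F) (X Y : Set F) (g h : V) : Prop where
  mn : Mn M X
  nd : Node M X Y
  ny : Y ≠ Xᶜ
  gh : g ≠ h
  tg : M.At Y g ∧ M.At Xᶜ g
  th : M.At Y h ∧ M.At Xᶜ h
  only : ∀ v, M.At Y v → M.At Xᶜ v → v = g ∨ v = h
  sm : ∀ e, SMin M e → M.fc e ∈ X → M.fc e ∈ Y
  on : ∀ N N' v, Node M X N → Node M X N' → N ≠ N' → M.At N v → M.At N' v → N = Y ∨ N = Xᶜ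

structure Four (M : PM V D F) (X Y : Set F) (v : V) (p : D) (k l : ℕ) : Prop where
  k0 : 0 < k
  l0 : 0 < l
  vp : M.vt p = v
  per : (M.σ ^ (k + l + 2)) p = p
  inj : ∀ i, 0 < i → i < k + l + 2 → (M.σ ^ i) p ≠ p
  all : ∀ d, M.vt d = v → ∃ i, i < k + l + 2 ∧ d = (M.σ ^ i) p
  yr : ∀ i, i < k → M.fc ((M.σ ^ i) p) ∈ Y
  pr : ∀ i, i < l → M.fc ((M.σ ^ (k + 1 + i)) p) ∉ X
  q1 : M.lmax ((M.σ ^ k) p)
  q2 : Zmin M X (M.fc ((M.σ ^ k) p))
  r1 : M.lmax ((M.σ ^ (k + 1 + l)) p)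
  r2 : Zmin M X (M.fc ((M.σ ^ (k + 1 + l)) p))

/-- `m` is one of the two `Zo` corners of `Four`, `n` the other one -/
def Two (M : PM V D F) (p : D) (k l : ℕ) (m n : D) : Prop :=
  (m = (M.σ ^ k) p ∧ n = (M.σ ^ (k + 1 + l)) p) ∨ (m = (M.σ ^ (k + 1 + l)) p ∧ n = (M.σ ^ k) p)

/-- `k` is the only corner between `a` and `b` at their vertex (on one side), `k1` the only corner
between `a'` and `b'`, and the arcs of `k`, `σ k` are the arcs of `σ k1`, `k1` -/
def Triv (M : PM V D F) (a b k a' b' k1 : D) : Prop :=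
  ((k = M.σ a ∧ b = M.σ k) ∨ (k = M.σ b ∧ a = M.σ k)) ∧
  ((k1 = M.σ a' ∧ b' = M.σ k1) ∨ (k1 = M.σ b' ∧ a' = M.σ k1)) ∧
  k1 = M.τ (M.σ k) ∧ M.σ k1 = M.τ k

/-- `o'` is an outgoing dart met after `o` before the incoming darts (counterclockwise) -/
def Bef (M : PM V D F) (o o' : D) : Prop :=
  ∃ k : ℕ, 0 < k ∧ o' = (M.σ ^ k) o ∧ ∀ i, i ≤ k → M.out ((M.σ ^ i) o) = true

/-- number of local minima -/
noncomputable def nmin {V D : Type} [Fintype D] (M : PM0 V D) : ℕ :=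
  (univ.filter (fun d => M.out d = false ∧ M.out (M.σ d) = true)).card

/-- the number of cycles of a permutation -/
noncomputable def ncyc {D : Type} (π : Equiv.Perm D) : ℕ :=
  Nat.card (Quotient (Equiv.Perm.SameCycle.setoid π))

/-- `R` on `S` is covered by a plane multidigraph -/
def Pl {V : Type} (R : V → V → Prop) (S : Finset V) : Prop :=
  ∃ (D : Type) (_ : Fintype D) (M : PM0 V D),
    ∀ a ∈ S, ∀ b ∈ S, R a b → a ≠ b → ∃ d, M.out d = true ∧ M.vt d = a ∧ M.vt (M.τ d) = b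

/-- ring of `n` dicycles given by lists `w i :: l i`; `y i` is a common vertex of the dicycles `i`
and `i+1`, `b i`, `b' i` its successors on them (not on the other one); `b' i` and `b (i-1)` are
connected avoiding the dicycle `i` -/
def RingL {V : Type} (R : V → V → Prop) (n : ℕ) (w : ℕ → V) (l : ℕ → List V) (y b b' : ℕ → V) :
    Prop :=
  3 ≤ n ∧ (∀ i, i < n → (w i :: l i).Nodup ∧ (w i :: (l i ++ [w i])).IsChain R) ∧
  (∀ i, i < n → [y i, b i] <:+: (w i :: (l i ++ [w i])) ∧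
    [y i, b' i] <:+: (w ((i + 1) % n) :: (l ((i + 1) % n) ++ [w ((i + 1) % n)])) ∧
    b i ∉ w ((i + 1) % n) :: l ((i + 1) % n) ∧ b' i ∉ w i :: l i) ∧
  (∀ i, i < n → Relation.ReflTransGen (fun p q => (R p q ∨ R q p) ∧ q ∉ w i :: l i)
    (b' i) (b ((i + n - 1) % n)))

end defs

end Pool.Agent.Lib.PLQ
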