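import Mathlib
import Pool.Agent.Lib.PLQ.Basic

set_option autoImplicit false
set_option linter.unusedSectionVars false
set_option linter.unusedVariables false

/-! Module OpsA: `CJ` under cutting an edge, removing a free end, duality. -/

namespace Pool.Agent.Lib.PLQ

open Finset Pool.Agent.Lib.NK
open scoped Classical

/-- cutting the edge `{d, τ d}` into two free ends.
Proof: given `g, h` for the new `τ'`, let `r = h (τ d) - h d`, add `r` to `g d` and `h d`, apply the
hypothesis and subtract `r` from `c d`. -/
theorem CJ.cut {K D : Type} [Field K] {σ τ τ' : Equiv.Perm D} (h : CJ K σ τ) (ht : ∀ x, τ (τ x) = x)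
    (d : D) (hd : τ d ≠ d) (h1 : τ' d = d) (h2 : τ' (τ d) = τ d)
    (h3 : ∀ x, x ≠ d → x ≠ τ d → τ' x = τ x) : CJ K σ τ' := by
  intro g k hgk
  have htd : ∀ x, τ x = d → x = τ d := by
    intro x hx
    rw [← hx, ht]
  obtain ⟨c, hc, hc'⟩ := h (fun x => g x + if x = d then k (τ d) - k d else 0)
    (fun x => k x + if x = d then k (τ d) - k d else 0) (by
      intro x
      have h4 := hgk x
      by_cases hx1 : σ x = d
      · rw [hx1, h1] at h4
        simp only [hx1, if_true, hd, if_false]
        linear_combination h4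
      · by_cases hx2 : σ x = τ d
        · rw [hx2, h2] at h4
          simp only [hx2, ht, if_true, hd, if_false]
          linear_combination h4
        · rw [h3 _ hx1 hx2] at h4
          have h5 : τ (σ x) ≠ d := fun h6 => hx2 (htd _ h6)
          simp only [hx1, h5, if_false]
          linear_combination h4)
  refine ⟨fun x => c x - if x = d then k (τ d) - k d else 0, ?_, ?_⟩
  · intro x
    by_cases hx1 : x = d
    · rw [hx1, h1]
    · by_cases hx2 : x = τ d
      · rw [hx2, h2]
      · rw [h3 x hx1 hx2]
        have h5 : τ x ≠ d := fun h6 => hx2 (htd _ h6)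
        simp only [hx1, h5, if_false, hc]
  · intro x
    have h4 := hc' x
    linear_combination h4

/-- removing a free end `d` from the rotation.
Proof: given `g, h` for `σ'`, put `h d = 0`, `g d = g (σ⁻¹ d) - h (σ⁻¹ d)`. -/
theorem CJ.skip {K D : Type} [Field K] {σ τ σ' : Equiv.Perm D} (h : CJ K σ τ) (d : D)
    (hd : τ d = d) (h1 : σ' d = d) (h2 : σ d ≠ d → σ' (σ⁻¹ d) = σ d)
    (h3 : ∀ x, x ≠ d → σ x ≠ d → σ' x = σ x) : CJ K σ' τ := by
  by_cases hsd : σ d = d
  · have : σ' = σ := by
      ext x
      by_cases hx : x = d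
      · rw [hx, h1, hsd]
      · exact h3 x hx (fun h4 => hx (σ.injective (h4.trans hsd.symm)))
    rw [this]
    exact h
  intro g k hgk
  obtain ⟨y, hy⟩ : ∃ y, y = σ⁻¹ d := ⟨_, rfl⟩
  have hsy : σ y = d := by rw [hy, perm_ai]
  have hyd : y ≠ d := fun h4 => hsd (by rw [← h4]; rw [hsy, h4])
  have h2' : σ' y = σ d := by rw [hy]; exact h2 hsd
  have hys : ∀ x, σ x = d → x = y := fun x hx => σ.injective (hx.trans hsy.symm)
  have htn : ∀ x, x ≠ d → τ x ≠ d := fun x hx h4 => hx (τ.injective (h4.trans hd.symm))
  have h2k := hgk y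
  rw [h2'] at h2k
  obtain ⟨c, hc, hc'⟩ := h (fun x => if x = d then g y - k y else g x)
    (fun x => if x = d then 0 else k x) (by
      intro x
      by_cases hx1 : x = d
      · rw [hx1]
        simp only [if_true, hsd, htn _ hsd, if_false]
        linear_combination h2k
      · by_cases hx2 : x = y
        · rw [hx2]
          simp only [hsy, hd, if_true, hyd, if_false]
          ring
        · have hx3 : σ x ≠ d := fun h4 => hx2 (hys x h4)
          have h4 := hgk x
          rw [h3 x hx1 hx3] at h4
          simp only [hx1, hx3, htn _ hx3, if_false]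
          exact h4)
  refine ⟨c, hc, ?_⟩
  intro x
  by_cases hx1 : x = d
  · rw [hx1, h1]
  · by_cases hx2 : x = y
    · rw [hx2, h2']
      have h4 := hc' y
      have h5 := hc' d
      simp only [hsy, if_true, hyd, if_false] at h4
      simp only [hsd, if_true, if_false] at h5
      linear_combination h5 + h4
    · have hx3 : σ x ≠ d := fun h4 => hx2 (hys x h4)
      have h4 := hc' x
      simp only [hx1, hx3, if_false] at h4
      rw [h3 x hx1 hx3]
      exact h4

/-- the dual map has the same property -/
theorem CJ.dual {K D : Type} [Field K] {σ τ : Equiv.Perm D} (h : CJ K σ τ)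
    (ht : ∀ x, τ (τ x) = x) : CJ K (τ * σ) τ := by
  intro g k hgk
  simp only [Equiv.Perm.mul_apply, ht] at hgk
  obtain ⟨c, hc, hc'⟩ := h k g (fun x => (hgk x).symm)
  refine ⟨c, hc, ?_⟩
  intro x
  simp only [Equiv.Perm.mul_apply, hc]
  have h4 := hc' x
  have h5 := hgk x
  linear_combination h5 + h4

end Pool.Agent.Lib.PLQ
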