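import Mathlib
import Pool.Agent.Lib.PLQ.OpsA

set_option autoImplicit false
set_option linter.unusedSectionVars false
set_option linter.unusedVariables false

/-! Module OpsB: deletion of an edge. -/

namespace Pool.Agent.Lib.PLQ

open Finset Pool.Agent.Lib.NK
open scoped Classical

namespace OpsBAux

/-- the rotation without the dart `a` -/
noncomputable def sk {D : Type} (σ : Equiv.Perm D) (a : D) : Equiv.Perm D :=
  Equiv.swap a (σ a) * σ

theorem sk_self {D : Type} (σ : Equiv.Perm D) (a : D) : sk σ a a = a := by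
  unfold sk
  rw [Equiv.Perm.mul_apply, Equiv.swap_apply_right]

theorem sk_eq {D : Type} (σ : Equiv.Perm D) (a x : D) (h : σ x = a) : sk σ a x = σ a := by
  unfold sk
  rw [Equiv.Perm.mul_apply, h, Equiv.swap_apply_left]

theorem sk_ne {D : Type} (σ : Equiv.Perm D) (a x : D) (h1 : x ≠ a) (h2 : σ x ≠ a) :
    sk σ a x = σ x := by
  unfold sk
  rw [Equiv.Perm.mul_apply, Equiv.swap_apply_of_ne_of_ne h2 fun h => h1 (σ.injective h)]

theorem sk_fix {D : Type} (σ : Equiv.Perm D) (a b : D) (hab : a ≠ b) (hb : σ b = b) :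
    sk σ a b = b := by
  rw [sk_ne σ a b hab.symm (by rw [hb]; exact hab.symm), hb]

theorem sk_same {D : Type} [Fintype D] (σ : Equiv.Perm D) (a x y : D) (hx : x ≠ a) (hy : y ≠ a) :
    (sk σ a).SameCycle x y ↔ σ.SameCycle x y := by
  have step : ∀ z, z ≠ a → σ.SameCycle z (sk σ a z) := by
    intro z hz
    by_cases h : σ z = a
    · rw [sk_eq σ a z h, ← h]
      exact Equiv.Perm.sameCycle_apply_right.2 (Equiv.Perm.sameCycle_apply_right.2
        (Equiv.Perm.SameCycle.refl σ z))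
    · rw [sk_ne σ a z hz h]
      exact Equiv.Perm.sameCycle_apply_right.2 (Equiv.Perm.SameCycle.refl σ z)
  have hne : ∀ z, z ≠ a → sk σ a z ≠ a := fun z hz h => hz ((sk σ a).injective (by
    rw [h, sk_self]))
  constructor
  · intro h
    obtain ⟨k, -, hk⟩ := h.exists_pow_eq'
    have key : ∀ k : ℕ, ((sk σ a) ^ k) x ≠ a ∧ σ.SameCycle x (((sk σ a) ^ k) x) := by
      intro k
      induction k with
      | zero => exact ⟨hx, Equiv.Perm.SameCycle.refl σ x⟩
      | succ k ih =>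
        rw [pow_succ', Equiv.Perm.mul_apply]
        exact ⟨hne _ ih.1, ih.2.trans (step _ ih.1)⟩
    rw [← hk]
    exact (key k).2
  · intro h
    obtain ⟨k, -, hk⟩ := h.exists_pow_eq'
    have key : ∀ (k : ℕ) (x : D), x ≠ a → (σ ^ k) x = y → (sk σ a).SameCycle x y := by
      intro k
      induction k using Nat.strong_induction_on with
      | _ k ih =>
        intro x hx hk
        rcases Nat.eq_zero_or_pos k with rfl | hk0
        · rw [pow_zero, Equiv.Perm.one_apply] at hk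
          rw [hk]
        · obtain ⟨k, rfl⟩ : ∃ k', k = k' + 1 := ⟨k - 1, by omega⟩
          rw [pow_succ, Equiv.Perm.mul_apply] at hk
          by_cases h1 : σ x = a
          · rcases Nat.eq_zero_or_pos k with rfl | hk1
            · rw [pow_zero, Equiv.Perm.one_apply, h1] at hk
              exact absurd hk.symm hy
            · obtain ⟨k, rfl⟩ : ∃ k', k = k' + 1 := ⟨k - 1, by omega⟩
              rw [pow_succ, Equiv.Perm.mul_apply, h1] at hk
              have h2 : σ a ≠ a := by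
                intro h2
                apply hx
                apply σ.injective
                rw [h1, h2]
              have h3 := ih k (by omega) (σ a) h2 hk
              have h4 : sk σ a x = σ a := sk_eq σ a x h1
              rw [← h4] at h3
              exact Equiv.Perm.sameCycle_apply_left.1 h3
          · have h3 := ih k (by omega) (σ x) h1 hk
            have h4 : sk σ a x = σ x := sk_ne σ a x hx h1
            rw [← h4] at h3
            exact Equiv.Perm.sameCycle_apply_left.1 h3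
    exact key k x hx hk

theorem cj_sk {K D : Type} [Field K] {σ τ : Equiv.Perm D} (h : CJ K σ τ) (a : D) (ha : τ a = a) :
    CJ K (sk σ a) τ :=
  h.skip a ha (sk_self σ a) (fun _ => sk_eq σ a _ (perm_ai σ a)) fun x h1 h2 => sk_ne σ a x h1 h2

/-- the edge flip without the edge of `a` -/
noncomputable def ct {D : Type} (τ : Equiv.Perm D) (a : D) : Equiv.Perm D :=
  Equiv.swap a (τ a) * τ

theorem ct_a {D : Type} (τ : Equiv.Perm D) (a : D) : ct τ a a = a := sk_self τ a

theorem ct_b {D : Type} (τ : Equiv.Perm D) (a : D) (h : τ (τ a) = a) : ct τ a (τ a) = τ a :=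
  sk_eq τ a (τ a) h

theorem ct_ne {D : Type} (τ : Equiv.Perm D) (a x : D) (h : ∀ x, τ (τ x) = x) (h1 : x ≠ a)
    (h2 : x ≠ τ a) : ct τ a x = τ x :=
  sk_ne τ a x h1 fun h3 => h2 (by rw [← h3, h])

theorem cj_sub {K D : Type} [Field K] {σ τ : Equiv.Perm D} (p : D → Prop) (h : CJ K σ τ)
    (hσ : ∀ x, p (σ x) ↔ p x) (hτ : ∀ x, p (τ x) ↔ p x) (h1 : ∀ x, ¬ p x → σ x = x)
    (h2 : ∀ x, ¬ p x → τ x = x) (σ' τ' : Equiv.Perm {x // p x}) (h3 : ∀ x, (σ' x).1 = σ x.1)
    (h4 : ∀ x, (τ' x).1 = τ x.1) : CJ K σ' τ' := by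
  intro g k hgk
  obtain ⟨c, hc, hc'⟩ := h (fun x => if hx : p x then g ⟨x, hx⟩ else 0)
    (fun x => if hx : p x then k ⟨x, hx⟩ else 0) (by
      intro x
      by_cases hx : p x
      · have e1 : p (σ x) := (hσ x).2 hx
        have e2 : p (τ (σ x)) := (hτ _).2 e1
        rw [dif_pos e1, dif_pos hx, dif_pos e2, dif_pos hx]
        have e3 := hgk ⟨x, hx⟩
        have e4 : σ' ⟨x, hx⟩ = ⟨σ x, e1⟩ := Subtype.ext (h3 ⟨x, hx⟩)
        have e5 : τ' ⟨σ x, e1⟩ = ⟨τ (σ x), e2⟩ := Subtype.ext (h4 ⟨σ x, e1⟩)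
        rw [e4, e5] at e3
        exact e3
      · rw [h1 x hx, h2 x hx, sub_self, sub_self])
  refine ⟨fun x => c x.1, fun x => ?_, fun x => ?_⟩
  · simp only
    rw [h4, hc]
  · have e1 := hc' x.1
    have e2 : p (σ x.1) := (hσ x.1).2 x.2
    rw [dif_pos e2, dif_pos x.2] at e1
    have e4 : σ' x = ⟨σ x.1, e2⟩ := Subtype.ext (h3 x)
    simp only
    rw [e4]
    exact e1

end OpsBAux

open OpsBAux in
/-- deletion of the edge of `d0` -/
theorem PM0.del {V D : Type} [Fintype D] (M : PM0 V D) (d0 : D) :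
    ∃ M' : PM0 V {x : D // x ≠ d0 ∧ x ≠ M.τ d0},
      (∀ x, M'.vt x = M.vt x.1) ∧ (∀ x, M'.out x = M.out x.1) ∧
      (∀ x, ((M'.τ x).1 : D) = M.τ x.1) := by
  have hd : M.τ d0 ≠ d0 := by
    intro h
    have h1 := M.ot d0
    rw [h] at h1
    revert h1
    cases M.out d0 <;> simp
  set d1 := M.τ d0 with hd1
  have ht0 : ct M.τ d0 d0 = d0 := ct_a M.τ d0
  have ht1 : ct M.τ d0 d1 = d1 := ct_b M.τ d0 (M.tt d0)
  have ht : ∀ x, x ≠ d0 → x ≠ d1 → ct M.τ d0 x = M.τ x := fun x h1 h2 =>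
    ct_ne M.τ d0 x M.tt h1 h2
  set σ2 : Equiv.Perm D := sk (sk M.σ d0) d1 with hσ2
  have hs0 : σ2 d0 = d0 := sk_fix _ d1 d0 hd (sk_self M.σ d0)
  have hs1 : σ2 d1 = d1 := sk_self _ d1
  have hp : ∀ x, (σ2 x ≠ d0 ∧ σ2 x ≠ d1) ↔ (x ≠ d0 ∧ x ≠ d1) := by
    intro x
    have e0 : σ2 x = d0 ↔ x = d0 := by
      constructor
      · intro h
        exact σ2.injective (by rw [h, hs0])
      · rintro rfl
        exact hs0
    have e1 : σ2 x = d1 ↔ x = d1 := by
      constructor
      · intro h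
        exact σ2.injective (by rw [h, hs1])
      · intro h
        rw [h]
        exact hs1
    rw [Ne, Ne, e0, e1]
  have hq : ∀ x, (ct M.τ d0 x ≠ d0 ∧ ct M.τ d0 x ≠ d1) ↔ (x ≠ d0 ∧ x ≠ d1) := by
    intro x
    have e0 : ct M.τ d0 x = d0 ↔ x = d0 := by
      constructor
      · intro h
        exact (ct M.τ d0).injective (by rw [h, ht0])
      · rintro rfl
        exact ht0
    have e1 : ct M.τ d0 x = d1 ↔ x = d1 := by
      constructor
      · intro h
        exact (ct M.τ d0).injective (by rw [h, ht1])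
      · intro h
        rw [h]
        exact ht1
    rw [Ne, Ne, e0, e1]
  let σ3 : Equiv.Perm {x : D // x ≠ d0 ∧ x ≠ d1} :=
    Equiv.Perm.subtypePerm (p := fun x => x ≠ d0 ∧ x ≠ d1) σ2 hp
  let τ3 : Equiv.Perm {x : D // x ≠ d0 ∧ x ≠ d1} :=
    Equiv.Perm.subtypePerm (p := fun x => x ≠ d0 ∧ x ≠ d1) (ct M.τ d0) hq
  have hcj : ∀ (K : Type) [Field K], CJ K M.σ M.τ → CJ K σ3 τ3 := by
    intro K _ h
    have h1 : CJ K M.σ (ct M.τ d0) := h.cut M.tt d0 hd ht0 ht1 fun x h1 h2 => ht x h1 h2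
    have h2 : CJ K σ2 (ct M.τ d0) := cj_sk (cj_sk h1 d0 ht0) d1 ht1
    refine cj_sub (fun x => x ≠ d0 ∧ x ≠ d1) h2 hp hq ?_ ?_ _ _ (fun _ => rfl) fun _ => rfl
    · intro x hx
      by_cases h3 : x = d0
      · rw [h3, hs0]
      · have h4 : x = d1 := by
          by_contra h4
          exact hx ⟨h3, h4⟩
        rw [h4, hs1]
    · intro x hx
      by_cases h3 : x = d0
      · rw [h3, ht0]
      · have h4 : x = d1 := by
          by_contra h4
          exact hx ⟨h3, h4⟩
        rw [h4, ht1]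
  refine ⟨{
    σ := σ3
    τ := τ3
    vt := fun x => M.vt x.1
    out := fun x => M.out x.1
    tt := ?_
    ot := ?_
    vs := ?_
    cj2 := hcj _ M.cj2
    cjq := hcj _ M.cjq }, fun _ => rfl, fun _ => rfl, fun x => ?_⟩
  · intro x
    apply Subtype.ext
    have e1 : ct M.τ d0 x.1 = M.τ x.1 := ht _ x.2.1 x.2.2
    have e2 := (hq x.1).2 x.2
    change ct M.τ d0 (ct M.τ d0 x.1) = x.1
    rw [ht _ e2.1 e2.2, e1, M.tt]
  · intro x
    change M.out (ct M.τ d0 x.1) = !M.out x.1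
    rw [ht _ x.2.1 x.2.2, M.ot]
  · intro x y
    have e1 : σ3.SameCycle x y ↔ σ2.SameCycle x.1 y.1 := Equiv.Perm.sameCycle_subtypePerm
    rw [e1, hσ2, sk_same _ d1 _ _ x.2.2 y.2.2, sk_same _ d0 _ _ x.2.1 y.2.1, M.vs]
  · exact ht _ x.2.1 x.2.2

end Pool.Agent.Lib.PLQ
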