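import Mathlib
import Pool.Agent.Lib.PLQ.OpsB

set_option autoImplicit false
set_option linter.unusedSectionVars false
set_option linter.unusedVariables false

/-! Module CovM.  `Pl.sub`: take the map of `Pl.min` and regard its vertices as elements of the subtype. -/

namespace Pool.Agent.Lib.PLQ

open Finset Pool.Agent.Lib.NK
open scoped Classical

variable {V : Type} {R R' : V → V → Prop} {S S' : Finset V}

namespace CovMAux

/-- the arcs of `R` in `S` are darts of `M` -/
def Cov (R : V → V → Prop) (S : Finset V) {D : Type} (M : PM0 V D) : Prop :=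
  ∀ a ∈ S, ∀ b ∈ S, R a b → ∃ d, M.out d = true ∧ M.vt d = a ∧ M.vt (M.τ d) = b

/-- deletion of a superfluous edge -/
theorem del_cov {D : Type} [Fintype D] {M : PM0 V D} (d0 : D)
    (h : ∀ a ∈ S, ∀ b ∈ S, R a b → ∃ d, (d ≠ d0 ∧ d ≠ M.τ d0) ∧ M.out d = true ∧ M.vt d = a ∧
      M.vt (M.τ d) = b) :
    ∃ M' : PM0 V {x : D // x ≠ d0 ∧ x ≠ M.τ d0}, Cov R S M' := by
  obtain ⟨M', h1, h2, h3⟩ := M.del d0
  refine ⟨M', fun a ha b hb hab => ?_⟩
  obtain ⟨d, hd, h4, h5, h6⟩ := h a ha b hb hab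
  refine ⟨⟨d, hd⟩, ?_, ?_, ?_⟩
  · rw [h2]
    exact h4
  · rw [h1]
    exact h5
  · rw [h1, h3]
    exact h6

theorem min_aux : ∀ (n : ℕ) (D : Type) (_ : Fintype D) (M : PM0 V D), Fintype.card D = n →
    Cov R S M →
    ∃ (D : Type) (_ : Fintype D) (M : PM0 V D), Cov R S M ∧
      (∀ d, M.vt d ∈ S) ∧ (∀ d, M.out d = true → R (M.vt d) (M.vt (M.τ d))) ∧
      (∀ d e, M.out d = true → M.out e = true → M.vt d = M.vt e →
        M.vt (M.τ d) = M.vt (M.τ e) → d = e) := by
  intro n
  induction n using Nat.strong_induction_on with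
  | _ n ih =>
    intro D _ M hn hM
    have step : ∀ d0 : D, (∀ a ∈ S, ∀ b ∈ S, R a b → ∃ d, (d ≠ d0 ∧ d ≠ M.τ d0) ∧
        M.out d = true ∧ M.vt d = a ∧ M.vt (M.τ d) = b) →
        ∃ (D : Type) (_ : Fintype D) (M : PM0 V D), Cov R S M ∧
          (∀ d, M.vt d ∈ S) ∧ (∀ d, M.out d = true → R (M.vt d) (M.vt (M.τ d))) ∧
          (∀ d e, M.out d = true → M.out e = true → M.vt d = M.vt e →
            M.vt (M.τ d) = M.vt (M.τ e) → d = e) := by
      intro d0 h
      obtain ⟨M', h1⟩ := del_cov d0 h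
      have h2 : Fintype.card {x : D // x ≠ d0 ∧ x ≠ M.τ d0} < n := by
        rw [← hn]
        exact Fintype.card_subtype_lt (x := d0) (fun h3 => h3.1 rfl)
      exact ih _ h2 _ inferInstance M' rfl h1
    by_cases h1 : ∀ d, M.vt d ∈ S
    · by_cases h2 : ∀ d, M.out d = true → R (M.vt d) (M.vt (M.τ d))
      · by_cases h3 : ∀ d e, M.out d = true → M.out e = true → M.vt d = M.vt e →
          M.vt (M.τ d) = M.vt (M.τ e) → d = e
        · exact ⟨D, inferInstance, M, hM, h1, h2, h3⟩
        · push Not at h3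
          obtain ⟨d, e, h4, h5, h6, h7, h8⟩ := h3
          refine step e fun a ha b hb hab => ?_
          obtain ⟨x, h9, h10, h11⟩ := hM a ha b hb hab
          have hne : ∀ y, M.out y = true → y ≠ M.τ e := by
            rintro y hy rfl
            rw [M.ot, h5] at hy
            exact absurd hy (by decide)
          by_cases hx : x = e
          · subst hx
            exact ⟨d, ⟨h8, hne d h4⟩, h4, h6.trans h10, h7.trans h11⟩
          · exact ⟨x, ⟨hx, hne x h9⟩, h9, h10, h11⟩
      · push Not at h2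
        obtain ⟨e, h4, h5⟩ := h2
        refine step e fun a ha b hb hab => ?_
        obtain ⟨x, h9, h10, h11⟩ := hM a ha b hb hab
        refine ⟨x, ⟨?_, ?_⟩, h9, h10, h11⟩
        · rintro rfl
          apply h5
          rw [h10, h11]
          exact hab
        · rintro rfl
          rw [M.ot, h4] at h9
          exact absurd h9 (by decide)
    · push Not at h1
      obtain ⟨e, h4⟩ := h1
      refine step e fun a ha b hb hab => ?_
      obtain ⟨x, h9, h10, h11⟩ := hM a ha b hb hab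
      refine ⟨x, ⟨?_, ?_⟩, h9, h10, h11⟩
      · rintro rfl
        exact h4 (h10 ▸ ha)
      · rintro rfl
        rw [M.tt] at h11
        exact h4 (h11 ▸ hb)

end CovMAux

open CovMAux

/-- there is a covering map with no superfluous darts (take one with the least number of darts and
delete edges with `PM0.del`) -/
theorem Pl.min (h : Pl R S) (hirr : ∀ v, ¬ R v v) :
    ∃ (D : Type) (_ : Fintype D) (M : PM0 V D),
      (∀ a ∈ S, ∀ b ∈ S, R a b → ∃ d, M.out d = true ∧ M.vt d = a ∧ M.vt (M.τ d) = b) ∧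
      (∀ d, M.vt d ∈ S) ∧ (∀ d, M.out d = true → R (M.vt d) (M.vt (M.τ d))) ∧
      (∀ d e, M.out d = true → M.out e = true → M.vt d = M.vt e →
        M.vt (M.τ d) = M.vt (M.τ e) → d = e) := by
  obtain ⟨D, hD, M, hM⟩ := h
  refine min_aux _ D hD M rfl fun a ha b hb hab => hM a ha b hb hab ?_
  rintro rfl
  exact hirr a hab

/-- transport to the subtype -/
theorem Pl.sub (h : Pl R S) : Pl (fun a b : {x // x ∈ S} => R a.1 b.1) univ := by
  have h1 : Pl (fun a b => R a b ∧ a ≠ b) S := by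
    obtain ⟨D, hD, M, hM⟩ := h
    exact ⟨D, hD, M, fun a ha b hb hab hne => hM a ha b hb hab.1 hne⟩
  obtain ⟨D, hD, M, h2, h3, -, -⟩ := Pl.min h1 (fun v hv => hv.2 rfl)
  let M' : PM0 {x // x ∈ S} D :=
    { σ := M.σ
      τ := M.τ
      vt := fun d => ⟨M.vt d, h3 d⟩
      out := M.out
      tt := M.tt
      ot := M.ot
      vs := fun d e => by
        rw [← M.vs]
        exact Subtype.ext_iff
      cj2 := M.cj2
      cjq := M.cjq }
  refine ⟨D, hD, M', fun a _ b _ hab hne => ?_⟩
  obtain ⟨d, h4, h5, h6⟩ := h2 a.1 a.2 b.1 b.2 ⟨hab, fun h => hne (Subtype.ext h)⟩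
  exact ⟨d, h4, Subtype.ext h5, Subtype.ext h6⟩

end Pool.Agent.Lib.PLQ
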