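import Mathlib
import Pool.Agent.Lib.PLQ.Basic

set_option autoImplicit false
set_option linter.unusedSectionVars false
set_option linter.unusedVariables false

/-! Module ExA (`nmin` in Defs). -/

namespace Pool.Agent.Lib.PLQ

open Finset Pool.Agent.Lib.NK
open scoped Classical

namespace ExAAux

theorem cnt_lt {D : Type} [Fintype D] (σ : Equiv.Perm D) (o o' : D → Bool) (d : D)
    (h3 : σ (σ d) ≠ d) (h5 : o (σ⁻¹ d) ≠ o d) (h6 : o d ≠ o (σ d)) (h7 : o (σ d) ≠ o (σ (σ d)))
    (ho : ∀ x, o' x = if x = d ∨ x = σ d then !o x else o x) :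
    (univ.filter (fun x => o' x = false ∧ o' (σ x) = true)).card <
      (univ.filter (fun x => o x = false ∧ o (σ x) = true)).card := by
  have e1 : σ⁻¹ d ≠ d := by intro h; rw [h] at h5; exact h5 rfl
  have e2 : σ⁻¹ d ≠ σ d := by
    intro h
    apply h3
    rw [← h, perm_ai]
  have e3 : d ≠ σ d := by intro h; rw [← h] at h6; exact h6 rfl
  have e4 : σ (σ d) ≠ σ d := fun h => e3 (σ.injective h).symm
  rw [card_filter, card_filter, ← Finset.sum_add_sum_compl ({σ⁻¹ d, d, σ d} : Finset D)
    (fun x => if o' x = false ∧ o' (σ x) = true then 1 else 0),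
    ← Finset.sum_add_sum_compl ({σ⁻¹ d, d, σ d} : Finset D)
    (fun x => if o x = false ∧ o (σ x) = true then 1 else 0)]
  have hc : ∑ x ∈ ({σ⁻¹ d, d, σ d} : Finset D)ᶜ, (if o' x = false ∧ o' (σ x) = true then 1 else 0)
      = ∑ x ∈ ({σ⁻¹ d, d, σ d} : Finset D)ᶜ, (if o x = false ∧ o (σ x) = true then 1 else 0) := by
    apply Finset.sum_congr rfl
    intro x hx
    simp only [mem_compl, mem_insert, mem_singleton, not_or] at hx
    obtain ⟨a1, a2, a3⟩ := hx
    have b1 : o' x = o x := by rw [ho, if_neg]; rintro (h | h); exacts [a2 h, a3 h]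
    have b2 : o' (σ x) = o (σ x) := by
      rw [ho, if_neg]
      rintro (h | h)
      · apply a1
        rw [← h, perm_ia]
      · exact a2 (σ.injective h)
    rw [b1, b2]
  have n1 : σ⁻¹ d ∉ ({d, σ d} : Finset D) := by
    rw [mem_insert, mem_singleton]
    rintro (h | h)
    exacts [e1 h, e2 h]
  have n2 : d ∉ ({σ d} : Finset D) := by rw [mem_singleton]; exact e3
  rw [hc, sum_insert n1, sum_insert n2, sum_singleton,
    sum_insert n1, sum_insert n2, sum_singleton]
  have c1 : o' (σ⁻¹ d) = o (σ⁻¹ d) := by rw [ho, if_neg]; rintro (h | h); exacts [e1 h, e2 h]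
  have c2 : o' d = !o d := by rw [ho, if_pos (Or.inl rfl)]
  have c3 : o' (σ d) = !o (σ d) := by rw [ho, if_pos (Or.inr rfl)]
  have c4 : o' (σ (σ d)) = o (σ (σ d)) := by rw [ho, if_neg]; rintro (h | h); exacts [h3 h, e4 h]
  rw [perm_ai, c1, c2, c3, c4]
  revert h5 h6 h7
  cases o (σ⁻¹ d) <;> cases o d <;> cases o (σ d) <;> cases o (σ (σ d)) <;> simp

end ExAAux

/-- reversing the two arcs of an alternating digon keeps the relation and lowers the number of local
minima (the conditions are those of `AltDigon`) -/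
theorem swap_digon {V D : Type} [Fintype D] (M : PM0 V D) (nl : ∀ x, M.vt (M.τ x) ≠ M.vt x) (d : D)
    (h1 : M.vt (M.τ d) = M.vt (M.τ (M.σ d))) (h2 : M.σ (M.τ (M.σ d)) = M.τ d)
    (h3 : M.σ (M.σ d) ≠ d) (h4 : M.σ (M.τ d) ≠ M.τ (M.σ d))
    (h5 : M.out (M.σ⁻¹ d) ≠ M.out d) (h6 : M.out d ≠ M.out (M.σ d))
    (h7 : M.out (M.σ d) ≠ M.out (M.σ (M.σ d)))
    (h8 : M.out (M.σ⁻¹ (M.τ (M.σ d))) ≠ M.out (M.τ (M.σ d)))
    (h9 : M.out (M.τ (M.σ d)) ≠ M.out (M.τ d)) (h10 : M.out (M.τ d) ≠ M.out (M.σ (M.τ d))) :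
    ∃ M' : PM0 V D, M'.σ = M.σ ∧ M'.τ = M.τ ∧ M'.vt = M.vt ∧ (∀ a b, M'.R a b ↔ M.R a b) ∧
      nmin M' < nmin M := by
  have vsig : ∀ x, M.vt (M.σ x) = M.vt x := by
    intro x
    rw [M.vs]
    exact (Equiv.Perm.sameCycle_apply_left.mpr (Equiv.Perm.SameCycle.refl M.σ x))
  have vinv : ∀ x, M.vt (M.σ⁻¹ x) = M.vt x := by
    intro x
    have := vsig (M.σ⁻¹ x)
    rwa [perm_ai, eq_comm] at this
  -- the set of the four darts
  let S : D → Prop := fun x => x = d ∨ x = M.σ d ∨ x = M.τ d ∨ x = M.τ (M.σ d)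
  have Sτ : ∀ x, S (M.τ x) ↔ S x := by
    have key : ∀ x, S x → S (M.τ x) := by
      rintro x (rfl | rfl | rfl | rfl)
      · exact Or.inr (Or.inr (Or.inl rfl))
      · exact Or.inr (Or.inr (Or.inr rfl))
      · exact Or.inl (M.tt d)
      · exact Or.inr (Or.inl (M.tt _))
    intro x
    refine ⟨fun h => ?_, key x⟩
    have := key _ h
    rwa [M.tt] at this
  let o' : D → Bool := fun x => if S x then !M.out x else M.out x
  let M' : PM0 V D :=
    { σ := M.σ
      τ := M.τ
      vt := M.vt
      out := o'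
      tt := M.tt
      ot := by
        intro x
        show (if S (M.τ x) then !M.out (M.τ x) else M.out (M.τ x)) =
          !(if S x then !M.out x else M.out x)
        by_cases h : S x
        · rw [if_pos ((Sτ x).mpr h), if_pos h, M.ot]
        · rw [if_neg (fun h' => h ((Sτ x).mp h')), if_neg h, M.ot]
      vs := M.vs
      cj2 := M.cj2
      cjq := M.cjq }
  have ho' : ∀ x, M'.out x = if S x then !M.out x else M.out x := fun _ => rfl
  have hvd : M.vt (M.σ d) = M.vt d := vsig d
  have hnd : M.vt (M.τ d) ≠ M.vt d := nl d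
  refine ⟨M', rfl, rfl, rfl, ?_, ?_⟩
  · -- the relation
    have half : ∀ (A B : PM0 V D), A.σ = M.σ → A.τ = M.τ → A.vt = M.vt → B.τ = M.τ → B.vt = M.vt →
        (∀ x, ¬ S x → B.out x = A.out x) → A.out d ≠ A.out (M.σ d) →
        (∀ x, S x → B.out x = !A.out x) → ∀ a b, A.R a b → B.R a b := by
      intro A B hs hτ hv hτ' hv' hn hd hS a b
      rintro ⟨x, hx, rfl, rfl⟩
      rw [hτ, hv]
      by_cases h : S x
      · -- partner of x
        have hd1 : A.out (M.σ d) = !A.out d := by
          revert hd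
          cases A.out d <;> cases A.out (M.σ d) <;> simp
        have ho1 : A.out (M.τ d) = !A.out d := by
          have := A.ot d
          rwa [hτ] at this
        have ho2 : A.out (M.τ (M.σ d)) = A.out d := by
          have := A.ot (M.σ d)
          rw [hτ] at this
          rw [this, hd1, Bool.not_not]
        rcases h with rfl | rfl | rfl | rfl
        · refine ⟨M.σ x, ?_, ?_, ?_⟩
          · rw [hS _ (Or.inr (Or.inl rfl)), hd1, hx]; rfl
          · rw [hv']; exact vsig x
          · rw [hτ', hv', ← h1]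
        · refine ⟨d, ?_, ?_, ?_⟩
          · rw [hS _ (Or.inl rfl)]
            rw [hd1] at hx
            exact hx
          · rw [hv']; exact (vsig d).symm
          · rw [hτ', hv', h1]
        · refine ⟨M.τ (M.σ d), ?_, ?_, ?_⟩
          · rw [hS _ (Or.inr (Or.inr (Or.inr rfl))), ho2]
            rw [ho1] at hx
            exact hx
          · rw [hv', ← h1]
          · rw [hτ', hv', M.tt, M.tt]; exact vsig d
        · refine ⟨M.τ d, ?_, ?_, ?_⟩
          · rw [hS _ (Or.inr (Or.inr (Or.inl rfl))), ho1]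
            rw [ho2] at hx
            rw [hx]; rfl
          · rw [hv', h1]
          · rw [hτ', hv', M.tt, M.tt]; exact (vsig d).symm
      · exact ⟨x, by rw [hn x h]; exact hx, by rw [hv'], by rw [hτ', hv']⟩
    intro a b
    constructor
    · refine half M' M rfl rfl rfl rfl rfl ?_ ?_ ?_ a b
      · intro x hx; rw [ho', if_neg hx]
      · rw [ho', ho', if_pos (Or.inl rfl), if_pos (Or.inr (Or.inl rfl))]
        intro h
        exact h6 (by revert h; cases M.out d <;> cases M.out (M.σ d) <;> simp)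
      · intro x hx
        rw [ho', if_pos hx, Bool.not_not]
    · refine half M M' rfl rfl rfl rfl rfl ?_ h6 ?_ a b
      · intro x hx; rw [ho', if_neg hx]
      · intro x hx; rw [ho', if_pos hx]
  · -- counting
    let o1 : D → Bool := fun x => if x = d ∨ x = M.σ d then !M.out x else M.out x
    have ho1 : ∀ x, o1 x = if x = d ∨ x = M.σ d then !M.out x else M.out x := fun _ => rfl
    have s1 := ExAAux.cnt_lt M.σ M.out o1 d h3 h5 h6 h7 ho1
    have far : ∀ x, M.vt x = M.vt (M.τ d) → o1 x = M.out x := by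
      intro x hx
      rw [ho1, if_neg]
      rintro (rfl | rfl)
      · exact hnd hx.symm
      · exact hnd (hx.symm.trans hvd)
    have v0 : M.vt (M.τ (M.σ d)) = M.vt (M.τ d) := h1.symm
    have v1 : M.vt (M.σ⁻¹ (M.τ (M.σ d))) = M.vt (M.τ d) := (vinv _).trans v0
    have v2 : M.vt (M.σ (M.τ d)) = M.vt (M.τ d) := vsig _
    have s2 := ExAAux.cnt_lt M.σ o1 M'.out (M.τ (M.σ d)) (by rw [h2]; exact h4)
      (by rw [far _ v1, far _ v0]; exact h8) (by rw [h2, far _ v0, far _ rfl]; exact h9)
      (by rw [h2, far _ rfl, far _ v2]; exact h10) (by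
        intro x
        rw [ho', ho1, h2]
        by_cases a : x = d ∨ x = M.σ d
        · have hx : M.vt x = M.vt d := by
            rcases a with rfl | rfl
            · rfl
            · exact hvd
          have b : ¬ (x = M.τ (M.σ d) ∨ x = M.τ d) := by
            rintro (rfl | rfl)
            · exact hnd (v0.symm.trans hx)
            · exact hnd hx
          rw [if_pos a, if_neg b, if_pos (a.elim Or.inl (fun h => Or.inr (Or.inl h)))]
        · rw [if_neg a]
          by_cases b : x = M.τ (M.σ d) ∨ x = M.τ d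
          · rw [if_pos b, if_pos (b.elim (fun h => Or.inr (Or.inr (Or.inr h)))
              (fun h => Or.inr (Or.inr (Or.inl h))))]
          · rw [if_neg b, if_neg]
            rintro (h | h | h | h)
            exacts [a (Or.inl h), a (Or.inr h), b (Or.inr h), b (Or.inl h)])
    exact s2.trans s1

end Pool.Agent.Lib.PLQ
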