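import Mathlib
import Pool.Agent.Lib.PLQ.ExA
import Pool.Agent.Lib.PLQ.CovM

set_option autoImplicit false
set_option linter.unusedSectionVars false
set_option linter.unusedVariables false

/-! Module ExB: a plane relation has an exact plane map without alternating digons.  `min_cover` is `Pl.min`.  `exact`: among the maps of `min_cover` with a fixed (least) number of darts choose one with the least `nmin` and use `swap_digon`; `F` = the cycles of `τ * σ`. -/

namespace Pool.Agent.Lib.PLQ

open Finset Pool.Agent.Lib.NK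
open scoped Classical

namespace ExBAux

theorem two_card {W D : Type} [Fintype D] (M : PM0 W D) :
    2 * (univ.filter (fun d => M.out d = true)).card = Fintype.card D := by
  have h1 : (univ.filter (fun d => M.out d = true)).card =
      (univ.filter (fun d => ¬ M.out d = true)).card := by
    refine Finset.card_bij (fun d _ => M.τ d) ?_ ?_ ?_
    · intro d hd
      have := (Finset.mem_filter.mp hd).2
      refine Finset.mem_filter.mpr ⟨Finset.mem_univ _, ?_⟩
      rw [M.ot, this]
      simp
    · intro d _ e _ hde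
      exact M.τ.injective hde
    · intro d hd
      have := (Finset.mem_filter.mp hd).2
      refine ⟨M.τ d, Finset.mem_filter.mpr ⟨Finset.mem_univ _, ?_⟩, M.tt d⟩
      rw [M.ot]
      simpa using this
  have h2 := Finset.card_filter_add_card_filter_not (s := (univ : Finset D))
    (fun d => M.out d = true)
  rw [Finset.card_univ] at h2
  omega

theorem image_eq {W D : Type} [Fintype W] [Fintype D] {R : W → W → Prop} (M : PM0 W D)
    (h1 : ∀ a b, M.R a b ↔ R a b) :
    (univ.filter (fun d => M.out d = true)).image (fun d => (M.vt d, M.vt (M.τ d))) =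
      univ.filter (fun p : W × W => R p.1 p.2) := by
  ext ⟨a, b⟩
  simp only [Finset.mem_image, Finset.mem_filter, Finset.mem_univ, true_and, Prod.mk.injEq]
  rw [← h1 a b]
  constructor
  · rintro ⟨d, hd, ha, hb⟩
    exact ⟨d, hd, ha, hb⟩
  · rintro ⟨d, hd, ha, hb⟩
    exact ⟨d, hd, ha, hb⟩

end ExBAux

/-- a covering map with the least number of darts is exact: no loops, no parallel arcs, the relation
is exactly `R` (otherwise delete an edge with `PM0.del`) -/
theorem min_cover {W : Type} [Fintype W] {R : W → W → Prop} (hirr : ∀ v, ¬ R v v)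
    (h : Pl R univ) :
    ∃ (D : Type) (_ : Fintype D) (M : PM0 W D),
      (∀ a b, M.R a b ↔ R a b) ∧ (∀ d, M.vt (M.τ d) ≠ M.vt d) ∧
      (∀ d e, M.out d = true → M.out e = true → M.vt d = M.vt e →
        M.vt (M.τ d) = M.vt (M.τ e) → d = e) := by
  obtain ⟨D, hD, M, h1, h2, h3, h4⟩ := Pl.min h hirr
  refine ⟨D, hD, M, ?_, ?_, h4⟩
  · intro a b
    constructor
    · rintro ⟨d, hd, ha, hb⟩
      have := h3 d hd
      rwa [ha, hb] at this
    · intro hab
      obtain ⟨d, hd, ha, hb⟩ := h1 a (Finset.mem_univ _) b (Finset.mem_univ _) hab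
      exact ⟨d, hd, ha, hb⟩
  · intro d he
    cases hd : M.out d
    · have h5 : M.out (M.τ d) = true := by rw [M.ot, hd]; rfl
      have := h3 (M.τ d) h5
      rw [M.tt, he] at this
      exact hirr _ this
    · have := h3 d hd
      rw [he] at this
      exact hirr _ this

/-- with the least number of local minima; faces are the cycles of `τ * σ` -/
theorem exact {W : Type} [Fintype W] {R : W → W → Prop} (hirr : ∀ v, ¬ R v v)
    (h : Pl R univ) (hd : ∀ v, ∃ w, R v w) :
    ∃ (D F : Type) (_ : Fintype D) (_ : Fintype F) (M : PM W D F),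
      (∀ a b, M.R a b ↔ R a b) ∧ (∀ d, M.vt (M.τ d) ≠ M.vt d) ∧
      (∀ d e, M.out d = true → M.out e = true → M.vt d = M.vt e →
        M.vt (M.τ d) = M.vt (M.τ e) → d = e) ∧
      ∀ d, ¬ AltDigon M d := by
  let P : ℕ → Prop := fun n => ∃ (D : Type) (_ : Fintype D) (M : PM0 W D),
    (∀ a b, M.R a b ↔ R a b) ∧ (∀ d, M.vt (M.τ d) ≠ M.vt d) ∧
      (∀ d e, M.out d = true → M.out e = true → M.vt d = M.vt e →
        M.vt (M.τ d) = M.vt (M.τ e) → d = e) ∧ nmin M = n
  have hP : ∃ n, P n := by
    obtain ⟨D, hD, M, h1, h2, h3⟩ := min_cover hirr h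
    exact ⟨nmin M, D, hD, M, h1, h2, h3, rfl⟩
  obtain ⟨D, hD, M, h1, h2, h3, h4⟩ := Nat.find_spec hP
  have hv : ∀ v, ∃ d, M.vt d = v := by
    intro v
    obtain ⟨w, hw⟩ := hd v
    obtain ⟨d, _, hd1, _⟩ := (h1 v w).mpr hw
    exact ⟨d, hd1⟩
  let F : Type := Quotient (Equiv.Perm.SameCycle.setoid (M.τ * M.σ))
  have hF : Finite F := Quotient.finite _
  let fc : D → F := fun d => Quotient.mk _ d
  have hfs : ∀ d e, fc d = fc e ↔ (M.τ * M.σ).SameCycle d e := by
    intro d e
    exact ⟨fun hh => Quotient.exact hh, fun hh => Quotient.sound hh⟩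
  have hfsur : ∀ f, ∃ d, fc d = f := fun f => Quotient.exists_rep f
  refine ⟨D, F, hD, Fintype.ofFinite F, { toPM0 := M, fc := fc, fs := hfs, fsur := hfsur, vsur := hv },
    h1, h2, h3, ?_⟩
  rintro d ⟨a1, a2, a3, a4, a5, a6, a7, a8, a9, a10⟩
  obtain ⟨M', hs, ht, hvt, hR, hn⟩ := swap_digon M h2 d a1 a2 a3 a4 a5 a6 a7 a8 a9 a10
  have h1' : ∀ a b, M'.R a b ↔ R a b := fun a b => (hR a b).trans (h1 a b)
  have hlt : nmin M' < Nat.find hP := by
    rw [← h4]
    exact hn
  refine Nat.find_min hP hlt ⟨D, hD, M', h1', ?_, ?_, rfl⟩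
  · intro x
    rw [ht, hvt]
    exact h2 x
  · have hc : ((univ.filter (fun d => M'.out d = true)).image
        (fun d => (M'.vt d, M'.vt (M'.τ d)))).card =
        (univ.filter (fun d => M'.out d = true)).card := by
      have e1 := ExBAux.image_eq M h1
      have e2 := ExBAux.image_eq M' h1'
      have c1 := ExBAux.two_card M
      have c2 := ExBAux.two_card M'
      have c3 : ((univ.filter (fun d => M.out d = true)).image
          (fun d => (M.vt d, M.vt (M.τ d)))).card =
          (univ.filter (fun d => M.out d = true)).card := by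
        apply Finset.card_image_of_injOn
        intro x hx y hy hxy
        simp only [Prod.mk.injEq] at hxy
        have hx' := (Finset.mem_filter.mp (Finset.mem_coe.mp hx)).2
        have hy' := (Finset.mem_filter.mp (Finset.mem_coe.mp hy)).2
        exact h3 x y hx' hy' hxy.1 hxy.2
      rw [e2, ← e1, c3]
      omega
    have hinj := Finset.card_image_iff.mp hc
    intro x y hx hy hxy hxy'
    apply hinj
    · exact Finset.mem_coe.mpr (Finset.mem_filter.mpr ⟨Finset.mem_univ _, hx⟩)
    · exact Finset.mem_coe.mpr (Finset.mem_filter.mpr ⟨Finset.mem_univ _, hy⟩)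
    · simp only [Prod.mk.injEq]
      exact ⟨hxy, hxy'⟩

end Pool.Agent.Lib.PLQ
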