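import Mathlib
import Pool.Agent.Lib.PLQ.Basic

set_option autoImplicit false
set_option linter.unusedSectionVars false
set_option linter.unusedVariables false

/-! Module Cob: coboundaries of a permutation. -/

namespace Pool.Agent.Lib.PLQ

open Finset Pool.Agent.Lib.NK
open scoped Classical

/-- a function with zero sum over every cycle of `π` is a coboundary
(`f` names the cycles; choose a representative of each cycle and take partial sums) -/
theorem cob {K D F : Type} [Field K] [Fintype D] (π : Equiv.Perm D) (f : D → F)
    (hf : ∀ d e, f d = f e ↔ π.SameCycle d e) (s : D → K)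
    (hs : ∀ d, ∑ e ∈ univ.filter (fun e => f e = f d), s e = 0) :
    ∃ q : D → K, ∀ d, s d = q (π d) - q d := by
  -- representative of the cycle
  have hrep : ∀ d, ∃ r, f r = f d := fun d => ⟨d, rfl⟩
  obtain ⟨rep, hr1, hr2⟩ : ∃ rep : D → D, (∀ d, f (rep d) = f d) ∧ ∀ d e, f d = f e → rep d = rep e := by
    have hg : ∀ x : F, ∀ d0 : D, f d0 = x → ∃ r, f r = x := fun x d0 h => ⟨d0, h⟩
    refine ⟨fun d => @Classical.epsilon D ⟨d⟩ (fun r => f r = f d), ?_, ?_⟩
    · intro d
      exact @Classical.epsilon_spec_aux D ⟨d⟩ (fun r => f r = f d) ⟨d, rfl⟩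
    · intro d e h
      show @Classical.epsilon D ⟨d⟩ (fun r => f r = f d) = @Classical.epsilon D ⟨e⟩ (fun r => f r = f e)
      rw [h]
  -- position
  have hpos0 : ∀ d, ∃ k : ℕ, (π ^ k) (rep d) = d := by
    intro d
    obtain ⟨k, hk⟩ := ((hf (rep d) d).mp (hr1 d)).exists_nat_pow_eq
    exact ⟨k, hk⟩
  choose pos hpos using hpos0
  -- partial sums
  obtain ⟨S, hS⟩ : ∃ S : D → ℕ → K, S = fun r k => ∑ i ∈ range k, s ((π ^ i) r) := ⟨_, rfl⟩
  have hS1 : ∀ r k, S r (k + 1) = S r k + s ((π ^ k) r) := by
    intro r k; rw [hS]; simp only [sum_range_succ]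
  -- the sum over one period vanishes
  have hper : ∀ r n, 0 < n → (π ^ n) r = r → (∀ m, 0 < m → m < n → (π ^ m) r ≠ r) → S r n = 0 := by
    intro r n hn hnr hmin
    rw [hS, ← hs r]
    have hinj : ∀ i < n, ∀ j < n, (π ^ i) r = (π ^ j) r → i = j := by
      have aux : ∀ i j, i < j → j < n → (π ^ i) r ≠ (π ^ j) r := by
        intro i j hij hj he
        have h1 : (π ^ (j - i)) r = r := by
          have : (π ^ i) ((π ^ (j - i)) r) = (π ^ i) r := by
            rw [← Equiv.Perm.mul_apply, ← pow_add, Nat.add_sub_cancel' hij.le, he]
          exact (π ^ i).injective this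
        exact hmin (j - i) (by omega) (by omega) h1
      intro i hi j hj he
      rcases lt_trichotomy i j with h | h | h
      · exact absurd he (aux i j h hj)
      · exact h
      · exact absurd he.symm (aux j i h hi)
    symm
    refine (sum_nbij (fun i => (π ^ i) r) ?_ ?_ ?_ ?_).symm
    · intro i _
      simp only [mem_filter, mem_univ, true_and]
      rw [hf]
      exact (⟨-(i : ℤ), by rw [zpow_neg, zpow_natCast]; exact (π ^ i).symm_apply_apply r⟩ : π.SameCycle ((π ^ i) r) r)
    · intro i hi j hj h
      exact hinj i (by simpa using hi) j (by simpa using hj) h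
    · intro e he
      simp only [coe_filter, mem_univ, true_and, Set.mem_ofPred_eq] at he
      obtain ⟨k, hk⟩ := ((hf r e).mp he.symm).exists_nat_pow_eq
      refine ⟨k % n, ?_, ?_⟩
      · simp only [coe_range, Set.mem_Iio]; exact Nat.mod_lt _ hn
      · have h1 : ∀ m, (π ^ (n * m)) r = r := by
          intro m
          induction m with
          | zero => simp
          | succ m ih => rw [Nat.mul_succ, pow_add, Equiv.Perm.mul_apply, hnr, ih]
        show (π ^ (k % n)) r = e
        rw [← hk]
        conv_rhs => rw [← Nat.mod_add_div k n, pow_add, Equiv.Perm.mul_apply, h1]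
    · intro i _; rfl
  -- independence of the position
  have hwd : ∀ r i j, (π ^ i) r = (π ^ j) r → S r i = S r j := by
    have aux : ∀ r i j, i ≤ j → (π ^ i) r = (π ^ j) r → S r i = S r j := by
      intro r i j hij he
      obtain ⟨m, rfl⟩ := Nat.exists_eq_add_of_le hij
      have hm : (π ^ m) r = r := by
        have : (π ^ i) ((π ^ m) r) = (π ^ i) r := by
          rw [← Equiv.Perm.mul_apply, ← pow_add, he]
        exact (π ^ i).injective this
      have hshift : ∀ m i, S r (i + m) = S r i + S ((π ^ i) r) m := by
        intro m i
        rw [hS]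
        simp only
        rw [sum_range_add]
        congr 1
        apply sum_congr rfl
        intro x _
        rw [add_comm i x, pow_add, Equiv.Perm.mul_apply]
      rw [hshift]
      -- the sum over a multiple of the period vanishes
      have hz : ∀ m, ∀ r', (π ^ m) r' = r' → S r' m = 0 := by
        intro m
        induction m using Nat.strong_induction_on with
        | _ m ih =>
          intro r' hm'
          rcases Nat.eq_zero_or_pos m with h0 | h0
          · rw [h0, hS]; simp
          · by_cases hex : ∃ n, 0 < n ∧ n < m ∧ (π ^ n) r' = r'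
            · obtain ⟨n, hn0, hnm, hn⟩ := hex
              have h1 := ih n hnm r' hn
              have h2 : (π ^ (m - n)) r' = r' := by
                have : (π ^ (m - n)) ((π ^ n) r') = r' := by
                  rw [← Equiv.Perm.mul_apply, ← pow_add, Nat.sub_add_cancel hnm.le, hm']
                rwa [hn] at this
              have h3 := ih (m - n) (by omega) r' h2
              have h4 : m = n + (m - n) := by omega
              have h5 : S r' (n + (m - n)) = S r' n + S ((π ^ n) r') (m - n) := by
                rw [hS]
                simp only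
                rw [sum_range_add]
                congr 1
                apply sum_congr rfl
                intro x _
                rw [add_comm n x, pow_add, Equiv.Perm.mul_apply]
              rw [h4, h5, hn, h1, h3, add_zero]
            · push Not at hex
              exact hper r' m h0 hm' (fun n h1 h2 => hex n h1 h2)
      have h6 : (π ^ m) ((π ^ i) r) = (π ^ i) r := by
        rw [← Equiv.Perm.mul_apply, ← pow_add, add_comm m i, ← he]
      rw [hz m _ h6, add_zero]
    intro r i j he
    rcases le_total i j with h | h
    · exact aux r i j h he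
    · exact (aux r j i h he.symm).symm
  refine ⟨fun d => S (rep d) (pos d), ?_⟩
  intro d
  have e1 := hpos d
  have e2 := hpos (π d)
  have hrr : rep (π d) = rep d := hr2 _ _ ((hf _ _).mpr (Equiv.Perm.sameCycle_apply_left.mpr (Equiv.Perm.SameCycle.refl π d)))
  rw [hrr] at e2
  have e3 : S (rep d) (pos (π d)) = S (rep d) (pos d + 1) := by
    apply hwd
    rw [e2, pow_succ', Equiv.Perm.mul_apply, e1]
  show s d = S (rep (π d)) (pos (π d)) - S (rep d) (pos d)
  rw [hrr, e3, hS1, e1]
  ring

end Pool.Agent.Lib.PLQ
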