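import Mathlib
import Pool.Agent.Lib.PLQ.Cob

set_option autoImplicit false
set_option linter.unusedSectionVars false
set_option linter.unusedVariables false

/-! Module Grad: closed dual cochains are gradients. -/

namespace Pool.Agent.Lib.PLQ

open Finset Pool.Agent.Lib.NK
open scoped Classical

/-- if the function `B` on darts is antisymmetric and has zero sum around every face, then it is
the difference of a potential on the vertices.
Proof: put `β d = if out d then B d else 0`, so `B d = β d - β (τ d)`; apply `CJ` to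
`g = β`, `h = q + β`; with the `c` obtained, `p = c - β`. -/
theorem grad {K D : Type} [Field K] {σ τ : Equiv.Perm D} (h : CJ K σ τ) (ht : ∀ d, τ (τ d) = d)
    (out : D → Bool) (ho : ∀ d, out (τ d) = !out d)
    (B : D → K) (hB : ∀ d, B (τ d) = - B d) (q : D → K) (hq : ∀ d, B (σ d) = q (τ (σ d)) - q d) :
    ∃ p : D → K, (∀ d, p (σ d) = p d) ∧ ∀ d, B d = p (τ d) - p d := by
  obtain ⟨β, hβ⟩ : ∃ β : D → K, ∀ d, B d = β d - β (τ d) := by
    refine ⟨fun d => if out d = true then B d else 0, ?_⟩
    intro d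
    show B d = (if out d = true then B d else 0) - (if out (τ d) = true then B (τ d) else 0)
    rw [ho d]
    cases hd : out d
    · simp [hB d]
    · simp
  obtain ⟨c, hc, hc'⟩ := h β (fun d => q d + β d) (by
    intro d
    have h1 := hβ (σ d)
    have h2 := hq d
    show β (σ d) - β d = (q (τ (σ d)) + β (τ (σ d))) - (q d + β d)
    linear_combination h2 - h1)
  refine ⟨fun d => c d - β d, ?_, ?_⟩
  · intro d
    show c (σ d) - β (σ d) = c d - β d
    linear_combination -(hc' d)
  · intro d
    show B d = (c (τ d) - β (τ d)) - (c d - β d)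
    rw [hc d, hβ d]
    ring

/-- the condition `CJ` is self-dual -/
private theorem cj_dual {K D : Type} [Field K] {σ τ : Equiv.Perm D} (h : CJ K σ τ)
    (ht : ∀ d, τ (τ d) = d) : CJ K (τ * σ) τ := by
  intro g k hgk
  obtain ⟨c, hc, hc'⟩ := h k g (by
    intro d
    have h1 := hgk d
    rw [Equiv.Perm.mul_apply, ht] at h1
    exact h1.symm)
  refine ⟨c, hc, ?_⟩
  intro d
  have h1 := hgk d
  rw [Equiv.Perm.mul_apply, ht] at h1
  rw [Equiv.Perm.mul_apply, hc]
  linear_combination h1 + hc' d

/-- dual form: a function on arcs (mod 2) which has even sum at every vertex is the coboundary of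
a function on the faces (apply `grad` to the dual map `τ * σ`, `τ`) -/
theorem dgrad {V D F : Type} [Fintype D] (M : PM V D F) (B : D → ZMod 2)
    (hB : ∀ d, B (M.τ d) = B d)
    (hs : ∀ d, ∑ e ∈ univ.filter (fun e => M.vt e = M.vt d), B e = 0) :
    ∃ q : F → ZMod 2, ∀ d, B d = q (M.fc d) + q (M.fc (M.σ⁻¹ d)) := by
  have : Fact (Nat.Prime 2) := ⟨Nat.prime_two⟩
  have hneg : ∀ x : ZMod 2, -x = x := fun x => CharTwo.neg_eq x
  obtain ⟨q0, hq0⟩ := cob M.σ M.vt M.vs B hs
  obtain ⟨p, hp1, hp2⟩ := grad (cj_dual M.cj2 M.tt) M.tt M.out M.ot B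
    (fun d => by rw [hB, hneg]) (fun d => q0 (M.σ d)) (by
      intro d
      show B ((M.τ * M.σ) d) = q0 (M.σ (M.τ ((M.τ * M.σ) d))) - q0 (M.σ d)
      rw [Equiv.Perm.mul_apply, M.tt, hB]
      exact hq0 (M.σ d))
  -- `p` is constant on faces
  have hz : ∀ d e, (M.τ * M.σ).SameCycle d e → p d = p e := by
    have hpow : ∀ (n : ℕ) (d : D), p (((M.τ * M.σ) ^ n) d) = p d := by
      intro n
      induction n with
      | zero => intro d; rfl
      | succ n ih =>
        intro d
        rw [pow_succ', Equiv.Perm.mul_apply, hp1, ih]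
    rintro d e ⟨k, hk⟩
    rcases k with n | n
    · rw [← hk]
      show p d = p (((M.τ * M.σ) ^ (n : ℤ)) d)
      rw [zpow_natCast, hpow]
    · have h1 : d = ((M.τ * M.σ) ^ (n + 1)) e := by
        rw [← hk, zpow_negSucc, perm_ai]
      rw [h1, hpow]
  choose r hr using M.fsur
  have hpr : ∀ d, p d = p (r (M.fc d)) := by
    intro d
    exact hz _ _ ((M.fs d (r (M.fc d))).mp (hr (M.fc d)).symm)
  refine ⟨fun f => p (r f), ?_⟩
  intro d
  show B d = p (r (M.fc d)) + p (r (M.fc (M.σ⁻¹ d)))
  rw [hp2 d, ← hpr d, hpr (M.τ d), M.fc_tau d]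
  rw [sub_eq_add_neg, hneg, add_comm]

end Pool.Agent.Lib.PLQ
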