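import Mathlib
import Pool.Agent.Lib.PLQ.Basic

set_option autoImplicit false
set_option linter.unusedSectionVars false
set_option linter.unusedVariables false

/-! Module FlowA: flows from dual paths. -/

namespace Pool.Agent.Lib.PLQ

open Finset Pool.Agent.Lib.NK
open scoped Classical

variable {V D F : Type} [Fintype V] [Fintype D] [Fintype F] {M : PM V D F}

namespace FlowAAux

theorem zero (M : PM V D F) (x : F) : Flow M (fun _ => 0) x x := by
  refine ⟨fun d => by simp, fun w => ?_⟩
  simp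

theorem add {B C : D → ℚ} {x y z : F} (h : Flow M B x y) (h' : Flow M C y z) :
    Flow M (fun d => B d + C d) x z := by
  refine ⟨fun d => ?_, fun w => ?_⟩
  · show B (M.τ d) + C (M.τ d) = -(B d + C d)
    rw [h.1, h'.1]
    ring
  · have e1 := h.2 w
    have e2 := h'.2 w
    have e3 : ∑ d ∈ univ.filter (fun d => M.out d = true),
        (B d + C d) * (w (M.fc d) - w (M.fc (M.σ⁻¹ d))) =
        ∑ d ∈ univ.filter (fun d => M.out d = true),
          B d * (w (M.fc d) - w (M.fc (M.σ⁻¹ d))) +
        ∑ d ∈ univ.filter (fun d => M.out d = true),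
          C d * (w (M.fc d) - w (M.fc (M.σ⁻¹ d))) := by
      rw [← Finset.sum_add_distrib]
      exact Finset.sum_congr rfl fun d _ => by ring
    rw [e3, e1, e2]
    ring

theorem neg {B : D → ℚ} {x y : F} (h : Flow M B x y) : Flow M (fun d => - B d) y x := by
  refine ⟨fun d => ?_, fun w => ?_⟩
  · show - B (M.τ d) = - - B d
    rw [h.1]
  · have e1 := h.2 w
    have e3 : ∑ d ∈ univ.filter (fun d => M.out d = true),
        (- B d) * (w (M.fc d) - w (M.fc (M.σ⁻¹ d))) =
        - ∑ d ∈ univ.filter (fun d => M.out d = true),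
          B d * (w (M.fc d) - w (M.fc (M.σ⁻¹ d))) := by
      rw [← Finset.sum_neg_distrib]
      exact Finset.sum_congr rfl fun d _ => by ring
    rw [e3, e1]
    ring

/-- the flow through one arc -/
noncomputable def ed (M : PM V D F) (a : D) : D → ℚ :=
  fun d => (if d = a then 1 else 0) - (if d = M.τ a then 1 else 0)

theorem tau_ne {a : D} (ha : M.out a = true) {d : D} (hd : M.out d = true) : d ≠ M.τ a := by
  intro h
  rw [h, M.ot, ha] at hd
  exact Bool.noConfusion hd

theorem ed_flow {a : D} (ha : M.out a = true) :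
    Flow M (ed M a) (M.fc (M.σ⁻¹ a)) (M.fc a) := by
  refine ⟨fun d => ?_, fun w => ?_⟩
  · unfold ed
    have h1 : (M.τ d = a) ↔ (d = M.τ a) := by
      constructor
      · intro h; rw [← h, M.tt]
      · intro h; rw [h, M.tt]
    have h2 : (M.τ d = M.τ a) ↔ (d = a) := M.τ.injective.eq_iff
    simp only [h1, h2]
    ring
  · rw [Finset.sum_eq_single a]
    · unfold ed
      rw [if_pos rfl, if_neg (tau_ne ha ha)]
      ring
    · intro d hd hda
      have hd' := (Finset.mem_filter.mp hd).2
      unfold ed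
      rw [if_neg hda, if_neg (tau_ne ha hd')]
      ring
    · intro h
      exact (h (Finset.mem_filter.mpr ⟨Finset.mem_univ a, ha⟩)).elim

theorem ed_nonneg {a : D} (ha : M.out a = true) (d : D) (hd : M.out d = true) :
    0 ≤ ed M a d := by
  unfold ed
  rw [if_neg (tau_ne ha hd)]
  split_ifs <;> norm_num

theorem le_nonneg {x y : F} (h : M.le x y) :
    ∃ B, Flow M B x y ∧ ∀ d, M.out d = true → 0 ≤ B d := by
  unfold PM.le at h
  induction h with
  | refl => exact ⟨fun _ => 0, zero M x, fun d _ => le_refl _⟩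
  | @tail b c h1 h2 ih =>
    obtain ⟨B, hB, hB'⟩ := ih
    obtain ⟨a, ha, hx, hy⟩ := h2
    have h3 := ed_flow (M := M) ha
    rw [hx, hy] at h3
    refine ⟨_, add hB h3, fun d hd => ?_⟩
    have := hB' d hd
    have := ed_nonneg (M := M) ha d hd
    linarith

theorem step (d : D) : ∃ B, Flow M B (M.fc d) (M.fc (M.σ d)) ∧
    ∀ x, M.vt x ≠ M.vt d → M.vt (M.τ x) ≠ M.vt d → B x = 0 := by
  have hz : ∀ x a, M.vt x ≠ M.vt d → M.vt (M.τ x) ≠ M.vt d → (a = M.σ d ∨ a = M.τ (M.σ d)) →
      ed M a x = 0 := by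
    intro x a h1 h2 ha
    have n1 : x ≠ M.σ d := by
      intro h
      apply h1
      rw [h, M.vt_sig]
    have n2 : x ≠ M.τ (M.σ d) := by
      intro h
      apply h2
      rw [h, M.tt, M.vt_sig]
    unfold ed
    rcases ha with rfl | rfl
    · rw [if_neg n1, if_neg n2]; ring
    · rw [if_neg n2, M.tt, if_neg n1]; ring
  cases h : M.out (M.σ d)
  · have ha : M.out (M.τ (M.σ d)) = true := by rw [M.ot, h]; rfl
    have h1 := ed_flow (M := M) ha
    rw [M.fc_ti, M.fc_phi] at h1
    refine ⟨_, neg h1, fun x hx hx' => ?_⟩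
    have := hz x (M.τ (M.σ d)) hx hx' (Or.inr rfl)
    simp [this]
  · have h1 := ed_flow (M := M) h
    rw [perm_ia] at h1
    exact ⟨_, h1, fun x hx hx' => hz x (M.σ d) hx hx' (Or.inl rfl)⟩

end FlowAAux

open FlowAAux

/-- a directed dual path using the arc of `a` gives a flow (count how often the path crosses each
arc) -/
theorem le_flow {x y : F} {a : D} (ha : M.out a = true) (h1 : M.le x (M.fc (M.σ⁻¹ a)))
    (h2 : M.le (M.fc a) y) :
    ∃ B, Flow M B x y ∧ (∀ d, M.out d = true → 0 ≤ B d) ∧ 1 ≤ B a := by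
  obtain ⟨B, hB, hB'⟩ := le_nonneg h1
  obtain ⟨C, hC, hC'⟩ := le_nonneg h2
  have hE := ed_flow (M := M) ha
  refine ⟨_, add (add hB hE) hC, fun d hd => ?_, ?_⟩
  · have := hB' d hd
    have := hC' d hd
    have := ed_nonneg (M := M) ha d hd
    linarith
  · have e1 := hB' a ha
    have e2 := hC' a ha
    have e3 : ed M a a = 1 := by
      unfold ed
      rw [if_pos rfl, if_neg (tau_ne ha ha)]
      ring
    show 1 ≤ B a + ed M a a + C a
    rw [e3]
    linarith

/-- going around a vertex gives a flow supported on the arcs at this vertex -/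
theorem rot_flow {d e : D} (hv : M.vt d = M.vt e) :
    ∃ B, Flow M B (M.fc d) (M.fc e) ∧ ∀ x, M.vt x ≠ M.vt d → M.vt (M.τ x) ≠ M.vt d → B x = 0 := by
  obtain ⟨i, hi⟩ := ((M.vs d e).mp hv).exists_nat_pow_eq
  subst hi
  clear hv
  induction i with
  | zero =>
    refine ⟨fun _ => 0, ?_, fun _ _ _ => rfl⟩
    simpa using zero M (M.fc d)
  | succ i ih =>
    obtain ⟨B, hB, hB'⟩ := ih
    obtain ⟨C, hC, hC'⟩ := step (M := M) ((M.σ ^ i) d)
    rw [M.vt_pow] at hC'
    rw [pow_succ', Equiv.Perm.mul_apply]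
    refine ⟨_, add hB hC, fun x hx hx' => ?_⟩
    show B x + C x = 0
    rw [hB' x hx hx', hC' x hx hx', add_zero]

theorem flow_add {B C : D → ℚ} {x y z : F} (h : Flow M B x y) (h' : Flow M C y z) :
    Flow M (fun d => B d + C d) x z := add h h'

end Pool.Agent.Lib.PLQ
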