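import Mathlib
import Pool.Agent.Lib.PLQ.Grad

set_option autoImplicit false
set_option linter.unusedSectionVars false
set_option linter.unusedVariables false

/-! Module FlowB: closed flows are gradients. -/

namespace Pool.Agent.Lib.PLQ

open Finset Pool.Agent.Lib.NK
open scoped Classical

variable {V D F : Type} [Fintype V] [Fintype D] [Fintype F] {M : PM V D F}

namespace FlowBAux

theorem face_sum {B : D → ℚ} {x : F} (h : Flow M B x x) (f0 : F) :
    ∑ e ∈ univ.filter (fun e => M.fc e = f0), B (M.σ e) = 0 := by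
  obtain ⟨hB, hw⟩ := h
  have h1 := hw (fun f => if f = f0 then 1 else 0)
  rw [sub_self] at h1
  -- change of variables
  have h2 : ∑ e ∈ univ.filter (fun e => M.fc e = f0), B (M.σ e) =
      ∑ d, if M.fc (M.σ⁻¹ d) = f0 then B d else 0 := by
    rw [sum_filter, ← Equiv.sum_comp M.σ (fun d => if M.fc (M.σ⁻¹ d) = f0 then B d else 0)]
    refine sum_congr rfl fun e _ => ?_
    rw [perm_ia]
  have h3 : ∑ d, (if M.fc (M.σ⁻¹ d) = f0 then B d else 0) =
      ∑ d ∈ univ.filter (fun d => M.out d = true), (if M.fc (M.σ⁻¹ d) = f0 then B d else 0) +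
      ∑ d ∈ univ.filter (fun d => ¬ M.out d = true), (if M.fc (M.σ⁻¹ d) = f0 then B d else 0) :=
    (sum_filter_add_sum_filter_not _ _ _).symm
  have h4 : ∑ d ∈ univ.filter (fun d => ¬ M.out d = true), (if M.fc (M.σ⁻¹ d) = f0 then B d else 0) =
      ∑ d ∈ univ.filter (fun d => M.out d = true), (if M.fc d = f0 then - B d else 0) := by
    refine sum_nbij' (fun d => M.τ d) (fun d => M.τ d) ?_ ?_ ?_ ?_ ?_
    · intro d hd
      simp only [mem_filter, mem_univ, true_and] at hd ⊢
      rw [M.ot]
      simpa using hd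
    · intro d hd
      simp only [mem_filter, mem_univ, true_and] at hd ⊢
      rw [M.ot, hd]
      simp
    · intro d _
      exact M.tt d
    · intro d _
      exact M.tt d
    · intro d _
      rw [M.fc_tau, hB, neg_neg]
  rw [h2, h3, h4, ← sum_add_distrib]
  have h5 : ∑ d ∈ univ.filter (fun d => M.out d = true),
      ((if M.fc (M.σ⁻¹ d) = f0 then B d else 0) + (if M.fc d = f0 then - B d else 0)) =
      - ∑ d ∈ univ.filter (fun d => M.out d = true),
        B d * ((if M.fc d = f0 then 1 else 0) - (if M.fc (M.σ⁻¹ d) = f0 then 1 else 0)) := by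
    rw [← sum_neg_distrib]
    refine sum_congr rfl fun d _ => ?_
    split_ifs <;> ring
  rw [h5, h1, neg_zero]

theorem const_cycle {α : Type} {σ : Equiv.Perm D} {p : D → α} (hp : ∀ d, p (σ d) = p d) {d e : D}
    (h : σ.SameCycle d e) : p d = p e := by
  obtain ⟨k, rfl⟩ := h
  have h1 : ∀ n : ℕ, ∀ d, p ((σ ^ n) d) = p d := by
    intro n
    induction n with
    | zero => intro d; rfl
    | succ n ih => intro d; rw [pow_succ', Equiv.Perm.mul_apply, hp, ih]
  cases k with
  | ofNat n => exact (h1 n d).symm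
  | negSucc n =>
    have h2 := h1 (n + 1) ((σ ^ (Int.negSucc n)) d)
    rw [← Equiv.Perm.mul_apply, zpow_negSucc, mul_inv_cancel, Equiv.Perm.one_apply] at h2
    rw [h2, zpow_negSucc]

end FlowBAux

open FlowBAux in
/-- a closed flow is a gradient: it has zero sum at every face (`w` = indicator of the face), so
`cob` with `π = τ * σ` and `grad` with `M.cjq` apply -/
theorem flow_grad {B : D → ℚ} {x : F} (h : Flow M B x x) :
    ∃ p : V → ℚ, ∀ d, B d = p (M.vt (M.τ d)) - p (M.vt d) := by
  obtain ⟨q, hq⟩ := cob (K := ℚ) (M.τ * M.σ) M.fc M.fs (fun d => B (M.σ d)) fun d => face_sum h (M.fc d)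
  obtain ⟨p, hp, hBp⟩ := grad M.cjq M.tt M.out M.ot B h.1 q hq
  choose s hs using M.vsur
  refine ⟨fun v => p (s v), fun d => ?_⟩
  have h1 : ∀ d, p (s (M.vt d)) = p d := fun d => const_cycle hp ((M.vs _ _).1 (hs _))
  show B d = p (s (M.vt (M.τ d))) - p (s (M.vt d))
  rw [h1, h1]
  exact hBp d

end Pool.Agent.Lib.PLQ
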