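import Mathlib
import Pool.Agent.Lib.PLQ.FlowA
import Pool.Agent.Lib.PLQ.FlowB

set_option autoImplicit false
set_option linter.unusedSectionVars false
set_option linter.unusedVariables false

/-! Module OrdB: the dual is acyclic; directed dual paths between two faces at a vertex `v` use only
arcs at `v` (because `D - v` is strong).
`acyc`: `le_flow` (with `x = y = fc (σ⁻¹ a)`) and `flow_grad` give a potential `p` which does not
decrease along arcs and increases along `a`, but there is a directed path from the head of `a` to its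
tail (`hG.ts`).
`fcp`: let `v = vt d = vt e`.  Suppose `a` is not at `v`.  Add the flow of `le_flow` from `fc d` to
`fc e` and the flow of `rot_flow` from `fc e` to `fc d`: a closed flow which is `≥ 0` on outgoing
darts of arcs not at `v` and `≥ 1` on `a`; use a directed path from the head to the tail of `a`
avoiding `v` (`hG.ts`). -/

namespace Pool.Agent.Lib.PLQ

open Finset Pool.Agent.Lib.NK
open scoped Classical

variable {V D F : Type} [Fintype V] [Fintype D] [Fintype F] {M : PM V D F}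

private theorem mono_path {B : D → ℚ} {p : V → ℚ} (hp : ∀ d, B d = p (M.vt (M.τ d)) - p (M.vt d)) {z : V}
    (h0 : ∀ d, M.out d = true → M.vt d ≠ z → M.vt (M.τ d) ≠ z → 0 ≤ B d) {x y : V}
    (h : Rc M.R (univ.erase z) x y) : p x ≤ p y := by
  refine Rc.induct (p := fun y => p x ≤ p y) (fun _ => le_refl _) ?_ h
  intro u w hu ih huw hw
  obtain ⟨d, hd, hdu, hdw⟩ := huw
  have h1 := h0 d hd (by rw [hdu]; exact (mem_erase.mp hu.right).1)
    (by rw [hdw]; exact (mem_erase.mp hw).1)
  have h2 := hp d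
  rw [hdu, hdw] at h2
  linarith

theorem acyc (hG : Good M) {a : D} (ha : M.out a = true) :
    ¬ M.le (M.fc a) (M.fc (M.σ⁻¹ a)) := by
  intro h
  obtain ⟨B, hB, hB0, hB1⟩ := le_flow (x := M.fc (M.σ⁻¹ a)) (y := M.fc (M.σ⁻¹ a)) ha (M.le_rfl' _) h
  obtain ⟨p, hp⟩ := flow_grad hB
  obtain ⟨z, hz1, hz2⟩ : ∃ z, z ≠ M.vt a ∧ z ≠ M.vt (M.τ a) := by
    by_contra hcon
    push Not at hcon
    have h1 : (univ : Finset V) ⊆ {M.vt a, M.vt (M.τ a)} := by
      intro z _
      rw [mem_insert, mem_singleton]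
      by_cases h : z = M.vt a
      · exact Or.inl h
      · exact Or.inr (hcon z h)
    have h2 := card_le_card h1
    have h3 := hG.ts.1
    have h4 := card_le_two (a := M.vt a) (b := M.vt (M.τ a))
    omega
  have h1 := mono_path (M := M) hp (z := z) (fun d hd _ _ => hB0 d hd)
    (hG.ts.2 z (mem_univ _) (M.vt (M.τ a)) (mem_erase.mpr ⟨hz2.symm, mem_univ _⟩) (M.vt a)
      (mem_erase.mpr ⟨hz1.symm, mem_univ _⟩))
  have h2 := hp a
  linarith

theorem le_antisymm' (hG : Good M) {x y : F} (h : M.le x y) (h' : M.le y x) : x = y := by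
  rcases Relation.ReflTransGen.cases_head h with h1 | ⟨c, ⟨d, hd, hdx, hdc⟩, h2⟩
  · exact h1
  · exfalso
    refine acyc hG hd ?_
    rw [hdx, hdc]
    exact M.le_trans' h2 h'

theorem up_ne (hG : Good M) {x y : F} (h : M.up x y) : x ≠ y := by
  obtain ⟨d, hd, hdx, hdy⟩ := h
  intro hxy
  refine acyc hG hd ?_
  rw [hdx, hdy, hxy]
  exact M.le_rfl' _

theorem adj_ne (hG : Good M) {x y : F} (h : M.adj x y) : x ≠ y := by
  rcases h with h | h
  · exact up_ne hG h
  · exact (up_ne hG h).symm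

theorem fc_sig_ne (hG : Good M) (d : D) : M.fc (M.σ d) ≠ M.fc d :=
  (adj_ne hG (M.adj_sig d)).symm

theorem fcp (hG : Good M) {d e : D} (hv : M.vt d = M.vt e) {a : D} (ha : M.out a = true)
    (h1 : M.le (M.fc d) (M.fc (M.σ⁻¹ a))) (h2 : M.le (M.fc a) (M.fc e)) :
    M.vt a = M.vt d ∨ M.vt (M.τ a) = M.vt d := by
  by_contra hcon
  push Not at hcon
  obtain ⟨hc1, hc2⟩ := hcon
  obtain ⟨B, hB, hB0, hB1⟩ := le_flow ha h1 h2
  obtain ⟨C, hC, hC0⟩ := rot_flow (M := M) hv.symm
  obtain ⟨p, hp⟩ := flow_grad (flow_add hB hC)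
  rw [← hv] at hC0
  have h3 := mono_path (M := M) hp (z := M.vt d) (fun x hx hx1 hx2 => by
      have h4 := hB0 x hx
      have h5 := hC0 x hx1 hx2
      simp only [h5, add_zero]
      exact h4)
    (hG.ts.2 (M.vt d) (mem_univ _) (M.vt (M.τ a)) (mem_erase.mpr ⟨hc2, mem_univ _⟩) (M.vt a)
      (mem_erase.mpr ⟨hc1, mem_univ _⟩))
  have h4 := hp a
  have h5 := hC0 a hc1 hc2
  simp only [h5, add_zero] at h4
  linarith

end Pool.Agent.Lib.PLQ
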