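import Mathlib
import Pool.Agent.Lib.PLQ.OrdB

set_option autoImplicit false
set_option linter.unusedSectionVars false
set_option linter.unusedVariables false

/-! Module OrdC: the dual graph is connected; a face has at most one corner at a vertex. -/

namespace Pool.Agent.Lib.PLQ

open Finset Pool.Agent.Lib.NK
open scoped Classical

variable {V D F : Type} [Fintype V] [Fintype D] [Fintype F] {M : PM V D F}

namespace OrdCAux

/-- rotation to any dart at the same vertex -/
theorem rot_ex (M : PM V D F) {d e : D} (h : M.vt d = M.vt e) : ∃ k : ℕ, (M.σ ^ k) d = e := by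
  obtain ⟨k, -, hk⟩ := ((M.vs d e).1 h).exists_pow_eq'
  exact ⟨k, hk⟩

/-- induction over the vertices of a strong digraph without one vertex -/
theorem reach_of (hG : Good M) (Q : V → Prop) (v : V)
    (hQ : ∀ a b, a ≠ v → b ≠ v → M.R a b → Q a → Q b)
    {a b : V} (ha : a ≠ v) (hb : b ≠ v) (h : Q a) : Q b := by
  obtain ⟨-, h2⟩ := hG.ts.2 v (mem_univ v) a (mem_erase.2 ⟨ha, mem_univ a⟩) b
    (mem_erase.2 ⟨hb, mem_univ b⟩)
  have key : ∀ c, Relation.ReflTransGen (fun a b => M.R a b ∧ b ∈ univ.erase v) a c →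
      Q c ∧ c ≠ v := by
    intro c hc
    induction hc with
    | refl => exact ⟨h, ha⟩
    | tail _ h3 ih =>
      have h4 := (mem_erase.1 h3.2).1
      exact ⟨hQ _ _ ih.2 h4 h3.1 ih.1, h4⟩
  exact (key b h2).1

theorem third (hG : Good M) (a b : V) : ∃ z, a ≠ z ∧ b ≠ z := by
  by_contra hcon
  push Not at hcon
  have h1 : (univ : Finset V) ⊆ {a, b} := by
    intro z _
    rw [mem_insert, mem_singleton]
    by_cases h : a = z
    · exact Or.inl h.symm
    · exact Or.inr (hcon z h).symm
  have h2 := card_le_card h1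
  have h3 : ({a, b} : Finset V).card ≤ 2 := card_le_two
  have h4 := hG.ts.1
  omega

/-- constancy along the rotation -/
theorem rot_prop (M : PM V D F) (P : D → Prop) (hP : ∀ x, P x → P (M.σ x)) {d e : D}
    (h : M.vt d = M.vt e) (hd : P d) : P e := by
  obtain ⟨k, rfl⟩ := rot_ex M h
  have : ∀ k : ℕ, P ((M.σ ^ k) d) := by
    intro k
    induction k with
    | zero => exact hd
    | succ k ih =>
      rw [pow_succ', Equiv.Perm.mul_apply]
      exact hP _ ih
  exact this k

theorem sum_ind {D F : Type} [Fintype D] (f : D → F) {d e : D} (hde : d ≠ e) (h : f d = f e)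
    (x : D) : ∑ y ∈ univ.filter (fun y => f y = f x), (if y = d ∨ y = e then (1 : ZMod 2) else 0)
      = 0 := by
  rw [sum_ite, sum_const_zero, add_zero, sum_const, filter_filter]
  by_cases hx : f d = f x
  · have e1 : univ.filter (fun y => f y = f x ∧ (y = d ∨ y = e)) = {d, e} := by
      ext y
      simp only [mem_filter, mem_univ, true_and, mem_insert, mem_singleton]
      constructor
      · exact fun h => h.2
      · rintro (rfl | rfl)
        · exact ⟨hx, Or.inl rfl⟩
        · exact ⟨h ▸ hx, Or.inr rfl⟩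
    rw [e1, card_pair hde]
    decide
  · have e1 : univ.filter (fun y => f y = f x ∧ (y = d ∨ y = e)) = ∅ := by
      ext y
      simp only [mem_filter, mem_univ, true_and, notMem_empty, iff_false]
      rintro ⟨h1, rfl | rfl⟩
      · exact hx h1
      · exact hx (h.trans h1)
    rw [e1, card_empty, zero_smul]

end OrdCAux

open OrdCAux

/-- the dual graph is connected (corners at one vertex are connected by rotation, `D` is strong) -/
theorem conn_univ (hG : Good M) : M.Conn Set.univ := by
  intro x _ y _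
  obtain ⟨d, rfl⟩ := M.fsur x
  obtain ⟨e, rfl⟩ := M.fsur y
  let P : D → Prop := fun c =>
    Relation.ReflTransGen (fun a b => M.adj a b ∧ b ∈ (Set.univ : Set F)) (M.fc d) (M.fc c)
  have hP : ∀ c, P c → P (M.σ c) := fun c hc => hc.tail ⟨M.adj_sig c, Set.mem_univ _⟩
  have hd : P d := Relation.ReflTransGen.refl
  let Q : V → Prop := fun a => ∀ c, M.vt c = a → P c
  have hQd : Q (M.vt d) := fun c hc => rot_prop M P hP hc.symm hd
  have hR : ∀ a b, M.R a b → Q a → Q b := by
    rintro a b ⟨z, -, rfl, rfl⟩ hQ c hc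
    have h1 : P (M.σ⁻¹ z) := hQ _ (M.vt_inv z)
    have h2 : P (M.τ z) := by
      change Relation.ReflTransGen _ _ _
      rw [M.fc_tau]
      exact h1
    exact rot_prop M P hP hc.symm h2
  obtain ⟨z, h1, h2⟩ := third hG (M.vt d) (M.vt e)
  exact reach_of hG Q z (fun a b _ _ => hR a b) h1 h2 hQd e rfl

/-- a face has at most one corner at a vertex.  Proof: suppose `d ≠ e`.  Apply `M.cj2` to
`g, h` with `g (σ x) - g x = h (τ (σ x)) - h x =` the indicator of `{d, e}` (both exist: the
indicator has even sum on every `σ`-cycle and on every `τσ`-cycle; use `cob`).  This gives a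
colouring `κ` of the arcs with `κ (σ x) = κ x` unless `x ∈ {d, e}`.  All arcs which have an end
different from `v = vt d` have the same colour since `D - v` is connected; as there are no loops
these are all arcs, so `κ` is constant, contradiction at `x = d`. -/
theorem cu (hG : Good M) {d e : D} (h : M.fc d = M.fc e) (h' : M.vt d = M.vt e) : d = e := by
  by_contra hde
  obtain ⟨g, hg⟩ := cob M.σ M.vt M.vs (fun y => if y = d ∨ y = e then (1 : ZMod 2) else 0)
    (sum_ind M.vt hde h')
  obtain ⟨k, hk⟩ := cob (M.τ * M.σ) M.fc M.fs (fun y => if y = d ∨ y = e then (1 : ZMod 2) else 0)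
    (sum_ind M.fc hde h)
  obtain ⟨c, hc1, hc2⟩ := M.cj2 g k (fun x => by
    rw [← hg x, hk x, Equiv.Perm.mul_apply])
  have hc3 : ∀ x, c (M.σ x) - c x = if x = d ∨ x = e then (1 : ZMod 2) else 0 := by
    intro x
    rw [hg x]
    linear_combination -(hc2 x)
  have hc4 : ∀ x, M.vt x ≠ M.vt d → c (M.σ x) = c x := by
    intro x hx
    have h1 := hc3 x
    rw [if_neg (by
      rintro (rfl | rfl)
      · exact hx rfl
      · exact hx h'.symm)] at h1
    exact sub_eq_zero.1 h1
  -- darts away from `v`
  have hnl := hG.nl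
  obtain ⟨z0, hz0⟩ : ∃ z0, M.vt z0 ≠ M.vt d := ⟨M.τ d, hnl d⟩
  let Q : V → Prop := fun a => ∀ x, M.vt x = a → c x = c z0
  have hrot : ∀ x y, M.vt x = M.vt y → M.vt x ≠ M.vt d → c x = c z0 → c y = c z0 := by
    intro x y hxy hx hcx
    have := rot_prop M (fun w => M.vt w = M.vt x ∧ c w = c z0) (fun w hw => by
      refine ⟨by rw [M.vt_sig]; exact hw.1, ?_⟩
      rw [hc4 w (by rw [hw.1]; exact hx)]
      exact hw.2) hxy ⟨rfl, hcx⟩
    exact this.2
  have hQ0 : Q (M.vt z0) := fun x hx => hrot z0 x hx.symm hz0 rfl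
  have hstep : ∀ a b, a ≠ M.vt d → b ≠ M.vt d → M.R a b → Q a → Q b := by
    rintro a b ha hb ⟨z, -, rfl, rfl⟩ hQ x hx
    have h1 := hQ z rfl
    exact hrot (M.τ z) x hx.symm hb (by rw [hc1]; exact h1)
  have hall : ∀ x, M.vt x ≠ M.vt d → c x = c z0 := fun x hx =>
    reach_of hG Q (M.vt d) hstep hz0 hx hQ0 x rfl
  have hall' : ∀ x, c x = c z0 := by
    intro x
    by_cases hx : M.vt x = M.vt d
    · have h1 : M.vt (M.τ x) ≠ M.vt d := by
        rw [← hx]
        exact hnl x
      have h2 := hall _ h1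
      rw [hc1] at h2
      exact h2
    · exact hall x hx
  have h1 := hc3 d
  rw [if_pos (Or.inl rfl), hall' (M.σ d), hall' d, sub_self] at h1
  exact absurd h1 (by decide)

end Pool.Agent.Lib.PLQ
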