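import Mathlib
import Pool.Agent.Lib.PLQ.Grad

set_option autoImplicit false
set_option linter.unusedSectionVars false
set_option linter.unusedVariables false

/-! Module KapA: `PF M A a a' s` (in Defs): the set of corners `s` (mod 2) is a path from corner `a` to
corner `a'` inside the face set `A`; 2-colouring of the arcs for an even set of corners (use `cob` for
`σ` and for `τ * σ`, then `M.cj2`). -/

namespace Pool.Agent.Lib.PLQ

open Finset Pool.Agent.Lib.NK
open scoped Classical

variable {V D F : Type} [Fintype V] [Fintype D] [Fintype F] {M : PM V D F}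

namespace KapAAux

theorem PF_refl (A : Set F) (a : D) : PF M A a a (fun _ => 0) := by
  refine ⟨fun d hd => absurd rfl hd, fun d => Finset.sum_const_zero, fun r _ => ?_⟩
  rw [CharTwo.add_self_eq_zero]
  exact Finset.sum_eq_zero fun d _ => mul_zero _

theorem PF_step {A : Set F} {a b c a' : D} {s0 : D → ZMod 2} (h : PF M A a b s0)
    (hc : M.fc c = M.fc a') (ha' : M.fc a' ∈ A)
    (hr : ∀ r : D → ZMod 2, (∀ d, M.fc d ∈ A → M.fc (M.σ⁻¹ d) ∈ A → r (M.σ⁻¹ d) = r d) →
      r b = r c) :
    PF M A a a' (fun d => s0 d + ((if d = c then 1 else 0) + (if d = a' then 1 else 0))) := by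
  obtain ⟨h1, h2, h3⟩ := h
  refine ⟨fun d hd => ?_, fun d => ?_, fun r hr' => ?_⟩
  · by_cases hdc : d = c
    · rw [hdc, hc]; exact ha'
    · by_cases hda : d = a'
      · rw [hda]; exact ha'
      · apply h1
        intro h0
        apply hd
        simp only [h0, if_neg hdc, if_neg hda, add_zero]
  · rw [Finset.sum_add_distrib, h2, Finset.sum_add_distrib, Finset.sum_ite_eq',
      Finset.sum_ite_eq']
    simp only [Finset.mem_filter, Finset.mem_univ, true_and]
    rw [hc, CharTwo.add_self_eq_zero, add_zero]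
  · have e : ∀ d, r d * (s0 d + ((if d = c then 1 else 0) + (if d = a' then 1 else 0))) =
        r d * s0 d + ((if d = c then r d else 0) + (if d = a' then r d else 0)) := by
      intro d
      rw [mul_add, mul_add, mul_ite, mul_ite, mul_one, mul_zero]
    simp only [e]
    rw [Finset.sum_add_distrib, h3 r hr', Finset.sum_add_distrib, Finset.sum_ite_eq',
      Finset.sum_ite_eq']
    simp only [Finset.mem_univ, if_true]
    rw [hr r hr']
    have h4 := CharTwo.add_self_eq_zero (r c)
    linear_combination h4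

theorem main {A : Set F} {a : D} (ha : M.fc a ∈ A) {y : F}
    (h : Relation.ReflTransGen (fun a b => M.adj a b ∧ b ∈ A) (M.fc a) y) :
    y ∈ A ∧ ∀ a', M.fc a' = y → ∃ s, PF M A a a' s := by
  induction h with
  | refl =>
    refine ⟨ha, fun a' ha' => ⟨_, PF_step (PF_refl A a) ha'.symm (by rw [ha']; exact ha)
      fun r _ => rfl⟩⟩
  | tail _ hbc ih =>
    obtain ⟨hb, ih⟩ := ih
    obtain ⟨hadj, hc⟩ := hbc
    refine ⟨hc, fun a' ha' => ?_⟩
    rcases hadj with ⟨d, -, hd1, hd2⟩ | ⟨d, -, hd1, hd2⟩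
    · obtain ⟨s, hs⟩ := ih _ hd1
      refine ⟨_, PF_step (c := d) hs (by rw [hd2, ha']) (by rw [ha']; exact hc) fun r hr => ?_⟩
      exact hr d (by rw [hd2]; exact hc) (by rw [hd1]; exact hb)
    · obtain ⟨s, hs⟩ := ih _ hd2
      refine ⟨_, PF_step (c := M.σ⁻¹ d) hs (by rw [hd1, ha']) (by rw [ha']; exact hc)
        fun r hr => ?_⟩
      exact (hr d (by rw [hd2]; exact hb) (by rw [hd1]; exact hc)).symm

end KapAAux

/-- for a step from face `x` to the adjacent face `y` across the dart `e` take the two corners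
`σ⁻¹ e` and `e`; inside a face take the two corners -/
theorem exists_PF {A : Set F} (hA : M.Conn A) {a a' : D} (ha : M.fc a ∈ A) (ha' : M.fc a' ∈ A) :
    ∃ s, PF M A a a' s :=
  (KapAAux.main ha (hA _ ha _ ha')).2 a' rfl

/-- the 2-colouring of the arcs for an even set of corners -/
theorem exists_kappa (s : D → ZMod 2)
    (h1 : ∀ d, ∑ e ∈ univ.filter (fun e => M.vt e = M.vt d), s e = 0)
    (h2 : ∀ d, ∑ e ∈ univ.filter (fun e => M.fc e = M.fc d), s e = 0) :
    ∃ κ : D → ZMod 2, (∀ d, κ (M.τ d) = κ d) ∧ ∀ d, κ (M.σ d) = κ d + s d := by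
  obtain ⟨g, hg⟩ := cob M.σ M.vt M.vs s h1
  obtain ⟨h, hh⟩ := cob (M.τ * M.σ) M.fc M.fs s h2
  obtain ⟨c, hc1, hc2⟩ := M.cj2 g h (fun d => by
    rw [← hg d]
    exact hh d)
  refine ⟨c, hc1, fun d => ?_⟩
  have h3 := hc2 d
  rw [hg d]
  linear_combination -h3

end Pool.Agent.Lib.PLQ
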