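import Mathlib
import Pool.Agent.Lib.PLQ.KapA

set_option autoImplicit false
set_option linter.unusedSectionVars false
set_option linter.unusedVariables false

/-! Module KapB: closed curves through connected face sets and the 2-colourings of the arcs they
define.  Take `s` = sum of the `PF` functions, `κ` from `exists_kappa`; for the last property use
the third clause of `PF` with `r` = indicator of `{(σ^i) d | i < k}`. -/

namespace Pool.Agent.Lib.PLQ

open Finset Pool.Agent.Lib.NK
open scoped Classical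

variable {V D F : Type} [Fintype V] [Fintype D] [Fintype F] {M : PM V D F}

namespace KapBAux

theorem vsum {A : Set F} {a a' : D} {s : D → ZMod 2} (hs : PF M A a a' s) (d : D) :
    ∑ e ∈ univ.filter (fun e => M.vt e = M.vt d), s e =
      (if M.vt a = M.vt d then (1 : ZMod 2) else 0) + (if M.vt a' = M.vt d then 1 else 0) := by
  have h := hs.2.2 (fun e => if M.vt e = M.vt d then (1 : ZMod 2) else 0) (by
    intro e _ _
    simp only [M.vt_inv])
  rw [← h, Finset.sum_filter]
  refine Finset.sum_congr rfl fun e _ => ?_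
  split_ifs <;> simp

theorem csum {A : Set F} {a a' : D} {s : D → ZMod 2} (hs : PF M A a a' s) (d : D) (k : ℕ)
    (hk : ∀ i, 0 < i → i < k → (M.σ ^ i) d ≠ d) (h1 : Fr M A d) (h2 : Fr M A ((M.σ ^ k) d)) :
    ∑ i ∈ range k, s ((M.σ ^ i) d) = cnt M d k a + cnt M d k a' := by
  have h := hs.2.2 (fun e => cnt M d k e) (by
    intro e he he'
    have key : (∃ i, i < k ∧ (M.σ ^ i) d = M.σ⁻¹ e) ↔ (∃ i, i < k ∧ (M.σ ^ i) d = e) := by
      constructor
      · rintro ⟨i, hi, hi'⟩
        have e1 : (M.σ ^ (i + 1)) d = e := by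
          rw [pow_succ', Equiv.Perm.mul_apply, hi', perm_ai]
        by_cases hik : i + 1 < k
        · exact ⟨i + 1, hik, e1⟩
        · exfalso
          have : i + 1 = k := by omega
          rw [this] at e1
          rw [e1] at h2
          exact h2 ⟨he, he'⟩
      · rintro ⟨i, hi, hi'⟩
        rcases Nat.eq_zero_or_pos i with h0 | h0
        · exfalso
          subst h0
          rw [pow_zero, Equiv.Perm.one_apply] at hi'
          subst hi'
          exact h1 ⟨he, he'⟩
        · refine ⟨i - 1, by omega, ?_⟩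
          have : i = (i - 1) + 1 := by omega
          rw [this, pow_succ', Equiv.Perm.mul_apply] at hi'
          rw [← hi', perm_ia]
    simp only [cnt, key])
  rw [← h]
  have inj : Set.InjOn (fun i => (M.σ ^ i) d) (range k : Set ℕ) := by
    have aux : ∀ i j : ℕ, i < j → j < k → (M.σ ^ i) d ≠ (M.σ ^ j) d := by
      intro i j hij hj he
      have : j = i + (j - i) := by omega
      rw [this, pow_add, Equiv.Perm.mul_apply] at he
      exact hk (j - i) (by omega) (by omega) ((M.σ ^ i).injective he).symm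
    intro i hi j hj he
    simp only [coe_range, Set.mem_Iio] at hi hj
    rcases lt_trichotomy i j with h | h | h
    · exact absurd he (aux i j h hj)
    · exact h
    · exact absurd he.symm (aux j i h hi)
  have e1 : ∑ e, cnt M d k e * s e
      = ∑ e ∈ (range k).image (fun i => (M.σ ^ i) d), s e := by
    rw [← Finset.sum_filter_add_sum_filter_not univ
      (fun e => e ∈ (range k).image (fun i => (M.σ ^ i) d))]
    have z : ∑ e ∈ univ.filter (fun e => ¬ e ∈ (range k).image (fun i => (M.σ ^ i) d)),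
        cnt M d k e * s e = 0 := by
      refine Finset.sum_eq_zero fun e he => ?_
      simp only [mem_filter, mem_univ, true_and, mem_image, mem_range] at he
      have : cnt M d k e = 0 := if_neg he
      rw [this, zero_mul]
    rw [z, add_zero]
    refine Finset.sum_congr (by ext e; simp) fun e he => ?_
    simp only [mem_image, mem_range] at he
    have : cnt M d k e = 1 := if_pos he
    rw [this, one_mul]
  rw [e1, Finset.sum_image inj]

theorem kpow {κ s : D → ZMod 2} (h : ∀ d, κ (M.σ d) = κ d + s d) (d : D) (k : ℕ) :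
    κ ((M.σ ^ k) d) = κ d + ∑ i ∈ range k, s ((M.σ ^ i) d) := by
  induction k with
  | zero => simp
  | succ k ih =>
    rw [pow_succ', Equiv.Perm.mul_apply, h, ih, Finset.sum_range_succ, add_assoc]

end KapBAux

/-- closed curve through one connected face set, from a corner at `u` back to a corner at `u` -/
theorem kap1 {A : Set F} (hA : M.Conn A) {a a' : D} (ha : M.fc a ∈ A) (ha' : M.fc a' ∈ A)
    (hv : M.vt a = M.vt a') :
    ∃ κ : D → ZMod 2, (∀ d, κ (M.τ d) = κ d) ∧ (∀ d, M.fc d ∉ A → κ (M.σ d) = κ d) ∧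
      ∀ d k, (∀ i, 0 < i → i < k → (M.σ ^ i) d ≠ d) → Fr M A d → Fr M A ((M.σ ^ k) d) →
        κ ((M.σ ^ k) d) = κ d + (cnt M d k a + cnt M d k a') := by
  obtain ⟨s, hs⟩ := exists_PF hA ha ha'
  obtain ⟨κ, k1, k2⟩ := exists_kappa (M := M) s (by
    intro d
    rw [KapBAux.vsum hs d, hv]
    exact CharTwo.add_self_eq_zero _) hs.2.1
  refine ⟨κ, k1, ?_, ?_⟩
  · intro d hd
    have : s d = 0 := by
      by_contra hne
      exact hd (hs.1 d hne)
    rw [k2, this, add_zero]
  · intro d k hk h1 h2
    rw [KapBAux.kpow k2, KapBAux.csum hs d k hk h1 h2]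

/-- closed curve through two disjoint connected face sets `A` (from `a` to `a'`) and `P` (from `p`
to `p'`) via the vertices `vt a = vt p` and `vt a' = vt p'` -/
theorem kap2 {A P : Set F} (hA : M.Conn A) (hP : M.Conn P) (hAP : Disjoint A P)
    {a a' p p' : D} (ha : M.fc a ∈ A) (ha' : M.fc a' ∈ A) (hp : M.fc p ∈ P) (hp' : M.fc p' ∈ P)
    (hv : M.vt a = M.vt p) (hv' : M.vt a' = M.vt p') :
    ∃ κ : D → ZMod 2, (∀ d, κ (M.τ d) = κ d) ∧
      (∀ d, M.fc d ∉ A → M.fc d ∉ P → κ (M.σ d) = κ d) ∧
      ∀ d k, (∀ i, 0 < i → i < k → (M.σ ^ i) d ≠ d) → Fr M A d → Fr M P d →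
        Fr M A ((M.σ ^ k) d) → Fr M P ((M.σ ^ k) d) →
        κ ((M.σ ^ k) d) = κ d + (cnt M d k a + cnt M d k a' + cnt M d k p + cnt M d k p') := by
  obtain ⟨s, hs⟩ := exists_PF hA ha ha'
  obtain ⟨t, ht⟩ := exists_PF hP hp hp'
  obtain ⟨κ, k1, k2⟩ := exists_kappa (M := M) (fun d => s d + t d) (by
    intro d
    rw [Finset.sum_add_distrib, KapBAux.vsum hs d, KapBAux.vsum ht d, hv, hv']
    exact CharTwo.add_self_eq_zero _) (by
    intro d
    rw [Finset.sum_add_distrib, hs.2.1 d, ht.2.1 d, add_zero])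
  refine ⟨κ, k1, ?_, ?_⟩
  · intro d hd hd'
    have e1 : s d = 0 := by
      by_contra hne
      exact hd (hs.1 d hne)
    have e2 : t d = 0 := by
      by_contra hne
      exact hd' (ht.1 d hne)
    rw [k2, e1, e2, add_zero, add_zero]
  · intro d k hk h1 h2 h3 h4
    rw [KapBAux.kpow k2, Finset.sum_add_distrib, KapBAux.csum hs d k hk h1 h3,
      KapBAux.csum ht d k hk h2 h4]
    ring

/-- a connected face set not met by the curve has one colour -/
theorem mono {C : Set F} (hC : M.Conn C) {κ : D → ZMod 2} (h1 : ∀ d, κ (M.τ d) = κ d)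
    (h2 : ∀ d, M.fc d ∈ C → κ (M.σ d) = κ d) {d e : D} (hd : M.fc d ∈ C) (he : M.fc e ∈ C) :
    κ d = κ e := by
  have pw : ∀ (n : ℕ) (x : D), M.fc x ∈ C →
      M.fc (((M.τ * M.σ) ^ n) x) ∈ C ∧ κ (((M.τ * M.σ) ^ n) x) = κ x := by
    intro n x hx
    induction n with
    | zero => exact ⟨hx, rfl⟩
    | succ n ih =>
      rw [pow_succ', Equiv.Perm.mul_apply, Equiv.Perm.mul_apply]
      refine ⟨?_, ?_⟩
      · rw [M.fc_phi]; exact ih.1
      · rw [h1, h2 _ ih.1]; exact ih.2
  have same : ∀ x y : D, M.fc x = M.fc y → M.fc x ∈ C → κ x = κ y := by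
    intro x y hxy hx
    rw [M.fs] at hxy
    obtain ⟨n, hn⟩ := hxy.exists_nat_pow_eq
    rw [← hn]
    exact (pw n x hx).2.symm
  have key : ∀ x y : F, Relation.ReflTransGen (fun a b => M.adj a b ∧ b ∈ C) x y → x ∈ C →
      ∀ d e : D, M.fc d = x → M.fc e = y → κ d = κ e := by
    intro x y hxy hx
    induction hxy with
    | refl =>
      intro d e hd he
      exact same d e (hd.trans he.symm) (hd ▸ hx)
    | @tail b c hb hc ih =>
      intro d e hd he
      have hbC : b ∈ C := by
        cases hb with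
        | refl => exact hx
        | tail _ h => exact h.2
      rcases hc.1 with ⟨z, _, z1, z2⟩ | ⟨z, _, z1, z2⟩
      · -- fc (σ⁻¹ z) = b, fc z = c
        have e1 := ih d (M.σ⁻¹ z) hd z1
        have e2 := h2 (M.σ⁻¹ z) (z1 ▸ hbC)
        rw [perm_ai] at e2
        have e3 := same z e (z2.trans he.symm) (z2 ▸ hc.2)
        rw [e1, ← e2, e3]
      · -- fc (σ⁻¹ z) = c, fc z = b
        have e1 := ih d z hd z2
        have e2 := h2 (M.σ⁻¹ z) (z1 ▸ hc.2)
        rw [perm_ai] at e2
        have e3 := same (M.σ⁻¹ z) e (z1.trans he.symm) (z1 ▸ hc.2)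
        rw [e1, e2, e3]
  exact key (M.fc d) (M.fc e) (hC _ hd _ he) hd d e rfl rfl

end Pool.Agent.Lib.PLQ
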