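import Mathlib
import Pool.Agent.Lib.PLQ.KapB

set_option autoImplicit false
set_option linter.unusedSectionVars false
set_option linter.unusedVariables false

/-! Module RunA: a connected face set with connected complement has at most one run of corners around a vertex. -/

namespace Pool.Agent.Lib.PLQ

open Finset Pool.Agent.Lib.NK
open scoped Classical

variable {V D F : Type} [Fintype V] [Fintype D] [Fintype F] {M : PM V D F}

/-- Proof: if `d ≠ e`, take `κ` from `kap1` with `A = X`, `a = d`, `a' = e`, and `e = σ^k d` with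
`k` minimal: `κ e = κ d + 1`.  But `κ d = κ (σ⁻¹ d) = κ (σ⁻¹ e) = κ e` by `mono` for `Xᶜ`. -/
theorem enter_unique {X : Set F} (hX : M.Conn X) (hXc : M.Conn Xᶜ) {d e : D}
    (hv : M.vt d = M.vt e) (hd : M.fc d ∈ X) (hd' : M.fc (M.σ⁻¹ d) ∉ X) (he : M.fc e ∈ X)
    (he' : M.fc (M.σ⁻¹ e) ∉ X) : d = e := by
  by_contra hne
  obtain ⟨κ, k1, k2, k3⟩ := kap1 (M := M) hX hd he hv
  have hex : ∃ k : ℕ, (M.σ ^ k) d = e := ((M.vs d e).1 hv).exists_nat_pow_eq
  have hk : (M.σ ^ (Nat.find hex)) d = e := Nat.find_spec hex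
  have hmin : ∀ i, i < Nat.find hex → (M.σ ^ i) d ≠ e := fun i hi => Nat.find_min hex hi
  set k := Nat.find hex with hkdef
  have hk0 : 0 < k := by
    rcases Nat.eq_zero_or_pos k with h0 | h0
    · exfalso
      rw [h0, pow_zero, Equiv.Perm.one_apply] at hk
      exact hne hk
    · exact h0
  have hper : ∀ i, 0 < i → i < k → (M.σ ^ i) d ≠ d := by
    intro i hi hik hi'
    have e1 : (M.σ ^ (k - i)) d = e := by
      have : k = (k - i) + i := by omega
      rw [this, pow_add, Equiv.Perm.mul_apply, hi'] at hk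
      exact hk
    exact hmin (k - i) (by omega) e1
  have f1 : Fr M X d := fun h => hd' h.2
  have f2 : Fr M X ((M.σ ^ k) d) := by
    rw [hk]
    exact fun h => he' h.2
  have h3 := k3 d k hper f1 f2
  have c1 : cnt M d k d = 1 := if_pos ⟨0, hk0, by rw [pow_zero, Equiv.Perm.one_apply]⟩
  have c2 : cnt M d k e = 0 := if_neg (by
    rintro ⟨i, hi, hi'⟩
    exact hmin i hi hi')
  rw [hk, c1, c2, add_zero] at h3
  have k2' : ∀ d, M.fc d ∈ Xᶜ → κ (M.σ d) = κ d := fun d hd => k2 d hd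
  have e1 : κ d = κ (M.σ⁻¹ d) := by
    have := k2 (M.σ⁻¹ d) hd'
    rwa [perm_ai] at this
  have e2 : κ e = κ (M.σ⁻¹ e) := by
    have := k2 (M.σ⁻¹ e) he'
    rwa [perm_ai] at this
  have e3 : κ (M.σ⁻¹ d) = κ (M.σ⁻¹ e) := mono (M := M) hXc k1 k2' hd' he'
  rw [e2, ← e3, ← e1] at h3
  have : (1 : ZMod 2) = 0 := by
    have h4 : κ d + 0 = κ d + 1 := by rw [add_zero]; exact h3
    exact (add_left_cancel h4).symm
  exact one_ne_zero this

/-- same for leaving darts -/
theorem leave_unique {X : Set F} (hX : M.Conn X) (hXc : M.Conn Xᶜ) {d e : D}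
    (hv : M.vt d = M.vt e) (hd : M.fc d ∉ X) (hd' : M.fc (M.σ⁻¹ d) ∈ X) (he : M.fc e ∉ X)
    (he' : M.fc (M.σ⁻¹ e) ∈ X) : d = e := by
  have hXcc : M.Conn (Xᶜ)ᶜ := by rw [compl_compl]; exact hX
  exact enter_unique (X := Xᶜ) hXc hXcc hv hd (fun h => h hd') he (fun h => h he')

/-- the run of `X` at `v` starts at corner `p` and has `k` corners; then follow `l` other corners -/
theorem run {X : Set F} (hX : M.Conn X) (hXc : M.Conn Xᶜ) {v : V} (hv : v ∈ M.bd X) :
    ∃ (p : D) (k l : ℕ), 0 < k ∧ 0 < l ∧ M.vt p = v ∧ (M.σ ^ (k + l)) p = p ∧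
      (∀ i, i < k → M.fc ((M.σ ^ i) p) ∈ X) ∧
      (∀ i, k ≤ i → i < k + l → M.fc ((M.σ ^ i) p) ∉ X) ∧
      (∀ i, 0 < i → i < k + l → (M.σ ^ i) p ≠ p) ∧
      ∀ d, M.vt d = v → ∃ i, i < k + l ∧ d = (M.σ ^ i) p := by
  simp only [PM.bd, mem_filter, mem_univ, true_and] at hv
  obtain ⟨⟨d, hd, hdX⟩, ⟨e, he, heX⟩⟩ := hv
  -- an entering corner
  have hed : ∃ j : ℕ, (M.σ ^ j) e = d := ((M.vs e d).1 (he.trans hd.symm)).exists_nat_pow_eq
  have hex : ∃ j : ℕ, M.fc ((M.σ ^ j) e) ∈ X := by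
    obtain ⟨j, hj⟩ := hed
    exact ⟨j, by rw [hj]; exact hdX⟩
  obtain ⟨p, hpv, hpX, hpX'⟩ : ∃ p, M.vt p = v ∧ M.fc p ∈ X ∧ M.fc (M.σ⁻¹ p) ∉ X := by
    have h1 := Nat.find_spec hex
    have h2 : ∀ i, i < Nat.find hex → ¬ M.fc ((M.σ ^ i) e) ∈ X := fun i hi => Nat.find_min hex hi
    set j := Nat.find hex
    have hj0 : 0 < j := by
      rcases Nat.eq_zero_or_pos j with h0 | h0
      · exfalso
        rw [h0, pow_zero, Equiv.Perm.one_apply] at h1
        exact heX h1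
      · exact h0
    refine ⟨(M.σ ^ j) e, ?_, h1, ?_⟩
    · rw [M.vt_pow]; exact he
    · have e1 : j = (j - 1) + 1 := by omega
      rw [e1, pow_succ', Equiv.Perm.mul_apply, perm_ia]
      exact h2 (j - 1) (by omega)
  -- the period
  have hperx : ∃ n : ℕ, 0 < n ∧ (M.σ ^ n) p = p := by
    refine ⟨orderOf M.σ, orderOf_pos M.σ, ?_⟩
    rw [pow_orderOf_eq_one, Equiv.Perm.one_apply]
  have hn := Nat.find_spec hperx
  have hnmin : ∀ i, i < Nat.find hperx → ¬ (0 < i ∧ (M.σ ^ i) p = p) :=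
    fun i hi => Nat.find_min hperx hi
  set n := Nat.find hperx
  obtain ⟨hn0, hnp⟩ := hn
  have hper : ∀ i, 0 < i → i < n → (M.σ ^ i) p ≠ p := fun i h0 hi h => hnmin i hi ⟨h0, h⟩
  have hlast : (M.σ ^ (n - 1)) p = M.σ⁻¹ p := by
    have e1 : n = (n - 1) + 1 := by omega
    have h := hnp
    rw [e1, pow_succ', Equiv.Perm.mul_apply] at h
    have h' := congrArg (fun x => M.σ⁻¹ x) h
    simp only [perm_ia] at h'
    exact h'
  have hkx : ∃ k : ℕ, M.fc ((M.σ ^ k) p) ∉ X := ⟨n - 1, by rw [hlast]; exact hpX'⟩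
  have hk := Nat.find_spec hkx
  have hkmin : ∀ i, i < Nat.find hkx → ¬ (M.fc ((M.σ ^ i) p) ∉ X) :=
    fun i hi => Nat.find_min hkx hi
  have hkle : Nat.find hkx ≤ n - 1 := Nat.find_min' hkx (by rw [hlast]; exact hpX')
  set k := Nat.find hkx
  have hk0 : 0 < k := by
    rcases Nat.eq_zero_or_pos k with h0 | h0
    · exfalso
      rw [h0, pow_zero, Equiv.Perm.one_apply] at hk
      exact hk hpX
    · exact h0
  have hkl : k + (n - k) = n := by omega
  refine ⟨p, k, n - k, hk0, by omega, hpv, by rw [hkl]; exact hnp, ?_, ?_, ?_, ?_⟩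
  · intro i hi
    exact not_not.1 (hkmin i hi)
  · intro i hki hi
    rw [hkl] at hi
    induction i, hki using Nat.le_induction with
    | base => exact hk
    | succ i hki ih =>
      intro hX1
      have h1 := ih (by omega)
      have e1 : M.σ⁻¹ ((M.σ ^ (i + 1)) p) = (M.σ ^ i) p := by
        rw [pow_succ', Equiv.Perm.mul_apply, perm_ia]
      have := enter_unique hX hXc (d := (M.σ ^ (i + 1)) p) (e := p) (by rw [M.vt_pow]) hX1
        (by rw [e1]; exact h1) hpX hpX'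
      exact hper (i + 1) (by omega) hi this
  · intro i h0 hi
    rw [hkl] at hi
    exact hper i h0 hi
  · intro d hdv
    rw [hkl]
    have hpd : ∃ j : ℕ, (M.σ ^ j) p = d := ((M.vs p d).1 (hpv.trans hdv.symm)).exists_nat_pow_eq
    have h1 := Nat.find_spec hpd
    have h2 : ∀ i, i < Nat.find hpd → ¬ (M.σ ^ i) p = d := fun i hi => Nat.find_min hpd hi
    set j := Nat.find hpd
    refine ⟨j, ?_, h1.symm⟩
    by_contra hlt
    have e1 : j = (j - n) + n := by omega
    have h3 := h1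
    rw [e1, pow_add, Equiv.Perm.mul_apply, hnp] at h3
    exact h2 (j - n) (by omega) h3

end Pool.Agent.Lib.PLQ
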