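import Mathlib
import Pool.Agent.Lib.PLQ.RunA
import Pool.Agent.Lib.PLQ.OrdC
import Pool.Agent.Lib.PLQ.Grad

set_option autoImplicit false
set_option linter.unusedSectionVars false
set_option linter.unusedVariables false

/-! Module DiscN: the boundary permutation of a disc. -/

namespace Pool.Agent.Lib.PLQ

open Finset Pool.Agent.Lib.NK
open scoped Classical

variable {V D F : Type} [Fintype V] [Fintype D] [Fintype F] {M : PM V D F}

namespace DiscNAux

/-- there is an entering dart at every boundary vertex -/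
theorem enter_ex {X : Set F} {v : V} (hv : v ∈ M.bd X) :
    ∃ d, M.vt d = v ∧ M.fc d ∈ X ∧ M.fc (M.σ⁻¹ d) ∉ X := by
  obtain ⟨⟨d, hd, hdX⟩, e, he, heX⟩ := (mem_filter.1 hv).2
  by_contra hcon
  push Not at hcon
  have h1 := OrdCAux.rot_prop M (fun c => M.vt c = v ∧ M.fc c ∉ X) (fun c hc => by
    have h2 : M.vt (M.σ c) = v := by rw [M.vt_sig]; exact hc.1
    refine ⟨h2, fun h3 => ?_⟩
    have h4 := hcon _ h2 h3
    rw [perm_ia] at h4
    exact hc.2 h4) (he.trans hd.symm) ⟨he, heX⟩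
  exact h1.2 hdX

theorem mem_bd {X : Set F} {v : V} {d e : D} (hd : M.vt d = v) (he : M.vt e = v)
    (hdX : M.fc d ∈ X) (heX : M.fc e ∉ X) : v ∈ M.bd X :=
  mem_filter.2 ⟨mem_univ v, ⟨d, hd, hdX⟩, ⟨e, he, heX⟩⟩

theorem out_of_enter {X : Set F} (h : M.UpC X) {d : D} (hd : M.fc d ∈ X)
    (hd' : M.fc (M.σ⁻¹ d) ∉ X) : M.out d = true := by
  by_contra hcon
  have h1 : M.out d = false := by simpa using hcon
  exact hd' (h _ _ (M.up_in h1) hd)

/-- a sum of an indicator with exactly one hit -/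
theorem sum_one {α : Type} [Fintype α] (A P : α → Prop) [DecidablePred A] [DecidablePred P]
    (a : α) (h : ∀ e, (A e ∧ P e) ↔ e = a) :
    ∑ e ∈ univ.filter (fun e => A e), (if P e then (1 : ZMod 2) else 0) = 1 := by
  rw [sum_ite, sum_const_zero, add_zero, sum_const, filter_filter]
  have e1 : univ.filter (fun e => A e ∧ P e) = {a} := by
    ext e
    rw [mem_filter, mem_singleton]
    exact ⟨fun h2 => (h e).1 h2.2, fun h2 => ⟨mem_univ e, (h e).2 h2⟩⟩
  rw [e1, card_singleton, one_smul]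

theorem sum_zero {α : Type} [Fintype α] (A P : α → Prop) [DecidablePred A] [DecidablePred P]
    (h : ∀ e, ¬ (A e ∧ P e)) :
    ∑ e ∈ univ.filter (fun e => A e), (if P e then (1 : ZMod 2) else 0) = 0 := by
  refine sum_eq_zero fun e he => ?_
  rw [if_neg]
  exact fun h2 => h e ⟨(mem_filter.1 he).2, h2⟩

/-- a function on faces which is constant along the arcs inside `X` is constant on `X` -/
theorem q_const {X : Set F} (hX : M.Conn X) (q : F → ZMod 2)
    (hq : ∀ x y, M.up x y → x ∈ X → y ∈ X → q x = q y) {x y : F} (hx : x ∈ X) (hy : y ∈ X) :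
    q x = q y := by
  have key : ∀ z, Relation.ReflTransGen (fun a b => M.adj a b ∧ b ∈ X) x z → z ∈ X ∧ q x = q z := by
    intro z hz
    induction hz with
    | refl => exact ⟨hx, rfl⟩
    | tail _ h3 ih =>
      refine ⟨h3.2, ?_⟩
      rcases h3.1 with h4 | h4
      · exact ih.2.trans (hq _ _ h4 ih.1 h3.2)
      · exact ih.2.trans (hq _ _ h4 h3.2 ih.1).symm
  exact (key y (hX x hx y hy)).2

end DiscNAux

open DiscNAux

/-- Around the boundary of an up-disc.  At `v ∈ bd X` there is exactly one entering dart `p v` (corner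
`p v ∈ X`, corner `σ⁻¹ (p v) ∉ X`; `enter_unique`), it is outgoing (`X` is up-closed);
`nx v = vt (τ (p v))` is again in `bd X` and `τ (p v)` is the leaving dart there, so `nx` is injective
on `bd X` (`leave_unique`).  It has one orbit: for an orbit `O` let `B'` be the indicator of the darts
`p v`, `τ (p v)`, `v ∈ O` (even at every vertex); by `dgrad`, `B' d = q (fc d) + q (fc (σ⁻¹ d))`; `q` is
constant on `X` and on `Xᶜ`, so `B' = 1` on all darts with `del X d`. -/
theorem disc_next (hG : Good M) {X : Set F} (h : M.UDisc X) :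
    ∃ (nx : V → V) (p : V → D),
      (∀ v ∈ M.bd X, M.vt (p v) = v ∧ M.out (p v) = true ∧ M.fc (p v) ∈ X ∧
        M.fc (M.σ⁻¹ (p v)) ∉ X ∧ nx v = M.vt (M.τ (p v)) ∧ nx v ∈ M.bd X) ∧
      (∀ d, M.del X d → M.vt d ∈ M.bd X ∧ (d = p (M.vt d) ∨ ∃ v ∈ M.bd X, d = M.τ (p v))) ∧
      (∀ v ∈ M.bd X, ∀ w ∈ M.bd X, nx v = nx w → v = w) ∧
      ∀ v ∈ M.bd X, ∀ w ∈ M.bd X, ∃ k : ℕ, nx^[k] v = w := by
  -- the entering dart
  let p : V → D := fun v =>
    if h : ∃ d, M.vt d = v ∧ M.fc d ∈ X ∧ M.fc (M.σ⁻¹ d) ∉ X then h.choose else (M.vsur v).choose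
  let nx : V → V := fun v => M.vt (M.τ (p v))
  have hp : ∀ v ∈ M.bd X, M.vt (p v) = v ∧ M.fc (p v) ∈ X ∧ M.fc (M.σ⁻¹ (p v)) ∉ X := by
    intro v hv
    have h1 := enter_ex hv
    have h2 : p v = h1.choose := dif_pos h1
    rw [h2]
    exact h1.choose_spec
  have hpo : ∀ v ∈ M.bd X, M.out (p v) = true := fun v hv =>
    out_of_enter h.up (hp v hv).2.1 (hp v hv).2.2
  have hnb : ∀ v ∈ M.bd X, nx v ∈ M.bd X := by
    intro v hv
    refine mem_bd (d := M.σ⁻¹ (M.τ (p v))) (e := M.τ (p v)) (M.vt_inv _) rfl ?_ ?_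
    · rw [M.fc_ti]
      exact (hp v hv).2.1
    · rw [M.fc_tau]
      exact (hp v hv).2.2
  have hinj : ∀ v ∈ M.bd X, ∀ w ∈ M.bd X, nx v = nx w → v = w := by
    intro v hv w hw hvw
    have h1 : M.τ (p v) = M.τ (p w) := by
      refine leave_unique h.disc.cn h.disc.cc hvw ?_ ?_ ?_ ?_
      · rw [M.fc_tau]; exact (hp v hv).2.2
      · rw [M.fc_ti]; exact (hp v hv).2.1
      · rw [M.fc_tau]; exact (hp w hw).2.2
      · rw [M.fc_ti]; exact (hp w hw).2.1
    have h2 := M.τ.injective h1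
    rw [← (hp v hv).1, ← (hp w hw).1, h2]
  refine ⟨nx, p, fun v hv => ⟨(hp v hv).1, hpo v hv, (hp v hv).2.1, (hp v hv).2.2, rfl, hnb v hv⟩,
    ?_, hinj, ?_⟩
  · intro d hd
    cases ho : M.out d
    · -- incoming dart
      have h1 : M.fc d ∉ X ∧ M.fc (M.σ⁻¹ d) ∈ X := by
        have h2 := h.up _ _ (M.up_in ho)
        by_cases h3 : M.fc d ∈ X
        · exact absurd (iff_of_true h3 (h2 h3)) hd
        · refine ⟨h3, ?_⟩
          by_contra h4
          exact hd (iff_of_false h3 h4)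
      have h5 : M.vt d ∈ M.bd X := mem_bd (M.vt_inv d) rfl h1.2 h1.1
      refine ⟨h5, Or.inr ⟨M.vt (M.τ d), ?_, ?_⟩⟩
      · refine mem_bd (d := M.τ d) (e := M.σ⁻¹ (M.τ d)) rfl (M.vt_inv _) ?_ ?_
        · rw [M.fc_tau]; exact h1.2
        · rw [M.fc_ti]; exact h1.1
      · have h6 : M.vt (M.τ d) ∈ M.bd X := by
          refine mem_bd (d := M.τ d) (e := M.σ⁻¹ (M.τ d)) rfl (M.vt_inv _) ?_ ?_
          · rw [M.fc_tau]; exact h1.2
          · rw [M.fc_ti]; exact h1.1
        have h7 : M.τ d = p (M.vt (M.τ d)) := by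
          refine enter_unique h.disc.cn h.disc.cc (hp _ h6).1.symm ?_ ?_ (hp _ h6).2.1 (hp _ h6).2.2
          · rw [M.fc_tau]; exact h1.2
          · rw [M.fc_ti]; exact h1.1
        rw [← h7, M.tt]
    · have h1 : M.fc d ∈ X ∧ M.fc (M.σ⁻¹ d) ∉ X := by
        have h2 := h.up _ _ (M.up_out ho)
        by_cases h3 : M.fc (M.σ⁻¹ d) ∈ X
        · exact absurd (iff_of_true (h2 h3) h3) hd
        · refine ⟨?_, h3⟩
          by_contra h4
          exact hd (iff_of_false h4 h3)
      have h5 : M.vt d ∈ M.bd X := mem_bd rfl (M.vt_inv d) h1.1 h1.2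
      refine ⟨h5, Or.inl ?_⟩
      exact enter_unique h.disc.cn h.disc.cc (hp _ h5).1.symm h1.1 h1.2 (hp _ h5).2.1 (hp _ h5).2.2
  · intro v hv w hw
    let O : Finset V := univ.filter (fun u => ∃ k : ℕ, nx^[k] v = u)
    have hOb : ∀ u ∈ O, u ∈ M.bd X := by
      intro u hu
      obtain ⟨k, rfl⟩ := (mem_filter.1 hu).2
      clear hu
      induction k with
      | zero => exact hv
      | succ k ih =>
        rw [Function.iterate_succ_apply']
        exact hnb _ ih
    have hOn : ∀ u ∈ O, nx u ∈ O := by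
      intro u hu
      obtain ⟨k, rfl⟩ := (mem_filter.1 hu).2
      refine mem_filter.2 ⟨mem_univ _, k + 1, ?_⟩
      rw [Function.iterate_succ_apply']
    have hOs : ∀ x ∈ O, ∃ u ∈ O, nx u = x := by
      have h1 : Set.SurjOn nx (O : Set V) (O : Set V) := by
        refine Finset.surjOn_of_injOn_of_card_le nx (fun u hu => hOn u hu) ?_ le_rfl
        intro a ha b hb hab
        exact hinj a (hOb a ha) b (hOb b hb) hab
      intro x hx
      obtain ⟨u, hu, hux⟩ := h1 hx
      exact ⟨u, hu, hux⟩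
    have hvO : v ∈ O := mem_filter.2 ⟨mem_univ _, 0, rfl⟩
    let B1 : D → ZMod 2 := fun e => if ∃ u ∈ O, e = p u then 1 else 0
    let B2 : D → ZMod 2 := fun e => if ∃ u ∈ O, e = M.τ (p u) then 1 else 0
    have h12 : ∀ e, B1 (M.τ e) = B2 e := by
      intro e
      have h1 : (∃ u ∈ O, M.τ e = p u) ↔ ∃ u ∈ O, e = M.τ (p u) := by
        constructor
        · rintro ⟨u, hu, h2⟩
          exact ⟨u, hu, by rw [← h2, M.tt]⟩
        · rintro ⟨u, hu, h2⟩
          exact ⟨u, hu, by rw [h2, M.tt]⟩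
      simp only [B1, B2, h1]
    have h21 : ∀ e, B2 (M.τ e) = B1 e := by
      intro e
      rw [← h12, M.tt]
    have hs1 : ∀ x, ∑ e ∈ univ.filter (fun e => M.vt e = x), B1 e = if x ∈ O then 1 else 0 := by
      intro x
      split_ifs with hx
      · refine sum_one (fun e => M.vt e = x) (fun e => ∃ u ∈ O, e = p u) (p x) fun e => ?_
        constructor
        · rintro ⟨h1, u, hu, rfl⟩
          rw [(hp u (hOb u hu)).1] at h1
          rw [h1]
        · rintro rfl
          exact ⟨(hp x (hOb x hx)).1, x, hx, rfl⟩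
      · refine sum_zero (fun e => M.vt e = x) (fun e => ∃ u ∈ O, e = p u) fun e => ?_
        rintro ⟨h1, u, hu, rfl⟩
        rw [(hp u (hOb u hu)).1] at h1
        exact hx (h1 ▸ hu)
    have hs2 : ∀ x, ∑ e ∈ univ.filter (fun e => M.vt e = x), B2 e = if x ∈ O then 1 else 0 := by
      intro x
      split_ifs with hx
      · obtain ⟨u0, hu0, hux⟩ := hOs x hx
        refine sum_one (fun e => M.vt e = x) (fun e => ∃ u ∈ O, e = M.τ (p u)) (M.τ (p u0))
          fun e => ?_
        constructor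
        · rintro ⟨h1, u, hu, rfl⟩
          rw [hinj u (hOb u hu) u0 (hOb u0 hu0) (h1.trans hux.symm)]
        · rintro rfl
          exact ⟨hux, u0, hu0, rfl⟩
      · refine sum_zero (fun e => M.vt e = x) (fun e => ∃ u ∈ O, e = M.τ (p u)) fun e => ?_
        rintro ⟨h1, u, hu, rfl⟩
        exact hx (h1 ▸ hOn u hu)
    obtain ⟨q, hq⟩ := dgrad M (fun e => B1 e + B2 e) (fun e => by
      rw [h12, h21, add_comm]) (fun d => by
      rw [sum_add_distrib, hs1, hs2]
      split_ifs
      · decide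
      · decide)
    -- the darts with `B ≠ 0` are boundary darts
    have hz : ∀ d, (M.fc d ∈ X ↔ M.fc (M.σ⁻¹ d) ∈ X) → B1 d + B2 d = 0 := by
      intro d hd
      have h1 : B1 d = 0 := by
        refine if_neg ?_
        rintro ⟨u, hu, rfl⟩
        have h2 := hp u (hOb u hu)
        exact h2.2.2 (hd.1 h2.2.1)
      have h2 : B2 d = 0 := by
        refine if_neg ?_
        rintro ⟨u, hu, rfl⟩
        have h2 := hp u (hOb u hu)
        rw [M.fc_tau, M.fc_ti] at hd
        exact h2.2.2 (hd.2 h2.2.1)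
      rw [h1, h2, add_zero]
    have heq : ∀ a b : ZMod 2, 0 = a + b → b = a := by decide
    have hq1 : ∀ x y, M.up x y → x ∈ X → y ∈ X → q x = q y := by
      rintro x y ⟨d, -, rfl, rfl⟩ hx hy
      have h1 := hq d
      rw [hz d (iff_of_true hy hx)] at h1
      exact heq _ _ h1
    have hq2 : ∀ x y, M.up x y → x ∈ Xᶜ → y ∈ Xᶜ → q x = q y := by
      rintro x y ⟨d, -, rfl, rfl⟩ hx hy
      have h1 := hq d
      rw [hz d (iff_of_false hy hx)] at h1
      exact heq _ _ h1
    have hpv : ∀ u ∈ M.bd X, B2 (p u) = 0 := by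
      intro u hu
      refine if_neg ?_
      rintro ⟨u', hu', h1⟩
      have h2 := hpo u hu
      rw [h1, M.ot, hpo u' (hOb u' hu')] at h2
      exact absurd h2 (by decide)
    have h3 : B1 (p v) = B1 (p w) := by
      have h4 := hq (p v)
      have h5 := hq (p w)
      rw [hpv v hv, add_zero] at h4
      rw [hpv w hw, add_zero] at h5
      rw [h4, h5, q_const h.disc.cn q hq1 (hp v hv).2.1 (hp w hw).2.1,
        q_const h.disc.cc q hq2 (hp v hv).2.2 (hp w hw).2.2]
    have h4 : B1 (p v) = 1 := if_pos ⟨v, hvO, rfl⟩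
    have h5 : ∃ u ∈ O, p w = p u := by
      by_contra hcon
      have h6 : B1 (p w) = 0 := if_neg hcon
      rw [h4, h6] at h3
      exact absurd h3 (by decide)
    obtain ⟨u, hu, h6⟩ := h5
    have h7 : w = u := by
      rw [← (hp w hw).1, ← (hp u (hOb u hu)).1, h6]
    rw [h7]
    exact (mem_filter.1 hu).2

end Pool.Agent.Lib.PLQ
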