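import Mathlib
import Pool.Agent.Lib.PLQ.Basic

set_option autoImplicit false
set_option linter.unusedSectionVars false
set_option linter.unusedVariables false

/-! Module SymA: the reversed map `M.rev` (all arcs reversed). -/

namespace Pool.Agent.Lib.PLQ

open Finset Pool.Agent.Lib.NK
open scoped Classical

variable {V D F : Type} [Fintype V] [Fintype D] [Fintype F] (M : PM V D F)

namespace PM

theorem rev_up {x y : F} : M.rev.up x y ↔ M.up y x := by
  constructor
  · rintro ⟨d, hd, hx, hy⟩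
    have hd' : M.out d = false := by
      have h1 : (!M.out d) = true := hd
      simpa using h1
    have h2 := M.up_in hd'
    have hx' : M.fc (M.σ⁻¹ d) = x := hx
    have hy' : M.fc d = y := hy
    rwa [hx', hy'] at h2
  · rintro ⟨d, hd, hx, hy⟩
    refine ⟨M.τ d, ?_, ?_, ?_⟩
    · change (!M.out (M.τ d)) = true
      rw [M.ot, hd]
      rfl
    · change M.fc (M.σ⁻¹ (M.τ d)) = x
      rw [M.fc_ti, hy]
    · change M.fc (M.τ d) = y
      rw [M.fc_tau, hx]

theorem rev_le {x y : F} : M.rev.le x y ↔ M.le y x := by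
  have h : M.rev.up = Function.swap M.up := by
    funext a b
    exact propext M.rev_up
  unfold PM.le
  rw [h]
  exact Relation.reflTransGen_swap

theorem rev_adj {x y : F} : M.rev.adj x y ↔ M.adj x y := by
  unfold PM.adj
  rw [M.rev_up, M.rev_up]
  exact Or.comm

theorem rev_conn {X : Set F} : M.rev.Conn X ↔ M.Conn X := by
  have h : M.rev.adj = M.adj := by
    funext a b
    exact propext M.rev_adj
  unfold PM.Conn
  rw [h]

theorem rev_upc {X : Set F} : M.rev.UpC X ↔ M.DnC X := by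
  constructor
  · intro h x y hxy hy
    exact h y x (M.rev_up.mpr hxy) hy
  · intro h x y hxy hx
    exact h y x (M.rev_up.mp hxy) hx

theorem rev_dnc {X : Set F} : M.rev.DnC X ↔ M.UpC X := by
  constructor
  · intro h x y hxy hx
    exact h y x (M.rev_up.mpr hxy) hx
  · intro h x y hxy hy
    exact h y x (M.rev_up.mp hxy) hy

theorem rev_disc {X : Set F} : M.rev.Disc X ↔ M.Disc X :=
  ⟨fun h => ⟨h.ne, h.cne, M.rev_conn.mp h.cn, M.rev_conn.mp h.cc⟩,
    fun h => ⟨h.ne, h.cne, M.rev_conn.mpr h.cn, M.rev_conn.mpr h.cc⟩⟩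

theorem rev_ud {X : Set F} : M.rev.UDisc X ↔ M.DDisc X :=
  ⟨fun h => ⟨M.rev_disc.mp h.disc, M.rev_upc.mp h.up⟩,
    fun h => ⟨M.rev_disc.mpr h.disc, M.rev_upc.mpr h.dn⟩⟩

theorem rev_dd {X : Set F} : M.rev.DDisc X ↔ M.UDisc X :=
  ⟨fun h => ⟨M.rev_disc.mp h.disc, M.rev_dnc.mp h.dn⟩,
    fun h => ⟨M.rev_disc.mpr h.disc, M.rev_dnc.mpr h.up⟩⟩

theorem rev_bd {X : Set F} : M.rev.bd X = M.bd X := rfl

theorem rev_R {a b : V} : M.rev.R a b ↔ M.R b a := by
  constructor
  · rintro ⟨d, hd, ha, hb⟩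
    refine ⟨M.τ d, ?_, hb, ?_⟩
    · have h1 : (!M.out d) = true := hd
      rw [M.ot, h1]
    · rw [M.tt]
      exact ha
  · rintro ⟨d, hd, ha, hb⟩
    refine ⟨M.τ d, ?_, hb, ?_⟩
    · change (!M.out (M.τ d)) = true
      rw [M.ot, hd]
      rfl
    · change M.vt (M.τ (M.τ d)) = b
      rw [M.tt]
      exact ha

theorem rev_lmin {d : D} : M.rev.lmin d ↔ M.lmax d := by
  simp [PM.lmin, PM.lmax, PM.rev]

theorem rev_lmax {d : D} : M.rev.lmax d ↔ M.lmin d := by
  simp [PM.lmin, PM.lmax, PM.rev]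

/-- the next local maximum after a local minimum -/
private theorem next_max {d : D} (h : M.lmin d) : ∃ j : ℕ, M.lmax ((M.σ ^ j) d) ∧
    ∀ i, 0 < i → i ≤ j → M.out ((M.σ ^ i) d) = true := by
  have hex : ∃ j : ℕ, M.out ((M.σ ^ (j + 1)) d) = false := by
    refine ⟨orderOf M.σ - 1, ?_⟩
    have h1 : orderOf M.σ - 1 + 1 = orderOf M.σ := Nat.sub_add_cancel (orderOf_pos M.σ)
    rw [h1, pow_orderOf_eq_one]
    exact h.1
  have hlt : ∀ i, i < Nat.find hex → M.out ((M.σ ^ (i + 1)) d) = true := by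
    intro i hi
    have := Nat.find_min hex hi
    simpa using this
  have hpos : 0 < Nat.find hex := by
    rcases Nat.eq_zero_or_pos (Nat.find hex) with h0 | h0
    · have h1 := Nat.find_spec hex
      rw [h0, zero_add, pow_one, h.2] at h1
      exact absurd h1 (by decide)
    · exact h0
  refine ⟨Nat.find hex, ⟨?_, ?_⟩, ?_⟩
  · have h1 := hlt (Nat.find hex - 1) (by omega)
    rwa [Nat.sub_add_cancel hpos] at h1
  · rw [← Equiv.Perm.mul_apply, ← pow_succ']
    exact Nat.find_spec hex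
  · intro i hi hi'
    have h1 := hlt (i - 1) (by omega)
    rwa [Nat.sub_add_cancel hi] at h1

private theorem next_inj {d e : D} (hd : M.lmin d) {j i : ℕ} (hji : j ≤ i)
    (hi : ∀ a, 0 < a → a ≤ i → M.out ((M.σ ^ a) e) = true)
    (h : (M.σ ^ j) d = (M.σ ^ i) e) : d = e := by
  obtain ⟨a, rfl⟩ : ∃ a, i = j + a := ⟨i - j, by omega⟩
  rw [pow_add, Equiv.Perm.mul_apply] at h
  have h1 : d = (M.σ ^ a) e := (M.σ ^ j).injective h
  rcases Nat.eq_zero_or_pos a with h0 | h0
  · rw [h0, pow_zero] at h1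
    exact h1
  · have h2 := hi a h0 (by omega)
    rw [← h1, hd.1] at h2
    exact absurd h2 (by decide)

private theorem sad_imp {v : V} (h : M.Sad v) : M.rev.Sad v := by
  obtain ⟨d, e, hne, hd, he, hd', he'⟩ := h
  obtain ⟨j, hj, hj'⟩ := M.next_max hd'
  obtain ⟨i, hi, hi'⟩ := M.next_max he'
  refine ⟨(M.σ ^ j) d, (M.σ ^ i) e, ?_, ?_, ?_, M.rev_lmin.mpr hj, M.rev_lmin.mpr hi⟩
  · intro h1
    rcases le_total j i with h2 | h2
    · exact hne (M.next_inj hd' h2 hi' h1)
    · exact hne (M.next_inj he' h2 hj' h1.symm).symm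
  · change M.vt ((M.σ ^ j) d) = v
    rw [M.vt_pow, hd]
  · change M.vt ((M.σ ^ i) e) = v
    rw [M.vt_pow, he]

/-- the numbers of local minima and maxima around a vertex are equal -/
theorem rev_sad {v : V} : M.rev.Sad v ↔ M.Sad v := by
  constructor
  · intro h
    obtain ⟨d, e, hne, hd, he, hd', he'⟩ := M.rev.sad_imp h
    exact ⟨d, e, hne, hd, he, M.rev_lmax.mp (M.rev.rev_lmin.mp hd'),
      M.rev_lmax.mp (M.rev.rev_lmin.mp he')⟩
  · exact M.sad_imp

theorem rev_alt {d : D} : AltDigon M.rev d ↔ AltDigon M d := by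
  simp [AltDigon, PM.rev]

end PM

/-- reversing a relation keeps `Sep2` -/
theorem Sep2.rv {R R' : V → V → Prop} (h : Sep2 R) (hR : ∀ a b, R' a b ↔ R b a) : Sep2 R' := by
  have e : R' = Rv R := by
    funext a b
    exact propext (hR a b)
  subst e
  obtain ⟨g, h', A, B, h1, h2, h3, h4, h5, h6, h7, h8, h9, h10, h11, h12⟩ := h
  exact ⟨g, h', A, B, h1, h2, h3, h4, h5, h6, h7, h8, h9,
    fun a ha b hb => ⟨(h10 a ha b hb).2, (h10 a ha b hb).1⟩, h11.rv, h12.rv⟩

variable {M}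

theorem Good.rev (hG : Good M) : Good M.rev := by
  have e : M.rev.R = Rv M.R := by
    funext a b
    exact propext M.rev_R
  refine ⟨hG.nl, ?_, ?_, ?_⟩
  · intro d f hd hf h1 h2
    have hd' : (!M.out d) = true := hd
    have hf' : (!M.out f) = true := hf
    have h3 := hG.np (M.τ d) (M.τ f) (by rw [M.ot, hd']) (by rw [M.ot, hf']) h2
      (by rw [M.tt, M.tt]; exact h1)
    exact M.τ.injective h3
  · rw [e]
    exact ⟨hG.ts.1, fun z hz a ha b hb => (hG.ts.2 z hz b hb a ha).rv⟩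
  · rw [e]
    intro h
    exact hG.nr h.rv

end Pool.Agent.Lib.PLQ
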