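import Mathlib
import Pool.Agent.Lib.PLQ.DiscN
import Pool.Agent.Lib.PLQ.SymA

set_option autoImplicit false
set_option linter.unusedSectionVars false
set_option linter.unusedVariables false

/-! Module DiscA: the boundary of a disc is a dicycle.  `disc_circ` for `UDisc`: follow `nx` of `disc_next`
from `x` to `y` and from `y` to `x` (or use `circ_list`); for `DDisc` pass to the complement. -/

namespace Pool.Agent.Lib.PLQ

open Finset Pool.Agent.Lib.NK
open scoped Classical

variable {V D F : Type} [Fintype V] [Fintype D] [Fintype F] {M : PM V D F}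

theorem bd_compl (X : Set F) : M.bd Xᶜ = M.bd X := by
  unfold PM.bd
  rw [compl_compl]
  exact filter_congr fun v _ => and_comm

theorem DDisc.compl {X : Set F} (h : M.DDisc X) : M.UDisc Xᶜ where
  disc := ⟨h.disc.cne, by rw [compl_compl]; exact h.disc.ne, h.disc.cc,
    by rw [compl_compl]; exact h.disc.cn⟩
  up := fun x y hxy hx hy => hx (h.dn x y hxy hy)

theorem UDisc.compl {X : Set F} (h : M.UDisc X) : M.DDisc Xᶜ where
  disc := ⟨h.disc.cne, by rw [compl_compl]; exact h.disc.ne, h.disc.cc,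
    by rw [compl_compl]; exact h.disc.cn⟩
  dn := fun x y hxy hy hx => hy (h.up x y hxy hx)

namespace DiscAAux

/-- following a function with one orbit on `S` -/
theorem circ_of_next {R : V → V → Prop} {S : Finset V} {nx : V → V} (hS : ∀ v ∈ S, nx v ∈ S)
    (hR : ∀ v ∈ S, R v (nx v)) (hi : ∀ v ∈ S, ∀ w ∈ S, nx v = nx w → v = w)
    (ho : ∀ v ∈ S, ∀ w ∈ S, ∃ k : ℕ, nx^[k] v = w) : Circ R S := by
  have hmem : ∀ v ∈ S, ∀ k : ℕ, nx^[k] v ∈ S := by
    intro v hv k
    induction k with
    | zero => exact hv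
    | succ k ih => rw [Function.iterate_succ_apply']; exact hS _ ih
  have hcan : ∀ k : ℕ, ∀ v ∈ S, ∀ w ∈ S, nx^[k] v = nx^[k] w → v = w := by
    intro k
    induction k with
    | zero => exact fun v _ w _ h => h
    | succ k ih =>
      intro v hv w hw h
      rw [Function.iterate_succ_apply', Function.iterate_succ_apply'] at h
      exact ih v hv w hw (hi _ (hmem v hv k) _ (hmem w hw k) h)
  have hrc : ∀ v ∈ S, ∀ k : ℕ, Rc R ((range (k + 1)).image fun i => nx^[i] v) v (nx^[k] v) := by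
    intro v hv k
    induction k with
    | zero => exact Rc.rfl' (mem_image.2 ⟨0, by simp, rfl⟩)
    | succ k ih =>
      have h1 : ((range (k + 1)).image fun i => nx^[i] v) ⊆
          ((range (k + 1 + 1)).image fun i => nx^[i] v) :=
        image_subset_image (range_subset_range.2 (Nat.le_succ _))
      refine (ih.mono h1).tail ?_ (mem_image.2 ⟨k + 1, by simp, rfl⟩)
      rw [Function.iterate_succ_apply']
      exact hR _ (hmem v hv k)
  intro x hx y hy hxy
  let k := Nat.find (ho x hx y hy)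
  let l := Nat.find (ho y hy x hx)
  have hk : nx^[k] x = y := Nat.find_spec (ho x hx y hy)
  have hl : nx^[l] y = x := Nat.find_spec (ho y hy x hx)
  have hkm : ∀ i, nx^[i] x = y → k ≤ i := fun i hi' => Nat.find_min' (ho x hx y hy) hi'
  have hlm : ∀ i, nx^[i] y = x → l ≤ i := fun i hi' => Nat.find_min' (ho y hy x hx) hi'
  have h1 := hrc x hx k
  have h2 := hrc y hy l
  rw [hk] at h1
  rw [hl] at h2
  refine ⟨hxy, _, _, h1, h2, ?_, ?_, ?_⟩
  · intro z hz hz'
    obtain ⟨i, hi1, rfl⟩ := mem_image.1 hz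
    obtain ⟨j, hj1, hj⟩ := mem_image.1 hz'
    have hi2 : i ≤ k := by have := mem_range.1 hi1; omega
    have hj2 : j ≤ l := by have := mem_range.1 hj1; omega
    rcases Nat.le_total i j with hij | hij
    · have h3 : nx^[i] (nx^[j - i] y) = nx^[i] x := by
        rw [← Function.iterate_add_apply, Nat.add_sub_cancel' hij]
        exact hj
      have h4 := hcan i _ (hmem y hy _) _ hx h3
      have h5 := hlm _ h4
      have h6 : i = 0 := by omega
      left
      rw [h6]
      rfl
    · have h3 : nx^[j] (nx^[i - j] x) = nx^[j] y := by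
        rw [← Function.iterate_add_apply, Nat.add_sub_cancel' hij]
        exact hj.symm
      have h4 := hcan j _ (hmem x hx _) _ hy h3
      have h5 := hkm _ h4
      have h6 : i = k := by omega
      right
      rw [h6]
      exact hk
  · intro z hz
    obtain ⟨i, -, rfl⟩ := mem_image.1 hz
    exact hmem x hx i
  · intro z hz
    obtain ⟨i, -, rfl⟩ := mem_image.1 hz
    exact hmem y hy i

theorem ud_circ (hG : Good M) {X : Set F} (h : M.UDisc X) : Circ M.R (M.bd X) := by
  obtain ⟨nx, p, h1, -, h3, h4⟩ := disc_next hG h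
  refine circ_of_next (fun v hv => (h1 v hv).2.2.2.2.2) (fun v hv => ?_) h3 h4
  obtain ⟨e1, e2, -, -, e5, -⟩ := h1 v hv
  exact ⟨p v, e2, e1, e5.symm⟩

end DiscAAux

open DiscAAux

theorem disc_circ (hG : Good M) {X : Set F} (h : M.UDisc X ∨ M.DDisc X) :
    Circ M.R (M.bd X) := by
  rcases h with h | h
  · exact ud_circ hG h
  · rw [← bd_compl]
    exact ud_circ hG (DDisc.compl h)

theorem bd_disc (hG : Good M) {X : Set F} (h : M.Disc X) : (M.bd X).Nonempty := by
  obtain ⟨x, hx⟩ := h.ne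
  obtain ⟨y, hy⟩ := h.cne
  have h1 := conn_univ hG x (Set.mem_univ x) y (Set.mem_univ y)
  by_contra hcon
  have hstep : ∀ a b, M.adj a b → a ∈ X → b ∈ X := by
    intro a b hab ha
    by_contra hb
    apply hcon
    rcases hab with ⟨d, -, h2, h3⟩ | ⟨d, -, h2, h3⟩
    · refine ⟨M.vt d, mem_filter.2 ⟨mem_univ _, ⟨M.σ⁻¹ d, M.vt_inv d, ?_⟩, ⟨d, rfl, ?_⟩⟩⟩
      · rw [h2]; exact ha
      · rw [h3]; exact hb
    · refine ⟨M.vt d, mem_filter.2 ⟨mem_univ _, ⟨d, rfl, ?_⟩, ⟨M.σ⁻¹ d, M.vt_inv d, ?_⟩⟩⟩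
      · rw [h3]; exact ha
      · rw [h2]; exact hb
  have key : ∀ z, Relation.ReflTransGen (fun a b => M.adj a b ∧ b ∈ (Set.univ : Set F)) x z →
      z ∈ X := by
    intro z hz
    induction hz with
    | refl => exact hx
    | tail _ h3 ih => exact hstep _ _ h3.1 ih
  exact hy (key y h1)

theorem bd_two (hG : Good M) {X : Set F} (h : M.UDisc X ∨ M.DDisc X) (v : V) :
    ∃ w ∈ M.bd X, w ≠ v := by
  have key : ∀ Y : Set F, M.UDisc Y → ∃ w ∈ M.bd Y, w ≠ v := by
    intro Y hY
    obtain ⟨nx, p, h1, -, -, -⟩ := disc_next hG hY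
    by_cases hv : v ∈ M.bd Y
    · obtain ⟨e1, -, -, -, e5, e6⟩ := h1 v hv
      refine ⟨nx v, e6, ?_⟩
      rw [e5]
      have h2 := hG.nl (p v)
      rwa [e1] at h2
    · obtain ⟨w, hw⟩ := bd_disc hG hY.disc
      exact ⟨w, hw, fun h2 => hv (h2 ▸ hw)⟩
  rcases h with h | h
  · exact key X h
  · rw [← bd_compl]
    exact key Xᶜ (DDisc.compl h)

end Pool.Agent.Lib.PLQ
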