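import Mathlib
import Pool.Agent.Lib.PLQ.OrdC

set_option autoImplicit false
set_option linter.unusedSectionVars false
set_option linter.unusedVariables false

/-! Module OrdD: local form of the order around a vertex. -/

namespace Pool.Agent.Lib.PLQ

open Finset Pool.Agent.Lib.NK
open scoped Classical

variable {V D F : Type} [Fintype V] [Fintype D] [Fintype F] {M : PM V D F}

namespace OrdDAux

theorem lift (hG : Good M) {d e : D} (hv : M.vt d = M.vt e) {x : F}
    (h1 : M.le (M.fc d) x) (h2 : M.le x (M.fc e)) :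
    ∃ m, M.vt m = M.vt d ∧ M.fc m = x ∧ Relation.ReflTransGen M.lup d m := by
  unfold PM.le at h1
  induction h1 with
  | refl => exact ⟨d, rfl, rfl, Relation.ReflTransGen.refl⟩
  | tail hy hyz ih =>
    obtain ⟨m, hm1, hm2, hm3⟩ := ih (Relation.ReflTransGen.head hyz h2)
    obtain ⟨a, ha, ha1, ha2⟩ := hyz
    rcases fcp hG hv ha (by rw [ha1]; exact hy) (by rw [ha2]; exact h2) with h | h
    · have h3 : m = M.σ⁻¹ a := cu hG (by rw [hm2, ha1]) (by rw [hm1, M.vt_inv, h])
      refine ⟨a, h, ha2, hm3.tail (Or.inl ?_)⟩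
      rw [h3, perm_ai]
      exact ⟨rfl, ha⟩
    · have h3 : m = M.τ a := cu hG (by rw [hm2, M.fc_tau, ha1]) (by rw [hm1, h])
      refine ⟨M.σ⁻¹ (M.τ a), by rw [M.vt_inv, h], by rw [M.fc_ti, ha2], hm3.tail (Or.inr ?_)⟩
      rw [h3, perm_ai, M.ot, ha]
      exact ⟨rfl, rfl⟩

end OrdDAux

/-- a face between two faces at a vertex `v` is at `v`, and on a monotone local path -/
theorem mid (hG : Good M) {d e : D} (hv : M.vt d = M.vt e) {x : F}
    (h1 : M.le (M.fc d) x) (h2 : M.le x (M.fc e)) :
    ∃ m, M.vt m = M.vt d ∧ M.fc m = x ∧ Relation.ReflTransGen M.lup d m ∧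
      Relation.ReflTransGen M.lup m e := by
  obtain ⟨m, hm1, hm2, hm3⟩ := OrdDAux.lift hG hv h1 h2
  obtain ⟨n, hn1, hn2, hn3⟩ := OrdDAux.lift hG (d := m) (e := e) (by rw [hm1, hv])
    (x := M.fc e) (by rw [hm2]; exact h2) Relation.ReflTransGen.refl
  have h3 : n = e := cu hG hn2 (by rw [hn1, hm1, hv])
  rw [h3] at hn3
  exact ⟨m, hm1, hm2, hm3, hn3⟩

theorem loc (hG : Good M) {d e : D} (hv : M.vt d = M.vt e) (h : M.le (M.fc d) (M.fc e)) :
    Relation.ReflTransGen M.lup d e := by
  obtain ⟨m, hm1, hm2, hm3, hm4⟩ := mid hG hv (x := M.fc d) Relation.ReflTransGen.refl h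
  have h3 : m = d := cu hG hm2 hm1
  rw [h3] at hm4
  exact hm4

/-- a local path does not turn back -/
theorem lup_iter {d e : D} (h : Relation.ReflTransGen M.lup d e) :
    (∃ k : ℕ, e = (M.σ ^ k) d ∧ ∀ i, 0 < i → i ≤ k → M.out ((M.σ ^ i) d) = true) ∨
    (∃ k : ℕ, d = (M.σ ^ k) e ∧ ∀ i, 0 < i → i ≤ k → M.out ((M.σ ^ i) e) = false) := by
  induction h with
  | refl => exact Or.inl ⟨0, rfl, fun i h1 h2 => absurd h1 (by omega)⟩
  | @tail b c _ hbc ih =>
    rcases ih with ⟨k, hk, hk'⟩ | ⟨k, hk, hk'⟩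
    · rcases hbc with ⟨h1, h2⟩ | ⟨h1, h2⟩
      · left
        refine ⟨k + 1, by rw [h1, hk, pow_succ', Equiv.Perm.mul_apply], ?_⟩
        intro i hi hik
        rcases Nat.lt_or_ge k i with h3 | h3
        · have h4 : i = k + 1 := by omega
          rw [h4, pow_succ', Equiv.Perm.mul_apply, ← hk]
          exact h2
        · exact hk' i hi h3
      · rcases Nat.eq_zero_or_pos k with h3 | h3
        · right
          rw [h3, pow_zero, Equiv.Perm.one_apply] at hk
          refine ⟨1, by rw [pow_one, ← h1, hk], ?_⟩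
          intro i hi hi1
          have h4 : i = 1 := by omega
          rw [h4, pow_one]
          exact h2
        · have h4 := hk' k h3 le_rfl
          rw [← hk, h1, h2] at h4
          exact absurd h4 (by simp)
    · rcases hbc with ⟨h1, h2⟩ | ⟨h1, h2⟩
      · rcases Nat.eq_zero_or_pos k with h3 | h3
        · left
          rw [h3, pow_zero, Equiv.Perm.one_apply] at hk
          refine ⟨1, by rw [pow_one, hk, h1], ?_⟩
          intro i hi hi1
          have h4 : i = 1 := by omega
          rw [h4, pow_one, hk]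
          exact h2
        · have h4 := hk' 1 one_pos h3
          rw [pow_one, h2] at h4
          exact absurd h4 (by simp)
      · right
        refine ⟨k + 1, by rw [hk, h1, pow_succ, Equiv.Perm.mul_apply], ?_⟩
        intro i hi hik
        obtain ⟨j, rfl⟩ : ∃ j, i = j + 1 := ⟨i - 1, by omega⟩
        rw [pow_succ, Equiv.Perm.mul_apply]
        rcases Nat.eq_zero_or_pos j with h3 | h3
        · rw [h3, pow_zero, Equiv.Perm.one_apply]
          exact h2
        · rw [← h1]
          exact hk' j h3 (by omega)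

end Pool.Agent.Lib.PLQ
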