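import Mathlib
import Pool.Agent.Lib.PLQ.SymA
import Pool.Agent.Lib.PLQ.OrdC

set_option autoImplicit false
set_option linter.unusedSectionVars false
set_option linter.unusedVariables false

/-! Module Piece: the pieces of a face `b` (definitions `Phi`, `UP`, `DP` in Defs).  `Phi b` is the
component of `b` outside the strict up-set of `b`; the up-pieces are the components of its complement. -/

namespace Pool.Agent.Lib.PLQ

open Finset Pool.Agent.Lib.NK
open scoped Classical

variable {V D F : Type} [Fintype V] [Fintype D] [Fintype F] {M : PM V D F}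

namespace PieceAux

/-- paths in `X` can be reversed -/
theorem revp {X : Set F} {a c : F} (ha : a ∈ X)
    (h : Relation.ReflTransGen (fun x z => M.adj x z ∧ z ∈ X) a c) :
    c ∈ X ∧ Relation.ReflTransGen (fun x z => M.adj x z ∧ z ∈ X) c a := by
  induction h with
  | refl => exact ⟨ha, Relation.ReflTransGen.refl⟩
  | tail h1 h2 ih =>
    obtain ⟨ih1, ih2⟩ := ih
    exact ⟨h2.2, Relation.ReflTransGen.head ⟨M.adj_symm h2.1, ih1⟩ ih2⟩

/-- the component of `b` for the relation `adj ∧ P` is connected -/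
theorem compc {P : F → Prop} {a c : F}
    (h : Relation.ReflTransGen (fun x z => M.adj x z ∧ P z) a c) :
    Relation.ReflTransGen (fun x z => M.adj x z ∧
      z ∈ {w | Relation.ReflTransGen (fun x z => M.adj x z ∧ P z) a w}) a c := by
  induction h with
  | refl => exact Relation.ReflTransGen.refl
  | tail h1 h2 ih => exact ih.tail ⟨h2.1, h1.tail h2⟩

theorem connc (P : F → Prop) (a : F) :
    M.Conn {w | Relation.ReflTransGen (fun x z => M.adj x z ∧ P z) a w} := by
  intro x hx y hy
  have h1 := compc hx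
  have h2 := compc hy
  have h3 := (revp (X := {w | Relation.ReflTransGen (fun x z => M.adj x z ∧ P z) a w})
    (show a ∈ {w | Relation.ReflTransGen (fun x z => M.adj x z ∧ P z) a w} from
      Relation.ReflTransGen.refl) h1).2
  exact h3.trans h2

theorem mono {X Y : Set F} (h : X ⊆ Y) {a c : F}
    (h' : Relation.ReflTransGen (fun x z => M.adj x z ∧ z ∈ X) a c) :
    Relation.ReflTransGen (fun x z => M.adj x z ∧ z ∈ Y) a c := by
  induction h' with
  | refl => exact Relation.ReflTransGen.refl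
  | tail _ h2 ih => exact ih.tail ⟨h2.1, h h2.2⟩

end PieceAux

open PieceAux

theorem b_phi (b : F) : b ∈ Phi M b := Relation.ReflTransGen.refl

theorem phi_conn (b : F) : M.Conn (Phi M b) :=
  connc (fun z => ¬ (M.le b z ∧ z ≠ b)) b

theorem phi_above {b y : F} (h : M.le b y) (hne : y ≠ b) : y ∉ Phi M b := by
  intro hy
  rcases Relation.ReflTransGen.cases_tail hy with h1 | ⟨c, _, h2⟩
  · exact hne h1
  · exact h2.2 ⟨h, hne⟩

theorem phi_below {b y : F} (h : M.le y b) (hne : y ≠ b) : y ∉ Phi M.rev b :=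
  phi_above (M.rev_le.mpr h) hne

theorem up_self (b y : F) : y ∈ UP M b y := Relation.ReflTransGen.refl

theorem up_conn {b y : F} (hy : y ∉ Phi M b) : M.Conn (UP M b y) :=
  connc (fun z => z ∉ Phi M b) y

theorem up_sub_phi {b y z : F} (hy : y ∉ Phi M b) (hz : z ∈ UP M b y) : z ∉ Phi M b := by
  rcases Relation.ReflTransGen.cases_tail hz with h1 | ⟨c, _, h2⟩
  · rw [h1]; exact hy
  · exact h2.2

/-- adjacent faces outside `Phi b` are in the same up-piece -/
theorem up_adj {b y x z : F} (hy : y ∉ Phi M b) (hx : x ∈ UP M b y) (h : M.adj x z)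
    (hz : z ∉ Phi M b) : z ∈ UP M b y :=
  Relation.ReflTransGen.tail hx ⟨h, hz⟩

theorem up_inner {b y x z : F} (hy : y ∉ Phi M b) (hx : x ∈ UP M b y) (hz : z ∉ UP M b y)
    (h : M.adj x z) : z ∈ Phi M b ∧ M.le b x ∧ x ≠ b := by
  have h1 : z ∈ Phi M b := by
    by_contra h1
    exact hz (up_adj hy hx h h1)
  refine ⟨h1, ?_⟩
  by_contra h2
  exact up_sub_phi hy hx (Relation.ReflTransGen.tail h1 ⟨M.adj_symm h, h2⟩)

theorem up_eq {b y z : F} (hy : y ∉ Phi M b) (hz : z ∈ UP M b y) : UP M b z = UP M b y := by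
  have h1 := (revp (X := (Phi M b)ᶜ) (show y ∈ (Phi M b)ᶜ from hy) hz).2
  ext w
  constructor
  · intro hw
    exact Relation.ReflTransGen.trans hz hw
  · intro hw
    exact Relation.ReflTransGen.trans h1 hw

theorem up_disj {b y z : F} (hy : y ∉ Phi M b) (hz : z ∉ Phi M b) (h : UP M b y ≠ UP M b z) :
    Disjoint (UP M b y) (UP M b z) := by
  rw [Set.disjoint_left]
  intro w h1 h2
  exact h ((up_eq hy h1).symm.trans (up_eq hz h2))

namespace PieceAux

theorem phic {b y : F} (hy : y ∉ Phi M b) : Phi M b ⊆ (UP M b y)ᶜ := by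
  intro w hw hw'
  exact up_sub_phi hy hw' hw

/-- every face outside `UP b y` is connected to `b` outside `UP b y` -/
theorem tob (hG : Good M) {b y x : F} (hy : y ∉ Phi M b) (hx : x ∉ UP M b y) :
    Relation.ReflTransGen (fun a c => M.adj a c ∧ c ∈ (UP M b y)ᶜ) x b := by
  by_cases hxp : x ∈ Phi M b
  · exact mono (phic hy) (phi_conn b x hxp b (b_phi b))
  · have hne : UP M b x ≠ UP M b y := by
      intro he
      apply hx
      rw [← he]
      exact up_self b x
    have hdis := up_disj hxp hy hne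
    have hsub : UP M b x ⊆ (UP M b y)ᶜ := by
      intro w hw hw'
      exact Set.disjoint_left.mp hdis hw hw'
    have key : ∀ w, Relation.ReflTransGen (fun a c => M.adj a c ∧ c ∈ (Set.univ : Set F)) x w →
        (∃ z, z ∈ Phi M b ∧
          Relation.ReflTransGen (fun a c => M.adj a c ∧ c ∈ (UP M b y)ᶜ) x z) ∨
        (w ∈ UP M b x ∧
          Relation.ReflTransGen (fun a c => M.adj a c ∧ c ∈ (UP M b y)ᶜ) x w) := by
      intro w hw
      induction hw with
      | refl => exact Or.inr ⟨up_self b x, Relation.ReflTransGen.refl⟩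
      | @tail c d h1 h2 ih =>
        rcases ih with ih | ⟨ih1, ih2⟩
        · exact Or.inl ih
        · by_cases hd : d ∈ Phi M b
          · exact Or.inl ⟨d, hd, ih2.tail ⟨h2.1, phic hy hd⟩⟩
          · have hd' := up_adj hxp ih1 h2.1 hd
            exact Or.inr ⟨hd', ih2.tail ⟨h2.1, hsub hd'⟩⟩
    rcases key b (conn_univ hG x (Set.mem_univ _) b (Set.mem_univ _)) with ⟨z, hz, hz'⟩ | ⟨h1, _⟩
    · exact hz'.trans (mono (phic hy) (phi_conn b z hz b (b_phi b)))
    · exact absurd (b_phi b) (up_sub_phi hxp h1)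

end PieceAux

/-- Complement connected: it is `Phi b` together with the other components, each adjacent to
`Phi b`.  Up-closed: if `x ∈ UP b y`, `up x z`, `z ∉ UP b y` then `z ∈ Phi b`, and `x` is strictly
above `b` (otherwise `x ∈ Phi b`), so `z` is strictly above `b`, contradiction. -/
theorem up_ud (hG : Good M) {b y : F} (hy : y ∉ Phi M b) : M.UDisc (UP M b y) := by
  refine ⟨⟨⟨y, up_self b y⟩, ⟨b, phic hy (b_phi b)⟩, up_conn hy, ?_⟩, ?_⟩
  · intro x hx z hz
    exact (tob hG hy hx).trans (revp hz (tob hG hy hz)).2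
  · intro x z hxz hx
    by_contra hz
    obtain ⟨h1, h2, h3⟩ := up_inner hy hx hz (Or.inl hxz)
    have h4 : M.le b z := h2.tail hxz
    by_cases h5 : z = b
    · subst h5
      exact h3 (le_antisymm' hG (M.up_le hxz) h2)
    · exact phi_above h4 h5 h1

theorem dp_dd (hG : Good M) {b y : F} (hy : y ∉ Phi M.rev b) : M.DDisc (DP M b y) :=
  M.rev_ud.mp (up_ud hG.rev hy)

theorem dp_inner {b y x z : F} (hy : y ∉ Phi M.rev b) (hx : x ∈ DP M b y) (hz : z ∉ DP M b y)
    (h : M.adj x z) : z ∈ Phi M.rev b ∧ M.le x b ∧ x ≠ b := by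
  obtain ⟨h1, h2, h3⟩ := up_inner hy hx hz (M.rev_adj.mpr h)
  exact ⟨h1, M.rev_le.mp h2, h3⟩

theorem dp_eq {b y z : F} (hy : y ∉ Phi M.rev b) (hz : z ∈ DP M b y) : DP M b z = DP M b y :=
  up_eq hy hz

theorem dp_adj {b y x z : F} (hy : y ∉ Phi M.rev b) (hx : x ∈ DP M b y) (h : M.adj x z)
    (hz : z ∉ Phi M.rev b) : z ∈ DP M b y :=
  up_adj hy hx (M.rev_adj.mpr h) hz

end Pool.Agent.Lib.PLQ
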