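import Mathlib
import Pool.Agent.Lib.PLQ.RunA

set_option autoImplicit false
set_option linter.unusedSectionVars false
set_option linter.unusedVariables false

/-! Module RunB: the flank lemma and the separation lemmas. -/

namespace Pool.Agent.Lib.PLQ

open Finset Pool.Agent.Lib.NK
open scoped Classical

variable {V D F : Type} [Fintype V] [Fintype D] [Fintype F] {M : PM V D F}

/-- The two corners `σ⁻¹ e` and `q` next to the run of `K` at `u` cannot lie in one connected set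
`C` if a connected set `K'` is at `u` and at another vertex `w` of `K` (`K, K', C` disjoint).
Proof: `κ` from `kap2` with `A = K`, `a = e`, `a'` a corner of `K` at `w`, `P = K'`.  The corners
`q, σ q, ..., σ⁻¹ e` are the corners at `u` outside `K`, so `κ e = κ q + 1`; by `mono` for `C`,
`κ e = κ (σ⁻¹ e) = κ q`. -/
theorem flank {K K' C : Set F} (hK : M.Conn K) (hKc : M.Conn Kᶜ) (hK' : M.Conn K')
    (hC : M.Conn C) (h1 : Disjoint K K') (h2 : Disjoint K C) (h3 : Disjoint K' C) {u w : V}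
    (huw : u ≠ w) (hw : M.At K w) (hu' : M.At K' u) (hw' : M.At K' w) {e q : D}
    (he : M.vt e = u) (hq : M.vt q = u) (he1 : M.fc e ∈ K) (he2 : M.fc (M.σ⁻¹ e) ∈ C)
    (hq1 : M.fc (M.σ⁻¹ q) ∈ K) (hq2 : M.fc q ∈ C) : False := by
  obtain ⟨x, hx, hxK⟩ := hw
  obtain ⟨y, hy, hyK⟩ := hu'
  obtain ⟨y', hy', hyK'⟩ := hw'
  have nKK' : ∀ z, z ∈ K → z ∉ K' := fun z h h' => Set.disjoint_left.mp h1 h h'
  have nKC : ∀ z, z ∈ K → z ∉ C := fun z h h' => Set.disjoint_left.mp h2 h h'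
  have nK'C : ∀ z, z ∈ K' → z ∉ C := fun z h h' => Set.disjoint_left.mp h3 h h'
  obtain ⟨κ, k1, k2, k3⟩ := kap2 hK hK' h1 he1 hxK hyK hyK' (he.trans hy.symm) (hx.trans hy'.symm)
  have hqe : ∃ k, (M.σ ^ k) q = e := ((M.vs q e).mp (hq.trans he.symm)).exists_nat_pow_eq
  obtain ⟨k, hk, hkm⟩ : ∃ k, (M.σ ^ k) q = e ∧ ∀ m, m < k → (M.σ ^ m) q ≠ e :=
    ⟨Nat.find hqe, Nat.find_spec hqe, fun m hm => Nat.find_min hqe hm⟩
  have hqne : ∀ i, 0 < i → i < k → (M.σ ^ i) q ≠ q := by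
    intro i hi hik h
    refine hkm (k - i) (by omega) ?_
    calc (M.σ ^ (k - i)) q = (M.σ ^ (k - i)) ((M.σ ^ i) q) := by rw [h]
      _ = (M.σ ^ k) q := by rw [← Equiv.Perm.mul_apply, ← pow_add, Nat.sub_add_cancel hik.le]
      _ = e := hk
  -- `y` is met before `e`
  have hyq : ∃ i, i < k ∧ (M.σ ^ i) q = y := by
    have hqy : ∃ n, (M.σ ^ n) q = y := ((M.vs q y).mp (hq.trans hy.symm)).exists_nat_pow_eq
    obtain ⟨n, hn, hnm⟩ : ∃ n, (M.σ ^ n) q = y ∧ ∀ m, m < n → (M.σ ^ m) q ≠ y :=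
      ⟨Nat.find hqy, Nat.find_spec hqy, fun m hm => Nat.find_min hqy hm⟩
    by_cases hnk : n < k
    · exact ⟨n, hnk, hn⟩
    exfalso
    push Not at hnk
    have hnq : ∀ i, 0 < i → i < n → (M.σ ^ i) q ≠ q := by
      intro i hi hik h
      refine hnm (n - i) (by omega) ?_
      calc (M.σ ^ (n - i)) q = (M.σ ^ (n - i)) ((M.σ ^ i) q) := by rw [h]
        _ = (M.σ ^ n) q := by rw [← Equiv.Perm.mul_apply, ← pow_add, Nat.sub_add_cancel hik.le]
        _ = y := hn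
    have hall : ∀ j, k + j ≤ n → M.fc ((M.σ ^ (k + j)) q) ∈ K := by
      intro j
      induction j with
      | zero => intro _; rw [add_zero, hk]; exact he1
      | succ j ih =>
        intro hj
        by_contra hcon
        have e1 := ih (by omega)
        have e2 : M.σ⁻¹ ((M.σ ^ (k + (j + 1))) q) = (M.σ ^ (k + j)) q := by
          rw [← add_assoc, pow_succ', Equiv.Perm.mul_apply, perm_ia]
        have e3 := leave_unique hK hKc (d := (M.σ ^ (k + (j + 1))) q) (e := q) (M.vt_pow _ _) hcon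
          (by rw [e2]; exact e1) (fun h => nKC _ h hq2) hq1
        rcases Nat.lt_or_ge (k + (j + 1)) n with h | h
        · exact hnq _ (by omega) h e3
        · have : k + (j + 1) = n := le_antisymm hj h
          rw [this, hn] at e3
          rw [e3] at hyK
          exact nK'C _ hyK hq2
    have := hall (n - k) (by omega)
    rw [Nat.add_sub_cancel' hnk, hn] at this
    exact nKK' _ this hyK
  have key := k3 q k hqne (fun h => nKC _ h.1 hq2) (fun h => nK'C _ h.1 hq2)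
    (by rw [hk]; exact fun h => nKC _ h.2 he2) (by rw [hk]; exact fun h => nKK' _ he1 h.1)
  have c1 : cnt M q k e = 0 := by
    rw [cnt, if_neg]
    rintro ⟨i, hi, h⟩
    exact hkm i hi h
  have c2 : ∀ z, M.vt z = w → cnt M q k z = 0 := by
    intro z hz
    rw [cnt, if_neg]
    rintro ⟨i, hi, h⟩
    apply huw
    rw [← hq, ← hz, ← h, M.vt_pow]
  have c3 : cnt M q k y = 1 := by
    rw [cnt, if_pos hyq]
  rw [hk, c1, c2 x hx, c3, c2 y' hy'] at key
  have m1 := mono hC k1 (fun d hd => k2 d (fun h => nKC _ h hd) (fun h => nK'C _ h hd)) hq2 he2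
  have m2 := k2 (M.σ⁻¹ e) (fun h => nKC _ h he2) (fun h => nK'C _ h he2)
  rw [perm_ai, ← m1, key] at m2
  simp only [zero_add, add_zero] at m2
  have : ∀ x : ZMod 2, x + 1 ≠ x := by decide
  exact this _ m2

namespace RunBAux

/-- the counting property of the colourings of `kap2` -/
def Kp (M : PM V D F) (A C : Set F) (κ : D → ZMod 2) (a a' c c' : D) : Prop :=
  ∀ d k, (∀ i, 0 < i → i < k → (M.σ ^ i) d ≠ d) → Fr M A d → Fr M C d →
    Fr M A ((M.σ ^ k) d) → Fr M C ((M.σ ^ k) d) →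
    κ ((M.σ ^ k) d) = κ d + (cnt M d k a + cnt M d k a' + cnt M d k c + cnt M d k c')

theorem cnt_vt {d x : D} {k : ℕ} (h : M.vt x ≠ M.vt d) : cnt M d k x = 0 := by
  rw [cnt, if_neg]
  rintro ⟨i, hi, h'⟩
  apply h
  rw [← h', M.vt_pow]

/-- `b` and `e` are separated by `a` and `c` at their vertex -/
theorem sep_step {A C : Set F} {κ : D → ZMod 2} {a a' c c' b e : D} (h : Kp M A C κ a a' c c')
    (ha' : M.vt a' ≠ M.vt b) (hc' : M.vt c' ≠ M.vt b) (h1 : M.Cyc a b c) (h2 : M.Cyc c e a)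
    (f1 : Fr M A b) (f2 : Fr M C b) (f3 : Fr M A e) (f4 : Fr M C e) : κ e = κ b + 1 := by
  obtain ⟨i, j, hi, hij, ei, ej, hper⟩ := h1
  obtain ⟨i', j', hi', hij', ei', ej', hper'⟩ := h2
  have hN : ∀ m, 0 < m → m < j + j' → (M.σ ^ m) a ≠ a := by
    intro m hm0 hm he
    by_cases hmj : m ≤ j
    · exact hper m hm0 hmj he
    push Not at hmj
    have h3 : (M.σ ^ (m - j)) c = a := by
      rw [← ej, ← Equiv.Perm.mul_apply, ← pow_add, Nat.sub_add_cancel hmj.le, he]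
    have h4 : (M.σ ^ (j' - (m - j))) c = c := by
      have h5 : (M.σ ^ (m - j)) ((M.σ ^ (j' - (m - j))) c) = (M.σ ^ (m - j)) c := by
        rw [← Equiv.Perm.mul_apply, ← pow_add, Nat.add_sub_cancel' (by omega), ej', h3]
      exact (M.σ ^ (m - j)).injective h5
    exact hper' _ (by omega) (by omega) h4
  have hN' : ∀ s m, 0 < m → m < j + j' → (M.σ ^ m) ((M.σ ^ s) a) ≠ (M.σ ^ s) a := by
    intro s m hm0 hm he
    rw [← Equiv.Perm.mul_apply, ← pow_add, add_comm, pow_add, Equiv.Perm.mul_apply] at he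
    exact hN m hm0 hm ((M.σ ^ s).injective he)
  have hbe : (M.σ ^ (j + i' - i)) b = e := by
    rw [← ei, ← Equiv.Perm.mul_apply, ← pow_add, Nat.sub_add_cancel (by omega), add_comm j i',
      pow_add, Equiv.Perm.mul_apply, ej, ei']
  have hbc : (M.σ ^ (j - i)) b = c := by
    rw [← ei, ← Equiv.Perm.mul_apply, ← pow_add, Nat.sub_add_cancel hij.le, ej]
  have key := h b (j + i' - i) (by
    intro m hm0 hm
    rw [← ei]
    exact hN' i m hm0 (by omega)) f1 f2 (by rw [hbe]; exact f3) (by rw [hbe]; exact f4)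
  have c1 : cnt M b (j + i' - i) c = 1 := by
    rw [cnt, if_pos ⟨j - i, by omega, hbc⟩]
  have c2 : cnt M b (j + i' - i) a = 0 := by
    rw [cnt, if_neg]
    rintro ⟨m, hm, h'⟩
    rw [← ei, ← Equiv.Perm.mul_apply, ← pow_add] at h'
    exact hN (m + i) (by omega) (by omega) h'
  rw [hbe, c1, c2, cnt_vt ha', cnt_vt hc'] at key
  rw [key]
  ring

/-- `b` and `e` are on the same side of `a` and `c` at their vertex -/
theorem same_step {A C : Set F} {κ : D → ZMod 2} {a a' c c' b e : D} (h : Kp M A C κ a a' c c')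
    (ha' : M.vt a' ≠ M.vt b) (hc' : M.vt c' ≠ M.vt b) (h1 : M.Cyc a b c) (h2 : M.Cyc a e c)
    (f1 : Fr M A b) (f2 : Fr M C b) (f3 : Fr M A e) (f4 : Fr M C e) : κ e = κ b := by
  have aux : ∀ b e i i' j, M.vt a' ≠ M.vt b → M.vt c' ≠ M.vt b → 0 < i → i ≤ i' → i' < j →
      (M.σ ^ i) a = b → (M.σ ^ i') a = e → (M.σ ^ j) a = c →
      (∀ m, 0 < m → m ≤ j → (M.σ ^ m) a ≠ a) → Fr M A b → Fr M C b → Fr M A e → Fr M C e →
      κ e = κ b := by
    intro b e i i' j ha' hc' hi hii hij ei ei' ej hper f1 f2 f3 f4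
    have hbe : (M.σ ^ (i' - i)) b = e := by
      rw [← ei, ← Equiv.Perm.mul_apply, ← pow_add, Nat.sub_add_cancel hii, ei']
    have key := h b (i' - i) (by
      intro m hm0 hm h'
      rw [← ei, ← Equiv.Perm.mul_apply, ← pow_add, add_comm, pow_add, Equiv.Perm.mul_apply] at h'
      exact hper m hm0 (by omega) ((M.σ ^ i).injective h')) f1 f2 (by rw [hbe]; exact f3)
      (by rw [hbe]; exact f4)
    have c1 : cnt M b (i' - i) c = 0 := by
      rw [cnt, if_neg]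
      rintro ⟨m, hm, h'⟩
      have h5 : (M.σ ^ (m + i)) ((M.σ ^ (j - (m + i))) a) = (M.σ ^ (m + i)) a := by
        rw [← Equiv.Perm.mul_apply, ← pow_add, Nat.add_sub_cancel' (by omega), ej, pow_add,
          Equiv.Perm.mul_apply, ei, h']
      exact hper (j - (m + i)) (by omega) (by omega) ((M.σ ^ (m + i)).injective h5)
    have c2 : cnt M b (i' - i) a = 0 := by
      rw [cnt, if_neg]
      rintro ⟨m, hm, h'⟩
      rw [← ei, ← Equiv.Perm.mul_apply, ← pow_add] at h'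
      exact hper (m + i) (by omega) (by omega) h'
    rw [hbe, c1, c2, cnt_vt ha', cnt_vt hc'] at key
    rw [key]
    ring
  obtain ⟨i, j, hi, hij, ei, ej, hper⟩ := h1
  obtain ⟨i', j', hi', hij', ei', ej', hper'⟩ := h2
  have hjj : j = j' := by
    rcases lt_trichotomy j j' with h3 | h3 | h3
    · exfalso
      have h5 : (M.σ ^ j) ((M.σ ^ (j' - j)) a) = (M.σ ^ j) a := by
        rw [← Equiv.Perm.mul_apply, ← pow_add, Nat.add_sub_cancel' h3.le, ej', ej]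
      exact hper' (j' - j) (by omega) (by omega) ((M.σ ^ j).injective h5)
    · exact h3
    · exfalso
      have h5 : (M.σ ^ j') ((M.σ ^ (j - j')) a) = (M.σ ^ j') a := by
        rw [← Equiv.Perm.mul_apply, ← pow_add, Nat.add_sub_cancel' h3.le, ej', ej]
      exact hper (j - j') (by omega) (by omega) ((M.σ ^ j').injective h5)
  subst hjj
  have hbe : M.vt e = M.vt b := by rw [← ei, ← ei', M.vt_pow, M.vt_pow]
  rcases le_total i i' with h3 | h3
  · exact aux b e i i' j ha' hc' hi h3 hij' ei ei' ej hper f1 f2 f3 f4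
  · exact (aux e b i' i j (by rw [hbe]; exact ha') (by rw [hbe]; exact hc') hi' h3 hij ei' ei ej hper
      f3 f4 f1 f2).symm

theorem Kp.swap {A C : Set F} {κ : D → ZMod 2} {a a' c c' : D} (h : Kp M A C κ a a' c c') :
    Kp M C A κ c c' a a' := by
  intro d k h1 h2 h3 h4 h5
  rw [h d k h1 h3 h2 h5 h4]
  ring

theorem Kp.other {A C : Set F} {κ : D → ZMod 2} {a a' c c' : D} (h : Kp M A C κ a a' c c') :
    Kp M A C κ a' a c' c := by
  intro d k h1 h2 h3 h4 h5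
  rw [h d k h1 h2 h3 h4 h5]
  ring

theorem Cyc.vt1 {a b c : D} (h : M.Cyc a b c) : M.vt b = M.vt a ∧ M.vt c = M.vt a := by
  obtain ⟨i, j, _, _, ei, ej, _⟩ := h
  exact ⟨by rw [← ei, M.vt_pow], by rw [← ej, M.vt_pow]⟩

theorem fr_of {A : Set F} {d : D} (h : M.fc d ∉ A) : Fr M A d := fun h' => h h'.1

/-- at a vertex other than those of the curve the colour is constant -/
theorem const {A C : Set F} {κ : D → ZMod 2} {a a' c c' b e : D} (h : Kp M A C κ a a' c c')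
    (h1 : M.vt a ≠ M.vt b) (h2 : M.vt a' ≠ M.vt b) (h3 : M.vt c ≠ M.vt b) (h4 : M.vt c' ≠ M.vt b)
    (hv : M.vt b = M.vt e)
    (f1 : Fr M A b) (f2 : Fr M C b) (f3 : Fr M A e) (f4 : Fr M C e) : κ e = κ b := by
  have hqe : ∃ k, (M.σ ^ k) b = e := ((M.vs b e).mp hv).exists_nat_pow_eq
  obtain ⟨k, hk, hkm⟩ : ∃ k, (M.σ ^ k) b = e ∧ ∀ m, m < k → (M.σ ^ m) b ≠ e :=
    ⟨Nat.find hqe, Nat.find_spec hqe, fun m hm => Nat.find_min hqe hm⟩
  have hqne : ∀ i, 0 < i → i < k → (M.σ ^ i) b ≠ b := by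
    intro i hi hik h
    refine hkm (k - i) (by omega) ?_
    calc (M.σ ^ (k - i)) b = (M.σ ^ (k - i)) ((M.σ ^ i) b) := by rw [h]
      _ = (M.σ ^ k) b := by rw [← Equiv.Perm.mul_apply, ← pow_add, Nat.sub_add_cancel hik.le]
      _ = e := hk
  have key := h b k hqne f1 f2 (by rw [hk]; exact f3) (by rw [hk]; exact f4)
  rw [hk, cnt_vt h1, cnt_vt h2, cnt_vt h3, cnt_vt h4] at key
  rw [key]
  ring

end RunBAux

open RunBAux in
/-- Four connected sets at two vertices: if `B` and `E` are separated by `A` and `C` at one vertex,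
they are separated at the other vertex. -/
theorem xx {A B C E : Set F} (hA : M.Conn A) (hB : M.Conn B) (hC : M.Conn C) (hE : M.Conn E)
    (hAB : Disjoint A B) (hAC : Disjoint A C) (hAE : Disjoint A E) (hBC : Disjoint B C)
    (hCE : Disjoint C E) {a b c e a' b' c' e' : D}
    (ha : M.fc a ∈ A) (hb : M.fc b ∈ B) (hc : M.fc c ∈ C) (he : M.fc e ∈ E)
    (ha' : M.fc a' ∈ A) (hb' : M.fc b' ∈ B) (hc' : M.fc c' ∈ C) (he' : M.fc e' ∈ E)
    (hvv : M.vt a ≠ M.vt a')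
    (hg : (M.Cyc a b c ∧ M.Cyc c e a) ∨ (M.Cyc c b a ∧ M.Cyc a e c))
    (hh : (M.Cyc a' b' c' ∧ M.Cyc a' e' c') ∨ (M.Cyc c' b' a' ∧ M.Cyc c' e' a')) : False := by
  have hAc : M.vt a = M.vt c ∧ M.vt b = M.vt a := by
    rcases hg with ⟨h1, h2⟩ | ⟨h1, h2⟩
    · exact ⟨(Cyc.vt1 h1).2.symm, (Cyc.vt1 h1).1⟩
    · exact ⟨(Cyc.vt1 h1).2, (Cyc.vt1 h1).1.trans (Cyc.vt1 h1).2.symm⟩
  have hAc' : M.vt a' = M.vt c' ∧ M.vt b' = M.vt a' := by
    rcases hh with ⟨h1, h2⟩ | ⟨h1, h2⟩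
    · exact ⟨(Cyc.vt1 h1).2.symm, (Cyc.vt1 h1).1⟩
    · exact ⟨(Cyc.vt1 h1).2, (Cyc.vt1 h1).1.trans (Cyc.vt1 h1).2.symm⟩
  have n1 : ∀ z, z ∈ B → z ∉ A := fun z h h' => Set.disjoint_left.mp hAB h' h
  have n2 : ∀ z, z ∈ B → z ∉ C := fun z h h' => Set.disjoint_left.mp hBC h h'
  have n3 : ∀ z, z ∈ E → z ∉ A := fun z h h' => Set.disjoint_left.mp hAE h' h
  have n4 : ∀ z, z ∈ E → z ∉ C := fun z h h' => Set.disjoint_left.mp hCE h' h
  obtain ⟨κ, k1, k2, k3⟩ := kap2 hA hC hAC ha ha' hc hc' hAc.1 hAc'.1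
  have K : Kp M A C κ a a' c c' := k3
  have mB := mono hB k1 (fun d hd => k2 d (n1 _ hd) (n2 _ hd)) hb hb'
  have mE := mono hE k1 (fun d hd => k2 d (n3 _ hd) (n4 _ hd)) he he'
  have v1 : M.vt a' ≠ M.vt b := by rw [hAc.2]; exact hvv.symm
  have v2 : M.vt c' ≠ M.vt b := by rw [← hAc'.1, hAc.2]; exact hvv.symm
  have v3 : M.vt a ≠ M.vt b' := by rw [hAc'.2]; exact hvv
  have v4 : M.vt c ≠ M.vt b' := by rw [← hAc.1, hAc'.2]; exact hvv
  have e1 : κ e = κ b + 1 := by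
    rcases hg with ⟨h1, h2⟩ | ⟨h1, h2⟩
    · exact sep_step K v1 v2 h1 h2 (fr_of (n1 _ hb)) (fr_of (n2 _ hb)) (fr_of (n3 _ he))
        (fr_of (n4 _ he))
    · exact sep_step K.swap v2 v1 h1 h2 (fr_of (n2 _ hb)) (fr_of (n1 _ hb)) (fr_of (n4 _ he))
        (fr_of (n3 _ he))
  have e2 : κ e' = κ b' := by
    rcases hh with ⟨h1, h2⟩ | ⟨h1, h2⟩
    · exact same_step K.other v3 v4 h1 h2 (fr_of (n1 _ hb')) (fr_of (n2 _ hb')) (fr_of (n3 _ he'))
        (fr_of (n4 _ he'))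
    · exact same_step K.other.swap v4 v3 h1 h2 (fr_of (n2 _ hb')) (fr_of (n1 _ hb'))
        (fr_of (n4 _ he')) (fr_of (n3 _ he'))
  rw [← mB, ← mE, e1] at e2
  have : ∀ x : ZMod 2, x + 1 ≠ x := by decide
  exact this _ e2

open RunBAux in
/-- A closed curve through `H` and `H'` via `u1` and `u2`, and two connected sets `Y` and `P`
separated by it at `u1`, cannot have a further common vertex of `Y` and `P`. -/
theorem third {H H' Y P : Set F} (hH : M.Conn H) (hH' : M.Conn H') (hY : M.Conn Y)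
    (hP : M.Conn P) (h1 : Disjoint H H') (h2 : Disjoint H Y) (h3 : Disjoint H P)
    (h4 : Disjoint H' Y) (h5 : Disjoint H' P) {a b c e : D}
    (ha : M.fc a ∈ H) (hb : M.fc b ∈ Y) (hc : M.fc c ∈ H') (he : M.fc e ∈ P)
    (hg : (M.Cyc a b c ∧ M.Cyc c e a) ∨ (M.Cyc c b a ∧ M.Cyc a e c))
    {u2 u3 : V} (h12 : M.vt a ≠ u2) (h13 : M.vt a ≠ u3) (h23 : u2 ≠ u3)
    (hu2 : M.At H u2) (hu2' : M.At H' u2) (hu3 : M.At Y u3) (hu3' : M.At P u3) : False := by
  obtain ⟨x, hx, hxH⟩ := hu2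
  obtain ⟨x', hx', hxH'⟩ := hu2'
  obtain ⟨y, hy, hyY⟩ := hu3
  obtain ⟨p, hp, hpP⟩ := hu3'
  have hAc : M.vt a = M.vt c ∧ M.vt b = M.vt a := by
    rcases hg with ⟨h1, h2⟩ | ⟨h1, h2⟩
    · exact ⟨(Cyc.vt1 h1).2.symm, (Cyc.vt1 h1).1⟩
    · exact ⟨(Cyc.vt1 h1).2, (Cyc.vt1 h1).1.trans (Cyc.vt1 h1).2.symm⟩
  have n1 : ∀ z, z ∈ Y → z ∉ H := fun z h h' => Set.disjoint_left.mp h2 h' h
  have n2 : ∀ z, z ∈ Y → z ∉ H' := fun z h h' => Set.disjoint_left.mp h4 h' h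
  have n3 : ∀ z, z ∈ P → z ∉ H := fun z h h' => Set.disjoint_left.mp h3 h' h
  have n4 : ∀ z, z ∈ P → z ∉ H' := fun z h h' => Set.disjoint_left.mp h5 h' h
  obtain ⟨κ, k1, k2, k3⟩ := kap2 hH hH' h1 ha hxH hc hxH' hAc.1 (hx.trans hx'.symm)
  have K : Kp M H H' κ a x c x' := k3
  have mY := mono hY k1 (fun d hd => k2 d (n1 _ hd) (n2 _ hd)) hb hyY
  have mP := mono hP k1 (fun d hd => k2 d (n3 _ hd) (n4 _ hd)) he hpP
  have v1 : M.vt x ≠ M.vt b := by rw [hAc.2, hx]; exact h12.symm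
  have v2 : M.vt x' ≠ M.vt b := by rw [hAc.2, hx']; exact h12.symm
  have e1 : κ e = κ b + 1 := by
    rcases hg with ⟨g1, g2⟩ | ⟨g1, g2⟩
    · exact sep_step K v1 v2 g1 g2 (fr_of (n1 _ hb)) (fr_of (n2 _ hb)) (fr_of (n3 _ he))
        (fr_of (n4 _ he))
    · exact sep_step K.swap v2 v1 g1 g2 (fr_of (n2 _ hb)) (fr_of (n1 _ hb)) (fr_of (n4 _ he))
        (fr_of (n3 _ he))
  have e2 : κ p = κ y := RunBAux.const K (by rw [hy]; exact h13) (by rw [hx, hy]; exact h23)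
    (by rw [← hAc.1, hy]; exact h13) (by rw [hx', hy]; exact h23) (hy.trans hp.symm)
    (fr_of (n1 _ hyY)) (fr_of (n2 _ hyY)) (fr_of (n3 _ hpP)) (fr_of (n4 _ hpP))
  rw [← mY, ← mP, e1] at e2
  have : ∀ x : ZMod 2, x + 1 ≠ x := by decide
  exact this _ e2

end Pool.Agent.Lib.PLQ
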