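import Mathlib
import Pool.Agent.Lib.PLQ.Piece
import Pool.Agent.Lib.PLQ.RunB
import Pool.Agent.Lib.PLQ.OrdD

set_option autoImplicit false
set_option linter.unusedSectionVars false
set_option linter.unusedVariables false

/-! Module Pairs: two pieces of a face `b`. -/

namespace Pool.Agent.Lib.PLQ

open Finset Pool.Agent.Lib.NK
open scoped Classical

variable {V D F : Type} [Fintype V] [Fintype D] [Fintype F] {M : PM V D F}

namespace PairsAux

theorem sc_pow {d e : D} (h : M.vt d = M.vt e) : ∃ k : ℕ, (M.σ ^ k) d = e := by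
  obtain ⟨i, _, hi⟩ := ((M.vs d e).1 h).exists_pow_eq'
  exact ⟨i, hi⟩

theorem leave {X : Set F} {v : V} (h1 : M.At X v) (h2 : M.At Xᶜ v) :
    ∃ q, M.vt q = v ∧ M.fc (M.σ⁻¹ q) ∈ X ∧ M.fc q ∉ X := by
  obtain ⟨d, hd, hdX⟩ := h1
  obtain ⟨e, he, heX⟩ := h2
  by_contra hcon
  push Not at hcon
  have key : ∀ k : ℕ, M.fc ((M.σ ^ k) d) ∈ X := by
    intro k
    induction k with
    | zero => simpa using hdX
    | succ k ih =>
      have h3 := hcon ((M.σ ^ (k + 1)) d) (by rw [M.vt_pow, hd])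
      rw [pow_succ', Equiv.Perm.mul_apply, perm_ia] at h3
      rw [pow_succ', Equiv.Perm.mul_apply]
      exact h3 ih
  obtain ⟨k, hk⟩ := sc_pow (M := M) (hd.trans he.symm)
  exact heX (hk ▸ key k)

theorem enter {X : Set F} {v : V} (h1 : M.At X v) (h2 : M.At Xᶜ v) :
    ∃ e, M.vt e = v ∧ M.fc (M.σ⁻¹ e) ∉ X ∧ M.fc e ∈ X := by
  obtain ⟨q, hq, h3, h4⟩ := leave (M := M) (X := Xᶜ) (v := v) h2 (by rwa [compl_compl])
  exact ⟨q, hq, h3, not_not.1 h4⟩

theorem bdAt {X : Set F} {v : V} (h : v ∈ M.bd X) : M.At X v ∧ M.At Xᶜ v := by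
  simpa [PM.bd] using h

theorem up_path (hG : Good M) {b y : F} (hy : y ∉ Phi M b) {β p : D} (hβ : M.fc β = b)
    (hp : M.fc p ∈ UP M b y) (h : Relation.ReflTransGen M.lup β p) :
    ∃ c, M.lup β c ∧ M.fc c ∈ UP M b y := by
  have key : ∀ c, Relation.ReflTransGen M.lup c p → M.le b (M.fc c) → M.fc c ≠ b →
      M.fc c ∈ UP M b y := by
    intro c hc
    induction hc using Relation.ReflTransGen.head_induction_on with
    | refl => intro _ _; exact hp
    | head h1 h2 ih =>
      rename_i a c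
      intro hle hne
      have hup : M.up (M.fc a) (M.fc c) := M.lup_up h1
      have hle' : M.le b (M.fc c) := hle.tail hup
      have hne' : M.fc c ≠ b := by
        intro h3
        apply hne
        have h4 : M.le (M.fc a) b := by
          rw [← h3]; exact M.up_le hup
        exact le_antisymm' hG h4 hle
      exact up_adj hy (ih hle' hne') (Or.inr hup) (phi_above hle hne)
  rcases Relation.ReflTransGen.cases_head h with h1 | ⟨c, h1, h2⟩
  · exfalso
    subst h1
    rw [hβ] at hp
    exact up_sub_phi hy hp (b_phi b)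
  · refine ⟨c, h1, ?_⟩
    have hup : M.up b (M.fc c) := by
      have := M.lup_up h1
      rwa [hβ] at this
    exact key c h2 (M.up_le hup) (fun h3 => up_ne hG hup h3.symm)

theorem dp_path (hG : Good M) {b z : F} (hz : z ∉ Phi M.rev b) {q β : D} (hβ : M.fc β = b)
    (hq : M.fc q ∈ DP M b z) (h : Relation.ReflTransGen M.lup q β) :
    ∃ c, M.lup c β ∧ M.fc c ∈ DP M b z := by
  have key : ∀ c, Relation.ReflTransGen M.lup q c → M.le (M.fc c) b → M.fc c ≠ b →
      M.fc c ∈ DP M b z := by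
    intro c hc
    induction hc with
    | refl => intro _ _; exact hq
    | tail h1 h2 ih =>
      rename_i a c
      intro hle hne
      have hup : M.up (M.fc a) (M.fc c) := M.lup_up h2
      have hle' : M.le (M.fc a) b := (M.up_le hup).trans hle
      have hne' : M.fc a ≠ b := by
        intro h3
        apply hne
        have h4 : M.le b (M.fc c) := by
          rw [← h3]; exact M.up_le hup
        exact le_antisymm' hG hle h4
      exact dp_adj hz (ih hle' hne') (Or.inl hup) (phi_below hle hne)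
  rcases Relation.ReflTransGen.cases_tail h with h1 | ⟨c, h1, h2⟩
  · exfalso
    subst h1
    rw [hβ] at hq
    exact up_sub_phi (M := M.rev) hz hq (b_phi b)
  · refine ⟨c, h2, ?_⟩
    have hup : M.up (M.fc c) b := by
      have := M.lup_up h2
      rwa [hβ] at this
    exact key c h1 (M.up_le hup) (up_ne hG hup)

/-- in a path from `X` to its complement inside `Y` there is a step out of `X` -/
theorem exit_step {X Y : Set F} {a c : F}
    (h : Relation.ReflTransGen (fun a b => M.adj a b ∧ b ∈ Y) a c) (ha : a ∈ X) (haY : a ∈ Y)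
    (hc : c ∉ X) :
    ∃ s t, M.adj s t ∧ s ∈ X ∧ s ∈ Y ∧ t ∉ X ∧ t ∈ Y := by
  by_contra hcon
  push Not at hcon
  have key : c ∈ X ∧ c ∈ Y := by
    clear hc
    induction h with
    | refl => exact ⟨ha, haY⟩
    | tail h1 h2 ih =>
      rename_i s t
      refine ⟨?_, h2.2⟩
      by_contra ht
      exact hcon s t h2.1 ih.1 ih.2 ht h2.2
  exact hc key.1

end PairsAux

open PairsAux

/-- Two up-pieces share at most one vertex.  Proof: `flank` with `K = UP b y`, `K' = UP b z`,
`C = Phi b`: the corners next to the run of `K` are in `Phi b` by `up_inner`. -/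
theorem up_share (hG : Good M) {b y z : F} (hy : y ∉ Phi M b) (hz : z ∉ Phi M b)
    (h : UP M b y ≠ UP M b z) {u w : V} (h1 : u ∈ M.bd (UP M b y)) (h2 : u ∈ M.bd (UP M b z))
    (h3 : w ∈ M.bd (UP M b y)) (h4 : w ∈ M.bd (UP M b z)) : u = w := by
  by_contra huw
  obtain ⟨hA1, hA2⟩ := bdAt h1
  obtain ⟨e, he, he2, he1⟩ := enter hA1 hA2
  obtain ⟨q, hq, hq1, hq2⟩ := leave hA1 hA2
  have hd : Disjoint (UP M b y) (UP M b z) := up_disj hy hz h
  have hdp : ∀ {x : F}, x ∉ Phi M b → Disjoint (UP M b x) (Phi M b) := by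
    intro x hx
    rw [Set.disjoint_left]
    intro a ha
    exact up_sub_phi hx ha
  refine flank (up_conn hy) (up_ud hG hy).disc.cc (up_conn hz) (phi_conn b) hd (hdp hy) (hdp hz)
    huw (bdAt h3).1 (bdAt h2).1 (bdAt h4).1 he hq he1 ?_ hq1 ?_
  · exact (up_inner hy he1 he2 (M.adj_symm (M.adj_dart e))).1
  · exact (up_inner hy hq1 hq2 (M.adj_dart q)).1

theorem dp_share (hG : Good M) {b y z : F} (hy : y ∉ Phi M.rev b) (hz : z ∉ Phi M.rev b)
    (h : DP M b y ≠ DP M b z) {u w : V} (h1 : u ∈ M.bd (DP M b y)) (h2 : u ∈ M.bd (DP M b z))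
    (h3 : w ∈ M.bd (DP M b y)) (h4 : w ∈ M.bd (DP M b z)) : u = w := by
  refine up_share (M := M.rev) hG.rev hy hz h ?_ ?_ ?_ ?_
  · rw [M.rev_bd]; exact h1
  · rw [M.rev_bd]; exact h2
  · rw [M.rev_bd]; exact h3
  · rw [M.rev_bd]; exact h4

/-- Proof: faces of `DP` adjacent to its complement are strictly below `b`, hence not in `UP`
(else `b` would be); so if some face of `DP` is in `UP`, by connectedness there is a face of
`DP ∩ UP` adjacent to a face of `DP \ UP`; it is above `b` by `up_inner` and in the down-closed set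
`DP`, so `b ∈ DP`, contradiction. -/
theorem ud_disj (hG : Good M) {b y z : F} (hy : y ∉ Phi M b) (hz : z ∉ Phi M.rev b) :
    Disjoint (UP M b y) (DP M b z) := by
  rw [Set.disjoint_left]
  intro x hx hx'
  have hU := up_ud hG hy
  have hDD := dp_dd hG hz
  have upc : ∀ {s t : F}, M.le s t → s ∈ UP M b y → t ∈ UP M b y := by
    intro s t hst hs
    induction hst with
    | refl => exact hs
    | tail _ h2 ih => exact hU.up _ _ h2 ih
  have dnc : ∀ {s t : F}, M.le s t → t ∈ DP M b z → s ∈ DP M b z := by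
    intro s t hst
    induction hst with
    | refl => exact id
    | tail _ h2 ih => exact fun ht => ih (hDD.dn _ _ h2 ht)
  have hbU : b ∉ UP M b y := fun hb => up_sub_phi hy hb (b_phi b)
  have hbD : b ∉ DP M b z := fun hb => up_sub_phi (M := M.rev) hz hb (b_phi b)
  -- a face of `DP` adjacent to the complement
  have hstep := exit_step (M := M) (X := DP M b z) (Y := Set.univ)
    (conn_univ hG x trivial b trivial) hx' trivial hbD
  obtain ⟨s, t, hst, hs, _, ht, _⟩ := hstep
  have hsb := (dp_inner hz hs ht hst).2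
  have hsU : s ∉ UP M b y := fun h => hbU (upc hsb.1 h)
  obtain ⟨s', t', hst', hs', hs2', ht', ht2'⟩ := exit_step (M := M) (X := UP M b y) (Y := DP M b z)
    (hDD.disc.cn x hx' s hs) hx hx' hsU
  have h5 := (up_inner hy hs' ht' hst').2
  exact hbD (dnc h5.1 hs2')

/-- Common vertices of an up-piece and a down-piece are on `b`, with the neighbours of `b` there in
these pieces.  Proof: at `w` there is a corner `p` of `UP` with `b < fc p` (an entering dart and
`up_inner`) and a corner `q` of `DP` with `fc q < b`; by `mid` a corner `β` of `b` at `w` lies on a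
local path from `q` to `β` and from `β` to `p`; the path from `β` to `p` starts with the neighbour
above and stays strictly above `b`, so in the same piece (`up_adj`); same below. -/
theorem ud_share (hG : Good M) {b y z : F} (hy : y ∉ Phi M b) (hz : z ∉ Phi M.rev b) {w : V}
    (h1 : w ∈ M.bd (UP M b y)) (h2 : w ∈ M.bd (DP M b z)) :
    ∃ β, M.vt β = w ∧ M.fc β = b ∧
      ((M.fc (M.σ β) ∈ UP M b y ∧ M.fc (M.σ⁻¹ β) ∈ DP M b z) ∨
        (M.fc (M.σ β) ∈ DP M b z ∧ M.fc (M.σ⁻¹ β) ∈ UP M b y)) := by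
  obtain ⟨hA1, hA2⟩ := bdAt h1
  obtain ⟨p, hp, hp2, hp1⟩ := enter hA1 hA2
  obtain ⟨hB1, hB2⟩ := bdAt h2
  obtain ⟨q, hq, hq2, hq1⟩ := enter hB1 hB2
  have hbp := (up_inner hy hp1 hp2 (M.adj_symm (M.adj_dart p))).2
  have hqb := (dp_inner hz hq1 hq2 (M.adj_symm (M.adj_dart q))).2
  obtain ⟨β, hβv, hβ, hl1, hl2⟩ := mid hG (hq.trans hp.symm) hqb.1 hbp.1
  obtain ⟨c, hc, hcU⟩ := up_path hG hy hβ hp1 hl2
  obtain ⟨a, ha, haD⟩ := dp_path hG hz hβ hq1 hl1
  refine ⟨β, hβv.trans hq, hβ, ?_⟩
  rcases hc with ⟨rfl, hc⟩ | ⟨hc1, hc⟩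
  · rcases ha with ⟨ha1, ha⟩ | ⟨rfl, ha⟩
    · left
      refine ⟨hcU, ?_⟩
      rw [ha1, perm_ia]; exact haD
    · rw [hc] at ha; exact absurd ha (by simp)
  · rcases ha with ⟨ha1, ha⟩ | ⟨rfl, ha⟩
    · rw [← ha1] at ha
      rw [← hc1] at hc
      rw [hc] at ha; exact absurd ha (by simp)
    · right
      refine ⟨haD, ?_⟩
      rw [hc1, perm_ia]; exact hcU

end Pool.Agent.Lib.PLQ
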