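import Mathlib
import Pool.Agent.Lib.PLQ.Pairs
import Pool.Agent.Lib.PLQ.DiscA

set_option autoImplicit false
set_option linter.unusedSectionVars false
set_option linter.unusedVariables false

/-! Module LemRb: the colour argument in Lemma R (`IsPc` in Defs). -/

namespace Pool.Agent.Lib.PLQ

open Finset Pool.Agent.Lib.NK
open scoped Classical

variable {V D F : Type} [Fintype V] [Fintype D] [Fintype F] {M : PM V D F}

theorem pc_disj (hG : Good M) {b : F} {X Y : Set F} (hX : IsPc M b X) (hY : IsPc M b Y)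
    (h : X ≠ Y) : Disjoint X Y := by
  rcases hX with ⟨x, hx, rfl⟩ | ⟨x, hx, rfl⟩
  · rcases hY with ⟨y, hy, rfl⟩ | ⟨y, hy, rfl⟩
    · exact up_disj hx hy h
    · exact ud_disj hG hx hy
  · rcases hY with ⟨y, hy, rfl⟩ | ⟨y, hy, rfl⟩
    · exact (ud_disj hG hy hx).symm
    · exact up_disj (M := M.rev) hx hy h

theorem pc_disc (hG : Good M) {b : F} {X : Set F} (hX : IsPc M b X) : M.UDisc X ∨ M.DDisc X := by
  rcases hX with ⟨x, hx, rfl⟩ | ⟨x, hx, rfl⟩
  · exact Or.inl (up_ud hG hx)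
  · exact Or.inr (dp_dd hG hx)

namespace LemRbAux

theorem conn_single (b : F) : M.Conn {b} := by
  intro x hx y hy
  rw [Set.mem_singleton_iff] at hx hy
  rw [hx, hy]

theorem b_notin (hG : Good M) {b : F} {X : Set F} (hX : IsPc M b X) : b ∉ X := by
  rcases hX with ⟨x, hx, rfl⟩ | ⟨x, hx, rfl⟩
  · exact fun hb => up_sub_phi hx hb (b_phi b)
  · exact fun hb => up_sub_phi (M := M.rev) hx hb (b_phi b)

theorem pc_conn (hG : Good M) {b : F} {X : Set F} (hX : IsPc M b X) : M.Conn X := by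
  rcases pc_disc hG hX with h | h
  · exact h.disc.cn
  · exact h.disc.cn

theorem fr_single (hG : Good M) (b : F) (d : D) : Fr M {b} d := by
  rintro ⟨h1, h2⟩
  rw [Set.mem_singleton_iff] at h1 h2
  rcases M.adj_dart d with h | h
  · exact up_ne hG h (h2.trans h1.symm)
  · exact up_ne hG h (h1.trans h2.symm)

theorem cnt_off {d x : D} {k : ℕ} (h : M.vt x ≠ M.vt d) : cnt M d k x = 0 := by
  unfold cnt
  rw [if_neg]
  rintro ⟨i, _, hi⟩
  apply h
  rw [← hi, M.vt_pow]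

theorem cnt_one (d x : D) : cnt M d 1 x = if d = x then 1 else 0 := by
  unfold cnt
  have h : (∃ i, i < 1 ∧ (M.σ ^ i) d = x) ↔ d = x := by
    constructor
    · rintro ⟨i, hi, h⟩
      have h0 : i = 0 := by omega
      rw [h0] at h
      exact h
    · intro h
      exact ⟨0, by omega, h⟩
  by_cases hd : d = x
  · rw [if_pos (h.2 hd), if_pos hd]
  · rw [if_neg (fun h' => hd (h.1 h')), if_neg hd]

theorem reach {d e : D} (hv : M.vt d = M.vt e) :
    ∃ k : ℕ, (M.σ ^ k) d = e ∧ ∀ i, 0 < i → i < k → (M.σ ^ i) d ≠ d := by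
  have h : ∃ k : ℕ, (M.σ ^ k) d = e := ((M.vs d e).mp hv).exists_nat_pow_eq
  refine ⟨Nat.find h, Nat.find_spec h, ?_⟩
  intro i hi1 hi2 hi3
  apply Nat.find_min h (m := Nat.find h - i) (by omega)
  have h1 := Nat.find_spec h
  have h2 : (M.σ ^ (Nat.find h - i)) ((M.σ ^ i) d) = e := by
    rw [← Equiv.Perm.mul_apply, ← pow_add, Nat.sub_add_cancel hi2.le]
    exact h1
  rwa [hi3] at h2

/-- the colour argument on one side -/
theorem half (hG : Good M) {b : F} {P : Set F} (hP : M.Conn P) (hbP : b ∉ P) {u v : V}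
    {βu βv pu pv : D} (hu : M.vt βu = u) (hub : M.fc βu = b) (hv : M.vt βv = v)
    (hvb : M.fc βv = b) (hpu : M.fc pu ∈ P) (hpuv : M.vt pu = u) (hpv : M.fc pv ∈ P)
    (hpvv : M.vt pv = v) {n : ℕ} {C : ℕ → Set F} (hC : ∀ j, j ≤ n → M.Conn (C j))
    (hCP : ∀ j, j ≤ n → Disjoint (C j) P) (hCb : ∀ j, j ≤ n → b ∉ C j)
    (hsh : ∀ j, j < n → ∃ z, z ≠ u ∧ z ≠ v ∧ M.At (C j) z ∧ M.At (C (j + 1)) z) :
    ∃ κ : D → ZMod 2, (∀ d, κ (M.τ d) = κ d) ∧
      (∀ d, M.fc d ≠ b → M.fc d ∉ P → κ (M.σ d) = κ d) ∧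
      (∀ x, M.fc x = b → κ (M.σ x) = κ x +
        ((if x = βu then 1 else 0) + (if x = βv then 1 else 0))) ∧
      ∀ d e, M.fc d ∈ C 0 → M.fc e ∈ C n → κ d = κ e := by
  obtain ⟨κ, k1, k2, k3⟩ := kap2 (M := M) (A := {b}) (P := P) (conn_single b) hP
    (Set.disjoint_singleton_left.2 hbP) (a := βu) (a' := βv) (p := pu) (p' := pv) hub hvb hpu hpv
    (hu.trans hpuv.symm) (hv.trans hpvv.symm)
  have k2' : ∀ d, M.fc d ≠ b → M.fc d ∉ P → κ (M.σ d) = κ d := fun d h1 h2 => k2 d h1 h2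
  have hcol : ∀ j, j ≤ n → ∀ d, M.fc d ∈ C j → κ (M.σ d) = κ d := by
    intro j hj d hd
    refine k2' d ?_ ?_
    · intro h
      rw [h] at hd
      exact hCb j hj hd
    · exact fun h => Set.disjoint_left.1 (hCP j hj) hd h
  have hmono : ∀ j, j ≤ n → ∀ d e, M.fc d ∈ C j → M.fc e ∈ C j → κ d = κ e :=
    fun j hj d e hd he => mono (hC j hj) k1 (hcol j hj) hd he
  refine ⟨κ, k1, k2', ?_, ?_⟩
  · intro x hx
    have h1 := k3 x 1 (by intro i h1 h2; omega) (fr_single hG b x)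
      (fun h => hbP (by rw [← hx]; exact h.1)) (fr_single hG b _)
      (fun h => hbP (by
        have h2 := h.2
        rw [pow_one, perm_ia, hx] at h2
        exact h2))
    rw [pow_one, cnt_one, cnt_one, cnt_one, cnt_one] at h1
    have h2 : ¬ x = pu := by
      rintro rfl
      rw [hx] at hpu
      exact hbP hpu
    have h3 : ¬ x = pv := by
      rintro rfl
      rw [hx] at hpv
      exact hbP hpv
    rw [if_neg h2, if_neg h3, add_zero, add_zero] at h1
    exact h1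
  · have key : ∀ j, j ≤ n → ∀ d e, M.fc d ∈ C 0 → M.fc e ∈ C j → κ d = κ e := by
      intro j
      induction j with
      | zero =>
        intro hj d e hd he
        exact hmono 0 hj d e hd he
      | succ j ih =>
        intro hj d e hd he
        obtain ⟨z, hzu, hzv, ⟨d', hd'z, hd'⟩, ⟨e', he'z, he'⟩⟩ := hsh j (by omega)
        have h1 := ih (by omega) d d' hd hd'
        have h2 := hmono (j + 1) hj e' e he' he
        obtain ⟨k, hk, hmin⟩ := reach (M := M) (hd'z.trans he'z.symm)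
        have h3 := k3 d' k hmin (fr_single hG b d')
          (fun h => Set.disjoint_left.1 (hCP j (by omega)) hd' h.1) (fr_single hG b _)
          (fun h => Set.disjoint_left.1 (hCP (j + 1) hj) (by rw [hk] at h; exact he') (by
            rw [hk] at h; exact h.1))
        rw [hk, cnt_off (by rw [hu, hd'z]; exact hzu.symm),
          cnt_off (by rw [hv, hd'z]; exact hzv.symm),
          cnt_off (by rw [hpuv, hd'z]; exact hzu.symm),
          cnt_off (by rw [hpvv, hd'z]; exact hzv.symm)] at h3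
        rw [h1, ← h2, h3]
        ring
    exact key n le_rfl

/-- the corner of `b` at a common vertex of two pieces with two common vertices -/
theorem share (hG : Good M) {b : F} {X Y : Set F} (hX : IsPc M b X) (hY : IsPc M b Y)
    (hXY : X ≠ Y) {u v : V} (huv : u ≠ v) (hu : u ∈ M.bd X) (hu' : u ∈ M.bd Y)
    (hv : v ∈ M.bd X) (hv' : v ∈ M.bd Y) {w : V} (hw : w ∈ M.bd X) (hw' : w ∈ M.bd Y) :
    ∃ β, M.vt β = w ∧ M.fc β = b ∧
      ((M.fc (M.σ β) ∈ X ∧ M.fc (M.σ⁻¹ β) ∈ Y) ∨ (M.fc (M.σ β) ∈ Y ∧ M.fc (M.σ⁻¹ β) ∈ X)) := by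
  rcases hX with ⟨x, hx, rfl⟩ | ⟨x, hx, rfl⟩
  · rcases hY with ⟨y, hy, rfl⟩ | ⟨y, hy, rfl⟩
    · exact absurd (up_share hG hx hy hXY hu hu' hv hv') huv
    · exact ud_share hG hx hy hw hw'
  · rcases hY with ⟨y, hy, rfl⟩ | ⟨y, hy, rfl⟩
    · obtain ⟨β, h1, h2, h3⟩ := ud_share hG hy hx hw' hw
      exact ⟨β, h1, h2, h3.symm⟩
    · exact absurd (dp_share hG hx hy hXY hu hu' hv hv') huv

theorem z1 {a b c d : ZMod 2} (h1 : a + b = c + d) (h2 : a = c) (h3 : b = d + 1) : False := by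
  revert a b c d
  decide

theorem z3 {a b c d : ZMod 2} (h1 : a + b = c + d) (h2 : b = d) (h3 : a = c + 1) : False := by
  revert a b c d
  decide

theorem z4 {a b : ZMod 2} (h : a = b + 1) : b = a + 1 := by
  revert a b
  decide

end LemRbAux

open LemRbAux

/-- In a chordless sequence `Q 0, ..., Q m` (`m ≥ 2`) of pieces of `b` in which consecutive ones
share a vertex different from `w0 = vt β` and others share no vertex except possibly `w0`, where
`fc (σ β) ∈ Q 0` and `fc (σ⁻¹ β) ∈ Q m`, consecutive ones share exactly one vertex.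
Proof: suppose `Q i`, `Q (i+1)` share `u ≠ v`.  If they have the same type use `up_share`/`dp_share`.
Otherwise `ud_share` gives corners `βu`, `βv` of `b` at `u`, `v` whose neighbours are in
`Q i` and `Q (i+1)`.  If `u = w0` then `βu = β` (`cu`), so `{Q i, Q (i+1)} = {Q 0, Q m}` (pieces
are disjoint), impossible for `m ≥ 2` because the `Q j` are different (`bd_two`).  So `u, v ≠ w0`.
Let `κ` be given by `kap2` with `A = {b}`, `a = βu`, `a' = βv`, `P = Q i`.  Every `Q j`, `j ≠ i`, has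
one colour (`mono`).  For `j ≥ i + 1`, `Q j` and `Q (j+1)` have the same colour (their common vertex
`z ≠ w0` is not `u` or `v`, because `Q (j+1)` and `Q i` share only `w0`; at `z` the counts in `kap2`
vanish).  So `κ (arc of b at u next to Q (i+1)) = κ (Q m) = κ β = κ (σ β)`, and
`κ (arc of b at u next to Q i) = κ β + 1`.
Let `κ'` be given by `kap2` with `A = {b}`, the same corners, `P = Q (i+1)`; in the same way
`κ' (arc of b at u next to Q i) = κ' (Q 0) = κ' (σ β)`.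
On corners `x` of `b`: `κ (σ x) = κ x + [x = βu] + [x = βv]` (`kap2` with `k = 1`), the same for `κ'`,
so `κ + κ'` is constant on the arcs of `b` (`x ↦ τ (σ x)` walks around `b`).  Contradiction. -/
theorem chain_one (hG : Good M) {β : D} {m : ℕ} (hm : 2 ≤ m) {Q : ℕ → Set F}
    (h1 : ∀ i, i ≤ m → IsPc M (M.fc β) (Q i)) (h2 : ∀ i, i < m → Q i ≠ Q (i + 1))
    (h3 : ∀ i j, i + 2 ≤ j → j ≤ m → ∀ w, w ∈ M.bd (Q i) → w ∈ M.bd (Q j) → w = M.vt β)
    (h4 : ∀ i, i < m → ∃ w, w ≠ M.vt β ∧ w ∈ M.bd (Q i) ∧ w ∈ M.bd (Q (i + 1)))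
    (h5 : M.fc (M.σ β) ∈ Q 0) (h6 : M.fc (M.σ⁻¹ β) ∈ Q m) {i : ℕ} (hi : i < m) {u v : V}
    (hu : u ∈ M.bd (Q i)) (hu' : u ∈ M.bd (Q (i + 1))) (hv : v ∈ M.bd (Q i))
    (hv' : v ∈ M.bd (Q (i + 1))) : u = v := by
  by_contra huv
  set b := M.fc β with hb
  set w0 := M.vt β with hw0
  -- the pieces are different
  have hne : ∀ i j, i < j → j ≤ m → Q i ≠ Q j := by
    intro i j hij hj
    rcases Nat.lt_or_ge (i + 1) j with h | h
    · intro he
      obtain ⟨w, hw, hw'⟩ := bd_two hG (pc_disc hG (h1 i (by omega))) w0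
      exact hw' (h3 i j h hj w hw (he ▸ hw))
    · have h' : j = i + 1 := by omega
      rw [h']
      exact h2 i (by omega)
  have hdis : ∀ i j, i ≤ m → j ≤ m → i ≠ j → Disjoint (Q i) (Q j) := by
    intro i j hi hj hij
    refine pc_disj hG (h1 i hi) (h1 j hj) ?_
    rcases Nat.lt_or_gt_of_ne hij with h | h
    · exact hne i j h hj
    · exact (hne j i h hi).symm
  have hidx : ∀ i j x, i ≤ m → j ≤ m → x ∈ Q i → x ∈ Q j → i = j := by
    intro i j x hi hj hx hx'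
    by_contra h
    exact Set.disjoint_left.1 (hdis i j hi hj h) hx hx'
  have hi1 : i ≤ m := by omega
  have hi2 : i + 1 ≤ m := by omega
  have hsh := fun {w : V} (hw : w ∈ M.bd (Q i)) (hw' : w ∈ M.bd (Q (i + 1))) =>
    share hG (h1 i hi1) (h1 (i + 1) hi2) (h2 i hi) huv hu hu' hv hv' hw hw'
  obtain ⟨βu, hβu, hβub, hun⟩ := hsh hu hu'
  obtain ⟨βv, hβv, hβvb, hvn⟩ := hsh hv hv'
  have hnw : ∀ (w : V) (β' : D), M.vt β' = w → M.fc β' = b →
      ((M.fc (M.σ β') ∈ Q i ∧ M.fc (M.σ⁻¹ β') ∈ Q (i + 1)) ∨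
        (M.fc (M.σ β') ∈ Q (i + 1) ∧ M.fc (M.σ⁻¹ β') ∈ Q i)) → w ≠ w0 := by
    intro w β' hw hβ' hn he
    have h7 : β' = β := cu hG hβ' (hw.trans he)
    subst h7
    rcases hn with ⟨h8, h9⟩ | ⟨h8, h9⟩
    · have e1 := hidx 0 i _ (by omega) hi1 h5 h8
      have e2 := hidx m (i + 1) _ le_rfl hi2 h6 h9
      omega
    · have e1 := hidx 0 (i + 1) _ (by omega) hi2 h5 h8
      omega
  have hu0 := hnw u βu hβu hβub hun
  have hv0 := hnw v βv hβv hβvb hvn
  have hβne : ∀ (w : V) (β' : D), M.vt β' = w → w ≠ w0 → ¬ β = β' := by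
    intro w β' h7 h8 h9
    apply h8
    rw [← h7, ← h9]
  -- the neighbours of `b` at `u` and `v`
  have hnb : ∀ β', M.vt (M.σ β') = M.vt β' ∧ M.vt (M.σ⁻¹ β') = M.vt β' := fun β' =>
    ⟨M.vt_sig β', M.vt_inv β'⟩
  have hpick : ∀ (w : V) (β' : D), M.vt β' = w →
      ((M.fc (M.σ β') ∈ Q i ∧ M.fc (M.σ⁻¹ β') ∈ Q (i + 1)) ∨
        (M.fc (M.σ β') ∈ Q (i + 1) ∧ M.fc (M.σ⁻¹ β') ∈ Q i)) →
      (∃ p, M.fc p ∈ Q i ∧ M.vt p = w) ∧ ∃ p, M.fc p ∈ Q (i + 1) ∧ M.vt p = w := by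
    intro w β' hw hn
    rcases hn with ⟨h8, h9⟩ | ⟨h8, h9⟩
    · exact ⟨⟨_, h8, (hnb β').1.trans hw⟩, ⟨_, h9, (hnb β').2.trans hw⟩⟩
    · exact ⟨⟨_, h9, (hnb β').2.trans hw⟩, ⟨_, h8, (hnb β').1.trans hw⟩⟩
  obtain ⟨⟨pu, hpu, hpuv⟩, ⟨pu', hpu', hpuv'⟩⟩ := hpick u βu hβu hun
  obtain ⟨⟨pv, hpv, hpvv⟩, ⟨pv', hpv', hpvv'⟩⟩ := hpick v βv hβv hvn
  -- the first colouring
  obtain ⟨κ, k1, k2, k3, k4⟩ := half hG (P := Q i) (pc_conn hG (h1 i hi1)) (b_notin hG (h1 i hi1))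
    hβu hβub hβv hβvb hpu hpuv hpv hpvv (n := m - (i + 1)) (C := fun j => Q (i + 1 + j))
    (fun j hj => pc_conn hG (h1 _ (by omega)))
    (fun j hj => hdis _ _ (by omega) hi1 (by omega))
    (fun j hj => b_notin hG (h1 _ (by omega)))
    (fun j hj => by
      obtain ⟨z, hz, hz1, hz2⟩ := h4 (i + 1 + j) (by omega)
      have hz2' : z ∈ M.bd (Q (i + 1 + (j + 1))) := hz2
      refine ⟨z, ?_, ?_, (PairsAux.bdAt hz1).1, (PairsAux.bdAt hz2').1⟩
      · rintro rfl
        exact hz (h3 i (i + 1 + (j + 1)) (by omega) (by omega) _ hu hz2')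
      · rintro rfl
        exact hz (h3 i (i + 1 + (j + 1)) (by omega) (by omega) _ hv hz2'))
  -- the second colouring
  obtain ⟨κ', l1, l2, l3, l4⟩ := half hG (P := Q (i + 1)) (pc_conn hG (h1 _ hi2))
    (b_notin hG (h1 _ hi2))
    hβu hβub hβv hβvb hpu' hpuv' hpv' hpvv' (n := i) (C := fun j => Q j)
    (fun j hj => pc_conn hG (h1 _ (by omega)))
    (fun j hj => hdis _ _ (by omega) hi2 (by omega))
    (fun j hj => b_notin hG (h1 _ (by omega)))
    (fun j hj => by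
      obtain ⟨z, hz, hz1, hz2⟩ := h4 j (by omega)
      refine ⟨z, ?_, ?_, (PairsAux.bdAt hz1).1, (PairsAux.bdAt hz2).1⟩
      · rintro rfl
        exact hz (h3 j (i + 1) (by omega) (by omega) _ hz1 hu')
      · rintro rfl
        exact hz (h3 j (i + 1) (by omega) (by omega) _ hz1 hv'))
  -- values at `β`
  have hmb : b ∉ Q m := b_notin hG (h1 m le_rfl)
  have h0b : b ∉ Q 0 := b_notin hG (h1 0 (by omega))
  have hβκ : κ β = κ (M.σ⁻¹ β) := by
    have h7 := k2 (M.σ⁻¹ β) (fun h => hmb (h ▸ h6))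
      (fun h => by
        have := hidx m i _ le_rfl hi1 h6 h
        omega)
    rwa [perm_ai] at h7
  have hβκ' : κ' (M.σ β) = κ' β := by
    rw [l3 β rfl, if_neg (hβne u βu hβu hu0), if_neg (hβne v βv hβv hv0), add_zero, add_zero]
  have hm1 : M.fc (M.σ⁻¹ β) ∈ (fun j => Q (i + 1 + j)) (m - (i + 1)) := by
    change M.fc (M.σ⁻¹ β) ∈ Q (i + 1 + (m - (i + 1)))
    have e : i + 1 + (m - (i + 1)) = m := by omega
    rw [e]
    exact h6
  have hκ1 : ∀ d, M.fc d ∈ Q (i + 1) → κ d = κ β := by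
    intro d hd
    rw [hβκ]
    exact k4 d _ hd hm1
  have hκ2 : ∀ d, M.fc d ∈ Q i → κ' d = κ' β := by
    intro d hd
    rw [← hβκ']
    exact (l4 _ d h5 hd).symm
  -- the sum is constant on the arcs of `b`
  have hconst : κ βu + κ' βu = κ β + κ' β := by
    obtain ⟨n, hn⟩ := ((M.fs β βu).mp hβub.symm).exists_nat_pow_eq
    have key : ∀ n : ℕ, M.fc (((M.τ * M.σ) ^ n) β) = b ∧
        κ (((M.τ * M.σ) ^ n) β) + κ' (((M.τ * M.σ) ^ n) β) = κ β + κ' β := by
      intro n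
      induction n with
      | zero => exact ⟨rfl, rfl⟩
      | succ n ih =>
        obtain ⟨i1, i2⟩ := ih
        rw [pow_succ', Equiv.Perm.mul_apply, Equiv.Perm.mul_apply]
        refine ⟨by rw [M.fc_phi]; exact i1, ?_⟩
        rw [k1, l1, k3 _ i1, l3 _ i1, ← i2]
        have e : ∀ a b c : ZMod 2, (a + c) + (b + c) = a + b := by decide
        exact e _ _ _
    have h7 := (key n).2
    rw [hn] at h7
    exact h7
  have huv' : ¬ βu = βv := by
    intro h7
    apply huv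
    rw [← hβu, h7, hβv]
  have hκs : κ (M.σ βu) = κ βu + 1 := by
    rw [k3 βu hβub, if_pos rfl, if_neg huv', add_zero]
  have hκs' : κ' (M.σ βu) = κ' βu + 1 := by
    rw [l3 βu hβub, if_pos rfl, if_neg huv', add_zero]
  have hκinv : ∀ d, M.fc d ∈ Q (i + 1) → κ (M.σ d) = κ d := by
    intro d hd
    exact k2 d (fun h => b_notin hG (h1 _ hi2) (h ▸ hd)) (fun h => by
      have := hidx (i + 1) i _ hi2 hi1 hd h
      omega)
  have hκinv' : ∀ d, M.fc d ∈ Q i → κ' (M.σ d) = κ' d := by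
    intro d hd
    exact l2 d (fun h => b_notin hG (h1 _ hi1) (h ▸ hd)) (fun h => by
      have := hidx i (i + 1) _ hi1 hi2 hd h
      omega)
  rcases hun with ⟨h8, h9⟩ | ⟨h8, h9⟩
  · -- `σ βu` next to `Q i`, `βu` next to `Q (i+1)`
    have e1 : κ βu = κ β := by
      have h10 := hκinv _ h9
      rw [perm_ai] at h10
      rw [h10]
      exact hκ1 _ h9
    have e2 : κ' (M.σ βu) = κ' β := hκ2 _ h8
    rw [e2] at hκs'
    exact z1 hconst e1 (z4 hκs')
  · have e1 : κ' βu = κ' β := by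
      have h10 := hκinv' _ h9
      rw [perm_ai] at h10
      rw [h10]
      exact hκ2 _ h9
    have e2 : κ (M.σ βu) = κ β := hκ1 _ h8
    rw [e2] at hκs
    exact z3 hconst e1 (z4 hκs)

end Pool.Agent.Lib.PLQ
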