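import Mathlib
import Pool.Agent.Lib.PLQ.Basic

set_option autoImplicit false
set_option linter.unusedSectionVars false
set_option linter.unusedVariables false

/-! Module RingF: an exact ring from a finite family of circuits.

(`[Nonempty V]` is needed: for `V` empty, `Q = {i}` and `C i = ∅` satisfy all hypotheses.) -/

namespace Pool.Agent.Lib.PLQ

open Finset Pool.Agent.Lib.NK
open scoped Classical

namespace RingFAux

/-- chain of the members `B a, ..., B (b-1)` of a walk -/
theorem chain {V : Type} {R : V → V → Prop} (B : ℕ → Finset V) (w : ℕ → V) (b : ℕ) :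
    ∀ (n a : ℕ), a + n = b →
    (∀ p, a ≤ p → p < b → Link R (B p) (w p) (w (p + 1))) →
    (∀ p, a ≤ p → p + 1 < b → ∀ x ∈ B p, x ∈ B (p + 1) → x = w (p + 1)) →
    (∀ p q, a ≤ p → p + 2 ≤ q → q < b → ∀ x ∈ B p, x ∉ B q) →
    ∃ S, Ch R n (w a) (w b) S ∧ ∀ x ∈ S, x = w b ∨ ∃ q, a ≤ q ∧ q < b ∧ x ∈ B q := by
  intro n
  induction n with
  | zero =>
    intro a hab _ _ _
    have : a = b := by omega
    subst this
    exact ⟨{w a}, Ch.nil _, fun x hx => Or.inl (mem_singleton.mp hx)⟩
  | succ n ih =>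
    intro a hab h1 h2 h3
    obtain ⟨S, hS, hS'⟩ := ih (a + 1) (by omega) (fun p hp hp' => h1 p (by omega) hp')
      (fun p hp hp' => h2 p (by omega) hp') (fun p q hp hpq hq => h3 p q (by omega) hpq hq)
    refine ⟨B a ∪ S, Ch.cons (h1 a le_rfl (by omega)) hS ?_, ?_⟩
    · intro x hx hxS
      rcases hS' x hxS with h | ⟨q, hq, hqb, hxq⟩
      · -- `x` is the last vertex
        by_cases hn : n = 0
        · have : a + 1 = b := by omega
          rw [h, this]
        · -- it lies on the last member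
          have hl : w b ∈ B (b - 1) := by
            have := (h1 (b - 1) (by omega) (by omega)).right
            rwa [show b - 1 + 1 = b by omega] at this
          by_cases hq : a + 1 = b - 1
          · exact h2 a le_rfl (by omega) x hx (by rw [hq, h]; exact hl)
          · exact absurd (h ▸ hl) (h3 a (b - 1) le_rfl (by omega) (by omega) x hx)
      · by_cases hqa : q = a + 1
        · subst hqa
          exact h2 a le_rfl (by omega) x hx hxq
        · exact absurd hxq (h3 a q le_rfl (by omega) hqb x hx)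
    · intro x hx
      rcases mem_union.mp hx with h | h
      · exact Or.inr ⟨a, le_rfl, by omega, h⟩
      · rcases hS' x h with h | ⟨q, hq, hqb, hxq⟩
        · exact Or.inl h
        · exact Or.inr ⟨q, by omega, hqb, hxq⟩

end RingFAux

/-- A finite nonempty family of circuits, any two of which share at most one vertex, such that every
member `C i` has, for every vertex `v`, a vertex `w ≠ v` on another member, contains a closed chain.
Proof: walk on without turning back; take `d ≥ 2` least such that two members at distance `d` of the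
walk meet. -/
theorem ring_family {V : Type} [Fintype V] [Nonempty V] {R : V → V → Prop} {ι : Type} (Q : Finset ι)
    (C : ι → Finset V) (hC : ∀ i ∈ Q, Circ R (C i)) (hne : Q.Nonempty)
    (h1 : ∀ i ∈ Q, ∀ j ∈ Q, i ≠ j → ∀ x y, x ∈ C i → x ∈ C j → y ∈ C i → y ∈ C j → x = y)
    (h2 : ∀ i ∈ Q, ∀ v : V, ∃ w ∈ C i, w ≠ v ∧ ∃ j ∈ Q, j ≠ i ∧ w ∈ C j) : Neck R := by
  -- one step of the walk
  have step : ∀ s : {p : V × ι // p.2 ∈ Q}, ∃ t : {p : V × ι // p.2 ∈ Q},
      t.1.1 ∈ C s.1.2 ∧ t.1.1 ∈ C t.1.2 ∧ t.1.1 ≠ s.1.1 ∧ t.1.2 ≠ s.1.2 := by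
    rintro ⟨⟨v, i⟩, hi⟩
    obtain ⟨w, hw, hwv, j, hj, hji, hwj⟩ := h2 i hi v
    exact ⟨⟨⟨w, j⟩, hj⟩, hw, hwj, hwv, hji⟩
  choose nx hnx using step
  obtain ⟨i0, hi0⟩ := hne
  obtain ⟨v0⟩ := ‹Nonempty V›
  obtain ⟨s, hs⟩ : ∃ s : ℕ → {p : V × ι // p.2 ∈ Q}, ∀ n, s (n + 1) = nx (s n) :=
    ⟨fun n => nx^[n] ⟨⟨v0, i0⟩, hi0⟩, fun n => Function.iterate_succ_apply' nx n _⟩
  -- members `f n`, vertices `w n` between `f (n-1)` and `f n`
  obtain ⟨f, hf⟩ : ∃ f : ℕ → ι, ∀ n, f n = (s n).1.2 := ⟨_, fun _ => rfl⟩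
  obtain ⟨w, hw⟩ : ∃ w : ℕ → V, ∀ n, w n = (s n).1.1 := ⟨_, fun _ => rfl⟩
  have hfQ : ∀ n, f n ∈ Q := fun n => by rw [hf]; exact (s n).2
  have hwl : ∀ n, w (n + 1) ∈ C (f n) := fun n => by rw [hf, hw, hs]; exact (hnx (s n)).1
  have hwr : ∀ n, w (n + 1) ∈ C (f (n + 1)) := fun n => by rw [hf, hw, hs]; exact (hnx (s n)).2.1
  have hww : ∀ n, w (n + 1) ≠ w n := fun n => by rw [hw, hw, hs]; exact (hnx (s n)).2.2.1
  have hff : ∀ n, f (n + 1) ≠ f n := fun n => by rw [hf, hf, hs]; exact (hnx (s n)).2.2.2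
  -- two members at distance `d ≥ 2` which meet
  have hex : ∃ d, 2 ≤ d ∧ ∃ a x, x ∈ C (f a) ∧ x ∈ C (f (a + d)) := by
    have : ∃ a b, a < b ∧ f a = f b := by
      by_contra hcon
      push Not at hcon
      have hinj : Function.Injective fun n : ℕ => (⟨f n, hfQ n⟩ : Q) := by
        intro a b hab
        have hab' : f a = f b := congrArg Subtype.val hab
        rcases lt_trichotomy a b with h | h | h
        · exact absurd hab' (hcon a b h)
        · exact h
        · exact absurd hab'.symm (hcon b a h)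
      exact not_injective_infinite_finite _ hinj
    obtain ⟨a, b, hab, hfab⟩ := this
    refine ⟨b - a, ?_, a, w (a + 1), hwl a, ?_⟩
    · by_contra hcon
      have : b = a + 1 := by omega
      subst this
      exact hff a hfab.symm
    · rw [show a + (b - a) = b by omega, ← hfab]
      exact hwl a
  obtain ⟨d, ⟨hd2, a, x, hxa, hxd⟩, hmin⟩ : ∃ d, (2 ≤ d ∧ ∃ a x, x ∈ C (f a) ∧ x ∈ C (f (a + d))) ∧
      ∀ e, 2 ≤ e → e < d → ∀ a x, x ∈ C (f a) → x ∉ C (f (a + e)) := by
    refine ⟨Nat.find hex, Nat.find_spec hex, ?_⟩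
    intro e he hed a x hx hx'
    exact Nat.find_min hex hed ⟨he, a, x, hx, hx'⟩
  have dis : ∀ p q, p + 2 ≤ q → q < p + d → ∀ x ∈ C (f p), x ∉ C (f q) := by
    intro p q hpq hqd x hx
    have := hmin (q - p) (by omega) (by omega) p x hx
    rwa [show p + (q - p) = q by omega] at this
  have con : ∀ n x, x ∈ C (f n) → x ∈ C (f (n + 1)) → x = w (n + 1) := fun n x hx hx' =>
    h1 _ (hfQ n) _ (hfQ (n + 1)) (hff n).symm x _ hx hx' (hwl n) (hwr n)
  have hfad : f a ≠ f (a + d) := by
    intro h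
    by_cases hd : d = 2
    · subst hd
      -- both `w (a+1)`, `w (a+2)` lie on `f a`, `f (a+1)`
      refine hww (a + 1) (h1 _ (hfQ a) _ (hfQ (a + 1)) (hff a).symm _ _ ?_ (hwl (a + 1)) (hwl a) (hwr a))
      rw [h]
      exact hwr (a + 1)
    · refine dis (a + 1) (a + d) (by omega) (by omega) (w (a + 1)) (hwr a) ?_
      rw [← h]
      exact hwl a
  have hx1 : x ≠ w (a + 1) := by
    intro h
    by_cases hd : d = 2
    · subst hd
      exact hww (a + 1) ((con (a + 1) x (h ▸ hwr a) hxd).symm.trans h)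
    · exact dis (a + 1) (a + d) (by omega) (by omega) x (h ▸ hwr a) hxd
  have hx2 : x ≠ w (a + d) := by
    intro h
    have h3 : w (a + d) ∈ C (f (a + d - 1)) := by
      have := hwl (a + d - 1)
      rwa [show a + d - 1 + 1 = a + d by omega] at this
    by_cases hd : d = 2
    · subst hd
      have h4 := con a x hxa (h ▸ h3)
      exact hww (a + 1) (h.symm.trans h4)
    · exact dis a (a + d - 1) (by omega) (by omega) x hxa (h ▸ h3)
  -- the vertices of the chain: `w (a+1), ..., w (a+d), x`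
  obtain ⟨S, hS, hS'⟩ := RingFAux.chain (R := R) (fun p => C (f p))
    (fun p => if p = a + d + 1 then x else w p) (a + d + 1) d (a + 1) (by omega)
    (by
      intro p hp hp'
      have e1 : p ≠ a + d + 1 := by omega
      obtain ⟨p', rfl⟩ : ∃ p', p = p' + 1 := ⟨p - 1, by omega⟩
      simp only [if_neg e1]
      by_cases hl : p' + 1 + 1 = a + d + 1
      · rw [if_pos hl]
        have hl' : p' + 1 = a + d := by omega
        rw [hl']
        refine hC _ (hfQ _) _ ?_ _ hxd hx2.symm
        rw [← hl']; exact hwr p'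
      · rw [if_neg hl]
        exact hC _ (hfQ _) _ (hwr p') _ (hwl (p' + 1)) (hww (p' + 1)).symm)
    (by
      intro p hp hp' y hy hy'
      rw [if_neg (by omega)]
      exact con p y hy hy')
    (by
      intro p q hp hpq hq y hy
      exact dis p q hpq (by omega) y hy)
  refine ⟨d, _, _, S, C (f a), hd2, hS, ?_, ?_⟩
  · rw [if_pos rfl, if_neg (by omega)]
    exact hC _ (hfQ a) _ hxa _ (hwl a) hx1
  · intro y hyS hya
    rw [if_pos rfl, if_neg (by omega)]
    rcases hS' y hyS with h | ⟨q, hq, hqb, hyq⟩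
    · right
      rw [if_pos rfl] at h
      exact h
    · by_cases hq1 : q = a + 1
      · left
        subst hq1
        exact con a y hya hyq
      · by_cases hq2 : q = a + d
        · right
          subst hq2
          exact h1 _ (hfQ a) _ (hfQ (a + d)) hfad y x hya hyq hxa hxd
        · exact absurd hyq (dis a q (by omega) (by omega) y hya)

end Pool.Agent.Lib.PLQ
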