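import Mathlib
import Pool.Agent.Lib.PLQ.LemRb
import Pool.Agent.Lib.PLQ.RingF

set_option autoImplicit false
set_option linter.unusedSectionVars false
set_option linter.unusedVariables false

/-! Module LemR: the two pieces of a face at a corner coincide or share a second vertex (`PC` in Defs). -/

namespace Pool.Agent.Lib.PLQ

open Finset Pool.Agent.Lib.NK
open scoped Classical

variable {V D F : Type} [Fintype V] [Fintype D] [Fintype F] {M : PM V D F}

namespace LemRAux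

theorem pc_of_adj (hG : Good M) {b x : F} (h : M.adj b x) :
    IsPc M b (PC M b x) ∧ x ∈ PC M b x := by
  have hne : x ≠ b := (adj_ne hG h).symm
  by_cases hle : M.le b x
  · have hx : x ∉ Phi M b := phi_above hle hne
    unfold PC
    rw [if_pos hle]
    exact ⟨Or.inl ⟨x, hx, rfl⟩, up_self b x⟩
  · have hle' : M.le x b := by
      rcases h with h | h
      · exact absurd (M.up_le h) hle
      · exact M.up_le h
    have hx : x ∉ Phi M.rev b := phi_below hle' hne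
    unfold PC
    rw [if_neg hle]
    exact ⟨Or.inr ⟨x, hx, rfl⟩, up_self (M := M.rev) b x⟩

theorem mem_bd {X : Set F} {v : V} (h1 : M.At X v) (h2 : M.At Xᶜ v) : v ∈ M.bd X := by
  unfold PM.bd
  exact mem_filter.2 ⟨mem_univ v, h1, h2⟩

/-- the piece across the dart `σ d` -/
theorem nxt (hG : Good M) {b : F} {d : D} (hd : M.fc d = b) :
    IsPc M b (PC M b (M.fc (M.σ d))) ∧ M.fc (M.σ d) ∈ PC M b (M.fc (M.σ d)) ∧
      M.vt d ∈ M.bd (PC M b (M.fc (M.σ d))) := by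
  have h1 : M.adj b (M.fc (M.σ d)) := by rw [← hd]; exact M.adj_sig d
  obtain ⟨h2, h3⟩ := pc_of_adj hG h1
  refine ⟨h2, h3, mem_bd ⟨M.σ d, M.vt_sig d, h3⟩ ⟨d, rfl, ?_⟩⟩
  change M.fc d ∉ _
  rw [hd]
  exact LemRbAux.b_notin hG h2

/-- the piece across the dart `d` -/
theorem prv (hG : Good M) {b : F} {d : D} (hd : M.fc d = b) :
    IsPc M b (PC M b (M.fc (M.σ⁻¹ d))) ∧ M.fc (M.σ⁻¹ d) ∈ PC M b (M.fc (M.σ⁻¹ d)) ∧
      M.vt d ∈ M.bd (PC M b (M.fc (M.σ⁻¹ d))) := by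
  have h1 : M.adj b (M.fc (M.σ⁻¹ d)) := by rw [← hd]; exact M.adj_symm (M.adj_dart d)
  obtain ⟨h2, h3⟩ := pc_of_adj hG h1
  refine ⟨h2, h3, mem_bd ⟨M.σ⁻¹ d, M.vt_inv d, h3⟩ ⟨d, rfl, ?_⟩⟩
  change M.fc d ∉ _
  rw [hd]
  exact LemRbAux.b_notin hG h2

/-- sequences of pieces from `A` to `B`, consecutive ones sharing a vertex different from `w0` -/
def Sq (M : PM V D F) (b : F) (w0 : V) (A B : Set F) (m : ℕ) (Q : ℕ → Set F) : Prop :=
  Q 0 = A ∧ Q m = B ∧ (∀ i, i ≤ m → IsPc M b (Q i)) ∧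
    ∀ i, i < m → ∃ w, w ≠ w0 ∧ w ∈ M.bd (Q i) ∧ w ∈ M.bd (Q (i + 1))

/-- shortcut -/
theorem cut {b : F} {w0 : V} {A B : Set F} {m : ℕ} {Q : ℕ → Set F} (h : Sq M b w0 A B m Q)
    {i j : ℕ} (hij : i + 2 ≤ j) (hj : j ≤ m)
    (hw : ∃ w, w ≠ w0 ∧ w ∈ M.bd (Q i) ∧ w ∈ M.bd (Q j)) :
    ∃ m' Q', m' < m ∧ Sq M b w0 A B m' Q' := by
  obtain ⟨h1, h2, h3, h4⟩ := h
  obtain ⟨s, hs⟩ : ∃ s, j = i + 1 + s := ⟨j - i - 1, by omega⟩
  refine ⟨m - s, fun k => if k ≤ i then Q k else Q (k + s), by omega, ?_, ?_, ?_, ?_⟩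
  · dsimp only
    rw [if_pos (Nat.zero_le i)]
    exact h1
  · dsimp only
    rw [if_neg (by omega), show m - s + s = m by omega]
    exact h2
  · intro k hk
    dsimp only
    split_ifs with h
    · exact h3 k (by omega)
    · exact h3 _ (by omega)
  · intro k hk
    dsimp only
    by_cases hk1 : k + 1 ≤ i
    · rw [if_pos (by omega), if_pos hk1]
      exact h4 k (by omega)
    · by_cases hk2 : k = i
      · subst hk2
        rw [if_pos le_rfl, if_neg (by omega), ← hs]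
        exact hw
      · rw [if_neg (by omega), if_neg (by omega)]
        have := h4 (k + s) (by omega)
        rwa [show k + s + 1 = k + 1 + s by omega] at this

theorem ex_sq (hG : Good M) (β : D) :
    ∃ m Q, Sq M (M.fc β) (M.vt β) (PC M (M.fc β) (M.fc (M.σ β)))
      (PC M (M.fc β) (M.fc (M.σ⁻¹ β))) m Q := by
  have hper : ∃ n : ℕ, 0 < n ∧ ((M.τ * M.σ) ^ n) β = β := by
    obtain ⟨n, hn, hn'⟩ := (isOfFinOrder_of_finite (M.τ * M.σ)).exists_pow_eq_one
    exact ⟨n, hn, by rw [hn']; rfl⟩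
  obtain ⟨hn, hn'⟩ := Nat.find_spec hper
  have hmin : ∀ i, i < Nat.find hper → 0 < i → ((M.τ * M.σ) ^ i) β ≠ β :=
    fun i hi hi0 h => Nat.find_min hper hi ⟨hi0, h⟩
  generalize Nat.find hper = n at hn hn' hmin
  have hfc : ∀ i : ℕ, M.fc (((M.τ * M.σ) ^ i) β) = M.fc β := by
    intro i
    induction i with
    | zero => rfl
    | succ i ih =>
      rw [pow_succ', Equiv.Perm.mul_apply, Equiv.Perm.mul_apply, M.fc_phi]
      exact ih
  have hst : ∀ i : ℕ, M.fc (M.σ⁻¹ (((M.τ * M.σ) ^ (i + 1)) β)) =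
      M.fc (M.σ (((M.τ * M.σ) ^ i) β)) := by
    intro i
    rw [pow_succ', Equiv.Perm.mul_apply, Equiv.Perm.mul_apply, M.fc_ti]
  refine ⟨n - 1, fun i => PC M (M.fc β) (M.fc (M.σ (((M.τ * M.σ) ^ i) β))), rfl, ?_, ?_, ?_⟩
  · dsimp only
    rw [← hst (n - 1), show n - 1 + 1 = n by omega, hn']
  · intro i _
    exact (nxt hG (hfc i)).1
  · intro i hi
    refine ⟨M.vt (((M.τ * M.σ) ^ (i + 1)) β), ?_, ?_, ?_⟩
    · intro h
      exact hmin (i + 1) (by omega) (by omega) (cu hG (hfc (i + 1)) h)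
    · have := (prv hG (hfc (i + 1))).2.2
      rw [hst i] at this
      exact this
    · exact (nxt hG (hfc (i + 1))).2.2

end LemRAux

open LemRAux

/-- Proof.  Let `b = fc β`, `w0 = vt β`.  Suppose the two (different) pieces share no vertex except
`w0`.  Walk around `b`: corners `β_i = (τσ)^i β`; the neighbour across the arc `σ β_i` is
`fc (σ β_i)` (it equals `fc (σ⁻¹ β_(i+1))`), in the piece `Q(i) = PC b (fc (σ β_i))`,
`i = 0, ..., n-1`, `n` the period; `Q(i)` and `Q(i+1)` share the vertex `vt β_(i+1) ≠ w0` (by `cu`),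
`Q(n-1)` is the piece of `fc (σ⁻¹ β)`.  Take a shortest sequence `Q_0 = Q(0), ..., Q_m = Q(n-1)` of
pieces of `b` in which consecutive ones are different and share a vertex `≠ w0`; `m ≥ 2`.
Then `Q_i`, `Q_j` share no vertex `≠ w0` for `j ≥ i + 2`; by `chain_one` consecutive ones share
exactly one vertex.  `Q_0` and `Q_m` share `w0`.  So `ring_family` (index set `range (m+1)`) gives
`Neck`, contradicting `hG.nr`.  (The two vertices which `Q_i` shares with its neighbours are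
different; for `i = 0` and `i = m` use `w0` as one of them.) -/
theorem lemR (hG : Good M) (β : D)
    (h : PC M (M.fc β) (M.fc (M.σ β)) ≠ PC M (M.fc β) (M.fc (M.σ⁻¹ β))) :
    ∃ w, w ≠ M.vt β ∧ w ∈ M.bd (PC M (M.fc β) (M.fc (M.σ β))) ∧
      w ∈ M.bd (PC M (M.fc β) (M.fc (M.σ⁻¹ β))) := by
  by_contra hcon
  have hex := ex_sq hG β
  obtain ⟨Q, hQ⟩ := Nat.find_spec hex
  have hmin : ∀ m' Q', m' < Nat.find hex → ¬ Sq M (M.fc β) (M.vt β)
      (PC M (M.fc β) (M.fc (M.σ β))) (PC M (M.fc β) (M.fc (M.σ⁻¹ β))) m' Q' :=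
    fun m' Q' hm' hs => Nat.find_min hex hm' ⟨Q', hs⟩
  generalize Nat.find hex = m at hQ hmin
  have hfar : ∀ i j, i + 2 ≤ j → j ≤ m → ∀ w, w ∈ M.bd (Q i) → w ∈ M.bd (Q j) → w = M.vt β := by
    intro i j hij hj w hw hw'
    by_contra hne
    obtain ⟨m', Q', hm', hs⟩ := cut hQ hij hj ⟨w, hne, hw, hw'⟩
    exact hmin m' Q' hm' hs
  obtain ⟨q0, qm, hpc, hst⟩ := hQ
  have hm : 2 ≤ m := by
    by_contra hm
    rcases Nat.lt_or_ge m 1 with h1 | h1
    · have h2 : m = 0 := by omega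
      subst h2
      exact h (q0.symm.trans qm)
    · have h2 : m = 1 := by omega
      subst h2
      obtain ⟨w, h3, h4, h5⟩ := hst 0 (by omega)
      rw [q0] at h4
      rw [show 0 + 1 = 1 from rfl, qm] at h5
      exact hcon ⟨w, h3, h4, h5⟩
  have hne : ∀ i, i < m → Q i ≠ Q (i + 1) := by
    intro i hi he
    by_cases h1 : i + 1 < m
    · obtain ⟨w, h3, h4, h5⟩ := hst (i + 1) h1
      rw [← he] at h4
      exact h3 (hfar i (i + 1 + 1) (by omega) (by omega) w h4 h5)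
    · obtain ⟨k, rfl⟩ : ∃ k, i = k + 1 := ⟨i - 1, by omega⟩
      obtain ⟨w, h3, h4, h5⟩ := hst k (by omega)
      rw [he] at h5
      exact h3 (hfar k (k + 1 + 1) (by omega) (by omega) w h4 h5)
  have hA := nxt hG (b := M.fc β) (d := β) rfl
  have hB := prv hG (b := M.fc β) (d := β) rfl
  rw [← q0] at hA
  rw [← qm] at hB
  have hone := fun {i : ℕ} (hi : i < m) {u v : V} => chain_one hG (β := β) hm hpc hne hfar hst
    hA.2.1 hB.2.1 (i := i) hi (u := u) (v := v)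
  -- two members
  have htwo : ∀ i j, i < j → j ≤ m → ∀ x y, x ∈ M.bd (Q i) → x ∈ M.bd (Q j) → y ∈ M.bd (Q i) →
      y ∈ M.bd (Q j) → x = y := by
    intro i j hij hj x y h1 h2 h3 h4
    by_cases h5 : j = i + 1
    · subst h5
      exact hone (by omega) h1 h2 h3 h4
    · rw [hfar i j (by omega) hj x h1 h2, hfar i j (by omega) hj y h3 h4]
  have : Nonempty V := ⟨M.vt β⟩
  refine hG.nr (ring_family (R := M.R) (range (m + 1)) (fun i => M.bd (Q i)) ?_ ?_ ?_ ?_)
  · intro i hi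
    exact disc_circ hG (pc_disc hG (hpc i (by have := mem_range.1 hi; omega)))
  · exact ⟨0, mem_range.2 (by omega)⟩
  · intro i hi j hj hij x y h1 h2 h3 h4
    have hi' := mem_range.1 hi
    have hj' := mem_range.1 hj
    rcases Nat.lt_or_gt_of_ne hij with h5 | h5
    · exact htwo i j h5 (by omega) x y h1 h2 h3 h4
    · exact htwo j i h5 (by omega) x y h2 h1 h4 h3
  · intro i hi v
    have hi' := mem_range.1 hi
    -- two different vertices on other members are enough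
    have key : ∀ x y, x ≠ y → x ∈ M.bd (Q i) → y ∈ M.bd (Q i) →
        (∃ j ∈ range (m + 1), j ≠ i ∧ x ∈ M.bd (Q j)) →
        (∃ j ∈ range (m + 1), j ≠ i ∧ y ∈ M.bd (Q j)) →
        ∃ w ∈ M.bd (Q i), w ≠ v ∧ ∃ j ∈ range (m + 1), j ≠ i ∧ w ∈ M.bd (Q j) := by
      intro x y hxy hx hy hx' hy'
      by_cases hv : x = v
      · exact ⟨y, hy, fun h => hxy (hv.trans h.symm), hy'⟩
      · exact ⟨x, hx, hv, hx'⟩
    by_cases h0 : i = 0
    · subst h0
      obtain ⟨w, h3, h4, h5⟩ := hst 0 (by omega)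
      exact key (M.vt β) w h3.symm hA.2.2 h4 ⟨m, mem_range.2 (by omega), by omega, hB.2.2⟩
        ⟨0 + 1, mem_range.2 (by omega), by omega, h5⟩
    · obtain ⟨k, rfl⟩ : ∃ k, i = k + 1 := ⟨i - 1, by omega⟩
      obtain ⟨w, h3, h4, h5⟩ := hst k (by omega)
      by_cases hl : k + 1 = m
      · rw [hl] at h5
        rw [hl] at key ⊢
        exact key (M.vt β) w h3.symm hB.2.2 h5 ⟨0, mem_range.2 (by omega), by omega, hA.2.2⟩
          ⟨k, mem_range.2 (by omega), by omega, h4⟩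
      · obtain ⟨z, h6, h7, h8⟩ := hst (k + 1) (by omega)
        refine key w z ?_ h5 h7 ⟨k, mem_range.2 (by omega), by omega, h4⟩
          ⟨k + 1 + 1, mem_range.2 (by omega), by omega, h8⟩
        rintro rfl
        exact h3 (hfar k (k + 1 + 1) (by omega) (by omega) w h4 h8)

end Pool.Agent.Lib.PLQ
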