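import Mathlib
import Pool.Agent.Lib.PLQ.LemR

set_option autoImplicit false
set_option linter.unusedSectionVars false
set_option linter.unusedVariables false

/-! Module LemR2: consequences of Lemma R (`R1`: if the two up-pieces were different they would share a second vertex, contradicting `up_share`; both are at `vt β`). -/

namespace Pool.Agent.Lib.PLQ

open Finset Pool.Agent.Lib.NK
open scoped Classical

variable {V D F : Type} [Fintype V] [Fintype D] [Fintype F] {M : PM V D F}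

namespace LemR2Aux

theorem up_sig {β : D} (h : M.out (M.σ β) = true) : M.up (M.fc β) (M.fc (M.σ β)) := by
  have h1 := M.up_out h
  rwa [perm_ia] at h1

theorem mem_bd' {X : Set F} {v : V} {d e : D} (hd : M.vt d = v) (he : M.vt e = v)
    (hdX : M.fc d ∈ X) (heX : M.fc e ∉ X) : v ∈ M.bd X :=
  mem_filter.2 ⟨mem_univ v, ⟨d, hd, hdX⟩, ⟨e, he, heX⟩⟩

end LemR2Aux

open LemR2Aux

theorem R1 (hG : Good M) {β : D} (h : M.lmin β) :
    M.fc (M.σ⁻¹ β) ∈ UP M (M.fc β) (M.fc (M.σ β)) := by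
  obtain ⟨h1, h2⟩ := h
  have hx := up_sig h2
  have hy := M.up_in h1
  have hxp : M.fc (M.σ β) ∉ Phi M (M.fc β) := phi_above (M.up_le hx) (up_ne hG hx).symm
  have hyp : M.fc (M.σ⁻¹ β) ∉ Phi M (M.fc β) := phi_above (M.up_le hy) (up_ne hG hy).symm
  by_contra hcon
  have hne : UP M (M.fc β) (M.fc (M.σ β)) ≠ UP M (M.fc β) (M.fc (M.σ⁻¹ β)) := by
    intro he
    apply hcon
    rw [he]
    exact up_self _ _
  have e1 : PC M (M.fc β) (M.fc (M.σ β)) = UP M (M.fc β) (M.fc (M.σ β)) :=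
    if_pos (M.up_le hx)
  have e2 : PC M (M.fc β) (M.fc (M.σ⁻¹ β)) = UP M (M.fc β) (M.fc (M.σ⁻¹ β)) :=
    if_pos (M.up_le hy)
  obtain ⟨w, hw, hw1, hw2⟩ := lemR hG β (by rw [e1, e2]; exact hne)
  rw [e1] at hw1
  rw [e2] at hw2
  have hb1 : M.vt β ∈ M.bd (UP M (M.fc β) (M.fc (M.σ β))) :=
    mem_bd' (d := M.σ β) (e := β) (M.vt_sig β) rfl (up_self _ _)
      (fun h3 => up_sub_phi hxp h3 (b_phi _))
  have hb2 : M.vt β ∈ M.bd (UP M (M.fc β) (M.fc (M.σ⁻¹ β))) :=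
    mem_bd' (d := M.σ⁻¹ β) (e := β) (M.vt_inv β) rfl (up_self _ _)
      (fun h3 => up_sub_phi hyp h3 (b_phi _))
  exact hw (up_share hG hxp hyp hne hw1 hw2 hb1 hb2)

theorem R1d (hG : Good M) {β : D} (h : M.lmax β) :
    M.fc (M.σ⁻¹ β) ∈ DP M (M.fc β) (M.fc (M.σ β)) := by
  refine R1 (M := M.rev) hG.rev ⟨?_, ?_⟩
  · show (!M.out β) = false
    rw [h.1]
    rfl
  · show (!M.out (M.σ β)) = true
    rw [h.2]
    rfl

/-- transit corner, `b` below `σ β` and above `σ⁻¹ β` -/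
theorem R2 (hG : Good M) {β : D} (h : M.out β = true) (h' : M.out (M.σ β) = true) :
    ∃ w, w ≠ M.vt β ∧ w ∈ M.bd (UP M (M.fc β) (M.fc (M.σ β))) ∧
      w ∈ M.bd (DP M (M.fc β) (M.fc (M.σ⁻¹ β))) := by
  have hx := up_sig h'
  have hy := M.up_out h
  have hxp : M.fc (M.σ β) ∉ Phi M (M.fc β) := phi_above (M.up_le hx) (up_ne hG hx).symm
  have hyp : M.fc (M.σ⁻¹ β) ∉ Phi M.rev (M.fc β) := phi_below (M.up_le hy) (up_ne hG hy)
  have e1 : PC M (M.fc β) (M.fc (M.σ β)) = UP M (M.fc β) (M.fc (M.σ β)) :=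
    if_pos (M.up_le hx)
  have e2 : PC M (M.fc β) (M.fc (M.σ⁻¹ β)) = DP M (M.fc β) (M.fc (M.σ⁻¹ β)) :=
    if_neg (fun h3 => up_ne hG hy (le_antisymm' hG (M.up_le hy) h3))
  have hne : UP M (M.fc β) (M.fc (M.σ β)) ≠ DP M (M.fc β) (M.fc (M.σ⁻¹ β)) := by
    intro he
    have h3 := ud_disj hG hxp hyp
    rw [Set.disjoint_left] at h3
    refine h3 (up_self _ _) ?_
    rw [← he]
    exact up_self _ _
  obtain ⟨w, hw, hw1, hw2⟩ := lemR hG β (by rw [e1, e2]; exact hne)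
  rw [e1] at hw1
  rw [e2] at hw2
  exact ⟨w, hw, hw1, hw2⟩

end Pool.Agent.Lib.PLQ
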