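import Mathlib
import Pool.Agent.Lib.PLQ.LemR2

set_option autoImplicit false
set_option linter.unusedSectionVars false
set_option linter.unusedVariables false

/-! Module CfgA: inclusion-minimal good discs (`Mn` in Defs). -/

namespace Pool.Agent.Lib.PLQ

open Finset Pool.Agent.Lib.NK
open scoped Classical

variable {V D F : Type} [Fintype V] [Fintype D] [Fintype F] {M : PM V D F} {X Y : Set F}

namespace CfgAAux

/-- the component of `a` outside `K` (for `a ∉ K`) -/
def cmp (M : PM V D F) (K : Set F) (a : F) : Set F :=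
  {w | Relation.ReflTransGen (fun x z => M.adj x z ∧ z ∉ K) a w}

theorem cmp_self (K : Set F) (a : F) : a ∈ cmp M K a := Relation.ReflTransGen.refl

theorem cmp_not {K : Set F} {a w : F} (ha : a ∉ K) (hw : w ∈ cmp M K a) : w ∉ K := by
  rcases Relation.ReflTransGen.cases_tail hw with h1 | ⟨c, _, h2⟩
  · rw [h1]; exact ha
  · exact h2.2

theorem cmp_adj {K : Set F} {a x z : F} (hx : x ∈ cmp M K a) (h : M.adj x z) (hz : z ∉ K) :
    z ∈ cmp M K a :=
  Relation.ReflTransGen.tail hx ⟨h, hz⟩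

theorem cmp_conn (K : Set F) (a : F) : M.Conn (cmp M K a) :=
  PieceAux.connc (fun z => z ∉ K) a

theorem cmp_symm {K : Set F} {a w : F} (ha : a ∉ K) (hw : w ∈ cmp M K a) : a ∈ cmp M K w :=
  (PieceAux.revp (X := Kᶜ) (show a ∈ Kᶜ from ha) hw).2

theorem cmp_sep {K : Set F} {a x w : F} (hxK : x ∉ K) (hx : x ∉ cmp M K a)
    (hw : w ∈ cmp M K x) : w ∉ cmp M K a := by
  intro h
  exact hx (Relation.ReflTransGen.trans h (cmp_symm hxK hw))

theorem toK (hG : Good M) {K : Set F} (hK : M.Conn K) {k a x : F} (hk : k ∈ K) (ha : a ∉ K)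
    (hx : x ∉ cmp M K a) :
    Relation.ReflTransGen (fun s t => M.adj s t ∧ t ∈ (cmp M K a)ᶜ) x k := by
  have hKc : K ⊆ (cmp M K a)ᶜ := fun w hw hw' => cmp_not ha hw' hw
  by_cases hxK : x ∈ K
  · exact PieceAux.mono hKc (hK x hxK k hk)
  · have key : ∀ w, Relation.ReflTransGen (fun s t => M.adj s t ∧ t ∈ (Set.univ : Set F)) x w →
        (∃ z, z ∈ K ∧
          Relation.ReflTransGen (fun s t => M.adj s t ∧ t ∈ (cmp M K a)ᶜ) x z) ∨
        (w ∈ cmp M K x ∧
          Relation.ReflTransGen (fun s t => M.adj s t ∧ t ∈ (cmp M K a)ᶜ) x w) := by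
      intro w hw
      induction hw with
      | refl => exact Or.inr ⟨cmp_self K x, Relation.ReflTransGen.refl⟩
      | @tail c d h1 h2 ih =>
        rcases ih with ih | ⟨ih1, ih2⟩
        · exact Or.inl ih
        · by_cases hd : d ∈ K
          · exact Or.inl ⟨d, hd, ih2.tail ⟨h2.1, hKc hd⟩⟩
          · have hd' := cmp_adj ih1 h2.1 hd
            exact Or.inr ⟨hd', ih2.tail ⟨h2.1, cmp_sep hxK hx hd'⟩⟩
    rcases key k (conn_univ hG x (Set.mem_univ _) k (Set.mem_univ _)) with ⟨z, hz, hz'⟩ | ⟨h1, _⟩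
    · exact hz'.trans (PieceAux.mono hKc (hK z hz k hk))
    · exact absurd hk (cmp_not hxK h1)

theorem cmp_disc (hG : Good M) {K : Set F} (hK : M.Conn K) {k a : F} (hk : k ∈ K)
    (ha : a ∉ K) : M.Disc (cmp M K a) := by
  refine ⟨⟨a, cmp_self K a⟩, ⟨k, fun h => cmp_not ha h hk⟩, cmp_conn K a, ?_⟩
  intro x hx z hz
  exact (toK hG hK hk ha hx).trans (PieceAux.revp hz (toK hG hK hk ha hz)).2

/-- an up-closed set is closed under `le` -/
theorem upc_le {X : Set F} (h : M.UpC X) {s t : F} (hst : M.le s t) (hs : s ∈ X) : t ∈ X := by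
  unfold PM.le at hst
  induction hst with
  | refl => exact hs
  | tail _ h2 ih => exact h _ _ h2 ih

/-- a disc cannot be up-closed and down-closed -/
theorem not_ud (hG : Good M) {X : Set F} (h1 : M.UDisc X) (h2 : M.DDisc X) : False := by
  obtain ⟨x, hx⟩ := h1.disc.ne
  obtain ⟨y, hy⟩ := h1.disc.cne
  obtain ⟨s, t, hst, hs, _, ht, _⟩ := PairsAux.exit_step (M := M) (X := X) (Y := Set.univ)
    (conn_univ hG x trivial y trivial) hx trivial hy
  rcases hst with h | h
  · exact ht (h1.up _ _ h hs)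
  · exact ht (h2.dn _ _ h hs)

theorem goodU_rev {X : Set F} : GoodU M.rev X ↔ GoodD M X := by
  unfold GoodU GoodD SMin SMax
  constructor
  · rintro ⟨h1, d, ⟨h2, h3⟩, h4⟩
    exact ⟨M.rev_ud.mp h1, d, ⟨M.rev_lmin.mp h2, M.rev_sad.mp h3⟩, h4⟩
  · rintro ⟨h1, d, ⟨h2, h3⟩, h4⟩
    exact ⟨M.rev_ud.mpr h1, d, ⟨M.rev_lmin.mpr h2, M.rev_sad.mpr h3⟩, h4⟩

theorem goodD_rev {X : Set F} : GoodD M.rev X ↔ GoodU M X := by
  unfold GoodU GoodD SMin SMax
  constructor
  · rintro ⟨h1, d, ⟨h2, h3⟩, h4⟩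
    exact ⟨M.rev_dd.mp h1, d, ⟨M.rev_lmax.mp h2, M.rev_sad.mp h3⟩, h4⟩
  · rintro ⟨h1, d, ⟨h2, h3⟩, h4⟩
    exact ⟨M.rev_dd.mpr h1, d, ⟨M.rev_lmax.mpr h2, M.rev_sad.mpr h3⟩, h4⟩

theorem mn_of_min (hG : Good M) {X : Set F} (h : GoodU M X)
    (hm : ∀ Y, GoodU M Y ∨ GoodD M Y → X.ncard ≤ Y.ncard) : Mn M X := by
  refine ⟨h, ?_, ?_⟩
  · intro Y hY hYX
    exact Set.eq_of_subset_of_ncard_le hYX (hm Y (Or.inl hY)) (Set.toFinite X)
  · intro Y hY hYX
    have h1 : Y = X := Set.eq_of_subset_of_ncard_le hYX (hm Y (Or.inr hY)) (Set.toFinite X)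
    subst h1
    exact not_ud hG h.1 hY.1

/-- a saddle yields a good up-disc -/
theorem exists_goodU (hG : Good M) (h : ∃ v, M.Sad v) : ∃ X, GoodU M X := by
  obtain ⟨v, hv⟩ := h
  obtain ⟨d, e, hne, hd, he, hmd, hme⟩ := id hv
  have hup : M.up (M.fc d) (M.fc (M.σ d)) := by
    have := M.up_out hmd.2
    rwa [perm_ia] at this
  have hy : M.fc (M.σ d) ∉ Phi M (M.fc d) := phi_above (M.up_le hup) (fc_sig_ne hG d)
  have hU := up_ud hG hy
  have hd0 : M.fc d ∉ UP M (M.fc d) (M.fc (M.σ d)) :=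
    fun h => up_sub_phi hy h (b_phi (M.fc d))
  refine ⟨UP M (M.fc d) (M.fc (M.σ d)), hU, e, ⟨hme, by rw [he]; exact hv⟩, ?_⟩
  by_contra hcon
  have hex : ∃ k : ℕ, (M.σ ^ k) e = d := PairsAux.sc_pow (he.trans hd.symm)
  have hk := Nat.find_spec hex
  have hmin : ∀ i, i < Nat.find hex → (M.σ ^ i) e ≠ d := fun i hi => Nat.find_min hex hi
  set k := Nat.find hex
  have hk0 : 0 < k := by
    rcases Nat.eq_zero_or_pos k with h0 | h0
    · exfalso
      rw [h0, pow_zero, Equiv.Perm.one_apply] at hk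
      exact hne hk.symm
    · exact h0
  have key : ∀ i, i < k → M.fc ((M.σ ^ i) e) ∉ UP M (M.fc d) (M.fc (M.σ d)) := by
    intro i
    induction i with
    | zero => intro _; simpa using hcon
    | succ i ih =>
      intro hi hmem
      have h1 := ih (by omega)
      have e1 : (M.σ ^ (i + 1)) e = M.σ ((M.σ ^ i) e) := by
        rw [pow_succ', Equiv.Perm.mul_apply]
      rw [e1] at hmem
      have h2 := enter_unique hU.disc.cn hU.disc.cc (d := M.σ ((M.σ ^ i) e)) (e := M.σ d)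
        (by rw [M.vt_sig, M.vt_sig, M.vt_pow, he, hd]) hmem (by rw [perm_ia]; exact h1)
        (up_self _ _) (by rw [perm_ia]; exact hd0)
      exact hmin i (by omega) (M.σ.injective h2)
  have h3 := key (k - 1) (by omega)
  apply h3
  have h4 : (M.σ ^ (k - 1)) e = M.σ⁻¹ d := by
    have e1 : k = (k - 1) + 1 := by omega
    rw [e1, pow_succ', Equiv.Perm.mul_apply] at hk
    rw [← hk, perm_ia]
  rw [h4]
  exact R1 hG hmd

end CfgAAux

open CfgAAux

/-- Proof: if `e ≠ e'` are local minima at `v`, then by `R1` and `enter_unique` every corner at `v`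
except `e` is in `UP (fc e) (fc (σ e))`, so this up-disc contains `fc e'` and is good.  Take a good
disc with the least number of faces. -/
theorem exists_Mn (hG : Good M) (h : ∃ v, M.Sad v) : (∃ X, Mn M X) ∨ (∃ X, Mn M.rev X) := by
  obtain ⟨X0, hX0⟩ := exists_goodU hG h
  have hex : ∃ m : ℕ, ∃ Y : Set F, (GoodU M Y ∨ GoodD M Y) ∧ Y.ncard = m :=
    ⟨_, X0, Or.inl hX0, rfl⟩
  obtain ⟨X, hX, hc⟩ := Nat.find_spec hex
  have hm : ∀ Y, GoodU M Y ∨ GoodD M Y → X.ncard ≤ Y.ncard := by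
    intro Y hY
    rw [hc]
    exact Nat.find_min' hex ⟨Y, hY, rfl⟩
  rcases hX with hX | hX
  · exact Or.inl ⟨X, mn_of_min hG hX hm⟩
  · refine Or.inr ⟨X, mn_of_min hG.rev (goodU_rev.mpr hX) ?_⟩
    intro Y hY
    rcases hY with hY | hY
    · exact hm Y (Or.inr (goodU_rev.mp hY))
    · exact hm Y (Or.inl (goodD_rev.mp hY))

/-- every face of `X` adjacent to `P` is above every saddle-minimum `e` of `X`.
Proof: let `K` be the component of `P` in `{z | ¬ le (fc e) z}` (note `P` has no face above `fc e`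
as `X` is up-closed).  The component of `fc e` in `Kᶜ` is an up-disc (its complement is connected;
faces of it adjacent to the complement are `≥ fc e`) contained in `X` and containing `fc e`, so it
is `X`, hence `K = P`. -/
theorem cF0 (hG : Good M) (h : Mn M X) {e : D} (he : SMin M e) (heX : M.fc e ∈ X) {z p : F}
    (hz : z ∈ X) (hp : p ∉ X) (hzp : M.adj z p) : M.le (M.fc e) z := by
  by_contra hcon
  have hPS : ∀ w, w ∉ X → ¬ M.le (M.fc e) w := fun w hw hle => hw (upc_le h.gu.1.up hle heX)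
  -- the component of `p` in the set of the faces not above `fc e`
  have hpS : p ∉ {w | M.le (M.fc e) w} := hPS p hp
  set K : Set F := cmp M {w | M.le (M.fc e) w} p with hKdef
  have hKc : M.Conn K := cmp_conn _ p
  have hPK : ∀ w, w ∉ X → w ∈ K := by
    intro w hw
    have h1 := h.gu.1.disc.cc p hp w hw
    exact PieceAux.mono (fun y hy => hPS y hy) h1
  have heK : M.fc e ∉ K := fun h1 => cmp_not hpS h1 (M.le_rfl' _)
  have hYd := cmp_disc hG hKc (cmp_self _ p) heK
  have hYu : M.UDisc (cmp M K (M.fc e)) := by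
    refine ⟨hYd, ?_⟩
    intro x y hxy hx
    by_contra hy
    have hyK : y ∈ K := by
      by_contra hyK
      exact hy (cmp_adj hx (Or.inl hxy) hyK)
    have hxK : x ∉ K := cmp_not heK hx
    have hxS : M.le (M.fc e) x := by
      by_contra hxS
      exact hxK (cmp_adj hyK (Or.inr hxy) hxS)
    exact cmp_not hpS hyK (hxS.tail hxy)
  have hsub : cmp M K (M.fc e) ⊆ X := by
    intro w hw
    by_contra hwX
    exact cmp_not heK hw (hPK w hwX)
  have heq := h.mU _ ⟨hYu, e, he, cmp_self _ _⟩ hsub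
  have hzK : z ∉ K := by
    rw [← heq] at hz
    exact cmp_not heK hz
  exact hzK (cmp_adj (hPK p hp) (M.adj_symm hzp) hcon)

theorem cF3 (hG : Good M) (h : Mn M X) {e : D} (he : SMin M e) (heX : M.fc e ∈ X) {z : F}
    (hz : z ∈ Zo M X) : M.le (M.fc e) z := by
  obtain ⟨hzX, p, hp, hpz⟩ := hz
  have key : ∀ w, M.le p w → w ∈ X → M.le (M.fc e) w := by
    intro w hw
    unfold PM.le at hw
    induction hw with
    | refl => exact fun h1 => absurd h1 hp
    | @tail b c h1 h2 ih =>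
      intro hc
      by_cases hb : b ∈ X
      · exact (ih hb).tail h2
      · exact cF0 hG h he heX hc hb (Or.inr h2)
  exact key z hpz hzX

end Pool.Agent.Lib.PLQ
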