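import Mathlib
import Pool.Agent.Lib.PLQ.SymA
import Pool.Agent.Lib.PLQ.OrdC

set_option autoImplicit false
set_option linter.unusedSectionVars false
set_option linter.unusedVariables false

/-! Module CfgB: an up-disc `X`, `P = Xᶜ`, `Lo` (faces of `X` not above a face of `P`), `Zo` (faces of `X`
above a face of `P`), the components `Yc y` of `Lo`.  The NODES are `P` and the components of `Lo`. -/

namespace Pool.Agent.Lib.PLQ

open Finset Pool.Agent.Lib.NK
open scoped Classical

variable {V D F : Type} [Fintype V] [Fintype D] [Fintype F] {M : PM V D F} {X Y : Set F}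

namespace CfgBAux

theorem yc_sub' {y : F} (hy : y ∈ Lo M X) {z : F} (hz : z ∈ Yc M X y) : z ∈ Lo M X := by
  rcases Relation.ReflTransGen.cases_tail hz with h | ⟨c, -, hc⟩
  · rw [h]; exact hy
  · exact hc.2

/-- paths inside a set can be reversed -/
theorem path_symm {S : Set F} {a b : F} (ha : a ∈ S)
    (h : Relation.ReflTransGen (fun a b => M.adj a b ∧ b ∈ S) a b) :
    Relation.ReflTransGen (fun a b => M.adj a b ∧ b ∈ S) b a := by
  have hb : b ∈ S ∧ Relation.ReflTransGen (fun a b => M.adj a b ∧ b ∈ S) b a := by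
    induction h with
    | refl => exact ⟨ha, Relation.ReflTransGen.refl⟩
    | tail h1 h2 ih => exact ⟨h2.2, Relation.ReflTransGen.head ⟨M.adj_symm h2.1, ih.1⟩ ih.2⟩
  exact hb.2

/-- the faces of a path from `y` belong to the component of `y` -/
theorem path_in {y b : F} (hb : b ∈ Yc M X y) :
    Relation.ReflTransGen (fun a b => M.adj a b ∧ b ∈ Yc M X y) y b := by
  change Relation.ReflTransGen (fun a b => M.adj a b ∧ b ∈ Lo M X) y b at hb
  induction hb with
  | refl => exact Relation.ReflTransGen.refl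
  | tail h1 h2 ih => exact ih.tail ⟨h2.1, Relation.ReflTransGen.tail h1 h2⟩

end CfgBAux

theorem lo_or_zo {z : F} (hz : z ∈ X) : z ∈ Lo M X ∨ z ∈ Zo M X := by
  by_cases h : ∃ p, p ∉ X ∧ M.le p z
  · exact Or.inr ⟨hz, h⟩
  · exact Or.inl ⟨hz, fun p hp hle => h ⟨p, hp, hle⟩⟩

theorem lo_not_zo {z : F} (hz : z ∈ Lo M X) : z ∉ Zo M X := by
  rintro ⟨-, p, hp, hle⟩
  exact hz.2 p hp hle

theorem lo_dn (hX : M.UpC X) : M.DnC (Lo M X) := by
  intro x y hxy hy
  refine ⟨?_, fun p hp hle => hy.2 p hp (hle.tail hxy)⟩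
  by_contra hx
  exact hy.2 x hx (M.up_le hxy)

theorem zo_up (hX : M.UpC X) : M.UpC (Zo M X) := by
  rintro x y hxy ⟨hx, p, hp, hle⟩
  exact ⟨hX x y hxy hx, p, hp, hle.tail hxy⟩

theorem lo_adj (hX : M.UpC X) {z p : F} (hz : z ∈ Lo M X) (hp : p ∉ X) : ¬ M.adj z p := by
  rintro (h | h)
  · exact hp (hX _ _ h hz.1)
  · exact hz.2 p hp (M.up_le h)

theorem p_dd (h : M.UDisc X) : M.DDisc Xᶜ := by
  refine ⟨⟨h.disc.cne, ?_, h.disc.cc, ?_⟩, ?_⟩
  · rw [compl_compl]
    exact h.disc.ne
  · rw [compl_compl]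
    exact h.disc.cn
  · intro x y hxy hy hx
    exact hy (h.up x y hxy hx)

/-- a component of `Lo` is a down-disc: a component `H` of its complement not containing `P` would
have all its lower faces in `H ∪ Yc`, so would be contained in `Lo` -/
theorem yc_dd (hG : Good M) (hX : M.UDisc X) {y : F} (hy : y ∈ Lo M X) : M.DDisc (Yc M X y) := by
  have hsub := fun z (hz : z ∈ Yc M X y) => CfgBAux.yc_sub' hy hz
  have hup := hX.up
  have hdn : M.DnC (Yc M X y) := by
    intro x x' h hx'
    exact hx'.tail ⟨Or.inr h, lo_dn hup x x' h (hsub x' hx')⟩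
  refine ⟨⟨⟨y, Relation.ReflTransGen.refl⟩, ?_, ?_, ?_⟩, hdn⟩
  · obtain ⟨p, hp⟩ := hX.disc.cne
    exact ⟨p, fun h => hp (hsub p h).1⟩
  · intro a ha b hb
    have h1 : Relation.ReflTransGen (fun a b => M.adj a b ∧ b ∈ Yc M X y) y b :=
      CfgBAux.path_in hb
    have h2 : Relation.ReflTransGen (fun a b => M.adj a b ∧ b ∈ Yc M X y) a y :=
      CfgBAux.path_symm Relation.ReflTransGen.refl (CfgBAux.path_in ha)
    exact h2.trans h1
  · -- a face of the complement is connected to `P`
    have key : ∀ a, a ∈ (Yc M X y)ᶜ → ∃ p, p ∉ X ∧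
        Relation.ReflTransGen (fun a b => M.adj a b ∧ b ∈ (Yc M X y)ᶜ) a p := by
      intro a ha
      by_contra hno
      push Not at hno
      set H : Set F := {z | Relation.ReflTransGen (fun a b => M.adj a b ∧ b ∈ (Yc M X y)ᶜ) a z}
        with hH
      have hHX : ∀ z ∈ H, z ∈ X := by
        intro z hz
        by_contra hzX
        exact hno z hzX hz
      have hHC : ∀ z ∈ H, z ∈ (Yc M X y)ᶜ := by
        intro z hz
        rcases Relation.ReflTransGen.cases_tail hz with h | ⟨c, -, hc⟩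
        · rw [h]; exact ha
        · exact hc.2
      have hlow : ∀ z, (z ∈ H ∨ z ∈ Yc M X y) → ∀ w, M.le w z → (w ∈ H ∨ w ∈ Yc M X y) := by
        intro z hz w hw
        induction hw using Relation.ReflTransGen.head_induction_on with
        | refl => exact hz
        | head h1 h2 ih =>
          rename_i u v
          rcases ih with ih | ih
          · by_cases hu : u ∈ Yc M X y
            · exact Or.inr hu
            · exact Or.inl (ih.tail ⟨Or.inr h1, hu⟩)
          · exact Or.inr (hdn u v h1 ih)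
      have hHLo : ∀ z ∈ H, z ∈ Lo M X := by
        intro z hz
        refine ⟨hHX z hz, fun p hp hle => ?_⟩
        rcases hlow z (Or.inl hz) p hle with h | h
        · exact hp (hHX p h)
        · exact hp (hsub p h).1
      -- the path to `y` never leaves `H`
      have hall : ∀ z, Relation.ReflTransGen (fun a b => M.adj a b ∧ b ∈ Set.univ) a z → z ∈ H := by
        intro z hz
        induction hz with
        | refl => exact Relation.ReflTransGen.refl
        | tail h1 h2 ih =>
          rename_i u v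
          by_cases hv : v ∈ Yc M X y
          · exact absurd (hv.tail ⟨M.adj_symm h2.1, hHLo u ih⟩) (hHC u ih)
          · exact ih.tail ⟨h2.1, hv⟩
      exact hHC y (hall y (conn_univ hG a (Set.mem_univ _) y (Set.mem_univ _)))
        Relation.ReflTransGen.refl
    intro a ha b hb
    obtain ⟨p, hp, hap⟩ := key a ha
    obtain ⟨q, hq, hbq⟩ := key b hb
    have h1 : Relation.ReflTransGen (fun a b => M.adj a b ∧ b ∈ (Yc M X y)ᶜ) p q := by
      refine Relation.ReflTransGen.mono ?_ p q (hX.disc.cc p hp q hq)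
      rintro u v ⟨h, hv⟩
      exact ⟨h, fun hv' => hv (hsub v hv').1⟩
    exact (hap.trans h1).trans (CfgBAux.path_symm hb hbq)

theorem yc_sub {y : F} (hy : y ∈ Lo M X) {z : F} (hz : z ∈ Yc M X y) : z ∈ Lo M X := by
  exact CfgBAux.yc_sub' hy hz

theorem yc_self {y : F} : y ∈ Yc M X y := by
  exact Relation.ReflTransGen.refl

theorem yc_eq {y z : F} (hy : y ∈ Lo M X) (hz : z ∈ Yc M X y) : Yc M X z = Yc M X y := by
  have hzy : y ∈ Yc M X z := CfgBAux.path_symm hy hz
  ext w
  constructor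
  · intro hw
    exact Relation.ReflTransGen.trans hz hw
  · intro hw
    exact Relation.ReflTransGen.trans hzy hw

/-- faces between `y ∈ Lo` and a face of `Lo` above it are in the same component -/
theorem yc_le (hX : M.UpC X) {y z : F} (hz : z ∈ Lo M X) (h : M.le y z) : y ∈ Yc M X z := by
  induction h using Relation.ReflTransGen.head_induction_on with
  | refl => exact Relation.ReflTransGen.refl
  | head h1 h2 ih =>
    rename_i u v
    exact Relation.ReflTransGen.tail ih ⟨Or.inr h1, lo_dn hX u v h1 (yc_sub hz ih)⟩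

theorem node_dd (hG : Good M) (hX : M.UDisc X) {N : Set F} (hN : Node M X N) : M.DDisc N := by
  rcases hN with rfl | ⟨y, hy, rfl⟩
  · exact p_dd hX
  · exact yc_dd hG hX hy

theorem node_disj {N N' : Set F} (hN : Node M X N) (hN' : Node M X N') (h : N ≠ N') :
    Disjoint N N' := by
  rw [Set.disjoint_left]
  rcases hN with rfl | ⟨y, hy, rfl⟩ <;> rcases hN' with rfl | ⟨y', hy', rfl⟩
  · exact absurd rfl h
  · intro z hz hz'
    exact hz (yc_sub hy' hz').1
  · intro z hz hz'
    exact hz' (yc_sub hy hz).1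
  · intro z hz hz'
    exact h ((yc_eq hy hz).symm.trans (yc_eq hy' hz'))

theorem node_notz {N : Set F} (hN : Node M X N) {z : F} (hz : z ∈ N) : z ∉ Zo M X := by
  rcases hN with rfl | ⟨y, hy, rfl⟩
  · exact fun h => hz h.1
  · exact lo_not_zo (yc_sub hy hz)

theorem node_out (hX : M.UDisc X) {N : Set F} (hN : Node M X N) {z w : F} (hz : z ∈ N)
    (hw : w ∉ N) (h : M.adj z w) : w ∈ Zo M X := by
  rcases hN with rfl | ⟨y, hy, rfl⟩
  · have hwX : w ∈ X := by
      by_contra h'
      exact hw h'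
    rcases h with h | h
    · exact ⟨hwX, z, hz, M.up_le h⟩
    · exact absurd (hX.up _ _ h hwX) hz
  · have hzL := yc_sub hy hz
    have hwX : w ∈ X := by
      by_contra h'
      exact lo_adj hX.up hzL h' h
    rcases lo_or_zo hwX (M := M) with h' | h'
    · exact absurd (Relation.ReflTransGen.tail hz ⟨h, h'⟩) hw
    · exact h'

theorem node_of {z : F} (hz : z ∉ Zo M X) : ∃ N, Node M X N ∧ z ∈ N := by
  by_cases hX : z ∈ X
  · rcases lo_or_zo hX (M := M) with h | h
    · exact ⟨Yc M X z, Or.inr ⟨z, h, rfl⟩, yc_self⟩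
    · exact absurd h hz
  · exact ⟨Xᶜ, Or.inl rfl, hX⟩

theorem conn_PZ (hX : M.UDisc X) : M.Conn (Xᶜ ∪ Zo M X) := by
  have key : ∀ a, a ∈ Xᶜ ∪ Zo M X → ∃ p, p ∈ Xᶜ ∧
      Relation.ReflTransGen (fun a b => M.adj a b ∧ b ∈ Xᶜ ∪ Zo M X) p a := by
    rintro a (ha | ⟨ha, p, hp, hle⟩)
    · exact ⟨a, ha, Relation.ReflTransGen.refl⟩
    · refine ⟨p, hp, ?_⟩
      clear ha
      induction hle with
      | refl => exact Relation.ReflTransGen.refl
      | tail h1 h2 ih =>
        rename_i u v
        refine ih.tail ⟨Or.inl h2, ?_⟩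
        by_cases hv : v ∈ X
        · exact Or.inr ⟨hv, p, hp, Relation.ReflTransGen.tail h1 h2⟩
        · exact Or.inl hv
  intro a ha b hb
  obtain ⟨p, hp, hpa⟩ := key a ha
  obtain ⟨q, hq, hqb⟩ := key b hb
  have h1 : Relation.ReflTransGen (fun a b => M.adj a b ∧ b ∈ Xᶜ ∪ Zo M X) p q := by
    refine Relation.ReflTransGen.mono ?_ p q (hX.disc.cc p hp q hq)
    rintro u v ⟨h, hv⟩
    exact ⟨h, Or.inl hv⟩
  exact ((CfgBAux.path_symm (S := Xᶜ ∪ Zo M X) (Or.inl hp) hpa).trans h1).trans hqb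

theorem zmin_lower (hX : M.UpC X) {z w : F} (hz : Zmin M X z) (hw : M.le w z) (hne : w ≠ z) :
    w ∉ Zo M X := by
  exact fun h => hne (hz.2 w h hw)

/-- a minimal face of `Zo` has a lower neighbour in `P` -/
theorem zmin_P (hG : Good M) (hX : M.UDisc X) {z : F} (hz : Zmin M X z) :
    ∃ p, p ∉ X ∧ M.up p z := by
  obtain ⟨⟨hzX, p, hp, hle⟩, hmin⟩ := hz
  rcases Relation.ReflTransGen.cases_tail hle with h | ⟨w, hpw, hwz⟩
  · exact absurd (h ▸ hzX) hp
  · by_cases hw : w ∈ X
    · exact absurd (hmin w ⟨hw, p, hp, hpw⟩ (M.up_le hwz)) (up_ne hG hwz)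
    · exact ⟨w, hw, hwz⟩

end Pool.Agent.Lib.PLQ
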