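import Mathlib
import Pool.Agent.Lib.PLQ.CfgA
import Pool.Agent.Lib.PLQ.CfgB

set_option autoImplicit false
set_option linter.unusedSectionVars false
set_option linter.unusedVariables false

/-! Module CfgC. -/

namespace Pool.Agent.Lib.PLQ

open Finset Pool.Agent.Lib.NK
open scoped Classical

variable {V D F : Type} [Fintype V] [Fintype D] [Fintype F] {M : PM V D F} {X Y : Set F}

namespace CfgCAux

/-- up-closed sets contain everything above -/
theorem upc_le {X : Set F} (hX : M.UpC X) {x y : F} (h : M.le x y) (hx : x ∈ X) : y ∈ X := by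
  induction h with
  | refl => exact hx
  | tail _ h2 ih => exact hX _ _ h2 ih

/-- if the two corners next to `e` are in `X` and `e` is not, then all other corners at this vertex
are in `X` -/
theorem all_in {X : Set F} (hX : M.Conn X) (hXc : M.Conn Xᶜ) {e : D} (he : M.fc e ∉ X)
    (h1 : M.fc (M.σ e) ∈ X) (h2 : M.fc (M.σ⁻¹ e) ∈ X) {d : D} (hv : M.vt d = M.vt e)
    (hne : d ≠ e) : M.fc d ∈ X := by
  by_contra hd
  have hde : ∃ k : ℕ, (M.σ ^ k) d = e := ((M.vs d e).1 hv).exists_nat_pow_eq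
  obtain ⟨k, hk⟩ := hde
  have hex : ∃ j : ℕ, M.fc ((M.σ ^ j) d) ∈ X := by
    refine ⟨k + 1, ?_⟩
    rw [pow_succ', Equiv.Perm.mul_apply, hk]
    exact h1
  have hj := Nat.find_spec hex
  have hmin : ∀ i, i < Nat.find hex → ¬ M.fc ((M.σ ^ i) d) ∈ X := fun i hi => Nat.find_min hex hi
  set j := Nat.find hex with hjdef
  have hj0 : 0 < j := by
    rcases Nat.eq_zero_or_pos j with h0 | h0
    · exfalso
      rw [h0, pow_zero, Equiv.Perm.one_apply] at hj
      exact hd hj
    · exact h0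
  have e1 : M.σ⁻¹ ((M.σ ^ j) d) = (M.σ ^ (j - 1)) d := by
    have h3 : j = (j - 1) + 1 := by omega
    conv_lhs => rw [h3, pow_succ', Equiv.Perm.mul_apply, perm_ia]
  have e2 : (M.σ ^ j) d = M.σ e := by
    refine enter_unique hX hXc (by rw [M.vt_pow, M.vt_sig, hv]) hj ?_ h1 ?_
    · rw [e1]
      exact hmin (j - 1) (by omega)
    · rw [perm_ia]
      exact he
  have e3 : (M.σ ^ (j - 1)) d = e := by
    rw [← e1, e2, perm_ia]
  rcases Nat.eq_zero_or_pos (j - 1) with h0 | h0
  · rw [h0, pow_zero, Equiv.Perm.one_apply] at e3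
    exact hne e3
  · have e4 : M.σ⁻¹ e = (M.σ ^ (j - 1 - 1)) d := by
      have h3 : j - 1 = (j - 1 - 1) + 1 := by omega
      rw [← e3]
      conv_lhs => rw [h3, pow_succ', Equiv.Perm.mul_apply, perm_ia]
    exact hmin (j - 1 - 1) (by omega) (e4 ▸ h2)

/-- the up-piece at a saddle-minimum -/
theorem om_good (hG : Good M) {e : D} (he : SMin M e) :
    M.fc (M.σ e) ∉ Phi M (M.fc e) ∧ GoodU M (UP M (M.fc e) (M.fc (M.σ e))) := by
  have hup : M.up (M.fc e) (M.fc (M.σ e)) := by
    have h := M.up_out he.1.2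
    rwa [perm_ia] at h
  have hy : M.fc (M.σ e) ∉ Phi M (M.fc e) := phi_above (M.up_le hup) (fc_sig_ne hG e)
  have hud := up_ud hG hy
  refine ⟨hy, hud, ?_⟩
  obtain ⟨a, b, hab, ha, hb, ha', hb'⟩ := he.2
  obtain ⟨m, hm, hme, hm'⟩ : ∃ m, M.vt m = M.vt e ∧ m ≠ e ∧ M.lmin m := by
    by_cases h : a = e
    · exact ⟨b, hb, fun h' => hab (h.trans h'.symm), hb'⟩
    · exact ⟨a, ha, h, ha'⟩
  refine ⟨m, ⟨hm', by rw [hm]; exact he.2⟩, ?_⟩
  refine all_in hud.disc.cn hud.disc.cc (fun h => up_sub_phi hy h (b_phi _)) (up_self _ _)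
    (R1 hG he.1) hm hme

end CfgCAux

/-- Proof: let `Ω = UP (fc e) (fc (σ e))`; by `R1` and `enter_unique` it contains all faces at
`vt e` except `fc e`, so it is a good up-disc not containing `fc e`, hence not contained in `X`; as
`P` is connected and has no face above `fc e`, `P ⊆ Ω` by `up_inner`.  As `Ω` is up-closed and does
not contain `fc e`, no face of `P` is below `fc e`. -/
theorem cF4 (hG : Good M) (h : Mn M X) {e : D} (he : SMin M e) (heX : M.fc e ∈ X) :
    M.fc e ∈ Lo M X := by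
  obtain ⟨hy, hgood⟩ := CfgCAux.om_good hG he
  have heO : M.fc e ∉ UP M (M.fc e) (M.fc (M.σ e)) := fun h => up_sub_phi hy h (b_phi _)
  have hnot : ¬ UP M (M.fc e) (M.fc (M.σ e)) ⊆ X := by
    intro hs
    apply heO
    rw [h.mU _ hgood hs]
    exact heX
  obtain ⟨p0, hp0, hp0X⟩ := Set.not_subset.mp hnot
  have hsub : ∀ p, p ∉ X → p ∈ UP M (M.fc e) (M.fc (M.σ e)) := by
    intro p hp
    have hpath := h.gu.1.disc.cc p0 hp0X p hp
    have key : p ∈ UP M (M.fc e) (M.fc (M.σ e)) ∧ p ∉ X := by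
      clear hp
      induction hpath with
      | refl => exact ⟨hp0, hp0X⟩
      | tail h1 h2 ih =>
        rename_i u v
        refine ⟨?_, h2.2⟩
        by_contra hv
        have h3 := (up_inner hy ih.1 hv h2.1).2.1
        exact ih.2 (CfgCAux.upc_le h.gu.1.up h3 heX)
    exact key.1
  refine ⟨heX, fun p hp hle => heO ?_⟩
  exact CfgCAux.upc_le hgood.1.up hle (hsub p hp)

/-- each `z ∈ Zo` is above `fc e` by `cF3`, and the path stays in `Yc (fc e) ∪ Zo` -/
theorem conn_YZ (hG : Good M) (h : Mn M X) {e : D} (he : SMin M e) (heX : M.fc e ∈ X) :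
    M.Conn (Yc M X (M.fc e) ∪ Zo M X) := by
  have hlo := cF4 hG h he heX
  have hup := h.gu.1.up
  have key : ∀ a, a ∈ Yc M X (M.fc e) ∪ Zo M X →
      Relation.ReflTransGen (fun a b => M.adj a b ∧ b ∈ Yc M X (M.fc e) ∪ Zo M X) (M.fc e) a := by
    rintro a (ha | ha)
    · refine Relation.ReflTransGen.mono ?_ _ _ (CfgBAux.path_in ha)
      rintro u v ⟨h1, h2⟩
      exact ⟨h1, Or.inl h2⟩
    · have hle := cF3 hG h he heX ha
      have hgen : ∀ b, M.le (M.fc e) b → b ∈ Yc M X (M.fc e) ∪ Zo M X ∧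
          Relation.ReflTransGen (fun a b => M.adj a b ∧ b ∈ Yc M X (M.fc e) ∪ Zo M X)
            (M.fc e) b := by
        intro b hb
        induction hb with
        | refl => exact ⟨Or.inl yc_self, Relation.ReflTransGen.refl⟩
        | tail h1 h2 ih =>
          rename_i u v
          have hv : v ∈ Yc M X (M.fc e) ∪ Zo M X := by
            rcases ih.1 with hu | hu
            · have hvX : v ∈ X := hup u v h2 (yc_sub hlo hu).1
              rcases lo_or_zo hvX (M := M) with h3 | h3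
              · exact Or.inl (Relation.ReflTransGen.tail hu ⟨Or.inl h2, h3⟩)
              · exact Or.inr h3
            · exact Or.inr (zo_up hup u v h2 hu)
          exact ⟨hv, ih.2.tail ⟨Or.inl h2, hv⟩⟩
      exact (hgen a hle).2
  intro a ha b hb
  exact (CfgBAux.path_symm (S := Yc M X (M.fc e) ∪ Zo M X) (Or.inl yc_self) (key a ha)).trans
    (key b hb)

/-- no saddle-maximum in `Lo` (its component would be a good down-disc in `X`) -/
theorem cF5 (hG : Good M) (h : Mn M X) {d : D} (hd : SMax M d) : M.fc d ∉ Lo M X := by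
  intro hlo
  exact h.mD (Yc M X (M.fc d)) ⟨yc_dd hG h.gu.1 hlo, d, hd, yc_self⟩
    (fun z hz => (yc_sub hlo hz).1)

end Pool.Agent.Lib.PLQ
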