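import Mathlib
import Pool.Agent.Lib.PLQ.OrdD

set_option autoImplicit false
set_option linter.unusedSectionVars false
set_option linter.unusedVariables false

/-! Module Climb: climbing from a local minimum at a saddle. -/

namespace Pool.Agent.Lib.PLQ

open Finset Pool.Agent.Lib.NK
open scoped Classical

variable {V D F : Type} [Fintype V] [Fintype D] [Fintype F] {M : PM V D F} {X Y : Set F}

namespace ClimbAux

/-- powers of the inverse as powers -/
theorem back (σ : Equiv.Perm D) {e : D} {n : ℕ} (hn : (σ ^ n) e = e) {j : ℕ} (hj : j ≤ n) :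
    (σ⁻¹ ^ j) e = (σ ^ (n - j)) e := by
  have h1 : (σ ^ j) ((σ⁻¹ ^ j) e) = e := by
    rw [inv_pow]
    exact perm_ai _ _
  have h2 : (σ ^ j) ((σ ^ (n - j)) e) = e := by
    rw [← Equiv.Perm.mul_apply, ← pow_add, Nat.add_sub_cancel' hj, hn]
  exact (σ ^ j).injective (h1.trans h2.symm)

theorem inj (σ : Equiv.Perm D) {e : D} {n : ℕ} (h0 : ∀ i, 0 < i → i < n → (σ ^ i) e ≠ e) {i j : ℕ}
    (hij : i < j) (hj : j < n) : (σ ^ i) e ≠ (σ ^ j) e := by
  intro h
  have h1 : (σ ^ j) e = (σ ^ i) ((σ ^ (j - i)) e) := by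
    rw [← Equiv.Perm.mul_apply, ← pow_add, Nat.add_sub_cancel' hij.le]
  rw [h1] at h
  exact h0 (j - i) (by omega) (by omega) ((σ ^ i).injective h).symm

end ClimbAux

open ClimbAux

/-- From a local minimum `e` one climbs counterclockwise to a local maximum `σ^k e` and clockwise to
a different local maximum (there are at least two at a saddle), so a corner reached from `e` by a
local upwards path is `σ^i e` with `i ≤ k`, or lies on the other side. -/
theorem climb {e : D} (he : SMin M e) :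
    ∃ k k' : ℕ, 0 < k ∧ 0 < k' ∧ (∀ i, 0 < i → i ≤ k → M.out ((M.σ ^ i) e) = true) ∧
      M.out ((M.σ ^ (k + 1)) e) = false ∧
      (∀ i, i < k' → M.out ((M.σ⁻¹ ^ i) e) = false) ∧ M.out ((M.σ⁻¹ ^ k') e) = true ∧
      (∀ i j, i ≤ k → j ≤ k' → 0 < i + j → (M.σ ^ i) e ≠ (M.σ⁻¹ ^ j) e) ∧
      (∀ i, 0 < i → i ≤ k + 1 → (M.σ ^ i) e ≠ e) ∧
      ∀ d, Relation.ReflTransGen M.lup e d →
        (∃ i, i ≤ k ∧ d = (M.σ ^ i) e) ∨ (∃ j, j ≤ k' ∧ d = (M.σ⁻¹ ^ j) e) := by
  obtain ⟨⟨he0, he1⟩, m1, m2, hm12, hv1, hv2, hl1, hl2⟩ := he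
  -- another local minimum
  obtain ⟨m, hme, hvm, hm0, hm1⟩ : ∃ m, m ≠ e ∧ M.vt m = M.vt e ∧ M.out m = false ∧
      M.out (M.σ m) = true := by
    by_cases h : m1 = e
    · exact ⟨m2, fun h' => hm12 (h.trans h'.symm), hv2, hl2.1, hl2.2⟩
    · exact ⟨m1, h, hv1, hl1.1, hl1.2⟩
  -- the period
  have hex : ∃ n : ℕ, 0 < n ∧ (M.σ ^ n) e = e :=
    ⟨orderOf M.σ, orderOf_pos _, by rw [pow_orderOf_eq_one]; rfl⟩
  obtain ⟨n, ⟨hn0, hn1⟩, hn2⟩ : ∃ n : ℕ, (0 < n ∧ (M.σ ^ n) e = e) ∧
      ∀ i, 0 < i → i < n → (M.σ ^ i) e ≠ e :=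
    ⟨Nat.find hex, Nat.find_spec hex, fun i h1 h2 h3 => Nat.find_min hex h2 ⟨h1, h3⟩⟩
  -- the position of `m`
  have hexm : ∃ a : ℕ, (M.σ ^ a) e = m := by
    obtain ⟨k, -, hk⟩ := ((M.vs e m).1 hvm.symm).exists_pow_eq'
    exact ⟨k, hk⟩
  obtain ⟨a, ha, ha'⟩ : ∃ a : ℕ, (M.σ ^ a) e = m ∧ a < n := by
    refine ⟨Nat.find hexm, Nat.find_spec hexm, ?_⟩
    by_contra hcon
    push Not at hcon
    refine Nat.find_min hexm (m := Nat.find hexm - n) (by omega) ?_
    have h1 : (M.σ ^ (Nat.find hexm)) e = (M.σ ^ (Nat.find hexm - n)) ((M.σ ^ n) e) := by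
      rw [← Equiv.Perm.mul_apply, ← pow_add, Nat.sub_add_cancel hcon]
    rw [hn1] at h1
    rw [← h1]
    exact Nat.find_spec hexm
  have hsig : ∀ i, M.σ ((M.σ ^ i) e) = (M.σ ^ (i + 1)) e := by
    intro i
    rw [pow_succ', Equiv.Perm.mul_apply]
  have hsigi : ∀ i, M.σ ((M.σ⁻¹ ^ (i + 1)) e) = (M.σ⁻¹ ^ i) e := by
    intro i
    rw [pow_succ', Equiv.Perm.mul_apply, perm_ai]
  have hoa : M.out ((M.σ ^ a) e) = false := by rw [ha]; exact hm0
  have hoa1 : M.out ((M.σ ^ (a + 1)) e) = true := by rw [← hsig, ha]; exact hm1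
  have hO1 : M.out ((M.σ ^ 1) e) = true := by rw [pow_one]; exact he1
  have hOn : M.out ((M.σ ^ n) e) = false := by rw [hn1]; exact he0
  have ha0 : a ≠ 0 := by
    rintro rfl
    exact hme ha.symm
  have ha1 : a ≠ 1 := by
    rintro rfl
    rw [hoa] at hO1
    exact Bool.false_ne_true hO1
  have han : a + 1 < n := by
    rcases Nat.lt_or_ge (a + 1) n with h | h
    · exact h
    · have h1 : a + 1 = n := by omega
      rw [h1, hOn] at hoa1
      exact absurd hoa1 Bool.false_ne_true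
  -- the number `k`
  have hexk : ∃ k, M.out ((M.σ ^ (k + 2)) e) = false := ⟨a - 2, by
    have : a - 2 + 2 = a := by omega
    rw [this]; exact hoa⟩
  obtain ⟨k, hk, hk'⟩ : ∃ k, M.out ((M.σ ^ (k + 2)) e) = false ∧
      ∀ i, i < k → M.out ((M.σ ^ (i + 2)) e) = true :=
    ⟨Nat.find hexk, Nat.find_spec hexk, fun i hi => by
      have := Nat.find_min hexk hi
      simpa using this⟩
  have hka : k + 2 ≤ a := by
    by_contra hcon
    push Not at hcon
    have h1 := hk' (a - 2) (by omega)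
    have : a - 2 + 2 = a := by omega
    rw [this, hoa] at h1
    exact Bool.false_ne_true h1
  -- the number `k'`
  have hexj : ∃ j, M.out ((M.σ⁻¹ ^ (j + 1)) e) = true := ⟨n - a - 2, by
    rw [back M.σ hn1 (by omega)]
    have : n - (n - a - 2 + 1) = a + 1 := by omega
    rw [this]; exact hoa1⟩
  obtain ⟨l, hl, hl'⟩ : ∃ l, M.out ((M.σ⁻¹ ^ (l + 1)) e) = true ∧
      ∀ i, i < l → M.out ((M.σ⁻¹ ^ (i + 1)) e) = false :=
    ⟨Nat.find hexj, Nat.find_spec hexj, fun i hi => by
      have := Nat.find_min hexj hi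
      simpa using this⟩
  have hla : l + 1 + (a + 1) ≤ n := by
    by_contra hcon
    push Not at hcon
    have h1 := hl' (n - a - 2) (by omega)
    rw [back M.σ hn1 (by omega)] at h1
    have : n - (n - a - 2 + 1) = a + 1 := by omega
    rw [this, hoa1] at h1
    exact Bool.false_ne_true h1.symm
  have hup : ∀ i, 0 < i → i ≤ k + 1 → M.out ((M.σ ^ i) e) = true := by
    intro i h1 h2
    rcases Nat.lt_or_ge i 2 with h3 | h3
    · have : i = 1 := by omega
      rw [this]; exact hO1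
    · have h4 := hk' (i - 2) (by omega)
      have : i - 2 + 2 = i := by omega
      rwa [this] at h4
  have hdn : ∀ i, i < l + 1 → M.out ((M.σ⁻¹ ^ i) e) = false := by
    intro i h1
    rcases Nat.eq_zero_or_pos i with h3 | h3
    · rw [h3, pow_zero]; exact he0
    · have h4 := hl' (i - 1) (by omega)
      have : i - 1 + 1 = i := by omega
      rwa [this] at h4
  refine ⟨k + 1, l + 1, by omega, by omega, hup, hk, hdn, hl, ?_, ?_, ?_⟩
  · intro i j hi hj hij
    rw [back M.σ hn1 (by omega)]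
    rcases Nat.eq_zero_or_pos j with h3 | h3
    · rw [h3, Nat.sub_zero, hn1]
      exact hn2 i (by omega) (by omega)
    · exact inj M.σ hn2 (by omega) (by omega)
  · intro i h1 h2
    exact hn2 i h1 (by omega)
  · intro d hd
    induction hd with
    | refl => exact Or.inl ⟨0, by omega, rfl⟩
    | @tail b c _ hbc ih =>
      rcases ih with ⟨i, hi, rfl⟩ | ⟨j, hj, rfl⟩
      · rcases hbc with ⟨rfl, h⟩ | ⟨h1, h⟩
        · rw [hsig] at h ⊢
          rcases Nat.lt_or_ge i (k + 1) with h3 | h3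
          · exact Or.inl ⟨i + 1, by omega, rfl⟩
          · exfalso
            have : i = k + 1 := by omega
            rw [this, hk] at h
            exact Bool.false_ne_true h
        · rcases Nat.eq_zero_or_pos i with h3 | h3
          · subst h3
            refine Or.inr ⟨1, by omega, ?_⟩
            rw [pow_one]
            rw [pow_zero] at h1
            have h1 : e = M.σ c := h1
            rw [h1, perm_ia]
          · exfalso
            rw [← h1, hup i h3 hi] at h
            exact Bool.false_ne_true h.symm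
      · rcases hbc with ⟨rfl, h⟩ | ⟨h1, h⟩
        · rcases Nat.eq_zero_or_pos j with h3 | h3
          · subst h3
            exact Or.inl ⟨1, by omega, rfl⟩
          · obtain ⟨j', rfl⟩ : ∃ j', j = j' + 1 := ⟨j - 1, by omega⟩
            exact Or.inr ⟨j', by omega, hsigi j'⟩
        · rcases Nat.lt_or_ge j (l + 1) with h3 | h3
          · refine Or.inr ⟨j + 1, by omega, ?_⟩
            rw [pow_succ', Equiv.Perm.mul_apply, h1, perm_ia]
          · exfalso
            have : j = l + 1 := by omega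
            rw [← h1, this, hl] at h
            exact Bool.false_ne_true h.symm

end Pool.Agent.Lib.PLQ
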