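import Mathlib
import Pool.Agent.Lib.PLQ.Climb
import Pool.Agent.Lib.PLQ.CfgC

set_option autoImplicit false
set_option linter.unusedSectionVars false
set_option linter.unusedVariables false

/-! Module LocU: the corners around a saddle vertex near a saddle-minimum `e` of `X`. -/

namespace Pool.Agent.Lib.PLQ

open Finset Pool.Agent.Lib.NK
open scoped Classical

variable {V D F : Type} [Fintype V] [Fintype D] [Fintype F] {M : PM V D F} {X Y : Set F}

namespace LocUAux

theorem padd (x : D) (a b : ℕ) : (M.σ ^ (a + b)) x = (M.σ ^ a) ((M.σ ^ b) x) := by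
  rw [pow_add, Equiv.Perm.mul_apply]

theorem paddi (x : D) (a b : ℕ) : (M.σ⁻¹ ^ (a + b)) x = (M.σ⁻¹ ^ a) ((M.σ⁻¹ ^ b) x) := by
  rw [pow_add, Equiv.Perm.mul_apply]

theorem psucc (x : D) (a : ℕ) : (M.σ ^ (a + 1)) x = M.σ ((M.σ ^ a) x) := by
  rw [pow_succ', Equiv.Perm.mul_apply]

theorem psucci (x : D) (a : ℕ) : M.σ ((M.σ⁻¹ ^ (a + 1)) x) = (M.σ⁻¹ ^ a) x := by
  rw [pow_succ', Equiv.Perm.mul_apply, perm_ai]

/-- cancellation -/
theorem back (x : D) (r w : ℕ) : (M.σ⁻¹ ^ r) ((M.σ ^ (r + w)) x) = (M.σ ^ w) x := by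
  induction r with
  | zero => rw [Nat.zero_add]; rfl
  | succ r ih =>
    have e : r + 1 + w = (r + w) + 1 := by omega
    rw [e, psucc, pow_succ, Equiv.Perm.mul_apply, perm_ia]
    exact ih

theorem forw (x : D) (r w : ℕ) : (M.σ ^ r) ((M.σ⁻¹ ^ (r + w)) x) = (M.σ⁻¹ ^ w) x := by
  induction r with
  | zero => rw [Nat.zero_add]; rfl
  | succ r ih =>
    have e : r + 1 + w = (r + w) + 1 := by omega
    rw [e, pow_succ, Equiv.Perm.mul_apply, psucci]
    exact ih

theorem vt_powi (d : D) (k : ℕ) : M.vt ((M.σ⁻¹ ^ k) d) = M.vt d := by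
  induction k with
  | zero => rfl
  | succ k ih => rw [pow_succ', Equiv.Perm.mul_apply, M.vt_inv, ih]

theorem first (e : D) : ∃ n : ℕ, 0 < n ∧ (M.σ ^ n) e = e ∧ ∀ i, 0 < i → i < n → (M.σ ^ i) e ≠ e := by
  have h : ∃ n : ℕ, 0 < n ∧ (M.σ ^ n) e = e := by
    obtain ⟨k, h1, _, h2⟩ := ((M.vs e e).mp rfl).exists_pow_eq''
    exact ⟨k, h1, h2⟩
  refine ⟨Nat.find h, (Nat.find_spec h).1, (Nat.find_spec h).2, ?_⟩
  intro i hi1 hi2 hi3
  exact Nat.find_min h hi2 ⟨hi1, hi3⟩

theorem exists_pow {o e : D} (hv : M.vt o = M.vt e) {n : ℕ} (hn : 0 < n)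
    (hper : (M.σ ^ n) o = o) : ∃ m, m < n ∧ (M.σ ^ m) o = e := by
  obtain ⟨m, hm⟩ := ((M.vs o e).mp hv).exists_nat_pow_eq
  refine ⟨m % n, Nat.mod_lt _ hn, ?_⟩
  rw [← hm]
  conv_rhs => rw [← Nat.mod_add_div m n]
  rw [padd, pow_mul]
  congr 1
  symm
  have hfix : ∀ r : ℕ, ((M.σ ^ n) ^ r) o = o := by
    intro r
    induction r with
    | zero => rfl
    | succ r ih => rw [pow_succ', Equiv.Perm.mul_apply, ih, hper]
  exact hfix _

/-- cancel on the left -/
theorem cancel {e : D} {a b : ℕ} (hab : a ≤ b) (h : (M.σ ^ a) e = (M.σ ^ b) e) :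
    (M.σ ^ (b - a)) e = e := by
  apply (M.σ ^ a).injective
  rw [← padd, Nat.add_sub_cancel' hab]
  exact h.symm

theorem enter_between {Y : Set F} {e : D} {a b : ℕ} (hab : a ≤ b)
    (ha : M.fc ((M.σ ^ a) e) ∉ Y) (hb : M.fc ((M.σ ^ b) e) ∈ Y) :
    ∃ s, a ≤ s ∧ s < b ∧ M.fc ((M.σ ^ (s + 1)) e) ∈ Y ∧ M.fc ((M.σ ^ s) e) ∉ Y := by
  induction b with
  | zero =>
    have h0 : a = 0 := by omega
    rw [h0] at ha
    exact absurd hb ha
  | succ b ih =>
    have hne : a ≠ b + 1 := by
      rintro rfl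
      exact ha hb
    by_cases h : M.fc ((M.σ ^ b) e) ∈ Y
    · obtain ⟨s, h1, h2, h3, h4⟩ := ih (by omega) h
      exact ⟨s, h1, by omega, h3, h4⟩
    · exact ⟨b, by omega, by omega, hb, h⟩

/-- a disc has only one run -/
theorem runs {Y : Set F} (hY : M.Conn Y) (hYc : M.Conn Yᶜ) {e : D} {n : ℕ}
    (hmin : ∀ i, 0 < i → i < n → (M.σ ^ i) e ≠ e) {a b c : ℕ} (hab : a < b) (hbc : b < c)
    (hcn : c < n) (ha : M.fc ((M.σ ^ a) e) ∉ Y) (hb : M.fc ((M.σ ^ b) e) ∈ Y)
    (hc : M.fc ((M.σ ^ c) e) ∉ Y) (hn : M.fc ((M.σ ^ n) e) ∈ Y) : False := by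
  obtain ⟨s, s1, s2, s3, s4⟩ := enter_between hab.le ha hb
  obtain ⟨t, t1, t2, t3, t4⟩ := enter_between hcn.le hc hn
  have h1 := enter_unique hY hYc (d := (M.σ ^ (s + 1)) e) (e := (M.σ ^ (t + 1)) e)
    (by rw [M.vt_pow, M.vt_pow]) s3 (by rw [psucc, perm_ia]; exact s4) t3
    (by rw [psucc, perm_ia]; exact t4)
  exact hmin (t + 1 - (s + 1)) (by omega) (by omega) (cancel (by omega) h1)

/-- no upwards path from the clockwise side of the climb to the other side -/
theorem nopath {e : D} {k k' : ℕ} (c4 : ∀ i, i < k' → M.out ((M.σ⁻¹ ^ i) e) = false)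
    (c5 : M.out ((M.σ⁻¹ ^ k') e) = true)
    (c6 : ∀ i j, i ≤ k → j ≤ k' → 0 < i + j → (M.σ ^ i) e ≠ (M.σ⁻¹ ^ j) e) {i j : ℕ}
    (hi : i ≤ k) (hj : 0 < j) (hj' : j ≤ k')
    (h : Relation.ReflTransGen M.lup ((M.σ⁻¹ ^ j) e) ((M.σ ^ i) e)) : False := by
  rcases lup_iter h with ⟨r, hr, hr'⟩ | ⟨r, hr, hr'⟩
  · rcases Nat.eq_zero_or_pos r with h0 | h0
    · subst h0
      exact c6 i j hi hj' (by omega) hr
    · have h1 := hr' 1 (by omega) h0
      obtain ⟨j0, rfl⟩ : ∃ j0, j = j0 + 1 := ⟨j - 1, by omega⟩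
      rw [pow_one, psucci, c4 j0 (by omega)] at h1
      exact absurd h1 (by decide)
  · by_cases h0 : k' - j < r
    · have h1 := hr' (r - (k' - j)) (by omega) (by omega)
      have h2 := back (M := M) ((M.σ ^ i) e) (k' - j) (r - (k' - j))
      have e1 : k' - j + (r - (k' - j)) = r := by omega
      rw [e1, ← hr, ← paddi] at h2
      have e2 : k' - j + j = k' := by omega
      rw [e2] at h2
      rw [← h2, c5] at h1
      exact absurd h1 (by decide)
    · have h2 := back (M := M) ((M.σ ^ i) e) r 0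
      rw [Nat.add_zero, ← hr, ← paddi] at h2
      exact c6 i (r + j) hi (by omega) (by omega) h2.symm

end LocUAux

open LocUAux

/-- Let `e` be a saddle-minimum of `X`, `Y` its component of `Lo`.  Going up counterclockwise from
`e`: first `j` corners in `Y`, then corners `j, ..., k` in `Zo`, corner `k` a local maximum, and
corner `k+1` is in a node different from `Y`.  Proof: `σ^k e` is a saddle-maximum, so not in `Lo`
(`cF5`), and above `fc e`, so in `X`, so in `Zo`; let `j` be minimal with corner `j` in `Zo`.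
Faces of `Zo` at `vt e` are `≥ fc e` (`cF3`), so by `loc` and `climb` they are among the corners
climbed from `e`; hence corner `k+1` is not in `Zo`.  It is not in `Y`: otherwise, `Y` being a disc,
its run at `vt e` would contain all corners except some among `1, ..., k`, in particular another
saddle-maximum.  `Zmin (corner j)` and the last claim: a face `z ∈ Zo` below corner `i ≤ k` is at
`vt e` by `mid` and lies on the climb. If corner `k+1` is in `Lo`, walk on down to a local minimum
`e'`, a saddle-minimum in `Lo`; all faces of `Zo` at the vertex are `≥ fc e'`, so corner `j < k` is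
impossible. -/
theorem locU (hG : Good M) (h : Mn M X) {e : D} (he : SMin M e) (heX : M.fc e ∈ X) :
    ∃ j k : ℕ, 0 < j ∧ j ≤ k ∧ (∀ i, i < j → M.fc ((M.σ ^ i) e) ∈ Yc M X (M.fc e)) ∧
      (∀ i, j ≤ i → i ≤ k → M.fc ((M.σ ^ i) e) ∈ Zo M X) ∧
      (∀ i, 0 < i → i ≤ k → M.out ((M.σ ^ i) e) = true) ∧
      M.out ((M.σ ^ (k + 1)) e) = false ∧
      M.fc ((M.σ ^ (k + 1)) e) ∉ Zo M X ∧ M.fc ((M.σ ^ (k + 1)) e) ∉ Yc M X (M.fc e) ∧
      Zmin M X (M.fc ((M.σ ^ j) e)) ∧
      (M.fc ((M.σ ^ (k + 1)) e) ∈ Lo M X → j = k) ∧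
      (∀ i, 0 < i → i ≤ k + 1 → (M.σ ^ i) e ≠ e) := by
  obtain ⟨k, k', c1, c2, c3, c3', c4, c5, c6, c7, c8⟩ := climb he
  have hX := h.gu.1
  have heLo := cF4 hG h he heX
  have hdd := yc_dd hG hX heLo
  obtain ⟨n, hn0, hper, hmin⟩ := first (M := M) e
  have hkn : k + 1 < n := by
    by_contra hcon
    exact c7 n hn0 (by omega) hper
  have hvp : ∀ i, M.vt ((M.σ ^ i) e) = M.vt e := fun i => M.vt_pow e i
  -- steps of the climb
  have hstep : ∀ i, i < k → M.up (M.fc ((M.σ ^ i) e)) (M.fc ((M.σ ^ (i + 1)) e)) := by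
    intro i hi
    have h1 := M.up_out (c3 (i + 1) (by omega) (by omega))
    rwa [psucc, perm_ia, ← psucc] at h1
  have hmonoX : ∀ i, i ≤ k → M.fc ((M.σ ^ i) e) ∈ X := by
    intro i
    induction i with
    | zero => intro _; exact heX
    | succ i ih => intro hi; exact hX.up _ _ (hstep i (by omega)) (ih (by omega))
  have hle : ∀ i j, i ≤ j → j ≤ k → M.le (M.fc ((M.σ ^ i) e)) (M.fc ((M.σ ^ j) e)) := by
    intro i j hij
    induction j with
    | zero =>
      intro _
      have : i = 0 := by omega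
      rw [this]
      exact M.le_rfl' _
    | succ j ih =>
      intro hj
      rcases Nat.lt_or_ge j i with h1 | h1
      · have : i = j + 1 := by omega
        rw [this]
        exact M.le_rfl' _
      · exact (ih h1 (by omega)).tail (hstep j (by omega))
  -- the local maximum `k`
  have hkmax : SMax M ((M.σ ^ k) e) := by
    refine ⟨⟨c3 k c1 le_rfl, ?_⟩, ?_⟩
    · rw [← psucc]; exact c3'
    · rw [hvp]; exact he.2
  have hkZo : M.fc ((M.σ ^ k) e) ∈ Zo M X := by
    rcases lo_or_zo (M := M) (hmonoX k le_rfl) with h1 | h1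
    · exact absurd h1 (cF5 hG h hkmax)
    · exact h1
  have hex : ∃ j, M.fc ((M.σ ^ j) e) ∈ Zo M X := ⟨k, hkZo⟩
  set j := Nat.find hex with hj
  have hjZo : M.fc ((M.σ ^ j) e) ∈ Zo M X := Nat.find_spec hex
  have hjmin : ∀ i, i < j → M.fc ((M.σ ^ i) e) ∉ Zo M X := fun i hi => Nat.find_min hex hi
  have hjk : j ≤ k := Nat.find_min' hex hkZo
  have hj0 : 0 < j := by
    rcases Nat.eq_zero_or_pos j with h0 | h0
    · exfalso
      rw [h0] at hjZo
      exact lo_not_zo heLo hjZo
    · exact h0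
  -- the clockwise local maximum
  obtain ⟨t, htn, ht⟩ := exists_pow (M := M) (vt_powi (M := M) e k').symm hn0 hper
  have htk : k + 1 < t := by
    by_contra hcon
    rcases Nat.lt_or_ge k t with h1 | h1
    · have h2 : t = k + 1 := by omega
      rw [h2] at ht
      rw [← ht, c3'] at c5
      exact absurd c5 (by decide)
    · exact c6 t k' h1 le_rfl (by omega) ht
  have hxmax : SMax M ((M.σ ^ t) e) := by
    rw [ht]
    refine ⟨⟨c5, ?_⟩, ?_⟩
    · obtain ⟨k0, hk0⟩ : ∃ k0, k' = k0 + 1 := ⟨k' - 1, by omega⟩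
      rw [hk0, psucci]
      exact c4 k0 (by omega)
    · rw [vt_powi]; exact he.2
  have hdisj : ∀ d, M.fc d ∈ Yc M X (M.fc e) → M.fc d ∈ Lo M X :=
    fun d hd => yc_sub (M := M) (X := X) heLo hd
  have hxY : M.fc ((M.σ ^ t) e) ∉ Yc M X (M.fc e) := fun hd => cF5 hG h hxmax (hdisj _ hd)
  have hkY : M.fc ((M.σ ^ k) e) ∉ Yc M X (M.fc e) := fun hd => lo_not_zo (hdisj _ hd) hkZo
  refine ⟨j, k, hj0, hjk, ?_, ?_, c3, c3', ?_, ?_, ⟨hjZo, ?_⟩, ?_, c7⟩
  · intro i
    induction i with
    | zero => intro _; exact yc_self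
    | succ i ih =>
      intro hi
      have h1 := ih (by omega)
      have h2 : M.fc ((M.σ ^ (i + 1)) e) ∈ Lo M X := by
        rcases lo_or_zo (M := M) (hmonoX (i + 1) (by omega)) with h3 | h3
        · exact h3
        · exact absurd h3 (hjmin _ hi)
      exact Relation.ReflTransGen.tail h1 ⟨Or.inl (hstep i (by omega)), h2⟩
  · intro i hi
    induction i with
    | zero =>
      intro _
      have : j = 0 := by omega
      omega
    | succ i ih =>
      intro hik
      rcases Nat.lt_or_ge i j with h1 | h1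
      · have : j = i + 1 := by omega
        rw [← this]
        exact hjZo
      · exact zo_up hX.up _ _ (hstep i (by omega)) (ih h1 (by omega))
  · -- corner `k + 1` is not in `Zo`
    intro hz
    have h1 := loc hG (hvp (k + 1)).symm (cF3 hG h he heX hz)
    rcases c8 _ h1 with ⟨i, hi, hi'⟩ | ⟨i, hi, hi'⟩
    · have h2 := cancel (M := M) (by omega) hi'.symm
      exact c7 (k + 1 - i) (by omega) (by omega) h2
    · rcases Nat.lt_or_ge i k' with h2 | h2
      · have h3 := congrArg (fun x => M.σ⁻¹ x) hi'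
        change M.σ⁻¹ ((M.σ ^ (k + 1)) e) = M.σ⁻¹ ((M.σ⁻¹ ^ i) e) at h3
        rw [psucc, perm_ia] at h3
        have h4 : M.σ⁻¹ ((M.σ⁻¹ ^ i) e) = (M.σ⁻¹ ^ (i + 1)) e := by
          rw [pow_succ', Equiv.Perm.mul_apply]
        rw [h4] at h3
        exact c6 k (i + 1) le_rfl (by omega) (by omega) h3
      · have h3 : i = k' := by omega
        rw [h3] at hi'
        rw [← hi', c3'] at c5
        exact absurd c5 (by decide)
  · -- corner `k + 1` is not in `Y`
    intro hy
    exact runs hdd.disc.cn hdd.disc.cc hmin (Nat.lt_succ_self k) htk htn hkY hy hxY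
      (by rw [hper]; exact yc_self)
  · -- minimality
    intro w hw hwz
    have h1 := cF3 hG h he heX hw
    obtain ⟨m, hm1, hm2, hm3, hm4⟩ := mid hG (hvp j).symm h1 hwz
    rcases c8 _ hm3 with ⟨i, hi, rfl⟩ | ⟨i, hi, rfl⟩
    · have h2 : j ≤ i := by
        by_contra h3
        rw [← hm2] at hw
        exact hjmin i (by omega) hw
      have h3 := hle j i h2 hi
      rw [hm2] at h3
      exact le_antisymm' hG hwz h3
    · rcases Nat.eq_zero_or_pos i with h0 | h0
      · exfalso
        rw [h0] at hm2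
        have h3 : M.fc e = w := hm2
        rw [← h3] at hw
        exact lo_not_zo heLo hw
      · exact (nopath c4 c5 c6 hjk h0 hi hm4).elim
  · -- if corner `k + 1` is in `Lo`
    intro hLo
    by_contra hne
    have hjk' : j < k := by omega
    have hex2 : ∃ r, M.out ((M.σ ^ (k + 1 + r)) e) = true := by
      refine ⟨n + 1 - (k + 1), ?_⟩
      have e1 : k + 1 + (n + 1 - (k + 1)) = 1 + n := by omega
      rw [e1, padd, hper, pow_one]
      exact he.1.2
    set r := Nat.find hex2 with hr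
    have hr1 : M.out ((M.σ ^ (k + 1 + r)) e) = true := Nat.find_spec hex2
    have hrmin : ∀ i, i < r → M.out ((M.σ ^ (k + 1 + i)) e) = false := by
      intro i hi
      have h1 := Nat.find_min hex2 hi
      cases h2 : M.out ((M.σ ^ (k + 1 + i)) e) with
      | false => rfl
      | true => exact absurd h2 h1
    have hr0 : 0 < r := by
      rcases Nat.eq_zero_or_pos r with h0 | h0
      · rw [h0, Nat.add_zero, c3'] at hr1
        exact absurd hr1 (by decide)
      · exact h0
    -- the next local minimum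
    set e' := (M.σ ^ (k + r)) e with he'
    have he'out : M.out e' = false := by
      have h1 := hrmin (r - 1) (by omega)
      have e1 : k + 1 + (r - 1) = k + r := by omega
      rwa [e1] at h1
    have he'min : SMin M e' := by
      refine ⟨⟨he'out, ?_⟩, ?_⟩
      · rw [he', ← psucc]
        have e1 : k + r + 1 = k + 1 + r := by omega
        rw [e1]
        exact hr1
      · rw [he', hvp]; exact he.2
    have hdown : ∀ i, i < r → M.fc ((M.σ ^ (k + 1 + i)) e) ∈ Lo M X := by
      intro i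
      induction i with
      | zero => intro _; exact hLo
      | succ i ih =>
        intro hi
        have h1 := M.up_in (hrmin (i + 1) hi)
        have e1 : k + 1 + (i + 1) = (k + 1 + i) + 1 := by omega
        rw [e1] at h1 ⊢
        rw [psucc _ (k + 1 + i), perm_ia, ← psucc] at h1
        exact lo_dn hX.up _ _ h1 (ih (by omega))
    have he'Lo : M.fc e' ∈ Lo M X := by
      have h1 := hdown (r - 1) (by omega)
      have e1 : k + 1 + (r - 1) = k + r := by omega
      rwa [e1] at h1
    have he'X : M.fc e' ∈ X := he'Lo.1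
    have h1 := cF3 hG h he'min he'X hjZo
    have h2 := loc hG (d := e') (e := (M.σ ^ j) e) (by rw [he', hvp, hvp]) h1
    -- `e' ≠ e`
    have hee : e' ≠ e := by
      intro h3
      by_cases h4 : k' < r
      · have h5 := hrmin (r - 1 - k') (by omega)
        have h6 := back (M := M) e k' (k + r - k')
        have e1 : k' + (k + r - k') = k + r := by omega
        rw [e1, ← he', h3] at h6
        have e2 : k + 1 + (r - 1 - k') = k + r - k' := by omega
        rw [e2, ← h6, c5] at h5
        exact absurd h5 (by decide)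
      · have h6 := back (M := M) e r k
        have e1 : r + k = k + r := by omega
        rw [e1, ← he', h3] at h6
        exact c6 k r le_rfl (by omega) (by omega) h6.symm
    rcases lup_iter h2 with ⟨s, hs, hs'⟩ | ⟨s, hs, hs'⟩
    · rcases Nat.lt_or_ge s j with h3 | h3
      · have h4 : e' = (M.σ ^ (j - s)) e := by
          apply (M.σ ^ s).injective
          rw [← padd e s (j - s), Nat.add_sub_cancel' h3.le]
          exact hs.symm
        have h5 := c3 (j - s) (by omega) (by omega)
        rw [← h4, he'out] at h5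
        exact absurd h5 (by decide)
      · have h4 : (M.σ ^ (s - j)) e' = e := by
          apply (M.σ ^ j).injective
          rw [← padd e' j (s - j), Nat.add_sub_cancel' h3]
          exact hs.symm
        rcases Nat.eq_zero_or_pos (s - j) with h5 | h5
        · rw [h5] at h4
          exact hee h4
        · have h6 := hs' (s - j) h5 (by omega)
          rw [h4, he.1.1] at h6
          exact absurd h6 (by decide)
    · rcases Nat.eq_zero_or_pos s with h3 | h3
      · rw [h3] at hs
        have h4 : e' = (M.σ ^ j) e := hs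
        rw [h4] at he'Lo
        exact lo_not_zo he'Lo hjZo
      · have h4 := hs' 1 (by omega) h3
        rw [pow_one, ← psucc, c3 (j + 1) (by omega) (by omega)] at h4
        exact absurd h4 (by decide)

/-- other local minima at the vertex are in other nodes -/
theorem other_min (hG : Good M) (h : Mn M X) {e e' : D} (he : SMin M e) (heX : M.fc e ∈ X)
    (he' : M.lmin e') (hv : M.vt e' = M.vt e) (hne : e' ≠ e) :
    M.fc e' ∉ Zo M X ∧ M.fc e' ∉ Yc M X (M.fc e) := by
  have hX := h.gu.1
  have he'S : SMin M e' := ⟨he', by rw [hv]; exact he.2⟩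
  refine ⟨fun hz => lo_not_zo (cF4 hG h he'S hz.1) hz, ?_⟩
  intro hy
  obtain ⟨k, k', c1, c2, c3, c3', c4, c5, c6, c7, c8⟩ := climb he
  have heLo := cF4 hG h he heX
  have hdd := yc_dd hG hX heLo
  obtain ⟨n, hn0, hper, hmin⟩ := first (M := M) e
  have hvp : ∀ i, M.vt ((M.σ ^ i) e) = M.vt e := fun i => M.vt_pow e i
  obtain ⟨j, k2, l1, l2, l3, l4, l5, l6, l7, l8, l9, l10, l11⟩ := locU hG h he heX
  have hkk : k2 = k := by
    rcases lt_trichotomy k2 k with h1 | h1 | h1
    · have h2 := c3 (k2 + 1) (by omega) (by omega)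
      rw [l6] at h2
      exact absurd h2 (by decide)
    · exact h1
    · have h2 := l5 (k + 1) (by omega) (by omega)
      rw [c3'] at h2
      exact absurd h2 (by decide)
  rw [hkk] at l4 l2
  have hkY : M.fc ((M.σ ^ k) e) ∉ Yc M X (M.fc e) :=
    fun hd => lo_not_zo (yc_sub heLo hd) (l4 k l2 le_rfl)
  obtain ⟨t, htn, ht⟩ := exists_pow (M := M) (vt_powi (M := M) e k').symm hn0 hper
  have hxmax : SMax M ((M.σ ^ t) e) := by
    rw [ht]
    refine ⟨⟨c5, ?_⟩, ?_⟩
    · obtain ⟨k0, hk0⟩ : ∃ k0, k' = k0 + 1 := ⟨k' - 1, by omega⟩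
      rw [hk0, psucci]
      exact c4 k0 (by omega)
    · rw [vt_powi]; exact he.2
  have hxY : M.fc ((M.σ ^ t) e) ∉ Yc M X (M.fc e) := fun hd => cF5 hG h hxmax (yc_sub heLo hd)
  obtain ⟨t', htn', ht'⟩ := exists_pow (M := M) hv.symm hn0 hper
  have h1 : k < t' := by
    by_contra hcon
    rcases Nat.eq_zero_or_pos t' with h0 | h0
    · rw [h0] at ht'
      exact hne ht'.symm
    · have h2 := c3 t' h0 (by omega)
      rw [ht', he'.1] at h2
      exact absurd h2 (by decide)
  have h2 : t' < t := by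
    by_contra hcon
    rcases Nat.lt_or_ge t t' with h3 | h3
    · -- `e'` would lie on the clockwise climb
      have h4 : n ≤ t + k' := by
        by_contra h5
        apply hmin (t + k') (by omega) (by omega)
        have h6 := forw (M := M) e k' 0
        rw [Nat.add_zero, ← ht, ← padd] at h6
        rw [Nat.add_comm t k']
        exact h6
      have h5 := forw (M := M) e (t' - t) (k' - (t' - t))
      have e1 : t' - t + (k' - (t' - t)) = k' := by omega
      rw [e1, ← ht, ← padd] at h5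
      have e2 : t' - t + t = t' := by omega
      rw [e2, ht'] at h5
      obtain ⟨w, hw⟩ : ∃ w, k' - (t' - t) = w + 1 := ⟨k' - (t' - t) - 1, by omega⟩
      rw [hw] at h5
      have h6 := he'.2
      rw [h5, psucci, c4 w (by omega)] at h6
      exact absurd h6 (by decide)
    · have h4 : t = t' := by omega
      rw [← h4, ht] at ht'
      have h5 := he'.1
      rw [← ht', c5] at h5
      exact absurd h5 (by decide)
  refine runs hdd.disc.cn hdd.disc.cc hmin h1 h2 htn hkY ?_ hxY (by rw [hper]; exact yc_self)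
  rw [ht']
  exact hy

end Pool.Agent.Lib.PLQ
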