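import Mathlib
import Pool.Agent.Lib.PLQ.DiscA

set_option autoImplicit false
set_option linter.unusedSectionVars false
set_option linter.unusedVariables false

/-! Module DiscB.  For `DDisc` pass to the complement (`bd_compl`); for `UDisc` use `disc_next`. -/

namespace Pool.Agent.Lib.PLQ

open Finset Pool.Agent.Lib.NK
open scoped Classical

variable {V D F : Type} [Fintype V] [Fintype D] [Fintype F] {M : PM V D F}

namespace DiscBAux

theorem del_tau (X : Set F) (d : D) : M.del X (M.τ d) ↔ M.del X d := by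
  unfold PM.del
  rw [M.fc_tau, M.fc_ti, not_iff_not]
  exact Iff.comm

theorem del_compl (X : Set F) (d : D) : M.del Xᶜ d ↔ M.del X d := by
  unfold PM.del
  rw [Set.mem_compl_iff, Set.mem_compl_iff, not_iff_not, not_iff_not]

theorem const_up (hG : Good M) {X : Set F} (hX : M.UDisc X) (v0 : V) (g : D → Prop)
    (hτ : ∀ d, g (M.τ d) ↔ g d)
    (h : ∀ d e, M.vt d = M.vt e → M.vt d ≠ v0 → M.del X d → M.del X e → (g d ↔ g e))
    {d e : D} (hd : M.del X d) (he : M.del X e) : g d ↔ g e := by
  obtain ⟨nx, p, hA, hB, -, hD⟩ := disc_next hG hX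
  have hp : ∀ v ∈ M.bd X, M.del X (p v) := fun v hv hiff =>
    (hA v hv).2.2.2.1 (hiff.1 (hA v hv).2.2.1)
  have hit : ∀ v ∈ M.bd X, ∀ k : ℕ, nx^[k] v ∈ M.bd X := by
    intro v hv k
    induction k with
    | zero => exact hv
    | succ k ih =>
      rw [Function.iterate_succ_apply']
      exact (hA _ ih).2.2.2.2.2
  have hstep : ∀ v ∈ M.bd X, nx v ≠ v0 → (g (p (nx v)) ↔ g (p v)) := by
    intro v hv hne
    obtain ⟨h1, h2, h3, h4, h5, h6⟩ := hA v hv
    rw [← hτ (p v)]
    refine h _ _ ?_ ?_ (hp _ h6) ((del_tau X (p v)).2 (hp v hv))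
    · rw [(hA _ h6).1, h5]
    · rw [(hA _ h6).1]
      exact hne
  have key : ∀ v ∈ M.bd X, ∀ k : ℕ, (∀ j, j < k → nx^[j + 1] v ≠ v0) →
      (g (p (nx^[k] v)) ↔ g (p v)) := by
    intro v hv k
    induction k with
    | zero => intro _; exact Iff.rfl
    | succ k ih =>
      intro hk
      rw [← ih fun j hj => hk j (Nat.lt_succ_of_lt hj), Function.iterate_succ_apply']
      refine hstep _ (hit v hv k) ?_
      have h1 := hk k (Nat.lt_succ_self k)
      rwa [Function.iterate_succ_apply'] at h1
  have hall : ∀ v ∈ M.bd X, ∀ w ∈ M.bd X, (g (p v) ↔ g (p w)) := by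
    by_cases h0 : v0 ∈ M.bd X
    · have h1 : ∀ w ∈ M.bd X, (g (p w) ↔ g (p v0)) := by
        intro w hw
        have hex := hD v0 h0 w hw
        have h2 := Nat.find_spec hex
        have h3 := key v0 h0 (Nat.find hex) (by
          intro j hj heq
          have h4 : nx^[Nat.find hex - (j + 1)] v0 = w := by
            have h5 : Nat.find hex = (Nat.find hex - (j + 1)) + (j + 1) := by omega
            rw [h5, Function.iterate_add_apply, heq] at h2
            exact h2
          exact Nat.find_min hex (by omega) h4)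
        rw [h2] at h3
        exact h3
      intro v hv w hw
      rw [h1 v hv, h1 w hw]
    · intro v hv w hw
      obtain ⟨k, hk⟩ := hD v hv w hw
      have h1 := key v hv k fun j _ heq => h0 (heq ▸ hit v hv (j + 1))
      rw [hk] at h1
      exact h1.symm
  have hred : ∀ d, M.del X d → ∃ v ∈ M.bd X, (g d ↔ g (p v)) := by
    intro d hd
    obtain ⟨h1, h2 | ⟨v, hv, h2⟩⟩ := hB d hd
    · exact ⟨_, h1, by rw [← h2]⟩
    · exact ⟨v, hv, by rw [h2, hτ]⟩
  obtain ⟨v, hv, h1⟩ := hred d hd
  obtain ⟨w, hw, h2⟩ := hred e he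
  rw [h1, h2]
  exact hall v hv w hw

end DiscBAux

/-- a property of the boundary arcs which does not change at any vertex except possibly `v0` is
constant (the dicycle minus one vertex is connected) -/
theorem bd_const (hG : Good M) {X : Set F} (hX : M.UDisc X ∨ M.DDisc X) (v0 : V) (g : D → Prop)
    (hτ : ∀ d, g (M.τ d) ↔ g d)
    (h : ∀ d e, M.vt d = M.vt e → M.vt d ≠ v0 → M.del X d → M.del X e → (g d ↔ g e))
    {d e : D} (hd : M.del X d) (he : M.del X e) : g d ↔ g e := by
  rcases hX with hX | hX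
  · exact DiscBAux.const_up hG hX v0 g hτ h hd he
  · exact DiscBAux.const_up hG (DDisc.compl hX) v0 g hτ
      (fun d e h1 h2 h3 h4 => h d e h1 h2 ((DiscBAux.del_compl X d).1 h3)
        ((DiscBAux.del_compl X e).1 h4))
      ((DiscBAux.del_compl X d).2 hd) ((DiscBAux.del_compl X e).2 he)

end Pool.Agent.Lib.PLQ
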