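import Mathlib
import Pool.Agent.Lib.PLQ.CfgC

set_option autoImplicit false
set_option linter.unusedSectionVars false
set_option linter.unusedVariables false

/-! Module NodA: common vertices of nodes. -/

namespace Pool.Agent.Lib.PLQ

open Finset Pool.Agent.Lib.NK
open scoped Classical

variable {V D F : Type} [Fintype V] [Fintype D] [Fintype F] {M : PM V D F} {X Y : Set F}

namespace NodAAux

/-- going down around a vertex one reaches a local minimum -/
theorem down (hG : Good M) (d : D) : ∃ e, M.vt e = M.vt d ∧ M.le (M.fc e) (M.fc d) ∧ M.lmin e := by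
  obtain ⟨e, he, hmin⟩ := exists_min_image
    (univ.filter (fun e => M.vt e = M.vt d ∧ M.le (M.fc e) (M.fc d)))
    (fun e => (univ.filter (fun x => M.le x (M.fc e))).card)
    ⟨d, mem_filter.2 ⟨mem_univ _, rfl, M.le_rfl' _⟩⟩
  rw [mem_filter] at he
  have key : ∀ c, M.vt c = M.vt e → M.up (M.fc c) (M.fc e) → False := by
    intro c hc hup
    have h1 := hmin c (mem_filter.2 ⟨mem_univ _, hc.trans he.2.1, (M.up_le hup).trans he.2.2⟩)
    have h2 : (univ.filter (fun x => M.le x (M.fc c))) ⊂ (univ.filter (fun x => M.le x (M.fc e))) := by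
      rw [Finset.ssubset_iff_of_subset]
      · refine ⟨M.fc e, mem_filter.2 ⟨mem_univ _, M.le_rfl' _⟩, fun h3 => ?_⟩
        exact up_ne hG hup (le_antisymm' hG (M.up_le hup) (mem_filter.1 h3).2)
      · intro x hx
        rw [mem_filter] at hx ⊢
        exact ⟨hx.1, hx.2.tail hup⟩
    have h3 := card_lt_card h2
    omega
  refine ⟨e, he.2.1, he.2.2, ?_⟩
  constructor
  · cases h : M.out e
    · rfl
    · exact (key (M.σ⁻¹ e) (M.vt_inv e) (M.up_out h)).elim
  · cases h : M.out (M.σ e)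
    · exfalso
      refine key (M.σ e) (M.vt_sig e) ?_
      have := M.up_in h
      rwa [perm_ia] at this
    · rfl

theorem dn_le {N : Set F} (hN : M.DnC N) {x y : F} (h : M.le x y) (hy : y ∈ N) : x ∈ N := by
  induction h using Relation.ReflTransGen.head_induction_on with
  | refl => exact hy
  | head h1 _ ih => exact hN _ _ h1 ih

theorem sub_X {N : Set F} (hN : Node M X N) (h1 : N ≠ Xᶜ) : N ⊆ X := by
  rcases hN with h | ⟨y, hy, rfl⟩
  · exact absurd h h1
  · exact fun z hz => (yc_sub hy hz).1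

theorem dj_zo {N : Set F} (hN : Node M X N) : Disjoint N (Zo M X) :=
  Set.disjoint_left.2 fun _ hz => node_notz hN hz

end NodAAux

open NodAAux

/-- two components of `Lo` share at most one vertex (`flank` with `K, K'` the two components,
`C = Xᶜ ∪ Zo`) -/
theorem yy_share (hG : Good M) (h : Mn M X) {N N' : Set F} (hN : Node M X N) (hN' : Node M X N')
    (hne : N ≠ N') (h1 : N ≠ Xᶜ) (h2 : N' ≠ Xᶜ) {u w : V} (hu : u ∈ M.bd N) (hu' : u ∈ M.bd N')
    (hw : w ∈ M.bd N) (hw' : w ∈ M.bd N') : u = w := by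
  by_contra huw
  have hX : M.UDisc X := h.gu.1
  obtain ⟨hA1, hA2⟩ := PairsAux.bdAt hu
  obtain ⟨e, he, he2, he1⟩ := PairsAux.enter hA1 hA2
  obtain ⟨q, hq, hq1, hq2⟩ := PairsAux.leave hA1 hA2
  have hdN := (node_dd hG hX hN).disc
  have hdN' := (node_dd hG hX hN').disc
  have hd : ∀ {L : Set F}, Node M X L → L ≠ Xᶜ → Disjoint L (Xᶜ ∪ Zo M X) := by
    intro L hL hL1
    rw [Set.disjoint_union_right]
    exact ⟨(node_disj hL (Or.inl rfl) hL1), dj_zo hL⟩
  refine flank hdN.cn hdN.cc hdN'.cn (conn_PZ hX) (node_disj hN hN' hne) (hd hN h1) (hd hN' h2)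
    huw (PairsAux.bdAt hw).1 (PairsAux.bdAt hu').1 (PairsAux.bdAt hw').1 he hq he1 ?_ hq1 ?_
  · exact Or.inr (node_out hX hN he1 he2 (M.adj_symm (M.adj_dart e)))
  · exact Or.inr (node_out hX hN hq1 hq2 (M.adj_dart q))

/-- if a component `N` of `Lo` shares two vertices with `P`, then all saddle-minima of `X` are in
`N` (otherwise `flank` with `K = N`, `K' = Xᶜ`, `C = Yc (fc e) ∪ Zo`) -/
theorem yp_smin (hG : Good M) (h : Mn M X) {N : Set F} (hN : Node M X N) (h1 : N ≠ Xᶜ) {u w : V}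
    (huw : u ≠ w) (hu : u ∈ M.bd N) (hu' : u ∈ M.bd Xᶜ) (hw : w ∈ M.bd N) (hw' : w ∈ M.bd Xᶜ)
    {e : D} (he : SMin M e) (heX : M.fc e ∈ X) : M.fc e ∈ N := by
  by_contra heN
  have hX : M.UDisc X := h.gu.1
  have hlo := cF4 hG h he heX
  have hNe : Node M X (Yc M X (M.fc e)) := Or.inr ⟨_, hlo, rfl⟩
  have hne : N ≠ Yc M X (M.fc e) := by
    intro h2
    rw [h2] at heN
    exact heN yc_self
  obtain ⟨hA1, hA2⟩ := PairsAux.bdAt hu
  obtain ⟨c, hc, hc2, hc1⟩ := PairsAux.enter hA1 hA2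
  obtain ⟨q, hq, hq1, hq2⟩ := PairsAux.leave hA1 hA2
  have hdN := (node_dd hG hX hN).disc
  have hP : Node M X Xᶜ := Or.inl rfl
  refine flank hdN.cn hdN.cc hX.disc.cc (conn_YZ hG h he heX) (node_disj hN hP h1) ?_ ?_
    huw (PairsAux.bdAt hw).1 (PairsAux.bdAt hu').1 (PairsAux.bdAt hw').1 hc hq hc1 ?_ hq1 ?_
  · rw [Set.disjoint_union_right]
    exact ⟨node_disj hN hNe hne, dj_zo hN⟩
  · rw [Set.disjoint_union_right]
    refine ⟨?_, dj_zo hP⟩
    rw [Set.disjoint_left]
    intro z hz hz'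
    exact hz (yc_sub hlo hz').1
  · exact Or.inr (node_out hX hN hc1 hc2 (M.adj_symm (M.adj_dart c)))
  · exact Or.inr (node_out hX hN hq1 hq2 (M.adj_dart q))

/-- a common vertex of two nodes is a saddle with a local minimum in each of them (go down around
the vertex from a corner of the down-closed node) -/
theorem node_touch (hG : Good M) (h : Mn M X) {N N' : Set F} (hN : Node M X N)
    (hN' : Node M X N') (hne : N ≠ N') {v : V} (hv : M.At N v) (hv' : M.At N' v) :
    ∃ e, SMin M e ∧ M.vt e = v ∧ M.fc e ∈ N := by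
  have hX : M.UDisc X := h.gu.1
  obtain ⟨d, hd, hdN⟩ := hv
  obtain ⟨d', hd', hdN'⟩ := hv'
  obtain ⟨e, he1, he2, he3⟩ := down hG d
  obtain ⟨e', he1', he2', he3'⟩ := down hG d'
  have h1 : M.fc e ∈ N := dn_le (node_dd hG hX hN).dn he2 hdN
  have h2 : M.fc e' ∈ N' := dn_le (node_dd hG hX hN').dn he2' hdN'
  have h3 : e ≠ e' := by
    rintro rfl
    exact Set.disjoint_left.1 (node_disj hN hN' hne) h1 h2
  refine ⟨e, ⟨he3, e, e', h3, rfl, ?_, he3, he3'⟩, he1.trans hd, h1⟩
  rw [he1', hd', he1, hd]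

theorem at_bd (hX : M.UDisc X) {N N' : Set F} (hN : Node M X N) (hN' : Node M X N')
    (hne : N ≠ N') {v : V} (hv : M.At N v) (hv' : M.At N' v) : v ∈ M.bd N := by
  obtain ⟨d', hd', hdN'⟩ := hv'
  unfold PM.bd
  rw [mem_filter]
  exact ⟨mem_univ _, hv, d', hd', fun hc => Set.disjoint_left.1 (node_disj hN hN' hne) hc hdN'⟩

end Pool.Agent.Lib.PLQ
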