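import Mathlib
import Pool.Agent.Lib.PLQ.NodA
import Pool.Agent.Lib.PLQ.DiscB

set_option autoImplicit false
set_option linter.unusedSectionVars false
set_option linter.unusedVariables false

/-! Module NodB: the nodes along the boundary of a down-piece of a minimal face of `Zo` (`inn` in Defs is the face on the inner side of a boundary dart). -/

namespace Pool.Agent.Lib.PLQ

open Finset Pool.Agent.Lib.NK
open scoped Classical

variable {V D F : Type} [Fintype V] [Fintype D] [Fintype F] {M : PM V D F} {X Y : Set F}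

namespace NodBAux

/-- the inner face is in the set, the other face of the arc is not -/
theorem inn_mem {Q : Set F} {d : D} (hd : M.del Q d) :
    inn M Q d ∈ Q ∧ ∃ o, o ∉ Q ∧ M.adj (inn M Q d) o := by
  unfold inn
  unfold PM.del at hd
  by_cases h : M.fc d ∈ Q
  · rw [if_pos h]
    have h' : M.fc (M.σ⁻¹ d) ∉ Q := fun h' => hd ⟨fun _ => h', fun _ => h⟩
    exact ⟨h, _, h', M.adj_symm (M.adj_dart d)⟩
  · rw [if_neg h]
    have h' : M.fc (M.σ⁻¹ d) ∈ Q := by
      by_contra h'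
      exact hd ⟨fun h1 => absurd h1 h, fun h1 => absurd h1 h'⟩
    exact ⟨h', _, h, M.adj_dart d⟩

/-- the inner face has a corner at the vertex of the dart -/
theorem inn_at {Q : Set F} (d : D) : ∃ x, M.vt x = M.vt d ∧ M.fc x = inn M Q d := by
  unfold inn
  by_cases h : M.fc d ∈ Q
  · rw [if_pos h]
    exact ⟨d, rfl, rfl⟩
  · rw [if_neg h]
    exact ⟨M.σ⁻¹ d, M.vt_inv d, rfl⟩

theorem inn_tau {Q : Set F} {d : D} (hd : M.del Q d) : inn M Q (M.τ d) = inn M Q d := by
  unfold inn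
  unfold PM.del at hd
  rw [M.fc_tau, M.fc_ti]
  by_cases h : M.fc d ∈ Q
  · rw [if_pos h]
    have h' : M.fc (M.σ⁻¹ d) ∉ Q := fun h' => hd ⟨fun _ => h', fun _ => h⟩
    rw [if_neg h']
  · rw [if_neg h]
    have h' : M.fc (M.σ⁻¹ d) ∈ Q := by
      by_contra h'
      exact hd ⟨fun h1 => absurd h1 h, fun h1 => absurd h1 h'⟩
    rw [if_pos h']

end NodBAux

open NodBAux

/-- inner faces at the boundary of a down-piece of a minimal face `z` of `Zo` are in nodes -/
theorem inn_node (hG : Good M) (hX : M.UDisc X) {z y : F} (hz : Zmin M X z)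
    (hy : y ∉ Phi M.rev z) {d : D} (hd : M.del (DP M z y) d) :
    inn M (DP M z y) d ∉ Zo M X ∧ M.le (inn M (DP M z y) d) z := by
  obtain ⟨h1, o, h2, h3⟩ := inn_mem hd
  obtain ⟨-, h4, h5⟩ := dp_inner hy h1 h2 h3
  exact ⟨zmin_lower hX.up hz h4 h5, h4⟩

/-- If the inner faces of two boundary darts of the down-piece `Q` are inside and outside the node
`N`, then at some vertex `w ≠ v0` the two boundary darts of `Q` have inner faces in `N` and in
another node `N'` (by `bd_const` applied to the property `inn Q d ∈ N`). -/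
theorem two_nodes (hG : Good M) (h : Mn M X) {z y : F} (hz : Zmin M X z)
    (hy : y ∉ Phi M.rev z) {N : Set F} (hN : Node M X N) {d e : D} (hd : M.del (DP M z y) d)
    (he : M.del (DP M z y) e) (hdN : inn M (DP M z y) d ∈ N) (heN : inn M (DP M z y) e ∉ N)
    (v0 : V) :
    ∃ (N' : Set F) (d' e' : D), Node M X N' ∧ N' ≠ N ∧ M.vt d' = M.vt e' ∧ M.vt d' ≠ v0 ∧
      M.del (DP M z y) d' ∧ M.del (DP M z y) e' ∧ inn M (DP M z y) d' ∈ N ∧
      inn M (DP M z y) e' ∈ N' ∧ M.vt d' ∈ M.bd N ∧ M.vt d' ∈ M.bd N' := by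
  have hX : M.UDisc X := h.gu.1
  have hDD : M.DDisc (DP M z y) := dp_dd hG hy
  -- from a change at a vertex
  have main : ∀ d' e' : D, M.vt d' = M.vt e' → M.vt d' ≠ v0 → M.del (DP M z y) d' →
      M.del (DP M z y) e' → inn M (DP M z y) d' ∈ N → inn M (DP M z y) e' ∉ N →
      ∃ (N' : Set F) (d' e' : D), Node M X N' ∧ N' ≠ N ∧ M.vt d' = M.vt e' ∧ M.vt d' ≠ v0 ∧
        M.del (DP M z y) d' ∧ M.del (DP M z y) e' ∧ inn M (DP M z y) d' ∈ N ∧
        inn M (DP M z y) e' ∈ N' ∧ M.vt d' ∈ M.bd N ∧ M.vt d' ∈ M.bd N' := by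
    intro d' e' h1 h2 h3 h4 h5 h6
    obtain ⟨N', hN', h7⟩ := node_of (M := M) (X := X) (inn_node hG hX hz hy h4).1
    have hne : N' ≠ N := by
      rintro rfl
      exact h6 h7
    obtain ⟨x, hx, hx'⟩ := inn_at (M := M) (Q := DP M z y) d'
    obtain ⟨w, hw, hw'⟩ := inn_at (M := M) (Q := DP M z y) e'
    have hA : M.At N (M.vt d') := ⟨x, hx, by rw [hx']; exact h5⟩
    have hB : M.At N' (M.vt d') := ⟨w, by rw [hw, h1], by rw [hw']; exact h7⟩
    exact ⟨N', d', e', hN', hne, h1, h2, h3, h4, h5, h7, at_bd hX hN hN' hne.symm hA hB,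
      at_bd hX hN' hN hne hB hA⟩
  by_contra hcon
  have key := bd_const hG (Or.inr hDD) v0 (fun d => M.del (DP M z y) d ∧ inn M (DP M z y) d ∈ N)
    (by
      intro d
      constructor
      · rintro ⟨h1, h2⟩
        have h3 := (DiscBAux.del_tau (M := M) (DP M z y) d).1 h1
        rw [inn_tau h3] at h2
        exact ⟨h3, h2⟩
      · rintro ⟨h1, h2⟩
        refine ⟨(DiscBAux.del_tau (M := M) (DP M z y) d).2 h1, ?_⟩
        rw [inn_tau h1]
        exact h2)
    (by
      intro d' e' h1 h2 h3 h4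
      constructor
      · rintro ⟨-, h5⟩
        refine ⟨h4, ?_⟩
        by_contra h6
        exact hcon (main d' e' h1 h2 h3 h4 h5 h6)
      · rintro ⟨-, h5⟩
        refine ⟨h3, ?_⟩
        by_contra h6
        exact hcon (main e' d' h1.symm (by rw [← h1]; exact h2) h4 h3 h5 h6))
    hd he
  exact heN (key.1 ⟨hd, hdN⟩).2

/-- If any two nodes share at most one vertex, then all inner faces at the boundary of a down-piece
of a minimal face of `Zo` are in one node.  Proof: otherwise `ring_family` for the family of the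
nodes which occur, using `two_nodes`. -/
theorem one_node (hG : Good M) (h : Mn M X)
    (hI : ∀ N N', Node M X N → Node M X N' → N ≠ N' → ∀ u w, u ∈ M.bd N → u ∈ M.bd N' →
      w ∈ M.bd N → w ∈ M.bd N' → u = w)
    {z y : F} (hz : Zmin M X z) (hy : y ∉ Phi M.rev z) {N : Set F} (hN : Node M X N) {d e : D}
    (hd : M.del (DP M z y) d) (he : M.del (DP M z y) e) (hdN : inn M (DP M z y) d ∈ N) :
    inn M (DP M z y) e ∈ N := by
  by_contra heN
  have hX : M.UDisc X := h.gu.1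
  haveI : Nonempty V := ⟨M.vt d⟩
  set Fam : Finset (Set F) := univ.filter (fun N' =>
    Node M X N' ∧ ∃ d, M.del (DP M z y) d ∧ inn M (DP M z y) d ∈ N') with hFam
  have memF : ∀ N', N' ∈ Fam ↔ (Node M X N' ∧ ∃ d, M.del (DP M z y) d ∧
      inn M (DP M z y) d ∈ N') := by
    intro N'
    rw [hFam, mem_filter]
    exact ⟨fun h => h.2, fun h => ⟨mem_univ _, h⟩⟩
  refine hG.nr (ring_family Fam (fun N' => M.bd N') ?_ ⟨N, (memF N).2 ⟨hN, d, hd, hdN⟩⟩ ?_ ?_)
  · intro N' hN'
    exact disc_circ hG (Or.inr (node_dd hG hX ((memF N').1 hN').1))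
  · intro N1 hN1 N2 hN2 hne u w h1 h2 h3 h4
    exact hI N1 N2 ((memF N1).1 hN1).1 ((memF N2).1 hN2).1 hne u w h1 h2 h3 h4
  · intro N1 hN1 v
    obtain ⟨hn1, d1, hd1, hdN1⟩ := (memF N1).1 hN1
    obtain ⟨e1, he1, heN1⟩ : ∃ e1, M.del (DP M z y) e1 ∧ inn M (DP M z y) e1 ∉ N1 := by
      by_cases hNN : N1 = N
      · exact ⟨e, he, by rw [hNN]; exact heN⟩
      · refine ⟨d, hd, fun h1 => ?_⟩
        exact Set.disjoint_left.1 (node_disj hn1 hN hNN) h1 hdN
    obtain ⟨N', d', e', hN', hne, h1, h2, h3, h4, h5, h6, h7, h8⟩ :=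
      two_nodes hG h hz hy hn1 hd1 he1 hdN1 heN1 v
    exact ⟨M.vt d', h7, h2, N', (memF N').2 ⟨hN', e', h4, h6⟩, hne, h8⟩

end Pool.Agent.Lib.PLQ
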