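import Mathlib
import Pool.Agent.Lib.PLQ.LocU
import Pool.Agent.Lib.PLQ.NodB

set_option autoImplicit false
set_option linter.unusedSectionVars false
set_option linter.unusedVariables false

/-! Module R2P. -/

namespace Pool.Agent.Lib.PLQ

open Finset Pool.Agent.Lib.NK
open scoped Classical

variable {V D F : Type} [Fintype V] [Fintype D] [Fintype F] {M : PM V D F} {X Y : Set F}

namespace R2PAux

theorem conn_single (b : F) : M.Conn ({b} : Set F) := by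
  intro x hx y hy
  rw [Set.mem_singleton_iff] at hx hy
  rw [hx, hy]

/-- a dart between adjacent faces -/
theorem dart_of_adj {x y : F} (h : M.adj x y) :
    ∃ d, (M.fc d = x ∧ M.fc (M.σ⁻¹ d) = y) ∨ (M.fc d = y ∧ M.fc (M.σ⁻¹ d) = x) := by
  rcases h with ⟨d, _, h1, h2⟩ | ⟨d, _, h1, h2⟩
  · exact ⟨d, Or.inr ⟨h2, h1⟩⟩
  · exact ⟨d, Or.inl ⟨h2, h1⟩⟩

theorem bdry {Q : Set F} {s t : F} (hs : s ∈ Q) (ht : t ∉ Q) (h : M.adj s t) :
    ∃ d, M.del Q d ∧ inn M Q d = s := by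
  obtain ⟨d, ⟨h1, h2⟩ | ⟨h1, h2⟩⟩ := dart_of_adj h
  · refine ⟨d, ?_, ?_⟩
    · unfold PM.del
      rw [h1, h2]
      tauto
    · unfold inn
      rw [if_pos (by rw [h1]; exact hs)]
      exact h1
  · refine ⟨d, ?_, ?_⟩
    · unfold PM.del
      rw [h1, h2]
      tauto
    · unfold inn
      rw [if_neg (by rw [h1]; exact ht)]
      exact h2

theorem upc_le (hX : M.UpC X) {a c : F} (h : M.le a c) (ha : a ∈ X) : c ∈ X := by
  induction h with
  | refl => exact ha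
  | tail _ h ih => exact hX _ _ h ih

/-- the period of a dart -/
theorem exists_period (e : D) : ∃ N : ℕ, 0 < N ∧ (M.σ ^ N) e = e ∧
    ∀ m, 0 < m → m < N → (M.σ ^ m) e ≠ e := by
  have h1 : ∃ N : ℕ, 0 < N ∧ (M.σ ^ N) e = e :=
    ⟨orderOf M.σ, orderOf_pos M.σ, by rw [pow_orderOf_eq_one]; rfl⟩
  refine ⟨Nat.find h1, (Nat.find_spec h1).1, (Nat.find_spec h1).2, ?_⟩
  intro m hm hmN h2
  exact Nat.find_min h1 hmN ⟨hm, h2⟩

theorem pow_add_apply (σ : Equiv.Perm D) (a b : ℕ) (d : D) :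
    (σ ^ a) ((σ ^ b) d) = (σ ^ (a + b)) d := by
  rw [pow_add, Equiv.Perm.mul_apply]

/-- no return before the period -/
theorem no_ret {σ : Equiv.Perm D} {e : D} {a m : ℕ} (h : (σ ^ m) ((σ ^ a) e) = (σ ^ a) e) :
    (σ ^ m) e = e := by
  rw [pow_add_apply, add_comm, ← pow_add_apply] at h
  exact (σ ^ a).injective h

end R2PAux

open R2PAux PieceAux PairsAux in
/-- Situation of `locU` with `j < k` and corner `k+1` in `P`.  Let `β = σ^j e`, `b = fc β`,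
`Q = DP b (fc (σ⁻¹ β))`, `U = UP b (fc (σ β))`.  Then some inner face at the boundary of `Q` is in
`P`.  Proof: suppose not.  Then `Q ∩ P = ∅` (if `P` is not contained in `Q`, `P` connected gives an
inner face in `P`; if `P ⊆ Q`, the lower neighbour `w ∈ P` of `b` from `zmin_P` is one).
`U ∩ P = ∅`: `P` has no face above `b`, is connected and contains a neighbour of `b`, so
`P ⊆ Phi b`.  Let `t ≠ vt e` be an end of the arc between `b` and `w`; `b` and `P` are at `t`.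
By `R2` there is `v ≠ vt e` in `bd U ∩ bd Q`; by `ud_share` the two neighbours of the corner of `b`
at `v` are in `U` and `Q`, so `v ≠ t` (at `t` one of the neighbours is `w ∈ P`).  Now `third` with
`H = {b}`, `H' = P`, `Y = Q`, `P = U` at `vt e` (order `σ⁻¹ β ∈ Q`, `β`, `σ β ∈ U`, ..., corner
`k+1 ∈ P`), `u2 = t`, `u3 = v`. -/
theorem r2P (hG : Good M) (h : Mn M X) {e : D} (he : SMin M e) (heX : M.fc e ∈ X) {j k : ℕ}
    (hj : 0 < j) (hjk : j < k)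
    (hY : ∀ i, i < j → M.fc ((M.σ ^ i) e) ∈ Yc M X (M.fc e))
    (hZ : ∀ i, j ≤ i → i ≤ k → M.fc ((M.σ ^ i) e) ∈ Zo M X)
    (ho : ∀ i, 0 < i → i ≤ k → M.out ((M.σ ^ i) e) = true)
    (hk : M.out ((M.σ ^ (k + 1)) e) = false)
    (hP : M.fc ((M.σ ^ (k + 1)) e) ∉ X) (hzm : Zmin M X (M.fc ((M.σ ^ j) e)))
    (hper : ∀ i, 0 < i → i ≤ k + 1 → (M.σ ^ i) e ≠ e) :
    ∃ d, M.del (DP M (M.fc ((M.σ ^ j) e)) (M.fc ((M.σ ^ (j - 1)) e))) d ∧
      inn M (DP M (M.fc ((M.σ ^ j) e)) (M.fc ((M.σ ^ (j - 1)) e))) d ∉ X := by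
  have hX : M.UDisc X := h.gu.1
  obtain ⟨β, hβ⟩ : ∃ β, β = (M.σ ^ j) e := ⟨_, rfl⟩
  have hβi : M.σ⁻¹ β = (M.σ ^ (j - 1)) e := by
    obtain ⟨i, rfl⟩ : ∃ i, j = i + 1 := ⟨j - 1, by omega⟩
    rw [hβ, pow_succ', Equiv.Perm.mul_apply, perm_ia, Nat.add_sub_cancel]
  have hβs : M.σ β = (M.σ ^ (j + 1)) e := by
    rw [hβ, pow_succ', Equiv.Perm.mul_apply]
  rw [← hβi, ← hβ]
  have hoβ : M.out β = true := hβ ▸ ho j hj hjk.le
  have hosβ : M.out (M.σ β) = true := hβs ▸ ho (j + 1) (by omega) (by omega)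
  rw [← hβ] at hzm
  obtain ⟨b, hb⟩ : ∃ b, b = M.fc β := ⟨_, rfl⟩
  rw [← hb] at hzm ⊢
  have hbX : b ∈ X := hzm.1.1
  -- the two pieces
  have hlow : M.up (M.fc (M.σ⁻¹ β)) b := hb ▸ M.up_out hoβ
  have hupp : M.up b (M.fc (M.σ β)) := by
    have := M.up_out hosβ
    rwa [perm_ia, ← hb] at this
  have hyQ : M.fc (M.σ⁻¹ β) ∉ Phi M.rev b := phi_below (M.up_le hlow) (up_ne hG hlow)
  have hyU : M.fc (M.σ β) ∉ Phi M b := phi_above (M.up_le hupp) (up_ne hG hupp).symm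
  obtain ⟨Q, hQ⟩ : ∃ Q, Q = DP M b (M.fc (M.σ⁻¹ β)) := ⟨_, rfl⟩
  obtain ⟨U, hU⟩ : ∃ U, U = UP M b (M.fc (M.σ β)) := ⟨_, rfl⟩
  rw [← hQ]
  by_contra hcon
  push Not at hcon
  have hQd : M.DDisc Q := hQ ▸ dp_dd hG hyQ
  have hUd : M.UDisc U := hU ▸ up_ud hG hyU
  have hbQ : b ∉ Q := by
    have h1 := phic (M := M.rev) hyQ (b_phi (M := M.rev) b)
    rw [hQ]
    exact h1
  have hbU : b ∉ U := by
    have h1 := phic (M := M) hyU (b_phi (M := M) b)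
    rw [hU]
    exact h1
  obtain ⟨p, hpX, hpb⟩ := zmin_P hG hX hzm
  have hadj : M.adj p b := Or.inl hpb
  -- `Q` and `P` are disjoint
  have hQX : ∀ z, z ∈ Q → z ∈ X := by
    intro z hz
    by_contra hzX
    by_cases hex : ∃ p', p' ∉ X ∧ p' ∉ Q
    · obtain ⟨p', hp'X, hp'Q⟩ := hex
      obtain ⟨s, t, hst, hsQ, hsX, htQ, -⟩ := exit_step (M := M) (X := Q) (Y := Xᶜ)
        (hX.disc.cc z hzX p' hp'X) hz hzX hp'Q
      obtain ⟨d, hd1, hd2⟩ := bdry hsQ htQ hst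
      exact hsX (hd2 ▸ hcon d hd1)
    · push Not at hex
      obtain ⟨d, hd1, hd2⟩ := bdry (hex p hpX) hbQ hadj
      exact hpX (hd2 ▸ hcon d hd1)
  -- `U` and `P` are disjoint
  have hPphi : ∀ z, z ∉ X → z ∈ Phi M b := by
    have hna : ∀ z, z ∉ X → ¬ (M.le b z ∧ z ≠ b) := fun z hz hz' => hz (upc_le hX.up hz'.1 hbX)
    intro z hz
    have h1 := hX.disc.cc p hpX z hz
    have h2 : Relation.ReflTransGen (fun x z => M.adj x z ∧ ¬ (M.le b z ∧ z ≠ b)) p z := by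
      refine Relation.ReflTransGen.mono ?_ p z h1
      rintro u v ⟨h3, h4⟩
      exact ⟨h3, hna v h4⟩
    exact Relation.ReflTransGen.head ⟨M.adj_symm hadj, hna p hpX⟩ h2
  have hUX : ∀ z, z ∈ U → z ∈ X := by
    intro z hz
    by_contra hzX
    rw [hU] at hz
    exact up_sub_phi hyU hz (hPphi z hzX)
  -- the vertex `v`
  obtain ⟨v, hvβ, hvU, hvQ⟩ := R2 hG hoβ hosβ
  rw [← hb] at hvU hvQ
  obtain ⟨β', hβ'v, hβ'b, hβ'⟩ := ud_share hG hyU hyQ hvU hvQ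
  rw [← hU] at hvU hβ'
  rw [← hQ] at hvQ hβ'
  -- the arc between `p` and `b`
  obtain ⟨d, hdo, hd1, hd2⟩ := hpb
  have hβ'1 : M.fc (M.σ β') ∈ X := by
    rcases hβ' with h1 | h1
    · exact hUX _ h1.1
    · exact hQX _ h1.1
  have hβ'2 : M.fc (M.σ⁻¹ β') ∈ X := by
    rcases hβ' with h1 | h1
    · exact hQX _ h1.2
    · exact hUX _ h1.2
  have hends : ∃ t, t ≠ M.vt β ∧ t ≠ v ∧ M.At ({b} : Set F) t ∧ M.At Xᶜ t := by
    have hv1 : M.vt d ≠ v := by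
      intro h1
      have h2 : β' = d := cu hG (by rw [hβ'b, hd2]) (by rw [hβ'v, h1])
      rw [h2, hd1] at hβ'2
      exact hpX hβ'2
    have hv2 : M.vt (M.τ d) ≠ v := by
      intro h1
      have h2 : β' = M.σ⁻¹ (M.τ d) :=
        cu hG (by rw [hβ'b, M.fc_ti, hd2]) (by rw [hβ'v, M.vt_inv, h1])
      rw [h2, perm_ai, M.fc_tau, hd1] at hβ'1
      exact hpX hβ'1
    by_cases h1 : M.vt d = M.vt β
    · refine ⟨M.vt (M.τ d), ?_, hv2, ?_, ?_⟩
      · rw [← h1]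
        exact hG.nl d
      · exact ⟨M.σ⁻¹ (M.τ d), M.vt_inv _, by rw [M.fc_ti, hd2]; exact rfl⟩
      · exact ⟨M.τ d, rfl, by rw [M.fc_tau, hd1]; exact hpX⟩
    · exact ⟨M.vt d, h1, hv1, ⟨d, rfl, by rw [hd2]; exact rfl⟩,
        ⟨M.σ⁻¹ d, M.vt_inv _, by rw [hd1]; exact hpX⟩⟩
  obtain ⟨t, ht1, ht2, ht3, ht4⟩ := hends
  -- the cyclic order at `vt e`
  obtain ⟨N, hN0, hN, hNm⟩ := exists_period (M := M) e
  have hkN : k + 1 < N := by
    by_contra hcon'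
    push Not at hcon'
    exact hper N hN0 hcon' hN
  have hc1 : M.Cyc β (M.σ β) ((M.σ ^ (k + 1)) e) := by
    refine ⟨1, k + 1 - j, by omega, by omega, by rw [pow_one], ?_, ?_⟩
    · rw [hβ, pow_add_apply]
      congr 2
      omega
    · intro m hm hmj hret
      rw [hβ] at hret
      exact hNm m hm (by omega) (no_ret hret)
  have hc2 : M.Cyc ((M.σ ^ (k + 1)) e) (M.σ⁻¹ β) β := by
    refine ⟨N - (k + 1) + j - 1, N - (k + 1) + j, by omega, by omega, ?_, ?_, ?_⟩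
    · rw [hβi, pow_add_apply]
      have : N - (k + 1) + j - 1 + (k + 1) = j - 1 + N := by omega
      rw [this, ← pow_add_apply, hN]
    · rw [hβ, pow_add_apply]
      have : N - (k + 1) + j + (k + 1) = j + N := by omega
      rw [this, ← pow_add_apply, hN]
    · intro m hm hmj hret
      exact hNm m hm (by omega) (no_ret hret)
  refine third (M := M) (H := {b}) (H' := Xᶜ) (Y := Q) (P := U) (conn_single b) hX.disc.cc
    hQd.disc.cn hUd.disc.cn ?_ ?_ ?_ ?_ ?_ (a := β) (b := M.σ⁻¹ β) (c := (M.σ ^ (k + 1)) e)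
    (e := M.σ β) ?_ ?_ ?_ ?_ (Or.inr ⟨hc2, hc1⟩) (u2 := t) (u3 := v) ht1.symm hvβ.symm ht2 ht3 ht4
    ?_ ?_
  · rw [Set.disjoint_singleton_left]
    exact fun h1 => h1 hbX
  · rw [Set.disjoint_singleton_left]
    exact hbQ
  · rw [Set.disjoint_singleton_left]
    exact hbU
  · rw [Set.disjoint_left]
    exact fun z h1 h2 => h1 (hQX z h2)
  · rw [Set.disjoint_left]
    exact fun z h1 h2 => h1 (hUX z h2)
  · rw [← hb]
    exact rfl
  · rw [hQ]
    exact up_self (M := M.rev) b _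
  · exact hP
  · rw [hU]
    exact up_self b _
  · exact (bdAt hvQ).1
  · exact (bdAt hvU).1

end Pool.Agent.Lib.PLQ
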