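import Mathlib
import Pool.Agent.Lib.PLQ.R2P

set_option autoImplicit false
set_option linter.unusedSectionVars false
set_option linter.unusedVariables false

/-! Module R2Q: `q_at` and case I.
`caseI`: take a saddle-minimum `e` of `X` and `j, k` from `locU`.  If `j = k`, let `β = σ^k e` (`lmax`,
`Zmin`): by `R1d` the down-piece `DP (fc β) (fc (σ β))` contains both neighbours, which are in different
nodes, contradicting `one_node` (boundary darts `β`, `σ β`).  If `j < k` then corner `k+1` is in `P`, and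
`r2P`, `q_at` contradict `one_node`. -/

namespace Pool.Agent.Lib.PLQ

open Finset Pool.Agent.Lib.NK
open scoped Classical

variable {V D F : Type} [Fintype V] [Fintype D] [Fintype F] {M : PM V D F} {X Y : Set F}

/-- in the same situation, the boundary darts of `Q` at `vt e` have inner faces in `Yc (fc e)`
(an inner face at `vt e` is below `b`; by `loc` and `lup_iter` it is one of the corners
`e, ..., σ^(j-1) e`); there is such a dart -/
theorem q_at (hG : Good M) (h : Mn M X) {e : D} (he : SMin M e) (heX : M.fc e ∈ X) {j k : ℕ}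
    (hj : 0 < j) (hjk : j < k)
    (hY : ∀ i, i < j → M.fc ((M.σ ^ i) e) ∈ Yc M X (M.fc e))
    (ho : ∀ i, 0 < i → i ≤ k → M.out ((M.σ ^ i) e) = true)
    (hzm : Zmin M X (M.fc ((M.σ ^ j) e))) :
    (∃ d, M.vt d = M.vt e ∧ M.del (DP M (M.fc ((M.σ ^ j) e)) (M.fc ((M.σ ^ (j - 1)) e))) d) ∧
    ∀ d, M.vt d = M.vt e → M.del (DP M (M.fc ((M.σ ^ j) e)) (M.fc ((M.σ ^ (j - 1)) e))) d →
      inn M (DP M (M.fc ((M.σ ^ j) e)) (M.fc ((M.σ ^ (j - 1)) e))) d ∈ Yc M X (M.fc e) := by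
  have hb : M.σ⁻¹ ((M.σ ^ j) e) = (M.σ ^ (j - 1)) e := by
    obtain ⟨i, rfl⟩ : ∃ i, j = i + 1 := ⟨j - 1, by omega⟩
    rw [pow_succ', Equiv.Perm.mul_apply, perm_ia]
    rfl
  have hup : M.up (M.fc ((M.σ ^ (j - 1)) e)) (M.fc ((M.σ ^ j) e)) := by
    have h1 := M.up_out (ho j hj (by omega))
    rwa [hb] at h1
  have hy : M.fc ((M.σ ^ (j - 1)) e) ∉ Phi M.rev (M.fc ((M.σ ^ j) e)) :=
    phi_below (M.up_le hup) (up_ne hG hup)
  have hbQ : M.fc ((M.σ ^ j) e) ∉ DP M (M.fc ((M.σ ^ j) e)) (M.fc ((M.σ ^ (j - 1)) e)) := by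
    intro h1
    exact up_sub_phi hy h1 (b_phi _)
  have hyQ : M.fc ((M.σ ^ (j - 1)) e) ∈ DP M (M.fc ((M.σ ^ j) e)) (M.fc ((M.σ ^ (j - 1)) e)) :=
    up_self _ _
  refine ⟨⟨(M.σ ^ j) e, M.vt_pow e j, ?_⟩, ?_⟩
  · intro h1
    rw [hb] at h1
    exact hbQ (h1.2 hyQ)
  · intro d hd hdel
    -- the inner corner
    obtain ⟨c, c', hc, hci, hcQ, hc'Q, hadj⟩ : ∃ c c' : D, M.vt c = M.vt e ∧
        inn M (DP M (M.fc ((M.σ ^ j) e)) (M.fc ((M.σ ^ (j - 1)) e))) d = M.fc c ∧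
        M.fc c ∈ DP M (M.fc ((M.σ ^ j) e)) (M.fc ((M.σ ^ (j - 1)) e)) ∧
        M.fc c' ∉ DP M (M.fc ((M.σ ^ j) e)) (M.fc ((M.σ ^ (j - 1)) e)) ∧
        M.adj (M.fc c) (M.fc c') := by
      by_cases h1 : M.fc d ∈ DP M (M.fc ((M.σ ^ j) e)) (M.fc ((M.σ ^ (j - 1)) e))
      · refine ⟨d, M.σ⁻¹ d, hd, if_pos h1, h1, ?_, M.adj_symm (M.adj_dart d)⟩
        intro h2
        exact hdel (iff_of_true h1 h2)
      · refine ⟨M.σ⁻¹ d, d, by rw [M.vt_inv]; exact hd, if_neg h1, ?_, h1, M.adj_dart d⟩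
        by_contra h2
        exact hdel (iff_of_false h1 h2)
    rw [hci]
    obtain ⟨-, hle, hne⟩ := dp_inner hy hcQ hc'Q hadj
    have hvc : M.vt c = M.vt ((M.σ ^ j) e) := by rw [hc, M.vt_pow]
    rcases lup_iter (loc hG hvc hle) with ⟨m, hm, hm'⟩ | ⟨m, hm, hm'⟩
    · have hm0 : m ≠ 0 := by
        rintro rfl
        apply hne
        rw [hm]
        rfl
      rcases Nat.lt_or_ge j m with h1 | h1
      · exfalso
        obtain ⟨i, rfl⟩ : ∃ i, m = j + i := ⟨m - j, by omega⟩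
        rw [pow_add, Equiv.Perm.mul_apply] at hm
        have h2 : e = (M.σ ^ i) c := (M.σ ^ j).injective hm
        have h3 := hm' i (by omega) (by omega)
        rw [← h2, he.1.1] at h3
        exact absurd h3 (by decide)
      · obtain ⟨i, rfl⟩ : ∃ i, j = m + i := ⟨j - m, by omega⟩
        rw [pow_add, Equiv.Perm.mul_apply] at hm
        have h2 : (M.σ ^ i) e = c := (M.σ ^ m).injective hm
        rw [← h2]
        exact hY i (by omega)
    · exfalso
      rcases Nat.eq_zero_or_pos m with h1 | h1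
      · rw [h1] at hm
        apply hne
        rw [hm]
        rfl
      · have h2 := hm' 1 one_pos h1
        have h3 := ho (1 + j) (by omega) (by omega)
        rw [pow_add, Equiv.Perm.mul_apply] at h3
        rw [h3] at h2
        exact absurd h2 (by decide)

/-- Case I is impossible. -/
theorem caseI (hG : Good M) (h : Mn M X)
    (hI : ∀ N N', Node M X N → Node M X N' → N ≠ N' → ∀ u w, u ∈ M.bd N → u ∈ M.bd N' →
      w ∈ M.bd N → w ∈ M.bd N' → u = w) : False := by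
  obtain ⟨e, he, heX⟩ := h.gu.2
  obtain ⟨j, k, hj, hjk, hY, hZ, ho, hk, hkZ, hkY, hzm, hL, hper⟩ := locU hG h he heX
  have heL : M.fc e ∈ Lo M X := cF4 hG h he heX
  have hN : Node M X (Yc M X (M.fc e)) := Or.inr ⟨_, heL, rfl⟩
  rcases Nat.lt_or_ge j k with hlt | hge
  · have hP : M.fc ((M.σ ^ (k + 1)) e) ∉ X := by
      intro h1
      rcases lo_or_zo h1 (M := M) with h2 | h2
      · exact absurd (hL h2) (by omega)
      · exact hkZ h2
    obtain ⟨⟨d, hd, hdel⟩, hall⟩ := q_at hG h he heX hj hlt hY ho hzm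
    obtain ⟨d', hdel', hd'⟩ := r2P hG h he heX hj hlt hY hZ ho hk hP hzm hper
    have hb : M.σ⁻¹ ((M.σ ^ j) e) = (M.σ ^ (j - 1)) e := by
      obtain ⟨i, rfl⟩ : ∃ i, j = i + 1 := ⟨j - 1, by omega⟩
      rw [pow_succ', Equiv.Perm.mul_apply, perm_ia]
      rfl
    have hup : M.up (M.fc ((M.σ ^ (j - 1)) e)) (M.fc ((M.σ ^ j) e)) := by
      have h1 := M.up_out (ho j hj hjk)
      rwa [hb] at h1
    have hy : M.fc ((M.σ ^ (j - 1)) e) ∉ Phi M.rev (M.fc ((M.σ ^ j) e)) :=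
      phi_below (M.up_le hup) (up_ne hG hup)
    have h3 := one_node hG h hI hzm hy hN hdel hdel' (hall d hd hdel)
    exact hd' (yc_sub heL h3).1
  · obtain rfl : j = k := le_antisymm hjk hge
    have hs : (M.σ ^ (j + 1)) e = M.σ ((M.σ ^ j) e) := by
      rw [pow_succ', Equiv.Perm.mul_apply]
    have hb : M.σ⁻¹ ((M.σ ^ j) e) = (M.σ ^ (j - 1)) e := by
      obtain ⟨i, rfl⟩ : ∃ i, j = i + 1 := ⟨j - 1, by omega⟩
      rw [pow_succ', Equiv.Perm.mul_apply, perm_ia]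
      rfl
    rw [hs] at hk hkY
    have hmax : M.lmax ((M.σ ^ j) e) := ⟨ho j hj le_rfl, hk⟩
    have hR := R1d hG hmax
    have hup : M.up (M.fc (M.σ ((M.σ ^ j) e))) (M.fc ((M.σ ^ j) e)) := by
      have h1 := M.up_in hk
      rwa [perm_ia] at h1
    have hy : M.fc (M.σ ((M.σ ^ j) e)) ∉ Phi M.rev (M.fc ((M.σ ^ j) e)) :=
      phi_below (M.up_le hup) (up_ne hG hup)
    have hbQ : M.fc ((M.σ ^ j) e) ∉ DP M (M.fc ((M.σ ^ j) e)) (M.fc (M.σ ((M.σ ^ j) e))) := by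
      intro h1
      exact up_sub_phi hy h1 (b_phi _)
    have hyQ : M.fc (M.σ ((M.σ ^ j) e)) ∈
        DP M (M.fc ((M.σ ^ j) e)) (M.fc (M.σ ((M.σ ^ j) e))) := up_self _ _
    have hd1 : M.del (DP M (M.fc ((M.σ ^ j) e)) (M.fc (M.σ ((M.σ ^ j) e)))) ((M.σ ^ j) e) :=
      fun h1 => hbQ (h1.2 hR)
    have hd2 : M.del (DP M (M.fc ((M.σ ^ j) e)) (M.fc (M.σ ((M.σ ^ j) e)))) (M.σ ((M.σ ^ j) e)) := by
      intro h1
      rw [perm_ia] at h1
      exact hbQ (h1.1 hyQ)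
    have hi1 : inn M (DP M (M.fc ((M.σ ^ j) e)) (M.fc (M.σ ((M.σ ^ j) e)))) ((M.σ ^ j) e) ∈
        Yc M X (M.fc e) := by
      unfold inn
      rw [if_neg hbQ, hb]
      exact hY (j - 1) (by omega)
    have h3 := one_node hG h hI hzm hy hN hd1 hd2 hi1
    unfold inn at h3
    rw [if_pos hyQ] at h3
    exact hkY h3

end Pool.Agent.Lib.PLQ
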