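import Mathlib
import Pool.Agent.Lib.PLQ.RunB
import Pool.Agent.Lib.PLQ.OrdC

set_option autoImplicit false
set_option linter.unusedSectionVars false
set_option linter.unusedVariables false

/-! Module RegA: two disjoint, non-adjacent down-discs `Y`, `P`; the regions (components of the complement of `Y ∪ P`); `Rg`, `TwoD`, `Tch` in Defs. -/

namespace Pool.Agent.Lib.PLQ

open Finset Pool.Agent.Lib.NK
open scoped Classical

variable {V D F : Type} [Fintype V] [Fintype D] [Fintype F] {M : PM V D F}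

variable {Y P : Set F}

namespace RegAAux

/-- steps outside `Y` and `P` -/
def st (M : PM V D F) (Y P : Set F) (a b : F) : Prop := M.adj a b ∧ b ∉ Y ∧ b ∉ P

theorem out_of {z w : F} (hz : z ∉ Y ∧ z ∉ P) (h : Relation.ReflTransGen (st M Y P) z w) :
    w ∉ Y ∧ w ∉ P := by
  rcases Relation.ReflTransGen.cases_tail h with rfl | ⟨b, -, h1⟩
  · exact hz
  · exact h1.2

theorem back {z w : F} (hz : z ∉ Y ∧ z ∉ P) (h : Relation.ReflTransGen (st M Y P) z w) :
    Relation.ReflTransGen (st M Y P) w z := by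
  induction h with
  | refl => exact Relation.ReflTransGen.refl
  | tail h1 h2 ih => exact Relation.ReflTransGen.head ⟨M.adj_symm h2.1, out_of hz h1⟩ ih

theorem mem_rg {z w : F} : w ∈ Rg M Y P z ↔ Relation.ReflTransGen (st M Y P) z w := Iff.rfl

theorem lift {z x y : F} (hx : x ∈ Rg M Y P z) (h : Relation.ReflTransGen (st M Y P) x y) :
    Relation.ReflTransGen (fun a b => M.adj a b ∧ b ∈ Rg M Y P z) x y := by
  induction h with
  | refl => exact Relation.ReflTransGen.refl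
  | tail h1 h2 ih =>
    refine ih.tail ⟨h2.1, ?_⟩
    exact (mem_rg.2 (((mem_rg.1 hx).trans h1).tail h2))

/-- walking along consecutive corners -/
theorem walk (p : D) {a b : ℕ} (hab : a ≤ b)
    (h : ∀ j, a ≤ j → j ≤ b → M.fc ((M.σ ^ j) p) ∉ Y ∧ M.fc ((M.σ ^ j) p) ∉ P) :
    Relation.ReflTransGen (st M Y P) (M.fc ((M.σ ^ a) p)) (M.fc ((M.σ ^ b) p)) := by
  induction b, hab using Nat.le_induction with
  | base => exact Relation.ReflTransGen.refl
  | succ b hab ih =>
    refine (ih fun j h1 h2 => h j h1 (h2.trans (Nat.le_succ b))).tail ⟨?_, h (b + 1) (by omega) le_rfl⟩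
    rw [pow_succ', Equiv.Perm.mul_apply]
    exact M.adj_sig _

/-- an entering dart between a corner outside `X` and a corner in `X` -/
theorem exists_enter {X : Set F} (p : D) {a b : ℕ} (hab : a < b)
    (ha : M.fc ((M.σ ^ a) p) ∉ X) (hb : M.fc ((M.σ ^ b) p) ∈ X) :
    ∃ m, a < m ∧ m ≤ b ∧ M.fc ((M.σ ^ m) p) ∈ X ∧ M.fc (M.σ⁻¹ ((M.σ ^ m) p)) ∉ X := by
  have hex : ∃ m, a < m ∧ M.fc ((M.σ ^ m) p) ∈ X := ⟨b, hab, hb⟩
  obtain ⟨h1, h2⟩ := Nat.find_spec hex
  have h3 : Nat.find hex ≤ b := Nat.find_min' hex ⟨hab, hb⟩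
  refine ⟨Nat.find hex, h1, h3, h2, ?_⟩
  obtain ⟨n, hn⟩ : ∃ n, Nat.find hex = n + 1 := ⟨Nat.find hex - 1, by omega⟩
  rw [hn, pow_succ', Equiv.Perm.mul_apply, perm_ia]
  rcases Nat.lt_or_ge a n with h4 | h4
  · intro h5
    exact Nat.find_min hex (m := n) (by omega) ⟨h4, h5⟩
  · have h5 : n = a := by omega
    rw [h5]
    exact ha

end RegAAux

open RegAAux

theorem rg_conn {z : F} (hz : z ∉ Y ∧ z ∉ P) : M.Conn (Rg M Y P z) := by
  intro x hx y hy
  exact lift hx ((back hz (mem_rg.1 hx)).trans (mem_rg.1 hy))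

theorem rg_disj {z : F} (hz : z ∉ Y ∧ z ∉ P) : Disjoint (Rg M Y P z) Y ∧ Disjoint (Rg M Y P z) P := by
  constructor
  · rw [Set.disjoint_left]
    intro w hw
    exact (out_of hz (mem_rg.1 hw)).1
  · rw [Set.disjoint_left]
    intro w hw
    exact (out_of hz (mem_rg.1 hw)).2

theorem rg_eq {z w : F} (hz : z ∉ Y ∧ z ∉ P) (hw : w ∈ Rg M Y P z) : Rg M Y P w = Rg M Y P z := by
  ext y
  rw [mem_rg, mem_rg]
  exact ⟨fun h => (mem_rg.1 hw).trans h, fun h => (back hz (mem_rg.1 hw)).trans h⟩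

/-- at a common vertex `u` (there being another one `u'`) the faces next to the run of `Y` on its
two sides are in different regions (`flank` with `K = Y`, `K' = P`), and every corner at `u`
outside `Y ∪ P` is in one of these two regions -/
theorem rg_two (hG : Good M) (hT : TwoD M Y P) {u u' : V} (huu : u ≠ u') (hu : Tch M Y P u)
    (hu' : Tch M Y P u') {e q : D} (he : M.vt e = u) (hq : M.vt q = u) (he1 : M.fc e ∈ Y)
    (he2 : M.fc (M.σ⁻¹ e) ∉ Y) (hq1 : M.fc (M.σ⁻¹ q) ∈ Y) (hq2 : M.fc q ∉ Y) :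
    Rg M Y P (M.fc (M.σ⁻¹ e)) ≠ Rg M Y P (M.fc q) ∧
      ∀ d, M.vt d = u → M.fc d ∉ Y → M.fc d ∉ P →
        M.fc d ∈ Rg M Y P (M.fc (M.σ⁻¹ e)) ∨ M.fc d ∈ Rg M Y P (M.fc q) := by
  have he3 : M.fc (M.σ⁻¹ e) ∉ P := fun h => hT.na _ he1 _ h (M.adj_symm (M.adj_dart e))
  have hq3 : M.fc q ∉ P := fun h => hT.na _ hq1 _ h (M.adj_dart q)
  constructor
  · intro heq
    have hC : M.Conn (Rg M Y P (M.fc q)) := rg_conn ⟨hq2, hq3⟩
    obtain ⟨hd1, hd2⟩ := rg_disj (M := M) (Y := Y) (P := P) (z := M.fc q) ⟨hq2, hq3⟩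
    refine flank hT.y.disc.cn hT.y.disc.cc hT.p.disc.cn hC hT.dj hd1.symm hd2.symm huu hu'.1 hu.2
      hu'.2 he hq he1 ?_ hq1 ?_
    · rw [← heq]
      exact Relation.ReflTransGen.refl
    · exact Relation.ReflTransGen.refl
  · intro d hd hdY hdP
    have hbd : u ∈ M.bd Y := by
      unfold PM.bd
      rw [Finset.mem_filter]
      exact ⟨Finset.mem_univ _, hu.1, ⟨q, hq, hq2⟩⟩
    obtain ⟨p, k, l, hk, hl, hp, hper, hin, hout, hinj, hall⟩ :=
      run hT.y.disc.cn hT.y.disc.cc hbd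
    have hpin : M.fc p ∈ Y := by
      have := hin 0 hk
      rwa [pow_zero] at this
    have hpl : M.σ⁻¹ p = (M.σ ^ (k + l - 1)) p := by
      rw [Equiv.Perm.inv_eq_iff_eq, ← Equiv.Perm.mul_apply, ← pow_succ',
        show k + l - 1 + 1 = k + l by omega, hper]
    have hep : e = p := by
      refine enter_unique hT.y.disc.cn hT.y.disc.cc (he.trans hp.symm) he1 he2 hpin ?_
      rw [hpl]
      exact hout _ (by omega) (by omega)
    have hqp : q = (M.σ ^ k) p := by
      refine leave_unique hT.y.disc.cn hT.y.disc.cc ?_ hq2 hq1 (hout k le_rfl (by omega)) ?_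
      · rw [M.vt_pow, hq, hp]
      · obtain ⟨n, rfl⟩ : ∃ n, k = n + 1 := ⟨k - 1, by omega⟩
        rw [pow_succ', Equiv.Perm.mul_apply, perm_ia]
        exact hin n (by omega)
    obtain ⟨i, hi, rfl⟩ := hall d hd
    have hik : k ≤ i := by
      by_contra h
      exact hdY (hin i (by omega))
    by_cases h1 : ∀ j, k ≤ j → j ≤ i → M.fc ((M.σ ^ j) p) ∉ P
    · right
      rw [hqp]
      exact walk p hik fun j h2 h3 => ⟨hout j h2 (by omega), h1 j h2 h3⟩
    · by_cases h2 : ∀ j, i ≤ j → j ≤ k + l - 1 → M.fc ((M.σ ^ j) p) ∉ P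
      · left
        rw [hep, hpl]
        refine back (z := M.fc ((M.σ ^ i) p)) ⟨hdY, hdP⟩ ?_
        exact walk p (by omega) fun j h3 h4 => ⟨hout j (by omega) (by omega), h2 j h3 h4⟩
      · exfalso
        push Not at h1 h2
        obtain ⟨j1, h3, h4, h5⟩ := h1
        obtain ⟨j2, h6, h7, h8⟩ := h2
        have hj1 : j1 ≠ i := by
          rintro rfl
          exact hdP h5
        have hj2 : j2 ≠ i := by
          rintro rfl
          exact hdP h8
        have h0 : M.fc ((M.σ ^ 0) p) ∉ P := by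
          rw [pow_zero]
          exact fun h => Set.disjoint_left.1 hT.dj hpin h
        obtain ⟨m1, a1, a2, a3, a4⟩ := exists_enter p (a := 0) (b := j1) (by omega) h0 h5
        obtain ⟨m2, b1, b2, b3, b4⟩ := exists_enter p (a := i) (b := j2) (by omega) hdP h8
        have h9 : (M.σ ^ m1) p = (M.σ ^ m2) p := by
          refine enter_unique hT.p.disc.cn hT.p.disc.cc ?_ a3 a4 b3 b4
          rw [M.vt_pow, M.vt_pow]
        refine hinj (m2 - m1) (by omega) (by omega) ?_
        apply (M.σ ^ m1).injective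
        rw [← Equiv.Perm.mul_apply, ← pow_add, show m1 + (m2 - m1) = m2 by omega, h9]

end Pool.Agent.Lib.PLQ
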