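import Mathlib
import Pool.Agent.Lib.PLQ.RegA
import Pool.Agent.Lib.PLQ.DiscB

set_option autoImplicit false
set_option linter.unusedSectionVars false
set_option linter.unusedVariables false

/-! Module RegB. -/

namespace Pool.Agent.Lib.PLQ

open Finset Pool.Agent.Lib.NK
open scoped Classical

variable {V D F : Type} [Fintype V] [Fintype D] [Fintype F] {M : PM V D F}

variable {Y P : Set F}

namespace RegBAux

theorem exit_step {S X : Set F} {a b : F}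
    (h : Relation.ReflTransGen (fun a b => M.adj a b ∧ b ∈ S) a b) (ha : a ∈ X) (hb : b ∉ X) :
    ∃ x y, x ∈ X ∧ y ∉ X ∧ y ∈ S ∧ M.adj x y := by
  induction h with
  | refl => exact absurd ha hb
  | @tail c d hac hcd ih =>
    by_cases hc : c ∈ X
    · exact ⟨c, d, hc, hb, hcd.2, hcd.1⟩
    · exact ih hc

theorem rt_symm {S : Set F} {a b : F} (ha : a ∈ S)
    (h : Relation.ReflTransGen (fun a b => M.adj a b ∧ b ∈ S) a b) :
    Relation.ReflTransGen (fun a b => M.adj a b ∧ b ∈ S) b a ∧ b ∈ S := by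
  induction h with
  | refl => exact ⟨.refl, ha⟩
  | tail hac hcd ih =>
    exact ⟨Relation.ReflTransGen.head ⟨M.adj_symm hcd.1, ih.2⟩ ih.1, hcd.2⟩

theorem rt_mono {S T : Set F} (hST : S ⊆ T) {a b : F}
    (h : Relation.ReflTransGen (fun a b => M.adj a b ∧ b ∈ S) a b) :
    Relation.ReflTransGen (fun a b => M.adj a b ∧ b ∈ T) a b := by
  induction h with
  | refl => exact .refl
  | tail _ hcd ih => exact ih.tail ⟨hcd.1, hST hcd.2⟩

theorem adj_dart' {x y : F} (h : M.adj x y) : ∃ d, M.fc d = y ∧ M.fc (M.σ⁻¹ d) = x := by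
  rcases h with ⟨d, _, h1, h2⟩ | ⟨d, _, h1, h2⟩
  · exact ⟨d, h2, h1⟩
  · exact ⟨M.τ d, by rw [M.fc_tau, h1], by rw [M.fc_ti, h2]⟩

theorem self_mem (z : F) : z ∈ Rg M Y P z := Relation.ReflTransGen.refl

theorem step_mem {z x y : F} (hx : x ∈ Rg M Y P z) (h : M.adj x y) (h1 : y ∉ Y) (h2 : y ∉ P) :
    y ∈ Rg M Y P z := Relation.ReflTransGen.tail hx ⟨h, h1, h2⟩

theorem not_mem {z x : F} (hz : z ∉ Y ∧ z ∉ P) (hx : x ∈ Rg M Y P z) : x ∉ Y ∧ x ∉ P :=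
  ⟨fun h => Set.disjoint_left.1 (rg_disj hz).1 hx h, fun h => Set.disjoint_left.1 (rg_disj hz).2 hx h⟩

theorem exit_mem {z x y : F} (hx : x ∈ Rg M Y P z) (h : M.adj x y) (hy : y ∉ Rg M Y P z) :
    y ∈ Y ∨ y ∈ P := by
  by_contra hc
  rw [not_or] at hc
  exact hy (step_mem hx h hc.1 hc.2)

theorem seq_reach (a : ℕ → F) (n : ℕ) (hadj : ∀ i, i < n → M.adj (a i) (a (i + 1)))
    (hY : ∀ i, i ≤ n → a i ∉ Y) (h0 : a 0 ∉ P) (hP : a n ∈ P) :
    ∃ h1 p, h1 ∈ Rg M Y P (a 0) ∧ p ∈ P ∧ M.adj h1 p := by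
  have hex : ∃ m, a m ∈ P := ⟨n, hP⟩
  obtain ⟨m, hm, hmin⟩ : ∃ m, a m ∈ P ∧ ∀ j, j < m → a j ∉ P :=
    ⟨Nat.find hex, Nat.find_spec hex, fun j hj => Nat.find_min hex hj⟩
  have hmn : m ≤ n := by
    by_contra h
    exact hmin n (not_le.1 h) hP
  have hm0 : m ≠ 0 := fun h => h0 (h ▸ hm)
  have key : ∀ i, i < m → a i ∈ Rg M Y P (a 0) := by
    intro i
    induction i with
    | zero => intro _; exact self_mem _
    | succ i ih =>
      intro hi
      exact step_mem (ih (by omega)) (hadj i (by omega)) (hY _ (by omega)) (hmin _ hi)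
  obtain ⟨j, rfl⟩ : ∃ j, m = j + 1 := ⟨m - 1, by omega⟩
  exact ⟨a j, a (j + 1), key j (by omega), hm, hadj j (by omega)⟩

theorem adj_pow (p : D) (i : ℕ) : M.adj (M.fc ((M.σ ^ i) p)) (M.fc ((M.σ ^ (i + 1)) p)) := by
  rw [pow_succ', Equiv.Perm.mul_apply]
  exact M.adj_sig _

/-- a second region, adjacent to `Y` and to `P` -/
theorem other (hG : Good M) (hT : TwoD M Y P) {u u' : V} (huu : u ≠ u') (hu : Tch M Y P u)
    (hu' : Tch M Y P u') (z : F) :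
    ∃ h, (h ∉ Y ∧ h ∉ P) ∧ Rg M Y P h ≠ Rg M Y P z ∧
      (∃ h1 y, h1 ∈ Rg M Y P h ∧ y ∈ Y ∧ M.adj h1 y) ∧
      ∃ h2 p, h2 ∈ Rg M Y P h ∧ p ∈ P ∧ M.adj h2 p := by
  have hPY : ∀ x, x ∈ P → x ∉ Y := fun x hx hy => Set.disjoint_left.1 hT.dj hy hx
  have hbd : u ∈ M.bd Y := by
    obtain ⟨d, hd, hd'⟩ := hu.2
    simp only [PM.bd, mem_filter, mem_univ, true_and]
    exact ⟨hu.1, d, hd, hPY _ hd'⟩
  obtain ⟨p, k, l, hk, hl, hvp, hper, hin, hout, hne, hall⟩ :=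
    run hT.y.disc.cn hT.y.disc.cc hbd
  obtain ⟨k', rfl⟩ : ∃ k', k = k' + 1 := ⟨k - 1, by omega⟩
  obtain ⟨l', rfl⟩ : ∃ l', l = l' + 1 := ⟨l - 1, by omega⟩
  have hpinv : M.σ⁻¹ p = (M.σ ^ (k' + 1 + l')) p := by
    have h1 : M.σ ((M.σ ^ (k' + 1 + l')) p) = p := by
      rw [← Equiv.Perm.mul_apply, ← pow_succ']
      exact hper
    conv_lhs => rw [← h1]
    rw [perm_ia]
  have hqinv : M.σ⁻¹ ((M.σ ^ (k' + 1)) p) = (M.σ ^ k') p := by
    rw [pow_succ', Equiv.Perm.mul_apply, perm_ia]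
  have hp0 : M.fc p ∈ Y := by simpa using hin 0 (by omega)
  have hlast : M.fc ((M.σ ^ (k' + 1 + l')) p) ∉ Y := hout _ (by omega) (by omega)
  have hfirst : M.fc ((M.σ ^ (k' + 1)) p) ∉ Y := hout _ (by omega) (by omega)
  have hk'Y : M.fc ((M.σ ^ k') p) ∈ Y := hin _ (by omega)
  have hfirstP : M.fc ((M.σ ^ (k' + 1)) p) ∉ P := fun h => hT.na _ hk'Y _ h (adj_pow p k')
  have hlastadj : M.adj (M.fc ((M.σ ^ (k' + 1 + l')) p)) (M.fc p) := by
    have h1 := adj_pow (M := M) p (k' + 1 + l')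
    have h2 : (M.σ ^ (k' + 1 + l' + 1)) p = p := hper
    rwa [h2] at h1
  have hlastP : M.fc ((M.σ ^ (k' + 1 + l')) p) ∉ P := fun h =>
    hT.na _ hp0 _ h (M.adj_symm hlastadj)
  obtain ⟨hne2, _⟩ := rg_two hG hT huu hu hu' (e := p) (q := (M.σ ^ (k' + 1)) p) hvp
    (by rw [M.vt_pow]; exact hvp) hp0 (by rw [hpinv]; exact hlast) (by rw [hqinv]; exact hk'Y)
    hfirst
  rw [hpinv] at hne2
  -- the corner of `P`
  obtain ⟨d, hd, hdP⟩ := hu.2
  obtain ⟨i, hi, rfl⟩ := hall d hd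
  have hik : k' + 1 ≤ i := by
    by_contra h
    exact hPY _ hdP (hin i (by omega))
  have h1 : ∃ h2 p', h2 ∈ Rg M Y P (M.fc ((M.σ ^ (k' + 1)) p)) ∧ p' ∈ P ∧ M.adj h2 p' := by
    have := seq_reach (M := M) (Y := Y) (P := P) (fun j => M.fc ((M.σ ^ (k' + 1 + j)) p))
      (i - (k' + 1)) (fun j _ => adj_pow p (k' + 1 + j))
      (fun j hj => hout _ (by omega) (by omega)) hfirstP
      (by
        have : k' + 1 + (i - (k' + 1)) = i := by omega
        simp only [this]; exact hdP)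
    exact this
  have h2 : ∃ h2 p', h2 ∈ Rg M Y P (M.fc ((M.σ ^ (k' + 1 + l')) p)) ∧ p' ∈ P ∧ M.adj h2 p' := by
    have := seq_reach (M := M) (Y := Y) (P := P) (fun j => M.fc ((M.σ ^ (k' + 1 + l' - j)) p))
      (k' + 1 + l' - i) (fun j hj => by
        have h3 := adj_pow (M := M) p (k' + 1 + l' - (j + 1))
        have h4 : k' + 1 + l' - (j + 1) + 1 = k' + 1 + l' - j := by omega
        rw [h4] at h3
        exact M.adj_symm h3)
      (fun j hj => hout _ (by omega) (by omega)) hlastP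
      (by
        have : k' + 1 + l' - (k' + 1 + l' - i) = i := by omega
        simp only [this]; exact hdP)
    exact this
  by_cases hz : Rg M Y P (M.fc ((M.σ ^ (k' + 1)) p)) = Rg M Y P z
  · refine ⟨M.fc ((M.σ ^ (k' + 1 + l')) p), ⟨hlast, hlastP⟩, ?_, ?_, h2⟩
    · rw [← hz]; exact hne2
    · exact ⟨_, _, self_mem _, hp0, hlastadj⟩
  · refine ⟨M.fc ((M.σ ^ (k' + 1)) p), ⟨hfirst, hfirstP⟩, hz, ?_, h1⟩
    exact ⟨_, _, self_mem _, hk'Y, M.adj_symm (adj_pow p k')⟩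

end RegBAux

open RegBAux

/-- a region is an up-disc: its complement is connected because the other one of the two regions at
a common vertex is adjacent to `Y` and to `P` -/
theorem rg_ud (hG : Good M) (hT : TwoD M Y P) {u u' : V} (huu : u ≠ u') (hu : Tch M Y P u)
    (hu' : Tch M Y P u') {z : F} (hz : z ∉ Y ∧ z ∉ P) : M.UDisc (Rg M Y P z) := by
  obtain ⟨y0, hy0⟩ := hT.y.disc.ne
  have hYX : Y ⊆ (Rg M Y P z)ᶜ := fun x hx hx' => (not_mem hz hx').1 hx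
  have hPX : P ⊆ (Rg M Y P z)ᶜ := fun x hx hx' => (not_mem hz hx').2 hx
  obtain ⟨h, hh, hhz, ⟨h1, y1, hh1, hy1, ha1⟩, h2, p2, hh2, hp2, ha2⟩ :=
    other hG hT huu hu hu' z
  have hreg : ∀ x, (x ∉ Y ∧ x ∉ P) → Rg M Y P x ≠ Rg M Y P z →
      Rg M Y P x ⊆ (Rg M Y P z)ᶜ := by
    intro x hx hne w hw hw'
    exact hne ((rg_eq hx hw).symm.trans (rg_eq hz hw'))
  have hHX := hreg h hh hhz
  have c1 : ∀ x, x ∈ Y →
      Relation.ReflTransGen (fun a b => M.adj a b ∧ b ∈ (Rg M Y P z)ᶜ) x y0 := fun x hx =>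
    rt_mono hYX (hT.y.disc.cn x hx y0 hy0)
  have c2 : ∀ x, x ∈ P →
      Relation.ReflTransGen (fun a b => M.adj a b ∧ b ∈ (Rg M Y P z)ᶜ) x y0 := by
    intro x hx
    have s1 := rt_mono hPX (hT.p.disc.cn x hx p2 hp2)
    have s2 := s1.tail (c := h2) ⟨M.adj_symm ha2, hHX hh2⟩
    have s3 := s2.trans (rt_mono hHX (rg_conn hh h2 hh2 h1 hh1))
    have s4 := s3.tail (c := y1) ⟨ha1, hYX hy1⟩
    exact s4.trans (c1 y1 hy1)
  have c3 : ∀ x, x ∉ Rg M Y P z →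
      Relation.ReflTransGen (fun a b => M.adj a b ∧ b ∈ (Rg M Y P z)ᶜ) x y0 := by
    intro x hx
    by_cases hxY : x ∈ Y
    · exact c1 x hxY
    by_cases hxP : x ∈ P
    · exact c2 x hxP
    have hxx : x ∉ Y ∧ x ∉ P := ⟨hxY, hxP⟩
    have hne : Rg M Y P x ≠ Rg M Y P z := fun h => hx (h ▸ self_mem x)
    obtain ⟨x1, y2, hx1, hy2, _, ha⟩ := exit_step
      (conn_univ hG x (Set.mem_univ _) y0 (Set.mem_univ _)) (self_mem (M := M) (Y := Y) (P := P) x)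
      (fun h => (not_mem hxx h).1 hy0)
    have s1 := rt_mono (hreg x hxx hne) (rg_conn hxx x (self_mem x) x1 hx1)
    rcases exit_mem hx1 ha hy2 with h3 | h3
    · exact (s1.tail (c := y2) ⟨ha, hYX h3⟩).trans (c1 y2 h3)
    · exact (s1.tail (c := y2) ⟨ha, hPX h3⟩).trans (c2 y2 h3)
  refine ⟨⟨⟨z, self_mem z⟩, ⟨y0, hYX hy0⟩, rg_conn hz, ?_⟩, ?_⟩
  · intro x hx y hy
    exact (c3 x hx).trans (rt_symm hy (c3 y hy)).1
  · intro x y hxy hx
    have hx' := not_mem hz hx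
    exact step_mem hx (Or.inl hxy) (fun h => hx'.1 (hT.y.dn x y hxy h))
      (fun h => hx'.2 (hT.p.dn x y hxy h))

/-- every region has a common vertex of `Y` and `P` different from `v0`
(`bd_const` for the property of having the outer face in `Y`; if it is constant the region is a component of
the complement of `Y` or of `P`) -/
theorem rg_touch (hG : Good M) (hT : TwoD M Y P) {u u' : V} (huu : u ≠ u') (hu : Tch M Y P u)
    (hu' : Tch M Y P u') {z : F} (hz : z ∉ Y ∧ z ∉ P) (v0 : V) :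
    ∃ w, w ≠ v0 ∧ Tch M Y P w ∧ M.At (Rg M Y P z) w := by
  by_contra hcon
  push Not at hcon
  have hX := rg_ud hG hT huu hu hu' hz
  have hPY : ∀ x, x ∈ P → x ∉ Y := fun x hx hy => Set.disjoint_left.1 hT.dj hy hx
  obtain ⟨y0, hy0⟩ := hT.y.disc.ne
  obtain ⟨p0, hp0⟩ := hT.p.disc.ne
  -- the two faces of a boundary dart
  have faces : ∀ d, M.del (Rg M Y P z) d →
      M.At (Rg M Y P z) (M.vt d) ∧ (M.fc d ∈ Y ∨ M.fc (M.σ⁻¹ d) ∈ Y → M.At Y (M.vt d)) ∧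
        (¬ (M.fc d ∈ Y ∨ M.fc (M.σ⁻¹ d) ∈ Y) → M.At P (M.vt d)) := by
    intro d hd
    have hadj := M.adj_dart d
    unfold PM.del at hd
    refine ⟨?_, ?_, ?_⟩
    · by_cases h : M.fc d ∈ Rg M Y P z
      · exact ⟨d, rfl, h⟩
      · have h' : M.fc (M.σ⁻¹ d) ∈ Rg M Y P z := by
          by_contra h''
          exact hd ⟨fun h3 => absurd h3 h, fun h3 => absurd h3 h''⟩
        exact ⟨M.σ⁻¹ d, M.vt_inv d, h'⟩
    · rintro (h | h)
      · exact ⟨d, rfl, h⟩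
      · exact ⟨M.σ⁻¹ d, M.vt_inv d, h⟩
    · intro h
      rw [not_or] at h
      by_cases h1 : M.fc d ∈ Rg M Y P z
      · have h' : M.fc (M.σ⁻¹ d) ∉ Rg M Y P z := fun h3 => hd ⟨fun _ => h3, fun _ => h1⟩
        rcases exit_mem h1 (M.adj_symm hadj) h' with h4 | h4
        · exact absurd h4 h.2
        · exact ⟨M.σ⁻¹ d, M.vt_inv d, h4⟩
      · have h' : M.fc (M.σ⁻¹ d) ∈ Rg M Y P z := by
          by_contra h''
          exact hd ⟨fun h3 => absurd h3 h1, fun h3 => absurd h3 h''⟩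
        rcases exit_mem h' hadj h1 with h4 | h4
        · exact absurd h4 h.1
        · exact ⟨d, rfl, h4⟩
  have hconst := fun (d e : D) (hd : M.del (Rg M Y P z) d) (he : M.del (Rg M Y P z) e) =>
    bd_const hG (Or.inl hX) v0 (fun d => M.fc d ∈ Y ∨ M.fc (M.σ⁻¹ d) ∈ Y)
      (fun d => by
        rw [M.fc_tau, M.fc_ti]
        exact or_comm)
      (fun d e hv hv0 hd he => by
        have f1 := faces d hd
        have f2 := faces e he
        by_cases g1 : M.fc d ∈ Y ∨ M.fc (M.σ⁻¹ d) ∈ Y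
        · by_cases g2 : M.fc e ∈ Y ∨ M.fc (M.σ⁻¹ e) ∈ Y
          · exact iff_of_true g1 g2
          · exact absurd f1.1 (hcon _ hv0 ⟨f1.2.1 g1, hv ▸ f2.2.2 g2⟩)
        · by_cases g2 : M.fc e ∈ Y ∨ M.fc (M.σ⁻¹ e) ∈ Y
          · exact absurd f1.1 (hcon _ hv0 ⟨hv ▸ f2.2.1 g2, f1.2.2 g1⟩)
          · exact iff_of_false g1 g2)
      hd he
  -- a boundary arc with outer face in `P`
  obtain ⟨x1, y1, hx1, hy1, hy1', ha1⟩ := exit_step
    (hT.y.disc.cc z hz.1 p0 (hPY p0 hp0)) (self_mem (M := M) (Y := Y) (P := P) z)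
    (fun h => (not_mem hz h).2 hp0)
  obtain ⟨x2, y2, hx2, hy2, hy2', ha2⟩ := exit_step
    (hT.p.disc.cc z hz.2 y0 (fun h => hPY y0 h hy0)) (self_mem (M := M) (Y := Y) (P := P) z)
    (fun h => (not_mem hz h).1 hy0)
  have hy2Y : y2 ∈ Y := by
    rcases exit_mem hx2 ha2 hy2 with h | h
    · exact h
    · exact absurd h hy2'
  obtain ⟨d, hd1, hd2⟩ := adj_dart' ha1
  obtain ⟨e, he1, he2⟩ := adj_dart' ha2
  have hdel1 : M.del (Rg M Y P z) d := by
    unfold PM.del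
    rw [hd1, hd2]
    exact fun h => hy1 (h.2 hx1)
  have hdel2 : M.del (Rg M Y P z) e := by
    unfold PM.del
    rw [he1, he2]
    exact fun h => hy2 (h.2 hx2)
  have hfin := (hconst e d hdel2 hdel1).1 (Or.inl (by rw [he1]; exact hy2Y))
  rcases hfin with h | h
  · rw [hd1] at h
    exact hy1' h
  · rw [hd2] at h
    exact (not_mem hz hx1).1 h

end Pool.Agent.Lib.PLQ
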