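import Mathlib
import Pool.Agent.Lib.PLQ.RegB
import Pool.Agent.Lib.PLQ.RingF

set_option autoImplicit false
set_option linter.unusedSectionVars false
set_option linter.unusedVariables false

/-! Module RegC. -/

namespace Pool.Agent.Lib.PLQ

open Finset Pool.Agent.Lib.NK
open scoped Classical

variable {V D F : Type} [Fintype V] [Fintype D] [Fintype F] {M : PM V D F}

variable {Y P : Set F}

namespace RegCAux

/-- `k` is the least exponent with `σ ^ k d = d'` -/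
def Lst (M : PM V D F) (d d' : D) (k : ℕ) : Prop :=
  (M.σ ^ k) d = d' ∧ ∀ m, m < k → (M.σ ^ m) d ≠ d'

theorem exists_lst {d d' : D} (h : M.vt d = M.vt d') : ∃ k, Lst M d d' k := by
  have h1 : ∃ k : ℕ, (M.σ ^ k) d = d' := ((M.vs d d').1 h).exists_nat_pow_eq
  exact ⟨Nat.find h1, Nat.find_spec h1, fun m hm => Nat.find_min h1 hm⟩

theorem pow_pow (a b : ℕ) (d : D) : (M.σ ^ a) ((M.σ ^ b) d) = (M.σ ^ (a + b)) d := by
  rw [pow_add, Equiv.Perm.mul_apply]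

theorem inv_succ (i : ℕ) (d : D) : M.σ⁻¹ ((M.σ ^ (i + 1)) d) = (M.σ ^ i) d := by
  rw [pow_succ', Equiv.Perm.mul_apply, perm_ia]

/-- no return before the end -/
theorem Lst.ne {d d' : D} {k : ℕ} (h : Lst M d d' k) (hne : d ≠ d') {m : ℕ} (hm0 : 0 < m)
    (hmk : m ≤ k) : (M.σ ^ m) d ≠ d := by
  intro hm
  rcases hmk.eq_or_lt with rfl | hlt
  · exact hne (hm.symm.trans h.1)
  · have h1 : (M.σ ^ (k - m)) d = d' := by
      calc (M.σ ^ (k - m)) d = (M.σ ^ (k - m)) ((M.σ ^ m) d) := by rw [hm]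
        _ = (M.σ ^ k) d := by rw [pow_pow, Nat.sub_add_cancel hmk]
        _ = d' := h.1
    exact h.2 (k - m) (by omega) h1

theorem prop4 {A B C E : Prop} (h1 : A ∨ B) (h2 : C ∨ E) (h3 : A ∨ C) (h4 : B ∨ E) :
    (A ∧ E) ∨ (B ∧ C) := by
  tauto

/-- the two arcs cover the vertex -/
theorem cover2 {d d' q : D} {k l : ℕ} (hne : d ≠ d') (h : Lst M d d' k) (h' : Lst M d' d l)
    (hq : M.vt d = M.vt q) :
    (∃ i, i ≤ k ∧ q = (M.σ ^ i) d) ∨ (∃ j, j ≤ l ∧ q = (M.σ ^ j) d') := by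
  obtain ⟨n, hn, hn'⟩ := exists_lst hq
  have hk0 : 0 < k := by
    rcases Nat.eq_zero_or_pos k with rfl | hk
    · exact absurd h.1 hne
    · exact hk
  by_cases h1 : n ≤ k
  · exact Or.inl ⟨n, h1, hn.symm⟩
  · push Not at h1
    have h2 : q = (M.σ ^ (n - k)) d' := by
      rw [← h.1, pow_pow, Nat.sub_add_cancel h1.le, hn]
    by_cases h3 : n - k ≤ l
    · exact Or.inr ⟨_, h3, h2⟩
    · push Not at h3
      exfalso
      have h4 : (M.σ ^ (n - k - l)) d = q := by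
        calc (M.σ ^ (n - k - l)) d = (M.σ ^ (n - k - l)) ((M.σ ^ l) d') := by rw [h'.1]
          _ = (M.σ ^ (n - k)) d' := by rw [pow_pow, Nat.sub_add_cancel h3.le]
          _ = q := h2.symm
      exact hn' (n - k - l) (by omega) h4

/-- the first entrance -/
theorem enter {K : Set F} {d : D} {k : ℕ} (hd : M.fc d ∉ K)
    (h : ∃ i, i ≤ k ∧ M.fc ((M.σ ^ i) d) ∈ K) :
    ∃ i, 0 < i ∧ i ≤ k ∧ M.fc ((M.σ ^ i) d) ∈ K ∧ M.fc (M.σ⁻¹ ((M.σ ^ i) d)) ∉ K := by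
  have h' : ∃ i, M.fc ((M.σ ^ i) d) ∈ K := by
    obtain ⟨i, -, hi⟩ := h
    exact ⟨i, hi⟩
  obtain ⟨i0, hi0, hi0'⟩ := h
  have h1 := Nat.find_spec h'
  have h2 := Nat.find_min' h' hi0'
  have h3 := fun m hm => Nat.find_min h' (m := m) hm
  generalize Nat.find h' = n at h1 h2 h3
  cases n with
  | zero => exact absurd h1 hd
  | succ n =>
    refine ⟨n + 1, Nat.succ_pos _, h2.trans hi0, h1, ?_⟩
    rw [inv_succ]
    exact h3 n (Nat.lt_succ_self n)

theorem one_side {K : Set F} (hK : M.Conn K) (hKc : M.Conn Kᶜ) {d d' : D}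
    (hd : M.fc d ∉ K) (hd' : M.fc d' ∉ K) (hv : M.vt d = M.vt d') {k l : ℕ} (h : Lst M d d' k)
    (h' : Lst M d' d l) :
    (∀ i, i ≤ k → M.fc ((M.σ ^ i) d) ∉ K) ∨ (∀ j, j ≤ l → M.fc ((M.σ ^ j) d') ∉ K) := by
  by_contra hcon
  push Not at hcon
  obtain ⟨h1, h2⟩ := hcon
  obtain ⟨i, hi0, hik, hi1, hi2⟩ := enter hd h1
  obtain ⟨j, hj0, hjl, hj1, hj2⟩ := enter hd' h2
  have hik' : i < k := by
    rcases hik.eq_or_lt with h3 | h3
    · rw [h3, h.1] at hi1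
      exact absurd hi1 hd'
    · exact h3
  have hjl' : j < l := by
    rcases hjl.eq_or_lt with h3 | h3
    · rw [h3, h'.1] at hj1
      exact absurd hj1 hd
    · exact h3
  have hne : d ≠ d' := by
    intro hdd
    exact h.2 0 (by omega) hdd
  have heq : (M.σ ^ i) d = (M.σ ^ j) d' :=
    enter_unique hK hKc (by rw [M.vt_pow, M.vt_pow, hv]) hi1 hi2 hj1 hj2
  have h3 : (M.σ ^ (l - j + i)) d = d := by
    calc (M.σ ^ (l - j + i)) d = (M.σ ^ (l - j)) ((M.σ ^ i) d) := (pow_pow _ _ _).symm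
      _ = (M.σ ^ (l - j)) ((M.σ ^ j) d') := by rw [heq]
      _ = (M.σ ^ l) d' := by rw [pow_pow, Nat.sub_add_cancel hjl]
      _ = d := h'.1
  have h4 : (M.σ ^ (k - i + j)) d' = d' := by
    calc (M.σ ^ (k - i + j)) d' = (M.σ ^ (k - i)) ((M.σ ^ j) d') := (pow_pow _ _ _).symm
      _ = (M.σ ^ (k - i)) ((M.σ ^ i) d) := by rw [heq]
      _ = (M.σ ^ k) d := by rw [pow_pow, Nat.sub_add_cancel hik]
      _ = d' := h.1
  have h5 : k < l - j + i := by
    by_contra hc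
    exact h.ne hne (m := l - j + i) (by omega) (by omega) h3
  have h6 : l < k - i + j := by
    by_contra hc
    exact h'.ne hne.symm (m := k - i + j) (by omega) (by omega) h4
  omega

theorem walk {d : D} {k : ℕ}
    (h : ∀ i, i ≤ k → M.fc ((M.σ ^ i) d) ∉ Y ∧ M.fc ((M.σ ^ i) d) ∉ P) :
    M.fc ((M.σ ^ k) d) ∈ Rg M Y P (M.fc d) := by
  induction k with
  | zero => exact Relation.ReflTransGen.refl
  | succ k ih =>
    have h1 := ih (fun i hi => h i (by omega))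
    refine Relation.ReflTransGen.tail h1 ⟨?_, h (k + 1) le_rfl⟩
    rw [pow_succ', Equiv.Perm.mul_apply]
    exact M.adj_sig _

/-- if the other set is not at the vertex, the corners outside `K` are in one region -/
theorem core {K : Set F} (hK : M.Conn K) (hKc : M.Conn Kᶜ) {v : V}
    (hv : ∀ q, M.vt q = v → M.fc q ∉ K → M.fc q ∉ Y ∧ M.fc q ∉ P) {d d' : D} (hd : M.vt d = v)
    (hd' : M.vt d' = v) (h1 : M.fc d ∉ K) (h2 : M.fc d' ∉ K) :
    Rg M Y P (M.fc d) = Rg M Y P (M.fc d') := by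
  obtain ⟨k, hk⟩ := exists_lst (hd.trans hd'.symm)
  obtain ⟨l, hl⟩ := exists_lst (hd'.trans hd.symm)
  rcases one_side hK hKc h1 h2 (hd.trans hd'.symm) hk hl with h | h
  · have h3 := walk (Y := Y) (P := P) (fun i hi => hv _ (by rw [M.vt_pow, hd]) (h i hi))
    rw [hk.1] at h3
    exact (rg_eq (hv d hd h1) h3).symm
  · have h3 := walk (Y := Y) (P := P) (fun i hi => hv _ (by rw [M.vt_pow, hd']) (h i hi))
    rw [hl.1] at h3
    exact rg_eq (hv d' hd' h2) h3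

theorem Cyc_of {a b c : D} {k i : ℕ} (h : Lst M a c k) (hne : a ≠ c) (hi0 : 0 < i) (hik : i < k)
    (hb : (M.σ ^ i) a = b) : M.Cyc a b c :=
  ⟨i, k, hi0, hik, hb, h.1, fun _ hm0 hmk => h.ne hne hm0 hmk⟩

end RegCAux

open RegCAux

/-- a common vertex of two different regions is a common vertex of `Y` and `P`: otherwise only one
of `Y`, `P` is at the vertex, and it has two runs there -/
theorem rg_common (hG : Good M) (hT : TwoD M Y P) {z z' : F} (hz : z ∉ Y ∧ z ∉ P)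
    (hz' : z' ∉ Y ∧ z' ∉ P) (hne : Rg M Y P z ≠ Rg M Y P z') {v : V}
    (hv : M.At (Rg M Y P z) v) (hv' : M.At (Rg M Y P z') v) : Tch M Y P v := by
  obtain ⟨d, hd, hdz⟩ := hv
  obtain ⟨d', hd', hdz'⟩ := hv'
  have e1 := rg_eq hz hdz
  have e2 := rg_eq hz' hdz'
  obtain ⟨s1, s2⟩ := rg_disj (M := M) hz
  obtain ⟨s3, s4⟩ := rg_disj (M := M) hz'
  rw [Set.disjoint_left] at s1 s2 s3 s4
  by_contra hcon
  unfold Tch at hcon
  rw [not_and_or] at hcon
  apply hne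
  rw [← e1, ← e2]
  rcases hcon with h | h
  · refine core hT.p.disc.cn hT.p.disc.cc (v := v) ?_ hd hd' (s2 hdz) (s4 hdz')
    intro q hq hqP
    exact ⟨fun hqY => h ⟨q, hq, hqY⟩, hqP⟩
  · refine core hT.y.disc.cn hT.y.disc.cc (v := v) ?_ hd hd' (s1 hdz) (s3 hdz')
    intro q hq hqY
    exact ⟨hqY, fun hqP => h ⟨q, hq, hqP⟩⟩

/-- three common vertices give a ring: two regions share at most one vertex (`third` with `H, H'`
the regions: they separate `Y` from `P` at a common vertex of `Y` and `P` where both are), every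
region has two common vertices (`rg_touch`), at each of which there is another region (`rg_two`);
`ring_family` for the regions -/
theorem rg_three (hG : Good M) (hT : TwoD M Y P) {u1 u2 u3 : V} (h12 : u1 ≠ u2) (h13 : u1 ≠ u3)
    (h23 : u2 ≠ u3) (h1 : Tch M Y P u1) (h2 : Tch M Y P u2) (h3 : Tch M Y P u3) : False := by
  have dj : ∀ f, f ∈ Y → f ∉ P := fun f hf hf' => Set.disjoint_left.1 hT.dj hf hf'
  -- faces next to `Y` are not in `P`
  have nadj : ∀ d : D, M.fc (M.σ⁻¹ d) ∈ Y → M.fc d ∉ P := fun d hd hd' =>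
    hT.na _ hd _ hd' (M.adj_dart d)
  have nadj' : ∀ d : D, M.fc d ∈ Y → M.fc (M.σ⁻¹ d) ∉ P := fun d hd hd' =>
    hT.na _ hd _ hd' (M.adj_symm (M.adj_dart d))
  -- the darts at the run of `Y`
  have runs : ∀ u, Tch M Y P u → ∃ e q : D, M.vt e = u ∧ M.vt q = u ∧ M.fc e ∈ Y ∧
      M.fc (M.σ⁻¹ e) ∉ Y ∧ M.fc (M.σ⁻¹ q) ∈ Y ∧ M.fc q ∉ Y := by
    rintro u ⟨⟨y, hy, hyY⟩, ⟨p, hp, hpP⟩⟩
    have hpY : M.fc p ∉ Y := fun h => dj _ h hpP
    obtain ⟨k, hk⟩ := exists_lst (M := M) (hp.trans hy.symm)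
    obtain ⟨l, hl⟩ := exists_lst (M := M) (hy.trans hp.symm)
    obtain ⟨i, -, -, hi1, hi2⟩ := enter (K := Y) hpY ⟨k, le_rfl, by rw [hk.1]; exact hyY⟩
    obtain ⟨j, -, -, hj1, hj2⟩ := enter (K := Yᶜ) (d := y) (fun h => h hyY)
      ⟨l, le_rfl, by rw [hl.1]; exact hpY⟩
    refine ⟨_, _, ?_, ?_, hi1, hi2, ?_, hj1⟩
    · rw [M.vt_pow, hp]
    · rw [M.vt_pow, hy]
    · by_contra hc
      exact hj2 hc
  have ud : ∀ z, z ∉ Y ∧ z ∉ P → M.UDisc (Rg M Y P z) := fun z hz => rg_ud hG hT h12 h1 h2 hz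
  have atc : ∀ u, Tch M Y P u → ∀ z, z ∉ Y ∧ z ∉ P → M.At (Rg M Y P z)ᶜ u := by
    rintro u ⟨⟨y, hy, hyY⟩, -⟩ z hz
    exact ⟨y, hy, fun h => Set.disjoint_left.1 (rg_disj hz).1 h hyY⟩
  -- two regions share at most one vertex
  have share : ∀ z z', z ∉ Y ∧ z ∉ P → z' ∉ Y ∧ z' ∉ P → Rg M Y P z ≠ Rg M Y P z' →
      ∀ x y, M.At (Rg M Y P z) x → M.At (Rg M Y P z') x → M.At (Rg M Y P z) y →
        M.At (Rg M Y P z') y → x = y := by
    intro z z' hz hz' hne x y hx hx' hy hy'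
    by_contra hxy
    have tx := rg_common hG hT hz hz' hne hx hx'
    obtain ⟨u, hu, hux, huy⟩ : ∃ u, Tch M Y P u ∧ x ≠ u ∧ y ≠ u := by
      by_contra hcon
      push Not at hcon
      have a1 := hcon u1 h1
      have a2 := hcon u2 h2
      have a3 := hcon u3 h3
      by_cases b1 : x = u1
      · have c2 := a2 (by rw [b1]; exact h12)
        have c3 := a3 (by rw [b1]; exact h13)
        exact h23 (c2.symm.trans c3)
      · have c1 := a1 b1
        by_cases b2 : x = u2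
        · have c3 := a3 (by rw [b2]; exact h23)
          exact h13 (c1.symm.trans c3)
        · exact h12 (c1.symm.trans (a2 b2))
    obtain ⟨s1, s2⟩ := rg_disj (M := M) hz
    obtain ⟨s3, s4⟩ := rg_disj (M := M) hz'
    obtain ⟨a, ha, haz⟩ := hx
    obtain ⟨c, hc, hcz⟩ := hx'
    have e1 := rg_eq hz haz
    have e2 := rg_eq hz' hcz
    have hHH : Disjoint (Rg M Y P z) (Rg M Y P z') := by
      rw [Set.disjoint_left]
      intro w hw hw'
      exact hne ((rg_eq hz hw).symm.trans (rg_eq hz' hw'))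
    have haY : M.fc a ∉ Y := Set.disjoint_left.1 s1 haz
    have haP : M.fc a ∉ P := Set.disjoint_left.1 s2 haz
    have hcY : M.fc c ∉ Y := Set.disjoint_left.1 s3 hcz
    have hcP : M.fc c ∉ P := Set.disjoint_left.1 s4 hcz
    have hac : a ≠ c := by
      rintro rfl
      exact Set.disjoint_left.1 hHH haz hcz
    obtain ⟨k, hk⟩ := exists_lst (M := M) (ha.trans hc.symm)
    obtain ⟨l, hl⟩ := exists_lst (M := M) (hc.trans ha.symm)
    have hα : (∃ i, 0 < i ∧ i < k ∧ M.fc ((M.σ ^ i) a) ∈ Y) ∨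
        (∃ i, 0 < i ∧ i < k ∧ M.fc ((M.σ ^ i) a) ∈ P) := by
      by_contra hcon
      push Not at hcon
      have h4 := walk (Y := Y) (P := P) (M := M) (d := a) (k := k) (by
        intro i hi
        rcases Nat.eq_zero_or_pos i with rfl | hi0
        · exact ⟨haY, haP⟩
        · rcases hi.eq_or_lt with rfl | hik
          · rw [hk.1]
            exact ⟨hcY, hcP⟩
          · exact ⟨hcon.1 i hi0 hik, hcon.2 i hi0 hik⟩)
      rw [hk.1] at h4
      exact hne (by rw [← e1, ← e2, rg_eq ⟨haY, haP⟩ h4])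
    have hβ : (∃ i, 0 < i ∧ i < l ∧ M.fc ((M.σ ^ i) c) ∈ Y) ∨
        (∃ i, 0 < i ∧ i < l ∧ M.fc ((M.σ ^ i) c) ∈ P) := by
      by_contra hcon
      push Not at hcon
      have h4 := walk (Y := Y) (P := P) (M := M) (d := c) (k := l) (by
        intro i hi
        rcases Nat.eq_zero_or_pos i with rfl | hi0
        · exact ⟨hcY, hcP⟩
        · rcases hi.eq_or_lt with rfl | hik
          · rw [hl.1]
            exact ⟨haY, haP⟩
          · exact ⟨hcon.1 i hi0 hik, hcon.2 i hi0 hik⟩)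
      rw [hl.1] at h4
      exact hne (by rw [← e1, ← e2, rg_eq ⟨hcY, hcP⟩ h4])
    have hγ : ∀ K : Set F, M.At K x → M.fc a ∉ K → M.fc c ∉ K →
        (∃ i, 0 < i ∧ i < k ∧ M.fc ((M.σ ^ i) a) ∈ K) ∨
        (∃ i, 0 < i ∧ i < l ∧ M.fc ((M.σ ^ i) c) ∈ K) := by
      rintro K ⟨q, hq, hqK⟩ haK hcK
      rcases cover2 hac hk hl (ha.trans hq.symm) with ⟨i, hi, rfl⟩ | ⟨j, hj, rfl⟩
      · left
        refine ⟨i, ?_, ?_, hqK⟩
        · rcases Nat.eq_zero_or_pos i with rfl | hi0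
          · exact absurd hqK haK
          · exact hi0
        · rcases hi.eq_or_lt with rfl | hik
          · rw [hk.1] at hqK
            exact absurd hqK hcK
          · exact hik
      · right
        refine ⟨j, ?_, ?_, hqK⟩
        · rcases Nat.eq_zero_or_pos j with rfl | hi0
          · exact absurd hqK hcK
          · exact hi0
        · rcases hj.eq_or_lt with rfl | hik
          · rw [hl.1] at hqK
            exact absurd hqK haK
          · exact hik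
    have hγY := hγ Y tx.1 haY hcY
    have hγP := hγ P tx.2 haP hcP
    have key : ((∃ i, 0 < i ∧ i < k ∧ M.fc ((M.σ ^ i) a) ∈ Y) ∧
        (∃ i, 0 < i ∧ i < l ∧ M.fc ((M.σ ^ i) c) ∈ P)) ∨
        ((∃ i, 0 < i ∧ i < k ∧ M.fc ((M.σ ^ i) a) ∈ P) ∧
        (∃ i, 0 < i ∧ i < l ∧ M.fc ((M.σ ^ i) c) ∈ Y)) := prop4 hα hβ hγY hγP
    have hxa : M.vt a ≠ y := by rw [ha]; exact hxy
    have hxu : M.vt a ≠ u := by rw [ha]; exact hux
    rcases key with ⟨⟨i, hi0, hik, hi⟩, ⟨j, hj0, hjl, hj⟩⟩ | ⟨⟨i, hi0, hik, hi⟩, ⟨j, hj0, hjl, hj⟩⟩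
    · exact third (rg_conn hz) (rg_conn hz') hT.y.disc.cn hT.p.disc.cn hHH s1 s2 s3 s4 haz hi hcz hj
        (Or.inl ⟨Cyc_of hk hac hi0 hik rfl, Cyc_of hl hac.symm hj0 hjl rfl⟩) hxa hxu huy hy hy'
        hu.1 hu.2
    · exact third (rg_conn hz) (rg_conn hz') hT.y.disc.cn hT.p.disc.cn hHH s1 s2 s3 s4 haz hj hcz hi
        (Or.inr ⟨Cyc_of hl hac.symm hj0 hjl rfl, Cyc_of hk hac hi0 hik rfl⟩) hxa hxu huy hy hy'
        hu.1 hu.2
  -- the family
  apply hG.nr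
  have mem_bd : ∀ (H : Set F) (v : V), v ∈ M.bd H ↔ M.At H v ∧ M.At Hᶜ v := by
    intro H v
    unfold PM.bd
    rw [mem_filter]
    simp only [mem_univ, true_and]
  have hNV : Nonempty V := ⟨u1⟩
  refine ring_family (((univ : Finset F).filter (fun z => z ∉ Y ∧ z ∉ P)).image
    (fun z => Rg M Y P z)) (fun H => M.bd H) ?_ ?_ ?_ ?_
  · intro H hH
    rw [mem_image] at hH
    obtain ⟨z, hz, rfl⟩ := hH
    exact disc_circ hG (Or.inl (ud z (mem_filter.1 hz).2))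
  · obtain ⟨e, q, he, hq, he1, he2, hq1, hq2⟩ := runs u1 h1
    exact ⟨_, mem_image.2 ⟨M.fc q, mem_filter.2 ⟨mem_univ _, hq2, nadj q hq1⟩, rfl⟩⟩
  · intro H hH H' hH' hne x y hx hx' hy hy'
    rw [mem_image] at hH hH'
    obtain ⟨z, hz, rfl⟩ := hH
    obtain ⟨z', hz', rfl⟩ := hH'
    exact share z z' (mem_filter.1 hz).2 (mem_filter.1 hz').2 hne x y ((mem_bd _ _).1 hx).1
      ((mem_bd _ _).1 hx').1 ((mem_bd _ _).1 hy).1 ((mem_bd _ _).1 hy').1
  · intro H hH v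
    rw [mem_image] at hH
    obtain ⟨z, hz, rfl⟩ := hH
    have hz' := (mem_filter.1 hz).2
    obtain ⟨w, hwv, hw, hwH⟩ := rg_touch hG hT h12 h1 h2 hz' v
    refine ⟨w, (mem_bd _ _).2 ⟨hwH, atc w hw z hz'⟩, hwv, ?_⟩
    obtain ⟨u', hu', hwu'⟩ : ∃ u', Tch M Y P u' ∧ w ≠ u' := by
      by_cases h : w = u1
      · exact ⟨u2, h2, by rw [h]; exact h12⟩
      · exact ⟨u1, h1, h⟩
    obtain ⟨e, q, he, hq, he1, he2, hq1, hq2⟩ := runs w hw
    obtain ⟨hd, -⟩ := rg_two hG hT hwu' hw hu' he hq he1 he2 hq1 hq2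
    have p1 : M.fc (M.σ⁻¹ e) ∉ Y ∧ M.fc (M.σ⁻¹ e) ∉ P := ⟨he2, nadj' e he1⟩
    have p2 : M.fc q ∉ Y ∧ M.fc q ∉ P := ⟨hq2, nadj q hq1⟩
    have m1 : M.At (Rg M Y P (M.fc (M.σ⁻¹ e))) w :=
      ⟨M.σ⁻¹ e, by rw [M.vt_inv, he], Relation.ReflTransGen.refl⟩
    have m2 : M.At (Rg M Y P (M.fc q)) w := ⟨q, hq, Relation.ReflTransGen.refl⟩
    by_cases hH1 : Rg M Y P (M.fc q) = Rg M Y P z
    · refine ⟨_, mem_image.2 ⟨M.fc (M.σ⁻¹ e), mem_filter.2 ⟨mem_univ _, p1⟩, rfl⟩, ?_,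
        (mem_bd _ _).2 ⟨m1, atc w hw _ p1⟩⟩
      rw [← hH1]
      exact hd
    · exact ⟨_, mem_image.2 ⟨M.fc q, mem_filter.2 ⟨mem_univ _, p2⟩, rfl⟩, hH1,
        (mem_bd _ _).2 ⟨m2, atc w hw _ p2⟩⟩

end Pool.Agent.Lib.PLQ
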