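import Mathlib
import Pool.Agent.Lib.PLQ.Basic

set_option autoImplicit false
set_option linter.unusedSectionVars false
set_option linter.unusedVariables false

/-! Module SymB: the mirror image `M.mir`. -/

namespace Pool.Agent.Lib.PLQ

open Finset Pool.Agent.Lib.NK
open scoped Classical

variable {V D F : Type} [Fintype V] [Fintype D] [Fintype F] (M : PM V D F)

namespace PM

theorem mir_up {x y : F} : M.mir.up x y ↔ M.up x y := by
  constructor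
  · rintro ⟨d, h1, h2, h3⟩
    have h1' : M.out d = false := by
      have h : (!M.out d) = true := h1
      simpa using h
    have h2' : M.fc (M.σ⁻¹ (M.σ d)) = x := h2
    have h3' : M.fc (M.σ⁻¹ d) = y := h3
    rw [perm_ia] at h2'
    rw [← h2', ← h3']
    exact M.up_in h1'
  · rintro ⟨d, h1, h2, h3⟩
    refine ⟨M.τ d, ?_, ?_, ?_⟩
    · change (!M.out (M.τ d)) = true
      rw [M.ot, h1]
      rfl
    · change M.fc (M.σ⁻¹ (M.σ (M.τ d))) = x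
      rw [perm_ia, M.fc_tau, h2]
    · change M.fc (M.σ⁻¹ (M.τ d)) = y
      rw [M.fc_ti, h3]

theorem mir_le {x y : F} : M.mir.le x y ↔ M.le x y := by
  have h : M.mir.up = M.up := by
    funext x y
    exact propext M.mir_up
  unfold PM.le
  rw [h]

theorem mir_adj {x y : F} : M.mir.adj x y ↔ M.adj x y := by
  unfold PM.adj
  rw [mir_up, mir_up]

theorem mir_conn {X : Set F} : M.mir.Conn X ↔ M.Conn X := by
  have h : M.mir.adj = M.adj := by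
    funext x y
    exact propext M.mir_adj
  unfold PM.Conn
  rw [h]

end PM

namespace SymBAux

variable {V D F : Type} [Fintype V] [Fintype D] [Fintype F] (M : PM V D F)

theorem mir_disc {X : Set F} : M.mir.Disc X ↔ M.Disc X :=
  ⟨fun h => ⟨h.ne, h.cne, M.mir_conn.1 h.cn, M.mir_conn.1 h.cc⟩,
    fun h => ⟨h.ne, h.cne, M.mir_conn.2 h.cn, M.mir_conn.2 h.cc⟩⟩

theorem mir_at {X : Set F} {v : V} : M.mir.At X v ↔ M.At X v := by
  constructor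
  · rintro ⟨d, h1, h2⟩
    exact ⟨M.σ⁻¹ d, (M.vt_inv d).trans h1, h2⟩
  · rintro ⟨d, h1, h2⟩
    refine ⟨M.σ d, (M.vt_sig d).trans h1, ?_⟩
    change M.fc (M.σ⁻¹ (M.σ d)) ∈ X
    rw [perm_ia]
    exact h2

theorem nt {a b : Bool} : (!a) ≠ (!b) ↔ b ≠ a := by
  cases a <;> cases b <;> simp

end SymBAux

open SymBAux

namespace PM

theorem mir_ud {X : Set F} : M.mir.UDisc X ↔ M.UDisc X :=
  ⟨fun h => ⟨(mir_disc M).1 h.disc, fun x y hxy => h.up x y (M.mir_up.2 hxy)⟩,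
    fun h => ⟨(mir_disc M).2 h.disc, fun x y hxy => h.up x y (M.mir_up.1 hxy)⟩⟩

theorem mir_dd {X : Set F} : M.mir.DDisc X ↔ M.DDisc X :=
  ⟨fun h => ⟨(mir_disc M).1 h.disc, fun x y hxy => h.dn x y (M.mir_up.2 hxy)⟩,
    fun h => ⟨(mir_disc M).2 h.disc, fun x y hxy => h.dn x y (M.mir_up.1 hxy)⟩⟩

theorem mir_bd {X : Set F} : M.mir.bd X = M.bd X := by
  ext v
  unfold PM.bd
  rw [mem_filter, mem_filter, mir_at, mir_at]

theorem mir_R {a b : V} : M.mir.R a b ↔ M.R b a := by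
  constructor
  · rintro ⟨d, h1, h2, h3⟩
    have h1' : M.out d = false := by
      have h : (!M.out d) = true := h1
      simpa using h
    refine ⟨M.τ d, ?_, h3, ?_⟩
    · rw [M.ot, h1']
      rfl
    · rw [M.tt]
      exact h2
  · rintro ⟨d, h1, h2, h3⟩
    refine ⟨M.τ d, ?_, h3, ?_⟩
    · change (!M.out (M.τ d)) = true
      rw [M.ot, h1]
      rfl
    · change M.vt (M.τ (M.τ d)) = b
      rw [M.tt]
      exact h2

theorem mir_lmin {d : D} : M.mir.lmin (M.σ d) ↔ M.lmin d := by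
  have h : M.mir.lmin (M.σ d) ↔ (!M.out (M.σ d)) = false ∧ (!M.out (M.σ⁻¹ (M.σ d))) = true :=
    Iff.rfl
  rw [h, perm_ia]
  unfold PM.lmin
  cases M.out d <;> cases M.out (M.σ d) <;> simp

theorem mir_lmax {d : D} : M.mir.lmax (M.σ d) ↔ M.lmax d := by
  have h : M.mir.lmax (M.σ d) ↔ (!M.out (M.σ d)) = true ∧ (!M.out (M.σ⁻¹ (M.σ d))) = false :=
    Iff.rfl
  rw [h, perm_ia]
  unfold PM.lmax
  cases M.out d <;> cases M.out (M.σ d) <;> simp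

theorem mir_sad {v : V} : M.mir.Sad v ↔ M.Sad v := by
  constructor
  · rintro ⟨d, e, h0, h1, h2, h3, h4⟩
    refine ⟨M.σ⁻¹ d, M.σ⁻¹ e, fun h => h0 (M.σ⁻¹.injective h), (M.vt_inv d).trans h1,
      (M.vt_inv e).trans h2, ?_, ?_⟩
    · rw [← mir_lmin, perm_ai]
      exact h3
    · rw [← mir_lmin, perm_ai]
      exact h4
  · rintro ⟨d, e, h0, h1, h2, h3, h4⟩
    exact ⟨M.σ d, M.σ e, fun h => h0 (M.σ.injective h), (M.vt_sig d).trans h1,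
      (M.vt_sig e).trans h2, M.mir_lmin.2 h3, M.mir_lmin.2 h4⟩

theorem mir_alt {d : D} : AltDigon M.mir (M.σ d) ↔ AltDigon M d := by
  have h : AltDigon M.mir (M.σ d) ↔
      M.vt (M.τ (M.σ d)) = M.vt (M.τ (M.σ⁻¹ (M.σ d))) ∧
      M.σ⁻¹ (M.τ (M.σ⁻¹ (M.σ d))) = M.τ (M.σ d) ∧
      M.σ⁻¹ (M.σ⁻¹ (M.σ d)) ≠ M.σ d ∧ M.σ⁻¹ (M.τ (M.σ d)) ≠ M.τ (M.σ⁻¹ (M.σ d)) ∧
      (!M.out (M.σ (M.σ d))) ≠ (!M.out (M.σ d)) ∧
      (!M.out (M.σ d)) ≠ (!M.out (M.σ⁻¹ (M.σ d))) ∧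
      (!M.out (M.σ⁻¹ (M.σ d))) ≠ (!M.out (M.σ⁻¹ (M.σ⁻¹ (M.σ d)))) ∧
      (!M.out (M.σ (M.τ (M.σ⁻¹ (M.σ d))))) ≠ (!M.out (M.τ (M.σ⁻¹ (M.σ d)))) ∧
      (!M.out (M.τ (M.σ⁻¹ (M.σ d)))) ≠ (!M.out (M.τ (M.σ d))) ∧
      (!M.out (M.τ (M.σ d))) ≠ (!M.out (M.σ⁻¹ (M.τ (M.σ d)))) := Iff.rfl
  rw [h, perm_ia, nt, nt, nt, nt, nt, nt]
  have e1 : M.σ⁻¹ (M.τ d) = M.τ (M.σ d) ↔ M.σ (M.τ (M.σ d)) = M.τ d := by
    rw [Equiv.Perm.inv_eq_iff_eq]
    exact eq_comm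
  have e2 : M.σ⁻¹ d ≠ M.σ d ↔ M.σ (M.σ d) ≠ d := by
    rw [Ne, Equiv.Perm.inv_eq_iff_eq]
    exact not_congr eq_comm
  have e3 : M.σ⁻¹ (M.τ (M.σ d)) ≠ M.τ d ↔ M.σ (M.τ d) ≠ M.τ (M.σ d) := by
    rw [Ne, Equiv.Perm.inv_eq_iff_eq]
    exact not_congr eq_comm
  rw [e1, e2, e3]
  unfold AltDigon
  constructor
  · rintro ⟨h1, h2, h3, h4, h5, h6, h7, h8, h9, h10⟩
    exact ⟨h1.symm, h2, h3, h4, h7, h6, h5, h10, h9, h8⟩
  · rintro ⟨h1, h2, h3, h4, h5, h6, h7, h8, h9, h10⟩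
    exact ⟨h1.symm, h2, h3, h4, h7, h6, h5, h10, h9, h8⟩

end PM

variable {M}

theorem Good.mir (hG : Good M) : Good M.mir := by
  have hR : M.mir.R = Rv M.R := by
    funext a b
    exact propext M.mir_R
  refine ⟨hG.nl, ?_, ?_, ?_⟩
  · intro d e h1 h2 h3 h4
    have h1' : M.out (M.τ d) = true := by
      rw [M.ot]
      exact h1
    have h2' : M.out (M.τ e) = true := by
      rw [M.ot]
      exact h2
    have h5 := hG.np (M.τ d) (M.τ e) h1' h2' h4 (by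
      rw [M.tt, M.tt]
      exact h3)
    exact M.τ.injective h5
  · rw [hR]
    exact ⟨hG.ts.1, fun z hz a ha b hb => (hG.ts.2 z hz b hb a ha).rv⟩
  · rw [hR]
    intro h
    exact hG.nr h.rv

end Pool.Agent.Lib.PLQ
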