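import Mathlib
import Pool.Agent.Lib.PLQ.R2Q
import Pool.Agent.Lib.PLQ.RegC
import Pool.Agent.Lib.PLQ.SymB

set_option autoImplicit false
set_option linter.unusedSectionVars false
set_option linter.unusedVariables false

/-! Module FourA: case II (`C2` in Defs): `Y` is the only component of `Lo` with saddle-minima, it has exactly the vertices `g`, `h` in common with `P = Xᶜ`. -/

namespace Pool.Agent.Lib.PLQ

open Finset Pool.Agent.Lib.NK
open scoped Classical

variable {V D F : Type} [Fintype V] [Fintype D] [Fintype F] {M : PM V D F} {X Y : Set F}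

namespace FourAAux

theorem two_aux (hG : Good M) (h : Mn M X) {N : Set F} (hN : Node M X N) (hne : N ≠ Xᶜ) :
    TwoD M N Xᶜ where
  y := node_dd hG h.gu.1 hN
  p := p_dd h.gu.1
  dj := node_disj hN (Or.inl rfl) hne
  na := by
    intro a ha b hb hab
    have hbN : b ∉ N := fun hbN =>
      Set.disjoint_left.mp (node_disj hN (Or.inl rfl) hne) hbN hb
    exact hb (node_out h.gu.1 hN ha hbN hab).1

theorem node_sub {N : Set F} (hN : Node M X N) (hne : N ≠ Xᶜ) {z : F} (hz : z ∈ N) : z ∈ X := by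
  rcases hN with h | ⟨y, hy, rfl⟩
  · exact absurd h hne
  · exact (yc_sub hy hz).1

theorem bd_at {N : Set F} {v : V} (h : v ∈ M.bd N) : M.At N v := by
  unfold PM.bd at h
  exact (Finset.mem_filter.mp h).2.1

theorem smin_mir {d : D} : SMin M.mir (M.σ d) ↔ SMin M d := by
  unfold SMin
  rw [M.mir_lmin]
  have e : M.mir.vt (M.σ d) = M.vt d := M.vt_sig d
  rw [e, M.mir_sad]

theorem smax_mir {d : D} : SMax M.mir (M.σ d) ↔ SMax M d := by
  unfold SMax
  rw [M.mir_lmax]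
  have e : M.mir.vt (M.σ d) = M.vt d := M.vt_sig d
  rw [e, M.mir_sad]

theorem fc_mir (d : D) : M.mir.fc (M.σ d) = M.fc d := by
  change M.fc (M.σ⁻¹ (M.σ d)) = M.fc d
  rw [perm_ia]

theorem goodU_mir {Z : Set F} : GoodU M.mir Z ↔ GoodU M Z := by
  unfold GoodU
  rw [M.mir_ud]
  refine and_congr_right fun _ => ⟨?_, ?_⟩
  · rintro ⟨d, h1, h2⟩
    rw [← perm_ai M.σ d] at h1 h2
    exact ⟨M.σ⁻¹ d, smin_mir.mp h1, by rwa [fc_mir] at h2⟩
  · rintro ⟨d, h1, h2⟩
    exact ⟨M.σ d, smin_mir.mpr h1, by rwa [fc_mir]⟩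

theorem goodD_mir {Z : Set F} : GoodD M.mir Z ↔ GoodD M Z := by
  unfold GoodD
  rw [M.mir_dd]
  refine and_congr_right fun _ => ⟨?_, ?_⟩
  · rintro ⟨d, h1, h2⟩
    rw [← perm_ai M.σ d] at h1 h2
    exact ⟨M.σ⁻¹ d, smax_mir.mp h1, by rwa [fc_mir] at h2⟩
  · rintro ⟨d, h1, h2⟩
    exact ⟨M.σ d, smax_mir.mpr h1, by rwa [fc_mir]⟩

theorem lo_mir {Z : Set F} : Lo M.mir Z = Lo M Z := by
  ext z
  simp only [Lo, Set.mem_ofPred_eq, M.mir_le]

theorem yc_mir {Z : Set F} {y : F} : Yc M.mir Z y = Yc M Z y := by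
  unfold Yc
  rw [lo_mir]
  have e : M.mir.adj = M.adj := by
    funext a b
    exact propext M.mir_adj
  rw [e]

theorem node_mir {N : Set F} : Node M.mir X N ↔ Node M X N := by
  unfold Node
  rw [lo_mir]
  simp only [yc_mir]

end FourAAux

open FourAAux

theorem C2.symm {g h : V} (hc : C2 M X Y g h) : C2 M X Y h g :=
  ⟨hc.mn, hc.nd, hc.ny, hc.gh.symm, hc.th, hc.tg, fun v a b => (hc.only v a b).symm, hc.sm,
    hc.on⟩

/-- `Y` and `P` are disjoint, non-adjacent down-discs -/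
theorem C2.two (hG : Good M) {g h : V} (hc : C2 M X Y g h) : TwoD M Y Xᶜ :=
  two_aux hG hc.mn hc.nd hc.ny

/-- Proof: by `caseI` some two nodes share two vertices; by `yy_share` one of them is `P`; `sm` is
`yp_smin`; `on` is `node_touch` with `sm`; there is no third common vertex by `rg_three`. -/
theorem exists_C2 (hG : Good M) (h : Mn M X) : ∃ Y g h', C2 M X Y g h' := by
  have hP : Node M X Xᶜ := Or.inl rfl
  have hex : ∃ N u w, Node M X N ∧ N ≠ Xᶜ ∧ u ≠ w ∧ u ∈ M.bd N ∧ u ∈ M.bd Xᶜ ∧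
      w ∈ M.bd N ∧ w ∈ M.bd Xᶜ := by
    by_contra hcon
    refine caseI hG h ?_
    intro N N' hN hN' hne u w hu hu' hw hw'
    by_contra huw
    by_cases h1 : N = Xᶜ
    · by_cases h2 : N' = Xᶜ
      · exact hne (h1.trans h2.symm)
      · rw [h1] at hu hw
        exact hcon ⟨N', u, w, hN', h2, huw, hu', hu, hw', hw⟩
    · by_cases h2 : N' = Xᶜ
      · rw [h2] at hu' hw'
        exact hcon ⟨N, u, w, hN, h1, huw, hu, hu', hw, hw'⟩
      · exact huw (yy_share hG h hN hN' hne h1 h2 hu hu' hw hw')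
  obtain ⟨Y, g, w, hY, hne, hgw, hg, hg', hw, hw'⟩ := hex
  have hsm : ∀ e, SMin M e → M.fc e ∈ X → M.fc e ∈ Y := fun e he heX =>
    yp_smin hG h hY hne hgw hg hg' hw hw' he heX
  have hT := two_aux hG h hY hne
  refine ⟨Y, g, w, ⟨h, hY, hne, hgw, ⟨bd_at hg, bd_at hg'⟩, ⟨bd_at hw, bd_at hw'⟩, ?_, hsm, ?_⟩⟩
  · intro v hv hv'
    by_contra hcon
    rw [not_or] at hcon
    exact rg_three hG hT hgw (Ne.symm hcon.1) (Ne.symm hcon.2) ⟨bd_at hg, bd_at hg'⟩
      ⟨bd_at hw, bd_at hw'⟩ ⟨hv, hv'⟩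
  · intro N N' v hN hN' hNN hv hv'
    by_contra hcon
    rw [not_or] at hcon
    obtain ⟨e, he, -, heN⟩ := node_touch hG h hN hN' hNN hv hv'
    have heY := hsm e he (node_sub hN hcon.2 heN)
    exact Set.disjoint_left.mp (node_disj hN hY hcon.1) heN heY

theorem Mn.mir (hG : Good M) (h : Mn M X) : Mn M.mir X :=
  ⟨goodU_mir.mpr h.gu, fun Z hZ hs => h.mU Z (goodU_mir.mp hZ) hs,
    fun Z hZ => h.mD Z (goodD_mir.mp hZ)⟩

theorem C2.mir (hG : Good M) {g h : V} (hc : C2 M X Y g h) : C2 M.mir X Y g h := by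
  have at' : ∀ (Z : Set F) (v : V), M.mir.At Z v ↔ M.At Z v := fun Z v => SymBAux.mir_at M
  refine ⟨hc.mn.mir hG, node_mir.mpr hc.nd, hc.ny, hc.gh, ?_, ?_, ?_, ?_, ?_⟩
  · rw [at', at']
    exact hc.tg
  · rw [at', at']
    exact hc.th
  · intro v hv hv'
    rw [at'] at hv hv'
    exact hc.only v hv hv'
  · intro e he heX
    rw [← perm_ai M.σ e] at he heX ⊢
    rw [fc_mir] at heX ⊢
    exact hc.sm _ (smin_mir.mp he) heX
  · intro N N' v hN hN' hne hv hv'
    rw [at'] at hv hv'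
    exact hc.on N N' v (node_mir.mp hN) (node_mir.mp hN') hne hv hv'

end Pool.Agent.Lib.PLQ
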