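import Mathlib
import Pool.Agent.Lib.PLQ.FourA

set_option autoImplicit false
set_option linter.unusedSectionVars false
set_option linter.unusedVariables false

/-! Module CrossA. -/

namespace Pool.Agent.Lib.PLQ

open Finset Pool.Agent.Lib.NK
open scoped Classical

variable {V D F : Type} [Fintype V] [Fintype D] [Fintype F] {M : PM V D F} {X Y : Set F}

namespace CrossAAux

theorem upw {x y w : F} (h : M.le x w) (h' : M.le w y) :
    Relation.ReflTransGen (fun a b => M.adj a b ∧ b ∈ {z | M.le x z ∧ M.le z y}) x w := by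
  induction h with
  | refl => exact Relation.ReflTransGen.refl
  | tail h1 h2 ih =>
    refine (ih ((M.up_le h2).trans h')).tail ⟨Or.inl h2, ?_, h'⟩
    exact Relation.ReflTransGen.tail h1 h2

theorem dnw {x y w : F} (h : M.le x w) (h' : M.le w y) :
    Relation.ReflTransGen (fun a b => M.adj a b ∧ b ∈ {z | M.le x z ∧ M.le z y}) w x := by
  induction h with
  | refl => exact Relation.ReflTransGen.refl
  | tail h1 h2 ih =>
    have h3 := (M.up_le h2).trans h'
    exact Relation.ReflTransGen.head ⟨Or.inr h2, h1, h3⟩ (ih h3)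

theorem per {σ : Equiv.Perm D} {p : D} {N : ℕ} (h : ∀ i, 0 < i → i < N → (σ ^ i) p ≠ p) (a : ℕ)
    {i : ℕ} (h1 : 0 < i) (h2 : i < N) : (σ ^ i) ((σ ^ a) p) ≠ (σ ^ a) p := by
  intro h3
  rw [← Equiv.Perm.mul_apply, ← pow_add, Nat.add_comm, pow_add, Equiv.Perm.mul_apply] at h3
  exact h i h1 h2 ((σ ^ a).injective h3)

/-- cyclic order from positions -/
theorem cyc_pos {p : D} {N : ℕ} (hN : (M.σ ^ N) p = p)
    (h : ∀ i, 0 < i → i < N → (M.σ ^ i) p ≠ p) {a b c : ℕ} (hab : a < b) (hbc : b < c)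
    (hca : c < a + N) : M.Cyc ((M.σ ^ a) p) ((M.σ ^ b) p) ((M.σ ^ c) p) := by
  refine ⟨b - a, c - a, by omega, by omega, ?_, ?_, ?_⟩
  · rw [← Equiv.Perm.mul_apply, ← pow_add]
    congr 2
    omega
  · rw [← Equiv.Perm.mul_apply, ← pow_add]
    congr 2
    omega
  · intro m h1 h2
    exact per h a h1 (by omega)

end CrossAAux

/-- the interval of the order is connected -/
theorem conn_iv {x y : F} (h : M.le x y) : M.Conn {z | M.le x z ∧ M.le z y} := by
  intro u hu w hw
  exact (CrossAAux.dnw hu.1 hu.2).trans (CrossAAux.upw hw.1 hw.2)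

/-- cyclic order of corners at a vertex with the structure `Four` -/
theorem four_cyc {v : V} {p : D} {k l : ℕ} (hF : Four M X Y v p k l) {m n y x : D}
    (hm : Two M p k l m n) (hy : M.vt y = v) (hyY : M.fc y ∈ Y) (hYX : Disjoint Y Xᶜ)
    (hYZ : ∀ z ∈ Y, z ∉ Zo M X) (hx : M.vt x = v) (hxX : M.fc x ∉ X) :
    (M.Cyc y m x ∧ M.Cyc x n y) ∨ (M.Cyc x m y ∧ M.Cyc y n x) := by
  have hYX' : ∀ z ∈ Y, z ∈ X := by
    intro z hz
    by_contra hzX
    exact Set.disjoint_left.mp hYX hz hzX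
  -- the position of `y`
  obtain ⟨i, hi, hyi⟩ := hF.all y hy
  obtain ⟨j, hj, hxj⟩ := hF.all x hx
  have hik : i < k := by
    by_contra hik
    by_cases h1 : i = k
    · subst h1
      rw [hyi] at hyY
      exact hYZ _ hyY hF.q2.1
    by_cases h2 : i = k + 1 + l
    · subst h2
      rw [hyi] at hyY
      exact hYZ _ hyY hF.r2.1
    have h3 := hF.pr (i - (k + 1)) (by omega)
    rw [show k + 1 + (i - (k + 1)) = i by omega, ← hyi] at h3
    exact h3 (hYX' _ hyY)
  have hjk : k < j := by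
    by_contra hjk
    by_cases h1 : j = k
    · subst h1
      rw [hxj] at hxX
      exact hxX hF.q2.1.1
    have h3 := hF.yr j (by omega)
    rw [← hxj] at h3
    exact hxX (hYX' _ h3)
  have hjl : j < k + 1 + l := by
    by_contra hjl
    have h1 : j = k + 1 + l := by omega
    subst h1
    rw [hxj] at hxX
    exact hxX hF.r2.1.1
  have hper := hF.per
  have hinj := hF.inj
  -- `y` once around
  have hy2 : y = (M.σ ^ (i + (k + l + 2))) p := by
    rw [pow_add, Equiv.Perm.mul_apply, hper]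
    exact hyi
  have c1 : M.Cyc y ((M.σ ^ k) p) x := by
    rw [hyi, hxj]
    exact CrossAAux.cyc_pos hper hinj hik hjk (by omega)
  have c2 : M.Cyc x ((M.σ ^ (k + 1 + l)) p) y := by
    rw [hy2, hxj]
    exact CrossAAux.cyc_pos hper hinj hjl (by omega) (by omega)
  rcases hm with ⟨h1, h2⟩ | ⟨h1, h2⟩
  · left
    rw [h1, h2]
    exact ⟨c1, c2⟩
  · right
    rw [h1, h2]
    exact ⟨c2, c1⟩

end Pool.Agent.Lib.PLQ
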