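import Mathlib
import Pool.Agent.Lib.PLQ.FourA

set_option autoImplicit false
set_option linter.unusedSectionVars false
set_option linter.unusedVariables false

/-! Module FourD. -/

namespace Pool.Agent.Lib.PLQ

open Finset Pool.Agent.Lib.NK
open scoped Classical

variable {V D F : Type} [Fintype V] [Fintype D] [Fintype F] {M : PM V D F} {X Y : Set F}

namespace FourDAux

theorem pow_pred (M : PM V D F) (p : D) (n : ℕ) (hn : 0 < n) :
    M.σ⁻¹ ((M.σ ^ n) p) = (M.σ ^ (n - 1)) p := by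
  obtain ⟨m, rfl⟩ : ∃ m, n = m + 1 := ⟨n - 1, by omega⟩
  rw [pow_succ', Equiv.Perm.mul_apply, perm_ia, Nat.add_sub_cancel]

theorem sig_pow (M : PM V D F) (p : D) (n : ℕ) : M.σ ((M.σ ^ n) p) = (M.σ ^ (n + 1)) p := by
  rw [pow_succ', Equiv.Perm.mul_apply]

theorem node_P : Node M X Xᶜ := Or.inl rfl

theorem disj {g h : V} (hc : C2 M X Y g h) : Disjoint Y Xᶜ :=
  node_disj hc.nd node_P hc.ny

theorem inX {g h : V} (hc : C2 M X Y g h) {z : F} (hz : z ∈ Y) : z ∈ X := by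
  by_contra hn
  exact Set.disjoint_left.1 (disj hc) hz hn

theorem at_of_bd {N : Set F} {v : V} (h : v ∈ M.bd N) : M.At N v := by
  unfold PM.bd at h
  exact (Finset.mem_filter.1 h).2.1

/-- the vertex where the inner faces change from `Y` to another node, away from `g`, is `h` -/
theorem change (hG : Good M) {g h : V} (hc : C2 M X Y g h) {z y : F} (hz : Zmin M X z)
    (hy : y ∉ Phi M.rev z) {d e : D} (hd : M.del (DP M z y) d)
    (he : M.del (DP M z y) e) (hdN : inn M (DP M z y) d ∈ Y) (heN : inn M (DP M z y) e ∉ X) :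
    ∃ c, M.vt c = h ∧ M.fc c ∉ X ∧ M.le (M.fc c) z := by
  have heN' : inn M (DP M z y) e ∉ Y := fun hh => heN (inX hc hh)
  obtain ⟨N', d', e', hN', hne, hv, hvg, hd', he', h1, h2, h3, h4⟩ :=
    two_nodes hG hc.mn hz hy hc.nd hd he hdN heN' g
  have hNP : N' = Xᶜ := by
    rcases hc.on N' Y (M.vt d') hN' hc.nd hne (at_of_bd h4) (at_of_bd h3) with hh | hh
    · exact absurd hh hne
    · exact hh
  have hvh : M.vt d' = h := by
    rcases hc.only (M.vt d') (at_of_bd h3) (by rw [← hNP]; exact at_of_bd h4) with hh | hh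
    · exact absurd hh hvg
    · exact hh
  have hin := inn_node hG hc.mn.gu.1 hz hy he'
  have h2' : inn M (DP M z y) e' ∉ X := by
    rw [hNP] at h2
    exact h2
  have hve : M.vt e' = h := by rw [← hv]; exact hvh
  by_cases hq : M.fc e' ∈ DP M z y
  · have e1 : inn M (DP M z y) e' = M.fc e' := by unfold inn; rw [if_pos hq]
    rw [e1] at h2' hin
    exact ⟨e', hve, h2', hin.2⟩
  · have e1 : inn M (DP M z y) e' = M.fc (M.σ⁻¹ e') := by unfold inn; rw [if_neg hq]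
    rw [e1] at h2' hin
    exact ⟨M.σ⁻¹ e', by rw [M.vt_inv, hve], h2', hin.2⟩

theorem zo_notY {g h : V} (hc : C2 M X Y g h) {z : F} (hz : Zmin M X z) : z ∉ Y :=
  fun hh => node_notz hc.nd hh hz.1

theorem zo_notP {z : F} (hz : Zmin M X z) : z ∉ Xᶜ := fun hh => hh hz.1.1

/-- the two regions at `g` -/
theorem two_reg (hG : Good M) {g h : V} (hc : C2 M X Y g h) {p : D} {k l : ℕ}
    (hF : Four M X Y g p k l) :
    Rg M Y Xᶜ (M.fc ((M.σ ^ k) p)) ≠ Rg M Y Xᶜ (M.fc ((M.σ ^ (k + 1 + l)) p)) ∧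
    ∀ d, M.vt d = g → M.fc d ∉ Y → M.fc d ∉ Xᶜ →
        M.fc d ∈ Rg M Y Xᶜ (M.fc ((M.σ ^ k) p)) ∨
        M.fc d ∈ Rg M Y Xᶜ (M.fc ((M.σ ^ (k + 1 + l)) p)) := by
  have hT := C2.two hG hc
  have hk := hF.k0
  have hpi : M.σ⁻¹ p = (M.σ ^ (k + 1 + l)) p := by
    rw [Equiv.Perm.inv_eq_iff_eq, sig_pow, show k + 1 + l + 1 = k + l + 2 by omega, hF.per]
  have hqi : M.σ⁻¹ ((M.σ ^ k) p) = (M.σ ^ (k - 1)) p := pow_pred M p k hk
  have h0 : M.fc p ∈ Y := by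
    have := hF.yr 0 hk
    rwa [pow_zero] at this
  have h1 : M.fc (M.σ⁻¹ p) ∉ Y := by
    rw [hpi]
    exact zo_notY hc hF.r2
  have h2 : M.fc (M.σ⁻¹ ((M.σ ^ k) p)) ∈ Y := by
    rw [hqi]
    exact hF.yr (k - 1) (by omega)
  have h3 : M.fc ((M.σ ^ k) p) ∉ Y := zo_notY hc hF.q2
  obtain ⟨a1, a2⟩ := rg_two hG hT hc.gh hc.tg hc.th hF.vp
    (by rw [M.vt_pow]; exact hF.vp) h0 h1 h2 h3
  rw [hpi] at a1 a2
  refine ⟨fun hh => a1 hh.symm, fun d b1 b2 b3 => ?_⟩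
  rcases a2 d b1 b2 b3 with b4 | b4
  · exact Or.inr b4
  · exact Or.inl b4

/-- a region at `g` is one of the two regions at `h` -/
theorem reg_h (hG : Good M) {g h : V} (hc : C2 M X Y g h) {p' : D} {k' l' : ℕ}
    (hF' : Four M X Y h p' k' l') {z : F} (hz : Zmin M X z) :
    Rg M Y Xᶜ z = Rg M Y Xᶜ (M.fc ((M.σ ^ k') p')) ∨
    Rg M Y Xᶜ z = Rg M Y Xᶜ (M.fc ((M.σ ^ (k' + 1 + l')) p')) := by
  have hT := C2.two hG hc
  have hzz : z ∉ Y ∧ z ∉ Xᶜ := ⟨zo_notY hc hz, zo_notP hz⟩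
  obtain ⟨w, hw, hw1, hw2⟩ := rg_touch hG hT hc.gh hc.tg hc.th hzz g
  have hwh : w = h := by
    rcases hc.only w hw1.1 hw1.2 with hh | hh
    · exact absurd hh hw
    · exact hh
  rw [hwh] at hw2
  obtain ⟨d, hd1, hd2⟩ := hw2
  have hdis := rg_disj (M := M) (Y := Y) (P := Xᶜ) hzz
  have hdY : M.fc d ∉ Y := fun hh => Set.disjoint_left.1 hdis.1 hd2 hh
  have hdP : M.fc d ∉ Xᶜ := fun hh => Set.disjoint_left.1 hdis.2 hd2 hh
  have e0 := rg_eq hzz hd2
  rcases (two_reg hG (C2.symm hc) hF').2 d hd1 hdY hdP with b | b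
  · left
    rw [← e0]
    exact rg_eq ⟨zo_notY hc hF'.q2, zo_notP hF'.q2⟩ b
  · right
    rw [← e0]
    exact rg_eq ⟨zo_notY hc hF'.r2, zo_notP hF'.r2⟩ b

end FourDAux

open FourDAux

/-- for the two corners `β` of `Zo` at `g` there is a face of `P` at `h` below `fc β`.
Proof: `R1d` at `β`: the down-piece `Q = DP (fc β) (fc (σ β))` contains the two neighbours, one in
`Y` and one in `P`; `two_nodes` with `N = Y`, `v0 = g`: the vertex found is `h`, the other node is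
`P`, and `inn_node` gives the order. -/
theorem p_below (hG : Good M) {g h : V} (hc : C2 M X Y g h) {p : D} {k l : ℕ}
    (hF : Four M X Y g p k l) {β : D} (hβ : β = (M.σ ^ k) p ∨ β = (M.σ ^ (k + 1 + l)) p) :
    ∃ c, M.vt c = h ∧ M.fc c ∉ X ∧ M.le (M.fc c) (M.fc β) := by
  have hk := hF.k0
  have hl := hF.l0
  have hlm : M.lmax β := by
    rcases hβ with rfl | rfl
    · exact hF.q1
    · exact hF.r1
  have hzm : Zmin M X (M.fc β) := by
    rcases hβ with rfl | rfl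
    · exact hF.q2
    · exact hF.r2
  have hup : M.up (M.fc (M.σ β)) (M.fc β) := M.lup_up (Or.inr ⟨rfl, hlm.2⟩)
  have hne : M.fc (M.σ β) ≠ M.fc β := fc_sig_ne hG β
  have hy : M.fc (M.σ β) ∉ Phi M.rev (M.fc β) := phi_below (M.up_le hup) hne
  have hQ1 : M.fc (M.σ⁻¹ β) ∈ DP M (M.fc β) (M.fc (M.σ β)) := R1d hG hlm
  have hQ2 : M.fc (M.σ β) ∈ DP M (M.fc β) (M.fc (M.σ β)) := by
    unfold DP
    exact up_self (M := M.rev) _ _
  have hQ0 : M.fc β ∉ DP M (M.fc β) (M.fc (M.σ β)) := by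
    intro hh
    unfold DP at hh
    exact up_sub_phi (M := M.rev) hy hh (b_phi (M := M.rev) _)
  have hd1 : M.del (DP M (M.fc β) (M.fc (M.σ β))) β := by
    unfold PM.del
    intro hh
    exact hQ0 (hh.2 hQ1)
  have hd2 : M.del (DP M (M.fc β) (M.fc (M.σ β))) (M.σ β) := by
    unfold PM.del
    rw [perm_ia]
    intro hh
    exact hQ0 (hh.1 hQ2)
  have hi1 : inn M (DP M (M.fc β) (M.fc (M.σ β))) β = M.fc (M.σ⁻¹ β) := by
    unfold inn
    rw [if_neg hQ0]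
  have hi2 : inn M (DP M (M.fc β) (M.fc (M.σ β))) (M.σ β) = M.fc (M.σ β) := by
    unfold inn
    rw [if_pos hQ2]
  rcases hβ with hβ | hβ
  · have e1 : M.fc (M.σ⁻¹ β) ∈ Y := by
      rw [hβ, pow_pred M p k hk]
      exact hF.yr (k - 1) (by omega)
    have e2 : M.fc (M.σ β) ∉ X := by
      rw [hβ, sig_pow]
      exact hF.pr 0 hl
    exact change hG hc hzm hy hd1 hd2 (by rw [hi1]; exact e1) (by rw [hi2]; exact e2)
  · have e1 : M.fc (M.σ⁻¹ β) ∉ X := by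
      rw [hβ, pow_pred M p (k + 1 + l) (by omega), show k + 1 + l - 1 = k + 1 + (l - 1) by omega]
      exact hF.pr (l - 1) (by omega)
    have e2 : M.fc (M.σ β) ∈ Y := by
      rw [hβ, sig_pow, show k + 1 + l + 1 = k + l + 2 by omega, hF.per]
      have := hF.yr 0 hk
      rwa [pow_zero] at this
    exact change hG hc hzm hy hd2 hd1 (by rw [hi2]; exact e2) (by rw [hi1]; exact e1)

/-- a saddle-minimum of `Y` at `g`; it is below every face of `Zo` -/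
theorem y_below (hG : Good M) {g h : V} (hc : C2 M X Y g h) :
    ∃ c, M.vt c = g ∧ M.fc c ∈ Y ∧ ∀ z, z ∈ Zo M X → M.le (M.fc c) z := by
  obtain ⟨e, he, hv, hY⟩ := node_touch hG hc.mn hc.nd node_P hc.ny hc.tg.1 hc.tg.2
  exact ⟨e, hv, hY, fun z hz => cF3 hG hc.mn he (inX hc hY) hz⟩

/-- the two `Zo` corners at `g` are in different regions of the complement of `Y ∪ P`, and each of
these regions contains exactly one of the two `Zo` corners at `h` -/
theorem match_regions (hG : Good M) {g h : V} (hc : C2 M X Y g h) {p p' : D} {k l k' l' : ℕ}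
    (hF : Four M X Y g p k l) (hF' : Four M X Y h p' k' l') :
    Rg M Y Xᶜ (M.fc ((M.σ ^ k) p)) ≠ Rg M Y Xᶜ (M.fc ((M.σ ^ (k + 1 + l)) p)) ∧
    ((M.fc ((M.σ ^ k') p') ∈ Rg M Y Xᶜ (M.fc ((M.σ ^ k) p)) ∧
        M.fc ((M.σ ^ (k' + 1 + l')) p') ∈ Rg M Y Xᶜ (M.fc ((M.σ ^ (k + 1 + l)) p))) ∨
      (M.fc ((M.σ ^ k') p') ∈ Rg M Y Xᶜ (M.fc ((M.σ ^ (k + 1 + l)) p)) ∧
        M.fc ((M.σ ^ (k' + 1 + l')) p') ∈ Rg M Y Xᶜ (M.fc ((M.σ ^ k) p)))) := by
  have h1 := (two_reg hG hc hF).1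
  have h2 := (two_reg hG (C2.symm hc) hF').1
  refine ⟨h1, ?_⟩
  have s1 : M.fc ((M.σ ^ k') p') ∈ Rg M Y Xᶜ (M.fc ((M.σ ^ k') p')) :=
    Relation.ReflTransGen.refl
  have s2 : M.fc ((M.σ ^ (k' + 1 + l')) p') ∈ Rg M Y Xᶜ (M.fc ((M.σ ^ (k' + 1 + l')) p')) :=
    Relation.ReflTransGen.refl
  rcases reg_h hG hc hF' hF.q2 with a | a <;> rcases reg_h hG hc hF' hF.r2 with b | b
  · exact absurd (a.trans b.symm) h1
  · left
    rw [a, b]
    exact ⟨s1, s2⟩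
  · right
    rw [a, b]
    exact ⟨s1, s2⟩
  · exact absurd (a.trans b.symm) h1

end Pool.Agent.Lib.PLQ
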