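import Mathlib
import Pool.Agent.Lib.PLQ.CrossA
import Pool.Agent.Lib.PLQ.FourD
import Pool.Agent.Lib.PLQ.OrdD

set_option autoImplicit false
set_option linter.unusedSectionVars false
set_option linter.unusedVariables false

/-! Module CrossB: crossing dual paths in `Y` and in `P`. -/

namespace Pool.Agent.Lib.PLQ

open Finset Pool.Agent.Lib.NK
open scoped Classical

variable {V D F : Type} [Fintype V] [Fintype D] [Fintype F] {M : PM V D F} {X Y : Set F}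

namespace CrossBAux

theorem pow_add' (σ : Equiv.Perm D) (i j : ℕ) (a : D) : (σ ^ (i + j)) a = (σ ^ j) ((σ ^ i) a) := by
  rw [Nat.add_comm, pow_add, Equiv.Perm.mul_apply]

theorem pow_comm' (σ : Equiv.Perm D) (i j : ℕ) (a : D) :
    (σ ^ i) ((σ ^ j) a) = (σ ^ j) ((σ ^ i) a) := by
  rw [← pow_add', ← pow_add', Nat.add_comm]

theorem fix (σ : Equiv.Perm D) {i m : ℕ} {a : D} (h : (σ ^ m) ((σ ^ i) a) = (σ ^ i) a) :
    (σ ^ m) a = a := by
  rw [pow_comm'] at h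
  exact (σ ^ i).injective h

theorem rot {a b c : D} (h : M.Cyc a b c) : M.Cyc b c a := by
  obtain ⟨i, j, hi, hij, rfl, rfl, hn⟩ := h
  have hex : ∃ N : ℕ, 0 < N ∧ (M.σ ^ N) a = a :=
    ⟨orderOf M.σ, orderOf_pos M.σ, by rw [pow_orderOf_eq_one]; rfl⟩
  have hN := Nat.find_spec hex
  have hm : ∀ m, 0 < m → m < Nat.find hex → (M.σ ^ m) a ≠ a := fun m h1 h2 h3 =>
    Nat.find_min hex h2 ⟨h1, h3⟩
  set N := Nat.find hex with hNd
  have hjN : j < N := by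
    by_contra hc
    exact hn N hN.1 (by omega) hN.2
  refine ⟨j - i, N - i, by omega, by omega, ?_, ?_, ?_⟩
  · rw [← pow_add']
    congr 2
    omega
  · rw [← pow_add']
    have : i + (N - i) = N := by omega
    rw [this, hN.2]
  · intro m h1 h2 h3
    exact hm m h1 (by omega) (fix M.σ h3)

theorem tr {a b c d : D} (h : M.Cyc a b c) (h' : M.Cyc a c d) : M.Cyc a b d ∧ M.Cyc b c d := by
  obtain ⟨i, j, hi, hij, hb, hc, hn⟩ := h
  obtain ⟨i', j', hi', hij', hc', hd, hn'⟩ := h'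
  have hji : j = i' := by
    rcases Nat.lt_trichotomy j i' with h | h | h
    · exfalso
      have e : i' = j + (i' - j) := by omega
      rw [e, pow_add', hc, ← hc] at hc'
      exact hn' (i' - j) (by omega) (by omega) (fix M.σ hc')
    · exact h
    · exfalso
      have e : j = i' + (j - i') := by omega
      rw [e, pow_add', hc', ← hc'] at hc
      exact hn (j - i') (by omega) (by omega) (fix M.σ hc)
  subst hji
  refine ⟨⟨i, j', hi, by omega, hb, hd, hn'⟩, ⟨j - i, j' - i, by omega, by omega, ?_, ?_, ?_⟩⟩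
  · rw [← hb, ← pow_add', ← hc]
    congr 2
    omega
  · rw [← hb, ← pow_add', ← hd]
    congr 2
    omega
  · intro m h1 h2 h3
    rw [← hb] at h3
    exact hn' m h1 (by omega) (fix M.σ h3)

theorem four {m n x y : D}
    (h : (M.Cyc y m x ∧ M.Cyc x n y) ∨ (M.Cyc x m y ∧ M.Cyc y n x)) :
    (M.Cyc m y x ∧ M.Cyc m n x) ∨ (M.Cyc x y m ∧ M.Cyc x n m) := by
  rcases h with ⟨h1, h2⟩ | ⟨h1, h2⟩
  · right
    have h3 : M.Cyc x y m := rot (rot h1)
    exact ⟨h3, (tr h2 h3).1⟩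
  · left
    have h3 : M.Cyc m y x := rot h1
    have h4 : M.Cyc y x m := rot h3
    exact ⟨h3, rot (rot (tr h2 h4).2)⟩

theorem core (hG : Good M) {K L E : Set F} {a b m m' n n' x x' : D}
    (hL : M.Conn L) (hE : M.Conn E) (hKL : Disjoint K L) (hKE : Disjoint K E)
    (hLE : Disjoint L E) (hgh : M.vt a ≠ M.vt b) (hvm : M.vt m = M.vt a) (hvm' : M.vt m' = M.vt b)
    (hxL : M.fc x ∈ L) (hxL' : M.fc x' ∈ L) (hnE : M.fc n ∈ E) (hnE' : M.fc n' ∈ E)
    (hmL : M.fc m ∉ L) (hmL' : M.fc m' ∉ L) (hmE' : M.fc m' ∉ E)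
    (ha : M.le (M.fc a) (M.fc m')) (hb : M.le (M.fc b) (M.fc m))
    (hA : ∀ z, M.le (M.fc a) z → M.le z (M.fc m') → z = M.fc m' ∨ z ∈ K)
    (hB : ∀ z, M.le (M.fc b) z → M.le z (M.fc m) → z = M.fc m ∨ z ∈ K)
    (h1 : ¬ M.le (M.fc m') (M.fc m))
    (hg : (M.Cyc a m x ∧ M.Cyc x n a) ∨ (M.Cyc x m a ∧ M.Cyc a n x))
    (hh : (M.Cyc b m' x' ∧ M.Cyc x' n' b) ∨ (M.Cyc x' m' b ∧ M.Cyc b n' x')) :
    ∃ c c' : D, M.vt c = M.vt a ∧ M.vt c' = M.vt b ∧ M.fc c = M.fc c' ∧ M.fc c ∈ K ∧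
      Relation.ReflTransGen M.lup c m ∧ Relation.ReflTransGen M.lup c' m' := by
  by_cases hd : Disjoint {z | M.le (M.fc a) z ∧ M.le z (M.fc m')}
      {z | M.le (M.fc b) z ∧ M.le z (M.fc m)}
  · exfalso
    refine xx (M := M) (conn_iv ha) (conn_iv hb) hL hE hd ?_ ?_ ?_ hLE
      (a := a) (b := m) (c := x) (e := n) (a' := m') (b' := b) (c' := x') (e' := n')
      ⟨M.le_rfl' _, ha⟩ ⟨hb, M.le_rfl' _⟩ hxL hnE ⟨ha, M.le_rfl' _⟩ ⟨M.le_rfl' _, hb⟩ hxL' hnE'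
      (by rw [hvm']; exact hgh) hg (four hh)
    · rw [Set.disjoint_left]
      rintro z ⟨hz1, hz2⟩ hz3
      rcases hA z hz1 hz2 with rfl | h
      · exact hmL' hz3
      · exact Set.disjoint_left.1 hKL h hz3
    · rw [Set.disjoint_left]
      rintro z ⟨hz1, hz2⟩ hz3
      rcases hA z hz1 hz2 with rfl | h
      · exact hmE' hz3
      · exact Set.disjoint_left.1 hKE h hz3
    · rw [Set.disjoint_left]
      rintro z ⟨hz1, hz2⟩ hz3
      rcases hB z hz1 hz2 with rfl | h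
      · exact hmL hz3
      · exact Set.disjoint_left.1 hKL h hz3
  · rw [Set.not_disjoint_iff] at hd
    obtain ⟨f, ⟨hf1, hf2⟩, ⟨hf3, hf4⟩⟩ := hd
    have hfK : f ∈ K := by
      rcases hA f hf1 hf2 with rfl | h
      · exact absurd hf4 h1
      · exact h
    obtain ⟨c, hc1, hc2, -, hc3⟩ := mid hG hvm.symm hf1 hf4
    obtain ⟨c', hc1', hc2', -, hc3'⟩ := mid hG hvm'.symm hf3 hf2
    exact ⟨c, c', hc1, hc1', by rw [hc2, hc2'], by rw [hc2]; exact hfK, hc3, hc3'⟩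

end CrossBAux

open CrossBAux in
/-- Let `m, n` be the `Zo` corners at `g`, `m', n'` those at `h`, where `fc m'` is in the region of
`fc m` and `fc n'` in the region `E` of `fc n`, and `fc m ≠ fc m'`.  Then a face of `Y` and a face of
`P` have corners at both `g` and `h`, from which one climbs locally to `m` and to `m'`.
Proof for `Y`: let `y`, `y'` be the corners at `g`, `h` from `y_below`, `A` the interval from `fc y`
to `fc m'`, `B` the interval from `fc y'` to `fc m`.  `A ⊆ Y ∪ {fc m'}` and `B ⊆ Y ∪ {fc m}` (`Zmin`,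
`yc_le`).  If `A` and `B` are disjoint, `xx` for `A, B, P, E` with corners `y, m, x, n` at `g` and
`m', y', x', n'` at `h` gives a contradiction.  A face `f ∈ A ∩ B` is not `fc m` or `fc m'` (these
are different minimal faces of `Zo`), so `f ∈ Y`; `mid` for `fc y ≤ f ≤ fc m` at `g` and for
`fc y' ≤ f ≤ fc m'` at `h` gives the corners and local paths.
For `P`: the same with the corners `c` at `h` (below `fc m`) and `c'` at `g` (below `fc m'`) from
`p_below` and the roles of `Y` and `P` exchanged: `A` from `fc c'` to `fc m'`, `B` from `fc c` to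
`fc m`, both in `P ∪ {..}`; `xx` for `A, B, Y, E` with corners `c', m, y, n` at `g` and
`m', c, y', n'` at `h`. -/
theorem cross (hG : Good M) {g h : V} (hc : C2 M X Y g h) {p p' : D} {k l k' l' : ℕ}
    (hF : Four M X Y g p k l) (hF' : Four M X Y h p' k' l') {m n m' n' : D}
    (hm : Two M p k l m n) (hm' : Two M p' k' l' m' n')
    (hr : M.fc m' ∈ Rg M Y Xᶜ (M.fc m)) (hr' : M.fc n' ∈ Rg M Y Xᶜ (M.fc n))
    (hrr : Rg M Y Xᶜ (M.fc m) ≠ Rg M Y Xᶜ (M.fc n)) (hne : M.fc m ≠ M.fc m') :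
    ∃ c1 c1' c2 c2' : D, M.vt c1 = g ∧ M.vt c1' = h ∧ M.vt c2 = g ∧ M.vt c2' = h ∧
      M.fc c1 = M.fc c1' ∧ M.fc c1 ∉ X ∧ M.fc c2 = M.fc c2' ∧ M.fc c2 ∈ Y ∧
      Relation.ReflTransGen M.lup c1 m ∧ Relation.ReflTransGen M.lup c1' m' ∧
      Relation.ReflTransGen M.lup c2 m ∧ Relation.ReflTransGen M.lup c2' m' := by
  have hX : M.UDisc X := hc.mn.gu.1
  have hT : TwoD M Y Xᶜ := C2.two hG hc
  have hYX : Y ⊆ X := by
    intro z hz
    by_contra h
    exact Set.disjoint_left.1 hT.dj hz h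
  have hYZ : ∀ z ∈ Y, z ∉ Zo M X := fun z hz => node_notz (V := V) (D := D) hc.nd hz
  -- the four corners of `Zo`
  have hmg : M.vt m = g ∧ Zmin M X (M.fc m) ∧ (m = (M.σ ^ k) p ∨ m = (M.σ ^ (k + 1 + l)) p) := by
    rcases hm with ⟨rfl, -⟩ | ⟨rfl, -⟩
    · exact ⟨by rw [M.vt_pow, hF.vp], hF.q2, Or.inl rfl⟩
    · exact ⟨by rw [M.vt_pow, hF.vp], hF.r2, Or.inr rfl⟩
  have hng : M.vt n = g ∧ Zmin M X (M.fc n) := by
    rcases hm with ⟨-, rfl⟩ | ⟨-, rfl⟩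
    · exact ⟨by rw [M.vt_pow, hF.vp], hF.r2⟩
    · exact ⟨by rw [M.vt_pow, hF.vp], hF.q2⟩
  have hmh : M.vt m' = h ∧ Zmin M X (M.fc m') ∧
      (m' = (M.σ ^ k') p' ∨ m' = (M.σ ^ (k' + 1 + l')) p') := by
    rcases hm' with ⟨rfl, -⟩ | ⟨rfl, -⟩
    · exact ⟨by rw [M.vt_pow, hF'.vp], hF'.q2, Or.inl rfl⟩
    · exact ⟨by rw [M.vt_pow, hF'.vp], hF'.r2, Or.inr rfl⟩
  have hzo : ∀ z, Zmin M X z → z ∉ Y ∧ z ∉ Xᶜ := fun z hz =>
    ⟨fun h => hYZ z h hz.1, fun h => h hz.1.1⟩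
  have hEm := rg_eq (M := M) (hzo _ hmg.2.1) hr
  have hE : M.Conn (Rg M Y Xᶜ (M.fc n)) := rg_conn (M := M) (hzo _ hng.2)
  obtain ⟨hEY, hEX⟩ := rg_disj (M := M) (hzo _ hng.2)
  have hmE' : M.fc m' ∉ Rg M Y Xᶜ (M.fc n) := by
    intro h
    exact hrr (hEm.symm.trans (rg_eq (hzo _ hng.2) h))
  have hnE : M.fc n ∈ Rg M Y Xᶜ (M.fc n) := Relation.ReflTransGen.refl
  have h1 : ¬ M.le (M.fc m') (M.fc m) := fun h => hne (hmg.2.1.2 _ hmh.2.1.1 h).symm
  -- the lower corners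
  obtain ⟨y, hy1, hy2, hy3⟩ := y_below hG hc
  obtain ⟨y', hy1', hy2', hy3'⟩ := y_below hG (C2.symm hc)
  obtain ⟨c, hc1, hc2, hc3⟩ := p_below hG hc hF hmg.2.2
  obtain ⟨c', hc1', hc2', hc3'⟩ := p_below hG (C2.symm hc) hF' hmh.2.2
  have hYc : M.Conn Y := hT.y.disc.cn
  have hPc : M.Conn Xᶜ := hT.p.disc.cn
  -- below the minimal faces of `Zo`
  have hupX : ∀ a z, a ∈ X → M.le a z → z ∈ X := by
    intro a z ha hz
    induction hz with
    | refl => exact ha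
    | tail _ h2 ih => exact hX.up _ _ h2 ih
  have hbY : ∀ a w z, a ∈ Y → Zmin M X w → M.le a z → M.le z w → z = w ∨ z ∈ Y := by
    intro a w z ha hw haz hzw
    by_cases hzw' : z = w
    · exact Or.inl hzw'
    · right
      have hzX : z ∈ X := hupX a z (hYX ha) haz
      have hzL : z ∈ Lo M X := by
        rcases lo_or_zo hzX (M := M) with h | h
        · exact h
        · exact absurd (hw.2 z h hzw) hzw'
      rcases hc.nd with hY | ⟨y0, hy0, hY⟩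
      · exact absurd hY hc.ny
      · rw [hY] at ha ⊢
        have h2 : Yc M X z = Yc M X y0 := by
          have h3 : a ∈ Yc M X z := yc_le hX.up hzL haz
          rw [← yc_eq (V := V) (D := D) hzL h3, yc_eq (V := V) (D := D) hy0 ha]
        rw [← h2]
        exact Relation.ReflTransGen.refl
  have hbP : ∀ a w z, a ∉ X → Zmin M X w → M.le a z → M.le z w → z = w ∨ z ∈ Xᶜ := by
    intro a w z ha hw haz hzw
    by_cases hzw' : z = w
    · exact Or.inl hzw'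
    · right
      intro hzX
      exact hzw' (hw.2 z ⟨hzX, a, ha, haz⟩ hzw)
  have hyc := four_cyc hF hm hy1 hy2 hT.dj hYZ hc1' hc2'
  have hyc' := four_cyc hF' hm' hy1' hy2' hT.dj hYZ hc1 hc2
  have hgh : g ≠ h := hc.gh
  obtain ⟨d1, d1', e1, e2, e3, e4, e5, e6⟩ := core hG (K := Xᶜ) (L := Y)
    (E := Rg M Y Xᶜ (M.fc n)) (a := c') (b := c) (m := m) (m' := m') (n := n) (n' := n')
    (x := y) (x' := y') hYc hE hT.dj.symm hEX.symm hEY.symm (by rw [hc1', hc1]; exact hgh)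
    (by rw [hmg.1, hc1']) (by rw [hmh.1, hc1]) hy2 hy2' hnE hr' (hzo _ hmg.2.1).1
    (hzo _ hmh.2.1).1 hmE' hc3' hc3
    (fun z h2 h3 => hbP _ _ z hc2' hmh.2.1 h2 h3) (fun z h2 h3 => hbP _ _ z hc2 hmg.2.1 h2 h3)
    h1 hyc.symm hyc'.symm
  obtain ⟨d2, d2', f1, f2, f3, f4, f5, f6⟩ := core hG (K := Y) (L := Xᶜ)
    (E := Rg M Y Xᶜ (M.fc n)) (a := y) (b := y') (m := m) (m' := m') (n := n) (n' := n')
    (x := c') (x' := c) hPc hE hT.dj hEY.symm hEX.symm (by rw [hy1, hy1']; exact hgh)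
    (by rw [hmg.1, hy1]) (by rw [hmh.1, hy1']) hc2' hc2 hnE hr' (hzo _ hmg.2.1).2
    (hzo _ hmh.2.1).2 hmE' (hy3 _ hmh.2.1.1) (hy3' _ hmg.2.1.1)
    (fun z h2 h3 => hbY _ _ z hy2 hmh.2.1 h2 h3) (fun z h2 h3 => hbY _ _ z hy2' hmg.2.1 h2 h3)
    h1 hyc hyc'
  exact ⟨d1, d1', d2, d2', by rw [e1, hc1'], by rw [e2, hc1], by rw [f1, hy1],
    by rw [f2, hy1'], e3, e4, f3, f4, e5, e6, f5, f6⟩

end Pool.Agent.Lib.PLQ
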