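import Mathlib
import Pool.Agent.Lib.PLQ.FourA

set_option autoImplicit false
set_option linter.unusedSectionVars false
set_option linter.unusedVariables false

/-! Module FourB. -/

namespace Pool.Agent.Lib.PLQ

open Finset Pool.Agent.Lib.NK
open scoped Classical

variable {V D F : Type} [Fintype V] [Fintype D] [Fintype F] {M : PM V D F} {X Y : Set F}

/-- In case II at `g`, for a saddle-minimum `e` there: in `locU` one has `j = k` and corner `k+1` is
in `P`.  Proof: corner `k+1` is in a node different from `Y` which is at `g`, so it is `P` (`on`).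
If `j < k`: by `r2P` and `q_at` the down-piece `Q` has inner faces in `Y` and in `P`; `two_nodes` with
`v0 = g` gives a common vertex of `Y` and another node where `Q` changes, it is `h` (`on`, `only`);
`two_nodes` with `v0 = h` gives such a vertex different from `h`, so it is `g`, but by `q_at` there is
no change at `g`. -/
theorem four_side (hG : Good M) {g h : V} (hc : C2 M X Y g h) {e : D} (he : SMin M e)
    (heX : M.fc e ∈ X) (hv : M.vt e = g) :
    ∃ k : ℕ, 0 < k ∧ (∀ i, i < k → M.fc ((M.σ ^ i) e) ∈ Y) ∧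
      Zmin M X (M.fc ((M.σ ^ k) e)) ∧ M.lmax ((M.σ ^ k) e) ∧ M.fc ((M.σ ^ (k + 1)) e) ∉ X := by
  obtain ⟨j, k, hj, hjk, hY, hZ, ho, hk, hnZ, hnY, hzm, hlo, hper⟩ := locU hG hc.mn he heX
  have hUC : M.UpC X := hc.mn.gu.1.up
  -- `Y` is the component of `fc e`
  have heY : M.fc e ∈ Y := hc.sm e he heX
  have hYe : Y = Yc M X (M.fc e) := by
    rcases hc.nd with h1 | ⟨y, hy, h1⟩
    · exact absurd h1 hc.ny
    · rw [h1] at heY ⊢
      exact (yc_eq hy heY).symm
  have hYX : ∀ z, z ∈ Y → z ∈ X := by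
    intro z hz
    rcases hc.nd with h1 | ⟨y, hy, h1⟩
    · exact absurd h1 hc.ny
    · rw [h1] at hz
      exact (yc_sub hy hz).1
  have hYlo : ∀ z, z ∈ Y → z ∈ Lo M X := by
    intro z hz
    rcases hc.nd with h1 | ⟨y, hy, h1⟩
    · exact absurd h1 hc.ny
    · rw [h1] at hz
      exact yc_sub hy hz
  have hAtY : M.At Y g := ⟨e, hv, heY⟩
  -- the corner `k + 1` is in `P`
  have hP : M.fc ((M.σ ^ (k + 1)) e) ∉ X := by
    intro hX
    have hL : M.fc ((M.σ ^ (k + 1)) e) ∈ Lo M X := by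
      rcases lo_or_zo (M := M) hX with h1 | h1
      · exact h1
      · exact absurd h1 hnZ
    have hN : Node M X (Yc M X (M.fc ((M.σ ^ (k + 1)) e))) := Or.inr ⟨_, hL, rfl⟩
    have hAt : M.At (Yc M X (M.fc ((M.σ ^ (k + 1)) e))) g := by
      refine ⟨(M.σ ^ (k + 1)) e, ?_, yc_self⟩
      rw [M.vt_pow, hv]
    have hne : Yc M X (M.fc ((M.σ ^ (k + 1)) e)) ≠ Y := by
      intro h1
      apply hnY
      rw [← hYe, ← h1]
      exact yc_self
    rcases hc.on _ _ g hN hc.nd hne hAt hAtY with h1 | h1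
    · exact hne h1
    · have h2 : M.fc ((M.σ ^ (k + 1)) e) ∈ Yc M X (M.fc ((M.σ ^ (k + 1)) e)) := yc_self
      rw [h1] at h2
      exact h2 hX
  -- `j = k`
  have hjk' : j = k := by
    by_contra hne
    have hlt : j < k := lt_of_le_of_ne hjk hne
    obtain ⟨d0, hd0, hd0P⟩ := r2P hG hc.mn he heX hj hlt hY hZ ho hk hP hzm hper
    obtain ⟨⟨d1, hd1v, hd1⟩, hq⟩ := q_at hG hc.mn he heX hj hlt hY ho hzm
    -- the lower neighbour
    have hup : M.up (M.fc ((M.σ ^ (j - 1)) e)) (M.fc ((M.σ ^ j) e)) := by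
      have h1 := M.up_out (ho j hj hjk)
      have h2 : M.σ⁻¹ ((M.σ ^ j) e) = (M.σ ^ (j - 1)) e := by
        obtain ⟨i, rfl⟩ : ∃ i, j = i + 1 := ⟨j - 1, by omega⟩
        rw [pow_succ', Equiv.Perm.mul_apply, perm_ia, Nat.add_sub_cancel]
      rwa [h2] at h1
    have hne' : M.fc ((M.σ ^ (j - 1)) e) ≠ M.fc ((M.σ ^ j) e) := by
      intro h1
      have h2 : M.fc ((M.σ ^ (j - 1)) e) ∈ Lo M X := by
        apply hYlo
        rw [hYe]
        exact hY (j - 1) (by omega)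
      rw [h1] at h2
      exact lo_not_zo h2 (hZ j le_rfl hjk)
    have hphi : M.fc ((M.σ ^ (j - 1)) e) ∉ Phi M.rev (M.fc ((M.σ ^ j) e)) :=
      phi_below (M.up_le hup) hne'
    have hd1Y : inn M (DP M (M.fc ((M.σ ^ j) e)) (M.fc ((M.σ ^ (j - 1)) e))) d1 ∈ Y := by
      rw [hYe]
      exact hq d1 hd1v hd1
    have hd0Y : inn M (DP M (M.fc ((M.σ ^ j) e)) (M.fc ((M.σ ^ (j - 1)) e))) d0 ∉ Y :=
      fun h1 => hd0P (hYX _ h1)
    -- the vertex `h`
    obtain ⟨N', d2, e2, hN', hN'Y, hv2, hv2g, hd2, he2, hd2Y, he2N, hb1, hb2⟩ :=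
      two_nodes hG hc.mn hzm hphi hc.nd hd1 hd0 hd1Y hd0Y g
    -- the vertex `g`
    obtain ⟨N2, d3, e3, hN2, hN2Y, hv3, hv3h, hd3, he3, hd3Y, he3N, hb3, hb4⟩ :=
      two_nodes hG hc.mn hzm hphi hc.nd hd1 hd0 hd1Y hd0Y h
    have hat : ∀ (N : Set F) (v : V), v ∈ M.bd N → M.At N v := by
      intro N v hv
      exact (Finset.mem_filter.1 hv).2.1
    have hN2P : N2 = Xᶜ := by
      rcases hc.on N2 Y _ hN2 hc.nd hN2Y (hat _ _ hb4) (hat _ _ hb3) with h1 | h1
      · exact absurd h1 hN2Y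
      · exact h1
    have hv3g : M.vt d3 = g := by
      rw [hN2P] at hb4
      rcases hc.only _ (hat _ _ hb3) (hat _ _ hb4) with h1 | h1
      · exact h1
      · exact absurd h1 hv3h
    have h5 : inn M (DP M (M.fc ((M.σ ^ j) e)) (M.fc ((M.σ ^ (j - 1)) e))) e3 ∈ Y := by
      rw [hYe]
      exact hq e3 (by rw [← hv3, hv3g, hv]) he3
    rw [hN2P] at he3N
    exact he3N (hYX _ h5)
  subst hjk'
  refine ⟨j, hj, fun i hi => ?_, hzm, ⟨ho j hj le_rfl, ?_⟩, hP⟩
  · rw [hYe]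
    exact hY i hi
  · rw [← Equiv.Perm.mul_apply, ← pow_succ']
    exact hk

end Pool.Agent.Lib.PLQ
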