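import Mathlib
import Pool.Agent.Lib.PLQ.FourB

set_option autoImplicit false
set_option linter.unusedSectionVars false
set_option linter.unusedVariables false

/-! Module FourC: around `g` the corners are: the run of `Y`, one corner of a minimal face of `Zo` (a local maximum), the run of `P`, one more such corner (`Four` in Defs). -/

namespace Pool.Agent.Lib.PLQ

open Finset Pool.Agent.Lib.NK
open scoped Classical

variable {V D F : Type} [Fintype V] [Fintype D] [Fintype F] {M : PM V D F} {X Y : Set F}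

namespace FourCAux

theorem pow_inv_pow {a b : ℕ} (h : a ≤ b) (f : Equiv.Perm D) (e : D) :
    (f ^ a) ((f⁻¹ ^ b) e) = (f⁻¹ ^ (b - a)) e := by
  obtain ⟨c, rfl⟩ := Nat.exists_eq_add_of_le h
  rw [Nat.add_sub_cancel_left, pow_add, Equiv.Perm.mul_apply, inv_pow, perm_ai]

theorem inv_pow_comm (m : ℕ) (f : Equiv.Perm D) (e : D) : (f⁻¹ ^ m) (f e) = f ((f⁻¹ ^ m) e) := by
  have h : Commute (f⁻¹ ^ m) f := (Commute.refl f).inv_left.pow_left m
  have h2 := h.eq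
  rw [← Equiv.Perm.mul_apply, h2, Equiv.Perm.mul_apply]

theorem mir_zo : Zo M.mir X = Zo M X := by
  ext z
  unfold Zo
  constructor
  · rintro ⟨h1, p, hp, hle⟩
    exact ⟨h1, p, hp, M.mir_le.1 hle⟩
  · rintro ⟨h1, p, hp, hle⟩
    exact ⟨h1, p, hp, M.mir_le.2 hle⟩

theorem mir_zmin {z : F} (h : Zmin M.mir X z) : Zmin M X z := by
  obtain ⟨h1, h2⟩ := h
  rw [mir_zo] at h1
  refine ⟨h1, fun w hw hle => h2 w ?_ (M.mir_le.2 hle)⟩
  rw [mir_zo]
  exact hw

theorem node_lo {Y : Set F} (hY : Node M X Y) (hne : Y ≠ Xᶜ) {z : F} (hz : z ∈ Y) : z ∈ X := by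
  rcases hY with rfl | ⟨y, hy, rfl⟩
  · exact absurd rfl hne
  · exact (yc_sub hy hz).1

/-- the side in the other direction -/
theorem side' (hG : Good M) {g h : V} (hc : C2 M X Y g h) {e : D} (he : SMin M e)
    (heX : M.fc e ∈ X) (hv : M.vt e = g) :
    ∃ m : ℕ, 0 < m ∧ (∀ i, i < m → M.fc ((M.σ⁻¹ ^ i) e) ∈ Y) ∧
      Zmin M X (M.fc ((M.σ⁻¹ ^ m) e)) ∧ M.lmax ((M.σ⁻¹ ^ m) e) ∧
      M.fc ((M.σ⁻¹ ^ (m + 1)) e) ∉ X := by
  have he' : SMin M.mir (M.σ e) := by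
    refine ⟨M.mir_lmin.2 he.1, ?_⟩
    have h1 : M.mir.vt (M.σ e) = M.vt e := M.vt_sig e
    rw [h1, M.mir_sad]
    exact he.2
  have hfc : ∀ i : ℕ, M.mir.fc ((M.mir.σ ^ i) (M.σ e)) = M.fc ((M.σ⁻¹ ^ i) e) := by
    intro i
    change M.fc (M.σ⁻¹ ((M.σ⁻¹ ^ i) (M.σ e))) = _
    rw [inv_pow_comm, perm_ia]
  have heX' : M.mir.fc (M.σ e) ∈ X := by
    change M.fc (M.σ⁻¹ (M.σ e)) ∈ X
    rw [perm_ia]
    exact heX
  obtain ⟨m, hm0, h1, h2, h3, h4⟩ := four_side hG.mir (hc.mir hG) he' heX'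
    ((M.vt_sig e).trans hv)
  refine ⟨m, hm0, ?_, ?_, ?_, ?_⟩
  · intro i hi
    rw [← hfc]
    exact h1 i hi
  · rw [hfc] at h2
    exact mir_zmin h2
  · have h5 : (M.mir.σ ^ m) (M.σ e) = M.σ ((M.σ⁻¹ ^ m) e) := inv_pow_comm m M.σ e
    rw [h5, M.mir_lmax] at h3
    exact h3
  · rw [hfc] at h4
    exact h4

end FourCAux

open FourCAux in
/-- Proof: there is a saddle-minimum `e` of `Y` at `g` (`node_touch`).  `four_side` for `M` and for
`M.mir` gives the two sides (in `M.mir` the corner `e` is called `σ e`).  The runs of `Y` and of `P`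
at `g` are unique (`enter_unique`, `leave_unique`), so these corners are all corners at `g`. -/
theorem exists_four (hG : Good M) {g h : V} (hc : C2 M X Y g h) :
    ∃ p k l, Four M X Y g p k l := by
  have hX : M.UDisc X := hc.mn.gu.1
  obtain ⟨e, he, hev, heY⟩ := node_touch hG hc.mn hc.nd (Or.inl rfl) hc.ny hc.tg.1 hc.tg.2
  have heX : M.fc e ∈ X := node_lo hc.nd hc.ny heY
  obtain ⟨k, hk0, a1, a2, a3, a4⟩ := four_side hG hc he heX hev
  obtain ⟨m, hm0, b1, b2, b3, b4⟩ := side' hG hc he heX hev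
  obtain ⟨p, hp⟩ : ∃ p, p = (M.σ⁻¹ ^ (m - 1)) e := ⟨_, rfl⟩
  -- the corners counted from `p`
  have hpe : (M.σ ^ (m - 1)) p = e := by
    rw [hp, pow_inv_pow le_rfl, Nat.sub_self, pow_zero, Equiv.Perm.one_apply]
  have hpv : M.vt p = g := by
    rw [← M.vt_pow p (m - 1), hpe]
    exact hev
  have hadd : ∀ i, (M.σ ^ (m - 1 + i)) p = (M.σ ^ i) e := by
    intro i
    rw [add_comm, pow_add, Equiv.Perm.mul_apply, hpe]
  have hlow : ∀ i, i ≤ m - 1 → (M.σ ^ i) p = (M.σ⁻¹ ^ (m - 1 - i)) e := by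
    intro i hi
    rw [hp, pow_inv_pow hi]
  have hp1 : M.σ⁻¹ p = (M.σ⁻¹ ^ m) e := by
    have h1 : m = m - 1 + 1 := by omega
    rw [hp]
    conv_rhs => rw [h1, pow_succ', Equiv.Perm.mul_apply]
  have hp2 : M.σ⁻¹ ((M.σ⁻¹ ^ m) e) = (M.σ⁻¹ ^ (m + 1)) e := by
    rw [pow_succ', Equiv.Perm.mul_apply]
  -- the period
  have hperx : ∃ n : ℕ, 0 < n ∧ (M.σ ^ n) p = p := by
    refine ⟨orderOf M.σ, orderOf_pos M.σ, ?_⟩
    rw [pow_orderOf_eq_one, Equiv.Perm.one_apply]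
  have hn := Nat.find_spec hperx
  have hnmin : ∀ i, i < Nat.find hperx → ¬ (0 < i ∧ (M.σ ^ i) p = p) :=
    fun i hi => Nat.find_min hperx hi
  set n := Nat.find hperx
  obtain ⟨hn0, hnp⟩ := hn
  have hper : ∀ i, 0 < i → i < n → (M.σ ^ i) p ≠ p := fun i h0 hi h => hnmin i hi ⟨h0, h⟩
  have hlast : (M.σ ^ (n - 1)) p = M.σ⁻¹ p := by
    have e1 : n = (n - 1) + 1 := by omega
    have h := hnp
    rw [e1, pow_succ', Equiv.Perm.mul_apply] at h
    have h' := congrArg (fun x => M.σ⁻¹ x) h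
    simp only [perm_ia] at h'
    exact h'
  have hstep : ∀ i, 0 < i → M.σ⁻¹ ((M.σ ^ i) p) = (M.σ ^ (i - 1)) p := by
    intro i hi
    have e1 : i = (i - 1) + 1 := by omega
    conv_lhs => rw [e1, pow_succ', Equiv.Perm.mul_apply, perm_ia]
  -- the faces
  have fY : ∀ i, i < m - 1 + k → M.fc ((M.σ ^ i) p) ∈ Y := by
    intro i hi
    by_cases h1 : i ≤ m - 1
    · rw [hlow i h1]
      exact b1 _ (by omega)
    · obtain ⟨t, rfl⟩ : ∃ t, i = m - 1 + t := ⟨i - (m - 1), by omega⟩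
      rw [hadd]
      exact a1 t (by omega)
  have fYX : ∀ {z}, z ∈ Y → z ∈ X := fun hz => node_lo hc.nd hc.ny hz
  have fK : (M.σ ^ (m - 1 + k)) p = (M.σ ^ k) e := hadd k
  have fKX : M.fc ((M.σ ^ (m - 1 + k)) p) ∈ X := by
    rw [fK]
    exact a2.1.1
  have fK1 : M.fc ((M.σ ^ (m - 1 + k + 1)) p) ∉ X := by
    rw [add_assoc, hadd]
    exact a4
  have fn1 : (M.σ ^ (n - 1)) p = (M.σ⁻¹ ^ m) e := hlast.trans hp1
  have hn1 : M.fc ((M.σ ^ (n - 1)) p) ∈ Zo M X := by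
    rw [fn1]
    exact b2.1
  have hn1Y : M.fc ((M.σ ^ (n - 1)) p) ∉ Y := fun h => node_notz hc.nd h hn1
  have hn2 : 2 ≤ n := by
    by_contra hlt
    have h1 : n = 1 := by omega
    have h2 : n - 1 = 0 := by omega
    rw [h2] at hn1Y
    exact hn1Y (fY 0 (by omega))
  have fn2 : (M.σ ^ (n - 2)) p = (M.σ⁻¹ ^ (m + 1)) e := by
    rw [← hp2, ← fn1, hstep (n - 1) (by omega)]
    rfl
  have hn2X : M.fc ((M.σ ^ (n - 2)) p) ∉ X := by
    rw [fn2]
    exact b4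
  have c1 : m - 1 + k < n - 1 := by
    by_contra hlt
    rcases Nat.lt_or_ge (n - 1) (m - 1 + k) with h1 | h1
    · exact hn1Y (fY _ h1)
    · exact hn2X (fYX (fY _ (by omega)))
  have c2 : m - 1 + k < n - 2 := by
    rcases Nat.lt_or_ge (m - 1 + k) (n - 2) with h1 | h1
    · exact h1
    · exfalso
      have h2 : m - 1 + k = n - 2 := by omega
      rw [← h2] at hn2X
      exact hn2X fKX
  obtain ⟨l, hl⟩ : ∃ l, l = n - 2 - (m - 1 + k) := ⟨_, rfl⟩
  have hsum : m - 1 + k + l + 2 = n := by omega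
  have hsum1 : m - 1 + k + 1 + l = n - 1 := by omega
  have hP : ∀ i, i < l → M.fc ((M.σ ^ (m - 1 + k + 1 + i)) p) ∉ X := by
    intro i
    induction i with
    | zero => intro _; exact fK1
    | succ i ih =>
      intro hi hX1
      have h1 := ih (by omega)
      have e1 : M.σ⁻¹ ((M.σ ^ (m - 1 + k + 1 + (i + 1))) p) = (M.σ ^ (m - 1 + k + 1 + i)) p := by
        rw [hstep _ (by omega)]
        rfl
      have e2 : M.σ⁻¹ ((M.σ ^ (n - 1)) p) = (M.σ ^ (n - 2)) p := by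
        rw [hstep _ (by omega)]
        rfl
      have h2 := enter_unique hX.disc.cn hX.disc.cc
        (d := (M.σ ^ (m - 1 + k + 1 + (i + 1))) p) (e := (M.σ ^ (n - 1)) p)
        (by rw [M.vt_pow, M.vt_pow]) hX1 (by rw [e1]; exact h1) hn1.1 (by rw [e2]; exact hn2X)
      obtain ⟨a, ha⟩ : ∃ a, a = m - 1 + k + 1 + (i + 1) := ⟨_, rfl⟩
      rw [← ha] at h2
      obtain ⟨b, hb⟩ : ∃ b, b = n - 1 - a := ⟨_, rfl⟩
      have h3 : n - 1 = a + b := by omega
      rw [h3, pow_add, Equiv.Perm.mul_apply] at h2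
      have h4 := (M.σ ^ a).injective h2
      exact hper _ (by omega) (by omega) h4.symm
  refine ⟨p, m - 1 + k, l, ⟨by omega, by omega, hpv, by rw [hsum]; exact hnp, ?_, ?_, fY, hP,
    ?_, ?_, ?_, ?_⟩⟩
  · rw [hsum]
    exact hper
  · intro d hdv
    rw [hsum]
    have hpd : ∃ j : ℕ, (M.σ ^ j) p = d := ((M.vs p d).1 (hpv.trans hdv.symm)).exists_nat_pow_eq
    have h1 := Nat.find_spec hpd
    have h2 : ∀ i, i < Nat.find hpd → ¬ (M.σ ^ i) p = d := fun i hi => Nat.find_min hpd hi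
    set j := Nat.find hpd
    refine ⟨j, ?_, h1.symm⟩
    by_contra hlt
    have e1 : j = (j - n) + n := by omega
    have h3 := h1
    rw [e1, pow_add, Equiv.Perm.mul_apply, hnp] at h3
    exact h2 (j - n) (by omega) h3
  · rw [fK]
    exact a3
  · rw [fK]
    exact a2
  · rw [hsum1, fn1]
    exact b3
  · rw [hsum1, fn1]
    exact b2

end Pool.Agent.Lib.PLQ
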