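import Mathlib
import Pool.Agent.Lib.PLQ.Basic

set_option autoImplicit false
set_option linter.unusedSectionVars false
set_option linter.unusedVariables false

/-! Module SepA (`Triv`, `AltDigon` in Defs). -/

namespace Pool.Agent.Lib.PLQ

open Finset Pool.Agent.Lib.NK
open scoped Classical

variable {V D F : Type} [Fintype V] [Fintype D] [Fintype F] {M : PM V D F}

namespace SepAAux

theorem one {a b k : D} (hk : k = M.σ a) (hb : b = M.σ k) (hab : a ≠ b)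
    (hm : (M.lmin a ∧ M.lmin b) ∨ (M.lmax a ∧ M.lmax b)) :
    M.σ (M.σ k) ≠ k ∧ M.out (M.σ⁻¹ k) ≠ M.out k ∧ M.out k ≠ M.out (M.σ k) ∧
      M.out (M.σ k) ≠ M.out (M.σ (M.σ k)) := by
  subst hk
  subst hb
  rw [perm_ia]
  refine ⟨fun h => hab (M.σ.injective h.symm), ?_⟩
  rcases hm with ⟨⟨h1, h2⟩, h3, h4⟩ | ⟨⟨h1, h2⟩, h3, h4⟩
  · rw [h1, h2, h3, h4]
    decide
  · rw [h1, h2, h3, h4]
    decide

theorem two {a b k : D} (h : (k = M.σ a ∧ b = M.σ k) ∨ (k = M.σ b ∧ a = M.σ k)) (hab : a ≠ b)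
    (hm : (M.lmin a ∧ M.lmin b) ∨ (M.lmax a ∧ M.lmax b)) :
    M.σ (M.σ k) ≠ k ∧ M.out (M.σ⁻¹ k) ≠ M.out k ∧ M.out k ≠ M.out (M.σ k) ∧
      M.out (M.σ k) ≠ M.out (M.σ (M.σ k)) := by
  rcases h with ⟨h1, h2⟩ | ⟨h1, h2⟩
  · exact one h1 h2 hab hm
  · refine one h1 h2 hab.symm ?_
    rcases hm with ⟨h3, h4⟩ | ⟨h3, h4⟩
    · exact Or.inl ⟨h4, h3⟩
    · exact Or.inr ⟨h4, h3⟩

end SepAAux

theorem triv_alt {a b k a' b' k1 : D} (h : Triv M a b k a' b' k1) (hab : a ≠ b) (hab' : a' ≠ b')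
    (hm : (M.lmin a ∧ M.lmin b ∧ M.lmin a' ∧ M.lmin b') ∨
      (M.lmax a ∧ M.lmax b ∧ M.lmax a' ∧ M.lmax b')) : AltDigon M k := by
  obtain ⟨h1, h2, h3, h4⟩ := h
  obtain ⟨p1, p2, p3, p4⟩ := SepAAux.two (M := M) h1 hab (by
    rcases hm with ⟨x1, x2, x3, x4⟩ | ⟨x1, x2, x3, x4⟩
    · exact Or.inl ⟨x1, x2⟩
    · exact Or.inr ⟨x1, x2⟩)
  obtain ⟨q1, q2, q3, q4⟩ := SepAAux.two (M := M) h2 hab' (by
    rcases hm with ⟨x1, x2, x3, x4⟩ | ⟨x1, x2, x3, x4⟩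
    · exact Or.inl ⟨x3, x4⟩
    · exact Or.inr ⟨x3, x4⟩)
  rw [h4] at q1 q3 q4
  rw [h3] at q1 q2 q3
  refine ⟨?_, ?_, p1, q1, p2, p3, p4, q2, q3, q4⟩
  · rw [← h3, ← h4, M.vt_sig]
  · rw [← h3, h4]

end Pool.Agent.Lib.PLQ
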