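import Mathlib
import Pool.Agent.Lib.PLQ.KapB
import Pool.Agent.Lib.PLQ.OrdC

set_option autoImplicit false
set_option linter.unusedSectionVars false
set_option linter.unusedVariables false

/-! Module SepK. -/

namespace Pool.Agent.Lib.PLQ

open Finset Pool.Agent.Lib.NK
open scoped Classical

variable {V D F : Type} [Fintype V] [Fintype D] [Fintype F] {M : PM V D F}

namespace SepKAux

theorem run {σ : Equiv.Perm D} {κ : D → ZMod 2} (n : ℕ) (d : D)
    (h : ∀ m, m < n → κ (σ ((σ ^ m) d)) = κ ((σ ^ m) d)) : κ ((σ ^ n) d) = κ d := by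
  induction n with
  | zero => rfl
  | succ n ih =>
    rw [pow_succ', Equiv.Perm.mul_apply, h n (Nat.lt_succ_self n)]
    exact ih fun m hm => h m (Nat.lt_succ_of_lt hm)

theorem cancel {σ : Equiv.Perm D} {d : D} {m n : ℕ} (h : m ≤ n) (he : (σ ^ m) d = (σ ^ n) d) :
    (σ ^ (n - m)) d = d := by
  have e : (σ ^ n) d = (σ ^ m) ((σ ^ (n - m)) d) := by
    rw [← Equiv.Perm.mul_apply, ← pow_add, Nat.add_sub_cancel' h]
  rw [e] at he
  exact ((σ ^ m).injective he).symm

theorem cyc_step {κ : D → ZMod 2} {a b k k' : D}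
    (hn : ∀ d, M.vt d = M.vt a → d ≠ a → d ≠ b → κ (M.σ d) = κ d)
    (hb : κ (M.σ b) = κ b + 1) (h : M.Cyc a k b) (h' : M.Cyc b k' a) : κ k' = κ k + 1 := by
  obtain ⟨i, j, hi, hij, hk, hjb, hm⟩ := h
  obtain ⟨i', j', hi', hij', hk', hja, hm'⟩ := h'
  have hvb : M.vt b = M.vt a := by
    rw [← hjb, M.vt_pow]
  have c1 : κ b = κ k := by
    have e0 : (M.σ ^ (j - i)) k = b := by
      rw [← hk, ← Equiv.Perm.mul_apply, ← pow_add, Nat.sub_add_cancel hij.le, hjb]
    rw [← e0]
    refine run (j - i) k fun m hmlt => ?_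
    have e1 : (M.σ ^ m) k = (M.σ ^ (m + i)) a := by
      rw [← hk, ← Equiv.Perm.mul_apply, ← pow_add]
    refine hn _ ?_ ?_ ?_
    · rw [e1, M.vt_pow]
    · rw [e1]
      exact hm (m + i) (by omega) (by omega)
    · rw [e1]
      intro he
      rw [← hjb] at he
      have h2 : m + i ≤ j := by omega
      have h1 := cancel h2 he
      exact hm (j - (m + i)) (by omega) (by omega) h1
  have c2 : κ k' = κ (M.σ b) := by
    have e0 : (M.σ ^ (i' - 1)) (M.σ b) = k' := by
      rw [← hk']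
      conv_rhs => rw [show i' = (i' - 1) + 1 by omega]
      rw [pow_succ, Equiv.Perm.mul_apply]
    rw [← e0]
    refine run (i' - 1) (M.σ b) fun m hmlt => ?_
    have e1 : (M.σ ^ m) (M.σ b) = (M.σ ^ (m + 1)) b := by
      rw [pow_succ, Equiv.Perm.mul_apply]
    refine hn _ ?_ ?_ ?_
    · rw [e1, M.vt_pow, hvb]
    · rw [e1]
      intro he
      rw [← hja] at he
      have h2 : m + 1 ≤ j' := by omega
      have h1 := cancel h2 he
      exact hm' (j' - (m + 1)) (by omega) (by omega) h1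
    · rw [e1]
      exact hm' (m + 1) (by omega) (by omega)
  rw [c2, hb, c1]

theorem cnt_one (d x : D) : cnt M d 1 x = if d = x then 1 else 0 := by
  unfold cnt
  have : (∃ i, i < 1 ∧ (M.σ ^ i) d = x) ↔ d = x := by
    constructor
    · rintro ⟨i, hi, h⟩
      have : i = 0 := by omega
      subst this
      exact h
    · intro h
      exact ⟨0, Nat.one_pos, h⟩
  simp only [this]

theorem conn_one (x : F) : M.Conn {x} := by
  intro y hy z hz
  rw [Set.mem_singleton_iff] at hy hz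
  rw [hy, hz]

end SepKAux

open SepKAux in
/-- the colouring of the arcs by the closed curve through the faces `fc a = fc a'`, `fc b = fc b'` and
the vertices `g`, `h` (`kap2` with `A = {fc a}`, `P = {fc b}`; all darts are free by `fc_sig_ne`, use
`k = 1`; for the last two clauses `mono`; `K`, `K'` have different colours because they are separated
at `g`) -/
theorem sep_kappa (hG : Good M) {a b a' b' k k' : D} {g h : V} {K K' : Set F} (hgh : g ≠ h)
    (ha : M.vt a = g) (hb : M.vt b = g) (ha' : M.vt a' = h) (hb' : M.vt b' = h)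
    (haa : M.fc a = M.fc a') (hbb : M.fc b = M.fc b') (hab : M.fc a ≠ M.fc b)
    (hK : M.Conn K) (hK' : M.Conn K')
    (h1 : M.fc a ∉ K) (h2 : M.fc b ∉ K) (h3 : M.fc a ∉ K') (h4 : M.fc b ∉ K')
    (hk : M.vt k = g) (hkK : M.fc k ∈ K) (hk' : M.vt k' = g) (hkK' : M.fc k' ∈ K')
    (hcyc : (M.Cyc a k b ∧ M.Cyc b k' a) ∨ (M.Cyc b k a ∧ M.Cyc a k' b)) :
    ∃ κ : D → ZMod 2, (∀ d, κ (M.τ d) = κ d) ∧
      (∀ d, κ (M.σ d) = κ d ↔ d ≠ a ∧ d ≠ b ∧ d ≠ a' ∧ d ≠ b') ∧
      (∀ d, M.fc d ∈ K → κ d = κ k) ∧ (∀ d, M.fc d ∈ K' → κ d = κ k') ∧ κ k' = κ k + 1 := by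
  obtain ⟨κ, q1, q2, q3⟩ := kap2 (M := M) (A := {M.fc a}) (P := {M.fc b}) (conn_one _) (conn_one _)
    (by
      rw [Set.disjoint_singleton]
      exact hab) (a := a) (a' := a') (p := b) (p' := b') rfl (by
      rw [Set.mem_singleton_iff]
      exact haa.symm) rfl (by
      rw [Set.mem_singleton_iff]
      exact hbb.symm) (by rw [ha, hb]) (by rw [ha', hb'])
  have hfr : ∀ (x : F) (d : D), Fr M {x} d := by
    rintro x d ⟨p1, p2⟩
    rw [Set.mem_singleton_iff] at p1 p2
    have := fc_sig_ne hG (M.σ⁻¹ d)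
    rw [perm_ai, p1, p2] at this
    exact this rfl
  have hst : ∀ d, κ (M.σ d) = κ d + ((if d = a then 1 else 0) + (if d = a' then 1 else 0) +
      (if d = b then 1 else 0) + (if d = b' then 1 else 0)) := by
    intro d
    have h5 := q3 d 1 (fun i hi hi' => by omega) (hfr _ _) (hfr _ _) (hfr _ _) (hfr _ _)
    rw [cnt_one, cnt_one, cnt_one, cnt_one, pow_one] at h5
    exact h5
  have n1 : a ≠ b := fun e => hab (by rw [e])
  have n2 : a ≠ a' := fun e => hgh (by rw [← ha, ← ha', e])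
  have n3 : a ≠ b' := fun e => hgh (by rw [← ha, ← hb', e])
  have n4 : b ≠ a' := fun e => hgh (by rw [← hb, ← ha', e])
  have n5 : b ≠ b' := fun e => hgh (by rw [← hb, ← hb', e])
  have n6 : a' ≠ b' := fun e => hab (by rw [haa, hbb, e])
  have hone : ∀ z : ZMod 2, z + 1 ≠ z := by decide
  have sa : κ (M.σ a) = κ a + 1 := by
    rw [hst a]
    simp [n1, n2, n3]
  have sb : κ (M.σ b) = κ b + 1 := by
    rw [hst b]
    simp [n1.symm, n4, n5]
  have sa' : κ (M.σ a') = κ a' + 1 := by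
    rw [hst a']
    simp [n2.symm, n4.symm, n6]
  have sb' : κ (M.σ b') = κ b' + 1 := by
    rw [hst b']
    simp [n3.symm, n5.symm, n6.symm]
  have sn : ∀ d, d ≠ a → d ≠ b → d ≠ a' → d ≠ b' → κ (M.σ d) = κ d := by
    intro d m1 m2 m3 m4
    rw [hst d]
    simp [m1, m2, m3, m4]
  refine ⟨κ, q1, ?_, ?_, ?_, ?_⟩
  · intro d
    constructor
    · intro hd
      refine ⟨?_, ?_, ?_, ?_⟩
      · rintro rfl
        rw [sa] at hd
        exact hone _ hd
      · rintro rfl
        rw [sb] at hd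
        exact hone _ hd
      · rintro rfl
        rw [sa'] at hd
        exact hone _ hd
      · rintro rfl
        rw [sb'] at hd
        exact hone _ hd
    · rintro ⟨m1, m2, m3, m4⟩
      exact sn d m1 m2 m3 m4
  · intro d hd
    refine mono hK q1 (fun e he => q2 e ?_ ?_) hd hkK
    · intro hh
      rw [Set.mem_singleton_iff] at hh
      exact h1 (hh ▸ he)
    · intro hh
      rw [Set.mem_singleton_iff] at hh
      exact h2 (hh ▸ he)
  · intro d hd
    refine mono hK' q1 (fun e he => q2 e ?_ ?_) hd hkK'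
    · intro hh
      rw [Set.mem_singleton_iff] at hh
      exact h3 (hh ▸ he)
    · intro hh
      rw [Set.mem_singleton_iff] at hh
      exact h4 (hh ▸ he)
  · have hg' : ∀ d, M.vt d = g → d ≠ a' ∧ d ≠ b' := by
      intro d hd
      constructor
      · rintro rfl
        exact hgh (by rw [← hd, ha'])
      · rintro rfl
        exact hgh (by rw [← hd, hb'])
    rcases hcyc with ⟨c1, c2⟩ | ⟨c1, c2⟩
    · refine cyc_step (fun d hd m1 m2 => ?_) sb c1 c2
      rw [ha] at hd
      exact sn d m1 m2 (hg' d hd).1 (hg' d hd).2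
    · refine cyc_step (fun d hd m1 m2 => ?_) sa c1 c2
      rw [hb] at hd
      exact sn d m2 m1 (hg' d hd).1 (hg' d hd).2

end Pool.Agent.Lib.PLQ
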