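import Mathlib
import Pool.Agent.Lib.PLQ.OrdC

set_option autoImplicit false
set_option linter.unusedSectionVars false
set_option linter.unusedVariables false

/-! Module SepT (`Triv` in Defs). -/

namespace Pool.Agent.Lib.PLQ

open Finset Pool.Agent.Lib.NK
open scoped Classical

variable {V D F : Type} [Fintype V] [Fintype D] [Fintype F] {M : PM V D F}

open OrdCAux in
/-- if all arcs of the colour of `k` join `g` and `h`, the side of `k` is trivial.  At `g` the darts of
the colour of `k` are those between the corners `a` and `b` on the side of `k` (`Two` changes of colour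
around `g`); there are at least two of them and (`np`) at most two, so they are `k`, `σ k`; at `h` the
darts of this colour are `τ k`, `τ (σ k)`, next to each other, with one corner `k1` between them;
`fc k1 ≠ fc a, fc b` by `cu`; if `k1 = τ k` then `fc k1 = fc (σ⁻¹ k)`, but `σ⁻¹ k` is `a` or `b`; so
`k1 = τ (σ k)`. -/
theorem triv_side (hG : Good M) {a b a' b' k : D} {g h : V} (hgh : g ≠ h)
    (ha : M.vt a = g) (hb : M.vt b = g) (ha' : M.vt a' = h) (hb' : M.vt b' = h)
    (haa : M.fc a = M.fc a') (hbb : M.fc b = M.fc b') (hab : M.fc a ≠ M.fc b)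
    (hk : M.vt k = g) (hka : k ≠ a) (hkb : k ≠ b) {κ : D → ZMod 2}
    (h1 : ∀ d, κ (M.τ d) = κ d)
    (h2 : ∀ d, κ (M.σ d) = κ d ↔ d ≠ a ∧ d ≠ b ∧ d ≠ a' ∧ d ≠ b')
    (h3 : ∀ d, κ d = κ k → (M.vt d = g ∧ M.vt (M.τ d) = h) ∨ (M.vt d = h ∧ M.vt (M.τ d) = g)) :
    ∃ k1, Triv M a b k a' b' k1 ∧
      ∀ x, M.vt x = h → κ x = κ k → κ (M.σ x) = κ k → x = k1 := by
  -- changes of colour at `g` and at `h`
  have cg : ∀ x, M.vt x = g → κ (M.σ x) ≠ κ x → x = a ∨ x = b := by
    intro x hx hne
    by_contra hcon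
    push Not at hcon
    refine hne ((h2 x).2 ⟨hcon.1, hcon.2, ?_, ?_⟩)
    · rintro rfl
      exact hgh (hx.symm.trans ha')
    · rintro rfl
      exact hgh (hx.symm.trans hb')
  have ch : ∀ x, M.vt x = h → κ (M.σ x) ≠ κ x → x = a' ∨ x = b' := by
    intro x hx hne
    by_contra hcon
    push Not at hcon
    refine hne ((h2 x).2 ⟨?_, ?_, hcon.1, hcon.2⟩)
    · rintro rfl
      exact hgh (ha.symm.trans hx)
    · rintro rfl
      exact hgh (hb.symm.trans hx)
  have S1 : ∀ x y, M.vt x = g → κ x = κ k → M.vt y = g → κ y = κ k → M.out x = M.out y →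
      x = y := by
    intro x y hx hx' hy hy' hxy
    have e1 : M.vt (M.τ x) = h := by
      rcases h3 x hx' with h | h
      · exact h.2
      · exact absurd (hx.symm.trans h.1) hgh
    have e2 : M.vt (M.τ y) = h := by
      rcases h3 y hy' with h | h
      · exact h.2
      · exact absurd (hy.symm.trans h.1) hgh
    cases hox : M.out x
    · have hoy : M.out y = false := by rw [← hxy, hox]
      have e3 := hG.np (M.τ x) (M.τ y) (by rw [M.ot, hox]; rfl) (by rw [M.ot, hoy]; rfl)
        (by rw [e1, e2]) (by rw [M.tt, M.tt, hx, hy])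
      exact M.τ.injective e3
    · have hoy : M.out y = true := by rw [← hxy, hox]
      exact hG.np x y hox hoy (by rw [hx, hy]) (by rw [e1, e2])
  have hsk : κ (M.σ k) = κ k := by
    by_contra hne
    rcases cg k hk hne with h | h
    · exact hka h
    · exact hkb h
  have hvs : M.vt (M.σ k) = g := by rw [M.vt_sig, hk]
  have hne : M.σ k ≠ k := by
    intro he
    have := rot_prop M (fun x => x = k) (fun x hx => by rw [hx, he]) (hk.trans ha.symm) rfl
    exact hka this.symm
  have hout : M.out (M.σ k) ≠ M.out k := fun he => hne (S1 _ _ hvs hsk hk rfl he)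
  have E1 : ∀ x, M.vt x = g → κ x = κ k → x = k ∨ x = M.σ k := by
    intro x hx hx'
    by_cases ho : M.out x = M.out k
    · exact Or.inl (S1 _ _ hx hx' hk rfl ho)
    · refine Or.inr (S1 _ _ hx hx' hvs hsk ?_)
      revert ho hout
      cases M.out x <;> cases M.out k <;> cases M.out (M.σ k) <;> simp
  have E2 : M.σ (M.σ k) ≠ k := by
    intro he
    have e1 := rot_prop M (fun x => x = k ∨ x = M.σ k) (fun x hx => by
      rcases hx with rfl | rfl
      · exact Or.inr rfl
      · exact Or.inl he) (hk.trans ha.symm) (Or.inl rfl)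
    have e2 := rot_prop M (fun x => x = k ∨ x = M.σ k) (fun x hx => by
      rcases hx with rfl | rfl
      · exact Or.inr rfl
      · exact Or.inl he) (hk.trans hb.symm) (Or.inl rfl)
    have e3 : a = M.σ k := by
      rcases e1 with h | h
      · exact absurd h.symm hka
      · exact h
    have e4 : b = M.σ k := by
      rcases e2 with h | h
      · exact absurd h.symm hkb
      · exact h
    exact hab (by rw [e3, e4])
  have E3 : M.σ k = a ∨ M.σ k = b := by
    refine cg _ hvs ?_
    intro he
    rcases E1 (M.σ (M.σ k)) (by rw [M.vt_sig, hvs]) (he.trans hsk) with h | h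
    · exact E2 h
    · exact hne (M.σ.injective h)
  have E4 : M.σ⁻¹ k = a ∨ M.σ⁻¹ k = b := by
    refine cg _ (by rw [M.vt_inv, hk]) ?_
    intro he
    rw [perm_ai] at he
    rcases E1 (M.σ⁻¹ k) (by rw [M.vt_inv, hk]) he.symm with h | h
    · have := congrArg M.σ h
      rw [perm_ai] at this
      exact hne this.symm
    · have := congrArg M.σ h
      rw [perm_ai] at this
      exact E2 this.symm
  have E4' : k = M.σ a ∨ k = M.σ b := by
    rcases E4 with h | h
    · left; rw [← h, perm_ai]
    · right; rw [← h, perm_ai]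
  have part1 : (k = M.σ a ∧ b = M.σ k) ∨ (k = M.σ b ∧ a = M.σ k) := by
    rcases E4' with h | h
    · rcases E3 with h' | h'
      · exact absurd (by rw [h', ← h]) E2
      · exact Or.inl ⟨h, h'.symm⟩
    · rcases E3 with h' | h'
      · exact Or.inr ⟨h, h'.symm⟩
      · exact absurd (by rw [h', ← h]) E2
  -- at `h`
  have E5 : ∀ x, M.vt x = h → κ x = κ k → x = M.τ k ∨ x = M.τ (M.σ k) := by
    intro x hx hx'
    have e1 : M.vt (M.τ x) = g := by
      rcases h3 x hx' with h | h
      · exact absurd (h.1.symm.trans hx) hgh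
      · exact h.2
    rcases E1 (M.τ x) e1 (by rw [h1, hx']) with h | h
    · left; rw [← h, M.tt]
    · right; rw [← h, M.tt]
  have v1 : M.vt (M.τ k) = h := by
    rcases h3 k rfl with h | h
    · exact h.2
    · exact absurd (hk.symm.trans h.1) hgh
  have v2 : M.vt (M.τ (M.σ k)) = h := by
    rcases h3 (M.σ k) hsk with h | h
    · exact h.2
    · exact absurd (hvs.symm.trans h.1) hgh
  have k1 : κ (M.τ k) = κ k := h1 k
  have k2 : κ (M.τ (M.σ k)) = κ k := by rw [h1, hsk]
  have n12 : M.τ k ≠ M.τ (M.σ k) := fun he => hne (M.τ.injective he).symm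
  have E7 : M.σ (M.τ (M.σ k)) ≠ M.τ (M.σ k) := by
    intro he
    have := rot_prop M (fun x => x = M.τ (M.σ k)) (fun x hx => by rw [hx, he])
      (v2.trans v1.symm) rfl
    exact n12 this
  have E7' : M.σ (M.τ k) ≠ M.τ k := by
    intro he
    have := rot_prop M (fun x => x = M.τ k) (fun x hx => by rw [hx, he])
      (v1.trans v2.symm) rfl
    exact n12 this.symm
  have E8 : κ (M.σ (M.τ k)) ≠ κ k := by
    intro he
    have f1 : M.fc (M.τ k) = M.fc (M.σ⁻¹ k) := M.fc_tau k
    have f2 : M.τ k = a' ∨ M.τ k = b' := by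
      rcases E4 with h | h
      · left
        exact cu hG (by rw [f1, h, haa]) (v1.trans ha'.symm)
      · right
        exact cu hG (by rw [f1, h, hbb]) (v1.trans hb'.symm)
    have f3 := (h2 (M.τ k)).1 (he.trans k1.symm)
    rcases f2 with h | h
    · exact f3.2.2.1 h
    · exact f3.2.2.2 h
  have C1 : M.τ k = a' ∨ M.τ k = b' := ch _ v1 (fun he => E8 (he.trans k1))
  have E6 : κ (M.σ (M.τ (M.σ k))) = κ k := by
    by_contra hcon
    have C2 : M.τ (M.σ k) = a' ∨ M.τ (M.σ k) = b' := ch _ v2 (fun he => hcon (he.trans k2))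
    have hP : ∀ x, (M.vt x = h ∧ κ x ≠ κ k) → (M.vt (M.σ x) = h ∧ κ (M.σ x) ≠ κ k) := by
      rintro x ⟨hx, hx'⟩
      refine ⟨by rw [M.vt_sig, hx], ?_⟩
      intro he
      have hx2 := ch x hx (fun h => hx' (h.symm.trans he))
      have : x = M.τ k ∨ x = M.τ (M.σ k) := by
        rcases C1 with c1 | c1 <;> rcases C2 with c2 | c2
        · exact absurd (c1.trans c2.symm) n12
        · rcases hx2 with h | h
          · left; rw [h, c1]
          · right; rw [h, c2]
        · rcases hx2 with h | h
          · right; rw [h, c2]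
          · left; rw [h, c1]
        · exact absurd (c1.trans c2.symm) n12
      rcases this with h | h
      · exact hx' (by rw [h, k1])
      · exact hx' (by rw [h, k2])
    have := rot_prop M (fun x => M.vt x = h ∧ κ x ≠ κ k) hP
      (d := M.σ (M.τ k)) (e := M.τ k) (M.vt_sig _) ⟨by rw [M.vt_sig, v1], E8⟩
    exact this.2 k1
  have E9 : M.σ (M.τ (M.σ k)) = M.τ k := by
    rcases E5 _ (by rw [M.vt_sig, v2]) E6 with h | h
    · exact h
    · exact absurd h E7
  have C3 : M.σ⁻¹ (M.τ (M.σ k)) = a' ∨ M.σ⁻¹ (M.τ (M.σ k)) = b' := by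
    refine ch _ (by rw [M.vt_inv, v2]) ?_
    intro he
    rw [perm_ai] at he
    rcases E5 _ (by rw [M.vt_inv, v2]) (he.symm.trans k2) with h | h
    · have := congrArg M.σ h
      rw [perm_ai] at this
      exact E8 (by rw [← this, k2])
    · have := congrArg M.σ h
      rw [perm_ai] at this
      exact E7 this.symm
  have C3' : M.τ (M.σ k) = M.σ a' ∨ M.τ (M.σ k) = M.σ b' := by
    rcases C3 with h | h
    · left; rw [← h, perm_ai]
    · right; rw [← h, perm_ai]
  refine ⟨M.τ (M.σ k), ⟨part1, ?_, rfl, E9⟩, ?_⟩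
  · rcases C3' with h | h
    · rcases C1 with h' | h'
      · exfalso
        rw [← h'] at h
        exact E8 (by rw [← h, k2])
      · exact Or.inl ⟨h, by rw [E9, h']⟩
    · rcases C1 with h' | h'
      · exact Or.inr ⟨h, by rw [E9, h']⟩
      · exfalso
        rw [← h'] at h
        exact E8 (by rw [← h, k2])
  · intro x hx hx1 hx2
    rcases E5 x hx hx1 with h | h
    · rw [h] at hx2
      exact absurd hx2 E8
    · exact h

end Pool.Agent.Lib.PLQ
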