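import Mathlib
import Pool.Agent.Lib.PLQ.SepK
import Pool.Agent.Lib.PLQ.SepT
import Pool.Agent.Lib.PLQ.DiscA

set_option autoImplicit false
set_option linter.unusedSectionVars false
set_option linter.unusedVariables false

/-! Module SepC: a closed curve through two faces and two vertices `g`, `h`. -/

namespace Pool.Agent.Lib.PLQ

open Finset Pool.Agent.Lib.NK
open scoped Classical

variable {V D F : Type} [Fintype V] [Fintype D] [Fintype F] {M : PM V D F}

namespace SepCAux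

/-- a colouring which only changes at `a, b, a', b'` is constant around the other vertices -/
theorem const {κ : D → ZMod 2} {a b a' b' : D} {g h : V}
    (ha : M.vt a = g) (hb : M.vt b = g) (ha' : M.vt a' = h) (hb' : M.vt b' = h)
    (h2 : ∀ d, κ (M.σ d) = κ d ↔ d ≠ a ∧ d ≠ b ∧ d ≠ a' ∧ d ≠ b') {d e : D}
    (hde : M.vt d = M.vt e) (hg : M.vt d ≠ g) (hh : M.vt d ≠ h) : κ e = κ d := by
  have := OrdCAux.rot_prop M (fun x => M.vt x = M.vt d ∧ κ x = κ d) (fun x hx => by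
    refine ⟨by rw [M.vt_sig, hx.1], ?_⟩
    rw [← hx.2]
    refine (h2 x).2 ⟨?_, ?_, ?_, ?_⟩
    · rintro rfl
      exact hg (hx.1.symm.trans ha)
    · rintro rfl
      exact hg (hx.1.symm.trans hb)
    · rintro rfl
      exact hh (hx.1.symm.trans ha')
    · rintro rfl
      exact hh (hx.1.symm.trans hb')) hde ⟨rfl, rfl⟩
  exact this.2

/-- the vertices `≠ g, h` of colour `c` -/
noncomputable def cl (M : PM V D F) (κ : D → ZMod 2) (g h : V) (c : ZMod 2) : Finset V :=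
  univ.filter (fun v => v ≠ g ∧ v ≠ h ∧ ∃ d, M.vt d = v ∧ κ d = c)

theorem mem_cl {κ : D → ZMod 2} {g h : V} {c : ZMod 2} {v : V} :
    v ∈ cl M κ g h c ↔ v ≠ g ∧ v ≠ h ∧ ∃ d, M.vt d = v ∧ κ d = c := by
  unfold cl
  rw [mem_filter]
  simp only [mem_univ, true_and]

/-- the link around a disc of colour `c` -/
theorem lnk (hG : Good M) {κ : D → ZMod 2} {g h : V} (hgh : g ≠ h) {a a' k : D} {K : Set F}
    (ha : M.vt a = g) (ha' : M.vt a' = h) (haa : M.fc a = M.fc a')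
    (hK : M.UDisc K ∨ M.DDisc K) (h1 : M.fc a ∉ K) (hk : M.vt k = g) (hkK : M.fc k ∈ K)
    (hKh : M.At K h) (q : ∀ d, M.fc d ∈ K → κ d = κ k) :
    Link M.R (insert g (insert h (cl M κ g h (κ k)))) g h := by
  have hc := disc_circ hG hK
  have hg : g ∈ M.bd K := by
    unfold PM.bd
    rw [mem_filter]
    exact ⟨mem_univ _, ⟨k, hk, hkK⟩, ⟨a, ha, h1⟩⟩
  have hh : h ∈ M.bd K := by
    unfold PM.bd
    rw [mem_filter]
    exact ⟨mem_univ _, hKh, ⟨a', ha', fun hm => h1 (by rw [haa]; exact hm)⟩⟩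
  refine (hc g hg h hh hgh).mono ?_
  intro v hv
  unfold PM.bd at hv
  rw [mem_filter] at hv
  obtain ⟨-, ⟨d, hd, hd'⟩, -⟩ := hv
  rw [mem_insert, mem_insert]
  by_cases e1 : v = g
  · exact Or.inl e1
  by_cases e2 : v = h
  · exact Or.inr (Or.inl e2)
  exact Or.inr (Or.inr (mem_cl.2 ⟨e1, e2, d, hd, q d hd'⟩))

/-- the trivial side -/
theorem side (hG : Good M) {a b a' b' k : D} {g h : V} {K : Set F} (hgh : g ≠ h)
    (ha : M.vt a = g) (hb : M.vt b = g) (ha' : M.vt a' = h) (hb' : M.vt b' = h)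
    (haa : M.fc a = M.fc a') (hbb : M.fc b = M.fc b') (hab : M.fc a ≠ M.fc b)
    (h1 : M.fc a ∉ K) (h2 : M.fc b ∉ K)
    (hk : M.vt k = g) (hkK : M.fc k ∈ K) {κ : D → ZMod 2}
    (q1 : ∀ d, κ (M.τ d) = κ d)
    (q2 : ∀ d, κ (M.σ d) = κ d ↔ d ≠ a ∧ d ≠ b ∧ d ≠ a' ∧ d ≠ b')
    (q3 : ∀ d, M.fc d ∈ K → κ d = κ k) (he : cl M κ g h (κ k) = ∅) :
    ∃ k1, Triv M a b k a' b' k1 ∧ ∀ x, M.vt x = h → M.fc x ∈ K → x = k1 := by
  have hv : ∀ d, κ d = κ k → M.vt d = g ∨ M.vt d = h := by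
    intro d hd
    by_contra hcon
    push Not at hcon
    have : M.vt d ∈ cl M κ g h (κ k) := mem_cl.2 ⟨hcon.1, hcon.2, d, rfl, hd⟩
    rw [he] at this
    exact absurd this (notMem_empty _)
  obtain ⟨k1, t1, t2⟩ := triv_side hG hgh ha hb ha' hb' haa hbb hab hk
    (by rintro rfl; exact h1 hkK) (by rintro rfl; exact h2 hkK) q1 q2 (by
      intro d hd
      have e1 := hv d hd
      have e2 := hv (M.τ d) (by rw [q1, hd])
      have e3 := hG.nl d
      rcases e1 with e1 | e1 <;> rcases e2 with e2 | e2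
      · exact absurd (e2.trans e1.symm) e3
      · exact Or.inl ⟨e1, e2⟩
      · exact Or.inr ⟨e1, e2⟩
      · exact absurd (e2.trans e1.symm) e3)
  refine ⟨k1, t1, fun x hx hxK => t2 x hx (q3 x hxK) ?_⟩
  rw [← q3 x hxK]
  refine (q2 x).2 ⟨?_, ?_, ?_, ?_⟩
  · rintro rfl
    exact h1 hxK
  · rintro rfl
    exact h2 hxK
  · rintro rfl
    exact h1 (by rw [haa]; exact hxK)
  · rintro rfl
    exact h2 (by rw [hbb]; exact hxK)

end SepCAux

open SepCAux in
/-- The faces `f = fc a = fc a'` and `f' = fc b = fc b'` have corners at `g` and at `h`; the discs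
`K`, `K'` (not containing `f`, `f'`) are separated by `f`, `f'` at `g`, and have `g`, `h` on their
boundaries.  Proof: `κ` from `kap2` with `A = {f}`, `P = {f'}` is constant around every vertex other
than `g`, `h` and takes different values `c`, `c'` on `K` and `K'`.  Let `A` be the set of vertices
`≠ g, h` of colour `c`, `B` the other ones: no arcs between `A` and `B`, `bd K ⊆ A ∪ {g, h}`,
`bd K' ⊆ B ∪ {g, h}`, and `disc_circ` gives the links.  If `A = ∅`, all arcs of colour `c` join `g`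
and `h`, so (`np`) there are at most two; at `g` the darts between the corners `a` and `b` on the side
of `k` have colour `c` and there are at least two; so `k` is the only corner between; the same at `h`
for a corner `k1`; as `fc k1 ≠ f, f'` (`cu`), `k1 = τ (σ k)` (if `k1 = τ k` then `fc k1 = fc (σ⁻¹ k)`). -/
theorem sep_curve (hG : Good M) {a b a' b' k k' : D} {g h : V} {K K' : Set F} (hgh : g ≠ h)
    (ha : M.vt a = g) (hb : M.vt b = g) (ha' : M.vt a' = h) (hb' : M.vt b' = h)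
    (haa : M.fc a = M.fc a') (hbb : M.fc b = M.fc b') (hab : M.fc a ≠ M.fc b)
    (hK : M.UDisc K ∨ M.DDisc K) (hK' : M.UDisc K' ∨ M.DDisc K')
    (h1 : M.fc a ∉ K) (h2 : M.fc b ∉ K) (h3 : M.fc a ∉ K') (h4 : M.fc b ∉ K')
    (hk : M.vt k = g) (hkK : M.fc k ∈ K) (hk' : M.vt k' = g) (hkK' : M.fc k' ∈ K')
    (hcyc : (M.Cyc a k b ∧ M.Cyc b k' a) ∨ (M.Cyc b k a ∧ M.Cyc a k' b))
    (hKh : M.At K h) (hKh' : M.At K' h) :
    Sep2 M.R ∨
    (∃ k1, Triv M a b k a' b' k1 ∧ ∀ x, M.vt x = h → M.fc x ∈ K → x = k1) ∨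
    (∃ k1, Triv M a b k' a' b' k1 ∧ ∀ x, M.vt x = h → M.fc x ∈ K' → x = k1) := by
  have cK : M.Conn K := by
    rcases hK with hK | hK
    · exact hK.disc.cn
    · exact hK.disc.cn
  have cK' : M.Conn K' := by
    rcases hK' with hK' | hK'
    · exact hK'.disc.cn
    · exact hK'.disc.cn
  obtain ⟨κ, q1, q2, q3, q4, q5⟩ := sep_kappa hG hgh ha hb ha' hb' haa hbb hab cK cK' h1 h2 h3 h4
    hk hkK hk' hkK' hcyc
  have hne : κ k ≠ κ k' := by
    rw [q5]
    intro hh
    have h01 : ∀ z : ZMod 2, z ≠ z + 1 := by decide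
    exact h01 _ hh
  have hor : ∀ d, κ d = κ k ∨ κ d = κ k' := by
    intro d
    rw [q5]
    have h01 : ∀ y z : ZMod 2, y = z ∨ y = z + 1 := by decide
    exact h01 _ _
  rcases (cl M κ g h (κ k)).eq_empty_or_nonempty with hA | hA
  · exact Or.inr (Or.inl (side hG hgh ha hb ha' hb' haa hbb hab h1 h2 hk hkK q1 q2 q3 hA))
  rcases (cl M κ g h (κ k')).eq_empty_or_nonempty with hB | hB
  · exact Or.inr (Or.inr (side hG hgh ha hb ha' hb' haa hbb hab h3 h4 hk' hkK' q1 q2 q4 hB))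
  refine Or.inl ⟨g, h, cl M κ g h (κ k), cl M κ g h (κ k'), hgh, fun hm => (mem_cl.1 hm).1 rfl,
    fun hm => (mem_cl.1 hm).2.1 rfl, fun hm => (mem_cl.1 hm).1 rfl,
    fun hm => (mem_cl.1 hm).2.1 rfl, hA, hB, ?_, ?_, ?_, ?_, ?_⟩
  · rw [Finset.disjoint_left]
    intro v hv hv'
    rw [mem_cl] at hv hv'
    obtain ⟨e1, e2, d, hd, hd'⟩ := hv
    obtain ⟨-, -, e, he, he'⟩ := hv'
    have := const ha hb ha' hb' q2 (hd.trans he.symm) (by rw [hd]; exact e1) (by rw [hd]; exact e2)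
    rw [hd', he'] at this
    exact hne this.symm
  · intro v
    by_cases e1 : v = g
    · exact Or.inl e1
    by_cases e2 : v = h
    · exact Or.inr (Or.inl e2)
    obtain ⟨d, hd⟩ := M.vsur v
    rcases hor d with hd' | hd'
    · exact Or.inr (Or.inr (Or.inl (mem_cl.2 ⟨e1, e2, d, hd, hd'⟩)))
    · exact Or.inr (Or.inr (Or.inr (mem_cl.2 ⟨e1, e2, d, hd, hd'⟩)))
  · intro u hu v hv
    rw [mem_cl] at hu hv
    obtain ⟨u1, u2, d, hd, hd'⟩ := hu
    obtain ⟨v1, v2, e, he, he'⟩ := hv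
    constructor
    · rintro ⟨x, -, hx, hx'⟩
      have e3 := const ha hb ha' hb' q2 (d := d) (e := x) (hd.trans hx.symm)
        (by rw [hd]; exact u1) (by rw [hd]; exact u2)
      have e4 := const ha hb ha' hb' q2 (d := e) (e := M.τ x) (he.trans hx'.symm)
        (by rw [he]; exact v1) (by rw [he]; exact v2)
      rw [q1, e3, hd', he'] at e4
      exact hne e4
    · rintro ⟨x, -, hx, hx'⟩
      have e3 := const ha hb ha' hb' q2 (d := e) (e := x) (he.trans hx.symm)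
        (by rw [he]; exact v1) (by rw [he]; exact v2)
      have e4 := const ha hb ha' hb' q2 (d := d) (e := M.τ x) (hd.trans hx'.symm)
        (by rw [hd]; exact u1) (by rw [hd]; exact u2)
      rw [q1, e3, hd', he'] at e4
      exact hne e4.symm
  · exact lnk hG hgh ha ha' haa hK h1 hk hkK hKh q3
  · exact lnk hG hgh ha ha' haa hK' h3 hk' hkK' hKh' q4

end Pool.Agent.Lib.PLQ
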