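import Mathlib
import Pool.Agent.Lib.PLQ.CrossB
import Pool.Agent.Lib.PLQ.FourC
import Pool.Agent.Lib.PLQ.SepC
import Pool.Agent.Lib.PLQ.SepA

set_option autoImplicit false
set_option linter.unusedSectionVars false
set_option linter.unusedVariables false

/-! Module MainP: the main theorem on saddles. -/

namespace Pool.Agent.Lib.PLQ

open Finset Pool.Agent.Lib.NK
open scoped Classical

variable {V D F : Type} [Fintype V] [Fintype D] [Fintype F] {M : PM V D F} {X Y : Set F}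

theorem cyc_shift {a b c d : D} (h1 : M.Cyc a b c) (h2 : M.Cyc c d a) :
    M.Cyc d a b ∧ M.Cyc b c d := by
  obtain ⟨i, j, hi, hij, ei, ej, hper⟩ := h1
  obtain ⟨i', j', hi', hij', ei', ej', hper'⟩ := h2
  have hN : ∀ m, 0 < m → m < j + j' → (M.σ ^ m) a ≠ a := by
    intro m hm0 hm he
    by_cases hmj : m ≤ j
    · exact hper m hm0 hmj he
    push Not at hmj
    have h3 : (M.σ ^ (m - j)) c = a := by
      rw [← ej, ← Equiv.Perm.mul_apply, ← pow_add, Nat.sub_add_cancel hmj.le, he]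
    have h4 : (M.σ ^ (j' - (m - j))) c = c := by
      have h5 : (M.σ ^ (m - j)) ((M.σ ^ (j' - (m - j))) c) = (M.σ ^ (m - j)) c := by
        rw [← Equiv.Perm.mul_apply, ← pow_add, Nat.add_sub_cancel' (by omega), ej', h3]
      exact (M.σ ^ (m - j)).injective h5
    exact hper' _ (by omega) (by omega) h4
  have hN' : ∀ s m, 0 < m → m < j + j' → (M.σ ^ m) ((M.σ ^ s) a) ≠ (M.σ ^ s) a := by
    intro s m hm0 hm he
    rw [← Equiv.Perm.mul_apply, ← pow_add, add_comm, pow_add, Equiv.Perm.mul_apply] at he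
    exact hN m hm0 hm ((M.σ ^ s).injective he)
  constructor
  · refine ⟨j' - i', j' - i' + i, by omega, by omega, ?_, ?_, ?_⟩
    · rw [← ei', ← Equiv.Perm.mul_apply, ← pow_add, Nat.sub_add_cancel hij'.le, ej']
    · rw [← ei', ← Equiv.Perm.mul_apply, ← pow_add, show j' - i' + i + i' = i + j' by omega, pow_add,
        Equiv.Perm.mul_apply, ej', ei]
    · intro m hm0 hm
      rw [← ei', ← ej, ← Equiv.Perm.mul_apply (M.σ ^ i'), ← pow_add]
      exact hN' _ m hm0 (by omega)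
  · refine ⟨j - i, j - i + i', by omega, by omega, ?_, ?_, ?_⟩
    · rw [← ei, ← Equiv.Perm.mul_apply, ← pow_add, Nat.sub_add_cancel hij.le, ej]
    · rw [← ei, ← Equiv.Perm.mul_apply, ← pow_add, show j - i + i' + i = i' + j by omega, pow_add,
        Equiv.Perm.mul_apply, ej, ei']
    · intro m hm0 hm
      rw [← ei]
      exact hN' _ m hm0 (by omega)

/-- from corners `c` with a local path up to the local maximum `m ≠ c`, if the other neighbour is
the local maximum `n ≠ m`, then `c` is a local minimum -/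
theorem lmin_of_next {c m n : D} (h : Relation.ReflTransGen M.lup c m) (hcm : c ≠ m)
    (hn : M.lmax n) (hnm : n ≠ m) (hnb : n = M.σ c ∨ c = M.σ n) : M.lmin c := by
  have hn' : ∀ e, Relation.ReflTransGen M.lup n e → e = n := by
    intro e he
    rcases Relation.ReflTransGen.cases_head he with h1 | ⟨x, h1, _⟩
    · exact h1.symm
    · exfalso
      rcases h1 with ⟨_, h1⟩ | ⟨h0, h1⟩
      · rw [hn.2] at h1; exact Bool.noConfusion h1
      · rw [← h0, hn.1] at h1; exact Bool.noConfusion h1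
  rcases Relation.ReflTransGen.cases_head h with h1 | ⟨x, h1, h2⟩
  · exact absurd h1 hcm
  rcases hnb with h3 | h3
  · rcases h1 with ⟨h4, h5⟩ | ⟨h4, h5⟩
    · rw [h4, ← h3] at h2
      exact absurd (hn' m h2).symm hnm
    · refine ⟨by rw [h4]; exact h5, by rw [← h3]; exact hn.1⟩
  · rcases h1 with ⟨h4, h5⟩ | ⟨h4, h5⟩
    · exact ⟨by rw [h3]; exact hn.2, h5⟩
    · have h6 : n = x := M.σ.injective (h3.symm.trans h4)
      rw [← h6] at h2
      exact absurd (hn' m h2).symm hnm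

theorem Two.lm {v : V} {p : D} {k l : ℕ} (hF : Four M X Y v p k l) {m n : D}
    (hm : Two M p k l m n) : M.lmax m ∧ M.lmax n ∧ Zmin M X (M.fc m) ∧ Zmin M X (M.fc n) ∧
      M.vt m = v ∧ M.vt n = v := by
  have h1 : M.vt ((M.σ ^ k) p) = v := by rw [M.vt_pow, hF.vp]
  have h2 : M.vt ((M.σ ^ (k + 1 + l)) p) = v := by rw [M.vt_pow, hF.vp]
  rcases hm with ⟨rfl, rfl⟩ | ⟨rfl, rfl⟩
  · exact ⟨hF.q1, hF.r1, hF.q2, hF.r2, h1, h2⟩
  · exact ⟨hF.r1, hF.q1, hF.r2, hF.q2, h2, h1⟩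

/-- Case A (`fc m = fc m'`, `fc n = fc n'`): `sep_curve` with the faces `fc m`, `fc n`, `K = Y`,
`K' = P`; the trivial cases give `AltDigon` by `triv_alt` (all four corners are local maxima). -/
theorem caseA (hG : Good M) {g h : V} (hc : C2 M X Y g h) {p p' : D} {k l k' l' : ℕ}
    (hF : Four M X Y g p k l) (hF' : Four M X Y h p' k' l') {m n m' n' : D}
    (hm : Two M p k l m n) (hm' : Two M p' k' l' m' n')
    (h1 : M.fc m = M.fc m') (h2 : M.fc n = M.fc n') (h3 : M.fc m ≠ M.fc n) :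
    Sep2 M.R ∨ ∃ d, AltDigon M d := by
  have hT := hc.two hG
  obtain ⟨m1, n1, m2, n2, m3, n3⟩ := Two.lm hF hm
  obtain ⟨m1', n1', _, _, m3', n3'⟩ := Two.lm hF' hm'
  obtain ⟨y, hy, hyY⟩ := hc.tg.1
  obtain ⟨x, hx, hxX⟩ := hc.tg.2
  have hYZ : ∀ z ∈ Y, z ∉ Zo M X := fun z hz => node_notz hc.nd hz
  have hcyc := four_cyc hF hm hy hyY hT.dj hYZ hx hxX
  have hs := sep_curve hG (a := m) (b := n) (a' := m') (b' := n') (k := y) (k' := x) (K := Y) (K' := Xᶜ)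
    hc.gh m3 n3 m3' n3' h1 h2 h3 (Or.inr hT.y) (Or.inr hT.p) (fun h => hYZ _ h m2.1)
    (fun h => hYZ _ h n2.1) (fun h => h m2.1.1) (fun h => h n2.1.1) hy hyY hx hxX
    (by
      rcases hcyc with ⟨e1, e2⟩ | ⟨e1, e2⟩
      · exact Or.inr (cyc_shift e1 e2)
      · exact Or.inl (cyc_shift e1 e2).symm) hc.th.1 hc.th.2
  have hmn : m ≠ n := fun h => h3 (congrArg M.fc h)
  have hmn' : m' ≠ n' := fun h => h3 (by rw [h1, h2, h])
  rcases hs with h | ⟨k1, h, _⟩ | ⟨k1, h, _⟩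
  · exact Or.inl h
  · exact Or.inr ⟨_, triv_alt h hmn hmn' (Or.inr ⟨m1, n1, m1', n1'⟩)⟩
  · exact Or.inr ⟨_, triv_alt h hmn hmn' (Or.inr ⟨m1, n1, m1', n1'⟩)⟩

/-- Case B (`fc m ≠ fc m'`): `cross` gives faces `f = fc c1 ∈ P`, `f' = fc c2 ∈ Y`; `sep_curve` with
`K` the region of `fc m`, `K'` the region of `fc n`.  If the side of `K` is trivial, then `m'` is the
corner `k1` there, whose face is `fc m`, contradiction.  If the side of `K'` is trivial then
`c1, c2, c1', c2'` are local minima (`lmin_of_next`), so `AltDigon` by `triv_alt`. -/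
theorem caseB (hG : Good M) {g h : V} (hc : C2 M X Y g h) {p p' : D} {k l k' l' : ℕ}
    (hF : Four M X Y g p k l) (hF' : Four M X Y h p' k' l') {m n m' n' : D}
    (hm : Two M p k l m n) (hm' : Two M p' k' l' m' n')
    (hr : M.fc m' ∈ Rg M Y Xᶜ (M.fc m)) (hr' : M.fc n' ∈ Rg M Y Xᶜ (M.fc n))
    (hrr : Rg M Y Xᶜ (M.fc m) ≠ Rg M Y Xᶜ (M.fc n)) (hne : M.fc m ≠ M.fc m') :
    Sep2 M.R ∨ ∃ d, AltDigon M d := by
  have hT := hc.two hG
  obtain ⟨m1, n1, m2, n2, m3, n3⟩ := Two.lm hF hm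
  obtain ⟨m1', n1', m2', n2', m3', n3'⟩ := Two.lm hF' hm'
  have hYZ : ∀ z ∈ Y, z ∉ Zo M X := fun z hz => node_notz hc.nd hz
  obtain ⟨c1, c1', c2, c2', v1, v1', v2, v2', e1, x1, e2, y2, p1, p1', p2, p2'⟩ :=
    cross hG hc hF hF' hm hm' hr hr' hrr hne
  have hcyc := four_cyc hF hm v2 y2 hT.dj hYZ v1 x1
  have hYX : ∀ z ∈ Y, z ∈ X := by
    intro z hz
    by_contra hcon
    exact Set.disjoint_left.mp hT.dj hz hcon
  have hz : M.fc m ∉ Y ∧ M.fc m ∉ Xᶜ := ⟨fun h => hYZ _ h m2.1, fun h => h m2.1.1⟩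
  have hz' : M.fc n ∉ Y ∧ M.fc n ∉ Xᶜ := ⟨fun h => hYZ _ h n2.1, fun h => h n2.1.1⟩
  have dm := rg_disj (M := M) hz
  have dn := rg_disj (M := M) hz'
  have hs := sep_curve hG (a := c1) (b := c2) (a' := c1') (b' := c2') (k := m) (k' := n)
    (K := Rg M Y Xᶜ (M.fc m)) (K' := Rg M Y Xᶜ (M.fc n))
    hc.gh v1 v2 v1' v2' e1 e2 (fun h => x1 (h ▸ hYX _ y2))
    (Or.inl (rg_ud hG hT hc.gh hc.tg hc.th hz)) (Or.inl (rg_ud hG hT hc.gh hc.tg hc.th hz'))
    (fun h => Set.disjoint_left.mp dm.2 h x1) (fun h => Set.disjoint_left.mp dm.1 h y2)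
    (fun h => Set.disjoint_left.mp dn.2 h x1) (fun h => Set.disjoint_left.mp dn.1 h y2)
    m3 Relation.ReflTransGen.refl n3 Relation.ReflTransGen.refl hcyc.symm
    ⟨m', m3', hr⟩ ⟨n', n3', hr'⟩
  rcases hs with h | ⟨k1, h, hk⟩ | ⟨k1, h, hk⟩
  · exact Or.inl h
  · exfalso
    have h4 : m' = k1 := hk m' m3' hr
    apply hne
    rw [h4, h.2.2.1, M.fc_phi]
  · right
    have h4 : n' = k1 := hk n' n3' hr'
    have hc12 : c1 ≠ c2 := fun h5 => x1 (by rw [h5]; exact hYX _ y2)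
    have hc12' : c1' ≠ c2' := by
      intro h5
      apply x1
      rw [e1, h5, ← e2]
      exact hYX _ y2
    have hc1m : c1 ≠ m := fun h5 => x1 (by rw [h5]; exact m2.1.1)
    have hc1m' : c1' ≠ m' := fun h5 => x1 (by rw [e1, h5]; exact m2'.1.1)
    have hc2m : c2 ≠ m := fun h5 => hYZ _ y2 (by rw [h5]; exact m2.1)
    have hc2m' : c2' ≠ m' := fun h5 => hYZ _ y2 (by rw [e2, h5]; exact m2'.1)
    have hnm : n ≠ m := fun h5 => hrr (by rw [h5])
    have hnm' : n' ≠ m' := by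
      intro h5
      apply hrr
      rw [h5] at hr'
      exact (rg_eq hz hr).symm.trans (rg_eq hz' hr')
    obtain ⟨t1, t2, t3, t4⟩ := h
    refine ⟨_, triv_alt ⟨t1, t2, t3, t4⟩ hc12 hc12' (Or.inl ⟨?_, ?_, ?_, ?_⟩)⟩
    · refine lmin_of_next p1 hc1m n1 hnm ?_
      rcases t1 with ⟨t5, t6⟩ | ⟨t5, t6⟩
      · exact Or.inl t5
      · exact Or.inr t6
    · refine lmin_of_next p2 hc2m n1 hnm ?_
      rcases t1 with ⟨t5, t6⟩ | ⟨t5, t6⟩
      · exact Or.inr t6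
      · exact Or.inl t5
    · refine lmin_of_next p1' hc1m' n1' hnm' ?_
      rw [h4]
      rcases t2 with ⟨t5, t6⟩ | ⟨t5, t6⟩
      · exact Or.inl t5
      · exact Or.inr t6
    · refine lmin_of_next p2' hc2m' n1' hnm' ?_
      rw [h4]
      rcases t2 with ⟨t5, t6⟩ | ⟨t5, t6⟩
      · exact Or.inr t6
      · exact Or.inl t5

theorem no_Mn (hG : Good M) (hsw : ∀ d, ¬ AltDigon M d) (hsep : ¬ Sep2 M.R) : ¬ Mn M X := by
  intro hMn
  obtain ⟨Y, g, h, hc⟩ := exists_C2 hG hMn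
  obtain ⟨p, k, l, hF⟩ := exists_four hG hc
  obtain ⟨p', k', l', hF'⟩ := exists_four hG hc.symm
  obtain ⟨hrr, hmr⟩ := match_regions hG hc hF hF'
  have key : ∀ m n m' n', Two M p k l m n → Two M p' k' l' m' n' →
      M.fc m' ∈ Rg M Y Xᶜ (M.fc m) → M.fc n' ∈ Rg M Y Xᶜ (M.fc n) →
      Rg M Y Xᶜ (M.fc m) ≠ Rg M Y Xᶜ (M.fc n) → Sep2 M.R ∨ ∃ d, AltDigon M d := by
    intro m n m' n' hm hm' hr hr' hne
    by_cases h1 : M.fc m = M.fc m'
    · by_cases h2 : M.fc n = M.fc n'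
      · exact caseA hG hc hF hF' hm hm' h1 h2 (fun h3 => hne (by rw [h3]))
      · exact caseB hG hc hF hF' (m := n) (n := m) (m' := n') (n' := m') (Or.symm hm |>.imp
          (fun h => ⟨h.2, h.1⟩) (fun h => ⟨h.2, h.1⟩)) (Or.symm hm' |>.imp
          (fun h => ⟨h.2, h.1⟩) (fun h => ⟨h.2, h.1⟩)) hr' hr (Ne.symm hne) h2
    · exact caseB hG hc hF hF' hm hm' hr hr' hne h1
  have hfin : Sep2 M.R ∨ ∃ d, AltDigon M d := by
    rcases hmr with ⟨h1, h2⟩ | ⟨h1, h2⟩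
    · exact key _ _ _ _ (Or.inl ⟨rfl, rfl⟩) (Or.inl ⟨rfl, rfl⟩) h1 h2 hrr
    · exact key _ _ _ _ (Or.inl ⟨rfl, rfl⟩) (Or.inr ⟨rfl, rfl⟩) h2 h1 hrr
  rcases hfin with h1 | ⟨d, h1⟩
  · exact hsep h1
  · exact hsw d h1

/-- MAIN THEOREM: a strongly 2-connected ring-free plane digraph without alternating digons and
without 2-separations having a dicycle through both vertices on each side has no saddle. -/
theorem no_saddle (hG : Good M) (hsw : ∀ d, ¬ AltDigon M d) (hsep : ¬ Sep2 M.R) (v : V) :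
    ¬ M.Sad v := by
  intro hv
  rcases exists_Mn hG ⟨v, hv⟩ with ⟨X, h⟩ | ⟨X, h⟩
  · exact no_Mn hG hsw hsep h
  · refine no_Mn hG.rev (fun d h1 => hsw d (M.rev_alt.mp h1)) (fun h1 => hsep ?_) h
    exact Sep2.rv h1 (fun a b => M.rev_R.symm)

end Pool.Agent.Lib.PLQ
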