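import Mathlib
import Pool.Agent.Lib.PLQ.Basic
import Pool.Agent.Lib.PR.Odd1

set_option autoImplicit false
set_option linter.unusedSectionVars false
set_option linter.unusedVariables false

/-! Module NsC (`RingL` in Defs). -/

namespace Pool.Agent.Lib.PLQ

open Finset Pool.Agent.Lib.NK
open scoped Classical

namespace NsCAux

/-- vertices `f 1, ..., f n` -/
def fl {V : Type} (f : ℕ → V) (n : ℕ) : List V := (List.range n).map (fun k => f (k + 1))

theorem mem_fl {V : Type} (f : ℕ → V) (n : ℕ) (v : V) :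
    v ∈ fl f n ↔ ∃ k, 0 < k ∧ k < n + 1 ∧ f k = v := by
  unfold fl
  rw [List.mem_map]
  constructor
  · rintro ⟨k, hk, rfl⟩
    rw [List.mem_range] at hk
    exact ⟨k + 1, by omega, by omega, rfl⟩
  · rintro ⟨k, h0, hk, rfl⟩
    refine ⟨k - 1, by rw [List.mem_range]; omega, ?_⟩
    rw [Nat.sub_add_cancel h0]

theorem fl_succ {V : Type} (f : ℕ → V) (n : ℕ) : fl f (n + 1) = fl f n ++ [f (n + 1)] := by
  unfold fl
  rw [List.range_succ, List.map_append]
  rfl

theorem cons_fl {V : Type} (f : ℕ → V) (n : ℕ) :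
    f 0 :: fl f n = (List.range n).map f ++ [f n] := by
  induction n with
  | zero => rfl
  | succ n ih =>
    rw [fl_succ, ← List.cons_append, ih, List.range_succ, List.map_append]
    rfl

theorem mem_cons_fl {V : Type} (f : ℕ → V) (n : ℕ) (v : V) :
    v ∈ f 0 :: fl f n ↔ ∃ k, k ≤ n ∧ f k = v := by
  rw [List.mem_cons, mem_fl]
  constructor
  · rintro (rfl | ⟨k, h0, hk, rfl⟩)
    · exact ⟨0, Nat.zero_le _, rfl⟩
    · exact ⟨k, by omega, rfl⟩
  · rintro ⟨k, hk, rfl⟩
    rcases Nat.eq_zero_or_pos k with h | h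
    · subst h; exact Or.inl rfl
    · exact Or.inr ⟨k, h, by omega, rfl⟩

theorem fl_first {V : Type} (f : ℕ → V) {n : ℕ} (h : 1 ≤ n) :
    ∃ t, fl f (n - 1) ++ [f n] = f 1 :: t := by
  obtain ⟨k, rfl⟩ : ∃ k, n = k + 1 := ⟨n - 1, by omega⟩
  refine ⟨(List.range k).map (fun j => f (j + 1 + 1)), ?_⟩
  rw [Nat.add_sub_cancel, ← fl_succ]
  unfold fl
  rw [List.range_succ_eq_map, List.map_cons, List.map_map]
  rfl

theorem fl_nodup {V : Type} (f : ℕ → V) (n : ℕ)
    (h : ∀ k k', 0 < k → k < n + 1 → 0 < k' → k' < n + 1 → f k = f k' → k = k') :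
    (fl f n).Nodup := by
  unfold fl
  refine List.Nodup.map_on ?_ List.nodup_range
  intro x hx y hy he
  rw [List.mem_range] at hx hy
  have := h (x + 1) (y + 1) (by omega) (by omega) (by omega) (by omega) he
  omega

theorem cons_fl_nodup {V : Type} (f : ℕ → V) (n : ℕ)
    (h : ∀ k k', k ≤ n → k' ≤ n → f k = f k' → k = k') :
    (f 0 :: fl f n).Nodup := by
  rw [List.nodup_cons, mem_fl]
  refine ⟨?_, fl_nodup f n fun k k' _ hk _ hk' he => h k k' (by omega) (by omega) he⟩
  rintro ⟨k, h0, hk, he⟩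
  have := h k 0 (by omega) (by omega) he
  omega

/-- lists of paths -/
inductive Pth {V : Type} (R : V → V → Prop) : V → List V → V → Prop
  | nil (u : V) : Pth R u [] u
  | cons {u v w : V} {l : List V} : R u v → Pth R v l w → Pth R u (v :: l) w

theorem Pth.append {V : Type} {R : V → V → Prop} {u v w : V} {l l' : List V} (h : Pth R u l v)
    (h' : Pth R v l' w) : Pth R u (l ++ l') w := by
  induction h with
  | nil u => exact h'
  | cons h1 h2 ih => exact Pth.cons h1 (ih h')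

theorem Pth.chain {V : Type} {R : V → V → Prop} {u v : V} {l : List V} (h : Pth R u l v) :
    (u :: l).IsChain R := by
  induction h with
  | nil u => exact List.isChain_singleton _
  | cons h1 h2 ih => exact List.isChain_cons_cons.2 ⟨h1, ih⟩

theorem fl_pth {V : Type} {R : V → V → Prop} (f : ℕ → V) (n : ℕ)
    (h : ∀ k, k < n → R (f k) (f (k + 1))) : Pth R (f 0) (fl f n) (f n) := by
  induction n with
  | zero => exact Pth.nil _
  | succ n ih =>
    rw [fl_succ]
    exact (ih fun k hk => h k (by omega)).append (Pth.cons (h n (by omega)) (Pth.nil _))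

/-- a ring with a neck at every joint: neck `j` is `nf j 0, ..., nf j (nm j)` -/
structure RD {V : Type} (R : V → V → Prop) (ℓ : ℕ) (nf : ℕ → ℕ → V) (nm : ℕ → ℕ)
    (P : ℕ → Bool → ℕ → V) (n : ℕ → Bool → ℕ) : Prop where
  h3 : 3 ≤ ℓ
  narc : ∀ j, j < ℓ → ∀ k, k < nm j → R (nf j k) (nf j (k + 1))
  ninj : ∀ j, j < ℓ → ∀ k k', k ≤ nm j → k' ≤ nm j → nf j k = nf j k' → k = k'
  F1 : ∀ j j' k k', j < ℓ → j' < ℓ → k ≤ nm j → k' ≤ nm j' → nf j k = nf j' k' → j = j'
  n1 : ∀ i, i < ℓ → ∀ d, 1 ≤ n i d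
  e1 : ∀ i, i < ℓ → P i false 0 = nf i (nm i)
  e2 : ∀ i, i < ℓ → P i false (n i false) = nf ((i + 1) % ℓ) 0
  e3 : ∀ i, i < ℓ → P i true 0 = nf ((i + 1) % ℓ) (nm ((i + 1) % ℓ))
  e4 : ∀ i, i < ℓ → P i true (n i true) = nf i 0
  parc : ∀ i, i < ℓ → ∀ d k, k < n i d → R (P i d k) (P i d (k + 1))
  F2 : ∀ i d k j k', i < ℓ → 0 < k → k < n i d → j < ℓ → k' ≤ nm j → P i d k ≠ nf j k'
  F3 : ∀ i d k i' d' k', i < ℓ → i' < ℓ → 0 < k → k < n i d → 0 < k' → k' < n i' d' →
    P i d k = P i' d' k' → i = i' ∧ d = d' ∧ k = k'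

section

variable {V : Type} {R : V → V → Prop} {ℓ : ℕ} {nf : ℕ → ℕ → V} {nm : ℕ → ℕ}
  {P : ℕ → Bool → ℕ → V} {n : ℕ → Bool → ℕ}

/-- the list of the dicycle `i` without its first vertex `nf i 0` -/
def ll (ℓ : ℕ) (nf : ℕ → ℕ → V) (nm : ℕ → ℕ) (P : ℕ → Bool → ℕ → V) (n : ℕ → Bool → ℕ) (i : ℕ) :
    List V :=
  fl (nf i) (nm i) ++ (fl (P i false) (n i false - 1) ++
    (nf ((i + 1) % ℓ) 0 :: (fl (nf ((i + 1) % ℓ)) (nm ((i + 1) % ℓ)) ++
      fl (P i true) (n i true - 1))))

theorem mem_ll (i : ℕ) (v : V) (h1 : 1 ≤ n i false) (h2 : 1 ≤ n i true) :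
    v ∈ nf i 0 :: ll ℓ nf nm P n i ↔ (∃ k, k ≤ nm i ∧ nf i k = v) ∨
      (∃ k, 0 < k ∧ k < n i false ∧ P i false k = v) ∨
      (∃ k, k ≤ nm ((i + 1) % ℓ) ∧ nf ((i + 1) % ℓ) k = v) ∨
      (∃ k, 0 < k ∧ k < n i true ∧ P i true k = v) := by
  unfold ll
  rw [← List.cons_append, List.mem_append, mem_cons_fl, List.mem_append, mem_fl,
    ← List.cons_append, List.mem_append, mem_cons_fl, mem_fl, Nat.sub_add_cancel h1,
    Nat.sub_add_cancel h2]

theorem RD.nodup (h : RD R ℓ nf nm P n) {i : ℕ} (hi : i < ℓ) :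
    (nf i 0 :: ll ℓ nf nm P n i).Nodup := by
  have h3 := h.h3
  have hs : (i + 1) % ℓ < ℓ := Nat.mod_lt _ (by omega)
  have hne : i ≠ (i + 1) % ℓ := by
    rcases Nat.lt_or_ge (i + 1) ℓ with g | g
    · rw [Nat.mod_eq_of_lt g]; omega
    · have : i + 1 = ℓ := by omega
      rw [this, Nat.mod_self]; omega
  have n1 := h.n1 i hi false
  have n2 := h.n1 i hi true
  unfold ll
  rw [← List.cons_append, List.nodup_append', List.nodup_append', ← List.cons_append,
    List.nodup_append']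
  refine ⟨cons_fl_nodup _ _ (h.ninj i hi), ⟨?_, ⟨cons_fl_nodup _ _ (h.ninj _ hs), ?_, ?_⟩, ?_⟩, ?_⟩
  · refine fl_nodup _ _ fun k k' h0 hk h0' hk' he => ?_
    exact (h.F3 i false k i false k' hi hi h0 (by omega) h0' (by omega) he).2.2
  · refine fl_nodup _ _ fun k k' h0 hk h0' hk' he => ?_
    exact (h.F3 i true k i true k' hi hi h0 (by omega) h0' (by omega) he).2.2
  · intro v hv hv'
    rw [mem_cons_fl] at hv
    rw [mem_fl] at hv'
    obtain ⟨k, hk, rfl⟩ := hv
    obtain ⟨k', h0, hk', he⟩ := hv'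
    exact h.F2 i true k' _ k hi h0 (by omega) hs hk he
  · intro v hv hv'
    rw [mem_fl] at hv
    obtain ⟨k, h0, hk, rfl⟩ := hv
    rw [List.mem_append, mem_cons_fl, mem_fl] at hv'
    rcases hv' with ⟨k', hk', he⟩ | ⟨k', h0', hk', he⟩
    · exact h.F2 i false k _ k' hi h0 (by omega) hs hk' he.symm
    · have := (h.F3 i true k' i false k hi hi h0' (by omega) h0 (by omega) he).2.1
      exact absurd this (by decide)
  · intro v hv hv'
    rw [mem_cons_fl] at hv
    obtain ⟨k, hk, rfl⟩ := hv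
    rw [List.mem_append, mem_fl, List.mem_append, mem_cons_fl, mem_fl] at hv'
    rcases hv' with ⟨k', h0', hk', he⟩ | ⟨k', hk', he⟩ | ⟨k', h0', hk', he⟩
    · exact h.F2 i false k' _ k hi h0' (by omega) hi hk he
    · exact hne (h.F1 _ _ _ _ hi hs hk hk' he.symm)
    · exact h.F2 i true k' _ k hi h0' (by omega) hi hk he

theorem RD.pth (h : RD R ℓ nf nm P n) {i : ℕ} (hi : i < ℓ) :
    Pth R (nf i 0) (ll ℓ nf nm P n i ++ [nf i 0]) (nf i 0) := by
  have h3 := h.h3
  have hs : (i + 1) % ℓ < ℓ := Nat.mod_lt _ (by omega)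
  have n1 := h.n1 i hi false
  have n2 := h.n1 i hi true
  have p1 := fl_pth (nf i) (nm i) (h.narc i hi)
  have p2 := fl_pth (P i false) (n i false) (h.parc i hi false)
  have p3 := fl_pth (nf ((i + 1) % ℓ)) (nm ((i + 1) % ℓ)) (h.narc _ hs)
  have p4 := fl_pth (P i true) (n i true) (h.parc i hi true)
  have q2 : fl (P i false) (n i false) = fl (P i false) (n i false - 1) ++ [nf ((i + 1) % ℓ) 0] := by
    rw [← h.e2 i hi]
    obtain ⟨k, hk⟩ : ∃ k, n i false = k + 1 := ⟨n i false - 1, by omega⟩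
    rw [hk, Nat.add_sub_cancel, fl_succ]
  have q4 : fl (P i true) (n i true) = fl (P i true) (n i true - 1) ++ [nf i 0] := by
    rw [← h.e4 i hi]
    obtain ⟨k, hk⟩ : ∃ k, n i true = k + 1 := ⟨n i true - 1, by omega⟩
    rw [hk, Nat.add_sub_cancel, fl_succ]
  rw [h.e1 i hi, h.e2 i hi, q2] at p2
  rw [h.e3 i hi, h.e4 i hi, q4] at p4
  have p := p1.append (p2.append (p3.append p4))
  have e : ll ℓ nf nm P n i ++ [nf i 0] = fl (nf i) (nm i) ++
      (fl (P i false) (n i false - 1) ++ [nf ((i + 1) % ℓ) 0] ++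
        (fl (nf ((i + 1) % ℓ)) (nm ((i + 1) % ℓ)) ++
          (fl (P i true) (n i true - 1) ++ [nf i 0]))) := by
    unfold ll
    simp only [List.append_assoc, List.cons_append, List.nil_append]
  rw [e]
  exact p

/-- the successor of the end of the neck `i + 1` on the dicycle `i` -/
theorem RD.inf1 (h : RD R ℓ nf nm P n) {i : ℕ} (hi : i < ℓ) :
    [nf ((i + 1) % ℓ) (nm ((i + 1) % ℓ)), P i true 1] <:+:
      (nf i 0 :: (ll ℓ nf nm P n i ++ [nf i 0])) := by
  obtain ⟨t, ht⟩ := fl_first (P i true) (h.n1 i hi true)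
  rw [h.e4 i hi] at ht
  have e1 := cons_fl (nf ((i + 1) % ℓ)) (nm ((i + 1) % ℓ))
  refine ⟨nf i 0 :: (fl (nf i) (nm i) ++ (fl (P i false) (n i false - 1) ++
    (List.range (nm ((i + 1) % ℓ))).map (nf ((i + 1) % ℓ)))), t, ?_⟩
  have e2 : ll ℓ nf nm P n i ++ [nf i 0] = fl (nf i) (nm i) ++ (fl (P i false) (n i false - 1) ++
      ((nf ((i + 1) % ℓ) 0 :: fl (nf ((i + 1) % ℓ)) (nm ((i + 1) % ℓ))) ++
        (fl (P i true) (n i true - 1) ++ [nf i 0]))) := by
    unfold ll
    simp only [List.append_assoc, List.cons_append]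
  rw [e2, ht, e1]
  simp only [List.append_assoc, List.cons_append, List.nil_append]

/-- the successor of the end of the neck `i` on the dicycle `i` -/
theorem RD.inf2 (h : RD R ℓ nf nm P n) {i : ℕ} (hi : i < ℓ) :
    [nf i (nm i), P i false 1] <:+: (nf i 0 :: (ll ℓ nf nm P n i ++ [nf i 0])) := by
  obtain ⟨t, ht⟩ := fl_first (P i false) (h.n1 i hi false)
  rw [h.e2 i hi] at ht
  have e1 := cons_fl (nf i) (nm i)
  refine ⟨(List.range (nm i)).map (nf i), t ++ (fl (nf ((i + 1) % ℓ)) (nm ((i + 1) % ℓ)) ++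
      (fl (P i true) (n i true - 1) ++ [nf i 0])), ?_⟩
  have e2 : nf i 0 :: (ll ℓ nf nm P n i ++ [nf i 0]) = (nf i 0 :: fl (nf i) (nm i)) ++
      ((fl (P i false) (n i false - 1) ++ [nf ((i + 1) % ℓ) 0]) ++
        (fl (nf ((i + 1) % ℓ)) (nm ((i + 1) % ℓ)) ++
          (fl (P i true) (n i true - 1) ++ [nf i 0]))) := by
    unfold ll
    simp only [List.append_assoc, List.cons_append, List.nil_append]
  rw [e2, ht, e1]
  simp only [List.append_assoc, List.cons_append, List.nil_append]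

theorem RD.neck_nm (h : RD R ℓ nf nm P n) {i j k : ℕ} (hi : i < ℓ) (hj : j < ℓ) (hk : k ≤ nm j)
    (h1 : j ≠ i) (h2 : j ≠ (i + 1) % ℓ) : nf j k ∉ nf i 0 :: ll ℓ nf nm P n i := by
  have hs : (i + 1) % ℓ < ℓ := Nat.mod_lt _ (by omega)
  rw [mem_ll i _ (h.n1 i hi false) (h.n1 i hi true)]
  rintro (⟨k', hk', he⟩ | ⟨k', h0', hk', he⟩ | ⟨k', hk', he⟩ | ⟨k', h0', hk', he⟩)
  · exact h1 (h.F1 _ _ _ _ hj hi hk hk' he.symm)
  · exact h.F2 i false k' j k hi h0' hk' hj hk he
  · exact h2 (h.F1 _ _ _ _ hj hs hk hk' he.symm)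
  · exact h.F2 i true k' j k hi h0' hk' hj hk he

theorem RD.int_nm (h : RD R ℓ nf nm P n) {i j k : ℕ} {d : Bool} (hi : i < ℓ) (hj : j < ℓ)
    (h0 : 0 < k) (hk : k < n j d) (h1 : j ≠ i) : P j d k ∉ nf i 0 :: ll ℓ nf nm P n i := by
  have hs : (i + 1) % ℓ < ℓ := Nat.mod_lt _ (by omega)
  rw [mem_ll i _ (h.n1 i hi false) (h.n1 i hi true)]
  rintro (⟨k', hk', he⟩ | ⟨k', h0', hk', he⟩ | ⟨k', hk', he⟩ | ⟨k', h0', hk', he⟩)
  · exact h.F2 j d k i k' hj h0 hk hi hk' he.symm
  · exact h1 (h.F3 i false k' j d k hi hj h0' hk' h0 hk he).1.symm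
  · exact h.F2 j d k _ k' hj h0 hk hs hk' he.symm
  · exact h1 (h.F3 i true k' j d k hi hj h0' hk' h0 hk he).1.symm

theorem seg_fwd {X : List V} (f : ℕ → V) (t : ℕ)
    (hk : ∀ k, k < t → R (f k) (f (k + 1)) ∧ f (k + 1) ∉ X) :
    Relation.ReflTransGen (fun p q => (R p q ∨ R q p) ∧ q ∉ X) (f 0) (f t) := by
  induction t with
  | zero => exact Relation.ReflTransGen.refl
  | succ t ih =>
    exact (ih fun k hkt => hk k (by omega)).tail
      ⟨Or.inl (hk t (by omega)).1, (hk t (by omega)).2⟩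

theorem seg_bwd {X : List V} (f : ℕ → V) (t : ℕ)
    (hk : ∀ k, k < t → R (f k) (f (k + 1)) ∧ f k ∉ X) :
    Relation.ReflTransGen (fun p q => (R p q ∨ R q p) ∧ q ∉ X) (f t) (f 0) := by
  induction t with
  | zero => exact Relation.ReflTransGen.refl
  | succ t ih =>
    exact Relation.ReflTransGen.head ⟨Or.inr (hk t (by omega)).1, (hk t (by omega)).2⟩
      (ih fun k hkt => hk k (by omega))

theorem mod_inj {ℓ i k k' : ℕ} (hk : k < ℓ) (hk' : k' < ℓ)
    (h : (i + k) % ℓ = (i + k') % ℓ) : k = k' := by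
  have h1 : k ≡ k' [MOD ℓ] := Nat.ModEq.add_left_cancel' i h
  have h2 : k % ℓ = k' % ℓ := h1
  rwa [Nat.mod_eq_of_lt hk, Nat.mod_eq_of_lt hk'] at h2

theorem RD.walk (h : RD R ℓ nf nm P n) {i : ℕ} (hi : i < ℓ) :
    Relation.ReflTransGen (fun p q => (R p q ∨ R q p) ∧ q ∉ nf i 0 :: ll ℓ nf nm P n i)
      (P ((i + 1) % ℓ) false 1) (P ((i + ℓ - 1) % ℓ) true 1) := by
  have h3 := h.h3
  have hlt : ∀ k, (i + k) % ℓ < ℓ := fun k => Nat.mod_lt _ (by omega)
  have hi0 : (i + 0) % ℓ = i := by rw [Nat.add_zero, Nat.mod_eq_of_lt hi]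
  have hsucc : ∀ k, ((i + k) % ℓ + 1) % ℓ = (i + (k + 1)) % ℓ := by
    intro k
    rw [Nat.mod_add_mod, Nat.add_assoc]
  have hni : ∀ k, 0 < k → k < ℓ → (i + k) % ℓ ≠ i := by
    intro k h0 hk he
    have := mod_inj (i := i) hk (by omega : 0 < ℓ) (by rw [he, hi0])
    omega
  have hns : ∀ k, 1 < k → k < ℓ → (i + k) % ℓ ≠ (i + 1) % ℓ := by
    intro k h0 hk he
    have := mod_inj (i := i) hk (by omega : 1 < ℓ) he
    omega
  -- first part
  have w1 : Relation.ReflTransGen (fun p q => (R p q ∨ R q p) ∧ q ∉ nf i 0 :: ll ℓ nf nm P n i)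
      (P ((i + 1) % ℓ) false 1) (nf ((i + 2) % ℓ) 0) := by
    have hn := h.n1 _ (hlt 1) false
    have e := h.e2 _ (hlt 1)
    rw [hsucc 1] at e
    have := seg_fwd (R := R) (X := nf i 0 :: ll ℓ nf nm P n i)
      (fun k => P ((i + 1) % ℓ) false (k + 1)) (n ((i + 1) % ℓ) false - 1) (by
        intro k hk
        refine ⟨h.parc _ (hlt 1) false (k + 1) (by omega), ?_⟩
        rcases Nat.lt_or_ge (k + 1 + 1) (n ((i + 1) % ℓ) false) with g | g
        · exact h.int_nm hi (hlt 1) (by omega) g (hni 1 (by omega) (by omega))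
        · have g' : k + 1 + 1 = n ((i + 1) % ℓ) false := by omega
          rw [g', e]
          exact h.neck_nm hi (hlt 2) (Nat.zero_le _) (hni 2 (by omega) (by omega))
            (hns 2 (by omega) (by omega)))
    rw [Nat.sub_add_cancel hn, e] at this
    exact this
  -- middle part
  have w2 : ∀ k, 2 ≤ k → k < ℓ →
      Relation.ReflTransGen (fun p q => (R p q ∨ R q p) ∧ q ∉ nf i 0 :: ll ℓ nf nm P n i)
        (nf ((i + 2) % ℓ) 0) (nf ((i + k) % ℓ) 0) := by
    intro k h2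
    induction k, h2 using Nat.le_induction with
    | base => exact fun _ => Relation.ReflTransGen.refl
    | succ k h2 ih =>
      intro hk
      refine (ih (by omega)).trans ?_
      have s1 := seg_fwd (R := R) (X := nf i 0 :: ll ℓ nf nm P n i) (nf ((i + k) % ℓ))
        (nm ((i + k) % ℓ)) (fun j hj => ⟨h.narc _ (hlt k) j hj,
          h.neck_nm hi (hlt k) (by omega) (hni k (by omega) (by omega))
            (hns k (by omega) (by omega))⟩)
      have e := h.e2 _ (hlt k)
      rw [hsucc k] at e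
      have s2 := seg_fwd (R := R) (X := nf i 0 :: ll ℓ nf nm P n i) (P ((i + k) % ℓ) false)
        (n ((i + k) % ℓ) false) (by
          intro j hj
          refine ⟨h.parc _ (hlt k) false j hj, ?_⟩
          rcases Nat.lt_or_ge (j + 1) (n ((i + k) % ℓ) false) with g | g
          · exact h.int_nm hi (hlt k) (by omega) g (hni k (by omega) (by omega))
          · have g' : j + 1 = n ((i + k) % ℓ) false := by omega
            rw [g', e]
            exact h.neck_nm hi (hlt (k + 1)) (Nat.zero_le _) (hni (k + 1) (by omega) (by omega))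
              (hns (k + 1) (by omega) (by omega)))
      rw [h.e1 _ (hlt k), e] at s2
      exact s1.trans s2
  -- last part
  have e0 : i + ℓ - 1 = i + (ℓ - 1) := by omega
  rw [e0]
  have w3 : Relation.ReflTransGen (fun p q => (R p q ∨ R q p) ∧ q ∉ nf i 0 :: ll ℓ nf nm P n i)
      (nf ((i + (ℓ - 1)) % ℓ) 0) (P ((i + (ℓ - 1)) % ℓ) true 1) := by
    have hn := h.n1 _ (hlt (ℓ - 1)) true
    have e := h.e4 _ (hlt (ℓ - 1))
    have := seg_bwd (R := R) (X := nf i 0 :: ll ℓ nf nm P n i)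
      (fun k => P ((i + (ℓ - 1)) % ℓ) true (k + 1)) (n ((i + (ℓ - 1)) % ℓ) true - 1) (by
        intro k hk
        refine ⟨h.parc _ (hlt (ℓ - 1)) true (k + 1) (by omega), ?_⟩
        exact h.int_nm hi (hlt (ℓ - 1)) (by omega) (by omega) (hni (ℓ - 1) (by omega) (by omega)))
    rw [Nat.sub_add_cancel hn, e] at this
    exact this
  exact w1.trans ((w2 (ℓ - 1) (by omega) (by omega)).trans w3)

theorem RD.ringL (h : RD R ℓ nf nm P n) :
    RingL R ℓ (fun i => nf i 0) (ll ℓ nf nm P n) (fun i => nf ((i + 1) % ℓ) (nm ((i + 1) % ℓ)))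
      (fun i => P i true 1) (fun i => P ((i + 1) % ℓ) false 1) := by
  have h3 := h.h3
  refine ⟨h.h3, fun i hi => ⟨h.nodup hi, (h.pth hi).chain⟩, fun i hi => ?_, fun i hi => h.walk hi⟩
  have hs : (i + 1) % ℓ < ℓ := Nat.mod_lt _ (by omega)
  have hss : ((i + 1) % ℓ + 1) % ℓ < ℓ := Nat.mod_lt _ (by omega)
  have hi0 : (i + 0) % ℓ = i := by rw [Nat.add_zero, Nat.mod_eq_of_lt hi]
  have hs2 : ((i + 1) % ℓ + 1) % ℓ = (i + 2) % ℓ := by rw [Nat.mod_add_mod]
  have hn1 : i ≠ (i + 1) % ℓ := by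
    intro he
    have := mod_inj (i := i) (by omega : 0 < ℓ) (by omega : 1 < ℓ) (by rw [hi0]; exact he)
    omega
  have hn2 : i ≠ ((i + 1) % ℓ + 1) % ℓ := by
    intro he
    rw [hs2] at he
    have := mod_inj (i := i) (by omega : 0 < ℓ) (by omega : 2 < ℓ) (by rw [hi0]; exact he)
    omega
  have hn3 : (i + 1) % ℓ ≠ ((i + 1) % ℓ + 1) % ℓ := by
    intro he
    rw [hs2] at he
    have := mod_inj (i := i) (by omega : 1 < ℓ) (by omega : 2 < ℓ) he
    omega
  refine ⟨h.inf1 hi, h.inf2 hs, ?_, ?_⟩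
  · rcases Nat.lt_or_ge 1 (n i true) with g | g
    · exact h.int_nm hs hi (by omega) g hn1
    · have g' : n i true = 1 := le_antisymm g (h.n1 i hi true)
      have e := h.e4 i hi
      rw [g'] at e
      dsimp only
      rw [e]
      exact h.neck_nm hs hi (Nat.zero_le _) hn1 hn2
  · rcases Nat.lt_or_ge 1 (n ((i + 1) % ℓ) false) with g | g
    · exact h.int_nm hi hs (by omega) g hn1.symm
    · have g' : n ((i + 1) % ℓ) false = 1 := le_antisymm g (h.n1 _ hs false)
      have e := h.e2 _ hs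
      rw [g'] at e
      dsimp only
      rw [e]
      exact h.neck_nm hi hss (Nat.zero_le _) hn2.symm hn3.symm

end

end NsCAux

open NsCAux

/-- A ring of an odd number of dicycles with a neck as a ring of lists.  The dicycles: one simple
dicycle through both joints of each link of the chain (paths `Rc` may be replaced by simple ones), and
at the neck the two dicycles `N ∪ A1 ∪ A2`, `N ∪ B1 ∪ B2` (make `N`, `A1`, `A2`, `B1`, `B2` simple
paths), which share exactly `N`; `y` is the joint, resp. the last vertex of `N`; in total `r + 2`.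
Two dicycles which are not consecutive are disjoint, so the last clause follows by walking along the
other dicycles. -/
theorem nro_ringL {V : Type} {R : V → V → Prop} (hirr : ∀ v, ¬ R v v) (h : PR.NRo R) :
    ∃ n w l y b b', n % 2 = 1 ∧ RingL R n w l y b b' := by
  obtain ⟨ℓ, m, N, a, b, n, P, h3, ho, ha0, hb0, hN, hNi, hab, hbi, hbN, hn1, hends, harc, hint,
    hdis⟩ := PR.NRo.concl h
  obtain ⟨nf, hnf⟩ : ∃ nf : ℕ → ℕ → V, nf = fun j k => if j = 0 then N k else b j := ⟨_, rfl⟩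
  obtain ⟨nm, hnm⟩ : ∃ nm : ℕ → ℕ, nm = fun j => if j = 0 then m else 0 := ⟨_, rfl⟩
  have nf0 : ∀ k, nf 0 k = N k := fun k => by rw [hnf]; simp
  have nfs : ∀ j k, 0 < j → nf j k = b j := fun j k hj => by
    rw [hnf]; simp only [show j ≠ 0 by omega, if_false]
  have nm0 : nm 0 = m := by rw [hnm]; simp
  have nms : ∀ j, 0 < j → nm j = 0 := fun j hj => by
    rw [hnm]; simp only [show j ≠ 0 by omega, if_false]
  have ea : ∀ j, j < ℓ → nf j 0 = a j := by
    intro j hj
    rcases Nat.eq_zero_or_pos j with g | g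
    · subst g; rw [nf0, ha0]
    · rw [nfs j 0 g, hab j g hj]
  have eb : ∀ j, j < ℓ → nf j (nm j) = b j := by
    intro j hj
    rcases Nat.eq_zero_or_pos j with g | g
    · subst g; rw [nm0, nf0, hb0]
    · rw [nfs j _ g]
  have hs : ∀ i, (i + 1) % ℓ < ℓ := fun i => Nat.mod_lt _ (by omega)
  have key : RD R ℓ nf nm P n :=
    { h3 := h3
      narc := by
        intro j hj k hk
        rcases Nat.eq_zero_or_pos j with g | g
        · subst g
          rw [nm0] at hk
          rw [nf0, nf0]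
          exact hN k hk
        · rw [nms j g] at hk
          exact absurd hk (Nat.not_lt_zero _)
      ninj := by
        intro j hj k k' hk hk' he
        rcases Nat.eq_zero_or_pos j with g | g
        · subst g
          rw [nm0] at hk hk'
          rw [nf0, nf0] at he
          exact hNi k k' hk hk' he
        · rw [nms j g] at hk hk'
          omega
      F1 := by
        intro j j' k k' hj hj' hk hk' he
        rcases Nat.eq_zero_or_pos j with g | g
        · rcases Nat.eq_zero_or_pos j' with g' | g'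
          · rw [g, g']
          · subst g
            rw [nm0] at hk
            rw [nf0, nfs j' k' g'] at he
            exact absurd he.symm (hbN j' k g' hj' hk)
        · rcases Nat.eq_zero_or_pos j' with g' | g'
          · subst g'
            rw [nm0] at hk'
            rw [nf0, nfs j k g] at he
            exact absurd he (hbN j k' g hj hk')
          · rw [nfs j k g, nfs j' k' g'] at he
            exact hbi j j' g hj g' hj' he
      n1 := hn1
      e1 := fun i hi => by rw [(hends i hi).1, eb i hi]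
      e2 := fun i hi => by rw [(hends i hi).2.1, ea _ (hs i)]
      e3 := fun i hi => by rw [(hends i hi).2.2.1, eb _ (hs i)]
      e4 := fun i hi => by rw [(hends i hi).2.2.2, ea i hi]
      parc := harc
      F2 := by
        intro i d k j k' hi h0 hk hj hk' he
        obtain ⟨g1, g2⟩ := hint i hi d k h0 hk
        rcases Nat.eq_zero_or_pos j with g | g
        · subst g
          rw [nm0] at hk'
          rw [nf0] at he
          exact g2 k' hk' he
        · rw [nfs j k' g] at he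
          exact g1 j hj he
      F3 := hdis }
  exact ⟨ℓ, _, _, _, _, _, ho, key.ringL⟩

end Pool.Agent.Lib.PLQ
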