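import Mathlib
import Pool.Agent.Lib.PLQ.Basic

set_option autoImplicit false
set_option linter.unusedSectionVars false
set_option linter.unusedVariables false

/-! Module NsA (`Bef` in Defs). -/

namespace Pool.Agent.Lib.PLQ

open Finset Pool.Agent.Lib.NK
open scoped Classical

variable {V D F : Type} [Fintype V] [Fintype D] [Fintype F] {M : PM V D F}

namespace NsAAux

/-- first positive time at which `o'` is reached from `o` -/
theorem first {o o' : D} (hv : M.vt o = M.vt o') :
    ∃ k : ℕ, 0 < k ∧ (M.σ ^ k) o = o' ∧ ∀ i, 0 < i → i < k → (M.σ ^ i) o ≠ o' := by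
  have h : ∃ k : ℕ, 0 < k ∧ (M.σ ^ k) o = o' := by
    obtain ⟨k, h1, _, h2⟩ := ((M.vs o o').mp hv).exists_pow_eq''
    exact ⟨k, h1, h2⟩
  refine ⟨Nat.find h, (Nat.find_spec h).1, (Nat.find_spec h).2, ?_⟩
  intro i hi1 hi2 hi3
  exact Nat.find_min h hi2 ⟨hi1, hi3⟩

/-- a local minimum after an incoming dart -/
theorem minx {o : D} {k i : ℕ} (hik : i ≤ k) (hi : M.out ((M.σ ^ i) o) = false)
    (hk : M.out ((M.σ ^ k) o) = true) :
    ∃ j, i ≤ j ∧ j < k ∧ M.lmin ((M.σ ^ j) o) := by
  induction k with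
  | zero =>
    have : i = 0 := by omega
    subst this
    rw [hi] at hk
    exact absurd hk (by decide)
  | succ k ih =>
    have hne : i ≠ k + 1 := by
      rintro rfl
      rw [hi] at hk
      exact absurd hk (by decide)
    cases hk' : M.out ((M.σ ^ k) o) with
    | false =>
      refine ⟨k, by omega, by omega, hk', ?_⟩
      rw [pow_succ', Equiv.Perm.mul_apply] at hk
      exact hk
    | true =>
      obtain ⟨j, h1, h2, h3⟩ := ih (by omega) hk'
      exact ⟨j, h1, by omega, h3⟩

theorem padd (o : D) (a b : ℕ) : (M.σ ^ (a + b)) o = (M.σ ^ a) ((M.σ ^ b) o) := by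
  rw [pow_add, Equiv.Perm.mul_apply]

end NsAAux

open NsAAux

/-- without a saddle the outgoing darts at a vertex are linearly ordered by `Bef` -/
theorem bef_total (hns : ∀ v, ¬ M.Sad v) (hin : ∀ v, ∃ d, M.vt d = v ∧ M.out d = false)
    {o o' : D} (hv : M.vt o = M.vt o') (ho : M.out o = true) (ho' : M.out o' = true)
    (hne : o ≠ o') : (Bef M o o' ∨ Bef M o' o) ∧ ¬ (Bef M o o' ∧ Bef M o' o) := by
  constructor
  · obtain ⟨k, hk0, hk, hkm⟩ := first hv
    obtain ⟨l, hl0, hl, hlm⟩ := first hv.symm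
    by_contra hcon
    rw [not_or] at hcon
    obtain ⟨h1, h2⟩ := hcon
    have hA : ∃ i, i ≤ k ∧ M.out ((M.σ ^ i) o) = false := by
      by_contra h
      apply h1
      refine ⟨k, hk0, hk.symm, ?_⟩
      intro i hi
      cases hh : M.out ((M.σ ^ i) o) with
      | true => rfl
      | false => exact absurd ⟨i, hi, hh⟩ h
    have hB : ∃ i, i ≤ l ∧ M.out ((M.σ ^ i) o') = false := by
      by_contra h
      apply h2
      refine ⟨l, hl0, hl.symm, ?_⟩
      intro i hi
      cases hh : M.out ((M.σ ^ i) o') with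
      | true => rfl
      | false => exact absurd ⟨i, hi, hh⟩ h
    obtain ⟨i0, hi0, hi0'⟩ := hA
    obtain ⟨j0, hj0, hj0'⟩ := hB
    obtain ⟨i, hi1, hi2, hi3⟩ := minx hi0 hi0' (by rw [hk]; exact ho')
    obtain ⟨j, hj1, hj2, hj3⟩ := minx hj0 hj0' (by rw [hl]; exact ho)
    have heq : (M.σ ^ i) o = (M.σ ^ j) o' := by
      by_contra hd
      exact hns (M.vt o) ⟨_, _, hd, M.vt_pow o i, (M.vt_pow o' j).trans hv.symm, hi3, hj3⟩
    have hd1 : (M.σ ^ (k - i)) ((M.σ ^ i) o) = o' := by
      rw [← padd, Nat.sub_add_cancel hi2.le, hk]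
    have hd2 : (M.σ ^ (l - j)) ((M.σ ^ i) o) = o := by
      rw [heq, ← padd, Nat.sub_add_cancel hj2.le, hl]
    rcases lt_trichotomy (k - i) (l - j) with h | h | h
    · apply hlm (l - j - (k - i)) (by omega) (by omega)
      calc (M.σ ^ (l - j - (k - i))) o'
          = (M.σ ^ (l - j - (k - i))) ((M.σ ^ (k - i)) ((M.σ ^ i) o)) := by rw [hd1]
        _ = (M.σ ^ (l - j)) ((M.σ ^ i) o) := by rw [← padd, Nat.sub_add_cancel h.le]
        _ = o := hd2
    · apply hne
      rw [← hd2, ← h]
      exact hd1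
    · apply hkm (k - i - (l - j)) (by omega) (by omega)
      calc (M.σ ^ (k - i - (l - j))) o
          = (M.σ ^ (k - i - (l - j))) ((M.σ ^ (l - j)) ((M.σ ^ i) o)) := by rw [hd2]
        _ = (M.σ ^ (k - i)) ((M.σ ^ i) o) := by rw [← padd, Nat.sub_add_cancel h.le]
        _ = o' := hd1
  · rintro ⟨⟨k, hk0, hk, hkm⟩, ⟨l, hl0, hl, hlm⟩⟩
    obtain ⟨e, he, he'⟩ := hin (M.vt o)
    obtain ⟨m, hm⟩ := ((M.vs o e).mp he.symm).exists_nat_pow_eq
    have hper : (M.σ ^ (k + l)) o = o := by
      rw [add_comm, padd, ← hk, ← hl]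
    have hred : (M.σ ^ (m % (k + l))) o = e := by
      rw [← hm]
      conv_rhs => rw [← Nat.mod_add_div m (k + l)]
      rw [padd, pow_mul]
      congr 1
      symm
      have hfix : ∀ n : ℕ, ((M.σ ^ (k + l)) ^ n) o = o := by
        intro n
        induction n with
        | zero => rfl
        | succ n ih => rw [pow_succ', Equiv.Perm.mul_apply, ih, hper]
      exact hfix _
    have hlt : m % (k + l) < k + l := Nat.mod_lt _ (by omega)
    by_cases hc : m % (k + l) ≤ k
    · have := hkm _ hc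
      rw [hred, he'] at this
      exact absurd this (by decide)
    · have := hlm (m % (k + l) - k) (by omega)
      rw [hk, ← padd, Nat.sub_add_cancel (by omega), hred, he'] at this
      exact absurd this (by decide)

end Pool.Agent.Lib.PLQ
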