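import Mathlib
import Pool.Agent.Lib.PLQ.OrdC
import Pool.Agent.Lib.PLQ.Grad

set_option autoImplicit false
set_option linter.unusedSectionVars false
set_option linter.unusedVariables false

/-! Module NsQ. -/

namespace Pool.Agent.Lib.PLQ

open Finset Pool.Agent.Lib.NK
open scoped Classical

variable {V D F : Type} [Fintype V] [Fintype D] [Fintype F] {M : PM V D F}

/-- The arcs and the sides of a dicycle given by the list `w :: l` of its vertices: `O` are its outgoing
darts, `q` is constant on the left faces `fc o`, `o ∈ O`.  Proof: the indicator of `{d | O d ∨ O (τ d)}`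
is even at every vertex, so `dgrad` gives `q`.  Left faces of consecutive arcs: at a vertex `v` of the
dicycle only the two darts `o` and `i` (with `O (τ i)`) change `q`; walk from `o` counterclockwise to
`i`: the corners `o, σ o, ..., σ⁻¹ i` have the same `q`, and `fc (σ⁻¹ i) = fc (τ i)`. -/
theorem cyc_q (hG : Good M) {w : V} {l : List V} (hn : (w :: l).Nodup)
    (hc : (w :: (l ++ [w])).IsChain M.R) :
    ∃ (O : D → Prop) (q : F → ZMod 2),
      (∀ d, O d → M.out d = true ∧ [M.vt d, M.vt (M.τ d)] <:+: (w :: (l ++ [w]))) ∧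
      (∀ d, M.out d = true → [M.vt d, M.vt (M.τ d)] <:+: (w :: (l ++ [w])) → O d) ∧
      (∀ v ∈ w :: l, (∃ d, O d ∧ M.vt d = v) ∧ ∃ d, O d ∧ M.vt (M.τ d) = v) ∧
      (∀ d, O d → M.vt d ∈ w :: l ∧ M.vt (M.τ d) ∈ w :: l) ∧
      (∀ d e, O d → O e → M.vt d = M.vt e → d = e) ∧
      (∀ d e, O d → O e → M.vt (M.τ d) = M.vt (M.τ e) → d = e) ∧
      (∀ d, q (M.fc d) + q (M.fc (M.σ⁻¹ d)) = if O d ∨ O (M.τ d) then 1 else 0) ∧
      (∀ d e, O d → O e → q (M.fc d) = q (M.fc e)) := by
  obtain ⟨L, hL⟩ : ∃ L, L = w :: (l ++ [w]) := ⟨_, rfl⟩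
  obtain ⟨n, hn'⟩ : ∃ n, n = (w :: l).length := ⟨_, rfl⟩
  have hlen : L.length = n + 1 := by rw [hL, hn']; simp
  have hn0 : 0 < n := by rw [hn']; simp
  -- the vertices
  obtain ⟨v, hv⟩ : ∃ v : ℕ → V, v = fun i => if h : i < L.length then L[i] else w := ⟨_, rfl⟩
  have hvi : ∀ i (h : i < L.length), v i = L[i] := by
    intro i h
    rw [hv]
    show (if h : i < L.length then L[i] else w) = L[i]
    rw [dif_pos h]
  have hLl : L = (w :: l) ++ [w] := by rw [hL]; rfl
  have hvl : ∀ i (h : i < (w :: l).length), v i = (w :: l)[i] := by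
    intro i h
    have h' : i < L.length := by omega
    rw [hvi i h']
    simp only [hLl]
    rw [List.getElem_append_left h]
  have hvn : v n = w := by
    rw [hvi n (by omega)]
    simp only [hLl]
    rw [List.getElem_append_right (by omega)]
    simp
  have hv0 : v 0 = w := by rw [hvl 0 (by simp)]; rfl
  have hinj : ∀ i j, i < n → j < n → v i = v j → i = j := by
    intro i j hi hj h
    rw [hvl i (by omega), hvl j (by omega)] at h
    exact (List.Nodup.getElem_inj_iff hn).mp h
  have hinj' : ∀ i j, i < n → j < n → v (i + 1) = v (j + 1) → i = j := by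
    have aux : ∀ i j, i < n → j < n → i + 1 < n → v (i + 1) = v (j + 1) → i = j := by
      intro i j hi hj hi1 h
      rcases Nat.lt_or_ge (j + 1) n with h1 | h1
      · have := hinj _ _ hi1 h1 h
        omega
      · have h2 : j + 1 = n := by omega
        rw [h2, hvn, ← hv0] at h
        have := hinj _ _ hi1 hn0 h
        omega
    intro i j hi hj h
    rcases Nat.lt_or_ge (i + 1) n with h1 | h1
    · exact aux i j hi hj h1 h
    · rcases Nat.lt_or_ge (j + 1) n with h2 | h2
      · exact (aux j i hj hi h2 h.symm).symm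
      · omega
  have hmem : ∀ x, x ∈ w :: l → ∃ i, i < n ∧ v i = x := by
    intro x hx
    obtain ⟨i, hi, hx'⟩ := List.getElem_of_mem hx
    exact ⟨i, by omega, by rw [hvl i hi]; exact hx'⟩
  have hvmem : ∀ i, i ≤ n → v i ∈ w :: l := by
    intro i hi
    rcases Nat.lt_or_ge i n with h1 | h1
    · rw [hvl i (by omega)]; exact List.getElem_mem _
    · have : i = n := le_antisymm hi h1
      rw [this, hvn]; simp
  have hR : ∀ i, i < n → M.R (v i) (v (i + 1)) := by
    intro i hi
    rw [hvi i (by omega), hvi (i + 1) (by omega)]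
    rw [← hL] at hc
    exact List.isChain_iff_getElem.mp hc i (by omega)
  have hpair : ∀ i, i < n → [v i, v (i + 1)] <:+: L := by
    intro i hi
    refine ⟨L.take i, L.drop (i + 2), ?_⟩
    rw [hvi i (by omega), hvi (i + 1) (by omega)]
    have e1 : L.drop i = L[i] :: L.drop (i + 1) := List.drop_eq_getElem_cons (by omega)
    have e2 : L.drop (i + 1) = L[i + 1] :: L.drop (i + 2) := List.drop_eq_getElem_cons (by omega)
    calc L.take i ++ [L[i], L[i + 1]] ++ L.drop (i + 2)
        = L.take i ++ (L[i] :: (L[i + 1] :: L.drop (i + 2))) := by simp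
      _ = L := by rw [← e2, ← e1, List.take_append_drop]
  have hpair' : ∀ x y, [x, y] <:+: L → ∃ i, i < n ∧ v i = x ∧ v (i + 1) = y := by
    rintro x y ⟨s, t, hst⟩
    have hl : s.length + 2 + t.length = n + 1 := by
      rw [← hlen, ← hst]; simp; omega
    refine ⟨s.length, by omega, ?_, ?_⟩
    · rw [hvi _ (by omega)]
      simp only [← hst]
      simp
    · rw [hvi _ (by omega)]
      simp only [← hst]
      simp
  have hex : ∀ i, i < n → ∃ d, M.out d = true ∧ M.vt d = v i ∧ M.vt (M.τ d) = v (i + 1) := by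
    intro i hi
    exact hR i hi
  obtain ⟨d0, _⟩ := hex 0 hn0
  obtain ⟨o, ho⟩ : ∃ o : ℕ → D, ∀ i, i < n →
      M.out (o i) = true ∧ M.vt (o i) = v i ∧ M.vt (M.τ (o i)) = v (i + 1) := by
    refine ⟨fun i => if h : i < n then Classical.choose (hex i h) else d0, ?_⟩
    intro i hi
    show M.out (if h : i < n then Classical.choose (hex i h) else d0) = true ∧
      M.vt (if h : i < n then Classical.choose (hex i h) else d0) = v i ∧
      M.vt (M.τ (if h : i < n then Classical.choose (hex i h) else d0)) = v (i + 1)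
    rw [dif_pos hi]
    exact Classical.choose_spec (hex i hi)
  obtain ⟨O, hO⟩ : ∃ O : D → Prop, ∀ d, O d ↔ ∃ i, i < n ∧ d = o i :=
    ⟨fun d => ∃ i, i < n ∧ d = o i, fun d => Iff.rfl⟩
  have Oi : ∀ i, i < n → O (o i) := fun i hi => (hO _).mpr ⟨i, hi, rfl⟩
  have p5 : ∀ d e, O d → O e → M.vt d = M.vt e → d = e := by
    intro d e hd he h
    obtain ⟨i, hi, rfl⟩ := (hO d).mp hd
    obtain ⟨j, hj, rfl⟩ := (hO e).mp he
    rw [(ho i hi).2.1, (ho j hj).2.1] at h
    rw [hinj i j hi hj h]
  have p6 : ∀ d e, O d → O e → M.vt (M.τ d) = M.vt (M.τ e) → d = e := by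
    intro d e hd he h
    obtain ⟨i, hi, rfl⟩ := (hO d).mp hd
    obtain ⟨j, hj, rfl⟩ := (hO e).mp he
    rw [(ho i hi).2.2, (ho j hj).2.2] at h
    rw [hinj' i j hi hj h]
  have p1 : ∀ d, O d → M.out d = true ∧ [M.vt d, M.vt (M.τ d)] <:+: (w :: (l ++ [w])) := by
    intro d hd
    obtain ⟨i, hi, rfl⟩ := (hO d).mp hd
    refine ⟨(ho i hi).1, ?_⟩
    rw [(ho i hi).2.1, (ho i hi).2.2, ← hL]
    exact hpair i hi
  have p2 : ∀ d, M.out d = true → [M.vt d, M.vt (M.τ d)] <:+: (w :: (l ++ [w])) → O d := by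
    intro d hd h
    rw [← hL] at h
    obtain ⟨i, hi, e1, e2⟩ := hpair' _ _ h
    rw [hO]
    refine ⟨i, hi, hG.np d (o i) hd (ho i hi).1 ?_ ?_⟩
    · rw [(ho i hi).2.1, e1]
    · rw [(ho i hi).2.2, e2]
  have p3 : ∀ x ∈ w :: l, (∃ d, O d ∧ M.vt d = x) ∧ ∃ d, O d ∧ M.vt (M.τ d) = x := by
    intro x hx
    obtain ⟨i, hi, hix⟩ := hmem x hx
    refine ⟨⟨o i, Oi i hi, by rw [(ho i hi).2.1, hix]⟩, ?_⟩
    rcases Nat.eq_zero_or_pos i with h | h
    · refine ⟨o (n - 1), Oi _ (by omega), ?_⟩
      rw [(ho (n - 1) (by omega)).2.2, Nat.sub_add_cancel (by omega), hvn, ← hv0, ← h, hix]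
    · refine ⟨o (i - 1), Oi _ (by omega), ?_⟩
      rw [(ho (i - 1) (by omega)).2.2, Nat.sub_add_cancel (by omega), hix]
  have p4 : ∀ d, O d → M.vt d ∈ w :: l ∧ M.vt (M.τ d) ∈ w :: l := by
    intro d hd
    obtain ⟨i, hi, rfl⟩ := (hO d).mp hd
    rw [(ho i hi).2.1, (ho i hi).2.2]
    exact ⟨hvmem i hi.le, hvmem (i + 1) hi⟩
  have hOout : ∀ d, O d → O (M.τ d) → False := by
    intro d h1 h2
    have e1 := (p1 d h1).1
    have e2 := (p1 _ h2).1
    rw [M.ot, e1] at e2
    exact Bool.noConfusion e2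
  -- the potential
  obtain ⟨q, hq⟩ := dgrad M (fun d => if O d ∨ O (M.τ d) then (1 : ZMod 2) else 0)
    (by
      intro d
      show (if O (M.τ d) ∨ O (M.τ (M.τ d)) then (1 : ZMod 2) else 0) = if O d ∨ O (M.τ d) then 1 else 0
      rw [M.tt]
      exact if_congr Or.comm rfl rfl)
    (by
      intro d
      by_cases hd : M.vt d ∈ w :: l
      · obtain ⟨⟨e1, h1, h1'⟩, e2, h2, h2'⟩ := p3 _ hd
        have hne : e1 ≠ M.τ e2 := by
          intro h
          exact hOout e2 h2 (h ▸ h1)
        rw [← sum_filter, filter_filter]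
        have hset : univ.filter (fun e => M.vt e = M.vt d ∧ (O e ∨ O (M.τ e))) = {e1, M.τ e2} := by
          ext e
          simp only [mem_filter, mem_univ, true_and, mem_insert, mem_singleton]
          constructor
          · rintro ⟨h3, h4 | h4⟩
            · left; exact p5 e e1 h4 h1 (h3.trans h1'.symm)
            · right
              have := p6 (M.τ e) e2 h4 h2 (by rw [M.tt]; exact h3.trans h2'.symm)
              rw [← this, M.tt]
          · rintro (h3 | h3)
            · rw [h3]; exact ⟨h1', Or.inl h1⟩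
            · rw [h3]; exact ⟨h2', Or.inr (by rw [M.tt]; exact h2)⟩
        rw [hset, sum_pair hne]
        decide
      · apply sum_eq_zero
        intro e he
        rw [mem_filter] at he
        rw [if_neg]
        rintro (h | h)
        · exact hd (he.2 ▸ (p4 e h).1)
        · have := (p4 _ h).2
          rw [M.tt] at this
          exact hd (he.2 ▸ this))
  have hq' : ∀ d, q (M.fc d) + q (M.fc (M.σ⁻¹ d)) = if O d ∨ O (M.τ d) then 1 else 0 :=
    fun d => (hq d).symm
  refine ⟨O, q, p1, p2, p3, p4, p5, p6, hq', ?_⟩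
  -- consecutive left faces
  have z2 : ∀ a b : ZMod 2, a + b = 0 → a = b := by decide
  have hstep : ∀ d e, O d → O e → M.vt (M.τ d) = M.vt e → q (M.fc e) = q (M.fc d) := by
    intro d e hd he hde
    have hqe : ∃ k, (M.σ ^ k) e = M.τ d := ((M.vs e (M.τ d)).mp hde.symm).exists_nat_pow_eq
    obtain ⟨k, hk, hkm⟩ : ∃ k, (M.σ ^ k) e = M.τ d ∧ ∀ m, m < k → (M.σ ^ m) e ≠ M.τ d :=
      ⟨Nat.find hqe, Nat.find_spec hqe, fun m hm => Nat.find_min hqe hm⟩
    have hk0 : 0 < k := by
      rcases Nat.eq_zero_or_pos k with h | h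
      · exfalso
        rw [h] at hk
        have hk' : e = M.τ d := hk
        exact hOout d hd (hk' ▸ he)
      · exact h
    have hene : ∀ i, 0 < i → i < k → (M.σ ^ i) e ≠ e := by
      intro i hi hik h
      refine hkm (k - i) (by omega) ?_
      calc (M.σ ^ (k - i)) e = (M.σ ^ (k - i)) ((M.σ ^ i) e) := by rw [h]
        _ = (M.σ ^ k) e := by rw [← Equiv.Perm.mul_apply, ← pow_add, Nat.sub_add_cancel hik.le]
        _ = M.τ d := hk
    have hwalk : ∀ m, m < k → q (M.fc ((M.σ ^ m) e)) = q (M.fc e) := by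
      intro m
      induction m with
      | zero => intro _; rfl
      | succ m ih =>
        intro hm
        rw [← ih (by omega)]
        have h1 := hq' ((M.σ ^ (m + 1)) e)
        have h2 : M.σ⁻¹ ((M.σ ^ (m + 1)) e) = (M.σ ^ m) e := by
          rw [pow_succ', Equiv.Perm.mul_apply, perm_ia]
        have hvt : M.vt ((M.σ ^ (m + 1)) e) = M.vt e := M.vt_pow _ _
        rw [h2, if_neg] at h1
        · exact z2 _ _ h1
        · rintro (h3 | h3)
          · exact hene (m + 1) (by omega) hm (p5 _ _ h3 he hvt)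
          · have h4 := p6 _ _ h3 hd (by rw [M.tt, hvt]; exact hde.symm)
            apply hkm (m + 1) hm
            rw [← h4, M.tt]
    have h5 := hwalk (k - 1) (by omega)
    have h6 : M.σ⁻¹ (M.τ d) = (M.σ ^ (k - 1)) e := by
      rw [← hk]
      conv_lhs => rw [show k = (k - 1) + 1 by omega, pow_succ', Equiv.Perm.mul_apply, perm_ia]
    rw [← h5, ← h6, M.fc_ti]
  have h0 : ∀ i, i < n → q (M.fc (o i)) = q (M.fc (o 0)) := by
    intro i
    induction i with
    | zero => intro _; rfl
    | succ i ih =>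
      intro hi
      rw [← ih (by omega)]
      exact hstep (o i) (o (i + 1)) (Oi i (by omega)) (Oi _ hi)
        (by rw [(ho i (by omega)).2.2, (ho _ hi).2.1])
  intro d e hd he
  obtain ⟨i, hi, rfl⟩ := (hO d).mp hd
  obtain ⟨j, hj, rfl⟩ := (hO e).mp he
  rw [h0 i hi, h0 j hj]

end Pool.Agent.Lib.PLQ
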