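import Mathlib
import Pool.Agent.Lib.PLQ.NsQ
import Pool.Agent.Lib.PLQ.NsA

set_option autoImplicit false
set_option linter.unusedSectionVars false
set_option linter.unusedVariables false

/-! Module NsB: sides of a dicycle in a plane digraph without saddles. -/

namespace Pool.Agent.Lib.PLQ

open Finset Pool.Agent.Lib.NK
open scoped Classical

variable {V D F : Type} [Fintype V] [Fintype D] [Fintype F] {M : PM V D F}

namespace NsBAux

theorem z2 {a b : ZMod 2} (h : a + b = 0) : a = b := by
  revert a b
  decide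

theorem z2' {a b c : ZMod 2} (h : a + b = 1) : (a = c ↔ b ≠ c) := by
  revert a b c
  decide

theorem z2'' {a b : ZMod 2} (h : a + b = 1) : a = b + 1 := by
  revert a b
  decide

theorem z2n (a : ZMod 2) : a + 1 ≠ a := by
  revert a
  decide

/-- powers below the first return -/
theorem inj_pow {o : D} {n : ℕ} (hmin : ∀ i, 0 < i → i < n → (M.σ ^ i) o ≠ o) {a b : ℕ}
    (ha : a < n) (hb : b < n) (h : (M.σ ^ a) o = (M.σ ^ b) o) : a = b := by
  have key : ∀ a b : ℕ, a < b → b < n → (M.σ ^ a) o = (M.σ ^ b) o → False := by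
    intro a b hab hb h
    apply hmin (b - a) (by omega) (by omega)
    apply (M.σ ^ a).injective
    rw [← NsAAux.padd, h]
    congr 2
    omega
  rcases lt_trichotomy a b with h1 | h1 | h1
  · exact absurd h (fun h => key a b h1 hb h)
  · exact h1
  · exact absurd h.symm (fun h => key b a h1 ha h)

theorem exists_pow {o e : D} (hv : M.vt o = M.vt e) {n : ℕ} (hn : 0 < n)
    (hper : (M.σ ^ n) o = o) : ∃ m, m < n ∧ (M.σ ^ m) o = e := by
  obtain ⟨m, hm⟩ := ((M.vs o e).mp hv).exists_nat_pow_eq
  refine ⟨m % n, Nat.mod_lt _ hn, ?_⟩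
  rw [← hm]
  conv_rhs => rw [← Nat.mod_add_div m n]
  rw [NsAAux.padd, pow_mul]
  congr 1
  symm
  have hfix : ∀ r : ℕ, ((M.σ ^ n) ^ r) o = o := by
    intro r
    induction r with
    | zero => rfl
    | succ r ih => rw [pow_succ', Equiv.Perm.mul_apply, ih, hper]
  exact hfix _

/-- all corners at a vertex have the same value of `q` if nothing jumps there -/
theorem same_q {q : F → ZMod 2} {v : V}
    (h : ∀ d, M.vt d = v → q (M.fc d) = q (M.fc (M.σ⁻¹ d))) {d e : D} (hd : M.vt d = v)
    (he : M.vt e = v) : q (M.fc d) = q (M.fc e) := by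
  obtain ⟨m, hm⟩ := ((M.vs d e).mp (hd.trans he.symm)).exists_nat_pow_eq
  have key : ∀ m : ℕ, q (M.fc ((M.σ ^ m) d)) = q (M.fc d) := by
    intro m
    induction m with
    | zero => rfl
    | succ m ih =>
      have h1 := h ((M.σ ^ (m + 1)) d) ((M.vt_pow d _).trans hd)
      rw [h1, pow_succ', Equiv.Perm.mul_apply, perm_ia]
      exact ih
  rw [← hm]
  exact (key m).symm

end NsBAux

open NsBAux

/-- The two sides of a dicycle, given by the list `w :: l` of its vertices.  `sd v` says that
`v` (not on the dicycle) is on the left side.  Proof: take `O` and `q` from `cyc_q`.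
At a vertex not on the dicycle all corners have the same `q`; let `sd v` say that the corners at `v` have the `q` of the left faces.
For an outgoing dart `o'` at a vertex `v` of the dicycle, with outgoing dart `o ∈ O` and incoming
dart `i`: `fc o'` is on the left iff `o'` is between `o` and `i` iff `Bef o o'` (no saddle). -/
theorem sides (hG : Good M) (hns : ∀ v, ¬ M.Sad v) {w : V} {l : List V}
    (hn : (w :: l).Nodup) (hc : (w :: (l ++ [w])).IsChain M.R) :
    ∃ sd : V → Prop,
      (∀ a b, a ∉ w :: l → b ∉ w :: l → M.R a b → (sd a ↔ sd b)) ∧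
      ∀ o o', M.out o = true → M.out o' = true → M.vt o = M.vt o' →
        [M.vt o, M.vt (M.τ o)] <:+: (w :: (l ++ [w])) → M.vt (M.τ o') ∉ w :: l →
        (sd (M.vt (M.τ o')) ↔ Bef M o o') := by
  obtain ⟨O, q, hO1, hO2, hO3, hO4, hO5, hO6, hq, hl⟩ := cyc_q hG hn hc
  obtain ⟨⟨o0, ho0, -⟩, -⟩ := hO3 w (by simp)
  set c1 : ZMod 2 := q (M.fc o0) with hc1
  have hleft : ∀ d, O d → q (M.fc d) = c1 := fun d hd => hl d o0 hd ho0
  -- no jump at a dart whose arc is not on the dicycle
  have hnj : ∀ d, ¬ O d → ¬ O (M.τ d) → q (M.fc d) = q (M.fc (M.σ⁻¹ d)) := by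
    intro d h1 h2
    have h3 := hq d
    rw [if_neg (not_or.2 ⟨h1, h2⟩)] at h3
    exact z2 h3
  have hOv : ∀ d, M.vt d ∉ w :: l → ¬ O d ∧ ¬ O (M.τ d) := by
    intro d hd
    refine ⟨fun h => hd (hO4 d h).1, fun h => hd ?_⟩
    have := (hO4 _ h).2
    rwa [M.tt] at this
  have hoff : ∀ v, v ∉ w :: l → ∀ d, M.vt d = v → q (M.fc d) = q (M.fc (M.σ⁻¹ d)) := by
    intro v hv d hd
    obtain ⟨h1, h2⟩ := hOv d (by rw [hd]; exact hv)
    exact hnj d h1 h2
  have hsd : ∀ v, v ∉ w :: l → ∀ d, M.vt d = v →
      ((∀ e, M.vt e = v → q (M.fc e) = c1) ↔ q (M.fc d) = c1) := by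
    intro v hv d hd
    constructor
    · intro h
      exact h d hd
    · intro h e he
      rw [same_q (hoff v hv) he hd]
      exact h
  refine ⟨fun v => ∀ e, M.vt e = v → q (M.fc e) = c1, ?_, ?_⟩
  · rintro a b ha hb ⟨d, -, hda, hdb⟩
    change (∀ e, M.vt e = a → q (M.fc e) = c1) ↔ (∀ e, M.vt e = b → q (M.fc e) = c1)
    rw [hsd a ha d hda, hsd b hb (M.τ d) hdb, M.fc_tau, ← hoff a ha d hda]
  · intro o o' ho ho' hvt hin hnot
    change (∀ e, M.vt e = M.vt (M.τ o') → q (M.fc e) = c1) ↔ Bef M o o'
    rw [hsd _ hnot (M.τ o') rfl]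
    have hOo : O o := hO2 o ho hin
    have hOτ : ∀ d, O d → M.out (M.τ d) = false := by
      intro d hd
      rw [M.ot, (hO1 d hd).1]
      rfl
    have hno' : ¬ O o' := fun h => hnot (hO4 o' h).2
    have hnτo' : ¬ O (M.τ o') := by
      intro h
      have h1 := (hO1 _ h).1
      rw [M.ot, ho'] at h1
      exact absurd h1 (by decide)
    rw [M.fc_tau, ← hnj o' hno' hnτo']
    -- the incoming dart of the dicycle
    obtain ⟨-, j, hj, hjv⟩ := hO3 (M.vt o) (hO4 o hOo).1
    set i := M.τ j with hi
    have hiout : M.out i = false := hOτ j hj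
    obtain ⟨n, hn0, hper, hmin⟩ := NsAAux.first (M := M) (o := o) (o' := o) rfl
    obtain ⟨k, hkn, hk⟩ := exists_pow hvt hn0 hper
    obtain ⟨m, hmn, hm⟩ := exists_pow (show M.vt o = M.vt i from hjv.symm) hn0 hper
    have hk0 : 0 < k := by
      rcases Nat.eq_zero_or_pos k with h | h
      · subst h
        exfalso
        apply hno'
        rw [← hk]
        exact hOo
      · exact h
    have hm0 : 0 < m := by
      rcases Nat.eq_zero_or_pos m with h | h
      · subst h
        exfalso
        have h1 : o = i := hm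
        rw [← h1, ho] at hiout
        exact absurd hiout (by decide)
      · exact h
    have hkm : k ≠ m := by
      rintro rfl
      rw [hk] at hm
      rw [← hm, ho'] at hiout
      exact absurd hiout (by decide)
    -- the values of `q` around the vertex
    have hval : ∀ r, r < n → q (M.fc ((M.σ ^ r) o)) = if r < m then c1 else c1 + 1 := by
      intro r
      induction r with
      | zero =>
        intro _
        rw [if_pos hm0]
        exact hleft o hOo
      | succ r ih =>
        intro hr
        have h1 := ih (by omega)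
        have h2 := hq ((M.σ ^ (r + 1)) o)
        have h3 : M.σ⁻¹ ((M.σ ^ (r + 1)) o) = (M.σ ^ r) o := by
          rw [pow_succ', Equiv.Perm.mul_apply, perm_ia]
        rw [h3] at h2
        have h4 : ¬ O ((M.σ ^ (r + 1)) o) := by
          intro h
          exact hmin (r + 1) (by omega) hr (hO5 _ _ h hOo (M.vt_pow o _))
        by_cases hrm : r + 1 = m
        · have h5 : O (M.τ ((M.σ ^ (r + 1)) o)) := by
            rw [hrm, hm, hi, M.tt]
            exact hj
          rw [if_pos (Or.inr h5)] at h2
          rw [if_neg (by omega)]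
          rw [if_pos (by omega)] at h1
          rw [h1] at h2
          exact z2'' h2
        · have h5 : ¬ O (M.τ ((M.σ ^ (r + 1)) o)) := by
            intro h
            have h6 : M.vt (M.τ (M.τ ((M.σ ^ (r + 1)) o))) = M.vt (M.τ j) := by
              rw [M.tt, M.vt_pow, hjv]
            have h7 := hO6 _ _ h hj h6
            have h8 : (M.σ ^ (r + 1)) o = (M.σ ^ m) o := by
              rw [hm, hi, ← h7, M.tt]
            exact hrm (inj_pow hmin hr hmn h8)
          rw [if_neg (not_or.2 ⟨h4, h5⟩)] at h2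
          rw [z2 h2, h1]
          by_cases h9 : r < m
          · rw [if_pos h9, if_pos (by omega)]
          · rw [if_neg h9, if_neg (by omega)]
    have h1 : q (M.fc o') = c1 ↔ k < m := by
      rw [← hk, hval k hkn]
      by_cases h : k < m
      · rw [if_pos h]
        exact ⟨fun _ => h, fun _ => rfl⟩
      · rw [if_neg h]
        exact ⟨fun h2 => absurd h2 (z2n c1), fun h2 => absurd h2 h⟩
    rw [h1]
    constructor
    · intro hlt
      refine ⟨k, hk0, hk.symm, ?_⟩
      intro r hr
      cases hrr : M.out ((M.σ ^ r) o) with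
      | true => rfl
      | false =>
        exfalso
        obtain ⟨a, ha1, ha2, ha3⟩ := NsAAux.minx hr hrr (by rw [hk]; exact ho')
        obtain ⟨b, hb1, hb2, hb3⟩ := NsAAux.minx hmn.le (by rw [hm]; exact hiout)
          (by rw [hper]; exact ho)
        refine hns (M.vt o) ⟨(M.σ ^ a) o, (M.σ ^ b) o, ?_, M.vt_pow o a, M.vt_pow o b, ha3, hb3⟩
        intro h
        have := inj_pow hmin (by omega) hb2 h
        omega
    · rintro ⟨k', hk'0, hk', hall⟩
      by_contra hlt
      have h2 : k ≤ k' := by
        by_contra h3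
        have := inj_pow hmin hkn (show k' < n by omega) (hk.trans hk')
        omega
      have h3 := hall m (by omega)
      rw [hm, hiout] at h3
      exact absurd h3 (by decide)

end Pool.Agent.Lib.PLQ
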