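import Mathlib
import Pool.Agent.Lib.PLQ.NsB

set_option autoImplicit false
set_option linter.unusedSectionVars false
set_option linter.unusedVariables false

/-! Module NsD (`RingL` in Defs). -/

namespace Pool.Agent.Lib.PLQ

open Finset Pool.Agent.Lib.NK
open scoped Classical

variable {V D F : Type} [Fintype V] [Fintype D] [Fintype F] {M : PM V D F}

namespace NsDAux

theorem exists_in (hG : Good M) (v : V) : ∃ d, M.vt d = v ∧ M.out d = false := by
  obtain ⟨hc, h⟩ := hG.ts
  obtain ⟨a, ha⟩ : ∃ a : V, a ≠ v := by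
    by_contra hcon
    push Not at hcon
    have h1 : (univ : Finset V) ⊆ {v} := fun x _ => mem_singleton.2 (hcon x)
    have h2 := card_le_card h1
    rw [card_singleton] at h2
    omega
  obtain ⟨z, hz, hz'⟩ : ∃ z : V, z ≠ v ∧ z ≠ a := by
    by_contra hcon
    push Not at hcon
    have h1 : (univ : Finset V) ⊆ {v, a} := fun x _ => by
      rw [mem_insert, mem_singleton]
      by_cases hx : x = v
      · exact Or.inl hx
      · exact Or.inr (hcon x hx)
    have h2 := (card_le_card h1).trans card_le_two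
    omega
  have h1 := h z (mem_univ _) a (mem_erase.2 ⟨hz'.symm, mem_univ _⟩) v (mem_erase.2 ⟨hz.symm, mem_univ _⟩)
  have key : a = v ∨ ∃ p, M.R p v := by
    refine Rc.induct (p := fun b => a = b ∨ ∃ p, M.R p b) (fun _ => Or.inl rfl) ?_ h1
    intro p q _ _ hpq _
    exact Or.inr ⟨p, hpq⟩
  obtain ⟨p, d, hd, -, hdv⟩ := key.resolve_left ha
  exact ⟨M.τ d, hdv, by rw [M.ot, hd]; rfl⟩

theorem sub_rel {R : V → V → Prop} {l : List V} {a b : V} (h : l.IsChain R) (hi : [a, b] <:+: l) : R a b := by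
  obtain ⟨s, t, rfl⟩ := hi
  have h1 : [a, b].IsChain R := h.left_of_append.right_of_append
  simpa using h1

theorem sub_mem {w : V} {l : List V} {a b : V} (hi : [a, b] <:+: (w :: (l ++ [w]))) : b ∈ w :: l := by
  have h1 : b ∈ w :: (l ++ [w]) := hi.subset (by simp)
  simp only [List.mem_cons, List.mem_append, List.not_mem_nil, or_false] at h1 ⊢
  tauto

theorem parity {n : ℕ} (hn : 3 ≤ n) {t : ℕ → Prop} (h : ∀ i, i < n → (t i ↔ ¬ t ((i + n - 1) % n))) : n % 2 = 0 := by
  have h1 : ∀ i, i + 1 < n → (t (i + 1) ↔ ¬ t i) := by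
    intro i hi
    have h2 := h (i + 1) hi
    have h3 : (i + 1 + n - 1) % n = i := by
      rw [show i + 1 + n - 1 = i + n by omega, Nat.add_mod_right, Nat.mod_eq_of_lt (by omega)]
    rwa [h3] at h2
  have h4 : ∀ i, i < n → (t i ↔ (i % 2 = 0 ↔ t 0)) := by
    intro i
    induction i with
    | zero => intro _; simp
    | succ i ih =>
      intro hi
      rw [h1 i hi, ih (by omega)]
      have h5 : (i + 1) % 2 = 0 ↔ ¬ i % 2 = 0 := by omega
      rw [h5]
      tauto
  have h6 := h 0 (by omega)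
  rw [show 0 + n - 1 = n - 1 by omega, Nat.mod_eq_of_lt (by omega), h4 (n - 1) (by omega)] at h6
  by_contra hcon
  have h7 : (n - 1) % 2 = 0 := by omega
  rw [h7] at h6
  tauto

end NsDAux

open NsDAux in
/-- Let `t i` say that `b' i` is left of the dicycle `i` (`sides`).  With `o` the dart from `y i` to
`b i` and `o'` the dart from `y i` to `b' i`: `t i ↔ Bef o o'`, and `b i` is left of the dicycle `i+1` iff
`Bef o' o`; by the connectivity clause this is `t (i+1)`.  By `bef_total`, `t (i+1) ↔ ¬ t i`. -/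
theorem ringL_even (hG : Good M) (hns : ∀ v, ¬ M.Sad v) {n : ℕ} {w : ℕ → V} {l : ℕ → List V}
    {y b b' : ℕ → V} (h : RingL M.R n w l y b b') : n % 2 = 0 := by
  obtain ⟨hn, hcyc, hat, hcon⟩ := h
  have hmod : ∀ i, (i + 1) % n < n := fun i => Nat.mod_lt _ (by omega)
  -- darts
  have ho : ∀ i, ∃ o o' : D, i < n → M.out o = true ∧ M.vt o = y i ∧ M.vt (M.τ o) = b i ∧
      M.out o' = true ∧ M.vt o' = y i ∧ M.vt (M.τ o') = b' i := by
    intro i
    by_cases hi : i < n
    · obtain ⟨o, h1, h2, h3⟩ := sub_rel (hcyc i hi).2 (hat i hi).1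
      obtain ⟨o', h4, h5, h6⟩ := sub_rel (hcyc _ (hmod i)).2 (hat i hi).2.1
      exact ⟨o, o', fun _ => ⟨h1, h2, h3, h4, h5, h6⟩⟩
    · obtain ⟨o, -⟩ := M.vsur (y 0)
      exact ⟨o, o, fun h => absurd h hi⟩
  choose o o' ho using ho
  have hsd : ∀ i, ∃ sd : V → Prop, i < n →
      (∀ a b, a ∉ w i :: l i → b ∉ w i :: l i → M.R a b → (sd a ↔ sd b)) ∧
      ∀ o o', M.out o = true → M.out o' = true → M.vt o = M.vt o' →
        [M.vt o, M.vt (M.τ o)] <:+: (w i :: (l i ++ [w i])) → M.vt (M.τ o') ∉ w i :: l i →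
        (sd (M.vt (M.τ o')) ↔ Bef M o o') := by
    intro i
    by_cases hi : i < n
    · obtain ⟨sd, h1⟩ := sides hG hns (hcyc i hi).1 (hcyc i hi).2
      exact ⟨sd, fun _ => h1⟩
    · exact ⟨fun _ => True, fun h => absurd h hi⟩
  choose sd hsd using hsd
  refine parity (t := fun i => Bef M (o i) (o' i)) hn fun i hi => ?_
  set j := (i + n - 1) % n with hj
  have hjn : j < n := Nat.mod_lt _ (by omega)
  have hji : (j + 1) % n = i := by
    by_cases h0 : i = 0
    · subst h0
      rw [hj, show 0 + n - 1 = n - 1 by omega, Nat.mod_eq_of_lt (show n - 1 < n by omega), Nat.sub_add_cancel (by omega),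
        Nat.mod_self]
    · rw [hj, show i + n - 1 = (i - 1) + n by omega, Nat.add_mod_right, Nat.mod_eq_of_lt (show i - 1 < n by omega),
        Nat.sub_add_cancel (by omega), Nat.mod_eq_of_lt hi]
  obtain ⟨a1, a2, a3, a4, a5, a6⟩ := ho i hi
  obtain ⟨c1, c2, c3, c4, c5, c6⟩ := ho j hjn
  obtain ⟨s1, s2⟩ := hsd i hi
  have hi' := hat i hi
  have hj' := hat j hjn
  rw [hji] at hj'
  -- `t i`
  have e1 : sd i (b' i) ↔ Bef M (o i) (o' i) := by
    have := s2 (o i) (o' i) a1 a4 (a2.trans a5.symm) (by rw [a2, a3]; exact hi'.1) (by rw [a6]; exact hi'.2.2.2)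
    rwa [a6] at this
  have e2 : sd i (b j) ↔ Bef M (o' j) (o j) := by
    have := s2 (o' j) (o j) c4 c1 (c5.trans c2.symm) (by rw [c5, c6]; exact hj'.2.1) (by rw [c3]; exact hj'.2.2.1)
    rwa [c3] at this
  have e3 : sd i (b' i) ↔ sd i (b j) := by
    have h1 := hcon i hi
    rw [← hj] at h1
    have h2 : ∀ q, Relation.ReflTransGen (fun p q => (M.R p q ∨ M.R q p) ∧ q ∉ w i :: l i) (b' i) q →
        q ∉ w i :: l i ∧ (sd i (b' i) ↔ sd i q) := by
      intro q hq
      induction hq with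
      | refl => exact ⟨hi'.2.2.2, Iff.rfl⟩
      | tail _ hpq ih =>
        refine ⟨hpq.2, ih.2.trans ?_⟩
        rcases hpq.1 with h | h
        · exact s1 _ _ ih.1 hpq.2 h
        · exact (s1 _ _ hpq.2 ih.1 h).symm
    exact (h2 _ h1).2
  have hne : o j ≠ o' j := by
    intro he
    have h1 : b j = b' j := by rw [← c3, ← c6, he]
    exact hj'.2.2.1 (h1 ▸ sub_mem hj'.2.1)
  have h8 := bef_total (M := M) hns (exists_in hG) (c2.trans c5.symm) c1 c4 hne
  show Bef M (o i) (o' i) ↔ ¬ Bef M (o j) (o' j)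
  rw [← e1, e3, e2]
  tauto

end Pool.Agent.Lib.PLQ
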