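import Mathlib
import Pool.Agent.Lib.PLQ.NsC
import Pool.Agent.Lib.PLQ.NsD

set_option autoImplicit false
set_option linter.unusedSectionVars false
set_option linter.unusedVariables false

/-! Module NoSad: a plane digraph without saddles has no odd ring with a neck. -/

namespace Pool.Agent.Lib.PLQ

open Finset Pool.Agent.Lib.NK
open scoped Classical

variable {V D F : Type} [Fintype V] [Fintype D] [Fintype F] {M : PM V D F}

theorem no_NRo (hG : Good M) (hns : ∀ v, ¬ M.Sad v) : ¬ PR.NRo M.R := by
  intro h
  obtain ⟨n, w, l, y, b, b', h1, h2⟩ := nro_ringL (fun v hv => by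
    obtain ⟨d, _, h3, h4⟩ := hv
    exact hG.nl d (h4.trans h3.symm)) h
  have := ringL_even hG hns h2
  omega

end Pool.Agent.Lib.PLQ
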