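import Mathlib
import Pool.Agent.Lib.PLQ.Basic

set_option autoImplicit false
set_option linter.unusedSectionVars false
set_option linter.unusedVariables false

/-! Module TsA. -/

namespace Pool.Agent.Lib.PLQ

open Finset Pool.Agent.Lib.NK
open scoped Classical

variable {V : Type} [Fintype V]

namespace TsAAux

/-- chains inside a set not containing both ends of the digon, or a distinguished link -/
theorem ch_split {R R' : V → V → Prop} {g h : V} (hgh : g ≠ h)
    (hR : ∀ a b, R' a b → R a b ∨ (a = g ∧ b = h) ∨ (a = h ∧ b = g))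
    {r : ℕ} {a t : V} {S : Finset V} (hc : Ch R' r a t S) :
    Ch R r a t S ∨ ∃ r1 r2 a1 a2 S1 E S2, Ch R r1 a a1 S1 ∧ Link R' E a1 a2 ∧ g ∈ E ∧ h ∈ E ∧
      Ch R r2 a2 t S2 ∧ r = r1 + 1 + r2 ∧ S = S1 ∪ (E ∪ S2) ∧ (∀ x ∈ S1, x ∈ E ∪ S2 → x = a1) ∧
      (∀ x ∈ E, x ∈ S2 → x = a2) := by
  have key : ∀ X : Finset V, ¬ (g ∈ X ∧ h ∈ X) → ∀ a ∈ X, ∀ b ∈ X, R' a b → R a b := by
    intro X hX a ha b hb hab
    rcases hR a b hab with h1 | ⟨h1, h2⟩ | ⟨h1, h2⟩
    · exact h1
    · subst h1; subst h2; exact absurd ⟨ha, hb⟩ hX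
    · subst h1; subst h2; exact absurd ⟨hb, ha⟩ hX
  induction hc with
  | nil a => exact Or.inl (Ch.nil a)
  | @cons r a m t E S h1 h2 h3 ih =>
    by_cases hE : g ∈ E ∧ h ∈ E
    · have hS : Ch R r m t S :=
        h2.change (key S (fun hgS => hgh ((h3 g hE.1 hgS.1).trans (h3 h hE.2 hgS.2).symm)))
      right
      refine ⟨0, r, a, m, {a}, E, S, Ch.nil a, h1, hE.1, hE.2, hS, by omega, ?_, ?_, h3⟩
      · symm
        rw [union_eq_right, singleton_subset_iff]; exact mem_union_left _ h1.left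
      · intro x hx _; simpa using hx
    · have hl : Link R E a m := h1.change (key E hE)
      rcases ih with ih | ⟨r1, r2, a1, a2, S1, E', S2, g1, g2, g3, g4, g5, g6, g7, g8, g9⟩
      · exact Or.inl (Ch.cons hl ih h3)
      · right
        refine ⟨r1 + 1, r2, a1, a2, E ∪ S1, E', S2, ?_, g2, g3, g4, g5, by omega, ?_, ?_, g9⟩
        · exact Ch.cons hl g1 (fun x hx hx' => h3 x hx (by rw [g7]; exact mem_union_left _ hx'))
        · rw [g7, union_assoc]
        · intro x hx hx'
          rcases mem_union.mp hx with hx | hx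
          · have h4 : x = m := h3 x hx (by rw [g7]; exact mem_union_right _ hx')
            subst h4
            exact g8 x g1.left hx'
          · exact g8 x hx hx'

theorem rc_lift {R R' : V → V → Prop} {g h : V} {S2 : Finset V}
    (hR : ∀ a b, R' a b → R a b ∨ (a = g ∧ b = h) ∨ (a = h ∧ b = g))
    (h1 : Rc R S2 g h) (h2 : Rc R S2 h g) {X : Finset V} {a b : V} (hr : Rc R' X a b) :
    Rc R (X ∪ S2) a b := by
  refine Rc.induct (p := fun v => Rc R (X ∪ S2) a v) (fun hu => Rc.rfl' (mem_union_left _ hu)) ?_ hr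
  intro p q hup ih hpq hq
  rcases hR p q hpq with h3 | ⟨rfl, rfl⟩ | ⟨rfl, rfl⟩
  · exact ih.tail h3 (mem_union_left _ hq)
  · exact ih.trans (h1.mono subset_union_right)
  · exact ih.trans (h2.mono subset_union_right)

/-- the closing link contains the digon -/
theorem close {R R' : V → V → Prop} {S1 S2 : Finset V} {g h : V} (hgh : g ≠ h)
    (h12 : ∀ x, x ∈ S1 → x ∈ S2 → x = g ∨ x = h)
    (hR : ∀ a b, R' a b → R a b ∨ (a = g ∧ b = h) ∨ (a = h ∧ b = g))
    (hL : Link R S2 g h) {r : ℕ} {a t : V} {S T : Finset V} (hr : 2 ≤ r) (hc : Ch R r a t S)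
    (hl : Link R' T t a) (hST : ∀ x ∈ S, x ∈ T → x = a ∨ x = t) (hg : g ∈ T) (hh : h ∈ T)
    (hS : S ⊆ S1) (hT : T ⊆ S1) : Neck R := by
  have key : ∀ X : Finset V, ¬ (g ∈ X ∧ h ∈ X) → ∀ {a b : V}, Rc R' X a b → Rc R X a b := by
    intro X hX a b hab
    refine hab.change (Subset.refl _) ?_
    intro a ha b hb hab
    rcases hR a b hab with h1 | ⟨h1, h2⟩ | ⟨h1, h2⟩
    · exact h1
    · subst h1; subst h2; exact absurd ⟨ha, hb⟩ hX
    · subst h1; subst h2; exact absurd ⟨hb, ha⟩ hX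
  have hlast : ∀ x ∈ S, x ∈ T ∪ S2 → x = a ∨ x = t := by
    intro x hx hx'
    rcases mem_union.mp hx' with hx' | hx'
    · exact hST x hx hx'
    · rcases h12 x (hS hx) hx' with h1 | h1
      · exact hST x hx (h1 ▸ hg)
      · exact hST x hx (h1 ▸ hh)
  suffices hs : Link R (T ∪ S2) t a from ⟨r, a, t, S, T ∪ S2, hr, hc, hs, hlast⟩
  by_cases hd : (t = g ∧ a = h) ∨ (t = h ∧ a = g)
  · rcases hd with ⟨rfl, rfl⟩ | ⟨rfl, rfl⟩
    · exact hL.mono subset_union_right
    · exact hL.symm.mono subset_union_right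
  obtain ⟨h0, P, Q, p1, p2, p3, p4, p5⟩ := hl
  by_cases hP : g ∈ P ∧ h ∈ P
  · have hQ : ¬ (g ∈ Q ∧ h ∈ Q) := by
      rintro ⟨q1, q2⟩
      rcases p3 g hP.1 q1 with h3 | h3 <;> rcases p3 h hP.2 q2 with h4 | h4
      · exact hgh (h3.trans h4.symm)
      · exact hd (Or.inl ⟨h3.symm, h4.symm⟩)
      · exact hd (Or.inr ⟨h4.symm, h3.symm⟩)
      · exact hgh (h3.trans h4.symm)
    refine ⟨h0, P ∪ S2, Q, rc_lift hR hL.rc hL.symm.rc p1, key Q hQ p2, ?_,
      union_subset_union p4 (Subset.refl _), p5.trans subset_union_left⟩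
    intro x hx hx'
    rcases mem_union.mp hx with hx | hx
    · exact p3 x hx hx'
    · rcases h12 x (hT (p5 hx')) hx with h3 | h3
      · exact p3 x (h3 ▸ hP.1) hx'
      · exact p3 x (h3 ▸ hP.2) hx'
  · by_cases hQ : g ∈ Q ∧ h ∈ Q
    · refine ⟨h0, P, Q ∪ S2, key P hP p1, rc_lift hR hL.rc hL.symm.rc p2, ?_,
        p4.trans subset_union_left, union_subset_union p5 (Subset.refl _)⟩
      intro x hx hx'
      rcases mem_union.mp hx' with hx' | hx'
      · exact p3 x hx hx'
      · rcases h12 x (hT (p4 hx)) hx' with h3 | h3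
        · exact p3 x hx (h3 ▸ hQ.1)
        · exact p3 x hx (h3 ▸ hQ.2)
    · exact ⟨h0, P, Q, key P hP p1, key Q hQ p2, p3, p4.trans subset_union_left,
        p5.trans subset_union_left⟩

end TsAAux

/-- a ring which uses arcs of the digon `gh` can be rerouted through the other side -/
theorem neck_lift {R R' : V → V → Prop} {S1 S2 : Finset V} {g h : V} (hgh : g ≠ h)
    (h1 : g ∈ S1) (h2 : h ∈ S1) (h12 : ∀ x, x ∈ S1 → x ∈ S2 → x = g ∨ x = h)
    (hR : ∀ a b, R' a b → (R a b ∧ a ∈ S1 ∧ b ∈ S1) ∨ (a = g ∧ b = h) ∨ (a = h ∧ b = g))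
    (hL : Link R S2 g h) (hN : Neck R') : Neck R := by
  have hdom : ∀ a b, R' a b → a ∈ S1 ∧ b ∈ S1 := by
    intro a b hab
    rcases hR a b hab with ⟨_, h3⟩ | ⟨rfl, rfl⟩ | ⟨rfl, rfl⟩
    · exact h3
    · exact ⟨h1, h2⟩
    · exact ⟨h2, h1⟩
  have hR1 : ∀ a b, R' a b → R a b ∨ (a = g ∧ b = h) ∨ (a = h ∧ b = g) := by
    intro a b hab
    rcases hR a b hab with ⟨h3, _⟩ | h3
    · exact Or.inl h3
    · exact Or.inr h3
  have key : ∀ X : Finset V, ¬ (g ∈ X ∧ h ∈ X) → ∀ a ∈ X, ∀ b ∈ X, R' a b → R a b := by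
    intro X hX a ha b hb hab
    rcases hR1 a b hab with e1 | ⟨e1, e2⟩ | ⟨e1, e2⟩
    · exact e1
    · exact absurd ⟨e1 ▸ ha, e2 ▸ hb⟩ hX
    · exact absurd ⟨e2 ▸ hb, e1 ▸ ha⟩ hX
  obtain ⟨a, t, S, T, ⟨r, hr, hc, hl, hST⟩, hS, hT⟩ := hN.ringDom hdom
  rcases TsAAux.ch_split hgh hR1 hc with hc' | ⟨r1, r2, a1, a2, X, E, Y, g1, g2, g3, g4, g5, g6, g7, g8, g9⟩
  · by_cases hT' : g ∈ T ∧ h ∈ T
    · exact TsAAux.close hgh h12 hR1 hL hr hc' hl hST hT'.1 hT'.2 hS hT
    · exact ⟨r, a, t, S, T, hr, hc', hl.change (key T hT'), hST⟩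
  · subst g7
    have hT' : ¬ (g ∈ T ∧ h ∈ T) := by
      rintro ⟨q1, q2⟩
      have hat : a ∈ E ∧ t ∈ E := by
        rcases hST g (mem_union_right _ (mem_union_left _ g3)) q1 with h3 | h3 <;>
          rcases hST h (mem_union_right _ (mem_union_left _ g4)) q2 with h4 | h4
        · exact absurd (h3.trans h4.symm) hgh
        · exact ⟨h3 ▸ g3, h4 ▸ g4⟩
        · exact ⟨h4 ▸ g4, h3 ▸ g3⟩
        · exact absurd (h3.trans h4.symm) hgh
      have e1 : a = a1 := g8 a g1.left (mem_union_left _ hat.1)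
      have e2 : t = a2 := g9 t hat.2 g5.right
      have e3 : r1 = 0 := by
        by_contra h3
        exact g1.ne (by omega) e1
      have e4 : r2 = 0 := by
        by_contra h3
        exact g5.ne (by omega) e2.symm
      omega
    have hl' : Link R T t a := hl.change (key T hT')
    have c1 : Ch R (1 + r1) t a1 (T ∪ X) := by
      have h5 : Ch R 1 t a (T ∪ {a}) := Ch.cons hl' (Ch.nil a) (by intro x _ hx; simpa using hx)
      have h6 : T ∪ {a} = T := by
        rw [union_eq_left, singleton_subset_iff]; exact hl.right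
      rw [h6] at h5
      refine h5.append g1 ?_
      intro x hx hx'
      rcases hST x (mem_union_left _ hx') hx with h7 | h7
      · exact h7
      · subst h7
        have h8 : x = a1 := g8 x hx' (mem_union_right _ g5.right)
        subst h8
        exact absurd (g9 x g2.left g5.right) g2.ne
    have c2 : Ch R (r2 + (1 + r1)) a2 a1 (Y ∪ (T ∪ X)) := by
      refine g5.append c1 ?_
      intro x hx hx'
      rcases mem_union.mp hx' with hx' | hx'
      · rcases hST x (mem_union_right _ (mem_union_right _ hx)) hx' with h7 | h7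
        · subst h7
          have h8 : x = a1 := g8 x g1.left (mem_union_right _ hx)
          subst h8
          exact absurd (g9 x g2.left hx) g2.ne
        · exact h7
      · have h8 : x = a1 := g8 x hx' (mem_union_right _ hx)
        subst h8
        exact absurd (g9 x g2.left hx) g2.ne
    refine TsAAux.close hgh h12 hR1 hL (r := r2 + (1 + r1)) (by omega) c2 g2 ?_ g3 g4 ?_ ?_
    · intro x hx hxE
      rcases mem_union.mp hx with hx | hx
      · exact Or.inl (g9 x hxE hx)
      rcases mem_union.mp hx with hx | hx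
      · rcases hST x (mem_union_right _ (mem_union_left _ hxE)) hx with h7 | h7
        · subst h7
          exact Or.inr (g8 x g1.left (mem_union_left _ hxE))
        · subst h7
          exact Or.inl (g9 x hxE g5.right)
      · exact Or.inr (g8 x hx (mem_union_left _ hxE))
    · intro x hx
      rcases mem_union.mp hx with hx | hx
      · exact hS (mem_union_right _ (mem_union_right _ hx))
      rcases mem_union.mp hx with hx | hx
      · exact hT hx
      · exact hS (mem_union_left _ hx)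
    · intro x hx
      exact hS (mem_union_right _ (mem_union_left _ hx))

end Pool.Agent.Lib.PLQ
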