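import Mathlib
import Pool.Agent.Lib.PLQ.OpsA

set_option autoImplicit false
set_option linter.unusedSectionVars false
set_option linter.unusedVariables false

/-! Module OpsC: contraction of an edge. -/

namespace Pool.Agent.Lib.PLQ

open Finset Pool.Agent.Lib.NK
open scoped Classical

namespace OpsCAux

variable {D : Type}

/-- skipping `d` -/
noncomputable def skp (π : Equiv.Perm D) (d : D) : Equiv.Perm D := Equiv.swap d (π d) * π

theorem skp_self (π : Equiv.Perm D) (d : D) : skp π d d = d := by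
  unfold skp
  rw [Equiv.Perm.mul_apply, Equiv.swap_apply_right]

theorem skp_pre (π : Equiv.Perm D) (d x : D) (h : π x = d) : skp π d x = π d := by
  unfold skp
  rw [Equiv.Perm.mul_apply, h, Equiv.swap_apply_left]

theorem skp_of (π : Equiv.Perm D) (d x : D) (h1 : x ≠ d) (h2 : π x ≠ d) : skp π d x = π x := by
  unfold skp
  rw [Equiv.Perm.mul_apply, Equiv.swap_apply_of_ne_of_ne h2 (fun h => h1 (π.injective h))]

theorem CJ_skp {K : Type} [Field K] {σ τ : Equiv.Perm D} (h : CJ K σ τ) (d : D) (hd : τ d = d) :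
    CJ K (skp σ d) τ :=
  h.skip d hd (skp_self σ d) (fun _ => skp_pre σ d _ (perm_ai σ d))
    (fun x h1 h2 => skp_of σ d x h1 h2)

theorem CJ_sub {K : Type} [Field K] {σ τ : Equiv.Perm D} (h : CJ K σ τ) (p : D → Prop)
    (hσ : ∀ x, p (σ x) ↔ p x) (hτ : ∀ x, p (τ x) ↔ p x)
    (hfix : ∀ x, ¬ p x → σ x = x ∧ τ x = x) :
    CJ K (σ.subtypePerm hσ) (τ.subtypePerm hτ) := by
  intro g k hgk
  obtain ⟨c, hc, hc'⟩ := h (fun x => if hx : p x then g ⟨x, hx⟩ else 0)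
    (fun x => if hx : p x then k ⟨x, hx⟩ else 0) (by
      intro x
      by_cases hx : p x
      · have h1 : p (σ x) := (hσ x).2 hx
        have h2 : p (τ (σ x)) := (hτ _).2 h1
        show (if hx : p (σ x) then g ⟨σ x, hx⟩ else 0) - (if hx : p x then g ⟨x, hx⟩ else 0) =
          (if hx : p (τ (σ x)) then k ⟨τ (σ x), hx⟩ else 0) - (if hx : p x then k ⟨x, hx⟩ else 0)
        rw [dif_pos h1, dif_pos hx, dif_pos h2, dif_pos hx]
        exact hgk ⟨x, hx⟩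
      · obtain ⟨h1, h2⟩ := hfix x hx
        simp only [h1, h2, sub_self])
  refine ⟨fun x => c x.1, fun x => hc x.1, fun x => ?_⟩
  have h1 := hc' x.1
  have h2 : p (σ x.1) := (hσ x.1).2 x.2
  rw [dif_pos h2, dif_pos x.2] at h1
  exact h1

theorem inv_pow {α : Type} (π : Equiv.Perm D) (g : D → α) (h : ∀ x, g (π x) = g x) (n : ℕ)
    (x : D) : g ((π ^ n) x) = g x := by
  induction n with
  | zero => rfl
  | succ n ih =>
    rw [pow_succ', Equiv.Perm.mul_apply, h, ih]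

theorem inv_same {α : Type} (π : Equiv.Perm D) (g : D → α) (h : ∀ x, g (π x) = g x) {x y : D}
    (hxy : π.SameCycle x y) : g x = g y := by
  obtain ⟨i, rfl⟩ := hxy
  cases i with
  | ofNat n =>
    rw [Int.ofNat_eq_natCast, zpow_natCast, inv_pow π g h]
  | negSucc n =>
    rw [zpow_negSucc]
    have h1 := inv_pow π g h (n + 1) (((π ^ (n + 1))⁻¹) x)
    rw [perm_ai] at h1
    exact h1

/-- the edge of `a` cut -/
noncomputable def tc (τ : Equiv.Perm D) (a : D) : Equiv.Perm D := τ * Equiv.swap a (τ a)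

/-- the rotation after the contraction -/
noncomputable def sg (σ τ : Equiv.Perm D) (a : D) : Equiv.Perm D :=
  tc τ a * skp (skp (τ * σ) a) (τ a)

section

variable (σ τ : Equiv.Perm D) (ht : ∀ x, τ (τ x) = x) (a : D) (hab : τ a ≠ a)

include ht in
theorem tc_a : tc τ a a = a := by
  unfold tc
  rw [Equiv.Perm.mul_apply, Equiv.swap_apply_left, ht]

theorem tc_b : tc τ a (τ a) = τ a := by
  unfold tc
  rw [Equiv.Perm.mul_apply, Equiv.swap_apply_right]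

theorem tc_of {x : D} (h1 : x ≠ a) (h2 : x ≠ τ a) : tc τ a x = τ x := by
  unfold tc
  rw [Equiv.Perm.mul_apply, Equiv.swap_apply_of_ne_of_ne h1 h2]

include ht in
theorem ph_a {y : D} (hy : y ≠ τ a) : τ y ≠ a := by
  intro h
  apply hy
  rw [← h, ht]

include ht in
theorem ph_b {y : D} (hy : y ≠ a) : τ y ≠ τ a := fun h => hy (τ.injective h)

include ht in
theorem tc_ph {y : D} (h1 : y ≠ a) (h2 : y ≠ τ a) : tc τ a (τ y) = y := by
  rw [tc_of τ a (ph_a τ ht a h2) (ph_b τ ht a h1), ht]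

include ht hab in
theorem sg_a : sg σ τ a a = a := by
  have h1 : skp (τ * σ) a a = a := skp_self _ _
  unfold sg
  rw [Equiv.Perm.mul_apply, skp_of _ _ _ (fun h => hab h.symm) (by rw [h1]; exact fun h => hab h.symm),
    h1, tc_a τ ht a]

theorem sg_b : sg σ τ a (τ a) = τ a := by
  unfold sg
  rw [Equiv.Perm.mul_apply, skp_self, tc_b]

include ht in
theorem sg_of {x : D} (hx1 : x ≠ a) (hx2 : x ≠ τ a) (h1 : σ x ≠ a) (h2 : σ x ≠ τ a) :
    sg σ τ a x = σ x := by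
  have e1 : skp (τ * σ) a x = τ (σ x) := skp_of _ _ _ hx1 (ph_a τ ht a h2)
  unfold sg
  rw [Equiv.Perm.mul_apply, skp_of _ _ _ hx2 (by rw [e1]; exact ph_b τ ht a h1), e1,
    tc_ph τ ht a h1 h2]

include ht in
theorem sg_b1 {x : D} (hx1 : x ≠ a) (hx2 : x ≠ τ a) (h1 : σ x = τ a) (h2 : σ a = a)
    (hσb : σ (τ a) ≠ a) : sg σ τ a x = σ (τ a) := by
  have h3 : σ (τ a) ≠ τ a := fun h => hx2 (σ.injective (h1.trans h.symm))
  have e1 : skp (τ * σ) a x = τ a := by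
    rw [skp_pre _ _ _ (by rw [Equiv.Perm.mul_apply, h1, ht]), Equiv.Perm.mul_apply, h2]
  have e2 : skp (τ * σ) a (τ a) = τ (σ (τ a)) := by
    by_cases h4 : τ a = a
    · rw [h4] at hσb
      exact absurd h2 hσb
    · exact skp_of _ _ _ h4 (ph_a τ ht a h3)
  unfold sg
  rw [Equiv.Perm.mul_apply, skp_pre _ _ _ e1, e2, tc_ph τ ht a hσb h3]

include ht in
theorem sg_b2 {x : D} (hx1 : x ≠ a) (hx2 : x ≠ τ a) (h1 : σ x = τ a) (h2 : σ a ≠ a)
    (hσa : σ a ≠ τ a) : sg σ τ a x = σ a := by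
  have e1 : skp (τ * σ) a x = τ (σ a) := by
    rw [skp_pre _ _ _ (by rw [Equiv.Perm.mul_apply, h1, ht]), Equiv.Perm.mul_apply]
  unfold sg
  rw [Equiv.Perm.mul_apply, skp_of _ _ _ hx2 (by rw [e1]; exact ph_b τ ht a h2), e1,
    tc_ph τ ht a h2 hσa]

include ht hab in
theorem sg_a1 {x : D} (hx1 : x ≠ a) (h1 : σ x = a) (h2 : σ (τ a) ≠ τ a)
    (hσb : σ (τ a) ≠ a) : sg σ τ a x = σ (τ a) := by
  have e1 : skp (τ * σ) a x = τ a := by
    rw [skp_of _ _ _ hx1 (by rw [Equiv.Perm.mul_apply, h1]; exact hab), Equiv.Perm.mul_apply, h1]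
  have e2 : skp (τ * σ) a (τ a) = τ (σ (τ a)) := skp_of _ _ _ hab (ph_a τ ht a h2)
  unfold sg
  rw [Equiv.Perm.mul_apply, skp_pre _ _ _ e1, e2, tc_ph τ ht a hσb h2]

include ht hab in
theorem sg_a2 {x : D} (hx1 : x ≠ a) (h1 : σ x = a) (h2 : σ (τ a) = τ a)
    (hσa : σ a ≠ τ a) : sg σ τ a x = σ a := by
  have h3 : σ a ≠ a := fun h => hx1 (σ.injective (h1.trans h.symm))
  have e1 : skp (τ * σ) a x = τ a := by
    rw [skp_of _ _ _ hx1 (by rw [Equiv.Perm.mul_apply, h1]; exact hab), Equiv.Perm.mul_apply, h1]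
  have e2 : skp (τ * σ) a (τ a) = τ (σ a) := by
    rw [skp_pre _ _ _ (by rw [Equiv.Perm.mul_apply, h2, ht]), Equiv.Perm.mul_apply]
  unfold sg
  rw [Equiv.Perm.mul_apply, skp_pre _ _ _ e1, e2, tc_ph τ ht a h3 hσa]

include ht in
/-- walking around the vertex of `τ a` -/
theorem walk [Fintype D] {α : Type} (q : D → α)
    (hq : ∀ x, x ≠ a → x ≠ τ a → q (sg σ τ a x) = q x) (hcyc : ∀ n : ℕ, (σ ^ n) (τ a) ≠ a)
    (hb : σ (τ a) ≠ τ a) : q (σ (τ a)) = q (σ⁻¹ (τ a)) := by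
  have hex : ∃ n, 0 < n ∧ (σ ^ n) (τ a) = τ a :=
    ⟨orderOf σ, orderOf_pos σ, by rw [pow_orderOf_eq_one]; rfl⟩
  obtain ⟨n, hn⟩ : ∃ n, n = Nat.find hex := ⟨_, rfl⟩
  have hspec := Nat.find_spec hex
  have hmin : ∀ m, 0 < m → m < n → (σ ^ m) (τ a) ≠ τ a := by
    intro m hm hmn h
    rw [hn] at hmn
    exact Nat.find_min hex hmn ⟨hm, h⟩
  rw [← hn] at hspec
  have hn1 : n ≠ 1 := by
    intro h
    apply hb
    have h2 := hspec.2
    rw [h, pow_one] at h2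
    exact h2
  have hk : ∀ k, k + 1 < n → q ((σ ^ (k + 1)) (τ a)) = q (σ (τ a)) := by
    intro k
    induction k with
    | zero =>
      intro _
      rw [zero_add, pow_one]
    | succ k ih =>
      intro hkn
      have e1 : (σ ^ (k + 1 + 1)) (τ a) = σ ((σ ^ (k + 1)) (τ a)) := by
        rw [pow_succ' σ (k + 1), Equiv.Perm.mul_apply]
      have h1 := hcyc (k + 1 + 1)
      have h2 := hmin (k + 1 + 1) (by omega) hkn
      rw [e1] at h1 h2
      have h3 := hq _ (hcyc (k + 1)) (hmin (k + 1) (by omega) (by omega))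
      rw [sg_of σ τ ht a (hcyc (k + 1)) (hmin (k + 1) (by omega) (by omega)) h1 h2] at h3
      rw [e1, h3]
      exact ih (by omega)
  have h4 := hk (n - 2) (by omega)
  have h5 : (σ ^ (n - 2 + 1)) (τ a) = σ⁻¹ (τ a) := by
    apply σ.injective
    rw [perm_ai, ← Equiv.Perm.mul_apply, ← pow_succ']
    have h6 : n - 2 + 1 + 1 = n := by omega
    rw [h6]
    exact hspec.2
  rw [h5] at h4
  exact h4.symm

include ht hab in
theorem cyc_inv [Fintype D] {α : Type} (q : D → α) (c0 : α)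
    (hq : ∀ x, x ≠ a → x ≠ τ a → q (sg σ τ a x) = q x)
    (hcyc : ∀ n : ℕ, (σ ^ n) (τ a) ≠ a) (hσa : σ a ≠ τ a) :
    ∃ g : D → α, (∀ x, g (σ x) = g x) ∧ (∀ x, x ≠ a → x ≠ τ a → g x = q x) ∧ g a = g (τ a) := by
  have hσb : σ (τ a) ≠ a := by
    have h := hcyc 1
    rw [pow_one] at h
    exact h
  obtain ⟨c, hc⟩ : ∃ c : α, c = if σ a ≠ a then q (σ a) else if σ (τ a) ≠ τ a then q (σ (τ a))
      else c0 := ⟨_, rfl⟩
  have hca : σ a ≠ a → c = q (σ a) := by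
    intro h
    rw [hc, if_pos h]
  have hinv_b : σ (τ a) ≠ τ a → σ⁻¹ (τ a) ≠ τ a := by
    intro h h1
    apply h
    conv_lhs => rw [← h1]
    rw [perm_ai]
  have hinv_a : σ⁻¹ (τ a) ≠ a := by
    intro h1
    apply hσa
    rw [← h1, perm_ai, h1]
  have hcb : σ (τ a) ≠ τ a → c = q (σ (τ a)) := by
    intro h
    by_cases h1 : σ a = a
    · rw [hc, if_neg (not_not.2 h1), if_pos h]
    · rw [hca h1, walk σ τ ht a q hq hcyc h]
      have h2 := hq (σ⁻¹ (τ a)) hinv_a (hinv_b h)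
      rw [sg_b2 σ τ ht a hinv_a (hinv_b h) (perm_ai σ (τ a)) h1 hσa] at h2
      exact h2
  let g : D → α := fun x => if x = a ∨ x = τ a then c else q x
  have ga : g a = c := if_pos (Or.inl rfl)
  have gb : g (τ a) = c := if_pos (Or.inr rfl)
  have gx : ∀ x, x ≠ a → x ≠ τ a → g x = q x := fun x h1 h2 => if_neg (by
    rintro (h | h)
    · exact h1 h
    · exact h2 h)
  refine ⟨g, fun x => ?_, gx, ga.trans gb.symm⟩
  by_cases hx1 : x = a
  · rw [hx1, ga]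
    by_cases h1 : σ a = a
    · rw [h1, ga]
    · rw [gx _ h1 hσa, hca h1]
  · by_cases hx2 : x = τ a
    · rw [hx2, gb]
      by_cases h1 : σ (τ a) = τ a
      · rw [h1, gb]
      · rw [gx _ hσb h1, hcb h1]
    · rw [gx x hx1 hx2]
      by_cases h1 : σ x = a
      · rw [h1, ga]
        have h2 : σ a ≠ a := fun h => hx1 (σ.injective (h1.trans h.symm))
        by_cases h3 : σ (τ a) = τ a
        · rw [hca h2, ← hq x hx1 hx2, sg_a2 σ τ ht a hab hx1 h1 h3 hσa]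
        · rw [hcb h3, ← hq x hx1 hx2, sg_a1 σ τ ht a hab hx1 h1 h3 hσb]
      · by_cases h2 : σ x = τ a
        · rw [h2, gb]
          have h3 : σ (τ a) ≠ τ a := fun h => hx2 (σ.injective (h2.trans h.symm))
          by_cases h4 : σ a = a
          · rw [hcb h3, ← hq x hx1 hx2, sg_b1 σ τ ht a hx1 hx2 h2 h4 hσb]
          · rw [hca h4, ← hq x hx1 hx2, sg_b2 σ τ ht a hx1 hx2 h2 h4 hσa]
        · rw [gx _ h1 h2, ← hq x hx1 hx2, sg_of σ τ ht a hx1 hx2 h1 h2]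

include ht in
theorem CJ_sg {K : Type} [Field K] (h : CJ K σ τ) (hab : τ a ≠ a) : CJ K (sg σ τ a) (tc τ a) := by
  have h1 : CJ K (τ * σ) (tc τ a) := (h.dual ht).cut ht a hab (tc_a τ ht a) (tc_b τ a)
    (fun x hx1 hx2 => tc_of τ a hx1 hx2)
  have h2 := CJ_skp h1 a (tc_a τ ht a)
  have h3 := CJ_skp h2 (τ a) (tc_b τ a)
  refine h3.dual ?_
  intro x
  by_cases hx1 : x = a
  · rw [hx1, tc_a τ ht a, tc_a τ ht a]
  · by_cases hx2 : x = τ a
    · rw [hx2, tc_b, tc_b]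
    · rw [tc_of τ a hx1 hx2, tc_ph τ ht a hx1 hx2]

end

end OpsCAux

open OpsCAux

/-- contraction of the edge of `d0` (not a loop): the end of `τ d0` is merged into the end of `d0`.
Proof: it is the deletion in the dual map; explicitly the new rotation is obtained from
`σ * swap d0 (τ d0)` by skipping `d0` and `τ d0`.  For `CJ` use `CJ.dual`, `CJ.cut`, `CJ.skip`
(twice), `CJ.dual`. -/
theorem PM0.con {V D : Type} [Fintype D] (M : PM0 V D) (d0 : D)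
    (h : M.vt d0 ≠ M.vt (M.τ d0)) :
    ∃ M' : PM0 V {x : D // x ≠ d0 ∧ x ≠ M.τ d0},
      (∀ x, M'.vt x = if M.vt x.1 = M.vt (M.τ d0) then M.vt d0 else M.vt x.1) ∧
      (∀ x, M'.out x = M.out x.1) ∧ (∀ x, ((M'.τ x).1 : D) = M.τ x.1) := by
  have ht := M.tt
  have hab : M.τ d0 ≠ d0 := by
    intro h1
    have h2 := M.ot d0
    rw [h1] at h2
    cases hb : M.out d0 <;> rw [hb] at h2 <;> simp at h2
  have hvs : ∀ x, M.vt (M.σ x) = M.vt x := fun x =>
    (M.vs _ _).2 (Equiv.Perm.sameCycle_apply_left.2 (Equiv.Perm.SameCycle.refl _ _))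
  have hσa : M.σ d0 ≠ M.τ d0 := by
    intro h1
    apply h
    rw [← h1, hvs]
  have hcyc : ∀ n : ℕ, (M.σ ^ n) (M.τ d0) ≠ d0 := by
    intro n h1
    apply h
    have h2 := inv_pow M.σ M.vt hvs n (M.τ d0)
    rw [h1] at h2
    exact h2
  have hσb : M.σ (M.τ d0) ≠ d0 := by
    have h1 := hcyc 1
    rw [pow_one] at h1
    exact h1
  have hfa := sg_a M.σ M.τ ht d0 hab
  have hfb := sg_b M.σ M.τ d0
  have hpσ : ∀ x, (sg M.σ M.τ d0 x ≠ d0 ∧ sg M.σ M.τ d0 x ≠ M.τ d0) ↔ (x ≠ d0 ∧ x ≠ M.τ d0) := by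
    intro x
    have h1 : sg M.σ M.τ d0 x = d0 ↔ x = d0 :=
      ⟨fun h1 => (sg M.σ M.τ d0).injective (h1.trans hfa.symm), fun h1 => by rw [h1, hfa]⟩
    have h2 : sg M.σ M.τ d0 x = M.τ d0 ↔ x = M.τ d0 :=
      ⟨fun h1 => (sg M.σ M.τ d0).injective (h1.trans hfb.symm), fun h1 => by rw [h1, hfb]⟩
    rw [ne_eq, ne_eq, ne_eq, ne_eq, h1, h2]
  have hpτ : ∀ x, (tc M.τ d0 x ≠ d0 ∧ tc M.τ d0 x ≠ M.τ d0) ↔ (x ≠ d0 ∧ x ≠ M.τ d0) := by
    intro x
    have h1 : tc M.τ d0 x = d0 ↔ x = d0 :=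
      ⟨fun h1 => (tc M.τ d0).injective (h1.trans (tc_a M.τ ht d0).symm),
        fun h1 => by rw [h1, tc_a M.τ ht d0]⟩
    have h2 : tc M.τ d0 x = M.τ d0 ↔ x = M.τ d0 :=
      ⟨fun h1 => (tc M.τ d0).injective (h1.trans (tc_b M.τ d0).symm),
        fun h1 => by rw [h1, tc_b M.τ d0]⟩
    rw [ne_eq, ne_eq, ne_eq, ne_eq, h1, h2]
  have hfix : ∀ x, ¬ (x ≠ d0 ∧ x ≠ M.τ d0) → sg M.σ M.τ d0 x = x ∧ tc M.τ d0 x = x := by
    intro x hx
    by_cases h1 : x = d0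
    · rw [h1]
      exact ⟨hfa, tc_a M.τ ht d0⟩
    · have h2 : x = M.τ d0 := by
        by_contra h3
        exact hx ⟨h1, h3⟩
      rw [h2]
      exact ⟨hfb, tc_b M.τ d0⟩
  let σ' : Equiv.Perm {x : D // x ≠ d0 ∧ x ≠ M.τ d0} := (sg M.σ M.τ d0).subtypePerm hpσ
  let τ' : Equiv.Perm {x : D // x ≠ d0 ∧ x ≠ M.τ d0} := (tc M.τ d0).subtypePerm hpτ
  have hτv : ∀ x : {x : D // x ≠ d0 ∧ x ≠ M.τ d0}, (τ' x).1 = M.τ x.1 :=
    fun x => tc_of M.τ d0 x.2.1 x.2.2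
  -- the new vertices
  let nv : D → V := fun x => if M.vt x = M.vt (M.τ d0) then M.vt d0 else M.vt x
  have nva : nv d0 = M.vt d0 := if_neg h
  have nvb : nv (M.τ d0) = M.vt d0 := if_pos rfl
  have nvs : ∀ x, nv (M.σ x) = nv x := by
    intro x
    show (if M.vt (M.σ x) = M.vt (M.τ d0) then M.vt d0 else M.vt (M.σ x)) = _
    rw [hvs]
  have nvg : ∀ x, x ≠ d0 → x ≠ M.τ d0 → nv (sg M.σ M.τ d0 x) = nv x := by
    intro x hx1 hx2
    by_cases h1 : M.σ x = d0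
    · have h2 : nv x = M.vt d0 := by rw [← nvs, h1, nva]
      by_cases h3 : M.σ (M.τ d0) = M.τ d0
      · rw [sg_a2 M.σ M.τ ht d0 hab hx1 h1 h3 hσa, nvs, nva, h2]
      · rw [sg_a1 M.σ M.τ ht d0 hab hx1 h1 h3 hσb, nvs, nvb, h2]
    · by_cases h2 : M.σ x = M.τ d0
      · have h3 : nv x = M.vt d0 := by rw [← nvs, h2, nvb]
        by_cases h4 : M.σ d0 = d0
        · rw [sg_b1 M.σ M.τ ht d0 hx1 hx2 h2 h4 hσb, nvs, nvb, h3]
        · rw [sg_b2 M.σ M.τ ht d0 hx1 hx2 h2 h4 hσa, nvs, nva, h3]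
      · rw [sg_of M.σ M.τ ht d0 hx1 hx2 h1 h2, nvs]
  refine ⟨{
    σ := σ'
    τ := τ'
    vt := fun x => nv x.1
    out := fun x => M.out x.1
    tt := ?_
    ot := ?_
    vs := ?_
    cj2 := CJ_sub (CJ_sg M.σ M.τ ht d0 M.cj2 hab) _ hpσ hpτ hfix
    cjq := CJ_sub (CJ_sg M.σ M.τ ht d0 M.cjq hab) _ hpσ hpτ hfix }, fun x => rfl, fun x => rfl, hτv⟩
  · intro x
    apply Subtype.ext
    rw [hτv, hτv, ht]
  · intro x
    show M.out (τ' x).1 = !M.out x.1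
    rw [hτv, M.ot]
  · intro x y
    constructor
    · intro hxy
      let Q := Quotient (Equiv.Perm.SameCycle.setoid σ')
      let mk : {x : D // x ≠ d0 ∧ x ≠ M.τ d0} → Q := Quotient.mk _
      let q : D → Q := fun z => if hz : z ≠ d0 ∧ z ≠ M.τ d0 then mk ⟨z, hz⟩ else mk x
      have hqd : ∀ (z : D) (hz : z ≠ d0 ∧ z ≠ M.τ d0), q z = mk ⟨z, hz⟩ := fun z hz => dif_pos hz
      have hq : ∀ z, z ≠ d0 → z ≠ M.τ d0 → q (sg M.σ M.τ d0 z) = q z := by
        intro z hz1 hz2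
        rw [hqd _ ((hpσ z).2 ⟨hz1, hz2⟩), hqd _ ⟨hz1, hz2⟩]
        apply Quotient.sound
        have h1 : σ'.SameCycle (σ' ⟨z, hz1, hz2⟩) ⟨z, hz1, hz2⟩ :=
          Equiv.Perm.sameCycle_apply_left.2 (Equiv.Perm.SameCycle.refl _ _)
        exact h1
      obtain ⟨g, hg1, hg2, hg3⟩ := cyc_inv M.σ M.τ ht d0 hab q (mk x) hq hcyc hσa
      have hgv : ∀ z z', M.vt z = M.vt z' → g z = g z' := fun z z' hz =>
        inv_same M.σ g hg1 ((M.vs z z').1 hz)
      have hgn : ∀ z, (M.vt z = M.vt (M.τ d0) ∧ g z = g d0) ∨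
          (M.vt z ≠ M.vt (M.τ d0) ∧ nv z = M.vt z) := by
        intro z
        by_cases hz : M.vt z = M.vt (M.τ d0)
        · exact Or.inl ⟨hz, (hgv _ _ hz).trans hg3.symm⟩
        · exact Or.inr ⟨hz, if_neg hz⟩
      have hgg : g x.1 = g y.1 := by
        have hxy' : nv x.1 = nv y.1 := hxy
        rcases hgn x.1 with ⟨h1, h2⟩ | ⟨h1, h2⟩ <;> rcases hgn y.1 with ⟨h3, h4⟩ | ⟨h3, h4⟩
        · rw [h2, h4]
        · have h5 : nv x.1 = M.vt d0 := if_pos h1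
          rw [h2]
          apply hgv
          rw [← h4, ← hxy', h5]
        · have h5 : nv y.1 = M.vt d0 := if_pos h3
          rw [h4]
          apply hgv
          rw [← h2, hxy', h5]
        · apply hgv
          rw [← h2, ← h4, hxy']
      rw [hg2 _ x.2.1 x.2.2, hg2 _ y.2.1 y.2.2, hqd _ x.2, hqd _ y.2] at hgg
      exact Quotient.exact hgg
    · intro hxy
      exact inv_same σ' (fun z => nv z.1)
        (fun z => nvg z.1 z.2.1 z.2.2) hxy

end Pool.Agent.Lib.PLQ
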