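import Mathlib
import Pool.Agent.Lib.PLQ.OpsC

set_option autoImplicit false
set_option linter.unusedSectionVars false
set_option linter.unusedVariables false

/-! Module Cover: the class `Pl R S` (in Defs) is closed under restriction and contraction. -/

namespace Pool.Agent.Lib.PLQ

open Finset Pool.Agent.Lib.NK
open scoped Classical

variable {V : Type} {R R' : V → V → Prop} {S S' : Finset V}

theorem Pl.mono (h : Pl R S) (hS : S' ⊆ S) (hR : ∀ a ∈ S', ∀ b ∈ S', R' a b → R a b) :
    Pl R' S' := by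
  obtain ⟨D, hD, M, hM⟩ := h
  exact ⟨D, hD, M, fun a ha b hb hab hne => hM a (hS ha) b (hS hb) (hR a ha b hb hab) hne⟩

theorem Pl.con1 (h : Pl R S) {z k : V} (hz : z ∈ S) (hk : k ∈ S) (hzk : z ≠ k)
    (ha : R z k ∨ R k z)
    (hR : ∀ a ∈ S.erase k, ∀ b ∈ S.erase k, R' a b → R a b ∨ (b = z ∧ R a k) ∨ (a = z ∧ R k b)) :
    Pl R' (S.erase k) := by
  obtain ⟨D, hD, M, hM⟩ := h
  have hd0 : ∃ d0, M.vt d0 = z ∧ M.vt (M.τ d0) = k := by
    rcases ha with ha | ha
    · obtain ⟨d, _, h1, h2⟩ := hM z hz k hk ha hzk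
      exact ⟨d, h1, h2⟩
    · obtain ⟨d, _, h1, h2⟩ := hM k hk z hz ha (Ne.symm hzk)
      exact ⟨M.τ d, h2, by rw [M.tt]; exact h1⟩
  obtain ⟨d0, hdz, hdk⟩ := hd0
  obtain ⟨M', hv, ho, ht⟩ := M.con d0 (by rw [hdz, hdk]; exact hzk)
  refine ⟨{x : D // x ≠ d0 ∧ x ≠ M.τ d0}, inferInstance, M', ?_⟩
  rw [hdk, hdz] at hv
  intro a haS b hbS hab hne
  have hak : a ≠ k := (Finset.mem_erase.1 haS).1
  have hbk : b ≠ k := (Finset.mem_erase.1 hbS).1
  have haS' : a ∈ S := (Finset.mem_erase.1 haS).2
  have hbS' : b ∈ S := (Finset.mem_erase.1 hbS).2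
  rcases hR a haS b hbS hab with h1 | ⟨h1, h2⟩ | ⟨h1, h2⟩
  · obtain ⟨d, e1, e2, e3⟩ := hM a haS' b hbS' h1 hne
    have hd1 : d ≠ d0 := by
      rintro rfl
      exact hbk (by rw [← e3, hdk])
    have hd2 : d ≠ M.τ d0 := by
      rintro rfl
      exact hak (by rw [← e2, hdk])
    refine ⟨⟨d, hd1, hd2⟩, ?_, ?_, ?_⟩
    · rw [ho]; exact e1
    · rw [hv]
      simp only [e2]
      rw [if_neg hak]
    · rw [hv, ht]
      simp only [e3]
      rw [if_neg hbk]
  · subst h1
    obtain ⟨d, e1, e2, e3⟩ := hM a haS' k hk h2 hak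
    have hd1 : d ≠ d0 := by
      rintro rfl
      exact hne (by rw [← e2, hdz])
    have hd2 : d ≠ M.τ d0 := by
      rintro rfl
      exact hak (by rw [← e2, hdk])
    refine ⟨⟨d, hd1, hd2⟩, ?_, ?_, ?_⟩
    · rw [ho]; exact e1
    · rw [hv]
      simp only [e2]
      rw [if_neg hak]
    · rw [hv, ht]
      simp only [e3]
      exact if_pos trivial
  · subst h1
    obtain ⟨d, e1, e2, e3⟩ := hM k hk b hbS' h2 (Ne.symm hbk)
    have hd1 : d ≠ d0 := by
      rintro rfl
      exact hzk (by rw [← e2, hdz])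
    have hd2 : d ≠ M.τ d0 := by
      rintro rfl
      rw [M.tt, hdz] at e3
      exact hne e3
    refine ⟨⟨d, hd1, hd2⟩, ?_, ?_, ?_⟩
    · rw [ho]; exact e1
    · rw [hv]
      simp only [e2]
      exact if_pos trivial
    · rw [hv, ht]
      simp only [e3]
      rw [if_neg hbk]

namespace CoverAux

theorem con_aux (n : ℕ) : ∀ (R R' : V → V → Prop) (S K : Finset V) (z : V), K.card = n →
    Pl R S → K ⊆ S → z ∈ K →
    (∀ k ∈ K, Relation.ReflTransGen (fun x y => (R x y ∨ R y x) ∧ y ∈ K) z k) →
    (∀ a ∈ insert z (S \ K), ∀ b ∈ insert z (S \ K), R' a b →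
      R a b ∨ (b = z ∧ ∃ k ∈ K, R a k) ∨ (a = z ∧ ∃ k ∈ K, R k b)) →
    Pl R' (insert z (S \ K)) := by
  induction n with
  | zero =>
    intro R R' S K z hn _ _ hz _ _
    rw [Finset.card_eq_zero] at hn
    rw [hn] at hz
    exact absurd hz (Finset.notMem_empty z)
  | succ n ih =>
    intro R R' S K z hn h hK hz hc hR
    by_cases hone : ∀ k ∈ K, k = z
    · refine h.mono ?_ ?_
      · intro x hx
        rw [Finset.mem_insert] at hx
        rcases hx with rfl | hx
        · exact hK hz
        · exact (Finset.mem_sdiff.1 hx).1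
      · intro a ha b hb hab
        rcases hR a ha b hb hab with h1 | ⟨h1, k, hk, h2⟩ | ⟨h1, k, hk, h2⟩
        · exact h1
        · rw [hone k hk] at h2
          rw [h1]
          exact h2
        · rw [hone k hk] at h2
          rw [h1]
          exact h2
    · push Not at hone
      obtain ⟨k1, hk1, hk1z⟩ := hone
      have key : ∀ k, Relation.ReflTransGen (fun x y => (R x y ∨ R y x) ∧ y ∈ K) z k →
          k = z ∨ ∃ x ∈ K, x ≠ z ∧ (R z x ∨ R x z) := by
        intro k hk
        induction hk with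
        | refl => exact Or.inl rfl
        | tail _ hstep ih' =>
          rename_i y w _
          rcases ih' with rfl | ih'
          · by_cases hw : w = y
            · exact Or.inl hw
            · exact Or.inr ⟨w, hstep.2, hw, hstep.1⟩
          · exact Or.inr ih'
      obtain ⟨k0, hk0, hk0z, hadj⟩ : ∃ x ∈ K, x ≠ z ∧ (R z x ∨ R x z) := by
        rcases key k1 (hc k1 hk1) with h1 | h1
        · exact absurd h1 hk1z
        · exact h1
      let R1 : V → V → Prop := fun a b => R a b ∨ (b = z ∧ R a k0) ∨ (a = z ∧ R k0 b)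
      have hP1 : Pl R1 (S.erase k0) :=
        h.con1 (hK hz) (hK hk0) (Ne.symm hk0z) hadj (fun a _ b _ hab => hab)
      have hset : insert z ((S.erase k0) \ (K.erase k0)) = insert z (S \ K) := by
        congr 1
        ext x
        simp only [Finset.mem_sdiff, Finset.mem_erase]
        constructor
        · rintro ⟨⟨h1, h2⟩, h3⟩
          exact ⟨h2, fun h4 => h3 ⟨h1, h4⟩⟩
        · rintro ⟨h1, h2⟩
          refine ⟨⟨?_, h1⟩, fun h3 => h2 h3.2⟩
          rintro rfl
          exact h2 hk0
      rw [← hset]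
      refine ih R1 R' (S.erase k0) (K.erase k0) z ?_ hP1 ?_ ?_ ?_ ?_
      · rw [Finset.card_erase_of_mem hk0, hn]
        rfl
      · exact Finset.erase_subset_erase k0 hK
      · exact Finset.mem_erase.2 ⟨Ne.symm hk0z, hz⟩
      · intro k hk
        have hkk0 : k ≠ k0 := (Finset.mem_erase.1 hk).1
        have hkK : k ∈ K := (Finset.mem_erase.1 hk).2
        have main : ∀ y, Relation.ReflTransGen (fun x y => (R x y ∨ R y x) ∧ y ∈ K) z y →
            Relation.ReflTransGen (fun x y => (R1 x y ∨ R1 y x) ∧ y ∈ K.erase k0) z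
              (if y = k0 then z else y) := by
          intro y hy
          induction hy with
          | refl =>
            rw [if_neg (Ne.symm hk0z)]
          | tail _ hstep ih' =>
            rename_i x w _
            by_cases hx : x = k0
            · subst hx
              rw [if_pos rfl] at ih'
              by_cases hw : w = x
              · rw [if_pos hw]
              · rw [if_neg hw]
                refine Relation.ReflTransGen.single ⟨?_, Finset.mem_erase.2 ⟨hw, hstep.2⟩⟩
                rcases hstep.1 with h1 | h1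
                · exact Or.inl (Or.inr (Or.inr ⟨rfl, h1⟩))
                · exact Or.inr (Or.inr (Or.inl ⟨rfl, h1⟩))
            · rw [if_neg hx] at ih'
              by_cases hw : w = k0
              · rw [if_pos hw]
              · rw [if_neg hw]
                refine ih'.tail ⟨?_, Finset.mem_erase.2 ⟨hw, hstep.2⟩⟩
                rcases hstep.1 with h1 | h1
                · exact Or.inl (Or.inl h1)
                · exact Or.inr (Or.inl h1)
        have := main k (hc k hkK)
        rwa [if_neg hkk0] at this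
      · rw [hset]
        intro a ha b hb hab
        rcases hR a ha b hb hab with h1 | ⟨h1, k, hk, h2⟩ | ⟨h1, k, hk, h2⟩
        · exact Or.inl (Or.inl h1)
        · by_cases hkk : k = k0
          · subst hkk
            exact Or.inl (Or.inr (Or.inl ⟨h1, h2⟩))
          · exact Or.inr (Or.inl ⟨h1, k, Finset.mem_erase.2 ⟨hkk, hk⟩, Or.inl h2⟩)
        · by_cases hkk : k = k0
          · subst hkk
            exact Or.inl (Or.inr (Or.inr ⟨h1, h2⟩))
          · exact Or.inr (Or.inr ⟨h1, k, Finset.mem_erase.2 ⟨hkk, hk⟩, Or.inl h2⟩)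

end CoverAux

/-- contraction of the connected set `K` into `z ∈ K` -/
theorem Pl.con (h : Pl R S) {K : Finset V} {z : V} (hK : K ⊆ S) (hz : z ∈ K)
    (hc : ∀ k ∈ K, Relation.ReflTransGen (fun x y => (R x y ∨ R y x) ∧ y ∈ K) z k)
    (hR : ∀ a ∈ insert z (S \ K), ∀ b ∈ insert z (S \ K), R' a b →
      R a b ∨ (b = z ∧ ∃ k ∈ K, R a k) ∨ (a = z ∧ ∃ k ∈ K, R k b)) :
    Pl R' (insert z (S \ K)) :=
  CoverAux.con_aux K.card R R' S K z rfl h hK hz hc hR

end Pool.Agent.Lib.PLQ
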