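import Mathlib
import Pool.Agent.Lib.PLQ.Cover

set_option autoImplicit false
set_option linter.unusedSectionVars false
set_option linter.unusedVariables false

/-! Module TsB. -/

namespace Pool.Agent.Lib.PLQ

open Finset Pool.Agent.Lib.NK
open scoped Classical

variable {V : Type} [Fintype V]

namespace TsBAux

/-- the last step of a walk -/
theorem last_step {R : V → V → Prop} {T : Finset V} {g h : V} (hgh : g ≠ h) (hr : Rc R T g h) :
    ∃ k, Rc R (T.erase h) g k ∧ R k h := by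
  have key : (∃ k, Rc R (T.erase h) g k ∧ R k h) ∨ (h ≠ h ∧ Rc R (T.erase h) g h) := by
    refine Rc.induct (p := fun v => (∃ k, Rc R (T.erase h) g k ∧ R k h) ∨
      (v ≠ h ∧ Rc R (T.erase h) g v)) ?_ ?_ hr
    · intro hg
      exact Or.inr ⟨hgh, Rc.rfl' (mem_erase.mpr ⟨hgh, hg⟩)⟩
    · intro a b hga ih hab hb
      rcases ih with ih | ⟨h1, h2⟩
      · exact Or.inl ih
      · by_cases hbh : b = h
        · exact Or.inl ⟨a, h2, hbh ▸ hab⟩
        · exact Or.inr ⟨hbh, h2.tail hab (mem_erase.mpr ⟨hbh, hb⟩)⟩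
  rcases key with h1 | ⟨h1, _⟩
  · exact h1
  · exact absurd rfl h1

/-- the set reachable inside `T` -/
noncomputable def rs (R : V → V → Prop) (T : Finset V) (g : V) : Finset V :=
  univ.filter (fun x => Rc R T g x)

theorem mem_rs {R : V → V → Prop} {T : Finset V} {g x : V} : x ∈ rs R T g ↔ Rc R T g x := by
  simp [rs]

theorem rs_sub {R : V → V → Prop} {T : Finset V} {g : V} : rs R T g ⊆ T :=
  fun _ hx => (mem_rs.mp hx).right

theorem rs_conn {R R' : V → V → Prop} (hR : ∀ a b, R a b → R' a b) {T : Finset V} {g : V} :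
    ∀ k ∈ rs R T g,
      Relation.ReflTransGen (fun x y => (R' x y ∨ R' y x) ∧ y ∈ rs R T g) g k := by
  intro k hk
  refine Rc.induct (p := fun k =>
    Relation.ReflTransGen (fun x y => (R' x y ∨ R' y x) ∧ y ∈ rs R T g) g k) ?_ ?_ (mem_rs.mp hk)
  · intro _
    exact Relation.ReflTransGen.refl
  · intro a b hga ih hab hb
    exact ih.tail ⟨Or.inl (hR a b hab), mem_rs.mpr (hga.tail hab hb)⟩

end TsBAux

open TsBAux in
/-- `R` on one side together with the digon is planar: contract the two paths on the other side -/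
theorem pl_side {R : V → V → Prop} {S A B : Finset V} {g h : V} (hPl : Pl R S) (hgh : g ≠ h)
    (hg : g ∉ A ∧ g ∉ B) (hh : h ∉ A ∧ h ∉ B) (hAB : Disjoint A B)
    (hS : S = insert g (insert h (A ∪ B))) (hL : Link R (insert g (insert h B)) g h) :
    Pl (fun a b => R a b ∨ (a = g ∧ b = h) ∨ (a = h ∧ b = g)) (insert g (insert h A)) := by
  obtain ⟨-, S1, S2, r1, r2, hd, s1, s2⟩ := hL
  obtain ⟨k1, hk1, hk1h⟩ := last_step hgh r1
  obtain ⟨k2, hk2, hk2g⟩ := last_step hgh.symm r2
  have m1 : ∀ x ∈ rs R (S1.erase h) g, x ≠ h ∧ x ∈ S1 ∧ (x = g ∨ x ∈ B) := by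
    intro x hx
    have h1 := mem_erase.mp (rs_sub hx)
    refine ⟨h1.1, h1.2, ?_⟩
    rcases mem_insert.mp (s1 h1.2) with h2 | h2
    · exact Or.inl h2
    · rcases mem_insert.mp h2 with h3 | h3
      · exact absurd h3 h1.1
      · exact Or.inr h3
  have m2 : ∀ x ∈ rs R (S2.erase g) h, x ≠ g ∧ x ∈ S2 ∧ (x = h ∨ x ∈ B) := by
    intro x hx
    have h1 := mem_erase.mp (rs_sub hx)
    refine ⟨h1.1, h1.2, ?_⟩
    rcases mem_insert.mp (s2 h1.2) with h2 | h2
    · exact absurd h2 h1.1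
    · rcases mem_insert.mp h2 with h3 | h3
      · exact Or.inl h3
      · exact Or.inr h3
  have dis : ∀ x ∈ rs R (S2.erase g) h, x ∉ rs R (S1.erase h) g := by
    intro x hx hx'
    have a1 := m1 x hx'
    have a2 := m2 x hx
    rcases hd x a1.2.1 a2.2.1 with h1 | h1
    · exact a2.1 h1
    · exact a1.1 h1
  have gK : g ∈ rs R (S1.erase h) g := mem_rs.mpr (Rc.rfl' hk1.left)
  have hK : h ∈ rs R (S2.erase g) h := mem_rs.mpr (Rc.rfl' hk2.left)
  have sub1 : rs R (S1.erase h) g ⊆ S := by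
    intro x hx
    rw [hS]
    rcases (m1 x hx).2.2 with h1 | h1
    · rw [h1]; exact mem_insert_self _ _
    · exact mem_insert_of_mem (mem_insert_of_mem (mem_union_right _ h1))
  have p1 : Pl (fun a b => R a b ∨ (b = g ∧ ∃ k ∈ rs R (S1.erase h) g, R a k) ∨
      (a = g ∧ ∃ k ∈ rs R (S1.erase h) g, R k b)) (insert g (S \ rs R (S1.erase h) g)) :=
    hPl.con sub1 gK (rs_conn fun _ _ h => h) (fun a _ b _ h => h)
  have sub2 : rs R (S2.erase g) h ⊆ insert g (S \ rs R (S1.erase h) g) := by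
    intro x hx
    refine mem_insert_of_mem (mem_sdiff.mpr ⟨?_, dis x hx⟩)
    rw [hS]
    rcases (m2 x hx).2.2 with h1 | h1
    · rw [h1]; exact mem_insert_of_mem (mem_insert_self _ _)
    · exact mem_insert_of_mem (mem_insert_of_mem (mem_union_right _ h1))
  have p2 := p1.con sub2 hK (rs_conn fun _ _ h => Or.inl h) (fun a _ b _ h => h)
  refine p2.mono ?_ ?_
  · intro x hx
    rcases mem_insert.mp hx with h1 | h1
    · rw [h1]
      exact mem_insert_of_mem (mem_sdiff.mpr ⟨mem_insert_self _ _, fun h2 => (m2 g h2).1 rfl⟩)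
    · rcases mem_insert.mp h1 with h2 | h2
      · rw [h2]; exact mem_insert_self _ _
      · refine mem_insert_of_mem (mem_sdiff.mpr ⟨mem_insert_of_mem (mem_sdiff.mpr ⟨?_, ?_⟩), ?_⟩)
        · rw [hS]
          exact mem_insert_of_mem (mem_insert_of_mem (mem_union_left _ h2))
        · intro h3
          rcases (m1 x h3).2.2 with h4 | h4
          · exact hg.1 (h4 ▸ h2)
          · exact (Finset.disjoint_left.mp hAB) h2 h4
        · intro h3
          rcases (m2 x h3).2.2 with h4 | h4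
          · exact hh.1 (h4 ▸ h2)
          · exact (Finset.disjoint_left.mp hAB) h2 h4
  · intro a _ b _ hab
    rcases hab with hab | ⟨rfl, rfl⟩ | ⟨rfl, rfl⟩
    · exact Or.inl (Or.inl hab)
    · exact Or.inl (Or.inr (Or.inr ⟨rfl, k1, mem_rs.mpr hk1, hk1h⟩))
    · exact Or.inr (Or.inr ⟨rfl, k2, mem_rs.mpr hk2, Or.inl hk2g⟩)

end Pool.Agent.Lib.PLQ
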