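import Mathlib
import Pool.Agent.Lib.PLQ.TsA
import Pool.Agent.Lib.PLQ.TsB

set_option autoImplicit false
set_option linter.unusedSectionVars false
set_option linter.unusedVariables false

/-! Module TsC: 2-sums over a digon. -/

namespace Pool.Agent.Lib.PLQ

open Finset Pool.Agent.Lib.NK
open scoped Classical

variable {V : Type} [Fintype V]

namespace TsCAux

/-- one direction of the walks in a union of two sets with one common vertex -/
theorem walk {R : V → V → Prop} {F F1 F2 : Finset V} {z : V} (hF : ∀ x ∈ F, x ∈ F1 ∨ x ∈ F2)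
    (h1 : F1 ⊆ F) (h2 : F2 ⊆ F) (hz : ∀ x, x ∈ F1 → x ∈ F2 → x = z)
    (hn : ∀ x y, x ∈ F1 → x ∉ F2 → y ∈ F2 → y ∉ F1 → ¬ R x y ∧ ¬ R y x) {x y : V} (hx : x ∈ F1)
    (h : Rc R F x y) :
    (y ∈ F1 → Rc R F1 x y) ∧ (y ∉ F1 → Rc R F1 x z ∧ Rc R F2 z y) := by
  refine Rc.induct (p := fun y => (y ∈ F1 → Rc R F1 x y) ∧
    (y ∉ F1 → Rc R F1 x z ∧ Rc R F2 z y)) ?_ ?_ h
  · intro _
    exact ⟨fun _ => Rc.rfl' hx, fun h => absurd hx h⟩
  · intro a b ha ih hab hb
    by_cases ha1 : a ∈ F1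
    · have h3 := ih.1 ha1
      refine ⟨fun hb1 => h3.tail hab hb1, fun hb1 => ?_⟩
      have hb2 : b ∈ F2 := (hF b hb).resolve_left hb1
      have ha2 : a ∈ F2 := by
        by_contra ha2
        exact (hn a b ha1 ha2 hb2 hb1).1 hab
      have haz := hz a ha1 ha2
      subst haz
      exact ⟨h3, Rc.step hab ha2 hb2⟩
    · obtain ⟨h3, h4⟩ := ih.2 ha1
      have ha2 : a ∈ F2 := (hF a ha.right).resolve_left ha1
      refine ⟨fun hb1 => ?_, fun hb1 => ⟨h3, h4.tail hab ((hF b hb).resolve_left hb1)⟩⟩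
      have hb2 : b ∈ F2 := by
        by_contra hb2
        exact (hn b a hb1 hb2 ha2 ha1).2 hab
      have hbz := hz b hb1 hb2
      rw [hbz]
      exact h3

/-- gluing acyclic sets along one vertex -/
theorem ac_glue {R : V → V → Prop} {F F1 F2 : Finset V} {z : V} (hF : ∀ x ∈ F, x ∈ F1 ∨ x ∈ F2)
    (h1 : F1 ⊆ F) (h2 : F2 ⊆ F) (hz : ∀ x, x ∈ F1 → x ∈ F2 → x = z)
    (hn : ∀ x y, x ∈ F1 → x ∉ F2 → y ∈ F2 → y ∉ F1 → ¬ R x y ∧ ¬ R y x)
    (a1 : Ac R F1) (a2 : Ac R F2) : Ac R F := by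
  intro u v huv hu hr
  have hv := hr.left
  by_cases hu1 : u ∈ F1
  · by_cases hv1 : v ∈ F1
    · exact a1 u v huv hu1 ((walk hF h1 h2 hz hn hv1 hr).1 hu1)
    · have hv2 : v ∈ F2 := (hF v hv).resolve_left hv1
      by_cases hu2 : u ∈ F2
      · exact a2 u v huv hu2 ((walk (fun x hx => (hF x hx).symm) h2 h1 (fun x h h' => hz x h' h)
          (fun x y hx hx' hy hy' => (hn y x hy hy' hx hx').symm) hv2 hr).1 hu2)
      · exact (hn u v hu1 hu2 hv2 hv1).1 huv
  · have hu2 : u ∈ F2 := (hF u hu).resolve_left hu1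
    by_cases hv2 : v ∈ F2
    · exact a2 u v huv hu2 ((walk (fun x hx => (hF x hx).symm) h2 h1 (fun x h h' => hz x h' h)
        (fun x y hx hx' hy hy' => (hn y x hy hy' hx hx').symm) hv2 hr).1 hu2)
    · have hv1 : v ∈ F1 := (hF v hv).resolve_right hv2
      exact (hn v u hv1 hv2 hu2 hu1).2 huv

theorem ac_le {R R' : V → V → Prop} {F : Finset V} (h : Ac R' F) (hR : ∀ a b, R a b → R' a b) :
    Ac R F := fun u v huv hu hr => h u v (hR u v huv) hu (hr.monoR hR)

/-- the colouring of one side -/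
theorem side {R : V → V → Prop} {S A B : Finset V} {g h : V} (hirr : ∀ v, ¬ R v v)
    (hPl : Pl R S) (hN : ¬ Neck (Rin R S)) (hgh : g ≠ h) (hg : g ∉ A ∧ g ∉ B)
    (hh : h ∉ A ∧ h ∉ B) (hB : B.Nonempty) (hAB : Disjoint A B)
    (hS : S = insert g (insert h (A ∪ B))) (hLB : Link R (insert g (insert h B)) g h)
    (ih : ∀ (R' : V → V → Prop) (S' : Finset V), S' ⊂ S → Pl R' S' → (∀ v, ¬ R' v v) →
      ¬ Neck (Rin R' S') → Colr R' (Fin 2) S') :
    ∃ c : V → Fin 2, c g ≠ c h ∧
      ∀ F ⊆ insert g (insert h A), (∀ u ∈ F, ∀ v ∈ F, c u = c v) → Ac R F := by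
  have hsub : insert g (insert h A) ⊆ S := by
    rw [hS]
    exact insert_subset_insert _ (insert_subset_insert _ subset_union_left)
  have hsubB : insert g (insert h B) ⊆ S := by
    rw [hS]
    exact insert_subset_insert _ (insert_subset_insert _ subset_union_right)
  have hss : insert g (insert h A) ⊂ S := by
    rw [Finset.ssubset_iff_of_subset hsub]
    obtain ⟨b, hb⟩ := hB
    refine ⟨b, hsubB (by simp [hb]), ?_⟩
    simp only [mem_insert, not_or]
    refine ⟨?_, ?_, fun hbA => ?_⟩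
    · rintro rfl; exact hg.2 hb
    · rintro rfl; exact hh.2 hb
    · exact (Finset.disjoint_left.mp hAB hbA) hb
  have hP := pl_side hPl hgh hg hh hAB hS hLB
  have hNk : ¬ Neck (Rin (fun a b => R a b ∨ (a = g ∧ b = h) ∨ (a = h ∧ b = g))
      (insert g (insert h A))) := by
    intro hneck
    refine hN (neck_lift (R := Rin R S) (S1 := insert g (insert h A))
      (S2 := insert g (insert h B)) hgh (by simp) (by simp) ?_ ?_ ?_ hneck)
    · intro x hx hx'
      simp only [mem_insert] at hx hx'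
      rcases hx with hx | hx | hx
      · exact Or.inl hx
      · exact Or.inr hx
      · rcases hx' with hx' | hx' | hx'
        · exact Or.inl hx'
        · exact Or.inr hx'
        · exact absurd hx' (Finset.disjoint_left.mp hAB hx)
    · rintro a b ⟨hab, ha, hb⟩
      rcases hab with hab | hab | hab
      · exact Or.inl ⟨⟨hab, hsub ha, hsub hb⟩, ha, hb⟩
      · exact Or.inr (Or.inl hab)
      · exact Or.inr (Or.inr hab)
    · exact hLB.change (fun a ha b hb hab => ⟨hab, hsubB ha, hsubB hb⟩)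
  obtain ⟨c, hc⟩ := ih _ _ hss hP (by
    rintro v (hv | ⟨h1, h2⟩ | ⟨h1, h2⟩)
    · exact hirr v hv
    · exact hgh (h1.symm.trans h2)
    · exact hgh (h2.symm.trans h1)) hNk
  refine ⟨c, ?_, ?_⟩
  · intro hgh'
    have h1 := hc {g, h} (by
      intro x hx
      simp only [mem_insert, mem_singleton] at hx ⊢
      rcases hx with hx | hx
      · exact Or.inl hx
      · exact Or.inr (Or.inl hx)) (by
      intro u hu v hv
      simp only [mem_insert, mem_singleton] at hu hv
      rcases hu with rfl | rfl <;> rcases hv with rfl | rfl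
      · rfl
      · exact hgh'
      · exact hgh'.symm
      · rfl)
    exact h1 g h (Or.inr (Or.inl ⟨rfl, rfl⟩)) (by simp)
      (Rc.step (Or.inr (Or.inr ⟨rfl, rfl⟩)) (by simp) (by simp))
  · intro F hF hm
    exact ac_le (hc F hF hm) (fun a b hab => Or.inl hab)

theorem shift : ∀ a b c d : Fin 2, a ≠ b → c ≠ d → ∃ k : Fin 2, a + k = c ∧ b + k = d := by
  decide

end TsCAux

open TsCAux

/-- Proof: let `R1` be `R` inside `insert g (insert h A)` together with the digon; it is planar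
(`pl_side`), has no ring (`neck_lift` for `Rin R S`), so it is 2-coloured with `g`, `h` different;
the same for `B`; swap the colours of the second colouring if necessary so that they agree on
`g`, `h`.  A monochromatic closed walk misses `g` or `h`, so it stays on one side. -/
theorem two_sum {R : V → V → Prop} {S A B : Finset V} {g h : V} (hirr : ∀ v, ¬ R v v)
    (hPl : Pl R S) (hN : ¬ Neck (Rin R S)) (hgh : g ≠ h) (hg : g ∉ A ∧ g ∉ B)
    (hh : h ∉ A ∧ h ∉ B) (hA : A.Nonempty) (hB : B.Nonempty) (hAB : Disjoint A B)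
    (hS : S = insert g (insert h (A ∪ B))) (hnadj : ∀ a ∈ A, ∀ b ∈ B, ¬ R a b ∧ ¬ R b a)
    (hLA : Link R (insert g (insert h A)) g h) (hLB : Link R (insert g (insert h B)) g h)
    (ih : ∀ (R' : V → V → Prop) (S' : Finset V), S' ⊂ S → Pl R' S' → (∀ v, ¬ R' v v) →
      ¬ Neck (Rin R' S') → Colr R' (Fin 2) S') : Colr R (Fin 2) S := by
  obtain ⟨cA, hcA, hA'⟩ := side hirr hPl hN hgh hg hh hB hAB hS hLB ih
  obtain ⟨cB, hcB, hB'⟩ := side hirr hPl hN hgh hg.symm hh.symm hA hAB.symm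
    (by rw [hS, union_comm]) hLA ih
  obtain ⟨k, hk1, hk2⟩ := shift _ _ _ _ hcB hcA
  obtain ⟨SA, hSA⟩ : ∃ SA, SA = insert g (insert h A) := ⟨_, rfl⟩
  obtain ⟨SB, hSB⟩ : ∃ SB, SB = insert g (insert h B) := ⟨_, rfl⟩
  rw [← hSA] at hA'
  rw [← hSB] at hB'
  have memA : ∀ x, x ∈ SA ↔ x = g ∨ x = h ∨ x ∈ A := by
    intro x; rw [hSA]; simp only [mem_insert]
  have memB : ∀ x, x ∈ SB ↔ x = g ∨ x = h ∨ x ∈ B := by
    intro x; rw [hSB]; simp only [mem_insert]
  have memS : ∀ x, x ∈ S ↔ x = g ∨ x = h ∨ x ∈ A ∨ x ∈ B := by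
    intro x; rw [hS]; simp only [mem_insert, mem_union]
  have hcommon : ∀ x, x ∈ SA → x ∈ SB → x = g ∨ x = h := by
    intro x hx hx'
    rw [memA] at hx
    rw [memB] at hx'
    rcases hx with hx | hx | hx
    · exact Or.inl hx
    · exact Or.inr hx
    · rcases hx' with hx' | hx' | hx'
      · exact Or.inl hx'
      · exact Or.inr hx'
      · exact absurd hx' (Finset.disjoint_left.mp hAB hx)
  refine ⟨fun v => if v ∈ SA then cA v else cB v + k, ?_⟩
  have eA : ∀ x, x ∈ SA → (if x ∈ SA then cA x else cB x + k) = cA x := fun x hx => if_pos hx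
  have eB : ∀ x, x ∈ SB → (if x ∈ SA then cA x else cB x + k) = cB x + k := by
    intro x hx
    by_cases hxA : x ∈ SA
    · rw [if_pos hxA]
      rcases hcommon x hxA hx with rfl | rfl
      · exact hk1.symm
      · exact hk2.symm
    · rw [if_neg hxA]
  intro F hF hm
  have hgA : g ∈ SA := (memA g).2 (Or.inl rfl)
  have hhA : h ∈ SA := (memA h).2 (Or.inr (Or.inl rfl))
  obtain ⟨z, hz⟩ : ∃ z, ∀ x ∈ F, (x = g ∨ x = h) → x = z := by
    by_cases hgF : g ∈ F
    · refine ⟨g, ?_⟩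
      rintro x hx (rfl | rfl)
      · rfl
      · exfalso
        have h1 := hm g hgF x hx
        simp only at h1
        rw [eA g hgA, eA x hhA] at h1
        exact hcA h1
    · refine ⟨h, ?_⟩
      rintro x hx (rfl | rfl)
      · exact absurd hx hgF
      · rfl
  refine ac_glue (F1 := F.filter (fun x => x ∈ SA)) (F2 := F.filter (fun x => x ∈ SB)) (z := z)
    ?_ (filter_subset _ _) (filter_subset _ _) ?_ ?_ ?_ ?_
  · intro x hx
    simp only [mem_filter]
    have h1 := (memS x).1 (hF hx)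
    rcases h1 with h1 | h1 | h1 | h1
    · exact Or.inl ⟨hx, (memA x).2 (Or.inl h1)⟩
    · exact Or.inl ⟨hx, (memA x).2 (Or.inr (Or.inl h1))⟩
    · exact Or.inl ⟨hx, (memA x).2 (Or.inr (Or.inr h1))⟩
    · exact Or.inr ⟨hx, (memB x).2 (Or.inr (Or.inr h1))⟩
  · intro x hx hx'
    rw [mem_filter] at hx hx'
    exact hz x hx.1 (hcommon x hx.2 hx'.2)
  · intro x y hx hx' hy hy'
    rw [mem_filter] at hx hx' hy hy'
    have hxB : x ∉ SB := fun h => hx' ⟨hx.1, h⟩
    have hyA : y ∉ SA := fun h => hy' ⟨hy.1, h⟩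
    have hxA : x ∈ A := by
      rcases (memA x).1 hx.2 with h1 | h1 | h1
      · exact absurd ((memB x).2 (Or.inl h1)) hxB
      · exact absurd ((memB x).2 (Or.inr (Or.inl h1))) hxB
      · exact h1
    have hyB : y ∈ B := by
      rcases (memB y).1 hy.2 with h1 | h1 | h1
      · exact absurd ((memA y).2 (Or.inl h1)) hyA
      · exact absurd ((memA y).2 (Or.inr (Or.inl h1))) hyA
      · exact h1
    exact hnadj x hxA y hyB
  · refine hA' _ (fun x hx => (mem_filter.mp hx).2) ?_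
    intro u hu v hv
    rw [mem_filter] at hu hv
    have h1 := hm u hu.1 v hv.1
    simp only at h1
    rwa [eA u hu.2, eA v hv.2] at h1
  · refine hB' _ (fun x hx => (mem_filter.mp hx).2) ?_
    intro u hu v hv
    rw [mem_filter] at hu hv
    have h1 := hm u hu.1 v hv.1
    simp only at h1
    rw [eB u hu.2, eB v hv.2] at h1
    exact add_right_cancel h1

end Pool.Agent.Lib.PLQ
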