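import Mathlib
import Pool.Agent.Lib.PLQ.MainP
import Pool.Agent.Lib.PLQ.ExB
import Pool.Agent.Lib.PLQ.TsC
import Pool.Agent.Lib.PLQ.NoSad
import Pool.Agent.Lib.PR.Odd3

set_option autoImplicit false
set_option linter.unusedSectionVars false
set_option linter.unusedVariables false

/-! Module AsA: base case of the induction.
`base_type`: take the map of `exact`; it is `Good`; if `¬ Sep2`, `no_saddle` and `no_NRo`, `PR.two_col_odd`
give the colouring.  `base_set`: pass to the subtype (`Pl.sub`; see the proof of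
`Pool/Agent/Lib/Reserve/MP_c62493_co/TwoStrongReduction.lean`), in the case `Sep2` use `two_sum`. -/

namespace Pool.Agent.Lib.PLQ

open Finset Pool.Agent.Lib.NK
open scoped Classical

variable {V : Type} [Fintype V]

/-- base case: a planar strongly 2-connected ring-free relation on a whole type is 2-colourable or
has a 2-separation -/
theorem base_type {W : Type} [Fintype W] {R : W → W → Prop} (hirr : ∀ v, ¬ R v v)
    (hPl : Pl R univ) (h2 : TwoStr R univ) (hN : ¬ Neck R) :
    Colr R (Fin 2) univ ∨ Sep2 R := by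
  have hd : ∀ v, ∃ w, R v w := by
    intro v
    have h3 : 3 ≤ Fintype.card W := h2.1
    obtain ⟨z, hz⟩ : ∃ z, z ≠ v := by
      by_contra hcon
      push Not at hcon
      have h4 : (univ : Finset W) ⊆ {v} := fun x _ => mem_singleton.mpr (hcon x)
      have := card_le_card h4
      rw [card_singleton, card_univ] at this
      omega
    obtain ⟨w, hw⟩ : ∃ w, w ≠ v ∧ w ≠ z := by
      by_contra hcon
      push Not at hcon
      have h4 : (univ : Finset W) ⊆ {v, z} := by
        intro x _
        by_cases hx : x = v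
        · simp [hx]
        · simp [hcon x hx]
      have := card_le_card h4
      have h5 : ({v, z} : Finset W).card ≤ 2 := card_le_two
      rw [card_univ] at this
      omega
    have h4 := h2.2 z (mem_univ z) v (mem_erase.mpr ⟨hz.symm, mem_univ v⟩) w
      (mem_erase.mpr ⟨hw.2, mem_univ w⟩)
    rcases h4.cases_head with h5 | ⟨x, hx, _⟩
    · exact absurd h5.symm hw.1
    · exact ⟨x, hx⟩
  obtain ⟨D, F, _, _, M, hM, nl, np, hsw⟩ := exact hirr hPl hd
  have hMR : M.R = R := by
    funext a b
    exact propext (hM a b)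
  have hG : Good M := ⟨nl, np, hMR ▸ h2, hMR ▸ hN⟩
  by_cases hs : Sep2 R
  · exact Or.inr hs
  · left
    have h1 := no_saddle hG hsw (hMR ▸ hs)
    have h3 := no_NRo hG h1
    rw [hMR] at h3
    obtain ⟨col, hcol⟩ := PR.two_col_odd hirr h3 univ
    refine ⟨fun v => if col v = true then 0 else 1, fun F' hF hm => ?_⟩
    rcases F'.eq_empty_or_nonempty with hFe | ⟨u0, hu0⟩
    · subst hFe; exact ac_empty
    refine (hcol (col u0)).mono ?_
    intro v hv
    rw [mem_filter]
    refine ⟨mem_univ v, ?_⟩
    have := hm u0 hu0 v hv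
    cases h6 : col u0 <;> cases h7 : col v <;> simp [h6, h7] at this ⊢

theorem base_aux {W : Type} [Fintype W] (f : W → V) (hf : Function.Injective f)
    {R : V → V → Prop} {S : Finset V} (hfS : ∀ w, f w ∈ S) (hSf : ∀ v ∈ S, ∃ w, f w = v)
    (hirr : ∀ v, ¬ R v v) (hPl : Pl R S) (hPl' : Pl (fun a b : W => R (f a) (f b)) univ)
    (h2 : TwoStr R S) (hN : ¬ Neck (Rin R S))
    (ih : ∀ (R' : V → V → Prop) (S' : Finset V), S' ⊂ S → Pl R' S' → (∀ v, ¬ R' v v) →
      ¬ Neck (Rin R' S') → Colr R' (Fin 2) S') : Colr R (Fin 2) S := by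
  have hRc : ∀ (T : Finset V) (a : W) (b' : V), Rc R T (f a) b' → T ⊆ S → ∀ b : W, f b = b' →
      Rc (fun a b : W => R (f a) (f b)) (univ.filter (fun w => f w ∈ T)) a b := by
    intro T a b' h hT
    refine Rc.induct (p := fun b' => ∀ b : W, f b = b' →
      Rc (fun a b : W => R (f a) (f b)) (univ.filter (fun w => f w ∈ T)) a b) ?_ ?_ h
    · intro haT b hb
      rw [hf hb]
      exact Rc.rfl' (by rw [mem_filter]; exact ⟨mem_univ _, haT⟩)
    · intro p q hp ih' hpq hq b hb
      obtain ⟨p', rfl⟩ := hSf p (hT hp.right)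
      refine (ih' p' rfl).tail (by rw [hb]; exact hpq) (by rw [mem_filter, hb]; exact ⟨mem_univ _, hq⟩)
  have hcard : (univ : Finset W).image f = S := by
    ext v
    simp only [mem_image, mem_univ, true_and]
    exact ⟨fun ⟨w, hw⟩ => hw ▸ hfS w, hSf v⟩
  have h2' : TwoStr (fun a b : W => R (f a) (f b)) univ := by
    refine ⟨by rw [← card_image_of_injective univ hf, hcard]; exact h2.1, ?_⟩
    intro z _ a haz b hbz
    have haz' : f a ≠ f z := fun h => (mem_erase.mp haz).1 (hf h)
    have hbz' : f b ≠ f z := fun h => (mem_erase.mp hbz).1 (hf h)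
    have hr := h2.2 (f z) (hfS z) (f a) (mem_erase.mpr ⟨haz', hfS a⟩) (f b) (mem_erase.mpr ⟨hbz', hfS b⟩)
    refine (hRc _ a _ hr (erase_subset _ _) b rfl).mono ?_
    intro x hx'
    rw [mem_filter] at hx'
    exact mem_erase.mpr ⟨fun h => (mem_erase.mp hx'.2).1 (congrArg f h), mem_univ _⟩
  have hN' : ¬ Neck (fun a b : W => R (f a) (f b)) := by
    intro h
    exact hN ((h.concl.map (R := Rin R S) hf
      (fun a b hab => ⟨hab, hfS a, hfS b⟩)).neck)
  rcases base_type (fun v => hirr (f v)) hPl' h2' hN' with h | h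
  · obtain ⟨c, hc⟩ := h
    obtain ⟨g, hg⟩ : ∃ g : V → Fin 2, ∀ w, g (f w) = c w := by
      refine ⟨fun v => if h : ∃ w, f w = v then c (Classical.choose h) else 0, ?_⟩
      intro w
      have hex : ∃ w', f w' = f w := ⟨w, rfl⟩
      show (if h : ∃ w', f w' = f w then c (Classical.choose h) else 0) = c w
      rw [dif_pos hex, hf (Classical.choose_spec hex)]
    refine ⟨g, ?_⟩
    intro F hF hm
    have h1 := hc (univ.filter (fun w => f w ∈ F)) (subset_univ _) (by
      intro u hu' v hv'
      rw [mem_filter] at hu' hv'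
      have := hm (f u) hu'.2 (f v) hv'.2
      rwa [hg, hg] at this)
    intro u v huv hu hr
    obtain ⟨u', rfl⟩ := hSf u (hF hu)
    obtain ⟨v', rfl⟩ := hSf v (hF hr.left)
    exact h1 u' v' huv (by rw [mem_filter]; exact ⟨mem_univ _, hu⟩)
      (hRc F v' _ hr hF u' rfl)
  · obtain ⟨g, h', A, B, hgh, hgA, hhA, hgB, hhB, hA, hB, hAB, hall, hnadj, hLA, hLB⟩ := h
    have hRc' : ∀ (T : Finset W) (a b : W),
        Rc (fun a b : W => R (f a) (f b)) T a b → Rc R (T.image f) (f a) (f b) := by
      intro T a b hab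
      refine Rc.induct (p := fun b => Rc R (T.image f) (f a) (f b)) ?_ ?_ hab
      · intro ha; exact Rc.rfl' (mem_image_of_mem f ha)
      · intro p q hp ih' hpq hq
        exact ih'.tail hpq (mem_image_of_mem f hq)
    have hmem : ∀ (T : Finset W) (y : W), f y ∈ T.image f ↔ y ∈ T := by
      intro T y
      rw [mem_image]
      constructor
      · rintro ⟨x, hx, hxy⟩
        exact hf hxy ▸ hx
      · intro hy; exact ⟨y, hy, rfl⟩
    have hLk : ∀ (T : Finset W) (a b : W),
        Link (fun a b : W => R (f a) (f b)) T a b → Link R (T.image f) (f a) (f b) := by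
      intro T a b hab
      obtain ⟨h0, S1, S2, e1, e2, e3, e4, e5⟩ := hab
      refine ⟨fun h => h0 (hf h), _, _, hRc' _ _ _ e1, hRc' _ _ _ e2, ?_, image_subset_image e4,
        image_subset_image e5⟩
      intro x hx1 hx2
      rw [mem_image] at hx1
      obtain ⟨y, hy, rfl⟩ := hx1
      rcases e3 y hy ((hmem _ _).mp hx2) with h | h
      · left; exact congrArg f h
      · right; exact congrArg f h
    refine two_sum (A := A.image f) (B := B.image f) (g := f g) (h := f h') hirr hPl hN
      (fun h => hgh (hf h)) ⟨?_, ?_⟩ ⟨?_, ?_⟩ ?_ ?_ ?_ ?_ ?_ ?_ ?_ ih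
    · rw [hmem]; exact hgA
    · rw [hmem]; exact hgB
    · rw [hmem]; exact hhA
    · rw [hmem]; exact hhB
    · exact hA.image f
    · exact hB.image f
    · rw [Finset.disjoint_left]
      intro x hx hx'
      rw [mem_image] at hx
      obtain ⟨y, hy, rfl⟩ := hx
      exact Finset.disjoint_left.mp hAB hy ((hmem _ _).mp hx')
    · ext x
      simp only [mem_insert, mem_union]
      constructor
      · intro hx
        obtain ⟨w, rfl⟩ := hSf x hx
        rcases hall w with h | h | h | h
        · left; exact congrArg f h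
        · right; left; exact congrArg f h
        · right; right; left; exact (hmem A w).mpr h
        · right; right; right; exact (hmem B w).mpr h
      · rintro (h | h | h | h)
        · rw [h]; exact hfS g
        · rw [h]; exact hfS h'
        · rw [mem_image] at h; obtain ⟨y, _, rfl⟩ := h; exact hfS y
        · rw [mem_image] at h; obtain ⟨y, _, rfl⟩ := h; exact hfS y
    · intro a ha b hb
      rw [mem_image] at ha hb
      obtain ⟨a', ha', rfl⟩ := ha
      obtain ⟨b', hb', rfl⟩ := hb
      exact hnadj a' ha' b' hb'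
    · refine (hLk _ _ _ hLA).mono ?_
      rw [image_insert, image_insert]
    · refine (hLk _ _ _ hLB).mono ?_
      rw [image_insert, image_insert]

/-- base case for sets -/
theorem base_set {R : V → V → Prop} {S : Finset V} (hirr : ∀ v, ¬ R v v) (hPl : Pl R S)
    (h2 : TwoStr R S) (hN : ¬ Neck (Rin R S))
    (ih : ∀ (R' : V → V → Prop) (S' : Finset V), S' ⊂ S → Pl R' S' → (∀ v, ¬ R' v v) →
      ¬ Neck (Rin R' S') → Colr R' (Fin 2) S') : Colr R (Fin 2) S :=
  base_aux (fun x : {x // x ∈ S} => x.1) Subtype.val_injective (fun w => w.2)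
    (fun v hv => ⟨⟨v, hv⟩, rfl⟩) hirr hPl hPl.sub h2 hN ih

end Pool.Agent.Lib.PLQ
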