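import Mathlib
import Pool.Agent.Lib.PLQ.Basic

set_option autoImplicit false
set_option linter.unusedSectionVars false
set_option linter.unusedVariables false

/-! Module Euler: Euler's formula gives `CJ` (rank-nullity; `ncyc` in Defs). -/

namespace Pool.Agent.Lib.PLQ

open Finset Pool.Agent.Lib.NK
open scoped Classical

namespace EulerAux

/-- the difference operator of a permutation -/
def dlt (K : Type) [Field K] {D : Type} (π : Equiv.Perm D) : (D → K) →ₗ[K] (D → K) where
  toFun f := fun d => f (π d) - f d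
  map_add' f g := by
    funext d
    simp only [Pi.add_apply]
    ring
  map_smul' c f := by
    funext d
    simp only [Pi.smul_apply, smul_eq_mul, RingHom.id_apply]
    ring

theorem dlt_apply {K D : Type} [Field K] (π : Equiv.Perm D) (f : D → K) (d : D) :
    dlt K π f d = f (π d) - f d := rfl

theorem mem_ker_dlt {K D : Type} [Field K] (π : Equiv.Perm D) (f : D → K) :
    f ∈ LinearMap.ker (dlt K π) ↔ ∀ d, f (π d) = f d := by
  rw [LinearMap.mem_ker]
  constructor
  · intro h d
    have h1 := congrFun h d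
    rw [dlt_apply, Pi.zero_apply] at h1
    exact sub_eq_zero.1 h1
  · intro h
    funext d
    rw [dlt_apply, h, sub_self, Pi.zero_apply]

theorem ncyc_le {K D : Type} [Field K] [Fintype D] (π : Equiv.Perm D) :
    ncyc π ≤ Module.finrank K (LinearMap.ker (dlt K π)) := by
  have : Fintype (Quotient (Equiv.Perm.SameCycle.setoid π)) := Fintype.ofFinite _
  let q : D → Quotient (Equiv.Perm.SameCycle.setoid π) := Quotient.mk _
  have hq : Function.Surjective q := Quotient.mk_surjective
  have hinj : Function.Injective (LinearMap.funLeft K K q) :=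
    LinearMap.funLeft_injective_of_surjective K K q hq
  have hle : LinearMap.range (LinearMap.funLeft K K q) ≤ LinearMap.ker (dlt K π) := by
    rintro _ ⟨f, rfl⟩
    rw [mem_ker_dlt]
    intro d
    rw [LinearMap.funLeft_apply, LinearMap.funLeft_apply]
    congr 1
    exact Quotient.sound (Equiv.Perm.sameCycle_apply_left.2 (Equiv.Perm.SameCycle.refl π d))
  have h1 := Submodule.finrank_mono hle
  rw [LinearMap.finrank_range_of_inj hinj, Module.finrank_fintype_fun_eq_card] at h1
  unfold ncyc
  rw [Nat.card_eq_fintype_card]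
  exact h1

theorem range_le {K D : Type} [Field K] [Fintype D] (π : Equiv.Perm D) :
    Module.finrank K (LinearMap.range (dlt K π)) + ncyc π ≤ Fintype.card D := by
  have h1 := LinearMap.finrank_range_add_finrank_ker (dlt K π)
  rw [Module.finrank_fintype_fun_eq_card] at h1
  have h2 := ncyc_le (K := K) π
  omega

theorem card_le {D : Type} [Fintype D] (τ : Equiv.Perm D) (ht : ∀ d, τ (τ d) = d) :
    Fintype.card D ≤ 2 * ncyc τ := by
  have : Fintype (Quotient (Equiv.Perm.SameCycle.setoid τ)) := Fintype.ofFinite _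
  let q : D → Quotient (Equiv.Perm.SameCycle.setoid τ) := Quotient.mk _
  have h1 : (univ : Finset D).card ≤ 2 * ((univ : Finset D).image q).card := by
    apply Finset.card_le_mul_card_image
    intro a _
    obtain ⟨d, rfl⟩ := Quotient.mk_surjective a
    have h2 : (univ : Finset D).filter (fun x => q x = Quotient.mk _ d) ⊆ {d, τ d} := by
      intro x hx
      rw [Finset.mem_filter] at hx
      have h3 : τ.SameCycle x d := Quotient.exact hx.2
      obtain ⟨i, hi⟩ := h3.symm
      rw [Finset.mem_insert, Finset.mem_singleton]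
      have h4 : τ ^ (2 : ℤ) = 1 := by
        ext y
        rw [zpow_two]
        exact ht y
      rcases Int.even_or_odd' i with ⟨k, hk | hk⟩
      · left
        rw [hk, zpow_mul, h4, one_zpow] at hi
        exact hi.symm
      · right
        rw [hk, zpow_add, zpow_mul, h4, one_zpow, one_mul, zpow_one] at hi
        exact hi.symm
    exact (Finset.card_le_card h2).trans Finset.card_le_two
  have h5 : ((univ : Finset D).image q).card ≤ ncyc τ := by
    unfold ncyc
    rw [Nat.card_eq_fintype_card]
    exact Finset.card_le_univ _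
  rw [← Finset.card_univ]
  omega

theorem tau_of {α D : Type} (σ τ : Equiv.Perm D) (v : D → α) (h1 : ∀ d, v (σ d) = v d)
    (h2 : ∀ d, v ((τ * σ) d) = v d) (d : D) : v (τ d) = v d := by
  have h3 := h2 (σ⁻¹ d)
  have h4 := h1 (σ⁻¹ d)
  rw [perm_ai] at h4
  rw [Equiv.Perm.mul_apply, perm_ai] at h3
  rw [h3, ← h4]

theorem sup_ge {K D : Type} [Field K] [Fintype D] [Nonempty D] (σ τ : Equiv.Perm D)
    (hconn : ∀ p : D → Prop, (∀ d, p (σ d) ↔ p d) → (∀ d, p (τ d) ↔ p d) → ∀ d e, p d → p e) :
    Fintype.card D ≤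
      Module.finrank K (LinearMap.range (dlt K σ) ⊔ LinearMap.range (dlt K (τ * σ)) :
        Submodule K (D → K)) + 1 := by
  obtain ⟨d0⟩ := (inferInstance : Nonempty D)
  obtain ⟨W, hW⟩ : ∃ W : Submodule K (D → K),
    W = LinearMap.range (dlt K σ) ⊔ LinearMap.range (dlt K (τ * σ)) := ⟨_, rfl⟩
  rw [← hW]
  have hv : ∀ π : Equiv.Perm D, LinearMap.range (dlt K π) ≤ W → ∀ d,
      W.mkQ (Pi.single (π d) (1 : K)) = W.mkQ (Pi.single d (1 : K)) := by
    intro π hπ d
    have h1 : dlt K π (Pi.single (π d) (1 : K)) = Pi.single d 1 - Pi.single (π d) 1 := by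
      funext x
      rw [dlt_apply, Pi.sub_apply]
      congr 1
      by_cases hx : x = d
      · rw [hx, Pi.single_eq_same, Pi.single_eq_same]
      · rw [Pi.single_eq_of_ne hx, Pi.single_eq_of_ne (fun h => hx (π.injective h))]
    have h2 : (Pi.single d (1 : K) - Pi.single (π d) 1 : D → K) ∈ W := by
      rw [← h1]
      exact hπ (LinearMap.mem_range_self _ _)
    have h3 := (Submodule.Quotient.mk_eq_zero W).2 h2
    have h4 : W.mkQ (Pi.single d (1 : K) - Pi.single (π d) 1) = 0 := h3
    rw [map_sub, sub_eq_zero] at h4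
    exact h4.symm
  have hs := hv σ (by rw [hW]; exact le_sup_left)
  have hts := hv (τ * σ) (by rw [hW]; exact le_sup_right)
  have ht := tau_of σ τ (fun d => W.mkQ (Pi.single d (1 : K))) hs hts
  have hall : ∀ d, W.mkQ (Pi.single d (1 : K)) = W.mkQ (Pi.single d0 (1 : K)) := by
    intro d
    refine hconn (fun d => W.mkQ (Pi.single d (1 : K)) = W.mkQ (Pi.single d0 (1 : K)))
      (fun d => ?_) (fun d => ?_) d0 d rfl
    · show W.mkQ (Pi.single (σ d) (1 : K)) = _ ↔ _
      rw [hs]
    · have h5 : W.mkQ (Pi.single (τ d) (1 : K)) = W.mkQ (Pi.single d (1 : K)) := ht d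
      show W.mkQ (Pi.single (τ d) (1 : K)) = _ ↔ _
      rw [h5]
  have hone : Module.finrank K ((D → K) ⧸ W) ≤ 1 := by
    apply finrank_le_one (W.mkQ (Pi.single d0 (1 : K)))
    intro w
    obtain ⟨f, rfl⟩ := Submodule.mkQ_surjective W w
    refine ⟨∑ d, f d, ?_⟩
    have hf : f = ∑ d, f d • (Pi.single d (1 : K) : D → K) := by
      funext x
      rw [Finset.sum_apply, Finset.sum_eq_single x]
      · rw [Pi.smul_apply, Pi.single_eq_same, smul_eq_mul, mul_one]
      · intro b _ hb
        rw [Pi.smul_apply, Pi.single_eq_of_ne (fun h => hb h.symm), smul_zero]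
      · intro h
        exact absurd (Finset.mem_univ x) h
    have h6 : W.mkQ f = ∑ d, f d • W.mkQ (Pi.single d (1 : K)) := by
      conv_lhs => rw [hf]
      rw [map_sum]
      exact Finset.sum_congr rfl fun d _ => map_smul _ _ _
    rw [h6, Finset.sum_smul]
    exact Finset.sum_congr rfl fun d _ => by rw [hall d]
  have h7 := Submodule.finrank_quotient_add_finrank W
  rw [Module.finrank_fintype_fun_eq_card] at h7
  omega

theorem ker_le_one {K D : Type} [Field K] [Fintype D] [Nonempty D] (σ τ : Equiv.Perm D)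
    (hconn : ∀ p : D → Prop, (∀ d, p (σ d) ↔ p d) → (∀ d, p (τ d) ↔ p d) → ∀ d e, p d → p e) :
    Module.finrank K (LinearMap.ker ((dlt K σ).domRestrict (LinearMap.ker (dlt K τ)))) ≤ 1 := by
  obtain ⟨d0⟩ := (inferInstance : Nonempty D)
  have h1 : (fun _ => 1 : D → K) ∈ LinearMap.ker (dlt K τ) := (mem_ker_dlt τ _).2 fun _ => rfl
  have h2 : (⟨fun _ => 1, h1⟩ : LinearMap.ker (dlt K τ)) ∈
      LinearMap.ker ((dlt K σ).domRestrict (LinearMap.ker (dlt K τ))) := by
    rw [LinearMap.mem_ker, LinearMap.domRestrict_apply]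
    exact (mem_ker_dlt σ (fun _ => 1 : D → K)).2 fun _ => rfl
  apply finrank_le_one
    (⟨⟨fun _ => 1, h1⟩, h2⟩ : LinearMap.ker ((dlt K σ).domRestrict (LinearMap.ker (dlt K τ))))
  rintro ⟨⟨f, hf⟩, hf'⟩
  rw [LinearMap.mem_ker, LinearMap.domRestrict_apply] at hf'
  have hfs : ∀ d, f (σ d) = f d := (mem_ker_dlt σ f).1 hf'
  have hft : ∀ d, f (τ d) = f d := (mem_ker_dlt τ f).1 hf
  refine ⟨f d0, ?_⟩
  apply Subtype.ext
  apply Subtype.ext
  funext d
  show f d0 • (1 : K) = f d
  rw [smul_eq_mul, mul_one]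
  have h3 := hconn (fun d => f d = f d0) (fun d => by rw [hfs d]) (fun d => by rw [hft d]) d0 d rfl
  exact h3.symm

end EulerAux

open EulerAux

/-- Proof.  Let `E = D → K`.  `A` = functions with `c (τ d) = c d` (dimension `|D|/2`).
`im = {fun d => c (σ d) - c d | c ∈ A}` has dimension `|D|/2 - 1` (the kernel of `c ↦ ..` on `A` are
the functions invariant under `σ` and `τ`, the constants, by `hconn`).  `Z` = functions `s` which
have zero sum on all cycles of `σ` and of `τ * σ`: its dimension is `|D| - (ncyc σ + ncyc (τσ) - 1)`,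
since the functionals `sum over a cycle` span a space of dimension `ncyc σ + ncyc (τσ) - 1` (the only
relations: `∑ a_v (sum over v) + ∑ b_f (sum over f) = 0` means `a (cycle of d) + b (face of d) = 0`
for all `d`, so `a` is invariant under `σ` and `τσ`, a constant).  By Euler both dimensions are equal
and `im ⊆ Z`, so `im = Z`.  (Equivalently work with pairs `g, h` directly.) -/
theorem cj_of_euler {K D : Type} [Field K] [Fintype D] [Nonempty D] (σ τ : Equiv.Perm D)
    (ht : ∀ d, τ (τ d) = d) (hfix : ∀ d, τ d ≠ d)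
    (hconn : ∀ p : D → Prop, (∀ d, p (σ d) ↔ p d) → (∀ d, p (τ d) ↔ p d) → ∀ d e, p d → p e)
    (heul : 2 * (ncyc σ + ncyc (τ * σ)) = Fintype.card D + 4) : CJ K σ τ := by
  have hmap_le : (LinearMap.ker (dlt K τ)).map (dlt K σ) ≤
      LinearMap.range (dlt K σ) ⊓ LinearMap.range (dlt K (τ * σ)) := by
    rintro _ ⟨c, hc, rfl⟩
    refine ⟨LinearMap.mem_range_self _ _, ⟨c, ?_⟩⟩
    funext d
    rw [dlt_apply, dlt_apply, Equiv.Perm.mul_apply, (mem_ker_dlt τ c).1 hc (σ d)]
  have hrank : Module.finrank K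
      (LinearMap.range (dlt K σ) ⊓ LinearMap.range (dlt K (τ * σ)) : Submodule K (D → K)) ≤
      Module.finrank K ((LinearMap.ker (dlt K τ)).map (dlt K σ)) := by
    have h1 := Submodule.finrank_sup_add_finrank_inf_eq (LinearMap.range (dlt K σ))
      (LinearMap.range (dlt K (τ * σ)))
    have h2 := sup_ge (K := K) σ τ hconn
    have h3 := range_le (K := K) σ
    have h4 := range_le (K := K) (τ * σ)
    have h5 := LinearMap.finrank_range_add_finrank_ker
      ((dlt K σ).domRestrict (LinearMap.ker (dlt K τ)))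
    rw [LinearMap.range_domRestrict] at h5
    have h6 := ker_le_one (K := K) σ τ hconn
    have h7 := ncyc_le (K := K) τ
    have h8 := card_le τ ht
    omega
  have heq := Submodule.eq_of_le_of_finrank_le hmap_le hrank
  intro g h hgh
  have hmem : dlt K σ g ∈ LinearMap.range (dlt K σ) ⊓ LinearMap.range (dlt K (τ * σ)) := by
    refine ⟨LinearMap.mem_range_self _ _, ⟨h, ?_⟩⟩
    funext d
    rw [dlt_apply, dlt_apply, Equiv.Perm.mul_apply]
    exact (hgh d).symm
  rw [← heq] at hmem
  obtain ⟨c, hc, hcg⟩ := hmem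
  refine ⟨c, (mem_ker_dlt τ c).1 hc, fun d => ?_⟩
  have h1 := congrFun hcg d
  rw [dlt_apply, dlt_apply] at h1
  linear_combination -h1

end Pool.Agent.Lib.PLQ
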