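import Mathlib
import Pool.Agent.Lib.PLQ.Cover
import Pool.Agent.Lib.NK.Reduce2

set_option autoImplicit false
set_option linter.unusedSectionVars false
set_option linter.unusedVariables false

/-! Module RedP: the reduction to strongly 2-connected digraphs inside the planar class. -/

namespace Pool.Agent.Lib.PLQ

open Finset Pool.Agent.Lib.NK
open scoped Classical

namespace RedPAux

/-- a path to `z` inside `D`, read backwards -/
theorem toz_conn {V : Type} {R : V → V → Prop} {D : Finset V} {w z : V} (h : Rc R D w z) :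
    Relation.ReflTransGen (fun x y => (R x y ∨ R y x) ∧ y ∈ D) z w := by
  refine Rc.induct (p := fun v => Relation.ReflTransGen (fun x y => (R x y ∨ R y x) ∧ y ∈ D) v w)
    (fun _ => Relation.ReflTransGen.refl) ?_ h
  intro a b hwa hpa hab hb
  exact Relation.ReflTransGen.head ⟨Or.inr hab, hwa.right⟩ hpa

end RedPAux

/-- Same as `NK.reduce_step` (copy its proof), where the induction hypothesis is only available for
planar relations.  `Pl R1 D1`: contract the connected set `D2 = insert z X` into `z`.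
`Pl R2 D2`: contract the set of the `u ∈ cls` with `Rc R cls z u` into `z`, then restrict. -/
theorem reduce_stepP {V : Type} [Fintype V] {k : ℕ} {R : V → V → Prop} {S : Finset V} {n : ℕ}
    (hirr : ∀ v, ¬ R v v) (hn : S.card ≤ n + 1) (hstr : ∀ u ∈ S, ∀ v ∈ S, Rc R S u v)
    (hN : ¬ Neck (Rin R S)) (hPl : Pl R S) {z : V} {X : Finset V} (hP : Piece R S z X)
    (hmin : ∀ z' X', Piece R S z' X' → X.card ≤ X'.card)
    (ih : ∀ (R' : V → V → Prop) (S' : Finset V), S' ⊆ S → S'.card ≤ n → Pl R' S' →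
      (∀ v, ¬ R' v v) → ¬ Neck R' → Colr R' (Fin (k + 2)) S') : Colr R (Fin (k + 2)) S := by
  have hP' := hP
  obtain ⟨hz, hXS, ⟨p0, hp0⟩, ⟨y0, hy0, hy0X⟩, hcl⟩ := hP
  have hzX : z ∉ X := fun h => (mem_erase.mp (hXS h)).1 rfl
  obtain ⟨Y, hY⟩ : ∃ Y, Y = (S.erase z) \ X := ⟨_, rfl⟩
  obtain ⟨D1, hD1⟩ : ∃ D1, D1 = insert z Y := ⟨_, rfl⟩
  obtain ⟨D2, hD2⟩ : ∃ D2, D2 = insert z X := ⟨_, rfl⟩
  have memY : ∀ v, v ∈ Y ↔ v ≠ z ∧ v ∈ S ∧ v ∉ X := by
    intro v; rw [hY, mem_sdiff, mem_erase]; tauto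
  have memD1 : ∀ v, v ∈ D1 ↔ v = z ∨ v ∈ Y := by intro v; rw [hD1, mem_insert]
  have memD2 : ∀ v, v ∈ D2 ↔ v = z ∨ v ∈ X := by intro v; rw [hD2, mem_insert]
  have hXsub : X ⊆ S := hXS.trans (erase_subset _ _)
  have hD1S : D1 ⊆ S := by
    intro v hv
    rcases (memD1 v).mp hv with rfl | h
    · exact hz
    · exact ((memY v).mp h).2.1
  have hD2S : D2 ⊆ S := by
    intro v hv
    rcases (memD2 v).mp hv with rfl | h
    · exact hz
    · exact hXsub h
  have hD12 : ∀ v, v ∈ D1 → v ∈ D2 → v = z := by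
    intro v h1 h2
    rcases (memD1 v).mp h1 with h | h
    · exact h
    · rcases (memD2 v).mp h2 with h' | h'
      · exact h'
      · exact absurd h' ((memY v).mp h).2.2
  have hy0Y : y0 ∈ Y := (memY y0).mpr ⟨(mem_erase.mp hy0).1, (mem_erase.mp hy0).2, hy0X⟩
  have hcard1 : D1.card ≤ n := by
    have h1 : D1 ⊂ S := by
      rw [Finset.ssubset_iff_of_subset hD1S]
      exact ⟨p0, hXsub hp0, fun h => hzX (hD12 p0 h ((memD2 p0).mpr (Or.inr hp0)) ▸ hp0)⟩
    have := card_lt_card h1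
    omega
  have hcard2 : D2.card ≤ n := by
    have h1 : D2 ⊂ S := by
      rw [Finset.ssubset_iff_of_subset hD2S]
      refine ⟨y0, (mem_erase.mp hy0).2, fun h => ?_⟩
      exact (mem_erase.mp hy0).1 (hD12 y0 ((memD1 y0).mpr (Or.inr hy0Y)) h)
    have := card_lt_card h1
    omega
  -- paths from the piece to `z`
  have toz : ∀ w ∈ X, Rc R D2 w z := by
    intro w hw
    have hwz : w ≠ z := by rintro rfl; exact hzX hw
    obtain ⟨b, hb, h1⟩ := (hstr w (hXsub hw) z hz).inn hwz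
    have h2 := Rc.closed hcl hw (Subset.refl _) h1
    refine (h2.mono ?_).tail hb ((memD2 z).mpr (Or.inl rfl))
    intro v hv
    exact (memD2 v).mpr (Or.inr (mem_inter.mp hv).2)
  -- the special vertices of the piece
  obtain ⟨Ts, hTs⟩ : ∃ Ts : V → Prop, Ts = fun w => w ∈ X ∧ ∃ u1 ∈ Y, ∃ u2 ∈ Y,
      (∀ w' ∈ X, R u1 w' ↔ w' = w) ∧ (∀ w' ∈ X, R u2 w' ↔ w' = w) ∧
      ∃ P1 P2, P1 ⊆ D1 ∧ P2 ⊆ D1 ∧ Rc R P1 z u1 ∧ Rc R P2 z u2 ∧ ∀ x ∈ P1, x ∈ P2 → x = z := ⟨_, rfl⟩
  obtain ⟨U, hU⟩ : ∃ U : V → Prop, U = fun u => u ∈ Y ∧ ∃ w ∈ X, ¬ Ts w ∧ R u w := ⟨_, rfl⟩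
  obtain ⟨R1, hR1⟩ : ∃ R1 : V → V → Prop, R1 = fun a b => (R a b ∧ a ∈ D1 ∧ b ∈ D1) ∨ (b = z ∧ U a) :=
    ⟨_, rfl⟩
  have hN1 : ¬ Neck R1 := by
    intro hneck
    rcases nf (R := Rin R S) (R' := R1) (z := z) (U := U) (D := D1) (by
      intro a b hab
      rw [hR1] at hab
      rcases hab with h | h
      · exact Or.inl ⟨h.1, hD1S h.2.1, hD1S h.2.2⟩
      · exact Or.inr h) (by
      intro a b hab
      rw [hR1] at hab
      rcases hab with h | ⟨h1, h2⟩
      · exact h.2
      · rw [hU] at h2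
        exact ⟨(memD1 a).mpr (Or.inr h2.1), (memD1 b).mpr (Or.inl h1)⟩) hneck with h | h | h
    · exact hN h
    · obtain ⟨u, huD, hUu, huz, f⟩ := h
      rw [hU] at hUu
      obtain ⟨huY, w, hw, _, huw⟩ := hUu
      apply hN
      apply f (insert u D2)
      · refine Rc.rin (Rc.head huw (mem_insert_self _ _) ((toz w hw).mono (subset_insert _ _))) ?_
        exact insert_subset (hD1S huD) hD2S
      · intro x hx hxD
        rcases mem_insert.mp hx with h | h
        · exact Or.inl h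
        · exact Or.inr (hD12 x hxD h)
    · obtain ⟨u1, hu1D, u2, hu2D, hne, hu1z, hu2z, hU1, hU2, f, P1, P2, hP1, hP2, r1, r2, hPP⟩ := h
      rw [hU] at hU1 hU2
      obtain ⟨hu1Y, v1, hv1, hv1T, huv1⟩ := hU1
      obtain ⟨hu2Y, v2, hv2, hv2T, huv2⟩ := hU2
      by_cases hex : ∃ w1 ∈ X, ∃ w2 ∈ X, R u1 w1 ∧ R u2 w2 ∧ w1 ≠ w2
      · obtain ⟨w1, hw1, w2, hw2, e1, e2, hww⟩ := hex
        obtain ⟨B1, B2, b1, b2, b3, b4, b5⟩ := hP'.fan hmin hw1 hw2 hww
        apply hN
        have hu1X : u1 ∉ D2 := fun h => hu1z (hD12 u1 hu1D h)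
        have hu2X : u2 ∉ D2 := fun h => hu2z (hD12 u2 hu2D h)
        rw [← hD2] at b1 b2
        apply f (insert u1 B1) (insert u2 B2)
        · exact Rc.rin (Rc.head e1 (mem_insert_self _ _) (b3.mono (subset_insert _ _)))
            (insert_subset (hD1S hu1D) (b1.trans hD2S))
        · exact Rc.rin (Rc.head e2 (mem_insert_self _ _) (b4.mono (subset_insert _ _)))
            (insert_subset (hD1S hu2D) (b2.trans hD2S))
        · intro x hx hxD
          rcases mem_insert.mp hx with h | h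
          · exact Or.inl h
          · exact Or.inr (hD12 x hxD (b1 h))
        · intro x hx hxD
          rcases mem_insert.mp hx with h | h
          · exact Or.inl h
          · exact Or.inr (hD12 x hxD (b2 h))
        · intro x hx hx'
          rcases mem_insert.mp hx with h | h
          · rcases mem_insert.mp hx' with h' | h'
            · exact absurd (h.symm.trans h') hne
            · exact absurd (h ▸ b2 h') hu1X
          · rcases mem_insert.mp hx' with h' | h'
            · exact absurd (h' ▸ b1 h) hu2X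
            · exact b5 x h h'
      · push Not at hex
        apply hv1T
        rw [hTs]
        have h12 : v1 = v2 := hex v1 hv1 v2 hv2 huv1 huv2
        refine ⟨hv1, u1, hu1Y, u2, hu2Y, ?_, ?_, P1, P2, hP1, hP2,
          r1.monoR (fun _ _ h => h.1), r2.monoR (fun _ _ h => h.1), hPP⟩
        · intro w' hw'
          refine ⟨fun h => ?_, fun h => h ▸ huv1⟩
          rw [hex w' hw' v2 hv2 h huv2, h12]
        · intro w' hw'
          refine ⟨fun h => (hex v1 hv1 w' hw' huv1 h).symm, fun h => ?_⟩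
          rw [h, h12]; exact huv2
  have hR1irr : ∀ v, ¬ R1 v v := by
    intro v hv
    rw [hR1] at hv
    rcases hv with h | ⟨h1, h2⟩
    · exact hirr v h.1
    · rw [hU] at h2
      exact ((memY v).mp h2.1).1 h1
  have hSD : insert z (S \ D2) = D1 := by
    ext v
    rw [mem_insert, mem_sdiff, memD1, memD2, memY]
    constructor
    · rintro (h | ⟨h1, h2⟩)
      · exact Or.inl h
      · push Not at h2
        exact Or.inr ⟨h2.1, h1, h2.2⟩
    · rintro (h | ⟨h1, h2, h3⟩)
      · exact Or.inl h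
      · exact Or.inr ⟨h2, fun h => h.elim h1 h3⟩
  have hPl1 : Pl R1 D1 := by
    have hcon := Pl.con (R' := R1) (K := D2) (z := z) hPl hD2S ((memD2 z).mpr (Or.inl rfl)) (by
      intro k hk
      rcases (memD2 k).mp hk with rfl | hkX
      · exact Relation.ReflTransGen.refl
      · exact RedPAux.toz_conn (toz k hkX)) (by
      intro a ha b hb hab
      rw [hR1] at hab
      rcases hab with h | ⟨h1, h2⟩
      · exact Or.inl h.1
      · rw [hU] at h2
        obtain ⟨_, w, hw, _, haw⟩ := h2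
        exact Or.inr (Or.inl ⟨h1, w, (memD2 w).mpr (Or.inr hw), haw⟩))
    rwa [hSD] at hcon
  obtain ⟨c1, hc1⟩ := ih R1 D1 hD1S hcard1 hPl1 hR1irr hN1
  obtain ⟨cls, hcls⟩ : ∃ cls, cls = D1.filter (fun v => c1 v = c1 z) := ⟨_, rfl⟩
  have hclsD : cls ⊆ D1 := by rw [hcls]; exact filter_subset _ _
  have hzD1 : z ∈ D1 := (memD1 z).mpr (Or.inl rfl)
  have hzcls : z ∈ cls := by rw [hcls, mem_filter]; exact ⟨hzD1, rfl⟩
  have hclsAc : Ac R1 cls := by
    refine hc1 cls hclsD ?_
    intro u hu v hv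
    rw [hcls, mem_filter] at hu hv
    rw [hu.2, hv.2]
  obtain ⟨W0, hW0⟩ : ∃ W0 : V → Prop, W0 = fun w => w ∈ X ∧ ∃ u ∈ cls, R u w ∧ Rc R cls z u := ⟨_, rfl⟩
  have claim : ∀ w, W0 w → ¬ R z w → Ts w := by
    intro w hw hzw
    rw [hW0] at hw
    obtain ⟨hwX, u, hu, huw, hzu⟩ := hw
    have huz : u ≠ z := by rintro rfl; exact hzw huw
    have huY : u ∈ Y := ((memD1 u).mp (hclsD hu)).resolve_left huz
    by_contra hT
    have hUu : U u := by rw [hU]; exact ⟨huY, w, hwX, hT, huw⟩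
    refine hclsAc u z (by rw [hR1]; exact Or.inr ⟨rfl, hUu⟩) hu ?_
    refine hzu.change (Subset.refl _) ?_
    intro a ha b hb hab
    rw [hR1]; exact Or.inl ⟨hab, hclsD ha, hclsD hb⟩
  obtain ⟨R2, hR2⟩ : ∃ R2 : V → V → Prop, R2 = fun a b => (R a b ∧ a ∈ D2 ∧ b ∈ D2) ∨ (a = z ∧ W0 b) :=
    ⟨_, rfl⟩
  have hN2 : ¬ Neck R2 := by
    intro hneck
    rcases nf (R := Rv (Rin R S)) (R' := Rv R2) (z := z) (U := fun b => W0 b ∧ ¬ R z b) (D := D2) (by
      intro a b hab
      have hab' : R2 b a := hab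
      rw [hR2] at hab'
      rcases hab' with h | ⟨h1, h2⟩
      · exact Or.inl ⟨h.1, hD2S h.2.1, hD2S h.2.2⟩
      · by_cases hza : R z a
        · left
          refine ⟨by rw [h1]; exact hza, by rw [h1]; exact hz, ?_⟩
          rw [hW0] at h2
          exact hXsub h2.1
        · exact Or.inr ⟨h1, h2, hza⟩) (by
      intro a b hab
      have hab' : R2 b a := hab
      rw [hR2] at hab'
      rcases hab' with h | ⟨h1, h2⟩
      · exact ⟨h.2.2, h.2.1⟩
      · rw [hW0] at h2
        exact ⟨(memD2 a).mpr (Or.inr h2.1), (memD2 b).mpr (Or.inl h1)⟩) hneck.rv with h | h | h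
    · exact hN h.rv
    · obtain ⟨w, hwD, ⟨hWw, hzw⟩, hwz, f⟩ := h
      rw [hW0] at hWw
      obtain ⟨hwX, u, hu, huw, hzu⟩ := hWw
      apply hN
      apply Neck.rv
      apply f (insert w cls)
      · apply Rc.rv
        refine Rc.rin (((hzu.mono (subset_insert _ _)).tail huw (mem_insert_self _ _))) ?_
        exact insert_subset (hXsub hwX) (hclsD.trans hD1S)
      · intro x hx hxD
        rcases mem_insert.mp hx with h | h
        · exact Or.inl h
        · exact Or.inr (hD12 x (hclsD h) hxD)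
    · obtain ⟨w1, hw1D, w2, hw2D, hne, hw1z, hw2z, ⟨hW1, hzw1⟩, ⟨hW2, hzw2⟩, f, _⟩ := h
      have hT1 := claim w1 hW1 hzw1
      have hT2 := claim w2 hW2 hzw2
      rw [hTs] at hT1 hT2
      obtain ⟨hw1X, u1, hu1Y, u2, hu2Y, n1, n2, P1, P2, hP1, hP2, r1, r2, hPP⟩ := hT1
      obtain ⟨hw2X, v1, hv1Y, v2, hv2Y, m1, m2, Q1, Q2, hQ1, hQ2, s1, s2, hQQ⟩ := hT2
      have hw1Y : w1 ∉ Y := fun h => ((memY w1).mp h).2.2 hw1X
      have hw2Y : w2 ∉ Y := fun h => ((memY w2).mp h).2.2 hw2X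
      -- a path from `z` to `w` avoiding `x`
      have path : ∀ (w u x : V) (P : Finset V), (w = w1 ∨ w = w2) → x ≠ w → P ⊆ D1 → x ∉ P → u ∈ Y →
          R u w → Rc R P z u → ∃ a b, R z a ∧ (b = w1 ∨ b = w2) ∧
            Rc R ((insert w1 (insert w2 Y)).erase x) a b := by
        intro w u x P hw hxw hPD hxP huY huw hr
        have huz : u ≠ z := ((memY u).mp huY).1
        obtain ⟨a, ha, hr1⟩ := hr.out huz
        refine ⟨a, w, ha, hw, ?_⟩
        refine Rc.tail (hr1.mono ?_) huw ?_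
        · intro v hv
          rw [mem_erase] at hv ⊢
          refine ⟨fun e => hxP (e ▸ hv.2), ?_⟩
          rw [mem_insert, mem_insert]
          exact Or.inr (Or.inr (((memD1 v).mp (hPD hv.2)).resolve_left hv.1))
        · rw [mem_erase, mem_insert, mem_insert]
          refine ⟨Ne.symm hxw, ?_⟩
          rcases hw with h | h
          · exact Or.inl h
          · exact Or.inr (Or.inl h)
      have hD1X : ∀ x ∈ X, ∀ P ⊆ D1, x ∉ P := by
        intro x hx P hP hxP
        have := hD12 x (hP hxP) ((memD2 x).mpr (Or.inr hx))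
        exact hzX (this ▸ hx)
      obtain ⟨B1, B2, b1, b2, b3, b4, b5⟩ := fan_out (R := R) hw1Y hw2Y hne hw1z hw2z (by
        intro x
        by_cases hx1 : x = w1
        · have h1 : x ≠ w2 := fun e => hne (hx1.symm.trans e)
          exact path w2 v1 x Q1 (Or.inr rfl) h1 hQ1 (hD1X x (hx1 ▸ hw1X) Q1 hQ1) hv1Y
            ((m1 w2 hw2X).mpr rfl) s1
        · by_cases hxP1 : x ∈ P1
          · by_cases hxz : x = z
            · -- use a path avoiding nothing
              subst hxz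
              have huz : u1 ≠ x := ((memY u1).mp hu1Y).1
              obtain ⟨a, ha, hr1⟩ := r1.out huz
              refine ⟨a, w1, ha, Or.inl rfl, ?_⟩
              refine Rc.tail (hr1.mono ?_) ((n1 w1 hw1X).mpr rfl) ?_
              · intro v hv
                rw [mem_erase] at hv ⊢
                refine ⟨hv.1, ?_⟩
                rw [mem_insert, mem_insert]
                exact Or.inr (Or.inr (((memD1 v).mp (hP1 hv.2)).resolve_left hv.1))
              · rw [mem_erase, mem_insert]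
                exact ⟨hw1z, Or.inl rfl⟩
            · have hxP2 : x ∉ P2 := fun h => hxz (hPP x hxP1 h)
              exact path w1 u2 x P2 (Or.inl rfl) hx1 hP2 hxP2 hu2Y ((n2 w1 hw1X).mpr rfl) r2
          · exact path w1 u1 x P1 (Or.inl rfl) hx1 hP1 hxP1 hu1Y ((n1 w1 hw1X).mpr rfl) r1)
      have hBD : ∀ (B : Finset V) (w : V), B ⊆ insert z (insert w Y) → ∀ x ∈ B, x ∈ D2 → x = w ∨ x = z := by
        intro B w hB x hx hxD
        have h1 := hB hx
        rw [mem_insert, mem_insert] at h1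
        rcases h1 with h | h | h
        · exact Or.inr h
        · exact Or.inl h
        · exact Or.inr (hD12 x ((memD1 x).mpr (Or.inr h)) hxD)
      have hBS : ∀ (B : Finset V) (w : V), w ∈ X → B ⊆ insert z (insert w Y) → B ⊆ S := by
        intro B w hw hB x hx
        have h1 := hB hx
        rw [mem_insert, mem_insert] at h1
        rcases h1 with h | h | h
        · rw [h]; exact hz
        · rw [h]; exact hXsub hw
        · exact ((memY x).mp h).2.1
      apply hN
      apply Neck.rv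
      exact f B1 B2 (Rc.rin b3 (hBS B1 w1 hw1X b1)).rv (Rc.rin b4 (hBS B2 w2 hw2X b2)).rv
        (hBD B1 w1 b1) (hBD B2 w2 b2) b5
  have hR2irr : ∀ v, ¬ R2 v v := by
    intro v hv
    rw [hR2] at hv
    rcases hv with h | ⟨h1, h2⟩
    · exact hirr v h.1
    · rw [hW0] at h2
      exact hzX (h1 ▸ h2.1)
  have hPl2 : Pl R2 D2 := by
    obtain ⟨K, hK⟩ : ∃ K, K = cls.filter (fun u => Rc R cls z u) := ⟨_, rfl⟩
    have memK : ∀ v, v ∈ K ↔ v ∈ cls ∧ Rc R cls z v := by intro v; rw [hK, mem_filter]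
    have hKD : K ⊆ D1 := fun v hv => hclsD ((memK v).mp hv).1
    have hzK : z ∈ K := (memK z).mpr ⟨hzcls, Rc.rfl' hzcls⟩
    obtain ⟨R3, hR3⟩ : ∃ R3 : V → V → Prop, R3 = fun a b => R a b ∨ (a = z ∧ ∃ k ∈ K, R k b) :=
      ⟨_, rfl⟩
    have hcon := Pl.con (R' := R3) (K := K) (z := z) hPl (hKD.trans hD1S) hzK (by
      intro k hk
      have hk' := ((memK k).mp hk).2
      refine Rc.induct (p := fun v => Relation.ReflTransGen
        (fun x y => (R x y ∨ R y x) ∧ y ∈ K) z v) (fun _ => Relation.ReflTransGen.refl) ?_ hk'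
      intro a b hza hpa hab hb
      exact hpa.tail ⟨Or.inl hab, (memK b).mpr ⟨hb, hza.tail hab hb⟩⟩) (by
      intro a ha b hb hab
      rw [hR3] at hab
      rcases hab with h | h
      · exact Or.inl h
      · exact Or.inr (Or.inr h))
    refine Pl.mono hcon ?_ ?_
    · intro v hv
      rw [mem_insert, mem_sdiff]
      rcases (memD2 v).mp hv with h | h
      · exact Or.inl h
      · refine Or.inr ⟨hXsub h, fun hvK => ?_⟩
        exact hzX (hD12 v (hKD hvK) hv ▸ h)
    · intro a ha b hb hab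
      rw [hR2] at hab
      rw [hR3]
      rcases hab with h | ⟨h1, h2⟩
      · exact Or.inl h.1
      · rw [hW0] at h2
        obtain ⟨_, u, hu, hub, hzu⟩ := h2
        exact Or.inr ⟨h1, u, (memK u).mpr ⟨hu, hzu⟩, hub⟩
  obtain ⟨c2, hc2⟩ := ih R2 D2 hD2S hcard2 hPl2 hR2irr hN2
  refine combine (R1 := R1) (R2 := R2) (c1 := c1) (c2 := c2) hz hXS hcl (by rw [hD1, hY]) hD2 hcls ?_ ?_ ?_ hc1 hc2
  · intro a ha b hb hab; rw [hR1]; exact Or.inl ⟨hab, ha, hb⟩
  · intro a ha b hb hab; rw [hR2]; exact Or.inl ⟨hab, ha, hb⟩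
  · intro w hw u hu huw hzu
    rw [hR2]; right
    refine ⟨rfl, ?_⟩
    rw [hW0]; exact ⟨hw, u, hu, huw, hzu⟩

end Pool.Agent.Lib.PLQ
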