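import Mathlib
import Pool.Agent.Lib.PLQ.AsA
import Pool.Agent.Lib.PLQ.RedP
import Pool.Agent.Lib.PLQ.Euler

set_option autoImplicit false
set_option linter.unusedSectionVars false
set_option linter.unusedVariables false

/-! Module AsB: assembly.  `colr_planar`: induction on `n` as in `NK.reduce` (`colr_split`, `colr_small`,
`base_set`, `exists_piece` + `reduce_stepP`).  `planar_ring`: `cj_of_euler` for `ZMod 2` and `ℚ` gives `Pl`. -/

namespace Pool.Agent.Lib.PLQ

open Finset Pool.Agent.Lib.NK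
open scoped Classical

variable {V : Type} [Fintype V]

theorem colr_planar : ∀ (n : ℕ) (R : V → V → Prop) (S : Finset V), S.card ≤ n → Pl R S →
    (∀ v, ¬ R v v) → ¬ Neck (Rin R S) → Colr R (Fin 2) S := by
  intro n
  induction n with
  | zero =>
    intro R S hS _ hirr _
    exact colr_small hirr (by omega)
  | succ n ih =>
    intro R S hS hPS hirr hN
    by_cases hstr : ∀ u ∈ S, ∀ v ∈ S, Rc R S u v
    swap
    · push Not at hstr
      obtain ⟨u, hu, v, hv, huv⟩ := hstr
      refine colr_split hu hv huv ?_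
      intro T hT
      refine ih R T (by have := card_lt_card hT; omega) (hPS.mono hT.1 (fun _ _ _ _ h => h)) hirr ?_
      intro h
      exact hN (h.monoR (fun a b hab => ⟨hab.1, hT.1 hab.2.1, hT.1 hab.2.2⟩))
    by_cases h3 : 3 ≤ S.card
    swap
    · exact colr_small hirr (by omega)
    by_cases h2 : TwoStr R S
    · refine base_set hirr hPS h2 hN ?_
      intro R' S' hS' hP' hirr' hN'
      exact ih R' S' (by have := card_lt_card hS'; omega) hP' hirr' hN'
    obtain ⟨z, X, hX, hmin⟩ := exists_piece h3 h2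
    refine reduce_stepP (k := 0) hirr hS hstr hN hPS hX hmin ?_
    intro R' S' hS' hcard hP' hirr' hN'
    refine ih R' S' hcard hP' hirr' ?_
    intro h
    exact hN' (h.monoR (fun a b hab => hab.1))

/-- the final theorem -/
theorem planar_ring (G : Digraph V) (hirr : ∀ v, ¬ G.Adj v v)
    {D : Type} [Fintype D] (σ τ : Equiv.Perm D) (vt : D → V) (out : D → Bool)
    (ht : ∀ d, τ (τ d) = d) (ho : ∀ d, out (τ d) = !out d)
    (hv : ∀ d e, vt d = vt e ↔ σ.SameCycle d e)
    (hconn : ∀ p : D → Prop, (∀ d, p (σ d) ↔ p d) → (∀ d, p (τ d) ↔ p d) → ∀ d e, p d → p e)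
    (heul : 2 * (ncyc σ + ncyc (τ * σ)) = Fintype.card D + 4)
    (hcov : ∀ u v, G.Adj u v → ∃ d, out d = true ∧ vt d = u ∧ vt (τ d) = v)
    (hcol : ∀ c : V → Bool, ∃ S : Finset V, S.Nonempty ∧
          (∀ u ∈ S, ∀ v ∈ S, c u = c v) ∧ (∀ u ∈ S, ∃ v ∈ S, G.Adj u v)) :
    Concl G.Adj := by
  by_contra hno
  have hN : ¬ Neck G.Adj := fun h => hno h.concl
  have hfix : ∀ d, τ d ≠ d := by
    intro d h
    have h1 := ho d
    rw [h] at h1
    cases h2 : out d <;> simp [h2] at h1
  have hcj : ∀ (K : Type) [Field K], CJ K σ τ := by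
    intro K _
    rcases isEmpty_or_nonempty D with h | h
    · intro g k _
      exact ⟨g, fun d => isEmptyElim d, fun d => isEmptyElim d⟩
    · exact cj_of_euler σ τ ht hfix hconn heul
  have hPl : Pl G.Adj (univ : Finset V) := by
    refine ⟨D, inferInstance, ⟨σ, τ, vt, out, ht, ho, hv, hcj _, hcj _⟩, ?_⟩
    intro a _ b _ hab _
    exact hcov a b hab
  have h := colr_planar (univ : Finset V).card G.Adj univ (le_refl _) hPl hirr
    (fun h => hN (h.monoR (fun a b hab => hab.1)))
  refine h.false (fun c => ?_)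
  obtain ⟨F, hne, hm, hs⟩ := hcol (fun v => decide (c v = 0))
  refine ⟨F, subset_univ F, hne, ?_, hs⟩
  intro u hu v hv'
  have := hm u hu v hv'
  have h1 : c u = 0 ↔ c v = 0 := by
    simpa using this
  have h2 : ∀ x : Fin 2, x = 0 ∨ x = 1 := by decide
  rcases h2 (c u) with h3 | h3 <;> rcases h2 (c v) with h4 | h4
  · rw [h3, h4]
  · rw [h3, h4] at h1; simp at h1
  · rw [h3, h4] at h1; simp at h1
  · rw [h3, h4]

end Pool.Agent.Lib.PLQ
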