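import Mathlib
import Pool.Agent.Lib.PLQ.AsB
import Pool.Agent.Lib.NK.Fvs

set_option autoImplicit false
set_option linter.unusedSectionVars false
set_option linter.unusedVariables false

/-! Module Dbl: from a plane multigraph to a plane multidigraph (every edge is doubled). -/

namespace Pool.Agent.Lib.PLQ

open Finset Pool.Agent.Lib.NK
open scoped Classical

section dbl

variable {D : Type} (σ τ : Equiv.Perm D)

/-- rotation of the doubled map -/
def dσ : Equiv.Perm (D × Bool) where
  toFun x := if x.2 = true then (σ x.1, false) else (x.1, true)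
  invFun x := if x.2 = true then (x.1, false) else (σ⁻¹ x.1, true)
  left_inv := by
    rintro ⟨d, b⟩
    cases b <;> simp
  right_inv := by
    rintro ⟨d, b⟩
    cases b <;> simp

/-- the other ends in the doubled map -/
def dτ : Equiv.Perm (D × Bool) where
  toFun x := (τ x.1, !x.2)
  invFun x := (τ⁻¹ x.1, !x.2)
  left_inv := by
    rintro ⟨d, b⟩
    simp
  right_inv := by
    rintro ⟨d, b⟩
    simp

theorem dσ_false (d : D) : dσ σ (d, false) = (d, true) := rfl

theorem dσ_true (d : D) : dσ σ (d, true) = (σ d, false) := rfl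

theorem dτ_apply (d : D) (b : Bool) : dτ τ (d, b) = (τ d, !b) := rfl

theorem CJ.double {K : Type} [Field K] (h : CJ K σ τ) (ht : ∀ d, τ (τ d) = d) :
    CJ K (dσ σ) (dτ τ) := by
  intro g k hgk
  have h1 : ∀ d, g (d, true) - g (d, false) = k (τ d, false) - k (d, false) := by
    intro d
    have := hgk (d, false)
    rw [dσ_false, dτ_apply] at this
    exact this
  have h2 : ∀ d, g (σ d, false) - g (d, true) = k (τ (σ d), true) - k (d, true) := by
    intro d
    have := hgk (d, true)
    rw [dσ_true, dτ_apply] at this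
    exact this
  obtain ⟨c, hc, hc'⟩ := h (fun d => g (d, true) + k (d, false)) (fun d => k (d, true) + k (d, false)) (by
    intro d
    have e1 := h1 (σ d)
    have e2 := h2 d
    linear_combination e1 + e2)
  refine ⟨fun x => if x.2 = true then c x.1 - k (x.1, false) else c x.1 - k (τ x.1, false), ?_, ?_⟩
  · rintro ⟨d, b⟩
    rw [dτ_apply]
    cases b
    · simp [hc]
    · simp [hc, ht]
  · rintro ⟨d, b⟩
    cases b
    · rw [dσ_false]
      have e1 := h1 d
      simp only [if_true, Bool.false_eq_true, if_false]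
      linear_combination e1
    · rw [dσ_true]
      have e1 := h1 (σ d)
      have e2 := hc' d
      simp only [if_true, Bool.false_eq_true, if_false]
      linear_combination e2 - e1

theorem dσ_pow_even (d : D) (k : ℕ) : ((dσ σ) ^ (2 * k)) (d, false) = ((σ ^ k) d, false) := by
  induction k with
  | zero => rfl
  | succ k ih =>
    have : 2 * (k + 1) = 2 * k + 1 + 1 := by ring
    rw [this, pow_succ', pow_succ', Equiv.Perm.mul_apply, Equiv.Perm.mul_apply, ih, dσ_false, dσ_true,
      pow_succ', Equiv.Perm.mul_apply]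

theorem dσ_same {d e : D} [Finite D] (b b' : Bool) :
    (dσ σ).SameCycle (d, b) (e, b') ↔ σ.SameCycle d e := by
  have h0 : ∀ (d : D) (b : Bool), (dσ σ).SameCycle (d, false) (d, b) := by
    intro d b
    cases b
    · exact Equiv.Perm.SameCycle.refl _ _
    · exact ⟨1, by rw [zpow_one, dσ_false]⟩
  constructor
  · intro h
    have key : ∀ x : D × Bool, σ.SameCycle x.1 ((dσ σ) x).1 := by
      rintro ⟨d, b⟩
      cases b
      · rw [dσ_false]
      · rw [dσ_true]; exact ⟨1, by rw [zpow_one]⟩
    have key2 : ∀ (k : ℕ) (x : D × Bool), σ.SameCycle x.1 (((dσ σ) ^ k) x).1 := by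
      intro k
      induction k with
      | zero => intro x; exact Equiv.Perm.SameCycle.refl _ _
      | succ k ih =>
        intro x
        rw [pow_succ', Equiv.Perm.mul_apply]
        exact (ih x).trans (key _)
    obtain ⟨k, hk⟩ := h.exists_nat_pow_eq
    have := key2 k (d, b)
    rw [hk] at this
    exact this
  · intro h
    obtain ⟨k, hk⟩ := h.exists_nat_pow_eq
    have h1 : (dσ σ).SameCycle (d, false) (e, false) := by
      refine ⟨((2 * k : ℕ) : ℤ), ?_⟩
      rw [zpow_natCast, dσ_pow_even, hk]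
    exact ((h0 d b).symm.trans h1).trans (h0 e b')

end dbl

variable {V : Type} [Fintype V]

/-- Q1 for planar digraphs -/
theorem planar_ring' (G : Digraph V) (hirr : ∀ v, ¬ G.Adj v v)
    {D : Type} [Fintype D] (σ τ : Equiv.Perm D) (vt : D → V)
    (ht : ∀ d, τ (τ d) = d) (hfix : ∀ d, τ d ≠ d)
    (hv : ∀ d e, vt d = vt e ↔ σ.SameCycle d e)
    (hconn : ∀ p : D → Prop, (∀ d, p (σ d) ↔ p d) → (∀ d, p (τ d) ↔ p d) → ∀ d e, p d → p e)
    (heul : 2 * (ncyc σ + ncyc (τ * σ)) = Fintype.card D + 4)
    (hcov : ∀ u v, G.Adj u v → ∃ d, vt d = u ∧ vt (τ d) = v)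
    (hcol : ∀ c : V → Bool, ∃ S : Finset V, S.Nonempty ∧
          (∀ u ∈ S, ∀ v ∈ S, c u = c v) ∧ (∀ u ∈ S, ∃ v ∈ S, G.Adj u v)) :
    Concl G.Adj := by
  have hne : Nonempty D := by
    obtain ⟨S, ⟨u, hu⟩, _, h2⟩ := hcol (fun _ => true)
    obtain ⟨v, _, huv⟩ := h2 u hu
    obtain ⟨d, _⟩ := hcov u v huv
    exact ⟨d⟩
  have hPl : Pl G.Adj univ := by
    refine ⟨D × Bool, inferInstance,
      { σ := dσ σ
        τ := dτ τ
        vt := fun x => vt x.1
        out := fun x => x.2
        tt := ?_
        ot := ?_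
        vs := ?_
        cj2 := (cj_of_euler σ τ ht hfix hconn heul).double σ τ ht
        cjq := (cj_of_euler σ τ ht hfix hconn heul).double σ τ ht }, ?_⟩
    · rintro ⟨d, b⟩
      rw [dτ_apply, dτ_apply, ht]; simp
    · rintro ⟨d, b⟩
      rfl
    · rintro ⟨d, b⟩ ⟨e, b'⟩
      rw [dσ_same]
      exact hv d e
    · intro a _ b _ hab _
      obtain ⟨d, hd, hd'⟩ := hcov a b hab
      exact ⟨(d, true), rfl, hd, hd'⟩
  by_contra hC
  have hN : ¬ Neck (Rin G.Adj univ) := fun h => hC (h.monoR (fun a b hab => hab.1)).concl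
  have hc := colr_planar (univ : Finset V).card G.Adj univ (le_refl _) hPl hirr hN
  obtain ⟨c, hc⟩ := hc
  obtain ⟨S, hS, hm, hs⟩ := hcol (fun v => decide (c v = 0))
  have hAc := hc S (subset_univ S) (by
    intro u hu v hv
    have := hm u hu v hv
    have h01 : ∀ x : Fin 2, x = 0 ∨ x = 1 := by decide
    rcases h01 (c u) with h | h <;> rcases h01 (c v) with h' | h'
    · rw [h, h']
    · simp [h, h'] at this
    · simp [h, h'] at this
    · rw [h, h'])
  exact hAc.sink (Finset.Subset.refl S) hS hs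

end Pool.Agent.Lib.PLQ
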